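import Pool.Agent.H639.Tool

/-!
Atoms of the algebra of the subsets of a regular cardinal which are in HOD, modulo nonstationary
sets.
-/

set_option autoImplicit false
set_option linter.unusedVariables false

namespace Pool.Agent.H639

open ZFSet Gss969 Pool.Agent.H310.HD

universe u

/-- The subsets of `l` in HOD. -/
noncomputable def Ph (l : ZFSet.{u}) : ZFSet.{u} := ZFSet.sep HOD (powerset l)

theorem mem_Ph {l X : ZFSet.{u}} : X ∈ Ph l ↔ X ⊆ l ∧ HOD X := by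
  unfold Ph
  rw [mem_sep, mem_powerset]

theorem OD_powerset {l : ZFSet.{u}} (h : HOD l) : OD (powerset l) := by
  refine OD_of (R := fun y x => (∀ z ∈ y, z ⊆ x 0) ∧ ∀ z, z ⊆ x 0 → z ∈ y)
    (x := asg l l ∅ ∅ ∅ ∅) ?_ h.od h.od
    (asg_ord empty_ord empty_ord empty_ord empty_ord) (fun w => ?_)
  · exact (Dfn.ball Lvl_sub_Trs _ (dfn_sub Lvl_sub_Trs _ _)).and
      (Dfn.allsub subset_rfl _ (Dfn.mem _ _))
  · show (∀ z ∈ w, z ⊆ l) ∧ (∀ z, z ⊆ l → z ∈ w) ↔ _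
    constructor
    · rintro ⟨h1, h2⟩
      ext z
      rw [mem_powerset]
      exact ⟨h1 z, h2 z⟩
    · rintro rfl
      exact ⟨fun z hz => mem_powerset.1 hz, fun z hz => mem_powerset.2 hz⟩

theorem HOD_Ph {l : ZFSet.{u}} (h : HOD l) : HOD (Ph l) := HOD_sepHOD (OD_powerset h)

theorem HOD_empty : HOD (∅ : ZFSet.{u}) := by
  have := HOD_ord (0 : Ordinal.{u})
  rwa [Ordinal.toZFSet_zero] at this

theorem empty_mem_Ph {l : ZFSet.{u}} : ∅ ∈ Ph l :=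
  mem_Ph.2 ⟨fun z hz => absurd hz (notMem_empty z), HOD_empty⟩

/-- The elements of `B` which are not in `A`. -/
noncomputable def dif (B A : ZFSet.{u}) : ZFSet.{u} := ZFSet.sep (fun x => ¬ x ∈ A) B

theorem mem_dif {B A x : ZFSet.{u}} : x ∈ dif B A ↔ x ∈ B ∧ ¬ x ∈ A := mem_sep

theorem HOD_dif {B A : ZFSet.{u}} (hB : HOD B) (hA : HOD A) : HOD (dif B A) :=
  HOD_sep4 (Ψ := fun v => ¬ v 0 ∈ v 2) (Dfn.mem _ _).not hB hA hA hA 0 0 0 0 0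

/-- `A` is an atom: a stationary subset of `l` in HOD, which is not the union of two disjoint
stationary sets in HOD. -/
def Atom (l A : ZFSet.{u}) : Prop :=
  HOD A ∧ A ⊆ l ∧ Stat A l ∧ ∀ B, B ⊆ A → HOD B → ¬ (Stat B l ∧ Stat (dif A B) l)

/-- The set `v 0` splits `{ξ ∈ A : ∀ j ∈ i, ξ ∈ f(j) ↔ α ∈ f(j)}` into stationary sets. -/
def Spl (v : ℕ → ZFSet.{u}) : Prop :=
  ∃ B, B ⊆ v 4 ∧ ((∀ ξ ∈ v 4, (ξ ∈ B ↔ ∀ j ∈ v 2, ∀ Y ∈ v 3, pair j Y ∈ v 1 →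
    (ξ ∈ Y ↔ v 6 ∈ Y))) ∧ (v 0 ⊆ B ∧ (Stat (v 0) (v 7) ∧
      ∃ D, D ⊆ B ∧ ((∀ ξ ∈ B, (ξ ∈ D ↔ ¬ ξ ∈ v 0)) ∧ Stat D (v 7)))))

theorem dfn_Spl : Dfn Lvl.{u} Spl := by
  unfold Spl
  refine Dfn.exsub subset_rfl _ (Dfn.and ?_ (Dfn.and ?_ (Dfn.and ?_
    (Dfn.exsub subset_rfl _ (Dfn.and ?_ ?_)))))
  · repeat' first
      | exact Dfn.mem _ _ | exact dfn_pm Lvl_sub_Trs _ _ _ | refine Dfn.iff ?_ ?_
      | refine Dfn.ball Lvl_sub_Trs _ ?_ | refine Dfn.imp ?_ ?_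
  · exact dfn_sub Lvl_sub_Trs _ _
  · exact dfn_Stat _ _
  · exact Dfn.ball Lvl_sub_Trs _ ((Dfn.mem _ _).iff (Dfn.mem _ _).not)
  · exact dfn_Stat _ _

variable {l s : Ordinal.{u}} {A W : ZFSet.{u}}

/-- The part of `A` which makes the same decisions as `α` before `i`. -/
noncomputable def prt (A : ZFSet.{u}) (K : Ordinal.{u} → ZFSet.{u}) (α : ZFSet.{u})
    (i : Ordinal.{u}) : ZFSet.{u} := ZFSet.sep (fun ξ => ∀ j < i, (ξ ∈ K j ↔ α ∈ K j)) A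

theorem mem_prt {K : Ordinal.{u} → ZFSet.{u}} {α ξ : ZFSet.{u}} {i : Ordinal.{u}} :
    ξ ∈ prt A K α i ↔ ξ ∈ A ∧ ∀ j < i, (ξ ∈ K j ↔ α ∈ K j) := mem_sep

theorem spl_iff {K : Ordinal.{u} → ZFSet.{u}} {Q : ZFSet.{u}} {i : Ordinal.{u}}
    (hK : ∀ j < i, K j ∈ Q) {X q α b c d : ZFSet.{u}} :
    Spl (as X (gz i K) i.toZFSet Q A q α b c d) ↔
      X ⊆ prt A K α i ∧ Stat X b ∧ Stat (dif (prt A K α i) X) b := by
  have e : ∀ ξ, (∀ j ∈ i.toZFSet, ∀ Y ∈ Q, pair j Y ∈ gz i K → (ξ ∈ Y ↔ α ∈ Y)) ↔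
      ∀ j < i, (ξ ∈ K j ↔ α ∈ K j) := by
    intro ξ
    constructor
    · intro h j hj
      exact h _ (tzm.2 hj) _ (hK j hj) (pair_gz.2 ⟨hj, rfl⟩)
    · intro h j hj Y hY h1
      obtain ⟨j, hj', rfl⟩ := Ordinal.mem_toZFSet_iff.1 hj
      rw [← (pair_gz.1 h1).2]
      exact h j hj'
  show (∃ B, B ⊆ A ∧ ((∀ ξ ∈ A, (ξ ∈ B ↔ ∀ j ∈ i.toZFSet, ∀ Y ∈ Q, pair j Y ∈ gz i K →
    (ξ ∈ Y ↔ α ∈ Y))) ∧ (X ⊆ B ∧ (Stat X b ∧
      ∃ D, D ⊆ B ∧ ((∀ ξ ∈ B, (ξ ∈ D ↔ ¬ ξ ∈ X)) ∧ Stat D b))))) ↔ _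
  constructor
  · rintro ⟨B, h1, h2, h3, h4, D, h5, h6, h7⟩
    have eB : B = prt A K α i := by
      ext ξ
      rw [mem_prt]
      constructor
      · intro h
        exact ⟨h1 h, (e ξ).1 ((h2 ξ (h1 h)).1 h)⟩
      · rintro ⟨ha, h⟩
        exact (h2 ξ ha).2 ((e ξ).2 h)
    have eD : D = dif (prt A K α i) X := by
      ext ξ
      rw [mem_dif, ← eB]
      exact ⟨fun h => ⟨h5 h, (h6 ξ (h5 h)).1 h⟩, fun h => (h6 ξ h.1).2 h.2⟩
    rw [← eD, ← eB]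
    exact ⟨h3, h4, h7⟩
  · rintro ⟨h1, h2, h3⟩
    refine ⟨_, sep_subset, fun ξ hξ => ?_, h1, h2, _, sep_subset, fun ξ hξ => ?_, h3⟩
    · rw [e, mem_sep]
      exact ⟨fun h => h.2, fun h => ⟨hξ, h⟩⟩
    · rw [mem_sep]
      exact ⟨fun h => h.2, fun h => ⟨hξ, h⟩⟩

/-- The sets by which `A` is split. -/
noncomputable def KK (l : Ordinal.{u}) (A W : ZFSet.{u}) (α : Ordinal.{u}) :
    Ordinal.{u} → ZFSet.{u} :=
  rc (fun X f i => Spl (as X f i (Ph l.toZFSet) A A α.toZFSet l.toZFSet (0 : Ordinal.{u}).toZFSet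
    (0 : Ordinal.{u}).toZFSet)) (Ph l.toZFSet) W

theorem KK_mem (hWO : IsWO W (Ph l.toZFSet)) (α i : Ordinal.{u}) :
    KK l A W α i ∈ Ph l.toZFSet := rc_mem _ hWO empty_mem_Ph i

theorem HOD_gz_KK (hA : HOD A) (hW : HOD W) (hWO : IsWO W (Ph l.toZFSet)) (α i : Ordinal.{u}) :
    HOD (gz i (KK l A W α)) :=
  HOD_rc dfn_Spl (HOD_Ph (HOD_ord l)) hW hWO empty_mem_Ph hA hA α l 0 0 i

theorem KK_spec (hWO : IsWO W (Ph l.toZFSet)) (α i : Ordinal.{u})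
    (h : ∃ X ∈ Ph l.toZFSet, X ⊆ prt A (KK l A W α) α.toZFSet i ∧ Stat X l.toZFSet ∧
      Stat (dif (prt A (KK l A W α) α.toZFSet i) X) l.toZFSet) :
    KK l A W α i ⊆ prt A (KK l A W α) α.toZFSet i ∧ Stat (KK l A W α i) l.toZFSet ∧
      Stat (dif (prt A (KK l A W α) α.toZFSet i) (KK l A W α i)) l.toZFSet := by
  have h1 := lst_spec (fun X => Spl (as X (gz i (KK l A W α)) i.toZFSet (Ph l.toZFSet) A A
    α.toZFSet l.toZFSet (0 : Ordinal.{u}).toZFSet (0 : Ordinal.{u}).toZFSet)) hWO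
  have h2 : KK l A W α i = _ := rc_eq _ _ _ _
  rw [← spl_iff (fun j _ => KK_mem hWO α j) (q := A) (c := (0 : Ordinal.{u}).toZFSet)
    (d := (0 : Ordinal.{u}).toZFSet) (Q := Ph l.toZFSet)]
  obtain ⟨X, hX, h3⟩ := h
  rw [← spl_iff (fun j _ => KK_mem hWO α j) (q := A) (c := (0 : Ordinal.{u}).toZFSet)
    (d := (0 : Ordinal.{u}).toZFSet) (Q := Ph l.toZFSet)] at h3
  rcases h1 with ⟨_, h4, _⟩ | ⟨h4, _⟩
  · rw [h2]
    exact h4
  · exact absurd ⟨X, hX, h3⟩ h4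

/-- Equal decisions give equal sequences. -/
theorem KK_congr (hWO : IsWO W (Ph l.toZFSet)) {α β : Ordinal.{u}}
    (h : ∀ i < s, (α.toZFSet ∈ KK l A W α i ↔ β.toZFSet ∈ KK l A W β i)) :
    ∀ i ≤ s, KK l A W α i = KK l A W β i := by
  intro i
  induction i using WellFoundedLT.induction with
  | _ i ih =>
    intro hi
    have e1 : gz i (KK l A W α) = gz i (KK l A W β) :=
      gz_congr fun k hk => ih k hk (hk.le.trans hi)
    have e2 : prt A (KK l A W α) α.toZFSet i = prt A (KK l A W β) β.toZFSet i := by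
      ext ξ
      rw [mem_prt, mem_prt]
      refine and_congr_right fun _ => forall₂_congr fun j hj => ?_
      rw [h j (lt_of_lt_of_le hj hi), ih j hj (hj.le.trans hi)]
    have a1 : KK l A W α i = _ := rc_eq _ _ _ _
    have a2 : KK l A W β i = _ := rc_eq _ _ _ _
    rw [a1, a2]
    congr 1
    funext X
    apply propext
    show Spl (as X (gz i (KK l A W α)) i.toZFSet (Ph l.toZFSet) A A
      α.toZFSet l.toZFSet (0 : Ordinal.{u}).toZFSet (0 : Ordinal.{u}).toZFSet) ↔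
      Spl (as X (gz i (KK l A W β)) i.toZFSet (Ph l.toZFSet) A A
      β.toZFSet l.toZFSet (0 : Ordinal.{u}).toZFSet (0 : Ordinal.{u}).toZFSet)
    rw [spl_iff fun j _ => KK_mem hWO α j, spl_iff fun j _ => KK_mem hWO β j, e2]

/-- The piece which is dropped at `i`. -/
theorem HOD_prt (hA : HOD A) (hW : HOD W) (hWO : IsWO W (Ph l.toZFSet)) (α i : Ordinal.{u}) :
    HOD (prt A (KK l A W α) α.toZFSet i) := by
  have h := HOD_sep4 (Ψ := fun v => ∀ j ∈ v 5, ∀ Y ∈ v 3, pair j Y ∈ v 2 → (v 0 ∈ Y ↔ v 6 ∈ Y))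
    (A := A) (p := gz i (KK l A W α)) (q := Ph l.toZFSet) (r := A) (by
      repeat' first
        | exact Dfn.mem _ _ | exact dfn_pm Lvl_sub_Trs _ _ _ | refine Dfn.iff ?_ ?_
        | refine Dfn.ball Lvl_sub_Trs _ ?_ | refine Dfn.imp ?_ ?_) hA
    (HOD_gz_KK hA hW hWO α i) (HOD_Ph (HOD_ord l)) hA i α 0 0 0
  have e : prt A (KK l A W α) α.toZFSet i = ZFSet.sep (fun ξ => ∀ j ∈ i.toZFSet,
      ∀ Y ∈ Ph l.toZFSet, pair j Y ∈ gz i (KK l A W α) → (ξ ∈ Y ↔ α.toZFSet ∈ Y)) A := by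
    ext ξ
    rw [mem_prt, mem_sep]
    refine and_congr_right fun _ => ?_
    constructor
    · intro h j hj Y hY h1
      obtain ⟨j, hj', rfl⟩ := Ordinal.mem_toZFSet_iff.1 hj
      rw [← (pair_gz.1 h1).2]
      exact h j hj'
    · intro h j hj
      exact h _ (tzm.2 hj) _ (KK_mem hWO α j) (pair_gz.2 ⟨hj, rfl⟩)
  rw [e]
  exact h

end Pool.Agent.H639
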