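import Pool.Agent.H639.Atom

/-!
Existence of atoms.
-/

set_option autoImplicit false
set_option linter.unusedVariables false

namespace Pool.Agent.H639

open ZFSet Gss969 Pool.Agent.H310.HD

universe u

variable {l s μ : Ordinal.{u}} {A W : ZFSet.{u}}

theorem statL_nonempty (hl : RegUnc l.toZFSet) {S : Set Ordinal.{u}} (h : StatL S l) :
    ∃ α < l, α ∈ S := by
  obtain ⟨α, h1, h2, _⟩ := h _ (fun x hx => (mem_sep.1 hx).1)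
    (club_closure hl (fun _ => 0) fun _ _ => hl.pos)
  exact ⟨α, h1, h2⟩

theorem stat_mono {l S S' : ZFSet.{u}} (h : Stat S l) (hs : S ⊆ S') : Stat S' l := by
  intro C hC hC'
  obtain ⟨x, hx, h1⟩ := h C hC hC'
  exact ⟨x, hs hx, h1⟩

/-- **Existence of atoms.** If `2 ^ s < l` and there are no `s` disjoint stationary sets in HOD
whose elements have a cofinal function from `μ`, then every stationary set in HOD of this kind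
contains an atom. -/
theorem exists_atom (hl : RegUnc l.toZFSet) (hs : s < l)
    (hP : ∃ m < l, ∃ g, IsFunc (Ordinal.toZFSet m) (powerset s.toZFSet) g ∧
      ∀ B, B ⊆ s.toZFSet → ∃ i ∈ (Ordinal.toZFSet m), pair i B ∈ g)
    (hno : ∀ S, HOD S → ¬ Fam μ.toZFSet s.toZFSet l.toZFSet S)
    (hA : HOD A) (hAl : A ⊆ l.toZFSet) (hAs : Stat A l.toZFSet)
    (hAc : ∀ a ∈ A, CofN μ.toZFSet a) : ∃ A', A' ⊆ A ∧ Atom l.toZFSet A' := by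
  by_contra hcon
  push Not at hcon
  obtain ⟨W, hW, hWO, _⟩ := exists_wo (HOD_Ph (HOD_ord l))
  let T : Ordinal.{u} → ZFSet.{u} := fun α =>
    ZFSet.sep (fun z => α.toZFSet ∈ KK l A W α (rank z)) s.toZFSet
  have hT : ∀ α j, j < s → (j.toZFSet ∈ T α ↔ α.toZFSet ∈ KK l A W α j) := by
    intro α j hj
    show _ ∈ ZFSet.sep _ _ ↔ _
    rw [mem_sep, Ordinal.rank_toZFSet]
    exact ⟨fun h => h.2, fun h => ⟨tzm.2 hj, h⟩⟩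
  obtain ⟨m, hm, g, hg, hgo⟩ := hP
  obtain ⟨i₀, hi₀, hst⟩ := StatL.union hl (stat_iff.1 hAs) hm
    (P := fun i α => pair i.toZFSet (T α) ∈ g) (by
      intro α hα _
      obtain ⟨i, hi, h⟩ := hgo (T α) sep_subset
      obtain ⟨i, hi', rfl⟩ := Ordinal.mem_toZFSet_iff.1 hi
      exact ⟨i, hi', h⟩)
  obtain ⟨α₀, hα₀l, hα₀A, hα₀g⟩ := statL_nonempty hl hst
  have hTe : ∀ β, β.toZFSet ∈ A → pair i₀.toZFSet (T β) ∈ g → T β = T α₀ := by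
    intro β _ h
    exact (hg.2 _ (tzm.2 hi₀)).unique h hα₀g
  have hdec : ∀ β, β.toZFSet ∈ A → pair i₀.toZFSet (T β) ∈ g →
      ∀ i < s, (β.toZFSet ∈ KK l A W β i ↔ α₀.toZFSet ∈ KK l A W α₀ i) := by
    intro β h1 h2 i hi
    rw [← hT β i hi, hTe β h1 h2, hT α₀ i hi]
  have hKe : ∀ β, β.toZFSet ∈ A → pair i₀.toZFSet (T β) ∈ g →
      ∀ i ≤ s, KK l A W β i = KK l A W α₀ i :=
    fun β h1 h2 => KK_congr hWO (hdec β h1 h2)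
  have hprt : ∀ i ≤ s, Stat (prt A (KK l A W α₀) α₀.toZFSet i) l.toZFSet := by
    intro i hi
    rw [stat_iff]
    refine hst.mono ?_
    rintro β hβ ⟨h1, h2⟩
    show β.toZFSet ∈ prt A (KK l A W α₀) α₀.toZFSet i
    rw [mem_prt]
    refine ⟨h1, fun j hj => ?_⟩
    rw [← hdec β h1 h2 j (lt_of_lt_of_le hj hi), hKe β h1 h2 j (hj.le.trans hi)]
  have hspec : ∀ i ≤ s, KK l A W α₀ i ⊆ prt A (KK l A W α₀) α₀.toZFSet i ∧
      Stat (KK l A W α₀ i) l.toZFSet ∧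
      Stat (dif (prt A (KK l A W α₀) α₀.toZFSet i) (KK l A W α₀ i)) l.toZFSet := by
    intro i hi
    refine KK_spec hWO α₀ i ?_
    have h1 : prt A (KK l A W α₀) α₀.toZFSet i ⊆ A := sep_subset
    have h2 := hcon _ h1
    have h3 : HOD (prt A (KK l A W α₀) α₀.toZFSet i) := HOD_prt hA hW hWO α₀ i
    unfold Atom at h2
    have h4 : ¬ ∀ B, B ⊆ prt A (KK l A W α₀) α₀.toZFSet i → HOD B →
        ¬ (Stat B l.toZFSet ∧ Stat (dif (prt A (KK l A W α₀) α₀.toZFSet i) B) l.toZFSet) :=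
      fun h => h2 ⟨h3, fun x hx => hAl (h1 hx), hprt i hi, h⟩
    push Not at h4
    obtain ⟨B, h5, h6, h7⟩ := h4
    exact ⟨B, mem_Ph.2 ⟨fun x hx => hAl (h1 (h5 hx)), h6⟩, h5, h7⟩
  let Ψ : (ℕ → ZFSet.{u}) → Prop := fun v =>
    (∀ j ∈ v 1, ∀ Y ∈ v 4, pair j Y ∈ v 3 → (v 0 ∈ Y ↔ v 6 ∈ Y)) ∧
      ∃ Y ∈ v 4, pair (v 1) Y ∈ v 3 ∧ ¬ (v 0 ∈ Y ↔ v 6 ∈ Y)
  have hΨ : Dfn Lvl.{u} Ψ := by
    show Dfn Lvl.{u} (fun v => (∀ j ∈ v 1, ∀ Y ∈ v 4, pair j Y ∈ v 3 → (v 0 ∈ Y ↔ v 6 ∈ Y)) ∧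
      ∃ Y ∈ v 4, pair (v 1) Y ∈ v 3 ∧ ¬ (v 0 ∈ Y ↔ v 6 ∈ Y))
    repeat' first
      | exact Dfn.mem _ _ | exact dfn_pm Lvl_sub_Trs _ _ _ | refine Dfn.iff ?_ ?_
      | refine Dfn.and ?_ ?_ | refine Dfn.not ?_
      | refine Dfn.ball Lvl_sub_Trs _ ?_ | refine Dfn.bex Lvl_sub_Trs _ ?_ | refine Dfn.imp ?_ ?_
  have hH := HOD_fam4 hΨ (A := A) (p := gz s (KK l A W α₀)) (q := Ph l.toZFSet) (r := A) hA
    (HOD_gz_KK hA hW hWO α₀ s) (HOD_Ph (HOD_ord l)) hA α₀ 0 0 s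
  have hΨe : ∀ i < s, ∀ ξ, Ψ (as ξ i.toZFSet A (gz s (KK l A W α₀)) (Ph l.toZFSet) A
      α₀.toZFSet (0 : Ordinal.{u}).toZFSet (0 : Ordinal.{u}).toZFSet s.toZFSet) ↔
      (∀ j < i, (ξ ∈ KK l A W α₀ j ↔ α₀.toZFSet ∈ KK l A W α₀ j)) ∧
        ¬ (ξ ∈ KK l A W α₀ i ↔ α₀.toZFSet ∈ KK l A W α₀ i) := by
    intro i hi ξ
    show (∀ j ∈ i.toZFSet, ∀ Y ∈ Ph l.toZFSet, pair j Y ∈ gz s (KK l A W α₀) →
        (ξ ∈ Y ↔ α₀.toZFSet ∈ Y)) ∧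
      (∃ Y ∈ Ph l.toZFSet, pair i.toZFSet Y ∈ gz s (KK l A W α₀) ∧
        ¬ (ξ ∈ Y ↔ α₀.toZFSet ∈ Y)) ↔ _
    refine and_congr ?_ ?_
    · constructor
      · intro h j hj
        exact h _ (tzm.2 hj) _ (KK_mem hWO α₀ j) (pair_gz.2 ⟨hj.trans hi, rfl⟩)
      · intro h j hj Y hY h1
        obtain ⟨j, hj', rfl⟩ := Ordinal.mem_toZFSet_iff.1 hj
        rw [← (pair_gz.1 h1).2]
        exact h j hj'
    · constructor
      · rintro ⟨Y, _, h1, h2⟩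
        rw [← (pair_gz.1 h1).2] at h2
        exact h2
      · intro h
        exact ⟨_, KK_mem hWO α₀ i, pair_gz.2 ⟨hi, rfl⟩, h⟩
  have hmem : ∀ i < s, ∀ ξ, (ξ ∈ ZFSet.sep (fun ξ => Ψ (as ξ i.toZFSet A (gz s (KK l A W α₀))
      (Ph l.toZFSet) A α₀.toZFSet (0 : Ordinal.{u}).toZFSet (0 : Ordinal.{u}).toZFSet s.toZFSet)) A
      ↔ ξ ∈ prt A (KK l A W α₀) α₀.toZFSet i ∧
        ¬ (ξ ∈ KK l A W α₀ i ↔ α₀.toZFSet ∈ KK l A W α₀ i)) := by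
    intro i hi ξ
    rw [mem_sep, hΨe i hi, mem_prt, and_assoc]
  refine hno _ hH ⟨?_, ?_, ?_⟩
  · refine isFunc_gr fun x hx => ?_
    rw [mem_powerset]
    exact fun z hz => hAl (mem_sep.1 hz).1
  · intro i hi X hX hiX
    obtain ⟨hi1, rfl⟩ := pair_mem_gr.1 hiX
    obtain ⟨i, hi', rfl⟩ := Ordinal.mem_toZFSet_iff.1 hi
    refine ⟨?_, fun a ha => hAc a (mem_sep.1 ha).1⟩
    obtain ⟨h1, h2, h3⟩ := hspec i hi'.le
    by_cases h4 : α₀.toZFSet ∈ KK l A W α₀ i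
    · refine stat_mono h3 fun ξ hξ => ?_
      rw [mem_dif] at hξ
      exact (hmem i hi' ξ).2 ⟨hξ.1, fun h => hξ.2 (h.2 h4)⟩
    · refine stat_mono h2 fun ξ hξ => ?_
      exact (hmem i hi' ξ).2 ⟨h1 hξ, fun h => h4 (h.1 hξ)⟩
  · intro i hi i' hi' X hX X' hX' hiX hiX' hex
    obtain ⟨_, rfl⟩ := pair_mem_gr.1 hiX
    obtain ⟨_, rfl⟩ := pair_mem_gr.1 hiX'
    obtain ⟨i, hi1, rfl⟩ := Ordinal.mem_toZFSet_iff.1 hi
    obtain ⟨i', hi1', rfl⟩ := Ordinal.mem_toZFSet_iff.1 hi'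
    obtain ⟨ξ, h1, h2⟩ := hex
    have h3 := (hmem i hi1 ξ).1 h1
    have h4 := (hmem i' hi1' ξ).1 h2
    rcases lt_trichotomy i i' with h | h | h
    · exact absurd ((mem_prt.1 h4.1).2 i h) h3.2
    · rw [h]
    · exact absurd ((mem_prt.1 h3.1).2 i' h) h4.2

end Pool.Agent.H639
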