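import Pool.Agent.H639.Tool
import Pool.Graph.R_pool_sql_team_seeded_2aa45f1a.H310.HD.Par

/-!
Closure properties of the sets definable from ordinals and a set `p`.
-/

set_option autoImplicit false

namespace Pool.Agent.H639

open Pool.Agent.H310.HD Gss969 ZFSet

universe u

theorem mem_lvl_of_def {φ : Fml} {G : ZFSet.{u}} {q : ℕ → ZFSet.{u}} {U : ZFSet.{u}}
    (hU : U ∈ Lvl.{u}) (h : Def φ G q) (h0 : q 0 ∈ U) : G ∈ U := by
  obtain ⟨h1, U', h2, h3, _⟩ := h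
  refine (Lvl_sub_Trs hU).mem_trans h3 ?_
  obtain ⟨β, hβ, _, rfl⟩ := hU
  rw [← h1.toZFSet_rank_eq, levOf_iff] at h2
  rw [h2, vonNeumann_mem_vonNeumann_iff]
  exact mem_vonNeumann.1 h0

/-- The value at `p` of an ordinal definable function is definable from ordinals and `p`. -/
theorem odp_of_od {G p y : ZFSet.{u}} (hG : OD G) (h : ∀ y', pair p y' ∈ G ↔ y' = y) :
    ODp p y := by
  obtain ⟨φ, q, hq, hq'⟩ := hG.exists_def
  obtain ⟨β, hβ, hβ2, hβ3⟩ := exists_limit_gt (max (q 0) (max (rank p) (rank y)))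
  have hD : Dfn Lvl.{u} (fun v => ∃ G', Def φ G' (fun n => v (n + 2)) ∧ pair (v 1) (v 0) ∈ G') := by
    refine Dfn.ex (A := fun G' v => Def φ G' (fun n => v (n + 2)) ∧ pair (v 1) (v 0) ∈ G') ?_ ?_
    · exact (dfn_Def φ 0 (fun n => n + 3)).and (dfn_pm Lvl_sub_Trs _ _ _)
    · rintro U hU v hv ⟨G', h1, h2⟩
      exact ⟨G', mem_lvl_of_def hU h1 (hv _), h1, h2⟩
  obtain ⟨ψ, hψ⟩ := hD (fun n => if n ≤ 1 then n else 2 * n) (by
    refine Set.infinite_of_injective_forall_mem (f := fun n : ℕ => 2 * n + 3) ?_ ?_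
    · intro a b hab; simpa using hab
    · rintro n ⟨m, hm⟩
      simp only at hm
      split_ifs at hm <;> omega)
  have hpβ : p ∈ V_ β := mem_vonNeumann.2 (((le_max_left _ _).trans (le_max_right _ _)).trans_lt hβ)
  have hqβ : ∀ i, (q i).toZFSet ∈ V_ β := fun i => by
    rw [mem_vonNeumann, Ordinal.rank_toZFSet]
    exact (hq' i).trans_lt ((le_max_left _ _).trans_lt hβ)
  refine ⟨β, ψ, fun n => (q (n / 2 - 2)).toZFSet, fun i => ⟨hqβ _, isOrdinal_toZFSet _⟩, hpβ,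
    mem_vonNeumann.2 (((le_max_right _ _).trans (le_max_right _ _)).trans_lt hβ),
    fun y' hy' => ?_⟩
  rw [hψ (V_ β) ⟨β, hβ3, hβ2, rfl⟩ _ (by
    intro i
    by_cases hi : i = 0
    · subst hi; simpa using hy'
    · rw [Function.update_of_ne hi]
      by_cases hi1 : i = 1
      · subst hi1; simpa using hpβ
      · rw [Function.update_of_ne hi1]; exact hqβ _)]
  have e : (fun n => Function.update (Function.update (fun n => (q (n / 2 - 2)).toZFSet) 1 p) 0 y'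
      (if n + 2 ≤ 1 then n + 2 else 2 * (n + 2))) = fun i => (q i).toZFSet := by
    funext i
    rw [if_neg (by omega), Function.update_of_ne (by omega), Function.update_of_ne (by omega)]
    congr 2
    omega
  show (∃ G', Def φ G' (fun n => Function.update (Function.update (fun n =>
    (q (n / 2 - 2)).toZFSet) 1 p) 0 y' (if n + 2 ≤ 1 then n + 2 else 2 * (n + 2))) ∧
    pair (Function.update (Function.update (fun n => (q (n / 2 - 2)).toZFSet) 1 p) 0 y' 1)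
      (Function.update (Function.update (fun n => (q (n / 2 - 2)).toZFSet) 1 p) 0 y' 0) ∈ G') ↔ _
  rw [e, Function.update_self, Function.update_of_ne one_ne_zero, Function.update_self]
  constructor
  · rintro ⟨G', h1, h2⟩
    rw [h1.unique hq] at h2
    exact (h y').1 h2
  · intro h1
    exact ⟨G, hq, (h y').2 h1⟩

theorem OD_pair {a b : ZFSet.{u}} (ha : OD a) (hb : OD b) : OD (pair a b) := by
  refine OD_of (R := fun y x => y = pair (x 0) (x 1)) (x := asg a b ∅ ∅ ∅ ∅)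
    (dfn_pair Lvl_sub_Trs _ _ _) ha hb (asg_ord empty_ord empty_ord empty_ord empty_ord) fun y => ?_
  exact Iff.rfl

/-- Every set definable from ordinals and `p` is the value at `p` of an ordinal definable
function. -/
theorem exists_odfun {p x : ZFSet.{u}} (h : ODp p x) :
    ∃ G, OD G ∧ ∀ x', pair p x' ∈ G ↔ x' = x := by
  obtain ⟨α, φ, s, hp, hV⟩ := h.val
  refine ⟨ZFSet.sep (fun z => ∃ p' ∈ V_ α, ∃ x' ∈ V_ α, z = pair p' x' ∧
    Val φ (vas (V_ α) p' x' fun n => (s n).toZFSet)) (prod (V_ α) (V_ α)), ?_, ?_⟩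
  · refine OD_of (R := fun y x => (∀ z ∈ y, ∃ p' ∈ x 0, ∃ x' ∈ x 0, z = pair p' x' ∧
        Val φ (vas (x 0) p' x' fun n => x (n + 2))) ∧ ∀ p' ∈ x 0, ∀ x' ∈ x 0,
          Val φ (vas (x 0) p' x' fun n => x (n + 2)) → pair p' x' ∈ y)
      (x := fun n => Nat.casesOn n (V_ α) fun n => Nat.casesOn n (V_ α) fun n => (s n).toZFSet)
      ?_ (OD_V α) (OD_V α) (fun i => isOrdinal_toZFSet _) fun y => ?_
    · have key : ∀ a b c t : ℕ, Dfn Lvl.{u}
          (fun v => Val φ (vas (v a) (v b) (v c) fun n => v (n + t))) := by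
        intro a b c t
        refine (Dfn_reindex (dfn_Val φ) (fun n => match n with
          | 0 => a | 1 => b | 2 => c | (n + 3) => n + t)).congr fun v => ?_
        have : (fun n => v ((fun n => match n with
          | 0 => a | 1 => b | 2 => c | (n + 3) => n + t : ℕ → ℕ) n)) =
            vas (v a) (v b) (v c) fun n => v (n + t) := by
          funext n
          rcases n with _ | _ | _ | n <;> rfl
        rw [this]
      refine Dfn.and ?_ ?_
      · exact Dfn.ball Lvl_sub_Trs _ (Dfn.bex Lvl_sub_Trs _ (Dfn.bex Lvl_sub_Trs _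
          ((dfn_pair Lvl_sub_Trs _ _ _).and (key 4 1 0 6))))
      · exact Dfn.ball Lvl_sub_Trs _ (Dfn.ball Lvl_sub_Trs _
          ((key 3 1 0 5).imp (dfn_pm Lvl_sub_Trs _ _ _)))
    · show (∀ z ∈ y, ∃ p' ∈ V_ α, ∃ x' ∈ V_ α, z = pair p' x' ∧
        Val φ (vas (V_ α) p' x' fun n => (s n).toZFSet)) ∧ (∀ p' ∈ V_ α, ∀ x' ∈ V_ α,
          Val φ (vas (V_ α) p' x' fun n => (s n).toZFSet) → pair p' x' ∈ y) ↔ _
      constructor
      · rintro ⟨h1, h2⟩
        ext z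
        rw [mem_sep]
        constructor
        · intro hz
          obtain ⟨p', hp', x', hx', rfl, h3⟩ := h1 z hz
          exact ⟨pair_mem_prod.2 ⟨hp', hx'⟩, p', hp', x', hx', rfl, h3⟩
        · rintro ⟨_, p', hp', x', hx', rfl, h3⟩
          exact h2 p' hp' x' hx' h3
      · rintro rfl
        exact ⟨fun z hz => (mem_sep.1 hz).2, fun p' hp' x' hx' h3 => mem_sep.2
          ⟨pair_mem_prod.2 ⟨hp', hx'⟩, p', hp', x', hx', rfl, h3⟩⟩
  · intro x'
    rw [mem_sep]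
    constructor
    · rintro ⟨_, p', _, x'', _, e, h3⟩
      rw [pair_inj] at e
      obtain ⟨rfl, rfl⟩ := e
      exact h3.unique hV
    · rintro rfl
      exact ⟨pair_mem_prod.2 ⟨hp, hV.1⟩, p, hp, x', hV.1, rfl, hV⟩

theorem odp_self (p : ZFSet.{u}) : ODp p p := by
  obtain ⟨β, hβ, _, _⟩ := exists_limit_gt (rank p)
  refine ⟨β, .eq 0 1, fun _ => ∅, fun i => ⟨?_, empty_ord⟩, mem_vonNeumann.2 hβ,
    mem_vonNeumann.2 hβ, fun y hy => Iff.rfl⟩
  rw [mem_vonNeumann, rank_empty]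
  exact lt_of_le_of_lt bot_le hβ

/-- Closure of `ODp p` under definitions with two parameters and ordinals. -/
theorem odp_of2 {p : ZFSet.{u}} {R : ZFSet.{u} → (ℕ → ZFSet.{u}) → Prop}
    (hR : Dfn Lvl.{u} (fun v => R (v 0) (fun n => v (n + 1)))) {x : ℕ → ZFSet.{u}}
    (h0 : ODp p (x 0)) (h1 : ODp p (x 1)) (hx : ∀ i, (x (i + 2)).IsOrdinal) {y : ZFSet.{u}}
    (hy : ∀ y', R y' x ↔ y' = y) : ODp p y := by
  obtain ⟨G, hG, hG'⟩ := exists_odfun h0
  obtain ⟨H, hH, hH'⟩ := exists_odfun h1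
  obtain ⟨γ, hγ, _, _⟩ := exists_limit_gt (max (rank p) (rank y))
  have hp : p ∈ V_ γ := mem_vonNeumann.2 ((le_max_left _ _).trans_lt hγ)
  have hyγ : y ∈ V_ γ := mem_vonNeumann.2 ((le_max_right _ _).trans_lt hγ)
  obtain ⟨E, hE⟩ : ∃ E : ZFSet.{u} → ZFSet.{u} → ZFSet.{u} → ZFSet.{u} → (ℕ → ZFSet.{u}) → Prop,
      E = fun G H p' y' o => ∃ a, ∃ b, (pair p' a ∈ G ∧ pair p' b ∈ H) ∧
        R y' (fun n => Nat.casesOn n a fun n => Nat.casesOn n b fun n => o n) := ⟨_, rfl⟩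
  have tm : ∀ {U : ZFSet.{u}}, U ∈ Lvl.{u} → ∀ {a b c : ZFSet.{u}}, pair a b ∈ c → c ∈ U → b ∈ U := by
    intro U hU a b c h h'
    have ht := Lvl_sub_Trs hU
    have h2 : ({a, b} : ZFSet.{u}) ∈ U := ht.mem_trans (by simp [pair]) (ht.mem_trans h h')
    exact ht.mem_trans (by simp) h2
  have tp : ∀ {U : ZFSet.{u}}, U ∈ Lvl.{u} → ∀ {a b : ZFSet.{u}}, pair a b ∈ U → a ∈ U ∧ b ∈ U := by
    intro U hU a b h
    have ht := Lvl_sub_Trs hU
    have h1 : ({a, b} : ZFSet.{u}) ∈ U := ht.mem_trans (by simp [pair]) h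
    exact ⟨ht.mem_trans (by simp) h1, ht.mem_trans (by simp) h1⟩
  have hdE : ∀ a b c d t : ℕ, Dfn Lvl.{u}
      (fun v => E (v a) (v b) (v c) (v d) (fun n => v (n + t))) := by
    intro a b c d t
    rw [hE]
    refine Dfn.ex (A := fun x v => ∃ z, (pair (v c) x ∈ v a ∧ pair (v c) z ∈ v b) ∧
      R (v d) (fun n => Nat.casesOn n x fun n => Nat.casesOn n z fun n => v (n + t))) ?_ ?_
    · refine Dfn.ex (A := fun z v => (pair (v (c + 1)) (v 0) ∈ v (a + 1) ∧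
        pair (v (c + 1)) z ∈ v (b + 1)) ∧
        R (v (d + 1)) (fun n => Nat.casesOn n (v 0) fun n => Nat.casesOn n z fun n =>
          v (n + t + 1))) ?_ ?_
      · refine ((dfn_pm Lvl_sub_Trs _ _ _).and (dfn_pm Lvl_sub_Trs _ _ _)).and ?_
        refine (Dfn_reindex hR (fun n => match n with
          | 0 => d + 2 | 1 => 1 | 2 => 0 | (n + 3) => n + t + 2)).congr fun v => ?_
        have : (fun n => v ((fun n => match n with
          | 0 => d + 2 | 1 => 1 | 2 => 0 | (n + 3) => n + t + 2 : ℕ → ℕ) (n + 1))) =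
            fun n => Nat.casesOn n (v 1) fun n => Nat.casesOn n (v 0) fun n =>
              v (n + t + 1 + 1) := by
          funext n
          rcases n with _ | _ | n <;> rfl
        rw [this]
      · rintro U hU v hv ⟨z, ⟨h1, h2⟩, h3⟩
        exact ⟨z, tm hU h2 (hv _), ⟨h1, h2⟩, h3⟩
    · rintro U hU v hv ⟨x, z, ⟨h1, h2⟩, h3⟩
      exact ⟨x, tm hU h1 (hv _), z, ⟨h1, h2⟩, h3⟩
  refine odp_of_od (G := ZFSet.sep (fun z => ∃ p' ∈ V_ γ, ∃ y' ∈ V_ γ, z = pair p' y' ∧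
    E G H p' y' fun n => x (n + 2)) (prod (V_ γ) (V_ γ))) ?_ fun y' => ?_
  · refine OD_of (R := fun y o => ∃ G, ∃ H, o 0 = pair G H ∧
        ((∀ z ∈ y, ∃ p' ∈ o 1, ∃ y' ∈ o 1, z = pair p' y' ∧ E G H p' y' fun n => o (n + 2)) ∧
        ∀ p' ∈ o 1, ∀ y' ∈ o 1, (E G H p' y' fun n => o (n + 2)) → pair p' y' ∈ y))
      (x := fun n => Nat.casesOn n (pair G H) fun n => Nat.casesOn n (V_ γ) fun n => x (n + 2))
      ?_ (OD_pair hG hH) (OD_V γ) hx fun w => ?_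
    · refine Dfn.ex (A := fun G v => ∃ H, v 1 = pair G H ∧
        ((∀ z ∈ v 0, ∃ p' ∈ v 2, ∃ y' ∈ v 2, z = pair p' y' ∧ E G H p' y' fun n => v (n + 3)) ∧
        ∀ p' ∈ v 2, ∀ y' ∈ v 2, (E G H p' y' fun n => v (n + 3)) → pair p' y' ∈ v 0)) ?_ ?_
      · refine Dfn.ex (A := fun H v => v 2 = pair (v 0) H ∧
          ((∀ z ∈ v 1, ∃ p' ∈ v 3, ∃ y' ∈ v 3, z = pair p' y' ∧
            E (v 0) H p' y' fun n => v (n + 4)) ∧
          ∀ p' ∈ v 3, ∀ y' ∈ v 3, (E (v 0) H p' y' fun n => v (n + 4)) → pair p' y' ∈ v 1)) ?_ ?_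
        · refine (dfn_pair Lvl_sub_Trs _ _ _).and (Dfn.and ?_ ?_)
          · exact Dfn.ball Lvl_sub_Trs _ (Dfn.bex Lvl_sub_Trs _ (Dfn.bex Lvl_sub_Trs _
              ((dfn_pair Lvl_sub_Trs _ _ _).and (hdE 4 3 1 0 8))))
          · exact Dfn.ball Lvl_sub_Trs _ (Dfn.ball Lvl_sub_Trs _
              ((hdE 3 2 1 0 7).imp (dfn_pm Lvl_sub_Trs _ _ _)))
        · rintro U hU v hv ⟨H, e, h⟩
          exact ⟨H, (tp hU (e ▸ hv 2)).2, e, h⟩
      · rintro U hU v hv ⟨G, H, e, h⟩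
        exact ⟨G, (tp hU (e ▸ hv 1)).1, H, e, h⟩
    · show (∃ G', ∃ H', pair G H = pair G' H' ∧
        ((∀ z ∈ w, ∃ p' ∈ V_ γ, ∃ y' ∈ V_ γ, z = pair p' y' ∧ E G' H' p' y' fun n => x (n + 2)) ∧
        ∀ p' ∈ V_ γ, ∀ y' ∈ V_ γ, (E G' H' p' y' fun n => x (n + 2)) → pair p' y' ∈ w)) ↔ _
      constructor
      · rintro ⟨G', H', e, h2, h3⟩
        rw [pair_inj] at e
        obtain ⟨rfl, rfl⟩ := e
        ext z
        rw [mem_sep]
        constructor
        · intro hz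
          obtain ⟨p', hp', y', hy', rfl, h4⟩ := h2 z hz
          exact ⟨pair_mem_prod.2 ⟨hp', hy'⟩, p', hp', y', hy', rfl, h4⟩
        · rintro ⟨_, p', hp', y', hy', rfl, h4⟩
          exact h3 p' hp' y' hy' h4
      · rintro rfl
        exact ⟨G, H, rfl, fun z hz => (mem_sep.1 hz).2, fun p' hp' y' hy' h4 => mem_sep.2
          ⟨pair_mem_prod.2 ⟨hp', hy'⟩, p', hp', y', hy', rfl, h4⟩⟩
  · have ex : (fun n => Nat.casesOn n (x 0) fun n => Nat.casesOn n (x 1) fun n => x (n + 2) :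
        ℕ → ZFSet.{u}) = x := by
      funext n
      rcases n with _ | _ | n <;> rfl
    have hEp : ∀ y', (E G H p y' fun n => x (n + 2)) ↔ y' = y := by
      intro y'
      rw [← hy y', hE]
      constructor
      · rintro ⟨a, b, ⟨h2, h3⟩, h4⟩
        obtain rfl := (hG' a).1 h2
        obtain rfl := (hH' b).1 h3
        rwa [ex] at h4
      · intro h2
        refine ⟨x 0, x 1, ⟨(hG' _).2 rfl, (hH' _).2 rfl⟩, ?_⟩
        rwa [ex]
    rw [mem_sep]
    constructor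
    · rintro ⟨_, p', _, y'', _, e, h2⟩
      rw [pair_inj] at e
      obtain ⟨rfl, rfl⟩ := e
      exact (hEp _).1 h2
    · rintro rfl
      exact ⟨pair_mem_prod.2 ⟨hp, hyγ⟩, p, hp, y', hyγ, rfl, (hEp _).2 rfl⟩

theorem odp_pair {p a b : ZFSet.{u}} (ha : ODp p a) (hb : ODp p b) : ODp p (pair a b) := by
  refine odp_of2 (R := fun y x => y = pair (x 0) (x 1)) (x := asg a b ∅ ∅ ∅ ∅)
    (dfn_pair Lvl_sub_Trs _ _ _) ha hb (asg_ord empty_ord empty_ord empty_ord empty_ord)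
    fun y => ?_
  exact Iff.rfl

theorem HODp.mem {p x y : ZFSet.{u}} (h : HODp p x) (hy : y ∈ x) : HODp p y := by
  obtain ⟨t, ht, hx, h1⟩ := h
  exact ⟨t, ht, ht.mem_trans hy hx, h1⟩

theorem hodp_of_sub {p y : ZFSet.{u}} (h : ODp p y) (hs : ∀ z ∈ y, HODp p z) : HODp p y := by
  classical
  refine ⟨insert y (ZFSet.sep (HODp p) (V_ (rank y))), ?_, mem_insert _ _, ?_⟩
  · rw [isTransitive_iff_mem_trans]
    intro a b hab hb
    rw [mem_insert_iff] at hb ⊢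
    right
    rw [mem_sep]
    rcases hb with rfl | hb
    · exact ⟨mem_vonNeumann.2 (rank_lt_of_mem hab), hs a hab⟩
    · rw [mem_sep] at hb
      exact ⟨(isTransitive_vonNeumann _).mem_trans hab hb.1, HODp.mem hb.2 hab⟩
  · intro z hz
    rw [mem_insert_iff] at hz
    rcases hz with rfl | hz
    · exact h
    · exact (mem_sep.1 hz).2.odp

theorem hodp_upair {p a b : ZFSet.{u}} (ha : HODp p a) (hb : HODp p b) : HODp p {a, b} := by
  refine hodp_of_sub ?_ fun z hz => ?_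
  · refine odp_of2 (R := fun y x => x 0 ∈ y ∧ x 1 ∈ y ∧ ∀ z ∈ y, z = x 0 ∨ z = x 1)
      (x := asg a b ∅ ∅ ∅ ∅) ?_ ha.odp hb.odp (asg_ord empty_ord empty_ord empty_ord empty_ord)
      (fun y => ?_)
    · refine (Dfn.mem _ _).and ((Dfn.mem _ _).and ?_)
      exact Dfn.ball Lvl_sub_Trs _ ((Dfn.eq _ _).or (Dfn.eq _ _))
    · show a ∈ y ∧ b ∈ y ∧ (∀ z ∈ y, z = a ∨ z = b) ↔ _
      constructor
      · rintro ⟨h1, h2, h3⟩
        ext z
        rw [mem_pair]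
        constructor
        · exact h3 z
        · rintro (rfl | rfl)
          · exact h1
          · exact h2
      · rintro rfl
        simp
  · rw [mem_pair] at hz
    rcases hz with rfl | rfl
    · exact ha
    · exact hb

theorem hodp_pair {p a b : ZFSet.{u}} (ha : HODp p a) (hb : HODp p b) : HODp p (pair a b) := by
  have h1 : HODp p ({a} : ZFSet.{u}) := by
    have := hodp_upair ha ha
    rwa [show ({a, a} : ZFSet.{u}) = {a} by ext z; simp] at this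
  exact hodp_upair h1 (hodp_upair ha hb)

/-- Closure of `ODp p` under definitions with four parameters and ordinals. -/
theorem odp_of4 {p : ZFSet.{u}} {R : ZFSet.{u} → (ℕ → ZFSet.{u}) → Prop}
    (hR : Dfn Lvl.{u} (fun v => R (v 0) (fun n => v (n + 1)))) {x : ℕ → ZFSet.{u}}
    (h0 : ODp p (x 0)) (h1 : ODp p (x 1)) (h2 : ODp p (x 2)) (h3 : ODp p (x 3))
    (hx : ∀ i, (x (i + 4)).IsOrdinal) {y : ZFSet.{u}}
    (hy : ∀ y', R y' x ↔ y' = y) : ODp p y := by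
  refine odp_of2 (R := fun y x => ∃ a, ∃ b, ∃ c, ∃ d, (x 0 = pair a b ∧ x 1 = pair c d) ∧
      R y (ins4 a b c d x))
    (x := fun n => Nat.casesOn n (pair (x 0) (x 1)) fun n => Nat.casesOn n (pair (x 2) (x 3))
      fun n => x (n + 4)) ?_ (odp_pair h0 h1) (odp_pair h2 h3) hx (fun w => ?_)
  · have key : Dfn Lvl.{u} (fun v => (v 5 = pair (v 3) (v 2) ∧ v 6 = pair (v 1) (v 0)) ∧
        R (v 4) (ins4 (v 3) (v 2) (v 1) (v 0) (fun n => v (n + 5)))) := by
      refine ((dfn_pair Lvl_sub_Trs _ _ _).and (dfn_pair Lvl_sub_Trs _ _ _)).and ?_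
      refine (Dfn_reindex hR (fun n => match n with
        | 0 => 4 | 1 => 3 | 2 => 2 | 3 => 1 | 4 => 0 | (n + 5) => n + 7)).congr fun v => ?_
      have : (fun n => v ((fun n => match n with
        | 0 => 4 | 1 => 3 | 2 => 2 | 3 => 1 | 4 => 0 | (n + 5) => n + 7 : ℕ → ℕ) (n + 1))) =
          ins4 (v 3) (v 2) (v 1) (v 0) (fun n => v (n + 5)) := by
        funext n
        rcases n with _ | _ | _ | _ | n <;> rfl
      rw [this]
    have tm : ∀ {U : ZFSet.{u}}, U ∈ Lvl.{u} → ∀ {a b : ZFSet.{u}}, pair a b ∈ U → a ∈ U ∧ b ∈ U := by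
      intro U hU a b h
      have ht := Lvl_sub_Trs hU
      have h1 : ({a, b} : ZFSet.{u}) ∈ U := ht.mem_trans (by simp [pair]) h
      exact ⟨ht.mem_trans (by simp) h1, ht.mem_trans (by simp) h1⟩
    refine Dfn.ex (A := fun a v => ∃ b, ∃ c, ∃ d, (v 1 = pair a b ∧ v 2 = pair c d) ∧
      R (v 0) (ins4 a b c d (fun n => v (n + 1)))) ?_ ?_
    refine Dfn.ex (A := fun b v => ∃ c, ∃ d, (v 2 = pair (v 0) b ∧ v 3 = pair c d) ∧
      R (v 1) (ins4 (v 0) b c d (fun n => v (n + 2)))) ?_ ?_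
    refine Dfn.ex (A := fun c v => ∃ d, (v 3 = pair (v 1) (v 0) ∧ v 4 = pair c d) ∧
      R (v 2) (ins4 (v 1) (v 0) c d (fun n => v (n + 3)))) ?_ ?_
    refine Dfn.ex (A := fun d v => (v 4 = pair (v 2) (v 1) ∧ v 5 = pair (v 0) d) ∧
      R (v 3) (ins4 (v 2) (v 1) (v 0) d (fun n => v (n + 4)))) ?_ ?_
    · exact key
    · rintro U hU v hv ⟨d, ⟨e1, e2⟩, h⟩
      exact ⟨d, (tm hU (e2 ▸ hv 5)).2, ⟨e1, e2⟩, h⟩
    · rintro U hU v hv ⟨c, d, ⟨e1, e2⟩, h⟩
      exact ⟨c, (tm hU (e2 ▸ hv 4)).1, d, ⟨e1, e2⟩, h⟩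
    · rintro U hU v hv ⟨b, c, d, ⟨e1, e2⟩, h⟩
      exact ⟨b, (tm hU (e1 ▸ hv 2)).2, c, d, ⟨e1, e2⟩, h⟩
    · rintro U hU v hv ⟨a, b, c, d, ⟨e1, e2⟩, h⟩
      exact ⟨a, (tm hU (e1 ▸ hv 1)).1, b, c, d, ⟨e1, e2⟩, h⟩
  · rw [← hy w]
    show (∃ a b c d, (pair (x 0) (x 1) = pair a b ∧ pair (x 2) (x 3) = pair c d) ∧
      R w (ins4 a b c d _)) ↔ _
    have e : ins4 (x 0) (x 1) (x 2) (x 3) (fun n => Nat.casesOn n (pair (x 0) (x 1)) fun n =>
        Nat.casesOn n (pair (x 2) (x 3)) fun n => x (n + 4)) = x := by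
      funext n
      rcases n with _ | _ | _ | _ | n <;> rfl
    constructor
    · rintro ⟨a, b, c, d, ⟨e1, e2⟩, h⟩
      rw [pair_inj] at e1 e2
      obtain ⟨rfl, rfl⟩ := e1
      obtain ⟨rfl, rfl⟩ := e2
      rwa [e] at h
    · intro h
      exact ⟨_, _, _, _, ⟨rfl, rfl⟩, by rwa [e]⟩

end Pool.Agent.H639
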