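import Pool.Agent.H639.Wo2

/-!
A wellorder in HOD of every set in HOD.
-/

set_option autoImplicit false
set_option linter.unusedVariables false

namespace Pool.Agent.H639

open ZFSet Gss969 Pool.Agent.H310.HD

universe u

/-! ### Tuples -/

/-- The tuple `(α, c, m, s)` defines `x`. -/
def TpR (W z B α c m s x : ZFSet.{u}) : Prop :=
  IsFunc W B s ∧ (m ∈ W ∧ ((∀ i ∈ W, i ∈ m ∨ pair i z ∈ s) ∧
    ∃ U, (α.IsOrdinal ∧ LevOf U α) ∧ CodC U c s x))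

theorem dfn_TpR (a b c d e f g h : ℕ) :
    Dfn Lvl.{u} (fun v => TpR (v a) (v b) (v c) (v d) (v e) (v f) (v g) (v h)) := by
  unfold TpR
  refine (dfn_isFunc Lvl_sub_Trs _ _ _).and ((Dfn.mem _ _).and (Dfn.and ?_ ?_))
  · exact Dfn.ball Lvl_sub_Trs _ ((Dfn.mem _ _).or (dfn_pm Lvl_sub_Trs _ _ _))
  · refine Dfn.ex ?_ ?_
    · exact ((dfn_ord Lvl_sub_Trs _).and (dfn_LevOf _ _)).and (dfn_CodC _ _ _ _)
    · rintro U hU v hv ⟨U', ⟨h1, h2⟩, h3⟩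
      refine ⟨U', ?_, ⟨h1, h2⟩, h3⟩
      obtain ⟨β, hβ, _, rfl⟩ := hU
      rw [← h1.toZFSet_rank_eq, levOf_iff] at h2
      rw [h2, vonNeumann_mem_vonNeumann_iff]
      exact mem_vonNeumann.1 (hv _)

def Tp (B α c m s x : ZFSet.{u}) : Prop := TpR om (nt 0) B α c m s x

theorem dfn_Tp (a b c d e f : ℕ) :
    Dfn Lvl.{u} (fun v => Tp (v a) (v b) (v c) (v d) (v e) (v f)) := by
  unfold Tp
  refine Dfn_om (A := fun W v => TpR W (nt 0) (v a) (v b) (v c) (v d) (v e) (v f)) ?_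
  refine Dfn_nt 0 (A := fun z w => TpR (w 0) z (w (a + 1)) (w (b + 1))
    (w (c + 1)) (w (d + 1)) (w (e + 1)) (w (f + 1))) ?_
  exact dfn_TpR 1 0 (a + 2) (b + 2) (c + 2) (d + 2) (e + 2) (f + 2)

/-- `x` is defined over `V_ α` by the formula with the number `n` and the parameters `q`. -/
def TT (α : Ordinal.{u}) (n : ℕ) (q : ℕ → Ordinal.{u}) (x : ZFSet.{u}) : Prop :=
  x ∈ V_ α ∧ ∀ y ∈ V_ α,
    (Sat (V_ α) (Function.update (fun i => (q i).toZFSet) 0 y) (dec n) ↔ y = x)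

theorem TT.unique {α : Ordinal.{u}} {n : ℕ} {q : ℕ → Ordinal.{u}} {x y : ZFSet.{u}}
    (h : TT α n q x) (h' : TT α n q y) : x = y :=
  (h'.2 x h.1).1 ((h.2 x h.1).2 rfl)

theorem ord_eq_of_func {β : Ordinal.{u}} {s : ZFSet.{u}} (hs : IsFunc om β.toZFSet s) :
    ∃ q : ℕ → Ordinal.{u}, s = fn (fun i => (q i).toZFSet) ∧ ∀ i, q i < β := by
  have h : ∀ i : ℕ, ∃ q : Ordinal.{u}, q < β ∧ app s (nt i) = q.toZFSet := by
    intro i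
    have := app_mem hs (nt_mem i)
    obtain ⟨b, hb, e⟩ := Ordinal.mem_toZFSet_iff.1 this
    exact ⟨b, hb, e.symm⟩
  choose q h1 h2 using h
  refine ⟨q, ?_, h1⟩
  have hf : IsFunc om β.toZFSet (fn (fun i => (q i).toZFSet)) :=
    fn_func fun i => Ordinal.toZFSet_mem_toZFSet_iff.2 (h1 i)
  refine func_ext hs hf fun x hx => ?_
  obtain ⟨n, rfl⟩ := mem_om.1 hx
  rw [app_fn, h2]

theorem tzm {a b : Ordinal.{u}} : a.toZFSet ∈ b.toZFSet ↔ a < b :=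
  Ordinal.toZFSet_mem_toZFSet_iff

theorem nt_zero : nt.{u} 0 = (0 : Ordinal.{u}).toZFSet := by
  unfold nt; rw [Nat.cast_zero]

theorem tp_iff {β : Ordinal.{u}} {a c m s x : ZFSet.{u}} :
    Tp β.toZFSet a c m s x ↔ ∃ (α : Ordinal.{u}) (n M : ℕ) (q : ℕ → Ordinal.{u}),
      a = α.toZFSet ∧ c = nt n ∧ m = nt M ∧ s = fn (fun i => (q i).toZFSet) ∧
      (∀ i, q i < β ∧ q i < α) ∧ (∀ i ≥ M, q i = 0) ∧ TT α n q x := by
  constructor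
  · rintro ⟨h1, h2, h3, U, ⟨h4, h5⟩, h6⟩
    obtain ⟨q, rfl, hq⟩ := ord_eq_of_func h1
    obtain ⟨M, rfl⟩ := mem_om.1 h2
    obtain ⟨n, rfl⟩ := mem_om.1 (show c ∈ om from h6.choose_spec.1)
    have hs : IsFunc om U (fn fun i => (q i).toZFSet) := h6.choose_spec.2.2.1
    rw [codC_iff hs] at h6
    have ea := h4.toZFSet_rank_eq
    rw [← ea, levOf_iff] at h5
    refine ⟨rank a, n, M, q, ea.symm, rfl, rfl, rfl, fun i => ⟨hq i, ?_⟩, fun i hi => ?_, ?_⟩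
    · have := app_mem hs (nt_mem i)
      rw [app_fn, h5] at this
      have := mem_vonNeumann.1 this
      rwa [Ordinal.rank_toZFSet] at this
    · have := h3 _ (nt_mem i)
      rw [nt_sub, pair_fn] at this
      rcases this with h | h
      · omega
      · rw [nt_zero] at h
        exact Ordinal.toZFSet_injective h
    · subst h5
      have e : (fun m => app (fn fun i => (q i).toZFSet) (nt.{u} m)) = fun i => (q i).toZFSet := by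
        funext m; rw [app_fn]
      rw [e] at h6
      exact h6
  · rintro ⟨α, n, M, q, rfl, rfl, rfl, rfl, h1, h2, h3⟩
    have hs : IsFunc om (V_ α) (fn fun i => (q i).toZFSet) :=
      fn_func fun i => by rw [mem_vonNeumann, Ordinal.rank_toZFSet]; exact (h1 i).2
    refine ⟨fn_func fun i => tzm.2 (h1 i).1, nt_mem M, fun i hi => ?_, V_ α,
      ⟨isOrdinal_toZFSet _, levOf_iff.2 rfl⟩, (codC_iff hs).2 ?_⟩
    · obtain ⟨i, rfl⟩ := mem_om.1 hi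
      rw [nt_sub, pair_fn]
      by_cases h : i < M
      · exact Or.inl h
      · right
        rw [h2 i (by omega), nt_zero]
    · have e : (fun m => app (fn fun i => (q i).toZFSet) (nt.{u} m)) = fun i => (q i).toZFSet := by
        funext m; rw [app_fn]
      rw [e]
      exact h3

/-! ### The order of the tuples -/

/-- The order of the tuples, internally. -/
def LxR (W B α c m s α' c' m' s' : ZFSet.{u}) : Prop :=
  α ∈ α' ∨ (α = α' ∧ (c ∈ c' ∨ (c = c' ∧ (m ∈ m' ∨ (m = m' ∧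
    ∃ i ∈ W, (∃ a ∈ B, ∃ b ∈ B, pair i a ∈ s ∧ (pair i b ∈ s' ∧ a ∈ b)) ∧
      ∀ k ∈ i, ∀ a ∈ B, pair k a ∈ s → pair k a ∈ s')))))

theorem dfn_LxR (a b c d e f g h i j : ℕ) :
    Dfn Lvl.{u} (fun v => LxR (v a) (v b) (v c) (v d) (v e) (v f) (v g) (v h) (v i) (v j)) := by
  unfold LxR
  repeat' first
    | exact Dfn.mem _ _ | exact Dfn.eq _ _ | exact dfn_pm Lvl_sub_Trs _ _ _
    | refine Dfn.and ?_ ?_ | refine Dfn.or ?_ ?_ | refine Dfn.imp ?_ ?_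
    | refine Dfn.ball Lvl_sub_Trs _ ?_ | refine Dfn.bex Lvl_sub_Trs _ ?_

/-- The order of the tuples. -/
def LL (α : Ordinal.{u}) (n M : ℕ) (q : ℕ → Ordinal.{u}) (α' : Ordinal.{u}) (n' M' : ℕ)
    (q' : ℕ → Ordinal.{u}) : Prop :=
  α < α' ∨ (α = α' ∧ (n < n' ∨ (n = n' ∧ (M < M' ∨ (M = M' ∧
    ∃ i, q i < q' i ∧ ∀ k < i, q k = q' k)))))

theorem LL.asymm {α : Ordinal.{u}} {n M : ℕ} {q : ℕ → Ordinal.{u}} {α' : Ordinal.{u}} {n' M' : ℕ}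
    {q' : ℕ → Ordinal.{u}} (h : LL α n M q α' n' M' q') : ¬ LL α' n' M' q' α n M q := by
  intro h'
  rcases h with h | ⟨e1, h⟩
  · rcases h' with h' | ⟨e1, _⟩
    · exact lt_asymm h h'
    · exact h.ne e1.symm
  subst e1
  rcases h' with h' | ⟨_, h'⟩
  · exact lt_irrefl _ h'
  rcases h with h | ⟨e2, h⟩
  · rcases h' with h' | ⟨e1, _⟩ <;> omega
  subst e2
  rcases h' with h' | ⟨_, h'⟩
  · exact lt_irrefl _ h'
  rcases h with h | ⟨e3, h⟩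
  · rcases h' with h' | ⟨e1, _⟩ <;> omega
  subst e3
  rcases h' with h' | ⟨_, h'⟩
  · exact lt_irrefl _ h'
  obtain ⟨i, hi, hi'⟩ := h
  obtain ⟨k, hk, hk'⟩ := h'
  rcases lt_trichotomy i k with h | h | h
  · exact hi.ne (hk' i h).symm
  · subst h; exact lt_asymm hi hk
  · exact hk.ne (hi' k h).symm

theorem LL.irrefl {α : Ordinal.{u}} {n M : ℕ} {q : ℕ → Ordinal.{u}} : ¬ LL α n M q α n M q :=
  fun h => h.asymm h

theorem exists_LLmin {P : Ordinal.{u} → ℕ → ℕ → (ℕ → Ordinal.{u}) → Prop}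
    (hP : ∃ α n M q, P α n M q) (hs : ∀ α n M q, P α n M q → ∀ i ≥ M, q i = 0) :
    ∃ α n M q, P α n M q ∧ ∀ α' n' M' q', P α' n' M' q' →
      (α = α' ∧ n = n' ∧ M = M' ∧ q = q') ∨ LL α n M q α' n' M' q' := by
  obtain ⟨α, ⟨n, M, q, h0⟩, hα⟩ := WellFounded.has_min (wellFounded_lt (α := Ordinal.{u}))
    {α | ∃ n M q, P α n M q} (by obtain ⟨α, n, M, q, h⟩ := hP; exact ⟨α, n, M, q, h⟩)
  obtain ⟨n, ⟨M, q, h1⟩, hn⟩ := WellFounded.has_min (wellFounded_lt (α := ℕ))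
    {n | ∃ M q, P α n M q} ⟨n, M, q, h0⟩
  obtain ⟨M, ⟨q, h2⟩, hM⟩ := WellFounded.has_min (wellFounded_lt (α := ℕ))
    {M | ∃ q, P α n M q} ⟨M, q, h1⟩
  obtain ⟨q, h3, hq⟩ := exists_lexmin (P := fun q => P α n M q) ⟨q, h2⟩ M
  refine ⟨α, n, M, q, h3, ?_⟩
  intro α' n' M' q' h'
  have l1 : α ≤ α' := not_lt.1 (hα α' ⟨n', M', q', h'⟩)
  rcases l1.lt_or_eq with l1 | rfl
  · exact Or.inr (Or.inl l1)
  have l2 : n ≤ n' := not_lt.1 (hn n' ⟨M', q', h'⟩)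
  rcases l2.lt_or_eq with l2 | rfl
  · exact Or.inr (Or.inr ⟨rfl, Or.inl l2⟩)
  have l3 : M ≤ M' := not_lt.1 (hM M' ⟨q', h'⟩)
  rcases l3.lt_or_eq with l3 | rfl
  · exact Or.inr (Or.inr ⟨rfl, Or.inr ⟨rfl, Or.inl l3⟩⟩)
  by_cases hc : ∃ i < M, q i < q' i ∧ ∀ k < i, q k = q' k
  · obtain ⟨i, _, h4⟩ := hc
    exact Or.inr (Or.inr ⟨rfl, Or.inr ⟨rfl, Or.inr ⟨rfl, i, h4⟩⟩⟩)
  · left
    refine ⟨rfl, rfl, rfl, ?_⟩
    have h5 := lex_trichotomy hc (hq q' h')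
    funext i
    by_cases hi : i < M
    · exact h5 i hi
    · rw [hs _ _ _ _ h3 i (by omega), hs _ _ _ _ h' i (by omega)]

theorem lx_iff {β α α' : Ordinal.{u}} {n n' M M' : ℕ} {q q' : ℕ → Ordinal.{u}}
    (hq : ∀ i, q i < β) (hq' : ∀ i, q' i < β) :
    LxR om β.toZFSet α.toZFSet (nt n) (nt M) (fn fun i => (q i).toZFSet) α'.toZFSet (nt n')
      (nt M') (fn fun i => (q' i).toZFSet) ↔ LL α n M q α' n' M' q' := by
  unfold LxR LL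
  have e1 : α.toZFSet = α'.toZFSet ↔ α = α' := Ordinal.toZFSet_injective.eq_iff
  rw [tzm, e1, nt_sub, nt_inj, nt_sub, nt_inj]
  refine or_congr_right (and_congr_right fun _ => or_congr_right (and_congr_right fun _ =>
    or_congr_right (and_congr_right fun _ => ?_)))
  constructor
  · rintro ⟨i, hi, ⟨a, ha, b, hb, h1, h2, h3⟩, h4⟩
    obtain ⟨i, rfl⟩ := mem_om.1 hi
    rw [pair_fn] at h1 h2
    subst h1 h2
    refine ⟨i, tzm.1 h3, fun k hk => ?_⟩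
    have := h4 (nt k) (nt_sub.2 hk) (q k).toZFSet (tzm.2 (hq k)) (pair_fn.2 rfl)
    rw [pair_fn] at this
    exact (Ordinal.toZFSet_injective this).symm
  · rintro ⟨i, h1, h2⟩
    refine ⟨nt i, nt_mem i, ⟨_, tzm.2 (hq i), _, tzm.2 (hq' i), pair_fn.2 rfl, pair_fn.2 rfl,
      tzm.2 h1⟩, ?_⟩
    intro k hk a ha h3
    obtain ⟨k, hk, rfl⟩ := mem_nt.1 hk
    rw [pair_fn] at h3 ⊢
    rw [← h3, h2 k (by first | exact hk | exact nt_sub.1 hk)]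

/-! ### The wellorder -/

/-- `x` has a tuple below all tuples of `y`. -/
def WrR (W B x y : ZFSet.{u}) : Prop :=
  ∃ α ∈ B, ∃ c ∈ W, ∃ m ∈ W, ∃ s, IsFunc W B s ∧ (Tp B α c m s x ∧
    ∀ α' ∈ B, ∀ c' ∈ W, ∀ m' ∈ W, ∀ s', IsFunc W B s' → Tp B α' c' m' s' y →
      LxR W B α c m s α' c' m' s')

theorem dfn_WrR (a b c d : ℕ) : Dfn Lvl.{u} (fun v => WrR (v a) (v b) (v c) (v d)) := by
  unfold WrR
  refine Dfn.bex Lvl_sub_Trs _ (Dfn.bex Lvl_sub_Trs _ (Dfn.bex Lvl_sub_Trs _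
    (Dfn.exfun _ _ ((dfn_Tp _ _ _ _ _ _).and ?_))))
  repeat' first
    | exact dfn_Tp _ _ _ _ _ _ | exact dfn_LxR _ _ _ _ _ _ _ _ _ _
    | refine Dfn.allfun _ _ ?_ | refine Dfn.ball Lvl_sub_Trs _ ?_ | refine Dfn.imp ?_ ?_

def Wr (B x y : ZFSet.{u}) : Prop := WrR om B x y

theorem dfn_Wr (a b c : ℕ) : Dfn Lvl.{u} (fun v => Wr (v a) (v b) (v c)) := by
  unfold Wr
  exact Dfn_om (A := fun W v => WrR W (v a) (v b) (v c)) (dfn_WrR 0 (a + 1) (b + 1) (c + 1))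

/-- The tuples below `β` which define `x`. -/
def TB (β : Ordinal.{u}) (x : ZFSet.{u}) (α : Ordinal.{u}) (n M : ℕ) (q : ℕ → Ordinal.{u}) :
    Prop :=
  α < β ∧ (∀ i, q i < α) ∧ (∀ i ≥ M, q i = 0) ∧ TT α n q x

theorem wr_iff {β : Ordinal.{u}} {x y : ZFSet.{u}} : Wr β.toZFSet x y ↔
    ∃ α n M q, TB β x α n M q ∧ ∀ α' n' M' q', TB β y α' n' M' q' → LL α n M q α' n' M' q' := by
  constructor
  · rintro ⟨α, hα, c, hc, m, hm, s, hs, h1, h2⟩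
    obtain ⟨α, n, M, q, rfl, rfl, rfl, rfl, h3, h4, h5⟩ := tp_iff.1 h1
    refine ⟨α, n, M, q, ⟨tzm.1 hα, fun i => (h3 i).2, h4, h5⟩, ?_⟩
    rintro α' n' M' q' ⟨g1, g2, g3, g4⟩
    rw [← lx_iff (fun i => (h3 i).1) (fun i => (g2 i).trans g1)]
    refine h2 _ (tzm.2 g1) _ (nt_mem n') _ (nt_mem M') _
      (fn_func fun i => tzm.2 ((g2 i).trans g1)) (tp_iff.2 ⟨α', n', M', q', rfl, rfl, rfl, rfl,
        fun i => ⟨(g2 i).trans g1, g2 i⟩, g3, g4⟩)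
  · rintro ⟨α, n, M, q, ⟨g1, g2, g3, g4⟩, h2⟩
    refine ⟨_, tzm.2 g1, _, nt_mem n, _, nt_mem M, _, fn_func fun i => tzm.2 ((g2 i).trans g1),
      tp_iff.2 ⟨α, n, M, q, rfl, rfl, rfl, rfl,
        fun i => ⟨(g2 i).trans g1, g2 i⟩, g3, g4⟩, ?_⟩
    intro α' hα' c' hc' m' hm' s' hs' h3
    obtain ⟨α', n', M', q', rfl, rfl, rfl, rfl, h5, h6, h7⟩ := tp_iff.1 h3
    rw [lx_iff (fun i => (g2 i).trans g1) (fun i => (h5 i).1)]
    exact h2 _ _ _ _ ⟨tzm.1 hα', fun i => (h5 i).2, h6, h7⟩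

/-- Every ordinal definable set is given by a tuple. -/
theorem exists_TT {x : ZFSet.{u}} (h : OD x) : ∃ α n M q, (∀ i, q i < α) ∧
    (∀ i ≥ M, q i = 0) ∧ TT α n q x := by
  obtain ⟨α, φ, s, hs, hx, h1⟩ := h
  obtain ⟨n, rfl⟩ := dec_surj φ
  have hα : 0 < α := by
    have := mem_vonNeumann.1 hx
    exact lt_of_le_of_lt zero_le this
  refine ⟨α, n, bd (dec n), fun i => if i < bd (dec n) then rank (s i) else 0, ?_, ?_, hx, ?_⟩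
  · intro i
    dsimp only
    split_ifs
    · exact mem_vonNeumann.1 (hs i).1
    · exact hα
  · intro i hi
    dsimp only
    rw [if_neg (by omega)]
  · intro y hy
    rw [← h1 y hy]
    refine Sat_congr _ fun i hi => ?_
    by_cases h0 : i = 0
    · subst h0; simp
    · rw [Function.update_of_ne h0, Function.update_of_ne h0]
      dsimp only
      rw [if_pos hi, (hs i).2.toZFSet_rank_eq]

theorem exists_bound {Z : ZFSet.{u}} (hZ : ∀ x ∈ Z, OD x) :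
    ∃ β : Ordinal.{u}, ∀ x ∈ Z, ∃ α n M q, TB β x α n M q := by
  have h : ∀ x : {x // x ∈ Z}, ∃ α n M q, (∀ i, q i < α) ∧
    (∀ i ≥ M, q i = 0) ∧ TT α n q x.1 := fun x => exists_TT (hZ x.1 x.2)
  choose α n M q h1 h2 h3 using h
  refine ⟨Order.succ (⨆ x : Shrink.{u} {x // x ∈ Z}, α ((equivShrink _).symm x)), fun x hx =>
    ⟨α ⟨x, hx⟩, n ⟨x, hx⟩, M ⟨x, hx⟩, q ⟨x, hx⟩, ?_, h1 _, h2 _, h3 _⟩⟩
  rw [Order.lt_succ_iff]
  have := Ordinal.le_iSup (fun x : Shrink.{u} {x // x ∈ Z} => α ((equivShrink _).symm x))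
    (equivShrink _ ⟨x, hx⟩)
  simpa using this

/-- The wellorder of `Z`. -/
noncomputable def Wd (Z B : ZFSet.{u}) : ZFSet.{u} :=
  ZFSet.sep (fun p => ∃ x ∈ Z, ∃ y ∈ Z, p = pair x y ∧ Wr B x y) (prod Z Z)

theorem mem_Wd {Z B p : ZFSet.{u}} :
    p ∈ Wd Z B ↔ ∃ x ∈ Z, ∃ y ∈ Z, p = pair x y ∧ Wr B x y := by
  unfold Wd
  rw [mem_sep]
  constructor
  · exact fun h => h.2
  · rintro ⟨x, hx, y, hy, rfl, h⟩
    exact ⟨pair_mem_prod.2 ⟨hx, hy⟩, x, hx, y, hy, rfl, h⟩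

theorem pair_mem_Wd {Z B x y : ZFSet.{u}} :
    pair x y ∈ Wd Z B ↔ x ∈ Z ∧ y ∈ Z ∧ Wr B x y := by
  rw [mem_Wd]
  constructor
  · rintro ⟨x', hx, y', hy, e, h⟩
    rw [pair_inj] at e
    obtain ⟨rfl, rfl⟩ := e
    exact ⟨hx, hy, h⟩
  · rintro ⟨hx, hy, h⟩
    exact ⟨x, hx, y, hy, rfl, h⟩

theorem HOD_Wd {Z : ZFSet.{u}} (hZ : HOD Z) (β : Ordinal.{u}) : HOD (Wd Z β.toZFSet) := by
  refine HOD_of (R := fun w x => (∀ p ∈ w, ∃ a ∈ x 0, ∃ b ∈ x 0, p = pair a b ∧ Wr (x 2) a b) ∧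
      ∀ a ∈ x 0, ∀ b ∈ x 0, Wr (x 2) a b → pair a b ∈ w)
    (x := asg Z Z β.toZFSet ∅ ∅ ∅) ?_ hZ.od hZ.od
    (asg_ord (isOrdinal_toZFSet _) empty_ord empty_ord empty_ord) (fun w => ?_) fun z hz => ?_
  · refine Dfn.and ?_ ?_
    · exact Dfn.ball Lvl_sub_Trs _ (Dfn.bex Lvl_sub_Trs _ (Dfn.bex Lvl_sub_Trs _
        ((dfn_pair Lvl_sub_Trs _ _ _).and (dfn_Wr _ _ _))))
    · exact Dfn.ball Lvl_sub_Trs _ (Dfn.ball Lvl_sub_Trs _
        ((dfn_Wr _ _ _).imp (dfn_pm Lvl_sub_Trs _ _ _)))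
  · show (∀ p ∈ w, ∃ a ∈ Z, ∃ b ∈ Z, p = pair a b ∧ Wr β.toZFSet a b) ∧
      (∀ a ∈ Z, ∀ b ∈ Z, Wr β.toZFSet a b → pair a b ∈ w) ↔ _
    constructor
    · rintro ⟨h1, h2⟩
      ext p
      rw [mem_Wd]
      constructor
      · exact h1 p
      · rintro ⟨x, hx, y, hy, rfl, h⟩
        exact h2 x hx y hy h
    · rintro rfl
      exact ⟨fun p hp => mem_Wd.1 hp, fun a ha b hb h => mem_Wd.2 ⟨a, ha, b, hb, rfl, h⟩⟩
  · obtain ⟨x, hx, y, hy, rfl, _⟩ := mem_Wd.1 hz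
    exact HOD_pair (hZ.mem hx) (hZ.mem hy)

/-- `W` is a strict wellorder of `Z`. -/
def IsWO (W Z : ZFSet.{u}) : Prop :=
  ∀ Y, Y ⊆ Z → (∃ y, y ∈ Y) → ∃ y ∈ Y, ∀ y' ∈ Y, y' ≠ y → pair y y' ∈ W ∧ pair y' y ∉ W

/-- **The axiom of choice in HOD**: every set in HOD has a wellorder in HOD. -/
theorem exists_wo {Z : ZFSet.{u}} (hZ : HOD Z) :
    ∃ W, HOD W ∧ IsWO W Z ∧ (∀ p ∈ W, ∃ x ∈ Z, ∃ y ∈ Z, p = pair x y) ∧
      ∀ x ∈ Z, pair x x ∉ W := by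
  obtain ⟨β, hβ⟩ := exists_bound fun x hx => (hZ.mem hx).od
  refine ⟨Wd Z β.toZFSet, HOD_Wd hZ β, ?_, ?_, ?_⟩
  · rintro Y hY ⟨y0, hy0⟩
    obtain ⟨α, n, M, q, ⟨y, hy, h1⟩, hmin⟩ := exists_LLmin
      (P := fun α n M q => ∃ y ∈ Y, TB β y α n M q)
      (by
        obtain ⟨α, n, M, q, h⟩ := hβ y0 (hY hy0)
        exact ⟨α, n, M, q, y0, hy0, h⟩)
      (by
        rintro α n M q ⟨y, _, h⟩
        exact h.2.2.1)
    refine ⟨y, hy, fun y' hy' hne => ⟨?_, ?_⟩⟩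
    · rw [pair_mem_Wd]
      refine ⟨hY hy, hY hy', wr_iff.2 ⟨α, n, M, q, h1, ?_⟩⟩
      intro α' n' M' q' h'
      rcases hmin α' n' M' q' ⟨y', hy', h'⟩ with ⟨rfl, rfl, rfl, rfl⟩ | h
      · exact absurd (h'.2.2.2.unique h1.2.2.2) hne
      · exact h
    · rw [pair_mem_Wd]
      rintro ⟨_, _, h⟩
      obtain ⟨α', n', M', q', h', h2⟩ := wr_iff.1 h
      have h3 := h2 _ _ _ _ h1
      rcases hmin α' n' M' q' ⟨y', hy', h'⟩ with ⟨rfl, rfl, rfl, rfl⟩ | h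
      · exact h3.irrefl
      · exact h.asymm h3
  · intro p hp
    obtain ⟨x, hx, y, hy, h, _⟩ := mem_Wd.1 hp
    exact ⟨x, hx, y, hy, h⟩
  · intro x hx h
    rw [pair_mem_Wd] at h
    obtain ⟨α', n', M', q', h', h2⟩ := wr_iff.1 h.2.2
    exact (h2 _ _ _ _ h').irrefl

end Pool.Agent.H639
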