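import Pool.Agent.H639.Hp1
import Pool.Agent.H639.Wo3

/-!
Sequences of sets definable from ordinals and `p`.
-/

set_option autoImplicit false

namespace Pool.Agent.H639

open Pool.Agent.H310.HD Gss969 ZFSet

universe u

theorem OD_Wd {Z : ZFSet.{u}} (hZ : OD Z) (β : Ordinal.{u}) : OD (Wd Z β.toZFSet) := by
  refine OD_of (R := fun w x => (∀ p ∈ w, ∃ a ∈ x 0, ∃ b ∈ x 0, p = pair a b ∧ Wr (x 2) a b) ∧
      ∀ a ∈ x 0, ∀ b ∈ x 0, Wr (x 2) a b → pair a b ∈ w)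
    (x := asg Z Z β.toZFSet ∅ ∅ ∅) ?_ hZ hZ
    (asg_ord (isOrdinal_toZFSet _) empty_ord empty_ord empty_ord) (fun w => ?_)
  · refine Dfn.and ?_ ?_
    · exact Dfn.ball Lvl_sub_Trs _ (Dfn.bex Lvl_sub_Trs _ (Dfn.bex Lvl_sub_Trs _
        ((dfn_pair Lvl_sub_Trs _ _ _).and (dfn_Wr _ _ _))))
    · exact Dfn.ball Lvl_sub_Trs _ (Dfn.ball Lvl_sub_Trs _
        ((dfn_Wr _ _ _).imp (dfn_pm Lvl_sub_Trs _ _ _)))
  · show (∀ p ∈ w, ∃ a ∈ Z, ∃ b ∈ Z, p = pair a b ∧ Wr β.toZFSet a b) ∧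
      (∀ a ∈ Z, ∀ b ∈ Z, Wr β.toZFSet a b → pair a b ∈ w) ↔ _
    constructor
    · rintro ⟨h1, h2⟩
      ext p
      rw [mem_Wd]
      constructor
      · exact h1 p
      · rintro ⟨x, hx, y, hy, rfl, h⟩
        exact h2 x hx y hy h
    · rintro rfl
      exact ⟨fun p hp => mem_Wd.1 hp, fun a ha b hb h => mem_Wd.2 ⟨a, ha, b, hb, rfl, h⟩⟩

/-- Every ordinal definable set of ordinal definable sets has an ordinal definable wellorder. -/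
theorem exists_wo_od {Z : ZFSet.{u}} (hZ : OD Z) (hZ' : ∀ x ∈ Z, OD x) :
    ∃ W, OD W ∧ IsWO W Z ∧ ∀ x ∈ Z, pair x x ∉ W := by
  obtain ⟨β, hβ⟩ := exists_bound hZ'
  refine ⟨Wd Z β.toZFSet, OD_Wd hZ β, ?_, ?_⟩
  · rintro Y hY ⟨y0, hy0⟩
    obtain ⟨α, n, M, q, ⟨y, hy, h1⟩, hmin⟩ := exists_LLmin
      (P := fun α n M q => ∃ y ∈ Y, TB β y α n M q)
      (by
        obtain ⟨α, n, M, q, h⟩ := hβ y0 (hY hy0)
        exact ⟨α, n, M, q, y0, hy0, h⟩)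
      (by
        rintro α n M q ⟨y, _, h⟩
        exact h.2.2.1)
    refine ⟨y, hy, fun y' hy' hne => ⟨?_, ?_⟩⟩
    · rw [pair_mem_Wd]
      refine ⟨hY hy, hY hy', wr_iff.2 ⟨α, n, M, q, h1, ?_⟩⟩
      intro α' n' M' q' h'
      rcases hmin α' n' M' q' ⟨y', hy', h'⟩ with ⟨rfl, rfl, rfl, rfl⟩ | h
      · exact absurd (h'.2.2.2.unique h1.2.2.2) hne
      · exact h
    · rw [pair_mem_Wd]
      rintro ⟨_, _, h⟩
      obtain ⟨α', n', M', q', h', h2⟩ := wr_iff.1 h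
      have h3 := h2 _ _ _ _ h1
      rcases hmin α' n' M' q' ⟨y', hy', h'⟩ with ⟨rfl, rfl, rfl, rfl⟩ | h
      · exact h3.irrefl
      · exact h.asymm h3
  · intro x hx h
    rw [pair_mem_Wd] at h
    obtain ⟨α', n', M', q', h', h2⟩ := wr_iff.1 h.2.2
    exact (h2 _ _ _ _ h').irrefl

/-- The rank function of a wellorder. -/
theorem exists_rank {W Z : ZFSet.{u}} (hW : IsWO W Z) (hi : ∀ x ∈ Z, pair x x ∉ W) :
    ∃ r : ZFSet.{u} → Ordinal.{u},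
      (∀ z ∈ Z, ∀ y, y < r z ↔ ∃ z' ∈ Z, pair z' z ∈ W ∧ y ≤ r z') ∧
      ∀ z ∈ Z, ∀ z' ∈ Z, r z = r z' → z = z' := by
  classical
  obtain ⟨T, hT⟩ : ∃ T : Type u, T = Shrink.{u} {x // x ∈ Z} := ⟨_, rfl⟩
  subst hT
  obtain ⟨e, he⟩ : ∃ e : Shrink.{u} {x // x ∈ Z} → {x // x ∈ Z}, e = (equivShrink _).symm :=
    ⟨_, rfl⟩
  have hes : ∀ z (hz : z ∈ Z), e (equivShrink _ ⟨z, hz⟩) = ⟨z, hz⟩ := by
    intro z hz
    rw [he]
    simp
  obtain ⟨S, hS⟩ : ∃ S : Shrink.{u} {x // x ∈ Z} → Shrink.{u} {x // x ∈ Z} → Prop,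
      S = fun a b => pair (e a).1 (e b).1 ∈ W := ⟨_, rfl⟩
  have hwf : WellFounded S := by
    rw [WellFounded.wellFounded_iff_has_min]
    intro s hs
    obtain ⟨t, ht⟩ := hs
    obtain ⟨y, hy, hy'⟩ := hW (ZFSet.sep (fun z => ∃ a ∈ s, (e a).1 = z) Z)
      (fun z hz => (mem_sep.1 hz).1) ⟨_, mem_sep.2 ⟨(e t).2, t, ht, rfl⟩⟩
    obtain ⟨hyZ, a, ha, rfl⟩ := mem_sep.1 hy
    refine ⟨a, ha, fun b hb hba => ?_⟩
    rw [hS] at hba
    by_cases hne : (e b).1 = (e a).1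
    · rw [hne] at hba
      exact hi _ hyZ hba
    · exact (hy' (e b).1 (mem_sep.2 ⟨(e b).2, b, hb, rfl⟩) hne).2 hba
  have : IsWellFounded _ S := ⟨hwf⟩
  refine ⟨fun z => if h : z ∈ Z then IsWellFounded.rank S (equivShrink _ ⟨z, h⟩) else 0, ?_, ?_⟩
  · intro z hz y
    simp only [dif_pos hz]
    rw [IsWellFounded.rank_eq, Ordinal.lt_iSup_iff]
    constructor
    · rintro ⟨⟨b, hb⟩, h⟩
      rw [Order.lt_succ_iff] at h
      rw [hS, hes] at hb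
      refine ⟨(e b).1, (e b).2, hb, ?_⟩
      rw [dif_pos (e b).2]
      have : equivShrink {x // x ∈ Z} (⟨(e b).1, (e b).2⟩ : {x // x ∈ Z}) = b := by
        rw [he]
        simp
      rwa [this]
    · rintro ⟨z', hz', h1, h2⟩
      rw [dif_pos hz'] at h2
      refine ⟨⟨equivShrink _ ⟨z', hz'⟩, ?_⟩, Order.lt_succ_iff.2 h2⟩
      rw [hS]
      simp only
      rw [hes, hes]
      exact h1
  · intro z hz z' hz' h
    by_contra hne
    simp only [dif_pos hz, dif_pos hz'] at h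
    have key : ∀ a (ha : a ∈ Z) b (hb : b ∈ Z), pair a b ∈ W →
        IsWellFounded.rank S (equivShrink _ ⟨a, ha⟩) < IsWellFounded.rank S (equivShrink _ ⟨b, hb⟩) := by
      intro a ha b hb hab
      apply IsWellFounded.rank_lt_of_rel
      rw [hS]
      simp only
      rw [hes, hes]
      exact hab
    obtain ⟨y, hy, hy'⟩ := hW {z, z'} (fun w hw => by
      rcases mem_pair.1 hw with rfl | rfl
      · exact hz
      · exact hz') ⟨z, by simp⟩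
    rcases mem_pair.1 hy with rfl | rfl
    · have := key _ hz _ hz' (hy' z' (by simp) (Ne.symm hne)).1
      exact absurd h (ne_of_lt this)
    · have := key _ hz' _ hz (hy' z (by simp) hne).1
      exact absurd h.symm (ne_of_lt this)

/-- The definition of the rank function. -/
def RkD (w : ZFSet.{u}) (x : ℕ → ZFSet.{u}) : Prop :=
  IsFunc (x 0) (x 2) w ∧ ∀ z ∈ x 0, ∀ y ∈ x 2, pair z y ∈ w →
    (∀ y' ∈ y, ∃ z' ∈ x 0, pair z' z ∈ x 1 ∧ ∃ y'' ∈ x 2, pair z' y'' ∈ w ∧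
      (y' ∈ y'' ∨ y' = y'')) ∧ ∀ z' ∈ x 0, pair z' z ∈ x 1 → ∃ y' ∈ y, pair z' y' ∈ w

theorem dfn_RkD : Dfn Lvl.{u} (fun v => RkD (v 0) (fun n => v (n + 1))) := by
  refine (dfn_isFunc Lvl_sub_Trs _ _ _).and (Dfn.ball Lvl_sub_Trs _ (Dfn.ball Lvl_sub_Trs _
      (Dfn.imp (dfn_pm Lvl_sub_Trs _ _ _) (Dfn.and ?_ ?_))))
  · exact Dfn.ball Lvl_sub_Trs _ (Dfn.bex Lvl_sub_Trs _ ((dfn_pm Lvl_sub_Trs _ _ _).and
      (Dfn.bex Lvl_sub_Trs _ ((dfn_pm Lvl_sub_Trs _ _ _).and ((Dfn.mem _ _).or (Dfn.eq _ _))))))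
  · exact Dfn.ball Lvl_sub_Trs _ ((dfn_pm Lvl_sub_Trs _ _ _).imp
      (Dfn.bex Lvl_sub_Trs _ (dfn_pm Lvl_sub_Trs _ _ _)))

theorem exists_rk_bound (Z : ZFSet.{u}) (r : ZFSet.{u} → Ordinal.{u}) :
    ∃ γ : Ordinal.{u}, ∀ z ∈ Z, r z < γ := by
  refine ⟨Order.succ (⨆ x : Shrink.{u} {x // x ∈ Z}, r ((equivShrink _).symm x).1), fun z hz => ?_⟩
  rw [Order.lt_succ_iff]
  have := Ordinal.le_iSup (fun x : Shrink.{u} {x // x ∈ Z} => r ((equivShrink _).symm x).1)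
    (equivShrink _ ⟨z, hz⟩)
  simpa using this

theorem rkD_iff {Z W : ZFSet.{u}} {r : ZFSet.{u} → Ordinal.{u}} {γ : Ordinal.{u}}
    (hr : ∀ z ∈ Z, ∀ y, y < r z ↔ ∃ z' ∈ Z, pair z' z ∈ W ∧ y ≤ r z')
    (hγ : ∀ z ∈ Z, r z < γ) {w : ZFSet.{u}} :
    RkD w (asg Z W γ.toZFSet ∅ ∅ ∅) ↔ w = gr Z fun z => (r z).toZFSet := by
  show (IsFunc Z γ.toZFSet w ∧ ∀ z ∈ Z, ∀ y ∈ γ.toZFSet, pair z y ∈ w →
      (∀ y' ∈ y, ∃ z' ∈ Z, pair z' z ∈ W ∧ ∃ y'' ∈ γ.toZFSet, pair z' y'' ∈ w ∧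
        (y' ∈ y'' ∨ y' = y'')) ∧ ∀ z' ∈ Z, pair z' z ∈ W → ∃ y' ∈ y, pair z' y' ∈ w) ↔ _
  constructor
  · rintro ⟨h1, h2⟩
    have key : ∀ y : Ordinal.{u}, ∀ z ∈ Z, r z = y → pair z y.toZFSet ∈ w := by
      intro y
      induction y using WellFoundedLT.induction with
      | ind y ih =>
        intro z hz hzy
        obtain ⟨v, hv, _⟩ := h1.2 z hz
        have hvγ := (pair_mem_prod.1 (h1.1 hv)).2
        obtain ⟨v, hv', rfl⟩ := Ordinal.mem_toZFSet_iff.1 hvγ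
        obtain ⟨h3, h4⟩ := h2 z hz _ hvγ hv
        have hlt : ∀ z' ∈ Z, pair z' z ∈ W → r z' < y := by
          intro z' hz' h5
          rw [← hzy]
          exact (hr z hz _).2 ⟨z', hz', h5, le_rfl⟩
        have h5 : v = y := by
          apply le_antisymm
          · by_contra hc
            push Not at hc
            obtain ⟨z', hz', h6, y'', hy'', h7, h8⟩ := h3 _ (tzm.2 hc)
            have h9 := ih _ (hlt z' hz' h6) z' hz' rfl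
            have h10 := (h1.2 z' hz').unique h7 h9
            subst h10
            have h11 := hlt z' hz' h6
            rcases h8 with h8 | h8
            · exact absurd (tzm.1 h8) (not_lt.2 h11.le)
            · rw [Ordinal.toZFSet_injective h8] at h11
              exact lt_irrefl _ h11
          · by_contra hc
            push Not at hc
            rw [← hzy, hr z hz] at hc
            obtain ⟨z', hz', h6, h7⟩ := hc
            obtain ⟨y', hy', h8⟩ := h4 z' hz' h6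
            have h9 := ih _ (hlt z' hz' h6) z' hz' rfl
            have h10 := (h1.2 z' hz').unique h8 h9
            subst h10
            exact absurd (tzm.1 hy') (not_lt.2 h7)
        rwa [h5] at hv
    refine func_ext h1 (t' := γ.toZFSet) (isFunc_gr fun z hz => tzm.2 (hγ z hz)) fun z hz => ?_
    rw [app_gr hz]
    exact (app_iff h1 hz).1 (key _ z hz rfl)
  · rintro rfl
    refine ⟨isFunc_gr fun z hz => tzm.2 (hγ z hz), fun z hz y hy hzy => ?_⟩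
    obtain ⟨_, rfl⟩ := pair_mem_gr.1 hzy
    refine ⟨fun y' hy' => ?_, fun z' hz' h => ?_⟩
    · obtain ⟨y', hy'', rfl⟩ := Ordinal.mem_toZFSet_iff.1 hy'
      obtain ⟨z', hz', h3, h4⟩ := (hr z hz _).1 hy''
      refine ⟨z', hz', h3, (r z').toZFSet, tzm.2 (hγ z' hz'), pair_mem_gr.2 ⟨hz', rfl⟩, ?_⟩
      rcases h4.lt_or_eq with h5 | h5
      · exact Or.inl (tzm.2 h5)
      · exact Or.inr (by rw [h5])
    · exact ⟨_, tzm.2 ((hr z hz _).2 ⟨z', hz', h, le_rfl⟩), pair_mem_gr.2 ⟨hz', rfl⟩⟩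

/-- The range of the rank function is an initial segment of the ordinals. -/
theorem rk_initial {Z W : ZFSet.{u}} {r : ZFSet.{u} → Ordinal.{u}}
    (hr : ∀ z ∈ Z, ∀ y, y < r z ↔ ∃ z' ∈ Z, pair z' z ∈ W ∧ y ≤ r z') :
    ∀ z ∈ Z, ∀ y < r z, ∃ z' ∈ Z, r z' = y := by
  have hini : ∀ x : Ordinal.{u}, ∀ z ∈ Z, r z = x → ∀ y < r z, ∃ z' ∈ Z, r z' = y := by
    intro x
    induction x using WellFoundedLT.induction with
    | ind x ih =>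
      intro z hz hx y hy
      obtain ⟨z', hz', h1, h2⟩ := (hr z hz y).1 hy
      rcases h2.lt_or_eq with h3 | h3
      · refine ih (r z') ?_ z' hz' rfl y h3
        rw [← hx]
        exact (hr z hz _).2 ⟨z', hz', h1, le_rfl⟩
      · exact ⟨z', hz', h3.symm⟩
  exact fun z hz => hini _ z hz rfl

/-- An ordinal definable injection from an ordinal definable set of ordinal definable sets to the
ordinals. -/
theorem exists_odrank {Z : ZFSet.{u}} (hZ : OD Z) (hZ' : ∀ x ∈ Z, OD x) :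
    ∃ r : ZFSet.{u} → Ordinal.{u}, OD (gr Z fun z => (r z).toZFSet) ∧
      (∀ z ∈ Z, ∀ z' ∈ Z, r z = r z' → z = z') ∧ ∀ z ∈ Z, ∀ y < r z, ∃ z' ∈ Z, r z' = y := by
  obtain ⟨W, hW, hWO, hi⟩ := exists_wo_od hZ hZ'
  obtain ⟨r, hr, hinj⟩ := exists_rank hWO hi
  obtain ⟨γ, hγ⟩ := exists_rk_bound Z r
  refine ⟨r, ?_, hinj, rk_initial hr⟩
  exact OD_of (R := RkD) (x := asg Z W γ.toZFSet ∅ ∅ ∅) dfn_RkD hZ hW
    (asg_ord (isOrdinal_toZFSet _) empty_ord empty_ord empty_ord) fun w => rkD_iff hr hγ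

theorem odp_rank {p Z W : ZFSet.{u}} {r : ZFSet.{u} → Ordinal.{u}} (hZ : ODp p Z) (hW : ODp p W)
    (hr : ∀ z ∈ Z, ∀ y, y < r z ↔ ∃ z' ∈ Z, pair z' z ∈ W ∧ y ≤ r z') :
    ODp p (gr Z fun z => (r z).toZFSet) := by
  obtain ⟨γ, hγ⟩ := exists_rk_bound Z r
  exact odp_of2 (R := RkD) (x := asg Z W γ.toZFSet ∅ ∅ ∅) dfn_RkD hZ hW
    (asg_ord (isOrdinal_toZFSet _) empty_ord empty_ord empty_ord) fun w => rkD_iff hr hγ

/-- The ordinal definable elements of an ordinal definable set form an ordinal definable set. -/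
theorem OD_sepOD {X : ZFSet.{u}} (hX : OD X) : OD (ZFSet.sep OD X) := by
  obtain ⟨β, hβ⟩ : ∃ β : Ordinal.{u}, ∀ z ∈ X, OD z → ∃ a < β, ODat (V_ a) z := by
    classical
    refine ⟨Order.succ (⨆ x : Shrink.{u} {x // x ∈ X}, if h : OD ((equivShrink _).symm x).1 then
      h.choose else 0), fun z hz h => ⟨h.choose, ?_, h.choose_spec⟩⟩
    rw [Order.lt_succ_iff]
    have h1 := Ordinal.le_iSup (fun x : Shrink.{u} {x // x ∈ X} =>
      if h : OD ((equivShrink _).symm x).1 then h.choose else 0) (equivShrink _ ⟨z, hz⟩)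
    simpa [h] using h1
  refine OD_of (R := fun y x => (∀ z ∈ y, z ∈ x 0 ∧ ∃ a ∈ x 2, ∃ U, (LevOf U a ∧ a.IsOrdinal) ∧
      ODat U z) ∧ ∀ z ∈ x 0, (∃ a ∈ x 2, ∃ U, (LevOf U a ∧ a.IsOrdinal) ∧ ODat U z) → z ∈ y)
    (x := asg X X β.toZFSet ∅ ∅ ∅) ?_ hX hX
    (asg_ord (isOrdinal_toZFSet _) empty_ord empty_ord empty_ord) (fun w => ?_)
  · have key : ∀ a b : ℕ, Dfn Lvl.{u} (fun v => ∃ U, (LevOf U (v a) ∧ (v a).IsOrdinal) ∧
        ODat U (v b)) := by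
      intro a b
      refine Dfn.ex (A := fun U v => (LevOf U (v a) ∧ (v a).IsOrdinal) ∧ ODat U (v b)) ?_ ?_
      · exact ((dfn_LevOf 0 (a + 1)).and (dfn_ord Lvl_sub_Trs (a + 1))).and (dfn_ODat 0 (b + 1))
      · rintro U hU v hv ⟨U', ⟨h1, h2⟩, h3⟩
        refine ⟨U', ?_, ⟨h1, h2⟩, h3⟩
        obtain ⟨γ, hγ, _, rfl⟩ := hU
        rw [← h2.toZFSet_rank_eq, levOf_iff] at h1
        rw [h1, vonNeumann_mem_vonNeumann_iff]
        exact mem_vonNeumann.1 (hv _)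
    refine Dfn.and ?_ ?_
    · exact Dfn.ball Lvl_sub_Trs _ ((Dfn.mem _ _).and (Dfn.bex Lvl_sub_Trs _ (key 0 1)))
    · exact Dfn.ball Lvl_sub_Trs _ ((Dfn.bex Lvl_sub_Trs _ (key 0 1)).imp (Dfn.mem _ _))
  · show (∀ z ∈ w, z ∈ X ∧ ∃ a ∈ β.toZFSet, ∃ U, (LevOf U a ∧ a.IsOrdinal) ∧ ODat U z) ∧
      (∀ z ∈ X, (∃ a ∈ β.toZFSet, ∃ U, (LevOf U a ∧ a.IsOrdinal) ∧ ODat U z) → z ∈ w) ↔ _
    have hE : ∀ z ∈ X, (∃ a ∈ β.toZFSet, ∃ U, (LevOf U a ∧ a.IsOrdinal) ∧ ODat U z) ↔ OD z := by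
      intro z hz
      constructor
      · rintro ⟨a, ha, U, ⟨h1, _⟩, h2⟩
        obtain ⟨a, _, rfl⟩ := Ordinal.mem_toZFSet_iff.1 ha
        rw [levOf_iff] at h1
        subst h1
        exact ⟨a, h2⟩
      · intro h
        obtain ⟨a, ha, h1⟩ := hβ z hz h
        exact ⟨a.toZFSet, tzm.2 ha, V_ a, ⟨levOf_iff.2 rfl, isOrdinal_toZFSet _⟩, h1⟩
    constructor
    · rintro ⟨h1, h2⟩
      ext z
      rw [mem_sep]
      constructor
      · intro hz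
        exact ⟨(h1 z hz).1, (hE z (h1 z hz).1).1 (h1 z hz).2⟩
      · rintro ⟨hz, h⟩
        exact h2 z hz ((hE z hz).2 h)
    · rintro rfl
      exact ⟨fun z hz => ⟨(mem_sep.1 hz).1, (hE z (mem_sep.1 hz).1).2 (mem_sep.1 hz).2⟩,
        fun z hz h => mem_sep.2 ⟨hz, (hE z hz).1 h⟩⟩

/-- If all sequences of ordinals of length `k` are definable from ordinals and `p`, then so are all
sequences of length `k` of sets which are definable from ordinals and `p`. -/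
theorem odp_seq {p f Y : ZFSet.{u}} {k : Ordinal.{u}} (hf : IsFunc k.toZFSet Y f)
    (hv : ∀ i < k, ODp p (app f i.toZFSet))
    (hs : ∀ s : Ordinal.{u} → Ordinal.{u}, ODp p (gz k fun i => (s i).toZFSet)) : ODp p f := by
  classical
  have h1 : ∀ i : Ordinal.{u}, ∃ G, i < k → OD G ∧ ∀ x', pair p x' ∈ G ↔ x' = app f i.toZFSet := by
    intro i
    by_cases hi : i < k
    · obtain ⟨G, h2⟩ := exists_odfun (hv i hi)
      exact ⟨G, fun _ => h2⟩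
    · exact ⟨∅, fun h => absurd h hi⟩
  choose G hG using h1
  obtain ⟨ζ, hζ⟩ : ∃ ζ : Ordinal.{u}, gz k G ∈ V_ ζ ∧ f ∈ V_ ζ := by
    refine ⟨Order.succ (max (rank (gz k G)) (rank f)), ?_, ?_⟩
    · rw [mem_vonNeumann, Order.lt_succ_iff]; exact le_max_left _ _
    · rw [mem_vonNeumann, Order.lt_succ_iff]; exact le_max_right _ _
  have tp : ∀ {a b c : ZFSet.{u}}, pair a b ∈ c → c ∈ V_ ζ → b ∈ V_ ζ := by
    intro a b c h h'
    have ht := isTransitive_vonNeumann ζ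
    have h2 : ({a, b} : ZFSet.{u}) ∈ V_ ζ := ht.mem_trans (by simp [pair]) (ht.mem_trans h h')
    exact ht.mem_trans (by simp) h2
  obtain ⟨r, hr, hinj, _⟩ := exists_odrank (OD_sepOD (OD_V ζ)) fun x hx => (mem_sep.1 hx).2
  obtain ⟨γ, hγ⟩ : ∃ γ : Ordinal.{u}, ∀ z ∈ ZFSet.sep OD (V_ ζ), r z < γ := by
    refine ⟨Order.succ (⨆ x : Shrink.{u} {x // x ∈ ZFSet.sep OD (V_ ζ)},
      r ((equivShrink _).symm x).1), fun z hz => ?_⟩
    rw [Order.lt_succ_iff]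
    have := Ordinal.le_iSup (fun x : Shrink.{u} {x // x ∈ ZFSet.sep OD (V_ ζ)} =>
      r ((equivShrink _).symm x).1) (equivShrink _ ⟨z, hz⟩)
    simpa using this
  have hGZ : ∀ i < k, G i ∈ ZFSet.sep OD (V_ ζ) := fun i hi =>
    mem_sep.2 ⟨tp (pair_gz.2 ⟨hi, rfl⟩) hζ.1, (hG i hi).1⟩
  obtain ⟨ρ, hρ⟩ : ∃ ρ, ρ = gr (ZFSet.sep OD (V_ ζ)) fun z => (r z).toZFSet := ⟨_, rfl⟩
  obtain ⟨s, hs'⟩ : ∃ s, s = gz k fun i => (r (G i)).toZFSet := ⟨_, rfl⟩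
  refine odp_of4 (R := fun f' x =>
    (∀ q ∈ f', ∃ i ∈ x 4, ∃ y ∈ x 3, q = pair i y ∧ ∃ H ∈ x 3, ∃ o ∈ x 5, pair H o ∈ x 0 ∧
      pair i o ∈ x 1 ∧ pair (x 2) y ∈ H) ∧
    ∀ i ∈ x 4, ∀ y ∈ x 3, (∃ H ∈ x 3, ∃ o ∈ x 5, pair H o ∈ x 0 ∧
      pair i o ∈ x 1 ∧ pair (x 2) y ∈ H) → pair i y ∈ f')
    (x := as ρ s p (V_ ζ) k.toZFSet γ.toZFSet (0 : Ordinal.{u}).toZFSet (0 : Ordinal.{u}).toZFSet
      (0 : Ordinal.{u}).toZFSet (0 : Ordinal.{u}).toZFSet) ?_ ?_ ?_ ?_ ?_ ?_ fun f' => ?_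
  · refine Dfn.and ?_ ?_
    · exact Dfn.ball Lvl_sub_Trs _ (Dfn.bex Lvl_sub_Trs _ (Dfn.bex Lvl_sub_Trs _
        ((dfn_pair Lvl_sub_Trs _ _ _).and (Dfn.bex Lvl_sub_Trs _ (Dfn.bex Lvl_sub_Trs _
        ((dfn_pm Lvl_sub_Trs _ _ _).and ((dfn_pm Lvl_sub_Trs _ _ _).and
        (dfn_pm Lvl_sub_Trs _ _ _))))))))
    · exact Dfn.ball Lvl_sub_Trs _ (Dfn.ball Lvl_sub_Trs _ (Dfn.imp (Dfn.bex Lvl_sub_Trs _
        (Dfn.bex Lvl_sub_Trs _ ((dfn_pm Lvl_sub_Trs _ _ _).and ((dfn_pm Lvl_sub_Trs _ _ _).and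
        (dfn_pm Lvl_sub_Trs _ _ _))))) (dfn_pm Lvl_sub_Trs _ _ _)))
  · show ODp p ρ
    rw [hρ]
    exact hr.odp p
  · show ODp p s
    rw [hs']
    exact hs fun i => r (G i)
  · exact odp_self p
  · exact (OD_V ζ).odp p
  · exact ord10 _ _ _ _ _ _ _ _ _ _
  · have hE : ∀ i < k, ∀ y, (∃ H ∈ V_ ζ, ∃ o ∈ γ.toZFSet, pair H o ∈ ρ ∧ pair i.toZFSet o ∈ s ∧
        pair p y ∈ H) ↔ y = app f i.toZFSet := by
      intro i hi y
      constructor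
      · rintro ⟨H, hH, o, ho, h2, h3, h4⟩
        rw [hρ] at h2
        rw [hs'] at h3
        obtain ⟨h5, rfl⟩ := pair_mem_gr.1 h2
        have h6 := (pair_gz.1 h3).2
        obtain rfl := hinj _ h5 _ (hGZ i hi) (Ordinal.toZFSet_injective h6.symm)
        exact ((hG i hi).2 y).1 h4
      · intro h2
        refine ⟨G i, (mem_sep.1 (hGZ i hi)).1, (r (G i)).toZFSet, tzm.2 (hγ _ (hGZ i hi)), ?_, ?_,
          ((hG i hi).2 y).2 h2⟩
        · rw [hρ]; exact pair_mem_gr.2 ⟨hGZ i hi, rfl⟩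
        · rw [hs']; exact pair_gz.2 ⟨hi, rfl⟩
    show (∀ q ∈ f', ∃ i ∈ k.toZFSet, ∃ y ∈ V_ ζ, q = pair i y ∧ ∃ H ∈ V_ ζ, ∃ o ∈ γ.toZFSet,
      pair H o ∈ ρ ∧ pair i o ∈ s ∧ pair p y ∈ H) ∧
      (∀ i ∈ k.toZFSet, ∀ y ∈ V_ ζ, (∃ H ∈ V_ ζ, ∃ o ∈ γ.toZFSet, pair H o ∈ ρ ∧
      pair i o ∈ s ∧ pair p y ∈ H) → pair i y ∈ f') ↔ f' = f
    constructor
    · rintro ⟨h2, h3⟩
      ext q
      constructor
      · intro hq
        obtain ⟨i, hi, y, _, rfl, h4⟩ := h2 q hq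
        obtain ⟨i, hi', rfl⟩ := Ordinal.mem_toZFSet_iff.1 hi
        rw [(hE i hi' y).1 h4]
        exact app_spec hf hi
      · intro hq
        obtain ⟨i, hi, y, hy, rfl⟩ := mem_prod.1 (hf.1 hq)
        obtain ⟨i, hi', rfl⟩ := Ordinal.mem_toZFSet_iff.1 hi
        exact h3 _ hi y (tp hq hζ.2) ((hE i hi' y).2 ((app_iff hf hi).1 hq).symm)
    · rintro rfl
      refine ⟨fun q hq => ?_, fun i hi y _ h4 => ?_⟩
      · obtain ⟨i, hi, y, hy, rfl⟩ := mem_prod.1 (hf.1 hq)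
        obtain ⟨i, hi', rfl⟩ := Ordinal.mem_toZFSet_iff.1 hi
        exact ⟨_, hi, y, tp hq hζ.2, rfl, (hE i hi' y).2 ((app_iff hf hi).1 hq).symm⟩
      · obtain ⟨i, hi', rfl⟩ := Ordinal.mem_toZFSet_iff.1 hi
        rw [(hE i hi' y).1 h4]
        exact app_spec hf hi

end Pool.Agent.H639
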