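import Pool.Agent.H639.Jen4

/-!
A weak form of covering gives many ordinals of countable cofinality which are singular in HOD.
-/

set_option autoImplicit false
set_option linter.unusedVariables false

namespace Pool.Agent.H639

open Pool.Agent.H310.HD Gss969 ZFSet Pool.Agent.Results.MP_e37c09_lc.AlternativeA

universe u

theorem Few.card_le {μ α : Ordinal.{u}} {B : ZFSet.{u}} (h : Few μ B)
    (e : Ordinal.{u} → Ordinal.{u}) (he : ∀ i < α, (e i).toZFSet ∈ B)
    (hinj : ∀ i < α, ∀ i' < α, e i = e i' → i = i') : α.card ≤ μ.card := by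
  obtain ⟨g, hg⟩ := h
  have h1 : ∀ i : Set.Iio α, ∃ k : Set.Iio μ, g k.1 = e i.1 := fun i => by
    obtain ⟨k, hk, h⟩ := hg _ (he i.1 i.2)
    exact ⟨⟨k, hk⟩, h⟩
  choose k hk using h1
  have h2 : Function.Injective k := by
    intro i i' h3
    refine Subtype.ext (hinj _ i.2 _ i'.2 ?_)
    rw [← hk, ← hk, h3]
  have h4 := Cardinal.mk_le_of_injective h2
  rw [Cardinal.mk_Iio_ordinal, Cardinal.mk_Iio_ordinal] at h4
  exact Cardinal.lift_le.1 h4

theorem sing_of_cover {α μ : Ordinal.{u}} (hα : CofOm α.toZFSet) (hc : μ.card < α.card)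
    (h : ∀ f : ℕ → Ordinal.{u}, (∀ n, f n < α) → ∃ B, HOD B ∧ (∀ n, (f n).toZFSet ∈ B) ∧ Few μ B) :
    CofinalP HOD α.toZFSet := by
  by_contra hreg
  obtain ⟨f, hf, hfc⟩ := hα
  have hn : ∀ n : ℕ, (n : Ordinal.{u}).toZFSet ∈ om.{u} := fun n => by
    unfold om; exact tzm.2 (Ordinal.natCast_lt_omega0 n)
  have hfr : ∀ n : ℕ, (rank (app f (n : Ordinal.{u}).toZFSet)).toZFSet =
      app f (n : Ordinal.{u}).toZFSet := fun n => by
    obtain ⟨y, _, h1⟩ := Ordinal.mem_toZFSet_iff.1 (app_mem hf (hn n))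
    rw [← h1, Ordinal.rank_toZFSet]
  obtain ⟨B, hB, hfB, hfew⟩ := h (fun n => rank (app f (n : Ordinal.{u}).toZFSet)) fun n => by
    rw [← tzm, hfr]
    exact app_mem hf (hn n)
  have hB' : HOD (B ∩ α.toZFSet) := HOD_inter hB (HOD_ord α)
  have hen := enum_all (W := B ∩ α.toZFSet) (κ := α) hB'.od (fun ξ hξ => by
    obtain ⟨n, hn', y, hy, hny, hξy⟩ := hfc _ (tzm.2 hξ)
    unfold om at hn'
    obtain ⟨n, hn'', rfl⟩ := Ordinal.mem_toZFSet_iff.1 hn'
    obtain ⟨n, rfl⟩ := Ordinal.lt_omega0.1 hn''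
    have h1 := (app_iff hf (hn n)).1 hny
    have h2 := hfB n
    rw [hfr, h1] at h2
    obtain ⟨y, hy', rfl⟩ := Ordinal.mem_toZFSet_iff.1 hy
    exact ⟨y, hy', tzm.1 hξy, mem_inter.2 ⟨h2, hy⟩⟩) hreg
  obtain ⟨S, hS⟩ : ∃ S : Set Ordinal.{u}, S = {η | η.toZFSet ∈ B ∩ α.toZFSet ∨ α ≤ η} := ⟨_, rfl⟩
  rw [← hS] at hen
  have hunb : ¬ BddAbove S := by
    rintro ⟨x, hx⟩
    have h1 : max (Order.succ x) α ∈ S := by
      rw [hS]; exact Or.inr (le_max_right _ _)
    exact absurd ((Order.lt_succ x).trans_le (le_max_left _ _)) (not_lt.2 (hx h1))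
  have hmono := Ordinal.enumOrd_strictMono hunb
  have hle := hfew.card_le (Ordinal.enumOrd S) (fun i hi => by
    have h1 := Ordinal.enumOrd_mem hunb i
    have h2 := hen i hi
    rw [hS] at h1
    rcases h1 with h3 | h3
    · rw [hS]
      exact (mem_inter.1 h3).1
    · rw [← hS] at h3
      exact absurd h2 (not_lt.2 h3)) (α := α) fun i _ i' _ h => hmono.injective h
  exact absurd hle (not_le.2 hc)

end Pool.Agent.H639
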