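import Pool.Agent.H639.Hp2
import Pool.Agent.H639.Jen5

/-!
Under the HOD Hypothesis the classes `HOD_p` are closed under long sequences, for suitable `p`.
-/

set_option autoImplicit false

namespace Pool.Agent.H639

open Pool.Agent.H310.HD Gss969 ZFSet
open Pool.Agent.Results.MP_e37c09_lc.AlternativeA

universe u

/-- `p` is a function from an ordinal onto `X`. -/
def EnumOf (X p : ZFSet.{u}) : Prop :=
  ∃ ν : Ordinal.{u}, IsFunc ν.toZFSet X p ∧ ∀ x ∈ X, ∃ i < ν, pair i.toZFSet x ∈ p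

theorem EnumOf.odp {X p x : ZFSet.{u}} (h : EnumOf X p) (hx : x ∈ X) : ODp p x := by
  obtain ⟨ν, h1, h2⟩ := h
  obtain ⟨i, hi, h3⟩ := h2 x hx
  refine odp_of2 (R := fun y x => pair (x 2) y ∈ x 0) (x := asg p p i.toZFSet ∅ ∅ ∅)
    (dfn_pm Lvl_sub_Trs _ _ _) (odp_self p) (odp_self p)
    (asg_ord (isOrdinal_toZFSet _) empty_ord empty_ord empty_ord) fun y => ?_
  exact ⟨fun h4 => (h1.2 _ (tzm.2 hi)).unique h4 h3, fun h4 => h4 ▸ h3⟩

theorem EnumOf.hodp {α : Ordinal.{u}} {p x : ZFSet.{u}} (h : EnumOf (V_ α) p) (hx : x ∈ V_ α) :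
    HODp p x :=
  ⟨V_ α, isTransitive_vonNeumann α, hx, fun _ hy => h.odp hy⟩

/-- Under the HOD Hypothesis all sequences of ordinals of length `k` are definable from ordinals and
an enumeration of a large `V_ρ`. -/
theorem odp_ordseq {δ : Ordinal.{u}} (hδ : Extendible δ) (hFam : Families δ) (k : Ordinal.{u}) :
    ∃ ρ₀ : Ordinal.{u}, ∀ ρ ≥ ρ₀, ∀ p, EnumOf (V_ ρ) p →
      ∀ s : Ordinal.{u} → Ordinal.{u}, ODp p (gz k fun i => (s i).toZFSet) := by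
  classical
  obtain ⟨μ, hμ⟩ : ∃ μ, μ = max δ k := ⟨_, rfl⟩
  obtain ⟨l, hl, hr⟩ := exists_regUnc μ
  obtain ⟨ζ, hζ, hζ2, hζ3⟩ := exists_limit_gt l
  refine ⟨ζ, fun ρ hρ p hp s => ?_⟩
  obtain ⟨γ, hγ⟩ : ∃ γ : Ordinal.{u}, ∀ i < μ, s i < γ := by
    refine ⟨Order.succ (⨆ x : Set.Iio μ, s x.1), fun i hi => ?_⟩
    rw [Order.lt_succ_iff]
    exact Ordinal.le_iSup (fun x : Set.Iio μ => s x.1) ⟨i, hi⟩
  have hδμ : δ ≤ μ := by rw [hμ]; exact le_max_left _ _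
  have hkμ : k ≤ μ := by rw [hμ]; exact le_max_right _ _
  obtain ⟨B, hB, hBγ, hsB, hfew⟩ := cover_all hδ hFam μ hδμ γ s hγ
  obtain ⟨r, hrB, hinj, hini⟩ := exists_odrank hB.od fun x hx => (hB.mem hx).od
  have hlt : ∀ z ∈ B, r z < l := by
    intro z hz
    have h1 : (r z).card ≤ μ.card := by
      have h2 : ∀ y : Ordinal.{u}, ∃ w : Ordinal.{u}, y < r z → w.toZFSet ∈ B ∧ r w.toZFSet = y := by
        intro y
        by_cases hy : y < r z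
        · obtain ⟨z', hz', h3⟩ := hini z hz y hy
          obtain ⟨w, _, rfl⟩ := Ordinal.mem_toZFSet_iff.1 (hBγ hz')
          exact ⟨w, fun _ => ⟨hz', h3⟩⟩
        · exact ⟨0, fun h => absurd h hy⟩
      choose e he using h2
      refine hfew.card_le e (fun i hi => (he i hi).1) fun i hi i' hi' h => ?_
      rw [← (he i hi).2, ← (he i' hi').2, h]
    by_contra hc
    push Not at hc
    have h2 := hr.isCard.card_lt hl
    exact absurd (h2.trans_le ((Ordinal.card_le_card hc).trans h1)) (lt_irrefl _)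
  obtain ⟨t, ht⟩ : ∃ t, t = gz k fun i => (r (s i).toZFSet).toZFSet := ⟨_, rfl⟩
  have htρ : t ∈ V_ ρ := by
    have h1 : V_ ζ ∈ Lvl.{u} := ⟨ζ, hζ3, hζ2, rfl⟩
    have h2 : XX l.toZFSet ∈ V_ ζ := XX_mem h1 (by
      rw [mem_vonNeumann, Ordinal.rank_toZFSet]; exact hζ)
    have h3 : IsFunc k.toZFSet l.toZFSet t := by
      rw [ht]
      exact isFunc_gz fun i hi => tzm.2 (hlt _ (hsB i (hi.trans_le hkμ)))
    have h4 : t ∈ XX l.toZFSet := XX_func h3 (fun z hz => by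
      obtain ⟨i, hi, rfl⟩ := Ordinal.mem_toZFSet_iff.1 hz
      exact tzm.2 (hi.trans_le (hkμ.trans hl.le))) fun z hz => hz
    exact (vonNeumann_subset_of_le hρ) ((isTransitive_vonNeumann ζ).mem_trans h4 h2)
  have htp : ODp p t := hp.odp htρ
  refine odp_of2 (R := fun f x => (∀ q ∈ f, ∃ i ∈ x 2, ∃ y ∈ x 3, q = pair i y ∧
        ∃ o ∈ x 4, pair y o ∈ x 0 ∧ pair i o ∈ x 1) ∧
      ∀ i ∈ x 2, ∀ y ∈ x 3, (∃ o ∈ x 4, pair y o ∈ x 0 ∧ pair i o ∈ x 1) → pair i y ∈ f)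
    (x := asg (gr B fun z => (r z).toZFSet) t k.toZFSet γ.toZFSet l.toZFSet ∅) ?_ (hrB.odp p) htp
    (asg_ord (isOrdinal_toZFSet _) (isOrdinal_toZFSet _) (isOrdinal_toZFSet _) empty_ord)
    fun f => ?_
  · refine Dfn.and ?_ ?_
    · exact Dfn.ball Lvl_sub_Trs _ (Dfn.bex Lvl_sub_Trs _ (Dfn.bex Lvl_sub_Trs _
        ((dfn_pair Lvl_sub_Trs _ _ _).and (Dfn.bex Lvl_sub_Trs _
        ((dfn_pm Lvl_sub_Trs _ _ _).and (dfn_pm Lvl_sub_Trs _ _ _))))))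
    · exact Dfn.ball Lvl_sub_Trs _ (Dfn.ball Lvl_sub_Trs _ (Dfn.imp (Dfn.bex Lvl_sub_Trs _
        ((dfn_pm Lvl_sub_Trs _ _ _).and (dfn_pm Lvl_sub_Trs _ _ _)))
        (dfn_pm Lvl_sub_Trs _ _ _)))
  · have hE : ∀ i < k, ∀ y, (∃ o ∈ l.toZFSet, pair y o ∈ (gr B fun z => (r z).toZFSet) ∧
        pair i.toZFSet o ∈ t) ↔ y = (s i).toZFSet := by
      intro i hi y
      rw [ht]
      constructor
      · rintro ⟨o, ho, h1, h2⟩
        obtain ⟨h3, rfl⟩ := pair_mem_gr.1 h1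
        exact hinj _ h3 _ (hsB i (hi.trans_le hkμ))
          (Ordinal.toZFSet_injective (pair_gz.1 h2).2.symm)
      · rintro rfl
        have h1 := hsB i (hi.trans_le hkμ)
        exact ⟨_, tzm.2 (hlt _ h1), pair_mem_gr.2 ⟨h1, rfl⟩, pair_gz.2 ⟨hi, rfl⟩⟩
    have hmem : ∀ q, q ∈ (gz k fun i => (s i).toZFSet) ↔
        ∃ i < k, q = pair i.toZFSet (s i).toZFSet := by
      intro q
      unfold gz
      rw [mem_gr]
      constructor
      · rintro ⟨x, hx, rfl⟩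
        obtain ⟨i, hi, rfl⟩ := Ordinal.mem_toZFSet_iff.1 hx
        exact ⟨i, hi, by rw [Ordinal.rank_toZFSet]⟩
      · rintro ⟨i, hi, rfl⟩
        exact ⟨_, tzm.2 hi, by rw [Ordinal.rank_toZFSet]⟩
    show (∀ q ∈ f, ∃ i ∈ k.toZFSet, ∃ y ∈ γ.toZFSet, q = pair i y ∧
        ∃ o ∈ l.toZFSet, pair y o ∈ (gr B fun z => (r z).toZFSet) ∧ pair i o ∈ t) ∧
      (∀ i ∈ k.toZFSet, ∀ y ∈ γ.toZFSet, (∃ o ∈ l.toZFSet,
        pair y o ∈ (gr B fun z => (r z).toZFSet) ∧ pair i o ∈ t) → pair i y ∈ f) ↔ _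
    constructor
    · rintro ⟨h1, h2⟩
      ext q
      rw [hmem]
      constructor
      · intro hq
        obtain ⟨i, hi, y, _, rfl, h3⟩ := h1 q hq
        obtain ⟨i, hi', rfl⟩ := Ordinal.mem_toZFSet_iff.1 hi
        exact ⟨i, hi', by rw [(hE i hi' y).1 h3]⟩
      · rintro ⟨i, hi, rfl⟩
        exact h2 _ (tzm.2 hi) _ (tzm.2 (hγ i (hi.trans_le hkμ))) ((hE i hi _).2 rfl)
    · rintro rfl
      refine ⟨fun q hq => ?_, fun i hi y _ h3 => ?_⟩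
      · obtain ⟨i, hi, rfl⟩ := (hmem q).1 hq
        exact ⟨_, tzm.2 hi, _, tzm.2 (hγ i (hi.trans_le hkμ)), rfl, (hE i hi _).2 rfl⟩
      · obtain ⟨i, hi', rfl⟩ := Ordinal.mem_toZFSet_iff.1 hi
        exact pair_gz.2 ⟨hi', ((hE i hi' y).1 h3).symm⟩

/-- `P` is closed under sequences of length `k`. -/
def ClosedSeq (P : ZFSet.{u} → Prop) (k : Ordinal.{u}) : Prop :=
  ∀ Y f, IsFunc k.toZFSet Y f → (∀ x y, pair x y ∈ f → P y) → P f

theorem closedSeq_hodp {p : ZFSet.{u}} {k : Ordinal.{u}}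
    (h : ∀ s : Ordinal.{u} → Ordinal.{u}, ODp p (gz k fun i => (s i).toZFSet)) :
    ClosedSeq (HODp p) k := by
  intro Y f hf hv
  refine hodp_of_sub (odp_seq hf (fun i hi => ?_) h) fun q hq => ?_
  · exact (hv _ _ (app_spec hf (tzm.2 hi))).odp
  · obtain ⟨i, hi, y, hy, rfl⟩ := mem_prod.1 (hf.1 hq)
    obtain ⟨i, hi', rfl⟩ := Ordinal.mem_toZFSet_iff.1 hi
    exact hodp_pair ((HOD_ord i).hodp p) (hv _ _ hq)

end Pool.Agent.H639
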