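import Pool.Agent.H639.Hp3

/-!
Weak covering for `HOD_p` makes cardinals of countable cofinality singular in `HOD_p`.
-/

set_option autoImplicit false

namespace Pool.Agent.H639

open Pool.Agent.H310.HD Gss969 ZFSet

universe u

/-- Separation for sets definable from `p` and ordinals. -/
theorem odp_inter {p A B : ZFSet.{u}} (hA : ODp p A) (hB : ODp p B) : ODp p (A ∩ B) := by
  refine odp_of2 (R := fun y x => (∀ z ∈ y, z ∈ x 0 ∧ z ∈ x 1) ∧ ∀ z ∈ x 0, z ∈ x 1 → z ∈ y)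
    (x := asg A B ∅ ∅ ∅ ∅) ?_ hA hB
    (asg_ord empty_ord empty_ord empty_ord empty_ord) (fun y => ?_)
  · refine Dfn.and ?_ ?_
    · exact Dfn.ball Lvl_sub_Trs _ ((Dfn.mem _ _).and (Dfn.mem _ _))
    · exact Dfn.ball Lvl_sub_Trs _ ((Dfn.mem _ _).imp (Dfn.mem _ _))
  · show (∀ z ∈ y, z ∈ A ∧ z ∈ B) ∧ (∀ z ∈ A, z ∈ B → z ∈ y) ↔ _
    constructor
    · rintro ⟨h1, h2⟩
      ext z
      rw [mem_inter]
      exact ⟨h1 z, fun h => h2 z h.1 h.2⟩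
    · rintro rfl
      exact ⟨fun z hz => mem_inter.1 hz, fun z h1 h2 => mem_inter.2 ⟨h1, h2⟩⟩

/-- The range of a function into an ordinal. -/
theorem odp_range {p F : ZFSet.{u}} {k γ : Ordinal.{u}} (hF : ODp p F) :
    ODp p (ZFSet.sep (fun y => ∃ i ∈ k.toZFSet, pair i y ∈ F) γ.toZFSet) := by
  refine odp_of2 (R := fun w x => (∀ y ∈ w, y ∈ x 3 ∧ ∃ i ∈ x 2, pair i y ∈ x 0) ∧
      ∀ y ∈ x 3, (∃ i ∈ x 2, pair i y ∈ x 0) → y ∈ w)
    (x := asg F F k.toZFSet γ.toZFSet ∅ ∅) ?_ hF hF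
    (asg_ord (isOrdinal_toZFSet _) (isOrdinal_toZFSet _) empty_ord empty_ord) (fun w => ?_)
  · refine Dfn.and ?_ ?_
    · exact Dfn.ball Lvl_sub_Trs _ ((Dfn.mem _ _).and (Dfn.bex Lvl_sub_Trs _
        (dfn_pm Lvl_sub_Trs _ _ _)))
    · exact Dfn.ball Lvl_sub_Trs _ ((Dfn.bex Lvl_sub_Trs _
        (dfn_pm Lvl_sub_Trs _ _ _)).imp (Dfn.mem _ _))
  · show (∀ y ∈ w, y ∈ γ.toZFSet ∧ ∃ i ∈ k.toZFSet, pair i y ∈ F) ∧
      (∀ y ∈ γ.toZFSet, (∃ i ∈ k.toZFSet, pair i y ∈ F) → y ∈ w) ↔ _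
    constructor
    · rintro ⟨h1, h2⟩
      ext z
      rw [mem_sep]
      exact ⟨h1 z, fun h => h2 z h.1 h.2⟩
    · rintro rfl
      exact ⟨fun z hz => mem_sep.1 hz, fun z h1 h2 => mem_sep.2 ⟨h1, h2⟩⟩

/-- The order of the ordinals in `B`. -/
noncomputable def ElB (B : ZFSet.{u}) : ZFSet.{u} :=
  ZFSet.sep (fun q => ∃ x ∈ B, ∃ y ∈ B, q = pair x y ∧ x ∈ y) (prod B B)

theorem pair_mem_ElB {B x y : ZFSet.{u}} : pair x y ∈ ElB B ↔ x ∈ B ∧ y ∈ B ∧ x ∈ y := by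
  unfold ElB
  rw [mem_sep]
  constructor
  · rintro ⟨_, x', hx, y', hy, e, h⟩
    rw [pair_inj] at e
    obtain ⟨rfl, rfl⟩ := e
    exact ⟨hx, hy, h⟩
  · rintro ⟨hx, hy, h⟩
    exact ⟨pair_mem_prod.2 ⟨hx, hy⟩, x, hx, y, hy, rfl, h⟩

theorem odp_ElB {p B : ZFSet.{u}} (hB : ODp p B) : ODp p (ElB B) := by
  refine odp_of2 (R := fun w x => (∀ q ∈ w, ∃ a ∈ x 0, ∃ b ∈ x 0, q = pair a b ∧ a ∈ b) ∧
      ∀ a ∈ x 0, ∀ b ∈ x 0, a ∈ b → pair a b ∈ w)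
    (x := asg B B ∅ ∅ ∅ ∅) ?_ hB hB
    (asg_ord empty_ord empty_ord empty_ord empty_ord) (fun w => ?_)
  · refine Dfn.and ?_ ?_
    · exact Dfn.ball Lvl_sub_Trs _ (Dfn.bex Lvl_sub_Trs _ (Dfn.bex Lvl_sub_Trs _
        ((dfn_pair Lvl_sub_Trs _ _ _).and (Dfn.mem _ _))))
    · exact Dfn.ball Lvl_sub_Trs _ (Dfn.ball Lvl_sub_Trs _
        ((Dfn.mem _ _).imp (dfn_pm Lvl_sub_Trs _ _ _)))
  · show (∀ q ∈ w, ∃ a ∈ B, ∃ b ∈ B, q = pair a b ∧ a ∈ b) ∧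
      (∀ a ∈ B, ∀ b ∈ B, a ∈ b → pair a b ∈ w) ↔ _
    constructor
    · rintro ⟨h1, h2⟩
      ext q
      constructor
      · intro hq
        obtain ⟨a, ha, b, hb, rfl, h⟩ := h1 q hq
        exact pair_mem_ElB.2 ⟨ha, hb, h⟩
      · intro hq
        obtain ⟨_, a, ha, b, hb, rfl, h⟩ := mem_sep.1 hq
        exact h2 a ha b hb h
    · rintro rfl
      exact ⟨fun q hq => (mem_sep.1 hq).2, fun a ha b hb h => pair_mem_ElB.2 ⟨ha, hb, h⟩⟩

theorem isWO_ElB {B : ZFSet.{u}} {γ : Ordinal.{u}} (hB : B ⊆ γ.toZFSet) : IsWO (ElB B) B := by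
  rintro Y hY ⟨y0, hy0⟩
  have hord : ∀ y ∈ Y, ∃ a : Ordinal.{u}, y = a.toZFSet := fun y hy => by
    obtain ⟨a, _, rfl⟩ := Ordinal.mem_toZFSet_iff.1 (hB (hY hy))
    exact ⟨a, rfl⟩
  obtain ⟨a0, rfl⟩ := hord y0 hy0
  obtain ⟨a, ha, hmin⟩ := WellFounded.has_min (wellFounded_lt (α := Ordinal.{u}))
    {a | a.toZFSet ∈ Y} ⟨a0, hy0⟩
  refine ⟨a.toZFSet, ha, fun y' hy' hne => ?_⟩
  obtain ⟨b, rfl⟩ := hord y' hy'
  have h1 : ¬ b < a := hmin b hy'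
  have h2 : a < b := lt_of_le_of_ne (not_lt.1 h1) fun h => hne (by rw [h])
  exact ⟨pair_mem_ElB.2 ⟨hY ha, hY hy', tzm.2 h2⟩, fun h => h1 (tzm.1 (pair_mem_ElB.1 h).2.2)⟩

/-- Weak covering for `HOD_p`: every countable set of ordinals is contained in a set in `HOD_p` with
at most `|μ|` elements. -/
def WeakCov (p : ZFSet.{u}) (μ : Ordinal.{u}) : Prop :=
  ∀ f : ℕ → Ordinal.{u}, ∃ B, HODp p B ∧ (∀ n, (f n).toZFSet ∈ B) ∧ Few μ B

theorem sing_of_weakCov {p : ZFSet.{u}} {μ γ : Ordinal.{u}} (h : WeakCov p μ)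
    (hγ : IsCard γ.toZFSet) (hμ : μ < γ) (hc : CofOm γ.toZFSet) :
    CofinalP (HODp p) γ.toZFSet := by
  classical
  obtain ⟨f, hf, hfc⟩ := hc
  have hn : ∀ n : ℕ, (n : Ordinal.{u}).toZFSet ∈ om.{u} := fun n => by
    unfold om; exact tzm.2 (Ordinal.natCast_lt_omega0 n)
  have hfr : ∀ n : ℕ, (rank (app f (n : Ordinal.{u}).toZFSet)).toZFSet =
      app f (n : Ordinal.{u}).toZFSet := fun n => by
    obtain ⟨y, _, h1⟩ := Ordinal.mem_toZFSet_iff.1 (app_mem hf (hn n))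
    rw [← h1, Ordinal.rank_toZFSet]
  obtain ⟨B, hB, hfB, hfew⟩ := h (fun n => rank (app f (n : Ordinal.{u}).toZFSet))
  obtain ⟨C, hC⟩ : ∃ C, C = B ∩ γ.toZFSet := ⟨_, rfl⟩
  have hCγ : C ⊆ γ.toZFSet := by rw [hC]; exact fun z hz => (mem_inter.1 hz).2
  have hCp : ODp p C := by
    rw [hC]
    exact odp_inter hB.odp ((OD_ord γ).odp p)
  obtain ⟨r, hr, hinj⟩ := exists_rank (isWO_ElB hCγ) fun x _ h => mem_irrefl _ (pair_mem_ElB.1 h).2.2
  have hini := rk_initial hr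
  have hrp := odp_rank hCp (odp_ElB hCp) hr
  -- the order type of `C`
  obtain ⟨a, ha, hamin⟩ := WellFounded.has_min (wellFounded_lt (α := Ordinal.{u}))
    {a | ∀ z ∈ C, r z < a} (by
      obtain ⟨b, hb⟩ := exists_rk_bound C r
      exact ⟨b, hb⟩)
  have hran : ∀ o < a, ∃ z ∈ C, r z = o := by
    intro o ho
    have h1 : ¬ ∀ z ∈ C, r z < o := fun h1 => hamin o h1 ho
    push Not at h1
    obtain ⟨z, hz, h2⟩ := h1
    rcases h2.lt_or_eq with h3 | h3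
    · exact hini z hz o h3
    · exact ⟨z, hz, h3.symm⟩
  have hE : ∀ o : Ordinal.{u}, ∃ z : Ordinal.{u}, o < a → z.toZFSet ∈ C ∧ r z.toZFSet = o := by
    intro o
    by_cases ho : o < a
    · obtain ⟨z, hz, h1⟩ := hran o ho
      obtain ⟨z, _, rfl⟩ := Ordinal.mem_toZFSet_iff.1 (hCγ hz)
      exact ⟨z, fun _ => ⟨hz, h1⟩⟩
    · exact ⟨0, fun h => absurd h ho⟩
  choose E hE using hE
  have hfewC : Few μ C := hfew.sub (by rw [hC]; exact fun z hz => (mem_inter.1 hz).1)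
  have haμ : a.card ≤ μ.card := hfewC.card_le E (fun i hi => (hE i hi).1) fun i hi i' hi' h => by
    rw [← (hE i hi).2, ← (hE i' hi').2, h]
  have haγ : a < γ := by
    by_contra hc
    push Not at hc
    exact absurd ((hγ.card_lt hμ).trans_le ((Ordinal.card_le_card hc).trans haμ)) (lt_irrefl _)
  have hEγ : ∀ o < a, E o < γ := fun o ho => tzm.1 (hCγ (hE o ho).1)
  refine ⟨a.toZFSet, tzm.2 haγ, gz a fun o => (E o).toZFSet, ?_, isFunc_gz fun o ho =>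
    tzm.2 (hEγ o ho), fun y hy => ?_⟩
  · have hmem : ∀ q, q ∈ (gz a fun i => (E i).toZFSet) ↔
        ∃ i < a, q = pair i.toZFSet (E i).toZFSet := by
      intro q
      unfold gz
      rw [mem_gr]
      constructor
      · rintro ⟨x, hx, rfl⟩
        obtain ⟨i, hi, rfl⟩ := Ordinal.mem_toZFSet_iff.1 hx
        exact ⟨i, hi, by rw [Ordinal.rank_toZFSet]⟩
      · rintro ⟨i, hi, rfl⟩
        exact ⟨_, tzm.2 hi, by rw [Ordinal.rank_toZFSet]⟩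
    refine hodp_of_sub ?_ fun q hq => ?_
    · refine odp_of2 (R := fun w x => (∀ q ∈ w, ∃ o ∈ x 2, ∃ y ∈ x 3, q = pair o y ∧
            pair y o ∈ x 0) ∧ ∀ o ∈ x 2, ∀ y ∈ x 3, pair y o ∈ x 0 → pair o y ∈ w)
        (x := asg (gr C fun z => (r z).toZFSet) (gr C fun z => (r z).toZFSet) a.toZFSet
          γ.toZFSet ∅ ∅) ?_ hrp hrp
        (asg_ord (isOrdinal_toZFSet _) (isOrdinal_toZFSet _) empty_ord empty_ord) (fun w => ?_)
      · refine Dfn.and ?_ ?_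
        · exact Dfn.ball Lvl_sub_Trs _ (Dfn.bex Lvl_sub_Trs _ (Dfn.bex Lvl_sub_Trs _
            ((dfn_pair Lvl_sub_Trs _ _ _).and (dfn_pm Lvl_sub_Trs _ _ _))))
        · exact Dfn.ball Lvl_sub_Trs _ (Dfn.ball Lvl_sub_Trs _
            ((dfn_pm Lvl_sub_Trs _ _ _).imp (dfn_pm Lvl_sub_Trs _ _ _)))
      · have hG : ∀ o < a, ∀ y, pair y o.toZFSet ∈ (gr C fun z => (r z).toZFSet) ↔
            y = (E o).toZFSet := by
          intro o ho y
          rw [pair_mem_gr]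
          constructor
          · rintro ⟨h1, h2⟩
            refine hinj _ h1 _ (hE o ho).1 ?_
            rw [(hE o ho).2]
            exact Ordinal.toZFSet_injective h2
          · rintro rfl
            exact ⟨(hE o ho).1, by rw [(hE o ho).2]⟩
        show (∀ q ∈ w, ∃ o ∈ a.toZFSet, ∃ y ∈ γ.toZFSet, q = pair o y ∧
            pair y o ∈ (gr C fun z => (r z).toZFSet)) ∧
          (∀ o ∈ a.toZFSet, ∀ y ∈ γ.toZFSet, pair y o ∈ (gr C fun z => (r z).toZFSet) →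
            pair o y ∈ w) ↔ _
        constructor
        · rintro ⟨h1, h2⟩
          ext q
          rw [hmem]
          constructor
          · intro hq
            obtain ⟨o, ho, y, _, rfl, h3⟩ := h1 q hq
            obtain ⟨o, ho', rfl⟩ := Ordinal.mem_toZFSet_iff.1 ho
            exact ⟨o, ho', by rw [(hG o ho' y).1 h3]⟩
          · rintro ⟨o, ho, rfl⟩
            exact h2 _ (tzm.2 ho) _ (tzm.2 (hEγ o ho)) ((hG o ho _).2 rfl)
        · rintro rfl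
          refine ⟨fun q hq => ?_, fun o ho y _ h3 => ?_⟩
          · obtain ⟨o, ho, rfl⟩ := (hmem q).1 hq
            exact ⟨_, tzm.2 ho, _, tzm.2 (hEγ o ho), rfl, (hG o ho _).2 rfl⟩
          · obtain ⟨o, ho', rfl⟩ := Ordinal.mem_toZFSet_iff.1 ho
            exact pair_gz.2 ⟨ho', ((hG o ho' y).1 h3).symm⟩
    · obtain ⟨o, ho, rfl⟩ := (hmem q).1 hq
      exact hodp_pair ((HOD_ord _).hodp p) ((HOD_ord _).hodp p)
  · obtain ⟨n, hn', z, hz, hnz, hyz⟩ := hfc y hy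
    unfold om at hn'
    obtain ⟨n, hn'', rfl⟩ := Ordinal.mem_toZFSet_iff.1 hn'
    obtain ⟨n, rfl⟩ := Ordinal.lt_omega0.1 hn''
    have h1 := (app_iff hf (hn n)).1 hnz
    have h2 := hfB n
    rw [hfr, h1] at h2
    have hzC : z ∈ C := by rw [hC]; exact mem_inter.2 ⟨h2, hz⟩
    have h3 : r z < a := ha z hzC
    refine ⟨(r z).toZFSet, tzm.2 h3, z, hz, ?_, hyz⟩
    exact pair_gz.2 ⟨h3, hinj _ (hE _ h3).1 _ hzC (hE _ h3).2⟩

/-- Closure under countable sequences implies weak covering. -/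
theorem weakCov_of_closed {p : ZFSet.{u}} (h : ClosedSeq (HODp p) Ordinal.omega0) :
    WeakCov p Ordinal.omega0 := by
  classical
  intro f
  obtain ⟨F, hF⟩ : ∃ F : Ordinal.{u} → Ordinal.{u}, ∀ n : ℕ, F n = f n := by
    refine ⟨fun i => if hi : ∃ n : ℕ, i = n then f hi.choose else 0, fun n => ?_⟩
    have h1 : ∃ m : ℕ, (n : Ordinal.{u}) = m := ⟨n, rfl⟩
    simp only [dif_pos h1]
    congr 1
    exact_mod_cast h1.choose_spec.symm
  obtain ⟨γ, hγ⟩ : ∃ γ : Ordinal.{u}, ∀ i < Ordinal.omega0, F i < γ := by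
    refine ⟨Order.succ (⨆ x : Set.Iio Ordinal.omega0.{u}, F x.1), fun i hi => ?_⟩
    rw [Order.lt_succ_iff]
    exact Ordinal.le_iSup (fun x : Set.Iio Ordinal.omega0.{u} => F x.1) ⟨i, hi⟩
  have h1 : HODp p (gz Ordinal.omega0 fun i => (F i).toZFSet) := by
    refine h γ.toZFSet _ (isFunc_gz fun i hi => tzm.2 (hγ i hi)) fun x y hxy => ?_
    unfold gz at hxy
    rw [(pair_mem_gr.1 hxy).2.symm]
    exact (HOD_ord _).hodp p
  refine ⟨ZFSet.sep (fun y => ∃ i ∈ Ordinal.omega0.toZFSet,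
    pair i y ∈ (gz Ordinal.omega0 fun i => (F i).toZFSet)) γ.toZFSet,
    hodp_of_sub (odp_range h1.odp) fun z hz => ?_, fun n => ?_, F, fun y hy => ?_⟩
  · obtain ⟨y, _, rfl⟩ := Ordinal.mem_toZFSet_iff.1 (mem_sep.1 hz).1
    exact (HOD_ord _).hodp p
  · have h2 := Ordinal.natCast_lt_omega0.{u} n
    have h3 := hγ _ h2
    rw [hF] at h3
    exact mem_sep.2 ⟨tzm.2 h3, _, tzm.2 h2, pair_gz.2 ⟨h2, by rw [hF]⟩⟩
  · obtain ⟨_, i, hi, h2⟩ := mem_sep.1 hy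
    obtain ⟨i, hi', rfl⟩ := Ordinal.mem_toZFSet_iff.1 hi
    exact ⟨i, hi', Ordinal.toZFSet_injective (pair_gz.1 h2).2⟩

end Pool.Agent.H639
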