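import Pool.Agent.H639.NM

/-!
Closure of HOD under definitions with eight parameters; choice functions in HOD.
-/

set_option autoImplicit false
set_option linter.unusedVariables false

namespace Pool.Agent.H639

open ZFSet Gss969 Pool.Agent.H310.HD

universe u

/-- The assignment listing fourteen given sets. -/
def an (a0 a1 a2 a3 a4 a5 a6 a7 a8 a9 a10 a11 a12 a13 : ZFSet.{u}) : ℕ → ZFSet.{u}
  | 0 => a0
  | 1 => a1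
  | 2 => a2
  | 3 => a3
  | 4 => a4
  | 5 => a5
  | 6 => a6
  | 7 => a7
  | 8 => a8
  | 9 => a9
  | 10 => a10
  | 11 => a11
  | 12 => a12
  | _ => a13

def ani (a0 a1 a2 a3 a4 a5 a6 a7 a8 a9 a10 a11 a12 a13 : ℕ) : ℕ → ℕ
  | 0 => a0
  | 1 => a1
  | 2 => a2
  | 3 => a3
  | 4 => a4
  | 5 => a5
  | 6 => a6
  | 7 => a7
  | 8 => a8
  | 9 => a9
  | 10 => a10
  | 11 => a11
  | 12 => a12
  | _ => a13

theorem dfn_an {A : (ℕ → ZFSet.{u}) → Prop} (h : Dfn Lvl.{u} A)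
    (a0 a1 a2 a3 a4 a5 a6 a7 a8 a9 a10 a11 a12 a13 : ℕ) :
    Dfn Lvl.{u} (fun v => A (an (v a0) (v a1) (v a2) (v a3) (v a4) (v a5) (v a6) (v a7) (v a8)
      (v a9) (v a10) (v a11) (v a12) (v a13))) := by
  refine (Dfn_reindex h (ani a0 a1 a2 a3 a4 a5 a6 a7 a8 a9 a10 a11 a12 a13)).congr fun v => ?_
  have : (fun n => v (ani a0 a1 a2 a3 a4 a5 a6 a7 a8 a9 a10 a11 a12 a13 n)) =
      an (v a0) (v a1) (v a2) (v a3) (v a4) (v a5) (v a6) (v a7) (v a8) (v a9) (v a10) (v a11)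
        (v a12) (v a13) := by
    funext n
    rcases n with _ | _ | _ | _ | _ | _ | _ | _ | _ | _ | _ | _ | _ | n <;> rfl
  rw [this]

/-- Insert eight sets. -/
def ins8 (a b c d e f g h : ZFSet.{u}) (x : ℕ → ZFSet.{u}) : ℕ → ZFSet.{u}
  | 0 => a
  | 1 => b
  | 2 => c
  | 3 => d
  | 4 => e
  | 5 => f
  | 6 => g
  | 7 => h
  | (n + 8) => x (n + 4)

theorem HOD_of8 {R : ZFSet.{u} → (ℕ → ZFSet.{u}) → Prop}
    (hR : Dfn Lvl.{u} (fun v => R (v 0) (fun n => v (n + 1)))) {x : ℕ → ZFSet.{u}}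
    (h0 : ∀ i < 8, HOD (x i)) (hx : ∀ i, (x (i + 8)).IsOrdinal) {y : ZFSet.{u}}
    (hy : ∀ y', R y' x ↔ y' = y) (hs : ∀ z ∈ y, HOD z) : HOD y := by
  refine HOD_of4 (R := fun y x => ∃ a, ∃ b, ∃ c, ∃ d, ∃ e, ∃ f, ∃ g, ∃ h,
      ((x 0 = pair a b ∧ x 1 = pair c d) ∧ (x 2 = pair e f ∧ x 3 = pair g h)) ∧
      R y (ins8 a b c d e f g h x))
    (x := fun n => Nat.casesOn n (pair (x 0) (x 1)) fun n => Nat.casesOn n (pair (x 2) (x 3))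
      fun n => Nat.casesOn n (pair (x 4) (x 5)) fun n => Nat.casesOn n (pair (x 6) (x 7))
      fun n => x (n + 8)) ?_ (HOD_pair (h0 0 (by norm_num)) (h0 1 (by norm_num)))
      (HOD_pair (h0 2 (by norm_num)) (h0 3 (by norm_num)))
      (HOD_pair (h0 4 (by norm_num)) (h0 5 (by norm_num)))
      (HOD_pair (h0 6 (by norm_num)) (h0 7 (by norm_num))) hx (fun w => ?_) hs
  · have key : Dfn Lvl.{u} (fun v => ((v 9 = pair (v 7) (v 6) ∧ v 10 = pair (v 5) (v 4)) ∧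
        (v 11 = pair (v 3) (v 2) ∧ v 12 = pair (v 1) (v 0))) ∧
        R (v 8) (ins8 (v 7) (v 6) (v 5) (v 4) (v 3) (v 2) (v 1) (v 0) (fun n => v (n + 9)))) := by
      refine (((dfn_pair Lvl_sub_Trs _ _ _).and (dfn_pair Lvl_sub_Trs _ _ _)).and
        ((dfn_pair Lvl_sub_Trs _ _ _).and (dfn_pair Lvl_sub_Trs _ _ _))).and ?_
      refine (Dfn_reindex hR (fun n => match n with
        | 0 => 8 | 1 => 7 | 2 => 6 | 3 => 5 | 4 => 4 | 5 => 3 | 6 => 2 | 7 => 1 | 8 => 0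
        | (n + 9) => n + 13)).congr fun v => ?_
      have : (fun n => v ((fun n => match n with
        | 0 => 8 | 1 => 7 | 2 => 6 | 3 => 5 | 4 => 4 | 5 => 3 | 6 => 2 | 7 => 1 | 8 => 0
        | (n + 9) => n + 13 : ℕ → ℕ) (n + 1))) =
          ins8 (v 7) (v 6) (v 5) (v 4) (v 3) (v 2) (v 1) (v 0) (fun n => v (n + 9)) := by
        funext n
        rcases n with _ | _ | _ | _ | _ | _ | _ | _ | n <;> rfl
      rw [this]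
    have tm : ∀ {U : ZFSet.{u}}, U ∈ Lvl.{u} → ∀ {x a b : ZFSet.{u}}, x = pair a b → x ∈ U →
        a ∈ U ∧ b ∈ U := by
      intro U hU x a b hx h
      subst hx
      have ht := Lvl_sub_Trs hU
      have h1 : ({a, b} : ZFSet.{u}) ∈ U := ht.mem_trans (by simp [pair]) h
      exact ⟨ht.mem_trans (by simp) h1, ht.mem_trans (by simp) h1⟩
    refine Dfn.ex ?_ ?_
    refine Dfn.ex ?_ ?_
    refine Dfn.ex ?_ ?_
    refine Dfn.ex ?_ ?_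
    refine Dfn.ex ?_ ?_
    refine Dfn.ex ?_ ?_
    refine Dfn.ex ?_ ?_
    refine Dfn.ex ?_ ?_
    · exact key
    · rintro U hU v hv ⟨h, ⟨⟨e1, e2⟩, ⟨e3, e4⟩⟩, hh⟩
      exact ⟨h, (tm hU e4 (hv _)).2, ⟨⟨e1, e2⟩, ⟨e3, e4⟩⟩, hh⟩
    · rintro U hU v hv ⟨g, h, ⟨⟨e1, e2⟩, ⟨e3, e4⟩⟩, hh⟩
      exact ⟨g, (tm hU e4 (hv _)).1, h, ⟨⟨e1, e2⟩, ⟨e3, e4⟩⟩, hh⟩
    · rintro U hU v hv ⟨f, g, h, ⟨⟨e1, e2⟩, ⟨e3, e4⟩⟩, hh⟩
      exact ⟨f, (tm hU e3 (hv _)).2, g, h, ⟨⟨e1, e2⟩, ⟨e3, e4⟩⟩, hh⟩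
    · rintro U hU v hv ⟨e, f, g, h, ⟨⟨e1, e2⟩, ⟨e3, e4⟩⟩, hh⟩
      exact ⟨e, (tm hU e3 (hv _)).1, f, g, h, ⟨⟨e1, e2⟩, ⟨e3, e4⟩⟩, hh⟩
    · rintro U hU v hv ⟨d, e, f, g, h, ⟨⟨e1, e2⟩, ⟨e3, e4⟩⟩, hh⟩
      exact ⟨d, (tm hU e2 (hv _)).2, e, f, g, h, ⟨⟨e1, e2⟩, ⟨e3, e4⟩⟩, hh⟩
    · rintro U hU v hv ⟨c, d, e, f, g, h, ⟨⟨e1, e2⟩, ⟨e3, e4⟩⟩, hh⟩
      exact ⟨c, (tm hU e2 (hv _)).1, d, e, f, g, h, ⟨⟨e1, e2⟩, ⟨e3, e4⟩⟩, hh⟩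
    · rintro U hU v hv ⟨b, c, d, e, f, g, h, ⟨⟨e1, e2⟩, ⟨e3, e4⟩⟩, hh⟩
      exact ⟨b, (tm hU e1 (hv _)).2, c, d, e, f, g, h, ⟨⟨e1, e2⟩, ⟨e3, e4⟩⟩, hh⟩
    · rintro U hU v hv ⟨a, b, c, d, e, f, g, h, ⟨⟨e1, e2⟩, ⟨e3, e4⟩⟩, hh⟩
      exact ⟨a, (tm hU e1 (hv _)).1, b, c, d, e, f, g, h, ⟨⟨e1, e2⟩, ⟨e3, e4⟩⟩, hh⟩
  · rw [← hy w]
    show (∃ a b c d e f g h, ((pair (x 0) (x 1) = pair a b ∧ pair (x 2) (x 3) = pair c d) ∧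
      (pair (x 4) (x 5) = pair e f ∧ pair (x 6) (x 7) = pair g h)) ∧
      R w (ins8 a b c d e f g h _)) ↔ _
    have e : ins8 (x 0) (x 1) (x 2) (x 3) (x 4) (x 5) (x 6) (x 7)
        (fun n => Nat.casesOn n (pair (x 0) (x 1)) fun n => Nat.casesOn n (pair (x 2) (x 3))
        fun n => Nat.casesOn n (pair (x 4) (x 5)) fun n => Nat.casesOn n (pair (x 6) (x 7))
        fun n => x (n + 8)) = x := by
      funext n
      rcases n with _ | _ | _ | _ | _ | _ | _ | _ | n <;> rfl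
    constructor
    · rintro ⟨a, b, c, d, e', f, g, h, ⟨⟨e1, e2⟩, ⟨e3, e4⟩⟩, hh⟩
      rw [pair_inj] at e1 e2 e3 e4
      obtain ⟨rfl, rfl⟩ := e1
      obtain ⟨rfl, rfl⟩ := e2
      obtain ⟨rfl, rfl⟩ := e3
      obtain ⟨rfl, rfl⟩ := e4
      rwa [e] at hh
    · intro h
      exact ⟨_, _, _, _, _, _, _, _, ⟨⟨rfl, rfl⟩, ⟨rfl, rfl⟩⟩, by rwa [e]⟩

theorem an_hod {a0 a1 a2 a3 a4 a5 a6 a7 : ZFSet.{u}} (h0 : HOD a0) (h1 : HOD a1) (h2 : HOD a2)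
    (h3 : HOD a3) (h4 : HOD a4) (h5 : HOD a5) (h6 : HOD a6) (h7 : HOD a7)
    (a8 a9 a10 a11 a12 a13 : ZFSet.{u}) :
    ∀ i < 8, HOD (an a0 a1 a2 a3 a4 a5 a6 a7 a8 a9 a10 a11 a12 a13 i) := by
  intro i hi
  rcases i with _ | _ | _ | _ | _ | _ | _ | _ | i
  · exact h0
  · exact h1
  · exact h2
  · exact h3
  · exact h4
  · exact h5
  · exact h6
  · exact h7
  · omega

theorem an_ord (a0 a1 a2 a3 a4 a5 a6 a7 : ZFSet.{u}) (a8 a9 a10 a11 a12 a13 : Ordinal.{u}) :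
    ∀ i, (an a0 a1 a2 a3 a4 a5 a6 a7 a8.toZFSet a9.toZFSet a10.toZFSet a11.toZFSet a12.toZFSet
      a13.toZFSet (i + 8)).IsOrdinal := by
  intro i
  rcases i with _ | _ | _ | _ | _ | i <;> exact isOrdinal_toZFSet _

/-- Functions in HOD: `F x` is the only `y ∈ B` with the property. -/
theorem HOD_gr8 {Ψ : (ℕ → ZFSet.{u}) → Prop} (hΨ : Dfn Lvl.{u} Ψ) {A B p q r s t w : ZFSet.{u}}
    (hA : HOD A) (hB : HOD B) (hp : HOD p) (hq : HOD q) (hr : HOD r) (hs : HOD s) (ht : HOD t)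
    (hw : HOD w) (a b c d : Ordinal.{u})
    {F : ZFSet.{u} → ZFSet.{u}} (hF : ∀ x ∈ A, F x ∈ B ∧ ∀ y ∈ B,
      (Ψ (an y x A B p q r s t w a.toZFSet b.toZFSet c.toZFSet d.toZFSet) ↔ y = F x)) :
    HOD (gr A F) := by
  refine HOD_of8 (R := fun g x => IsFunc (x 0) (x 1) g ∧ ∀ z ∈ x 0, ∀ y ∈ x 1, pair z y ∈ g →
      Ψ (an y z (x 0) (x 1) (x 2) (x 3) (x 4) (x 5) (x 6) (x 7) (x 8) (x 9) (x 10) (x 11)))
    (x := an A B p q r s t w a.toZFSet b.toZFSet c.toZFSet d.toZFSet d.toZFSet d.toZFSet) ?_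
    (an_hod hA hB hp hq hr hs ht hw _ _ _ _ _ _) (an_ord _ _ _ _ _ _ _ _ _ _ _ _ _ _)
    (fun g => ?_) fun z hz => ?_
  · refine (dfn_isFunc Lvl_sub_Trs _ _ _).and (Dfn.ball Lvl_sub_Trs _ (Dfn.ball Lvl_sub_Trs _
      ((dfn_pm Lvl_sub_Trs _ _ _).imp ?_)))
    exact dfn_an hΨ 0 1 3 4 5 6 7 8 9 10 11 12 13 14
  · show IsFunc A B g ∧ (∀ z ∈ A, ∀ y ∈ B, pair z y ∈ g →
      Ψ (an y z A B p q r s t w a.toZFSet b.toZFSet c.toZFSet d.toZFSet)) ↔ _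
    constructor
    · rintro ⟨h1, h2⟩
      refine func_ext h1 (isFunc_gr fun x hx => (hF x hx).1) fun x hx => ?_
      rw [app_gr hx]
      exact ((hF x hx).2 _ (app_mem h1 hx)).1 (h2 x hx _ (app_mem h1 hx) (app_spec h1 hx))
    · rintro rfl
      refine ⟨isFunc_gr fun x hx => (hF x hx).1, fun z hz y hy h => ?_⟩
      rw [(hF z hz).2 y hy]
      exact (pair_mem_gr.1 h).2.symm
  · obtain ⟨x, hx, rfl⟩ := mem_gr.1 hz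
    exact HOD_pair (hA.mem hx) (hB.mem (hF x hx).1)

/-- Separation in HOD. -/
theorem HOD_sep8 {Ψ : (ℕ → ZFSet.{u}) → Prop} (hΨ : Dfn Lvl.{u} Ψ) {A p q r s t w z : ZFSet.{u}}
    (hA : HOD A) (hp : HOD p) (hq : HOD q) (hr : HOD r) (hs : HOD s) (ht : HOD t)
    (hw : HOD w) (hz : HOD z) (a b c d e : Ordinal.{u}) :
    HOD (ZFSet.sep (fun ξ => Ψ (an ξ A p q r s t w z a.toZFSet b.toZFSet c.toZFSet d.toZFSet
      e.toZFSet)) A) := by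
  refine HOD_of8 (R := fun y x => (∀ z ∈ y, z ∈ x 0 ∧ Ψ (an z (x 0) (x 1) (x 2) (x 3) (x 4) (x 5)
      (x 6) (x 7) (x 8) (x 9) (x 10) (x 11) (x 12))) ∧ ∀ z ∈ x 0, Ψ (an z (x 0) (x 1) (x 2) (x 3)
      (x 4) (x 5) (x 6) (x 7) (x 8) (x 9) (x 10) (x 11) (x 12)) → z ∈ y)
    (x := an A p q r s t w z a.toZFSet b.toZFSet c.toZFSet d.toZFSet e.toZFSet e.toZFSet) ?_
    (an_hod hA hp hq hr hs ht hw hz _ _ _ _ _ _) (an_ord _ _ _ _ _ _ _ _ _ _ _ _ _ _)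
    (fun y => ?_) fun z hz => hA.mem (mem_sep.1 hz).1
  · refine Dfn.and ?_ ?_
    · exact Dfn.ball Lvl_sub_Trs _ ((Dfn.mem _ _).and
        (dfn_an hΨ 0 2 3 4 5 6 7 8 9 10 11 12 13 14))
    · exact Dfn.ball Lvl_sub_Trs _ ((dfn_an hΨ 0 2 3 4 5 6 7 8 9 10 11 12 13 14).imp
        (Dfn.mem _ _))
  · show (∀ ξ ∈ y, ξ ∈ A ∧ Ψ (an ξ A p q r s t w z a.toZFSet b.toZFSet c.toZFSet d.toZFSet
        e.toZFSet)) ∧
      (∀ ξ ∈ A, Ψ (an ξ A p q r s t w z a.toZFSet b.toZFSet c.toZFSet d.toZFSet e.toZFSet) →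
        ξ ∈ y) ↔ _
    constructor
    · rintro ⟨h1, h2⟩
      ext z
      rw [mem_sep]
      exact ⟨h1 z, fun h => h2 z h.1 h.2⟩
    · rintro rfl
      exact ⟨fun z hz => mem_sep.1 hz, fun z h1 h2 => mem_sep.2 ⟨h1, h2⟩⟩

/-- Families in HOD. -/
theorem HOD_fam8 {Ψ : (ℕ → ZFSet.{u}) → Prop} (hΨ : Dfn Lvl.{u} Ψ) {A p q r s t w J : ZFSet.{u}}
    (hA : HOD A) (hp : HOD p) (hq : HOD q) (hr : HOD r) (hs : HOD s) (ht : HOD t)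
    (hw : HOD w) (hJ : HOD J) (a b c d : Ordinal.{u}) :
    HOD (gr J fun i => ZFSet.sep (fun ξ => Ψ (an ξ i A p q r s t w J a.toZFSet b.toZFSet
      c.toZFSet d.toZFSet)) A) := by
  refine HOD_of8 (R := fun y x => (∀ t ∈ y, ∃ i ∈ x 7, ∃ Z, Z ⊆ x 0 ∧ ((∀ z ∈ x 0, (z ∈ Z ↔
        Ψ (an z i (x 0) (x 1) (x 2) (x 3) (x 4) (x 5) (x 6) (x 7) (x 8) (x 9) (x 10) (x 11)))) ∧
        t = pair i Z)) ∧
      ∀ i ∈ x 7, ∃ Z, Z ⊆ x 0 ∧ ((∀ z ∈ x 0, (z ∈ Z ↔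
        Ψ (an z i (x 0) (x 1) (x 2) (x 3) (x 4) (x 5) (x 6) (x 7) (x 8) (x 9) (x 10) (x 11)))) ∧
        pair i Z ∈ y))
    (x := an A p q r s t w J a.toZFSet b.toZFSet c.toZFSet d.toZFSet d.toZFSet d.toZFSet) ?_
    (an_hod hA hp hq hr hs ht hw hJ _ _ _ _ _ _) (an_ord _ _ _ _ _ _ _ _ _ _ _ _ _ _)
    (fun y => ?_) fun z hz => ?_
  · refine Dfn.and ?_ ?_
    · refine Dfn.ball Lvl_sub_Trs _ (Dfn.bex Lvl_sub_Trs _ (Dfn.exsub subset_rfl _ (Dfn.and ?_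
        (dfn_pair Lvl_sub_Trs _ _ _))))
      exact Dfn.ball Lvl_sub_Trs _ ((Dfn.mem _ _).iff
        (dfn_an hΨ 0 2 5 6 7 8 9 10 11 12 13 14 15 16))
    · refine Dfn.ball Lvl_sub_Trs _ (Dfn.exsub subset_rfl _ (Dfn.and ?_
        (dfn_pm Lvl_sub_Trs _ _ _)))
      exact Dfn.ball Lvl_sub_Trs _ ((Dfn.mem _ _).iff
        (dfn_an hΨ 0 2 4 5 6 7 8 9 10 11 12 13 14 15))
  · show (∀ t' ∈ y, ∃ i ∈ J, ∃ Z, Z ⊆ A ∧ ((∀ z ∈ A, (z ∈ Z ↔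
        Ψ (an z i A p q r s t w J a.toZFSet b.toZFSet c.toZFSet d.toZFSet))) ∧ t' = pair i Z)) ∧
      (∀ i ∈ J, ∃ Z, Z ⊆ A ∧ ((∀ z ∈ A, (z ∈ Z ↔
        Ψ (an z i A p q r s t w J a.toZFSet b.toZFSet c.toZFSet d.toZFSet))) ∧ pair i Z ∈ y)) ↔ _
    have hZ : ∀ i Z : ZFSet.{u}, Z ⊆ A → (∀ z ∈ A, (z ∈ Z ↔
        Ψ (an z i A p q r s t w J a.toZFSet b.toZFSet c.toZFSet d.toZFSet))) →
        Z = ZFSet.sep (fun z => Ψ (an z i A p q r s t w J a.toZFSet b.toZFSet c.toZFSet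
          d.toZFSet)) A := by
      intro i Z h1 h2
      ext z
      rw [mem_sep]
      exact ⟨fun h => ⟨h1 h, (h2 z (h1 h)).1 h⟩, fun h => (h2 z h.1).2 h.2⟩
    constructor
    · rintro ⟨h1, h2⟩
      ext t'
      rw [mem_gr]
      constructor
      · intro ht'
        obtain ⟨i, hi, Z, h3, h4, rfl⟩ := h1 t' ht'
        exact ⟨i, hi, by rw [hZ i Z h3 h4]⟩
      · rintro ⟨i, hi, rfl⟩
        obtain ⟨Z, h3, h4, h5⟩ := h2 i hi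
        rwa [hZ i Z h3 h4] at h5
    · rintro rfl
      have hs : ∀ i z : ZFSet.{u}, z ∈ A → (z ∈ ZFSet.sep (fun z => Ψ (an z i A p q r s t w J
          a.toZFSet b.toZFSet c.toZFSet d.toZFSet)) A ↔
          Ψ (an z i A p q r s t w J a.toZFSet b.toZFSet c.toZFSet d.toZFSet)) := by
        intro i z hz
        rw [mem_sep]
        exact ⟨fun h => h.2, fun h => ⟨hz, h⟩⟩
      refine ⟨fun t' ht' => ?_, fun i hi => ⟨_, sep_subset, hs i, pair_mem_gr.2 ⟨hi, rfl⟩⟩⟩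
      obtain ⟨i, hi, rfl⟩ := mem_gr.1 ht'
      exact ⟨i, hi, _, sep_subset, hs i, rfl⟩
  · obtain ⟨i, hi, rfl⟩ := mem_gr.1 hz
    refine HOD_pair (hJ.mem hi) ?_
    refine HOD_of8 (R := fun y x => (∀ z ∈ y, z ∈ x 0 ∧ ∃ i, ∃ J', x 7 = pair i J' ∧
        Ψ (an z i (x 0) (x 1) (x 2) (x 3) (x 4) (x 5) (x 6) J' (x 8) (x 9) (x 10) (x 11))) ∧
        ∀ z ∈ x 0, (∃ i, ∃ J', x 7 = pair i J' ∧ Ψ (an z i (x 0) (x 1) (x 2) (x 3)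
        (x 4) (x 5) (x 6) J' (x 8) (x 9) (x 10) (x 11))) → z ∈ y)
      (x := an A p q r s t w (pair i J) a.toZFSet b.toZFSet c.toZFSet d.toZFSet d.toZFSet
        d.toZFSet) ?_ (an_hod hA hp hq hr hs ht hw (HOD_pair (hJ.mem hi) hJ) _ _ _ _ _ _)
      (an_ord _ _ _ _ _ _ _ _ _ _ _ _ _ _) (fun y => ?_) fun z hz => hA.mem (mem_sep.1 hz).1
    · have hk : Dfn Lvl.{u} (fun v => ∃ i, ∃ J', v 9 = pair i J' ∧
          Ψ (an (v 0) i (v 2) (v 3) (v 4) (v 5) (v 6) (v 7) (v 8) J' (v 10) (v 11) (v 12)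
            (v 13))) := by
        have tm : ∀ {U : ZFSet.{u}}, U ∈ Lvl.{u} → ∀ {x a b : ZFSet.{u}}, x = pair a b → x ∈ U →
            a ∈ U ∧ b ∈ U := by
          intro U hU x a b hx h
          subst hx
          have ht := Lvl_sub_Trs hU
          have h1 : ({a, b} : ZFSet.{u}) ∈ U := ht.mem_trans (by simp [pair]) h
          exact ⟨ht.mem_trans (by simp) h1, ht.mem_trans (by simp) h1⟩
        refine Dfn.ex ?_ ?_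
        refine Dfn.ex ?_ ?_
        · exact (dfn_pair Lvl_sub_Trs 11 1 0).and
            (dfn_an hΨ 2 1 4 5 6 7 8 9 10 0 12 13 14 15)
        · rintro U hU v hv ⟨J', e1, h⟩
          exact ⟨J', (tm hU e1 (hv _)).2, e1, h⟩
        · rintro U hU v hv ⟨i, J', e1, h⟩
          exact ⟨i, (tm hU e1 (hv _)).1, J', e1, h⟩
      refine Dfn.and ?_ ?_
      · exact Dfn.ball Lvl_sub_Trs _ ((Dfn.mem _ _).and hk)
      · exact Dfn.ball Lvl_sub_Trs _ (hk.imp (Dfn.mem _ _))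
    · show (∀ z ∈ y, z ∈ A ∧ ∃ i', ∃ J', pair i J = pair i' J' ∧
        Ψ (an z i' A p q r s t w J' a.toZFSet b.toZFSet c.toZFSet d.toZFSet)) ∧
        (∀ z ∈ A, (∃ i', ∃ J', pair i J = pair i' J' ∧ Ψ (an z i' A p q r s t w J' a.toZFSet
          b.toZFSet c.toZFSet d.toZFSet)) → z ∈ y) ↔ _
      have e : ∀ z, (∃ i', ∃ J', pair i J = pair i' J' ∧
          Ψ (an z i' A p q r s t w J' a.toZFSet b.toZFSet c.toZFSet d.toZFSet)) ↔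
          Ψ (an z i A p q r s t w J a.toZFSet b.toZFSet c.toZFSet d.toZFSet) := by
        intro z
        constructor
        · rintro ⟨i', J', e1, h⟩
          rw [pair_inj] at e1
          obtain ⟨rfl, rfl⟩ := e1
          exact h
        · intro h
          exact ⟨i, J, rfl, h⟩
      simp only [e]
      constructor
      · rintro ⟨h1, h2⟩
        ext z
        rw [mem_sep]
        exact ⟨h1 z, fun h => h2 z h.1 h.2⟩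
      · rintro rfl
        exact ⟨fun z hz => mem_sep.1 hz, fun z h1 h2 => mem_sep.2 ⟨h1, h2⟩⟩

/-- Choice functions in HOD. -/
theorem HOD_choice {Ψ : (ℕ → ZFSet.{u}) → Prop} (hΨ : Dfn Lvl.{u} Ψ) {A Q p q r s t : ZFSet.{u}}
    (hA : HOD A) (hQ : HOD Q) (hp : HOD p) (hq : HOD q) (hr : HOD r) (hs : HOD s) (ht : HOD t)
    (a b c d : Ordinal.{u})
    (hex : ∀ x ∈ A, ∃ y ∈ Q, Ψ (an y x A Q p q r s t ∅ a.toZFSet b.toZFSet c.toZFSet d.toZFSet)) :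
    ∃ F : ZFSet.{u} → ZFSet.{u}, HOD (gr A F) ∧ ∀ x ∈ A, F x ∈ Q ∧
      Ψ (an (F x) x A Q p q r s t ∅ a.toZFSet b.toZFSet c.toZFSet d.toZFSet) := by
  obtain ⟨W, hW, hWO, _⟩ := exists_wo hQ
  have h1 : ∀ x ∈ A, ∀ X, Lst (fun y => Ψ (an y x A Q p q r s t ∅ a.toZFSet b.toZFSet c.toZFSet
      d.toZFSet)) Q W X ↔ X = lst (fun y => Ψ (an y x A Q p q r s t ∅ a.toZFSet b.toZFSet
      c.toZFSet d.toZFSet)) Q W := fun x hx X => lst_iff hWO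
  have h2 : ∀ x ∈ A, (lst (fun y => Ψ (an y x A Q p q r s t ∅ a.toZFSet b.toZFSet c.toZFSet
      d.toZFSet)) Q W) ∈ Q ∧ Ψ (an (lst (fun y => Ψ (an y x A Q p q r s t ∅ a.toZFSet b.toZFSet
      c.toZFSet d.toZFSet)) Q W) x A Q p q r s t ∅ a.toZFSet b.toZFSet c.toZFSet d.toZFSet) := by
    intro x hx
    rcases (h1 x hx _).2 rfl with ⟨h3, h4, _⟩ | ⟨h3, _⟩
    · exact ⟨h3, h4⟩
    · exact absurd (hex x hx) h3
  refine ⟨fun x => lst (fun y => Ψ (an y x A Q p q r s t ∅ a.toZFSet b.toZFSet c.toZFSet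
    d.toZFSet)) Q W, ?_, h2⟩
  refine HOD_gr8 (Ψ := fun v => Ψ (an (v 0) (v 1) (v 2) (v 3) (v 4) (v 5) (v 6) (v 7) (v 8)
      ∅ (v 10) (v 11) (v 12) (v 13)) ∧ ∀ y' ∈ v 3, Ψ (an y' (v 1) (v 2) (v 3) (v 4) (v 5) (v 6)
      (v 7) (v 8) ∅ (v 10) (v 11) (v 12) (v 13)) → ¬ y' = v 0 → ¬ pair y' (v 0) ∈ v 9)
    ?_ hA hQ hp hq hr hs ht hW a b c d fun x hx => ⟨(h2 x hx).1, fun y hy => ?_⟩
  · have e0 : (∅ : ZFSet.{u}) = nt 0 := by rw [nt_zero, Ordinal.toZFSet_zero]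
    rw [e0]
    refine Dfn_nt 0 (A := fun z v => Ψ (an (v 0) (v 1) (v 2) (v 3) (v 4) (v 5) (v 6) (v 7) (v 8)
      z (v 10) (v 11) (v 12) (v 13)) ∧ ∀ y' ∈ v 3, Ψ (an y' (v 1) (v 2) (v 3) (v 4) (v 5) (v 6)
      (v 7) (v 8) z (v 10) (v 11) (v 12) (v 13)) → ¬ y' = v 0 → ¬ pair y' (v 0) ∈ v 9) ?_
    refine (dfn_an hΨ 1 2 3 4 5 6 7 8 9 0 11 12 13 14).and (Dfn.ball Lvl_sub_Trs _
      ((dfn_an hΨ 0 3 4 5 6 7 8 9 10 1 12 13 14 15).imp ((Dfn.eq _ _).not.imp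
        (dfn_pm Lvl_sub_Trs _ _ _).not)))
  · show (Ψ (an y x A Q p q r s t ∅ a.toZFSet b.toZFSet c.toZFSet d.toZFSet) ∧
      ∀ y' ∈ Q, Ψ (an y' x A Q p q r s t ∅ a.toZFSet b.toZFSet c.toZFSet d.toZFSet) →
        ¬ y' = y → ¬ pair y' y ∈ W) ↔ _
    rw [← h1 x hx y]
    constructor
    · rintro ⟨h3, h4⟩
      exact Or.inl ⟨hy, h3, h4⟩
    · rintro (⟨_, h3, h4⟩ | ⟨h3, _⟩)
      · exact ⟨h3, h4⟩
      · exact absurd (hex x hx) h3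

end Pool.Agent.H639
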