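import Pool.Agent.H639.Hp4
import Pool.Agent.H639.Ref4

/-!
Coverings of sequences of ordinals by small sets in `HOD_p` and in `HOD`, and closure of `HOD_p`
under sequences.
-/

set_option autoImplicit false

namespace Pool.Agent.H639

open Pool.Agent.H310.HD Gss969 ZFSet
open Pool.Agent.Results.MP_e37c09_lc.AlternativeA

universe u

/-- Every sequence of ordinals of length `k` has its values in a set in the class `P` with at most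
`|μ|` elements. -/
def CovSeq (P : ZFSet.{u} → Prop) (k μ : Ordinal.{u}) : Prop :=
  ∀ s : Ordinal.{u} → Ordinal.{u}, ∃ B, P B ∧ (∀ i < k, (s i).toZFSet ∈ B) ∧ Few μ B

theorem exists_seq_bound (k : Ordinal.{u}) (s : Ordinal.{u} → Ordinal.{u}) :
    ∃ γ : Ordinal.{u}, 0 < γ ∧ ∀ i < k, s i < γ := by
  refine ⟨Order.succ (⨆ x : Set.Iio k, s x.1), bot_lt_iff_ne_bot.2 (Order.succ_ne_bot _),
    fun i hi => ?_⟩
  rw [Order.lt_succ_iff]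
  exact Ordinal.le_iSup (fun x : Set.Iio k => s x.1) ⟨i, hi⟩

/-- The elements of `Z` below `γ` are values of a function from `μ`. -/
def SmD (μ γ Z : ZFSet.{u}) : Prop :=
  ∃ g, IsFunc μ γ g ∧ ∀ y ∈ γ, y ∈ Z → ∃ i ∈ μ, pair i y ∈ g

theorem dfn_SmD (a b c : ℕ) : Dfn Lvl.{u} (fun v => SmD (v a) (v b) (v c)) := by
  unfold SmD
  refine Dfn.exfun _ _ ?_
  exact Dfn.ball Lvl_sub_Trs _ (Dfn.imp (Dfn.mem _ _) (Dfn.bex Lvl_sub_Trs _
    (dfn_pm Lvl_sub_Trs _ _ _)))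

/-- All elements below `γ` of the small values of a function of the elements of `V_ρ`. -/
theorem exists_hodcover {φ : Fml} {ρ α μ γ : Ordinal.{u}} (s : ℕ → Ordinal.{u}) :
    ∃ W, HOD W ∧ ∀ ξ, ξ ∈ W ↔ ξ ∈ γ.toZFSet ∧ ∃ y ∈ V_ ρ, ∃ Z ∈ V_ α,
      Val φ (vas (V_ α) y Z fun n => (s n).toZFSet) ∧ (SmD μ.toZFSet γ.toZFSet Z ∧ ξ ∈ Z) := by
  obtain ⟨W, hW⟩ : ∃ W : ZFSet.{u}, W = ZFSet.sep (fun ξ => ∃ y ∈ V_ ρ, ∃ Z ∈ V_ α,
    Val φ (vas (V_ α) y Z fun n => (s n).toZFSet) ∧ (SmD μ.toZFSet γ.toZFSet Z ∧ ξ ∈ Z))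
      γ.toZFSet := ⟨_, rfl⟩
  have hW' : ∀ ξ, ξ ∈ W ↔ ξ ∈ γ.toZFSet ∧ ∃ y ∈ V_ ρ, ∃ Z ∈ V_ α,
      Val φ (vas (V_ α) y Z fun n => (s n).toZFSet) ∧ (SmD μ.toZFSet γ.toZFSet Z ∧ ξ ∈ Z) := by
    intro ξ; rw [hW, mem_sep]
  refine ⟨W, HOD_of_sub ?_ fun z hz => ?_, hW'⟩
  swap
  · obtain ⟨z, _, rfl⟩ := Ordinal.mem_toZFSet_iff.1 ((hW' _).1 hz).1
    exact HOD_ord z
  refine OD_of (R := fun w x => (∀ ξ ∈ w, ξ ∈ x 2 ∧ ∃ y ∈ x 1, ∃ Z ∈ x 0,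
        Val φ (vas (x 0) y Z fun n => x (n + 4)) ∧ (SmD (x 3) (x 2) Z ∧ ξ ∈ Z)) ∧
        ∀ ξ ∈ x 2, (∃ y ∈ x 1, ∃ Z ∈ x 0,
        Val φ (vas (x 0) y Z fun n => x (n + 4)) ∧ (SmD (x 3) (x 2) Z ∧ ξ ∈ Z)) → ξ ∈ w)
      (x := fun n => Nat.casesOn n (V_ α) fun n => Nat.casesOn n (V_ ρ) fun n =>
        Nat.casesOn n γ.toZFSet fun n => Nat.casesOn n μ.toZFSet fun n => (s n).toZFSet) ?_
      (OD_V α) (OD_V ρ) ?_ fun w => ?_
  · have hv : ∀ a b c' : ℕ, Dfn Lvl.{u} (fun v => Val φ (vas (v (a + 2)) (v 1) (v 0)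
          fun n => v (n + 4 + a + 2))) := by
      intro a b c'
      refine (Dfn_reindex (dfn_Val φ) (fun n => Nat.casesOn n (a + 2) fun n =>
          Nat.casesOn n 1 fun n => Nat.casesOn n 0 fun n => n + 4 + a + 2)).congr fun v => ?_
      have : (fun n => v (Nat.casesOn n (a + 2) fun n =>
          Nat.casesOn n 1 fun n => Nat.casesOn n 0 fun n => n + 4 + a + 2)) =
            vas (v (a + 2)) (v 1) (v 0) fun n => v (n + 4 + a + 2) := by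
        funext n
        rcases n with _ | n
        · rfl
        rcases n with _ | n
        · rfl
        rcases n with _ | n
        · rfl
        · rfl
      rw [this]
    refine Dfn.and ?_ ?_
    · refine Dfn.ball Lvl_sub_Trs _ ((Dfn.mem _ _).and (Dfn.bex Lvl_sub_Trs _
          (Dfn.bex Lvl_sub_Trs _ (Dfn.and (hv 2 0 0) ((dfn_SmD _ _ _).and (Dfn.mem _ _))))))
    · refine Dfn.ball Lvl_sub_Trs _ (Dfn.imp (Dfn.bex Lvl_sub_Trs _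
          (Dfn.bex Lvl_sub_Trs _ (Dfn.and (hv 2 0 0) ((dfn_SmD _ _ _).and (Dfn.mem _ _)))))
          (Dfn.mem _ _))
  · intro i
    rcases i with _ | i
    · exact isOrdinal_toZFSet _
    rcases i with _ | i
    · exact isOrdinal_toZFSet _
    · exact isOrdinal_toZFSet _
  · show ((∀ ξ ∈ w, ξ ∈ γ.toZFSet ∧ ∃ y ∈ V_ ρ, ∃ Z ∈ V_ α,
        Val φ (vas (V_ α) y Z fun n => (s n).toZFSet) ∧ (SmD μ.toZFSet γ.toZFSet Z ∧ ξ ∈ Z)) ∧
        ∀ ξ ∈ γ.toZFSet, (∃ y ∈ V_ ρ, ∃ Z ∈ V_ α,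
        Val φ (vas (V_ α) y Z fun n => (s n).toZFSet) ∧ (SmD μ.toZFSet γ.toZFSet Z ∧ ξ ∈ Z)) →
          ξ ∈ w) ↔ _
    constructor
    · rintro ⟨h1, h2⟩
      ext a
      rw [hW']
      exact ⟨h1 a, fun h => h2 a h.1 h.2⟩
    · rintro rfl
      exact ⟨fun a ha => (hW' a).1 ha, fun a h1 h2 => (hW' a).2 ⟨h1, h2⟩⟩

theorem exists_enumOf' (X : ZFSet.{u}) : ∃ p, EnumOf X p := by
  classical
  obtain ⟨T, hT⟩ : ∃ T : Type u, T = Shrink.{u} {x // x ∈ X} := ⟨_, rfl⟩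
  subst hT
  obtain ⟨r, hr⟩ : ∃ r : Shrink.{u} {x // x ∈ X} → Shrink.{u} {x // x ∈ X} → Prop,
    r = WellOrderingRel := ⟨_, rfl⟩
  have : IsWellOrder _ r := by rw [hr]; infer_instance
  obtain ⟨e, he⟩ : ∃ e : Shrink.{u} {x // x ∈ X} → {x // x ∈ X}, e = (equivShrink _).symm :=
    ⟨_, rfl⟩
  refine ⟨gz (Ordinal.type r) fun i => if h : i < Ordinal.type r then
    (e (Ordinal.enum r ⟨i, h⟩)).1 else ∅, Ordinal.type r, isFunc_gz fun i hi => ?_,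
    fun x hx => ?_⟩
  · rw [dif_pos hi]
    exact (e _).2
  · refine ⟨Ordinal.typein r (equivShrink _ ⟨x, hx⟩), Ordinal.typein_lt_type r _,
      pair_gz.2 ⟨Ordinal.typein_lt_type r _, ?_⟩⟩
    rw [dif_pos (Ordinal.typein_lt_type r _), Ordinal.enum_typein, he]
    simp

/-- **Removal of the parameter.** A small set of ordinals in `HOD_p` is contained in a small set of
ordinals in `HOD`. -/
theorem exists_hod_sup (p : ZFSet.{u}) (μ : Ordinal.{u}) :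
    ∃ μ' : Ordinal.{u}, ∀ (B : ZFSet.{u}) (γ : Ordinal.{u}), 0 < γ → HODp p B → Few μ B →
      ∃ W, HOD W ∧ W ⊆ γ.toZFSet ∧ (∀ ξ ∈ B, ξ ∈ γ.toZFSet → ξ ∈ W) ∧ Few μ' W := by
  classical
  obtain ⟨ρ, hρ⟩ := exists_mem_vonNeumann p
  obtain ⟨en, ν, hen, hen'⟩ := exists_enumOf' (prod (V_ ρ) μ.toZFSet)
  refine ⟨ν, fun B γ hγ0 hB hfew => ?_⟩
  obtain ⟨α, φ, q, hpα, hval⟩ := hB.odp.val
  obtain ⟨W, hW, hW'⟩ := exists_hodcover (φ := φ) (ρ := ρ) (α := α) (μ := μ) (γ := γ) q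
  refine ⟨W, hW, fun ξ hξ => ((hW' _).1 hξ).1, fun ξ hξB hξ => (hW' _).2 ⟨hξ, p, hρ, B, hval.1,
    hval, ?_, hξB⟩, ?_⟩
  · obtain ⟨g, hg⟩ := hfew
    refine ⟨gz μ fun i => (if g i < γ then g i else 0).toZFSet, isFunc_gz fun i _ => tzm.2 ?_,
      fun y hy hyB => ?_⟩
    · split_ifs with h1
      · exact h1
      · exact hγ0
    · obtain ⟨y, hy', rfl⟩ := Ordinal.mem_toZFSet_iff.1 hy
      obtain ⟨i, hi, rfl⟩ := hg y hyB
      exact ⟨i.toZFSet, tzm.2 hi, pair_gz.2 ⟨hi, by rw [if_pos hy']⟩⟩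
  · -- the enumeration of `W`
    obtain ⟨R, hR⟩ : ∃ R : ZFSet.{u} → Ordinal.{u} → Prop, R = fun x ξ => ∃ y j Z g,
      x = pair y j ∧ (Val φ (vas (V_ α) y Z fun n => (q n).toZFSet) ∧
      ((∃ h : SmD μ.toZFSet γ.toZFSet Z, g = h.choose) ∧ pair j ξ.toZFSet ∈ g)) := ⟨_, rfl⟩
    have huniq : ∀ x ξ ξ', R x ξ → R x ξ' → ξ = ξ' := by
      intro x ξ ξ' h1 h2
      rw [hR] at h1 h2
      obtain ⟨y, j, Z, g, rfl, h3, ⟨h4, h5⟩, h6⟩ := h1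
      obtain ⟨y', j', Z', g', h7, h3', ⟨h4', h5'⟩, h6'⟩ := h2
      rw [pair_inj] at h7
      obtain ⟨rfl, rfl⟩ := h7
      obtain rfl := h3.unique h3'
      have hgg : g = g' := by rw [h5, h5']
      subst hgg
      have hf : IsFunc μ.toZFSet γ.toZFSet g := by rw [h5]; exact h4.choose_spec.1
      have hj : j ∈ μ.toZFSet := (pair_mem_prod.1 (hf.1 h6)).1
      exact Ordinal.toZFSet_injective ((hf.2 _ hj).unique h6 h6')
    refine ⟨fun i => if h : ∃ x ξ, pair i.toZFSet x ∈ en ∧ R x ξ then h.choose_spec.choose else 0,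
      fun ξ hξ => ?_⟩
    obtain ⟨_, y, hy, Z, hZ, hv, hs, hξZ⟩ := (hW' _).1 hξ
    have hξγ : ξ.toZFSet ∈ γ.toZFSet := ((hW' _).1 hξ).1
    obtain ⟨j, hj, hjξ⟩ := hs.choose_spec.2 _ hξγ hξZ
    have hx : pair y j ∈ prod (V_ ρ) μ.toZFSet := pair_mem_prod.2 ⟨hy, hj⟩
    obtain ⟨i, hi, hix⟩ := hen' _ hx
    have hRx : R (pair y j) ξ := by
      rw [hR]
      exact ⟨y, j, Z, hs.choose, rfl, hv, ⟨hs, rfl⟩, hjξ⟩
    have hex : ∃ x ξ, pair i.toZFSet x ∈ en ∧ R x ξ := ⟨_, _, hix, hRx⟩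
    refine ⟨i, hi, ?_⟩
    beta_reduce
    rw [dif_pos hex]
    obtain ⟨h1, h2⟩ := hex.choose_spec.choose_spec
    have h3 : hex.choose = pair y j := (hen.2 _ (tzm.2 hi)).unique h1 hix
    have h4 : R hex.choose ξ := by rw [h3]; exact hRx
    exact huniq _ _ _ h2 h4

/-- **The parameter can be removed from a covering.** -/
theorem covers_of_par (p : ZFSet.{u}) (μ : Ordinal.{u}) :
    ∃ μ' : Ordinal.{u}, ∀ k : Ordinal.{u}, CovSeq (HODp p) k μ → CovSeq HOD k μ' := by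
  obtain ⟨μ', h'⟩ := exists_hod_sup p μ
  refine ⟨μ', fun k h s => ?_⟩
  obtain ⟨B, hB, hsB, hfew⟩ := h s
  obtain ⟨γ, hγ0, hγ⟩ := exists_seq_bound k s
  obtain ⟨W, h1, _, h2, h3⟩ := h' B γ hγ0 hB hfew
  exact ⟨W, h1, fun i hi => h2 _ (hsB i hi) (tzm.2 (hγ i hi)), h3⟩

/-- Every ordinal of cofinality `ω` has a cofinal function in `P` from an ordinal below `t`. -/
def CofBdd (P : ZFSet.{u} → Prop) (t : Ordinal.{u}) : Prop :=
  ∀ x : Ordinal.{u}, CofOm x.toZFSet → ∃ c < t, ∃ g, P g ∧ Cofi (Ordinal.toZFSet c) x.toZFSet g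

/-- **The parameter can be removed from bounds of cofinalities.** -/
theorem covOm_of_cofBdd {p : ZFSet.{u}} {t : Ordinal.{u}} (h : CofBdd (HODp p) t) :
    ∃ μ : Ordinal.{u}, ∀ θ > μ, RegUnc (Ordinal.toZFSet θ) → CovOm θ := by
  obtain ⟨μ', h'⟩ := exists_hod_sup p t
  refine ⟨μ', fun θ hθ hr x hx => ?_⟩
  obtain ⟨c, hc, g, hg, hgf, hgc⟩ := h x hx
  have hx0 : 0 < x := by
    obtain ⟨f, hf, _⟩ := hx
    have h0 : (∅ : ZFSet.{u}) ∈ om.{u} := by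
      unfold om
      have := tzm.2 Ordinal.omega0_pos.{u}
      rwa [Ordinal.toZFSet_zero] at this
    obtain ⟨y, hy, _⟩ := Ordinal.mem_toZFSet_iff.1 (app_mem hf h0)
    exact bot_le.trans_lt hy
  obtain ⟨W, h1, _, h2, h3⟩ := h' (ZFSet.sep (fun y => ∃ i ∈ (Ordinal.toZFSet c), pair i y ∈ g)
    x.toZFSet) x hx0 (hodp_of_sub (odp_range hg.odp) fun z hz => by
      obtain ⟨y, _, rfl⟩ := Ordinal.mem_toZFSet_iff.1 (mem_sep.1 hz).1
      exact (HOD_ord _).hodp p) (by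
      refine ⟨fun i => rank (app g i.toZFSet), fun y hy => ?_⟩
      obtain ⟨_, i, hi, h4⟩ := mem_sep.1 hy
      obtain ⟨i, hi', rfl⟩ := Ordinal.mem_toZFSet_iff.1 hi
      refine ⟨i, hi'.trans hc, ?_⟩
      beta_reduce
      rw [(app_iff hgf hi).1 h4, Ordinal.rank_toZFSet])
  refine cof_of_few hr.isCard hθ h1 (fun ξ hξ => ?_) h3
  obtain ⟨i, hi, z, hz, hiz, hξz⟩ := hgc _ (tzm.2 hξ)
  obtain ⟨z, hz', rfl⟩ := Ordinal.mem_toZFSet_iff.1 hz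
  exact ⟨z, hz', tzm.1 hξz, h2 _ (mem_sep.2 ⟨hz, i, hi, hiz⟩) hz⟩

/-- Coding a sequence of ordinals by a small set in HOD which contains its values. -/
theorem odp_of_cover {k μ θ : Ordinal.{u}} {s : Ordinal.{u} → Ordinal.{u}} {B p : ZFSet.{u}}
    (hB : HOD B) (hsB : ∀ i < k, (s i).toZFSet ∈ B) (hfew : Few μ B) (hμ : μ < θ) (hk : k < θ)
    (hθ : IsCard θ.toZFSet) (hωθ : Ordinal.omega0 < θ) (hlim : Order.IsSuccLimit θ)
    (hp : ∀ x ∈ V_ θ, ODp p x) : ODp p (gz k fun i => (s i).toZFSet) := by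
  classical
  obtain ⟨γ, hγ0, hγ⟩ := exists_seq_bound k s
  obtain ⟨C, hC⟩ : ∃ C, C = B ∩ γ.toZFSet := ⟨_, rfl⟩
  have hCγ : C ⊆ γ.toZFSet := by rw [hC]; exact fun z hz => (mem_inter.1 hz).2
  have hsC : ∀ i < k, (s i).toZFSet ∈ C := fun i hi => by
    rw [hC]; exact mem_inter.2 ⟨hsB i hi, tzm.2 (hγ i hi)⟩
  have hCo : ∀ x ∈ C, OD x := fun x hx => by
    obtain ⟨x, _, rfl⟩ := Ordinal.mem_toZFSet_iff.1 (hCγ hx)
    exact OD_ord x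
  have hCOD : OD C := by
    rw [hC]
    exact (HOD_inter_ord hB γ).od
  have hfewC : Few μ C := hfew.sub (by rw [hC]; exact fun z hz => (mem_inter.1 hz).1)
  obtain ⟨r, hrB, hinj, hini⟩ := exists_odrank hCOD hCo
  -- the order type
  obtain ⟨a, ha, hamin⟩ := WellFounded.has_min (wellFounded_lt (α := Ordinal.{u}))
    {a | ∀ z ∈ C, r z < a} (by
      obtain ⟨b, hb⟩ := exists_rk_bound C r
      exact ⟨b, hb⟩)
  have hran : ∀ o < a, ∃ z ∈ C, r z = o := by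
    intro o ho
    have h1 : ¬ ∀ z ∈ C, r z < o := fun h1 => hamin o h1 ho
    push Not at h1
    obtain ⟨z, hz, h2⟩ := h1
    rcases h2.lt_or_eq with h3 | h3
    · exact hini z hz o h3
    · exact ⟨z, hz, h3.symm⟩
  have hE : ∀ o : Ordinal.{u}, ∃ z : Ordinal.{u}, o < a → z.toZFSet ∈ C ∧ r z.toZFSet = o := by
    intro o
    by_cases ho : o < a
    · obtain ⟨z, hz, h1⟩ := hran o ho
      obtain ⟨z, _, rfl⟩ := Ordinal.mem_toZFSet_iff.1 (hCγ hz)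
      exact ⟨z, fun _ => ⟨hz, h1⟩⟩
    · exact ⟨0, fun h => absurd h ho⟩
  choose E hE using hE
  have haμ : a.card ≤ μ.card := hfewC.card_le E (fun i hi => (hE i hi).1) fun i hi i' hi' h => by
    rw [← (hE i hi).2, ← (hE i' hi').2, h]
  have haθ : a < θ := by
    by_contra hc
    push Not at hc
    exact absurd ((hθ.card_lt hμ).trans_le ((Ordinal.card_le_card hc).trans haμ)) (lt_irrefl _)
  obtain ⟨t, ht⟩ : ∃ t, t = gz k fun i => (r (s i).toZFSet).toZFSet := ⟨_, rfl⟩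
  have htθ : t ∈ V_ θ := by
    have h1 : V_ θ ∈ Lvl.{u} := ⟨θ, hlim, hωθ, rfl⟩
    have h2 : ∀ b < θ, Ordinal.toZFSet b ∈ V_ θ := fun b hb => by
      rw [mem_vonNeumann, Ordinal.rank_toZFSet]; exact hb
    have h3 : IsFunc k.toZFSet a.toZFSet t := by
      rw [ht]
      exact isFunc_gz fun i hi => tzm.2 (ha _ (hsC i hi))
    exact Lvl_func h1 (h2 k hk) (h2 a haθ) h3
  have htp : ODp p t := hp _ htθ
  refine odp_of2 (R := fun f x => (∀ q ∈ f, ∃ i ∈ x 2, ∃ y ∈ x 3, q = pair i y ∧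
        ∃ o ∈ x 4, pair y o ∈ x 0 ∧ pair i o ∈ x 1) ∧
      ∀ i ∈ x 2, ∀ y ∈ x 3, (∃ o ∈ x 4, pair y o ∈ x 0 ∧ pair i o ∈ x 1) → pair i y ∈ f)
    (x := asg (gr C fun z => (r z).toZFSet) t k.toZFSet γ.toZFSet a.toZFSet ∅) ?_ (hrB.odp p) htp
    (asg_ord (isOrdinal_toZFSet _) (isOrdinal_toZFSet _) (isOrdinal_toZFSet _) empty_ord)
    fun f => ?_
  · refine Dfn.and ?_ ?_
    · exact Dfn.ball Lvl_sub_Trs _ (Dfn.bex Lvl_sub_Trs _ (Dfn.bex Lvl_sub_Trs _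
        ((dfn_pair Lvl_sub_Trs _ _ _).and (Dfn.bex Lvl_sub_Trs _
        ((dfn_pm Lvl_sub_Trs _ _ _).and (dfn_pm Lvl_sub_Trs _ _ _))))))
    · exact Dfn.ball Lvl_sub_Trs _ (Dfn.ball Lvl_sub_Trs _ (Dfn.imp (Dfn.bex Lvl_sub_Trs _
        ((dfn_pm Lvl_sub_Trs _ _ _).and (dfn_pm Lvl_sub_Trs _ _ _)))
        (dfn_pm Lvl_sub_Trs _ _ _)))
  · have hE : ∀ i < k, ∀ y, (∃ o ∈ a.toZFSet, pair y o ∈ (gr C fun z => (r z).toZFSet) ∧
        pair i.toZFSet o ∈ t) ↔ y = (s i).toZFSet := by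
      intro i hi y
      rw [ht]
      constructor
      · rintro ⟨o, ho, h1, h2⟩
        obtain ⟨h3, rfl⟩ := pair_mem_gr.1 h1
        exact hinj _ h3 _ (hsC i hi) (Ordinal.toZFSet_injective (pair_gz.1 h2).2.symm)
      · rintro rfl
        have h1 := hsC i hi
        exact ⟨_, tzm.2 (ha _ h1), pair_mem_gr.2 ⟨h1, rfl⟩, pair_gz.2 ⟨hi, rfl⟩⟩
    have hmem : ∀ q, q ∈ (gz k fun i => (s i).toZFSet) ↔
        ∃ i < k, q = pair i.toZFSet (s i).toZFSet := by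
      intro q
      unfold gz
      rw [mem_gr]
      constructor
      · rintro ⟨x, hx, rfl⟩
        obtain ⟨i, hi, rfl⟩ := Ordinal.mem_toZFSet_iff.1 hx
        exact ⟨i, hi, by rw [Ordinal.rank_toZFSet]⟩
      · rintro ⟨i, hi, rfl⟩
        exact ⟨_, tzm.2 hi, by rw [Ordinal.rank_toZFSet]⟩
    show (∀ q ∈ f, ∃ i ∈ k.toZFSet, ∃ y ∈ γ.toZFSet, q = pair i y ∧
        ∃ o ∈ a.toZFSet, pair y o ∈ (gr C fun z => (r z).toZFSet) ∧ pair i o ∈ t) ∧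
      (∀ i ∈ k.toZFSet, ∀ y ∈ γ.toZFSet, (∃ o ∈ a.toZFSet,
        pair y o ∈ (gr C fun z => (r z).toZFSet) ∧ pair i o ∈ t) → pair i y ∈ f) ↔ _
    constructor
    · rintro ⟨h1, h2⟩
      ext q
      rw [hmem]
      constructor
      · intro hq
        obtain ⟨i, hi, y, _, rfl, h3⟩ := h1 q hq
        obtain ⟨i, hi', rfl⟩ := Ordinal.mem_toZFSet_iff.1 hi
        exact ⟨i, hi', by rw [(hE i hi' y).1 h3]⟩
      · rintro ⟨i, hi, rfl⟩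
        exact h2 _ (tzm.2 hi) _ (tzm.2 (hγ i hi)) ((hE i hi _).2 rfl)
    · rintro rfl
      refine ⟨fun q hq => ?_, fun i hi y _ h3 => ?_⟩
      · obtain ⟨i, hi, rfl⟩ := (hmem q).1 hq
        exact ⟨_, tzm.2 hi, _, tzm.2 (hγ i hi), rfl, (hE i hi _).2 rfl⟩
      · obtain ⟨i, hi', rfl⟩ := Ordinal.mem_toZFSet_iff.1 hi
        exact pair_gz.2 ⟨hi', ((hE i hi' y).1 h3).symm⟩

/-- Closure under `k`-sequences gives coverings of `k`-sequences. -/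
theorem covers_of_closed {p : ZFSet.{u}} {k : Ordinal.{u}} (h : ClosedSeq (HODp p) k) :
    CovSeq (HODp p) k k := by
  intro s
  obtain ⟨γ, _, hγ⟩ := exists_seq_bound k s
  have h1 : HODp p (gz k fun i => (s i).toZFSet) := by
    refine h γ.toZFSet _ (isFunc_gz fun i hi => tzm.2 (hγ i hi)) fun x y hxy => ?_
    unfold gz at hxy
    rw [(pair_mem_gr.1 hxy).2.symm]
    exact (HOD_ord _).hodp p
  refine ⟨ZFSet.sep (fun y => ∃ i ∈ k.toZFSet,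
    pair i y ∈ (gz k fun i => (s i).toZFSet)) γ.toZFSet,
    hodp_of_sub (odp_range h1.odp) fun z hz => ?_, fun i hi => ?_, s, fun y hy => ?_⟩
  · obtain ⟨y, _, rfl⟩ := Ordinal.mem_toZFSet_iff.1 (mem_sep.1 hz).1
    exact (HOD_ord _).hodp p
  · exact mem_sep.2 ⟨tzm.2 (hγ i hi), _, tzm.2 hi, pair_gz.2 ⟨hi, rfl⟩⟩
  · obtain ⟨_, i, hi, h2⟩ := mem_sep.1 hy
    obtain ⟨i, hi', rfl⟩ := Ordinal.mem_toZFSet_iff.1 hi
    exact ⟨i, hi', Ordinal.toZFSet_injective (pair_gz.1 h2).2⟩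

end Pool.Agent.H639
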