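import Pool.Agent.H639.Ref4

/-!
Singular cardinals, the number of disjoint stationary sets, and reflection below an extendible
cardinal.
-/

set_option autoImplicit false
set_option linter.unusedVariables false

namespace Pool.Agent.H639

open Pool.Agent.H310.HD Gss969 ZFSet Pool.Agent.Results.MP_e37c09_lc.AlternativeA

universe u

/-- There are arbitrarily large singular cardinals of cofinality `ω`. -/
theorem exists_isSing (ξ : Ordinal.{u}) :
    ∃ γ > ξ, IsSing (Ordinal.toZFSet γ) ∧ CofOm (Ordinal.toZFSet γ) := by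
  choose R hR1 hR2 using exists_regUnc.{u}
  let G : ℕ → Ordinal.{u} := fun n => Nat.rec (R ξ) (fun _ γ => R γ) n
  have hGs : ∀ n, G n < G (n + 1) := fun n => hR1 (G n)
  have hGc : ∀ n, IsCard (G n).toZFSet := by
    intro n
    cases n with
    | zero => exact (hR2 ξ).isCard
    | succ n => exact (hR2 (G n)).isCard
  obtain ⟨γ, hγ⟩ : ∃ γ : Ordinal.{u}, γ = ⨆ n, G n := ⟨_, rfl⟩
  have h1 : ∀ n, G n < γ := fun n => by
    rw [hγ]
    exact (hGs n).trans_le (Ordinal.le_iSup G (n + 1))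
  have h2 : ∀ y < γ, ∃ n, y < G n := fun y hy => by
    rw [hγ] at hy
    exact Ordinal.lt_iSup_iff.1 hy
  have hc : CofOm γ.toZFSet := by
    refine ⟨fn fun n => (G n).toZFSet, fn_func fun n => tzm.2 (h1 n), fun x hx => ?_⟩
    obtain ⟨y, hy, rfl⟩ := Ordinal.mem_toZFSet_iff.1 hx
    obtain ⟨n, hn⟩ := h2 y hy
    exact ⟨nt n, nt_mem n, _, tzm.2 (h1 n), pair_fn.2 rfl, tzm.2 hn⟩
  have hom : om ∈ γ.toZFSet := by
    unfold om
    exact tzm.2 ((hR2 ξ).om_lt.trans (h1 0))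
  refine ⟨γ, (hR1 ξ).trans (h1 0), ⟨isCard_of_lim fun y hy => ?_, hom, om, hom, hc⟩, hc⟩
  obtain ⟨n, hn⟩ := h2 y hy
  exact ⟨G n, h1 n, hn, hGc n⟩

/-- There are at most `|l|` disjoint stationary subsets of `l`. -/
theorem fam_card {k l : Ordinal.{u}} {S : ZFSet.{u}} (hl : RegUnc l.toZFSet)
    (hS : Fam om k.toZFSet l.toZFSet S) : k.card ≤ l.card := by
  have h1 : ∀ i : Set.Iio k, ∃ a : Set.Iio l, a.1.toZFSet ∈ app S i.1.toZFSet := fun i => by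
    have h2 := (hS.2.1 _ (tzm.2 i.2) _ (mem_powerset.1 (app_mem hS.1 (tzm.2 i.2)))
        (app_spec hS.1 (tzm.2 i.2))).1
    obtain ⟨a, ha, h3⟩ := statL_nonempty hl (stat_iff.1 h2)
    exact ⟨⟨a, ha⟩, h3⟩
  choose a ha using h1
  have h2 : Function.Injective a := by
    intro i i' h
    have h3 := ha i'
    rw [← h] at h3
    have h7 := hS.2.2 _ (tzm.2 i.2) _ (tzm.2 i'.2) _ (mem_powerset.1 (app_mem hS.1 (tzm.2 i.2))) _
      (mem_powerset.1 (app_mem hS.1 (tzm.2 i'.2))) (app_spec hS.1 (tzm.2 i.2))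
      (app_spec hS.1 (tzm.2 i'.2)) ⟨_, ha i, h3⟩
    exact Subtype.ext (Ordinal.toZFSet_injective h7)
  have h4 := Cardinal.mk_le_of_injective h2
  rw [Cardinal.mk_Iio_ordinal, Cardinal.mk_Iio_ordinal] at h4
  exact Cardinal.lift_le.1 h4

/-- Extendible cardinals satisfy the reflection hypothesis. -/
theorem refl_of_extendible {δ l : Ordinal.{u}} (hδ : Extendible δ) (hl : RegUnc l.toZFSet)
    (hδl : δ < l) : Refl δ δ l := by
  intro m hm S hS
  obtain ⟨f, hf⟩ : ∃ f : ZFSet.{u}, f = gr m.toZFSet fun x =>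
    ZFSet.sep (fun z => ∃ a ∈ S (rank x), z = a.toZFSet) l.toZFSet := ⟨_, rfl⟩
  have hff : IsFunc m.toZFSet (powerset l.toZFSet) f := by
    rw [hf]
    exact isFunc_gr fun x hx => mem_powerset.2 sep_subset
  have happ : ∀ ξ < m, app f ξ.toZFSet =
      ZFSet.sep (fun z => ∃ a ∈ S ξ, z = a.toZFSet) l.toZFSet := by
    intro ξ hξ
    refine (app_iff hff (tzm.2 hξ)).1 ?_
    rw [hf, pair_mem_gr, Ordinal.rank_toZFSet]
    exact ⟨tzm.2 hξ, rfl⟩
  have h1 := refl_seq hδ hl hδl hm hff fun ξ hξ => by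
    rw [happ ξ hξ]
    refine ⟨fun C hC1 hC2 => ?_, Ordinal.omega0, hδ.om_lt, fun a ha => ?_⟩
    · obtain ⟨α, hα, h1, h2⟩ := (hS ξ hξ).1 C hC1 hC2
      exact ⟨_, mem_sep.2 ⟨tzm.2 hα, α, h1, rfl⟩, h2⟩
    · obtain ⟨_, α, hα, rfl⟩ := mem_sep.1 ha
      exact cofN_om.2 ((hS ξ hξ).2 α hα)
  obtain ⟨α, hα, ⟨ν, hν, hc⟩, h2⟩ := statL_nonempty hl h1
  refine ⟨α, hα, ⟨ν, hν, hc⟩, fun i hi C hC1 hC2 => ?_⟩
  obtain ⟨x, hx, hxC⟩ := h2 i hi C hC1 hC2
  rw [mem_inter, happ i hi, mem_sep] at hx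
  obtain ⟨⟨_, a, ha, rfl⟩, h3⟩ := hx
  exact ⟨a, tzm.1 h3, ha, hxC⟩

end Pool.Agent.H639
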