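import Pool.Agent.H639.Hp5
import Pool.Agent.H639.Ref5
import Pool.Graph.R_pool_sql_team_seeded_2aa45f1a.Results.MP_dbe07f_lc.SetParameters

/-!
Consequences in ZFC of coverings of countable sets by small sets in HOD.
-/

set_option autoImplicit false

namespace Pool.Agent.H639

open Pool.Agent.H310.HD Gss969 ZFSet
open Pool.Agent.Results.MP_e37c09_lc.AlternativeA

universe u

theorem regUnc_isSuccLimit {θ : Ordinal.{u}} (hθ : RegUnc θ.toZFSet) : Order.IsSuccLimit θ := by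
  rw [Ordinal.isSuccLimit_iff, Order.isSuccPrelimit_iff_succ_lt]
  exact ⟨hθ.pos.ne', fun a ha => hθ.succ_lt ha⟩

theorem covOm_of_covSeq {μ θ : Ordinal.{u}} (h : CovSeq HOD Ordinal.omega0 μ) (hμ : μ < θ)
    (hθ : RegUnc θ.toZFSet) : CovOm θ := by
  intro x hx
  obtain ⟨f, hf, hfc⟩ := hx
  obtain ⟨D, hD, h1, h2⟩ := h fun i => rank (app f i.toZFSet)
  refine cof_of_few hθ.isCard hμ hD (fun ξ hξ => ?_) h2
  obtain ⟨n, hn, y, hy, hny, hξy⟩ := hfc _ (tzm.2 hξ)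
  obtain ⟨y, hy', rfl⟩ := Ordinal.mem_toZFSet_iff.1 hy
  unfold om at hn
  obtain ⟨n', hn', rfl⟩ := Ordinal.mem_toZFSet_iff.1 hn
  have h3 := h1 n' hn'
  rw [(app_iff hf hn).1 hny, Ordinal.rank_toZFSet] at h3
  exact ⟨y, hy', tzm.1 hξy, h3⟩

theorem altA_of_covOm {θ : Ordinal.{u}} (hθ : RegUnc θ.toZFSet) (h : CovOm θ) : AltA θ := by
  intro γ hγ hs l hl α hγα hαl hα
  exact no_reg hs hγα hl hαl hα
    (fun ν hν => big_cof hθ h (hγ.le.trans hγα) hα hν)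

theorem hodHyp_of_altA (b : Bool) {θ : Ordinal.{u}} (h : AltA θ) : HODHypothesis.{u} b := by
  intro β
  obtain ⟨γ, hγ, hs, _⟩ := exists_isSing (max θ β)
  obtain ⟨l, hl, hr, hsucc⟩ := exists_succ hs.1 (by
    have := hs.2.1
    unfold om at this
    exact tzm.1 this)
  refine ⟨l, ((le_max_right _ _).trans_lt hγ).trans hl, notStrMeas_of_sing b hr
    ((statL_om hr hl).mono fun α hα h1 => ⟨h1.2, ?_⟩)⟩
  by_contra hcon
  exact h γ ((le_max_left _ _).trans_lt hγ) hs l hsucc α h1.1.le hα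
    ⟨h1.2.lim.1, h1.2.lim.2, hcon⟩

theorem partitions_of_covOm {θ : Ordinal.{u}} (h : CovOm θ) : Partitions θ := by
  intro l hl hr k hk0 hk
  refine split_of_sing hr ((statL_om hr hl).mono fun α _ hα => ⟨hα.2, ?_⟩) hk0 hk
  obtain ⟨c, hc, g, hg, hf, hcof⟩ := h α hα.2
  exact ⟨_, tzm.2 (hc.trans hα.1), g, hg, hf, hcof⟩

theorem notStrMeas_of_partitions (b : Bool) {θ : Ordinal.{u}} (h : Partitions θ) :
    ∀ l > θ, RegUnc (Ordinal.toZFSet l) → NotStrMeas b l := by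
  intro l hl hr
  refine ⟨hr, ?_⟩
  rintro ⟨_, k, hk, hi, _, hn⟩
  obtain ⟨k, hk', rfl⟩ := Ordinal.mem_toZFSet_iff.1 hk
  refine hn (h l hl hr k ?_ hk'.le)
  obtain ⟨⟨x, hx, _⟩, _⟩ := hi
  obtain ⟨β, hβ, _⟩ := Ordinal.mem_toZFSet_iff.1 hx
  exact bot_le.trans_lt hβ

/-- For every enumeration `p` of `V_ρ` the class `HOD_p` contains `V_ρ` and is closed under
`k`-sequences. -/
def AllClosed (k ρ : Ordinal.{u}) : Prop :=
  ∀ p, EnumOf (V_ ρ) p → (∀ x ∈ V_ ρ, HODp p x) ∧ ClosedSeq (HODp p) k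

theorem allClosed_of_cov {k θ ρ : Ordinal.{u}} (hθ : RegUnc θ.toZFSet) (hk : k < θ)
    (h : ∀ s : Ordinal.{u} → Ordinal.{u}, ∃ B, HOD B ∧ (∀ i < k, (s i).toZFSet ∈ B) ∧
      ∃ μ < θ, Few μ B) (hρ : θ ≤ ρ) : AllClosed k ρ := by
  intro p hp
  refine ⟨fun x hx => hp.hodp hx, closedSeq_hodp fun s => ?_⟩
  obtain ⟨B, h1, h2, μ, h3, h4⟩ := h s
  exact odp_of_cover h1 h2 h4 h3 hk hθ.isCard hθ.om_lt (regUnc_isSuccLimit hθ) fun x hx =>
    hp.odp (vonNeumann_subset_of_le hρ hx)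

theorem closedSeq_tfae (k : Ordinal.{u}) :
    List.TFAE [∃ μ : Ordinal.{u}, CovSeq HOD k μ,
      ∃ ρ₀ : Ordinal.{u}, ∀ ρ ≥ ρ₀, AllClosed k ρ,
      ∀ α : Ordinal.{u}, ∃ p, (∀ x ∈ V_ α, HODp p x) ∧ ClosedSeq (HODp p) k,
      ∃ p : ZFSet.{u}, ClosedSeq (HODp p) k,
      ∃ p : ZFSet.{u}, ∃ μ : Ordinal.{u}, CovSeq (HODp p) k μ] := by
  tfae_have 1 → 2 := by
    rintro ⟨μ, h⟩
    obtain ⟨θ, hθ, hr⟩ := exists_regUnc (max μ k)
    refine ⟨θ, fun ρ hρ => allClosed_of_cov hr ((le_max_right _ _).trans_lt hθ) (fun s => ?_) hρ⟩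
    obtain ⟨B, h1, h2, h3⟩ := h s
    exact ⟨B, h1, h2, μ, (le_max_left _ _).trans_lt hθ, h3⟩
  tfae_have 2 → 3 := by
    rintro ⟨ρ₀, h1⟩ α
    obtain ⟨p, hp⟩ := exists_enumOf' (V_ (max ρ₀ α))
    obtain ⟨h2, h3⟩ := h1 _ (le_max_left _ _) p hp
    exact ⟨p, fun x hx => h2 x (vonNeumann_subset_of_le (le_max_right _ _) hx), h3⟩
  tfae_have 3 → 4 := by
    intro h
    obtain ⟨p, _, hp⟩ := h 0
    exact ⟨p, hp⟩
  tfae_have 4 → 5 := fun ⟨p, hp⟩ => ⟨p, _, covers_of_closed hp⟩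
  tfae_have 5 → 1 := by
    rintro ⟨p, μ, h⟩
    obtain ⟨μ', h'⟩ := covers_of_par p μ
    exact ⟨μ', h' k h⟩
  tfae_finish

/-- Long families of stationary sets in HOD and simultaneous reflection give coverings. -/
theorem covSets_of_fam {μ θ : Ordinal.{u}}
    (hR : ∃ l₀ : Ordinal.{u}, ∀ l > l₀, RegUnc (Ordinal.toZFSet l) → Refl μ θ l)
    (h : ∀ k₀ : Ordinal.{u}, ∃ k ≥ k₀, ∃ l : Ordinal.{u}, RegUnc l.toZFSet ∧
      ∃ S, HOD S ∧ Fam om (Ordinal.toZFSet k) l.toZFSet S) : CovSets μ θ := by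
  obtain ⟨l₀, hR⟩ := hR
  intro m hm f
  obtain ⟨r, hr, hreg⟩ := exists_regUnc l₀
  obtain ⟨c, hc⟩ : ∃ c : Ordinal.{u}, ∀ i < m, f i < c :=
    ⟨⨆ i : Set.Iio m, Order.succ (f i.1), fun i hi => (Order.lt_succ _).trans_le
      (Ordinal.le_iSup (fun i : Set.Iio m => Order.succ (f i.1)) ⟨i, hi⟩)⟩
  obtain ⟨k, hk, l, hl, S, hS, hF⟩ := h (max r c)
  have hl₀ : l₀ < l := by
    by_contra hcon
    push Not at hcon
    have h1 := fam_card hl hF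
    have h2 := IsCard.card_lt hreg.isCard hr
    exact absurd (((Ordinal.card_le_card ((le_max_left _ _).trans hk)).trans h1).trans
      (Ordinal.card_le_card hcon)) (not_le.2 h2)
  obtain ⟨D, h1, _, h2, h3⟩ := cover_refl (hR l hl₀ hl) hS hF hm f fun i hi =>
    (hc i hi).trans_le ((le_max_right _ _).trans hk)
  exact ⟨D, h1, h2, h3⟩

open Pool.Agent.Results.MP_dbe07f_lc.SetParameters in
/-- The HOD Hypothesis for some `HOD_p` and simultaneous reflection give coverings in HOD. -/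
theorem covSets_of_hypothesis (b : Bool) {μ θ : Ordinal.{u}}
    (hR : ∃ l₀ : Ordinal.{u}, ∀ l > l₀, RegUnc (Ordinal.toZFSet l) → Refl μ θ l)
    {p : ZFSet.{u}} (h : Hypothesis b (HODp p)) : CovSets μ θ := by
  refine covSets_of_fam hR fun k₀ => ?_
  obtain ⟨ρ, hρ⟩ := exists_mem_vonNeumann p
  obtain ⟨μ', hμ, hr, hbig⟩ := exists_big k₀ ρ
  obtain ⟨k, hk, l, hl, hrl, S, hS, hF⟩ := fam_of_nonSM h μ'
  obtain ⟨S', hS', hF'⟩ := fam_of_par (m := Ordinal.omega0) hρ hr hbig hk (lt_of_le_of_lt hk hl)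
    hrl hS hF
  exact ⟨μ', hμ.le, l, hrl, S', hS', hF'⟩

open Pool.Agent.Results.MP_dbe07f_lc.SetParameters in
theorem hypothesis_of_partitions (b : Bool) {θ : Ordinal.{u}} (h : Partitions θ)
    (p : ZFSet.{u}) : Hypothesis b (HODp p) := by
  intro β
  obtain ⟨l, hl, hr⟩ := exists_regUnc (max θ β)
  refine ⟨l, (le_max_right _ _).trans_lt hl, hr, fun k hk hi _ => ?_⟩
  obtain ⟨k, hk', rfl⟩ := Ordinal.mem_toZFSet_iff.1 hk
  obtain ⟨⟨x, hx, _⟩, _⟩ := hi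
  obtain ⟨β', hβ', _⟩ := Ordinal.mem_toZFSet_iff.1 hx
  obtain ⟨g, hg, hg'⟩ := h l ((le_max_left _ _).trans_lt hl) hr k (bot_le.trans_lt hβ') hk'.le
  exact ⟨g, hg.hodp p, hg'⟩

/-- A single `θ` for all sequences of length less than `μ`. -/
theorem allClosed_of_covSets {μ θ : Ordinal.{u}} (hθ : RegUnc θ.toZFSet) (h : CovSets μ θ) :
    ∀ k < μ, ∀ ρ ≥ θ, AllClosed k ρ := by
  intro k hk ρ hρ
  refine allClosed_of_cov hθ ?_ (fun s => h k hk s) hρ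
  obtain ⟨D, _, h1, ν, hν, h2⟩ := h k hk id
  have h3 : k.card ≤ ν.card := h2.card_le id (fun i hi => h1 i hi) fun i _ i' _ h => h
  by_contra hc
  push Not at hc
  exact absurd ((hθ.isCard.card_lt hν).trans_le ((Ordinal.card_le_card hc).trans h3)) (lt_irrefl _)

end Pool.Agent.H639
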