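import Pool.Agent.H639.Mit5

/-!
Normal measures of HOD: basic properties, and Hausdorff-type reflection: almost all ordinals below
a measurable cardinal of HOD are regular cardinals of HOD.
-/

set_option autoImplicit false
set_option linter.unusedVariables false

namespace Pool.Agent.H639

open ZFSet Gss969 Pool.Agent.H310.HD

universe u

variable {l : Ordinal.{u}} {U : ZFSet.{u}}

theorem dif_dif {X : ZFSet.{u}} (hX : X ⊆ l.toZFSet) : dif l.toZFSet (dif l.toZFSet X) = X := by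
  ext z
  rw [mem_dif, mem_dif]
  constructor
  · rintro ⟨h1, h2⟩
    by_contra hc
    exact h2 ⟨h1, hc⟩
  · intro h
    exact ⟨hX h, fun h2 => h2.2 h⟩

namespace NMeas

theorem hodm (h : NMeas l.toZFSet U) {X : ZFSet.{u}} (hX : X ∈ U) : HOD X := h.hod.mem hX

theorem compl_mem (h : NMeas l.toZFSet U) {X : ZFSet.{u}} (hX : X ⊆ l.toZFSet) (hH : HOD X)
    (hn : ¬ X ∈ U) : dif l.toZFSet X ∈ U := by
  by_contra hc
  exact hn ((h.ultra X hX hH).2 hc)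

theorem tail (h : NMeas l.toZFSet U) {x : Ordinal.{u}} (hx : x < l) :
    ZFSet.sep (fun y => x.toZFSet ∈ y) l.toZFSet ∈ U := by
  have hH : HOD (ZFSet.sep (fun y => x.toZFSet ∈ y) l.toZFSet) :=
    HOD_sep4 (Ψ := fun v => v 5 ∈ v 0) (Dfn.mem _ _) (HOD_ord l) HOD_empty HOD_empty HOD_empty
      x 0 0 0 0
  by_contra hc
  obtain ⟨y, hy, h1⟩ := h.unb _ (h.compl_mem sep_subset hH hc) _ (tzm.2 hx)
  rw [mem_dif, mem_sep] at hy
  exact hy.2 ⟨hy.1, h1⟩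

/-- Completeness for definable families. -/
theorem inter (h : NMeas l.toZFSet U) {k : Ordinal.{u}} (hk : k < l)
    {F : ZFSet.{u} → ZFSet.{u}} (hF : HOD (gr k.toZFSet F)) (hFU : ∀ i ∈ k.toZFSet, F i ∈ U) :
    ZFSet.sep (fun x => ∀ i ∈ k.toZFSet, x ∈ F i) l.toZFSet ∈ U := by
  have h1 := h.compl _ (tzm.2 hk) _ hF (isFunc_gr hFU)
  have e : ZFSet.sep (fun x => ∀ i ∈ k.toZFSet, ∀ X, pair i X ∈ gr k.toZFSet F → x ∈ X) l.toZFSet =
      ZFSet.sep (fun x => ∀ i ∈ k.toZFSet, x ∈ F i) l.toZFSet := by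
    ext x
    rw [mem_sep, mem_sep]
    refine and_congr_right fun _ => forall₂_congr fun i hi => ?_
    constructor
    · intro h2; exact h2 _ (pair_mem_gr.2 ⟨hi, rfl⟩)
    · intro h2 X hX
      rw [← (pair_mem_gr.1 hX).2]; exact h2
  rwa [e] at h1

theorem inter2 (h : NMeas l.toZFSet U) (hl : 2 < l) {X Y : ZFSet.{u}} (hX : X ∈ U) (hY : Y ∈ U) :
    X ∩ Y ∈ U := by
  classical
  have h0 : ∀ i : ZFSet.{u}, i ∈ (2 : Ordinal.{u}).toZFSet →
      i = (0 : Ordinal.{u}).toZFSet ∨ i = (1 : Ordinal.{u}).toZFSet := by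
    intro i hi
    obtain ⟨i, hi', rfl⟩ := Ordinal.mem_toZFSet_iff.1 hi
    rcases lt_two hi' with rfl | rfl
    · exact Or.inl rfl
    · exact Or.inr rfl
  have hne : ¬ (1 : Ordinal.{u}).toZFSet = (0 : Ordinal.{u}).toZFSet :=
    fun e => one_ne_zero (Ordinal.toZFSet_injective e)
  let F : ZFSet.{u} → ZFSet.{u} := fun i => if i = (0 : Ordinal.{u}).toZFSet then X else Y
  have hF : HOD (gr (2 : Ordinal.{u}).toZFSet F) := by
    have e : gr (2 : Ordinal.{u}).toZFSet F =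
        {pair (0 : Ordinal.{u}).toZFSet X, pair (1 : Ordinal.{u}).toZFSet Y} := by
      ext p
      rw [mem_gr, ZFSet.mem_pair]
      constructor
      · rintro ⟨i, hi, rfl⟩
        rcases h0 i hi with rfl | rfl
        · left; show pair _ (if _ then _ else _) = _; rw [if_pos rfl]
        · right; show pair _ (if _ then _ else _) = _; rw [if_neg hne]
      · rintro (rfl | rfl)
        · exact ⟨(0 : Ordinal.{u}).toZFSet, tzm.2 (by norm_num), by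
            show pair _ (if _ then _ else _) = _; rw [if_pos rfl]⟩
        · exact ⟨(1 : Ordinal.{u}).toZFSet, tzm.2 (by norm_num), by
            show pair _ (if _ then _ else _) = _; rw [if_neg hne]⟩
    rw [e]
    exact HOD_pair_set (HOD_pair (HOD_ord _) (h.hodm hX)) (HOD_pair (HOD_ord _) (h.hodm hY))
  have h1 := h.inter hl hF (fun i hi => by
    rcases h0 i hi with rfl | rfl
    · show (if _ then _ else _) ∈ U; rw [if_pos rfl]; exact hX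
    · show (if _ then _ else _) ∈ U; rw [if_neg hne]; exact hY)
  refine h.up _ h1 _ (fun z hz => h.sub X hX (mem_inter.1 hz).1)
    (HOD_inter (h.hodm hX) (h.hodm hY)) fun z hz => ?_
  obtain ⟨_, h2⟩ := mem_sep.1 hz
  refine mem_inter.2 ⟨?_, ?_⟩
  · have := h2 (0 : Ordinal.{u}).toZFSet (tzm.2 (by norm_num))
    have e : F (0 : Ordinal.{u}).toZFSet = X := by
      show (if _ then _ else _) = _; rw [if_pos rfl]
    rwa [e] at this
  · have := h2 (1 : Ordinal.{u}).toZFSet (tzm.2 (by norm_num))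
    have e : F (1 : Ordinal.{u}).toZFSet = Y := by
      show (if _ then _ else _) = _; rw [if_neg hne]
    rwa [e] at this

/-- Disjoint sets are not both in `U`. -/
theorem disj (h : NMeas l.toZFSet U) (hl : 2 < l) {X Y : ZFSet.{u}} (hX : X ∈ U) (hY : Y ∈ U) :
    ∃ z ∈ X, z ∈ Y := by
  obtain ⟨y, hy, _⟩ := h.unb _ (h.inter2 hl hX hY) _ (tzm.2 (lt_trans (by norm_num) hl : 0 < l))
  exact ⟨y, (mem_inter.1 hy).1, (mem_inter.1 hy).2⟩

/-- Normality for definable functions. -/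
theorem fod (h : NMeas l.toZFSet U) {X : ZFSet.{u}} (hX : X ∈ U) {F : ZFSet.{u} → ZFSet.{u}}
    (hF : HOD (gr X F)) (hreg : ∀ x ∈ X, F x ∈ x) :
    ∃ y ∈ l.toZFSet, ZFSet.sep (fun x => F x = y) X ∈ U := by
  have hXl := h.sub X hX
  obtain ⟨y, hy, h1⟩ := h.normal X hX _ hF (isFunc_gr fun x hx =>
    (isOrdinal_toZFSet l).isTransitive.mem_trans (hreg x hx) (hXl hx)) (fun x hx y hxy => by
      rw [← (pair_mem_gr.1 hxy).2]; exact hreg x hx)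
  refine ⟨y, hy, ?_⟩
  have e : ZFSet.sep (fun x => pair x y ∈ gr X F) X = ZFSet.sep (fun x => F x = y) X := by
    ext x
    rw [mem_sep, mem_sep, pair_mem_gr]
    exact ⟨fun h => ⟨h.1, h.2.2⟩, fun h => ⟨h.1, h.1, h.2⟩⟩
  rwa [e] at h1

end NMeas

/-- Functions in HOD. -/
theorem HOD_gr4 {Ψ : (ℕ → ZFSet.{u}) → Prop} (hΨ : Dfn Lvl.{u} Ψ) {A B p q : ZFSet.{u}}
    (hA : HOD A) (hB : HOD B) (hp : HOD p) (hq : HOD q) (a b c d : Ordinal.{u})
    {F : ZFSet.{u} → ZFSet.{u}} (hF : ∀ x ∈ A, F x ∈ B ∧ ∀ y ∈ B,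
      (Ψ (as y x A B p q a.toZFSet b.toZFSet c.toZFSet d.toZFSet) ↔ y = F x)) :
    HOD (gr A F) := by
  refine HOD_of4 (R := fun g x => IsFunc (x 0) (x 1) g ∧ ∀ z ∈ x 0, ∀ y ∈ x 1, pair z y ∈ g →
      Ψ (as y z (x 0) (x 1) (x 2) (x 3) (x 4) (x 5) (x 6) (x 7)))
    (x := as A B p q a.toZFSet b.toZFSet c.toZFSet d.toZFSet d.toZFSet d.toZFSet) ?_ hA hB hp hq
    (ord10 _ _ _ _ _ _ _ _ _ _) (fun g => ?_) fun z hz => ?_
  · refine (dfn_isFunc Lvl_sub_Trs _ _ _).and (Dfn.ball Lvl_sub_Trs _ (Dfn.ball Lvl_sub_Trs _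
      ((dfn_pm Lvl_sub_Trs _ _ _).imp ?_)))
    exact dfn_as hΨ 0 1 3 4 5 6 7 8 9 10
  · show IsFunc A B g ∧ (∀ z ∈ A, ∀ y ∈ B, pair z y ∈ g →
      Ψ (as y z A B p q a.toZFSet b.toZFSet c.toZFSet d.toZFSet)) ↔ _
    constructor
    · rintro ⟨h1, h2⟩
      refine func_ext h1 (isFunc_gr fun x hx => (hF x hx).1) fun x hx => ?_
      rw [app_gr hx]
      exact ((hF x hx).2 _ (app_mem h1 hx)).1 (h2 x hx _ (app_mem h1 hx) (app_spec h1 hx))
    · rintro rfl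
      refine ⟨isFunc_gr fun x hx => (hF x hx).1, fun z hz y hy h => ?_⟩
      rw [(hF z hz).2 y hy]
      exact (pair_mem_gr.1 h).2.symm
  · obtain ⟨x, hx, rfl⟩ := mem_gr.1 hz
    exact HOD_pair (hA.mem hx) (hB.mem (hF x hx).1)

theorem HOD_prod {a b : ZFSet.{u}} (ha : HOD a) (hb : HOD b) : HOD (prod a b) := by
  refine HOD_of (R := fun y x => (∀ p ∈ y, ∃ u ∈ x 0, ∃ v ∈ x 1, p = pair u v) ∧
      ∀ u ∈ x 0, ∀ v ∈ x 1, pair u v ∈ y)
    (x := asg a b ∅ ∅ ∅ ∅) ?_ ha.od hb.od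
    (asg_ord empty_ord empty_ord empty_ord empty_ord) (fun w => ?_) fun z hz => ?_
  · exact (Dfn.ball Lvl_sub_Trs _ (Dfn.bex Lvl_sub_Trs _ (Dfn.bex Lvl_sub_Trs _
      (dfn_pair Lvl_sub_Trs _ _ _)))).and (Dfn.ball Lvl_sub_Trs _ (Dfn.ball Lvl_sub_Trs _
      (dfn_pm Lvl_sub_Trs _ _ _)))
  · show (∀ p ∈ w, ∃ u ∈ a, ∃ v ∈ b, p = pair u v) ∧ (∀ u ∈ a, ∀ v ∈ b, pair u v ∈ w) ↔ _
    constructor
    · rintro ⟨h1, h2⟩
      ext p
      rw [mem_prod]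
      constructor
      · exact h1 p
      · rintro ⟨u, hu, v, hv, rfl⟩
        exact h2 u hu v hv
    · rintro rfl
      exact ⟨fun p hp => mem_prod.1 hp, fun u hu v hv => pair_mem_prod.2 ⟨hu, hv⟩⟩
  · obtain ⟨u, hu, v, hv, rfl⟩ := mem_prod.1 hz
    exact HOD_pair (ha.mem hu) (hb.mem hv)

namespace NMeas

/-- The limit ordinals are in `U`. -/
theorem lim (h : NMeas l.toZFSet U) :
    ZFSet.sep (fun α => ∀ x ∈ α, ∃ y ∈ α, x ∈ y) l.toZFSet ∈ U := by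
  classical
  have hH : HOD (ZFSet.sep (fun α => ∀ x ∈ α, ∃ y ∈ α, x ∈ y) l.toZFSet) :=
    HOD_sep4 (Ψ := fun v => ∀ x ∈ v 0, ∃ y ∈ v 0, x ∈ y) (Dfn.ball Lvl_sub_Trs _
      (Dfn.bex Lvl_sub_Trs _ (Dfn.mem _ _))) (HOD_ord l) HOD_empty HOD_empty HOD_empty 0 0 0 0 0
  by_contra hc
  have h1 := h.compl_mem sep_subset hH hc
  have h2 : ∀ α ∈ dif l.toZFSet (ZFSet.sep (fun α => ∀ x ∈ α, ∃ y ∈ α, x ∈ y) l.toZFSet),
      ∃ x ∈ α, ∀ y ∈ α, ¬ x ∈ y := by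
    intro α hα
    rw [mem_dif, mem_sep] at hα
    have h3 := hα.2
    push Not at h3
    exact h3 hα.1
  choose! F hF using h2
  have huniq : ∀ α ∈ l.toZFSet, ∀ x ∈ α, ∀ y ∈ α, (∀ z ∈ α, ¬ x ∈ z) → (∀ z ∈ α, ¬ y ∈ z) →
      x = y := by
    intro α hα x hx y hy h3 h4
    obtain ⟨a, ha, rfl⟩ := Ordinal.mem_toZFSet_iff.1 hα
    obtain ⟨x, hx', rfl⟩ := Ordinal.mem_toZFSet_iff.1 hx
    obtain ⟨y, hy', rfl⟩ := Ordinal.mem_toZFSet_iff.1 hy
    rcases lt_trichotomy x y with h5 | h5 | h5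
    · exact absurd (tzm.2 h5) (h3 _ hy)
    · rw [h5]
    · exact absurd (tzm.2 h5) (h4 _ hx)
  have hFH : HOD (gr (dif l.toZFSet (ZFSet.sep (fun α => ∀ x ∈ α, ∃ y ∈ α, x ∈ y) l.toZFSet)) F) :=
    by
    refine HOD_gr4 (Ψ := fun v => v 0 ∈ v 1 ∧ ∀ y ∈ v 1, ¬ v 0 ∈ y)
      ((Dfn.mem _ _).and (Dfn.ball Lvl_sub_Trs _ (Dfn.mem _ _).not)) (h.hodm h1) (HOD_ord l)
      HOD_empty HOD_empty 0 0 0 0 fun x hx => ?_
    have h3 := hF x hx
    have hxl := (mem_dif.1 hx).1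
    refine ⟨(isOrdinal_toZFSet l).isTransitive.mem_trans h3.1 hxl, fun y hy => ?_⟩
    show y ∈ x ∧ (∀ z ∈ x, ¬ y ∈ z) ↔ _
    constructor
    · rintro ⟨h4, h5⟩
      exact huniq x hxl y h4 _ h3.1 h5 h3.2
    · rintro rfl
      exact h3
  obtain ⟨y, hy, h3⟩ := h.fod h1 hFH fun x hx => (hF x hx).1
  obtain ⟨α, hα, _⟩ := h.unb _ h3 y hy
  have hαl := h.sub _ h3 hα
  obtain ⟨β, hβ, hαβ⟩ := h.unb _ h3 α hαl
  have hβl := h.sub _ h3 hβ
  rw [mem_sep] at hα hβ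
  have e1 := hF α hα.1
  have e2 := hF β hβ.1
  rw [hα.2] at e1
  rw [hβ.2] at e2
  exact e2.2 α hαβ e1.1

end NMeas

end Pool.Agent.H639
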