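import Pool.Graph.R_pool_sql_team_seeded_2aa45f1a.Results.MP_e37c09_lc.AlternativeA
import Pool.Agent.H639.NM

/-!
Jensen-type covering: the setup. Given long families of disjoint stationary sets in HOD, the
restrictions of suitable elementary embeddings to ordinals are in HOD.
-/

set_option autoImplicit false
set_option linter.unusedVariables false

namespace Pool.Agent.H639

open Pool.Agent.H310.HD Gss969 ZFSet Pool.Agent.Results.MP_e37c09_lc.AlternativeA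

universe u

/-- The setup: an embedding `j` of `V_ η` into `V_ θ` moving `V_ ζ` to `V_ ζ'` whose restriction to `α` is
ordinal definable over a level below `ζ'`. -/
structure Setup (δ ζ ζ' η θ τ : Ordinal.{u}) (j : ZFSet.{u} → ZFSet.{u}) (α : Ordinal.{u}) : Prop where
  D : ExtData δ η θ τ j
  hζη : ζ < η
  hαζ : α < ζ
  ll : LimLim ζ
  lv : V_ ζ ∈ Lvl.{u}
  jW : j (V_ ζ) = V_ ζ'
  ll' : LimLim ζ'
  lv' : V_ ζ' ∈ Lvl.{u}
  g : ∃ β < ζ', ODat (V_ β) (gr α.toZFSet (fun x => j x))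

/-- The setup holds for all embeddings with sufficiently large domain. -/
theorem exists_setup_all {δ : Ordinal.{u}} (hδ : Extendible δ) (hF : Families δ) (α p : Ordinal.{u}) :
    ∃ ζ : Ordinal.{u}, p < ζ ∧ ∀ (η θ τ : Ordinal.{u}) (j : ZFSet.{u} → ZFSet.{u}), ζ < η →
      ExtData δ η θ τ j → ∃ ζ', Setup δ ζ ζ' η θ τ j α := by
  obtain ⟨k, hαk, μ, hμ, l, hl, S, hSO, hS⟩ := hF α
  obtain ⟨γ, hγ⟩ := hSO.od
  obtain ⟨ζ, h1', hll, hζL⟩ := exists_limlim (max p (max (max γ (rank S)) (max l k)))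
  have h1 := (le_max_right _ _).trans_lt h1'
  refine ⟨ζ, (le_max_left _ _).trans_lt h1', fun η θ τ j h5 D => ?_⟩
  have hδL := hδ.lim
  have hγζ : γ < ζ := ((le_max_left _ _).trans (le_max_left _ _)).trans_lt h1
  have hSζ : S ∈ V_ ζ := mem_vonNeumann.2 (((le_max_right _ _).trans (le_max_left _ _)).trans_lt h1)
  have hlζ : l < ζ := ((le_max_left _ _).trans (le_max_right _ _)).trans_lt h1
  have hkζ : k < ζ := ((le_max_right _ _).trans (le_max_right _ _)).trans_lt h1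
  have hαζ : α < ζ := hαk.trans_lt hkζ
  have hW : V_ ζ ∈ V_ η := vonNeumann_mem_vonNeumann_iff.2 h5
  have hlη := hlζ.trans h5
  have hkη := hkζ.trans h5
  have hαη := hαζ.trans h5
  have hSη : S ∈ V_ η := D.E.bt.mem_trans hSζ hW
  -- the image of `V_ζ`
  obtain ⟨ζ', hζ'⟩ : ∃ ζ' : Ordinal.{u}, ζ' = rank (j ζ.toZFSet) := ⟨_, rfl⟩
  have hζ'θ : ζ' < θ := by
    rw [hζ']
    exact mem_vonNeumann.1 (D.E.el.1 _ (ExtData.ordB h5))
  have hjW : j (V_ ζ) = V_ ζ' := by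
    have h := (D.E.jV hW).2
    rw [← hζ'] at h
    ext x
    rw [h x]
    exact ⟨fun h => h.1, fun h => ⟨h, vonNeumann_subset_of_le hζ'θ.le h⟩⟩
  have hLvl' : V_ ζ' ∈ Lvl.{u} := by
    have := (D.E.el.t1 D.E.lvl D.nl (A := fun a => a ∈ Lvl.{u}) (dfn_Lvl 0) hW).1 hζL
    rwa [hjW] at this
  have hll' : LimLim ζ' := by
    have h2 := (D.E.el.t1 D.E.lvl D.nl (A := fun a => ∀ x ∈ a, ∃ U ∈ a, U ∈ Lvl.{u} ∧ x ∈ U)
      (Dfn.ball Lvl_sub_Trs _ (Dfn.bex Lvl_sub_Trs _ ((dfn_Lvl _).and (Dfn.mem _ _)))) hW).1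
      (fun x hx => by
        obtain ⟨β, h2, h3, h4, h6⟩ := hll _ (mem_vonNeumann.1 hx)
        exact ⟨V_ β, vonNeumann_mem_vonNeumann_iff.2 h2, ⟨β, h6, h4, rfl⟩, mem_vonNeumann.2 h3⟩)
    rw [hjW] at h2
    intro ξ hξ
    obtain ⟨U, hU, ⟨β, h3, h4, rfl⟩, h6⟩ := h2 ξ.toZFSet (ExtData.ordB hξ)
    rw [mem_vonNeumann, Ordinal.rank_toZFSet] at h6
    exact ⟨β, vonNeumann_mem_vonNeumann_iff.1 hU, h6, h4, h3⟩
  have hmemJ : ∀ {x : ZFSet.{u}}, x ∈ V_ ζ → j x ∈ V_ ζ' := by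
    intro x hx
    rw [← hjW]
    exact (D.E.mem_iff (D.E.bt.mem_trans hx hW) hW).1 hx
  have hjl : rank (j l.toZFSet) < ζ' := mem_vonNeumann.1 (hmemJ (ExtData.ordB hlζ))
  have hjα : rank (j α.toZFSet) < ζ' := mem_vonNeumann.1 (hmemJ (ExtData.ordB hαζ))
  have hαζ' : α < ζ' := (D.le_J hαη).trans_lt hjα
  obtain ⟨L, hL1, hL2, hL3⟩ := D.exists_lam hl hlη
  -- `j(S)` is ordinal definable
  have hjS : ∃ β < ζ', ODat (V_ β) (j S) := by
    have h2 := (D.E.el.t2 D.E.lvl D.nl (A := fun W S => ∃ U ∈ W, Lev U ∧ ODat U S)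
      (Dfn.bex Lvl_sub_Trs _ ((dfn_lev _).and (dfn_ODat _ _))) hW hSη).1
      ⟨V_ γ, vonNeumann_mem_vonNeumann_iff.2 hγζ, ⟨γ, rfl⟩, hγ⟩
    rw [hjW] at h2
    obtain ⟨U, hU, ⟨β, rfl⟩, h3⟩ := h2
    exact ⟨β, vonNeumann_mem_vonNeumann_iff.1 hU, h3⟩
  -- the set `j[α]`
  obtain ⟨A, hA⟩ : ∃ A : ZFSet.{u}, A = ZFSet.sep (fun ξ => Rec ξ (j S) L.toZFSet (j l.toZFSet))
    (j α.toZFSet) := ⟨_, rfl⟩
  have hAk : ∀ ξ, ξ ∈ A ↔ ξ ∈ j α.toZFSet ∧ Rec ξ (j S) L.toZFSet (j l.toZFSet) := by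
    intro ξ; rw [hA, mem_sep]
  have hαkz : α.toZFSet ⊆ k.toZFSet := by
    intro x hx
    obtain ⟨x, hx', rfl⟩ := Ordinal.mem_toZFSet_iff.1 hx
    exact tz_mem.2 (hx'.trans_le hαk)
  have hαV : α.toZFSet ∈ V_ η := ExtData.ordB hαη
  have hA' : ∀ ξ, ξ ∈ A ↔ ∃ i ∈ α.toZFSet, ξ = j i := by
    intro ξ
    rw [hAk]
    constructor
    · rintro ⟨h2, Z, hZL, hZ, B, hB, hξB, hZB⟩
      have h3 : ξ ∈ j k.toZFSet := (D.E.sub_iff hαV (ExtData.ordB hkη)).1 hαkz h2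
      obtain ⟨i, hi, rfl⟩ := D.stat_down hδL hl hlη hkη hμ hL1 hL2 hS h3 hZ hB hξB hZB
      exact ⟨i, (D.E.mem_iff (D.E.bt.mem_trans hi (ExtData.ordB hkη)) hαV).2 h2, rfl⟩
    · rintro ⟨i, hi, rfl⟩
      have hiη : i ∈ V_ η := D.E.bt.mem_trans hi hαV
      have hik := hαkz hi
      have hB := mem_powerset.1 (app_mem hS.1 hik)
      have hBη : app S i ∈ V_ η := Lvl_sub D.E.lvl (ExtData.ordB hlη) hB
      have hiB := app_spec hS.1 hik
      refine ⟨(D.E.mem_iff hiη hαV).1 hi, ZFSet.sep (fun z => z ∈ j (app S i)) L.toZFSet,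
        fun z hz => (mem_sep.1 hz).1, ?_, j (app S i),
        (D.E.sub_iff hBη (ExtData.ordB hlη)).1 hB, ?_, fun z hz => (mem_sep.1 hz).2⟩
      · intro C hC1 hC2
        obtain ⟨x, hx, h2, h3⟩ := D.stat_up hδL hl hlη hμ hL1 hL2 hB (hS.2.1 i hik _ hB hiB).1
          (hS.2.1 i hik _ hB hiB).2 hC2
        exact ⟨_, mem_sep.2 ⟨hC1 h3, (D.E.mem_iff (ExtData.ordB (hx.trans hlη)) hBη).1 h2⟩, h3⟩
      · rw [← D.E.pair_eq hiη hBη]
        exact (D.E.mem_iff (Lvl_pair D.E.lvl hiη hBη) hSη).1 hiB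
  -- the restriction of `j` to `α`
  have hjαe : j α.toZFSet = (rank (j α.toZFSet)).toZFSet := D.jJ hαη
  obtain ⟨g, hg⟩ : ∃ g : ZFSet.{u}, g = gr α.toZFSet (fun x => j x) := ⟨_, rfl⟩
  have hgf : IsFunc α.toZFSet (rank (j α.toZFSet)).toZFSet g := by
    rw [hg, ← hjαe]
    exact isFunc_gr fun x hx => (D.E.mem_iff (D.E.bt.mem_trans hx hαV) hαV).1 hx
  have hEn : Enum g A α.toZFSet (rank (j α.toZFSet)).toZFSet := by
    refine ⟨hgf, ?_, ?_, ?_⟩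
    · intro i hi a _ hia
      rw [hg, pair_mem_gr] at hia
      rw [← hia.2]
      exact (hA' _).2 ⟨i, hi, rfl⟩
    · intro i hi i' hi' a _ b _ hia hib
      rw [hg, pair_mem_gr] at hia hib
      rw [← hia.2, ← hib.2]
      exact (D.E.mem_iff (D.E.bt.mem_trans hib.1 hαV) (D.E.bt.mem_trans hi hαV)).1 hi'
    · intro i hi a _ hia b hb hbA
      rw [hg, pair_mem_gr] at hia
      rw [← hia.2] at hb
      obtain ⟨i', hi', rfl⟩ := (hA' b).1 hbA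
      refine ⟨i', (D.E.mem_iff (D.E.bt.mem_trans hi' hαV) (D.E.bt.mem_trans hi hαV)).2 hb, ?_⟩
      rw [hg, pair_mem_gr]
      exact ⟨hi', rfl⟩
  have hgOD : ∃ β < ζ', ODat (V_ β) g := by
    refine OD_of' (R := fun y x => ∃ A, A ⊆ x 2 ∧ (((∀ ξ ∈ A, Rec ξ (x 0) (x 3) (x 4)) ∧
        ∀ ξ ∈ x 2, Rec ξ (x 0) (x 3) (x 4) → ξ ∈ A) ∧ Enum y A (x 5) (x 2)))
      (x := asg (j S) (j S) (rank (j α.toZFSet)).toZFSet L.toZFSet
        (rank (j l.toZFSet)).toZFSet α.toZFSet) ?_ hll' hjS hjS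
      (asg_ord (isOrdinal_toZFSet _) (isOrdinal_toZFSet _) (isOrdinal_toZFSet _)
        (isOrdinal_toZFSet _))
      (ρ := max (rank (j α.toZFSet)) (max (rank (j l.toZFSet)) α))
      (max_lt hjα (max_lt hjl hαζ')) ?_ ?_ fun y => ?_
    · refine Dfn.exsub subset_rfl _ (Dfn.and (Dfn.and ?_ ?_) (dfn_Enum _ _ _ _))
      · exact Dfn.ball Lvl_sub_Trs _ (dfn_Rec _ _ _ _)
      · exact Dfn.ball Lvl_sub_Trs _ ((dfn_Rec _ _ _ _).imp (Dfn.mem _ _))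
    · intro i
      rcases i with _ | i
      · show rank (rank (j α.toZFSet)).toZFSet ≤ _
        rw [Ordinal.rank_toZFSet]
        exact le_max_left _ _
      rcases i with _ | i
      · show rank L.toZFSet ≤ _
        rw [Ordinal.rank_toZFSet]
        exact hL3.trans ((le_max_left _ _).trans (le_max_right _ _))
      rcases i with _ | i
      · show rank (rank (j l.toZFSet)).toZFSet ≤ _
        rw [Ordinal.rank_toZFSet]
        exact (le_max_left _ _).trans (le_max_right _ _)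
      · show rank α.toZFSet ≤ _
        rw [Ordinal.rank_toZFSet]
        exact (le_max_right _ _).trans (le_max_right _ _)
    · exact mem_vonNeumann.1 (Lvl_func hLvl' (ExtData.ordB hαζ') (ExtData.ordB hjα) hgf)
    · show (∃ A, A ⊆ (rank (j α.toZFSet)).toZFSet ∧
        (((∀ ξ ∈ A, Rec ξ (j S) L.toZFSet (rank (j l.toZFSet)).toZFSet) ∧
          ∀ ξ ∈ (rank (j α.toZFSet)).toZFSet, Rec ξ (j S) L.toZFSet
            (rank (j l.toZFSet)).toZFSet → ξ ∈ A) ∧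
          Enum y A α.toZFSet (rank (j α.toZFSet)).toZFSet)) ↔ _
      have hjle : j l.toZFSet = (rank (j l.toZFSet)).toZFSet := D.jJ hlη
      have hAk' : ∀ ξ, ξ ∈ A ↔ ξ ∈ (rank (j α.toZFSet)).toZFSet ∧
          Rec ξ (j S) L.toZFSet (rank (j l.toZFSet)).toZFSet := by
        intro ξ
        rw [← hjαe, ← hjle]
        exact hAk ξ
      constructor
      · rintro ⟨A', h2, ⟨h3, h4⟩, h6⟩
        have : A' = A := by
          ext ξ
          rw [hAk']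
          exact ⟨fun h => ⟨h2 h, h3 ξ h⟩, fun h => h4 ξ h.1 h.2⟩
        rw [this] at h6
        exact h6.unique hEn
      · rintro rfl
        exact ⟨A, fun ξ h => ((hAk' ξ).1 h).1, ⟨fun ξ h => ((hAk' ξ).1 h).2,
          fun ξ h2 h3 => (hAk' ξ).2 ⟨h2, h3⟩⟩, hEn⟩
  rw [hg] at hgOD
  exact ⟨ζ', D, h5, hαζ, hll, hζL, hjW, hll', hLvl', hgOD⟩

theorem exists_setup {δ : Ordinal.{u}} (hδ : Extendible δ) (hF : Families δ) (α p : Ordinal.{u}) :
    ∃ (ζ ζ' η θ τ : Ordinal.{u}) (j : ZFSet.{u} → ZFSet.{u}), p < ζ ∧ Setup δ ζ ζ' η θ τ j α := by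
  obtain ⟨ζ, h1, h2⟩ := exists_setup_all hδ hF α p
  obtain ⟨η, θ, τ, j, h5, D⟩ := hδ.data ζ
  obtain ⟨ζ', h3⟩ := h2 η θ τ j h5 D
  exact ⟨ζ, ζ', η, θ, τ, j, h1, h3⟩

end Pool.Agent.H639
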