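import Pool.Agent.H639.Jen1

/-!
Jensen-type covering: covers of size less than `δ` closed under a function.
-/

set_option autoImplicit false
set_option linter.unusedVariables false

namespace Pool.Agent.H639

open Pool.Agent.H310.HD Gss969 ZFSet Pool.Agent.Results.MP_e37c09_lc.AlternativeA

universe u

/-- There is a subset of `a` which contains `x`, is ordinal definable over a level in `W`, is the
range of a function from an element of `d`, and is closed under `F`. -/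
def CovC (W d a x F : ZFSet.{u}) : Prop :=
  ∃ T, T ⊆ a ∧ ((∃ U ∈ W, Lev U ∧ ODat U T) ∧ (x ⊆ T ∧
    ((∃ c ∈ d, ∃ g, IsFunc c a g ∧ ∀ y ∈ T, ∃ i ∈ c, pair i y ∈ g) ∧
    ∀ h, IsFunc a a h → ∀ y ∈ T, pair y h ∈ F → ∀ z ∈ T, ∀ w ∈ a, pair z w ∈ h → w ∈ T)))

theorem dfn_CovC (a b c d e : ℕ) :
    Dfn Lvl.{u} (fun v => CovC (v a) (v b) (v c) (v d) (v e)) := by
  unfold CovC
  repeat' first
    | exact Dfn.mem _ _ | exact dfn_pm Lvl_sub_Trs _ _ _ | exact dfn_lev _ | exact dfn_ODat _ _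
    | exact dfn_sub Lvl_sub_Trs _ _
    | refine Dfn.exsub subset_rfl _ ?_
    | refine Dfn.exfun _ _ ?_ | refine Dfn.allfun _ _ ?_ | refine Dfn.and ?_ ?_
    | refine Dfn.imp ?_ ?_
    | refine Dfn.ball Lvl_sub_Trs _ ?_ | refine Dfn.bex Lvl_sub_Trs _ ?_

/-- The binary function `F` on `γ` as a set. -/
noncomputable def Fgr (γ : Ordinal.{u}) (F : Ordinal.{u} → Ordinal.{u} → Ordinal.{u}) : ZFSet.{u} :=
  gr γ.toZFSet fun y => gr γ.toZFSet fun z => (F (rank y) (rank z)).toZFSet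

theorem isFunc_Fgr1 {γ : Ordinal.{u}} {F : Ordinal.{u} → Ordinal.{u} → Ordinal.{u}}
    (hF : ∀ y < γ, ∀ z < γ, F y z < γ) {y : ZFSet.{u}} (hy : y ∈ γ.toZFSet) :
    IsFunc γ.toZFSet γ.toZFSet (gr γ.toZFSet fun z => (F (rank y) (rank z)).toZFSet) := by
  refine isFunc_gr fun z hz => ?_
  obtain ⟨y, hy', rfl⟩ := Ordinal.mem_toZFSet_iff.1 hy
  obtain ⟨z, hz', rfl⟩ := Ordinal.mem_toZFSet_iff.1 hz
  rw [Ordinal.rank_toZFSet, Ordinal.rank_toZFSet]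
  exact tzm.2 (hF y hy' z hz')

theorem cover_closed {δ : Ordinal.{u}} (hδ : Extendible δ) (hFam : Families δ) {γ m : Ordinal.{u}}
    (hm : m < δ) (f : Ordinal.{u} → Ordinal.{u}) (hf : ∀ i < m, f i < γ)
    (F : Ordinal.{u} → Ordinal.{u} → Ordinal.{u}) (hF : ∀ y < γ, ∀ z < γ, F y z < γ) :
    ∃ T, HOD T ∧ T ⊆ γ.toZFSet ∧ (∀ i < m, (f i).toZFSet ∈ T) ∧
      (∃ c < δ, ∃ g : Ordinal.{u} → Ordinal.{u}, ∀ y : Ordinal.{u}, y.toZFSet ∈ T →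
        ∃ i < c, g i = y) ∧
      ∀ y z : Ordinal.{u}, y.toZFSet ∈ T → z.toZFSet ∈ T → (F y z).toZFSet ∈ T := by
  obtain ⟨ζ, ζ', η, θ, τ, j, _, G⟩ := exists_setup hδ hFam γ 0
  have D := G.D
  have hγη := G.hαζ.trans G.hζη
  have hγV : γ.toZFSet ∈ V_ η := ExtData.ordB hγη
  have hW : V_ ζ ∈ V_ η := vonNeumann_mem_vonNeumann_iff.2 G.hζη
  have hmη : m < η := hm.trans D.lt
  have hmV : m.toZFSet ∈ V_ η := ExtData.ordB hmη
  obtain ⟨e, he⟩ : ∃ e : ZFSet.{u}, e = gr m.toZFSet fun i => (f (rank i)).toZFSet := ⟨_, rfl⟩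
  have hef : IsFunc m.toZFSet γ.toZFSet e := by
    rw [he]
    refine isFunc_gr fun i hi => ?_
    obtain ⟨i, hi', rfl⟩ := Ordinal.mem_toZFSet_iff.1 hi
    rw [Ordinal.rank_toZFSet]
    exact tzm.2 (hf i hi')
  obtain ⟨x, hx⟩ : ∃ x : ZFSet.{u}, x = ZFSet.sep (fun y => ∃ i ∈ m.toZFSet, pair i y ∈ e)
    γ.toZFSet := ⟨_, rfl⟩
  have hxs : x ⊆ γ.toZFSet := by rw [hx]; exact sep_subset
  have hxη : x ∈ V_ η := Lvl_sub D.E.lvl hγV hxs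
  have heη : e ∈ V_ η := Lvl_func D.E.lvl hmV hγV hef
  have hFη : Fgr γ F ∈ V_ η := by
    have h1 : IsFunc γ.toZFSet (powerset (prod γ.toZFSet γ.toZFSet)) (Fgr γ F) :=
      isFunc_gr fun y hy => mem_powerset.2 (isFunc_Fgr1 hF hy).1
    exact Lvl_func D.E.lvl hγV (Lvl_powerset D.E.lvl (Lvl_prod D.E.lvl hγV hγV)) h1
  obtain ⟨g, hg⟩ : ∃ g : ZFSet.{u}, g = gr γ.toZFSet (fun x => j x) := ⟨_, rfl⟩
  have hjγe : j γ.toZFSet = (rank (j γ.toZFSet)).toZFSet := D.jJ hγη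
  have hgf : IsFunc γ.toZFSet (j γ.toZFSet) g := by
    rw [hg]
    exact isFunc_gr fun x hx => (D.E.mem_iff (D.E.bt.mem_trans hx hγV) hγV).1 hx
  have hgOD : ∃ β < ζ', ODat (V_ β) g := by rw [hg]; exact G.g
  have hmemJ : ∀ {x : ZFSet.{u}}, x ∈ V_ ζ → j x ∈ V_ ζ' := by
    intro x hx
    rw [← G.jW]
    exact (D.E.mem_iff (D.E.bt.mem_trans hx hW) hW).1 hx
  have hjγ : rank (j γ.toZFSet) < ζ' := mem_vonNeumann.1 (hmemJ (ExtData.ordB G.hαζ))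
  have hγζ' : γ < ζ' := (D.le_J hγη).trans_lt hjγ
  obtain ⟨T, hT⟩ : ∃ T : ZFSet.{u}, T = ZFSet.sep (fun ξ => ∃ i ∈ γ.toZFSet, pair i ξ ∈ g)
    (j γ.toZFSet) := ⟨_, rfl⟩
  have hT' : ∀ ξ, ξ ∈ T ↔ ∃ i ∈ γ.toZFSet, j i = ξ := by
    intro ξ
    rw [hT, mem_sep]
    constructor
    · rintro ⟨_, i, hi, h⟩
      rw [hg, pair_mem_gr] at h
      exact ⟨i, hi, h.2⟩
    · rintro ⟨i, hi, rfl⟩
      refine ⟨(D.E.mem_iff (D.E.bt.mem_trans hi hγV) hγV).1 hi, i, hi, ?_⟩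
      rw [hg, pair_mem_gr]
      exact ⟨hi, rfl⟩
  have hTs : T ⊆ j γ.toZFSet := by rw [hT]; exact sep_subset
  have hTOD : ∃ β < ζ', ODat (V_ β) T := by
    refine OD_of' (R := fun y x => (∀ ξ ∈ y, ξ ∈ x 2 ∧ ∃ i ∈ x 3, pair i ξ ∈ x 0) ∧
        ∀ ξ ∈ x 2, (∃ i ∈ x 3, pair i ξ ∈ x 0) → ξ ∈ y)
      (x := asg g g (rank (j γ.toZFSet)).toZFSet γ.toZFSet γ.toZFSet γ.toZFSet) ?_ G.ll' hgOD hgOD
      (asg_ord (isOrdinal_toZFSet _) (isOrdinal_toZFSet _) (isOrdinal_toZFSet _)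
        (isOrdinal_toZFSet _))
      (ρ := max (rank (j γ.toZFSet)) γ) (max_lt hjγ hγζ') ?_ ?_ fun y => ?_
    · refine Dfn.and ?_ ?_
      · exact Dfn.ball Lvl_sub_Trs _ ((Dfn.mem _ _).and (Dfn.bex Lvl_sub_Trs _
          (dfn_pm Lvl_sub_Trs _ _ _)))
      · exact Dfn.ball Lvl_sub_Trs _ ((Dfn.bex Lvl_sub_Trs _
          (dfn_pm Lvl_sub_Trs _ _ _)).imp (Dfn.mem _ _))
    · intro i
      rcases i with _ | i
      · show rank (rank (j γ.toZFSet)).toZFSet ≤ _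
        rw [Ordinal.rank_toZFSet]
        exact le_max_left _ _
      rcases i with _ | i
      · show rank γ.toZFSet ≤ _
        rw [Ordinal.rank_toZFSet]
        exact le_max_right _ _
      rcases i with _ | i
      · show rank γ.toZFSet ≤ _
        rw [Ordinal.rank_toZFSet]
        exact le_max_right _ _
      · show rank γ.toZFSet ≤ _
        rw [Ordinal.rank_toZFSet]
        exact le_max_right _ _
    · refine lt_of_le_of_lt (rank_mono hTs) hjγ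
    · rw [← hjγe]
      show ((∀ ξ ∈ y, ξ ∈ j γ.toZFSet ∧ ∃ i ∈ γ.toZFSet, pair i ξ ∈ g) ∧
        ∀ ξ ∈ j γ.toZFSet, (∃ i ∈ γ.toZFSet, pair i ξ ∈ g) → ξ ∈ y) ↔ _
      constructor
      · rintro ⟨h1, h2⟩
        ext ξ
        rw [hT, mem_sep]
        exact ⟨h1 ξ, fun h => h2 ξ h.1 h.2⟩
      · rintro rfl
        exact ⟨fun ξ hξ => by rw [hT, mem_sep] at hξ; exact hξ, fun ξ h1 h2 => by
          rw [hT, mem_sep]; exact ⟨h1, h2⟩⟩
  obtain ⟨β, hβ, hTβ⟩ := hTOD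
  have hcov : CovC (V_ ζ) δ.toZFSet γ.toZFSet x (Fgr γ F) := by
    refine (D.E.el.t5 D.E.lvl D.nl (A := fun a b c d e => CovC a b c d e) (dfn_CovC _ _ _ _ _) hW
      D.dB hγV hxη hFη).2 ?_
    rw [G.jW, D.jd]
    refine ⟨T, hTs, ⟨V_ β, vonNeumann_mem_vonNeumann_iff.2 hβ, ⟨β, rfl⟩, hTβ⟩, ?_,
      ⟨γ.toZFSet, tz_mem.2 (hγη.trans D.ητ), g, hgf, ?_⟩, ?_⟩
    · intro y hy
      have h2 := (D.E.el.t3 D.E.lvl D.nl (A := fun m x e => ∀ y ∈ x, ∃ i ∈ m, pair i y ∈ e) (by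
        repeat' first
          | exact Dfn.mem _ _ | exact dfn_pm Lvl_sub_Trs _ _ _
          | refine Dfn.ball Lvl_sub_Trs _ ?_ | refine Dfn.bex Lvl_sub_Trs _ ?_)
        hmV hxη heη).1 (fun y hy => by rw [hx, mem_sep] at hy; exact hy.2)
      rw [D.fix m hm] at h2
      obtain ⟨n, hn, hny⟩ := h2 y hy
      obtain ⟨n, hn', rfl⟩ := Ordinal.mem_toZFSet_iff.1 hn
      have hf' := D.E.func hmV hγV hef
      rw [D.fix m hm] at hf'
      have h3 := (app_iff hf' hn).1 hny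
      have h4 := D.E.app_eq hmV hγV hef hn
      rw [D.fix n (hn'.trans hm), h3] at h4
      exact (hT' y).2 ⟨app e n.toZFSet, app_mem hef hn, h4.symm⟩
    · intro y hy
      obtain ⟨i, hi, rfl⟩ := (hT' y).1 hy
      refine ⟨i, hi, ?_⟩
      rw [hg, pair_mem_gr]
      exact ⟨hi, rfl⟩
    · intro h hh y hy hyh z hz w hw hzw
      obtain ⟨y, hy', rfl⟩ := (hT' y).1 hy
      obtain ⟨z, hz', rfl⟩ := (hT' z).1 hz
      have hyη : y ∈ V_ η := D.E.bt.mem_trans hy' hγV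
      have hPη : powerset (prod γ.toZFSet γ.toZFSet) ∈ V_ η :=
        Lvl_powerset D.E.lvl (Lvl_prod D.E.lvl hγV hγV)
      have hFf : IsFunc γ.toZFSet (powerset (prod γ.toZFSet γ.toZFSet)) (Fgr γ F) :=
        isFunc_gr fun y hy => mem_powerset.2 (isFunc_Fgr1 hF hy).1
      have hjy : j y ∈ j γ.toZFSet := (D.E.mem_iff hyη hγV).1 hy'
      have hFy := isFunc_Fgr1 hF hy'
      have h1 := D.E.app_eq hγV hPη hFf hy'
      have h2 := (app_iff (D.E.func hγV hPη hFf) hjy).1 hyh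
      rw [h1] at h2
      have e1 : app (Fgr γ F) y = gr γ.toZFSet fun z => (F (rank y) (rank z)).toZFSet := app_gr hy'
      rw [e1] at h2
      have hzη : z ∈ V_ η := D.E.bt.mem_trans hz' hγV
      have hjz : j z ∈ j γ.toZFSet := (D.E.mem_iff hzη hγV).1 hz'
      have h3 := D.E.app_eq hγV hγV hFy hz'
      rw [h2] at h3
      have h4 := (app_iff hh hjz).1 hzw
      rw [h3] at h4
      exact (hT' w).2 ⟨_, app_mem hFy hz', h4⟩
  obtain ⟨T₁, hT1, ⟨U, _, ⟨β', rfl⟩, hU⟩, hxT, ⟨c, hc, g', hg', hcov'⟩, hcl⟩ := hcov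
  obtain ⟨c, hc', rfl⟩ := Ordinal.mem_toZFSet_iff.1 hc
  refine ⟨T₁, HOD_of_sub ⟨β', hU⟩ fun p hp => ?_, hT1, fun i hi => hxT ?_,
    ⟨c, tz_mem.1 hc, fun i => rank (app g' i.toZFSet), fun y hy => ?_⟩, fun y z hy hz => ?_⟩
  · exact (HOD_ord γ).mem (hT1 hp)
  · rw [hx, mem_sep]
    refine ⟨tzm.2 (hf i hi), i.toZFSet, tzm.2 hi, ?_⟩
    rw [he, pair_mem_gr, Ordinal.rank_toZFSet]
    exact ⟨tzm.2 hi, rfl⟩
  · obtain ⟨i, hi, hiy⟩ := hcov' _ hy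
    obtain ⟨i, hi', rfl⟩ := Ordinal.mem_toZFSet_iff.1 hi
    refine ⟨i, hi', ?_⟩
    show rank (app g' i.toZFSet) = y
    rw [(app_iff hg' hi).1 hiy, Ordinal.rank_toZFSet]
  · have hy' := hT1 hy
    have hz' := hT1 hz
    have h1 : (F y z).toZFSet ∈ γ.toZFSet := tzm.2 (hF y (tzm.1 hy') z (tzm.1 hz'))
    refine hcl _ (isFunc_Fgr1 hF hy') _ hy ?_ _ hz _ h1 ?_
    · exact pair_mem_gr.2 ⟨hy', rfl⟩
    · rw [pair_mem_gr, Ordinal.rank_toZFSet, Ordinal.rank_toZFSet]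
      exact ⟨hz', rfl⟩

end Pool.Agent.H639
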