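import Pool.Agent.H639.Jen2
import Pool.Graph.R_pool_sql_team_seeded_2aa45f1a.H310.HD.VSol

/-!
Jensen-type covering: sets of regular cardinality.
-/

set_option autoImplicit false
set_option linter.unusedVariables false

namespace Pool.Agent.H639

open Pool.Agent.H310.HD Gss969 ZFSet Pool.Agent.Results.MP_e37c09_lc.AlternativeA

universe u

/-- Infinite ordinals are equinumerous with their squares. -/
theorem exists_pairing {μ : Ordinal.{u}} (hμ : Ordinal.omega0 ≤ μ) :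
    ∃ s : Ordinal.{u} → Ordinal.{u} × Ordinal.{u}, ∀ a < μ, ∀ b < μ, ∃ i < μ, s i = (a, b) := by
  classical
  have hinf : Infinite (Set.Iio μ) := by
    rw [← Cardinal.aleph0_le_mk_iff]
    rw [Cardinal.mk_Iio_ordinal]
    have : Cardinal.aleph0 ≤ μ.card := by
      have := Ordinal.card_le_card hμ
      rwa [Ordinal.card_omega0] at this
    simpa using Cardinal.lift_le.2 this
  have h1 : Cardinal.mk (Set.Iio μ × Set.Iio μ) = Cardinal.mk (Set.Iio μ) := by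
    rw [← Cardinal.mul_def]
    exact Cardinal.mul_eq_self (Cardinal.aleph0_le_mk _)
  obtain ⟨e⟩ := Cardinal.eq.1 h1
  have key : ∀ (p : Set.Iio μ × Set.Iio μ) (h : (e p).1 < μ), e.symm ⟨(e p).1, h⟩ = p := by
    intro p h
    exact (congrArg e.symm (Subtype.ext rfl)).trans (e.symm_apply_apply p)
  refine ⟨fun i => if h : i < μ then ((e.symm ⟨i, h⟩).1.1, (e.symm ⟨i, h⟩).2.1) else (0, 0),
    fun a ha b hb => ⟨(e (⟨a, ha⟩, ⟨b, hb⟩)).1, (e (⟨a, ha⟩, ⟨b, hb⟩)).2, ?_⟩⟩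
  have h2 : (e (⟨a, ha⟩, ⟨b, hb⟩)).1 < μ := (e (⟨a, ha⟩, ⟨b, hb⟩)).2
  show (if h : (e (⟨a, ha⟩, ⟨b, hb⟩)).1 < μ then _ else _) = _
  rw [dif_pos h2, key]

/-- `T` has at most as many elements as `μ`. -/
def Few (μ : Ordinal.{u}) (T : ZFSet.{u}) : Prop :=
  ∃ g : Ordinal.{u} → Ordinal.{u}, ∀ y : Ordinal.{u}, y.toZFSet ∈ T → ∃ i < μ, g i = y

theorem Few.mono {μ μ' : Ordinal.{u}} {T : ZFSet.{u}} (h : Few μ T) (hμ : μ ≤ μ') : Few μ' T := by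
  obtain ⟨g, hg⟩ := h
  exact ⟨g, fun y hy => by obtain ⟨i, hi, h⟩ := hg y hy; exact ⟨i, hi.trans_le hμ, h⟩⟩

theorem Few.sub {μ : Ordinal.{u}} {T T' : ZFSet.{u}} (h : Few μ T) (hT : T' ⊆ T) : Few μ T' := by
  obtain ⟨g, hg⟩ := h
  exact ⟨g, fun y hy => hg y (hT hy)⟩

/-- A union of `μ` sets of size at most `μ`. -/
theorem few_union {μ : Ordinal.{u}} (hμ : Ordinal.omega0 ≤ μ) (T : Ordinal.{u} → ZFSet.{u})
    (hT : ∀ a < μ, Few μ (T a)) {B : ZFSet.{u}}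
    (hB : ∀ y : Ordinal.{u}, y.toZFSet ∈ B → ∃ a < μ, y.toZFSet ∈ T a) : Few μ B := by
  obtain ⟨s, hs⟩ := exists_pairing hμ
  choose! G hG using hT
  refine ⟨fun i => G (s i).1 (s i).2, fun y hy => ?_⟩
  obtain ⟨a, ha, hya⟩ := hB y hy
  obtain ⟨b, hb, hgb⟩ := hG a ha y hya
  obtain ⟨i, hi, hsi⟩ := hs a ha b hb
  exact ⟨i, hi, by simp only [hsi]; exact hgb⟩

/-- The statement which is transferred: the values of `v 4` are ordinal definable and cover the images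
under `v 5` of the sets of indices of stationary sets. -/
def PhiR (v : ℕ → ZFSet.{u}) : Prop :=
  ∀ α ∈ v 1, ∃ T, T ⊆ v 2 ∧ (pair α T ∈ v 4 ∧ ((∃ U ∈ v 6, Lev U ∧ ODat U T) ∧
    ((∃ c ∈ v 0, ∃ e, IsFunc c (v 1) e ∧
      ∀ i ∈ v 1, Rec i (v 3) α (v 1) → ∃ x ∈ c, pair x i ∈ e) →
      ∀ i ∈ v 1, Rec i (v 3) α (v 1) → ∀ y ∈ v 2, pair i y ∈ v 5 → y ∈ T)))

theorem dfn_PhiR : Dfn Lvl.{u} PhiR := by
  unfold PhiR
  repeat' first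
    | exact Dfn.mem _ _ | exact dfn_pm Lvl_sub_Trs _ _ _ | exact dfn_lev _ | exact dfn_ODat _ _
    | exact dfn_sub Lvl_sub_Trs _ _ | exact dfn_Rec _ _ _ _
    | refine Dfn.exsub subset_rfl _ ?_
    | refine Dfn.exfun _ _ ?_ | refine Dfn.allfun _ _ ?_ | refine Dfn.and ?_ ?_
    | refine Dfn.imp ?_ ?_
    | refine Dfn.ball Lvl_sub_Trs _ ?_ | refine Dfn.bex Lvl_sub_Trs _ ?_

/-- **Covering of sets of regular cardinality.** -/
theorem cover_reg {δ : Ordinal.{u}} (hδ : Extendible δ) (hFam : Families δ) {γ μ : Ordinal.{u}}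
    (hμ : RegUnc μ.toZFSet) (hδμ : δ ≤ μ) (f : Ordinal.{u} → Ordinal.{u})
    (hf : ∀ i < μ, f i < γ) :
    ∃ B, HOD B ∧ B ⊆ γ.toZFSet ∧ (∀ i < μ, (f i).toZFSet ∈ B) ∧ Few μ B := by
  classical
  have hωμ : Ordinal.omega0 ≤ μ := (hδ.om_lt.trans_le hδμ).le
  obtain ⟨P, hP⟩ := exists_fam_V hμ (le_refl μ)
  -- the covers
  have hT : ∀ α : Ordinal.{u}, ∃ T, HOD T ∧ T ⊆ γ.toZFSet ∧ Few δ T ∧
      ((∃ c ∈ δ.toZFSet, ∃ e, IsFunc c μ.toZFSet e ∧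
        ∀ i ∈ μ.toZFSet, Rec i P α.toZFSet μ.toZFSet → ∃ x ∈ c, pair x i ∈ e) →
        ∀ i < μ, Rec (Ordinal.toZFSet i) P α.toZFSet μ.toZFSet → (f i).toZFSet ∈ T) := by
    intro α
    by_cases h : ∃ c ∈ δ.toZFSet, ∃ e, IsFunc c μ.toZFSet e ∧
        ∀ i ∈ μ.toZFSet, Rec i P α.toZFSet μ.toZFSet → ∃ x ∈ c, pair x i ∈ e
    · obtain ⟨c, hc, e, he, hce⟩ := h
      obtain ⟨c, hc', rfl⟩ := Ordinal.mem_toZFSet_iff.1 hc
      obtain ⟨T, h1, h2, h3, ⟨c', hc'', h4⟩, _⟩ := cover_closed hδ hFam (γ := γ) hc'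
        (fun x => f (rank (app e x.toZFSet))) (fun x hx => by
          obtain ⟨i, hi, h5⟩ := Ordinal.mem_toZFSet_iff.1 (app_mem he (tzm.2 hx))
          show f (rank (app e x.toZFSet)) < γ
          rw [← h5, Ordinal.rank_toZFSet]
          exact hf i hi) (fun y _ => y) (fun y hy _ _ => hy)
      refine ⟨T, h1, h2, Few.mono h4 hc''.le, fun _ i hi hr => ?_⟩
      obtain ⟨x, hx, hxi⟩ := hce _ (tzm.2 hi) hr
      obtain ⟨x, hx', rfl⟩ := Ordinal.mem_toZFSet_iff.1 hx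
      have h5 := h3 x hx'
      rwa [(app_iff he hx).1 hxi, Ordinal.rank_toZFSet] at h5
    · refine ⟨∅, HOD_empty, fun x hx => absurd hx (ZFSet.notMem_empty x), ⟨id, fun y hy =>
        absurd hy (ZFSet.notMem_empty _)⟩, fun h' => absurd h' h⟩
  choose Tf hT1 hT2 hT3 hT4 using hT
  choose Lf hLf using fun α => (hT1 α).od
  -- bounds for the levels
  obtain ⟨σ, hσ⟩ : ∃ σ : Ordinal.{u}, ∀ α < μ, Lf α < σ := by
    refine ⟨Order.succ (⨆ w : {w // w ∈ μ.toZFSet}, Lf (rank w.1)), fun α hα => ?_⟩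
    refine Order.lt_succ_iff.2 ?_
    have := Ordinal.le_iSup (fun w : {w // w ∈ μ.toZFSet} => Lf (rank w.1)) ⟨_, tzm.2 hα⟩
    simpa only [Ordinal.rank_toZFSet] using this
  obtain ⟨ζ, ζ', η, θ, τ, j, hσζ, G⟩ := exists_setup hδ hFam (max γ μ) σ
  have D := G.D
  have hδL := hδ.lim
  have hγμη := G.hαζ.trans G.hζη
  have hγη : γ < η := (le_max_left _ _).trans_lt hγμη
  have hμη : μ < η := (le_max_right _ _).trans_lt hγμη
  have hγV : γ.toZFSet ∈ V_ η := ExtData.ordB hγη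
  have hμV : μ.toZFSet ∈ V_ η := ExtData.ordB hμη
  have hW : V_ ζ ∈ V_ η := vonNeumann_mem_vonNeumann_iff.2 G.hζη
  obtain ⟨Tg, hTg⟩ : ∃ Tg : ZFSet.{u}, Tg = gr μ.toZFSet fun α => Tf (rank α) := ⟨_, rfl⟩
  have hTgf : IsFunc μ.toZFSet (powerset γ.toZFSet) Tg := by
    rw [hTg]
    exact isFunc_gr fun α _ => mem_powerset.2 (hT2 _)
  have hTgη : Tg ∈ V_ η := Lvl_func D.E.lvl hμV (Lvl_powerset D.E.lvl hγV) hTgf
  obtain ⟨fz, hfz⟩ : ∃ fz : ZFSet.{u}, fz = gr μ.toZFSet fun i => (f (rank i)).toZFSet := ⟨_, rfl⟩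
  have hfzf : IsFunc μ.toZFSet γ.toZFSet fz := by
    rw [hfz]
    refine isFunc_gr fun i hi => ?_
    obtain ⟨i, hi', rfl⟩ := Ordinal.mem_toZFSet_iff.1 hi
    rw [Ordinal.rank_toZFSet]
    exact tzm.2 (hf i hi')
  have hfzη : fz ∈ V_ η := Lvl_func D.E.lvl hμV hγV hfzf
  have hPη : P ∈ V_ η := Lvl_func D.E.lvl hμV (Lvl_powerset D.E.lvl hμV) hP.1
  -- the supremum `L` of the image of `μ`
  obtain ⟨L, hL1, hL2, hL3⟩ := D.exists_lam hμ hμη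
  have hjμe : j μ.toZFSet = (rank (j μ.toZFSet)).toZFSet := D.jJ hμη
  have hjμR : RegUnc (j μ.toZFSet) :=
    (D.E.el.t1 D.E.lvl D.nl (A := fun a => RegUnc a) (dfn_RegUnc _) hμV).1 hμ
  have hμτ : μ < τ := hμη.trans D.ητ
  have hτμ : τ ≤ rank (j μ.toZFSet) := by
    rcases hδμ.lt_or_eq with h | h
    · have h2 := (D.J_lt D.lt hμη).1 h
      rw [D.jd, Ordinal.rank_toZFSet] at h2
      exact h2.le
    · rw [← h, D.jd, Ordinal.rank_toZFSet]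
  have hμjμ : μ.toZFSet ∈ j μ.toZFSet := by
    rw [hjμe]; exact tzm.2 (hμτ.trans_le hτμ)
  obtain ⟨gμ, hgμ⟩ : ∃ gμ : ZFSet.{u}, gμ = gr μ.toZFSet (fun x => j x) := ⟨_, rfl⟩
  have hgμf : IsFunc μ.toZFSet (j μ.toZFSet) gμ := by
    rw [hgμ]
    exact isFunc_gr fun x hx => (D.E.mem_iff (D.E.bt.mem_trans hx hμV) hμV).1 hx
  have hLlt : L < rank (j μ.toZFSet) := by
    obtain ⟨b, hb, hbb⟩ := hjμR.2.2 _ hμjμ gμ hgμf
    rw [hjμe] at hb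
    obtain ⟨b, hb', rfl⟩ := Ordinal.mem_toZFSet_iff.1 hb
    refine lt_of_le_of_lt (not_lt.1 fun hc => ?_) hb'
    obtain ⟨x, hx, h1⟩ := hL2 b hc
    have h2 := hbb x.toZFSet (tzm.2 hx) (j x.toZFSet)
      ((D.E.mem_iff (ExtData.ordB (hx.trans hμη)) hμV).1 (tzm.2 hx)) (by
        rw [hgμ, pair_mem_gr]; exact ⟨tzm.2 hx, rfl⟩)
    rw [D.jJ (hx.trans hμη), tzm] at h2
    exact lt_asymm h1 h2
  have hLj : L.toZFSet ∈ j μ.toZFSet := by rw [hjμe]; exact tzm.2 hLlt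
  -- the transferred statement
  have hPhi : PhiR (asg7 δ.toZFSet μ.toZFSet γ.toZFSet P Tg fz (V_ ζ)) := by
    intro α hα
    obtain ⟨α, hα', rfl⟩ := Ordinal.mem_toZFSet_iff.1 hα
    refine ⟨Tf α, hT2 α, ?_, ⟨V_ (Lf α), vonNeumann_mem_vonNeumann_iff.2 ((hσ α hα').trans hσζ),
      ⟨_, rfl⟩, hLf α⟩, fun hc i hi hr y hy hiy => ?_⟩
    · show pair α.toZFSet (Tf α) ∈ Tg
      rw [hTg, pair_mem_gr, Ordinal.rank_toZFSet]
      exact ⟨hα, rfl⟩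
    · obtain ⟨i, hi', rfl⟩ := Ordinal.mem_toZFSet_iff.1 hi
      have h1 := hT4 α hc i hi' hr
      have h2 : pair i.toZFSet y ∈ fz := hiy
      rw [hfz, pair_mem_gr, Ordinal.rank_toZFSet] at h2
      rwa [h2.2] at h1
  have hPhi' := (D.E.el.transfer dfn_PhiR D.E.lvl D.nl _
    (asg7_mem D.dB hμV hγV hPη hTgη hfzη hW)).1 hPhi
  obtain ⟨T, hTs, hLT, ⟨U, _, ⟨β, rfl⟩, hU⟩, hTc⟩ := hPhi' L.toZFSet hLj
  have hTs' : T ⊆ j γ.toZFSet := hTs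
  have hLT' : pair L.toZFSet T ∈ j Tg := hLT
  have hωδ := hδ.om_lt
  -- the indices
  have hrec : ∀ i ∈ μ.toZFSet, Rec (j i) (j P) L.toZFSet (j μ.toZFSet) := by
    intro i hi
    have hiη : i ∈ V_ η := D.E.bt.mem_trans hi hμV
    have hB := mem_powerset.1 (app_mem hP.1 hi)
    have hBη : app P i ∈ V_ η := Lvl_sub D.E.lvl hμV hB
    have hiB := app_spec hP.1 hi
    refine ⟨ZFSet.sep (fun z => z ∈ j (app P i)) L.toZFSet,
      fun z hz => (mem_sep.1 hz).1, ?_, j (app P i),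
      (D.E.sub_iff hBη hμV).1 hB, ?_, fun z hz => (mem_sep.1 hz).2⟩
    · intro C hC1 hC2
      obtain ⟨x, hx, h2, h3⟩ := D.stat_up hδL hμ hμη hωδ hL1 hL2 hB (hP.2.1 i hi _ hB hiB).1
        (hP.2.1 i hi _ hB hiB).2 hC2
      exact ⟨_, mem_sep.2 ⟨hC1 h3, (D.E.mem_iff (ExtData.ordB (hx.trans hμη)) hBη).1 h2⟩, h3⟩
    · rw [← D.E.pair_eq hiη hBη]
      exact (D.E.mem_iff (Lvl_pair D.E.lvl hiη hBη) hPη).1 hiB
  have hTc' := hTc ⟨μ.toZFSet, by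
    show μ.toZFSet ∈ j δ.toZFSet
    rw [D.jd]; exact tzm.2 hμτ, gμ, hgμf, by
    rintro ξ hξ ⟨Z, hZL, hZ, B, hB, hξB, hZB⟩
    obtain ⟨i, hi, rfl⟩ := D.stat_down hδL hμ hμη hμη hωδ hL1 hL2 hP hξ hZ hB hξB hZB
    refine ⟨i, hi, ?_⟩
    rw [hgμ, pair_mem_gr]
    exact ⟨hi, rfl⟩⟩
  -- the cover
  obtain ⟨g, hg⟩ : ∃ g : ZFSet.{u}, g = gr (max γ μ).toZFSet (fun x => j x) := ⟨_, rfl⟩
  have hgO : OD g := by
    obtain ⟨β', _, h⟩ := G.g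
    rw [hg]; exact ⟨β', h⟩
  obtain ⟨B, hB⟩ : ∃ B : ZFSet.{u}, B = ZFSet.sep (fun ξ => ∃ y ∈ T, pair ξ y ∈ g) γ.toZFSet :=
    ⟨_, rfl⟩
  have hB' : ∀ y : Ordinal.{u}, y.toZFSet ∈ B ↔ y < γ ∧ j y.toZFSet ∈ T := by
    intro y
    rw [hB, mem_sep, tzm]
    refine and_congr_right fun hy => ?_
    constructor
    · rintro ⟨w, hw, h⟩
      rw [hg, pair_mem_gr] at h
      rwa [h.2]
    · intro h
      refine ⟨_, h, ?_⟩
      rw [hg, pair_mem_gr]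
      exact ⟨tzm.2 (hy.trans_le (le_max_left _ _)), rfl⟩
  have hBs : B ⊆ γ.toZFSet := by rw [hB]; exact sep_subset
  have hBO : OD B := by
    refine OD_of (R := fun y x => (∀ ξ ∈ y, ξ ∈ x 2 ∧ ∃ w ∈ x 0, pair ξ w ∈ x 1) ∧
        ∀ ξ ∈ x 2, (∃ w ∈ x 0, pair ξ w ∈ x 1) → ξ ∈ y)
      (x := asg T g γ.toZFSet γ.toZFSet γ.toZFSet γ.toZFSet) ?_ ⟨β, hU⟩ hgO
      (asg_ord (isOrdinal_toZFSet _) (isOrdinal_toZFSet _) (isOrdinal_toZFSet _)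
        (isOrdinal_toZFSet _)) fun y => ?_
    · refine Dfn.and ?_ ?_
      · exact Dfn.ball Lvl_sub_Trs _ ((Dfn.mem _ _).and (Dfn.bex Lvl_sub_Trs _
          (dfn_pm Lvl_sub_Trs _ _ _)))
      · exact Dfn.ball Lvl_sub_Trs _ ((Dfn.bex Lvl_sub_Trs _
          (dfn_pm Lvl_sub_Trs _ _ _)).imp (Dfn.mem _ _))
    · show ((∀ ξ ∈ y, ξ ∈ γ.toZFSet ∧ ∃ w ∈ T, pair ξ w ∈ g) ∧
        ∀ ξ ∈ γ.toZFSet, (∃ w ∈ T, pair ξ w ∈ g) → ξ ∈ y) ↔ _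
      constructor
      · rintro ⟨h1, h2⟩
        ext ξ
        rw [hB, mem_sep]
        exact ⟨h1 ξ, fun h => h2 ξ h.1 h.2⟩
      · rintro rfl
        exact ⟨fun ξ hξ => by rw [hB, mem_sep] at hξ; exact hξ, fun ξ h1 h2 => by
          rw [hB, mem_sep]; exact ⟨h1, h2⟩⟩
  refine ⟨B, HOD_of_sub hBO fun p hp => (HOD_ord γ).mem (hBs hp), hBs, fun i hi => ?_, ?_⟩
  · rw [hB']
    refine ⟨hf i hi, ?_⟩
    have h1 := D.E.app_eq hμV hγV hfzf (tzm.2 hi)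
    have e1 : app fz i.toZFSet = (f i).toZFSet := by
      rw [hfz, app_gr (tzm.2 hi), Ordinal.rank_toZFSet]
    rw [e1] at h1
    have hji : j i.toZFSet ∈ j μ.toZFSet :=
      (D.E.mem_iff (ExtData.ordB (hi.trans hμη)) hμV).1 (tzm.2 hi)
    refine hTc' (j i.toZFSet) hji (hrec _ (tzm.2 hi)) _ ?_ ?_
    · exact (D.E.mem_iff (ExtData.ordB ((hf i hi).trans hγη)) hγV).1 (tzm.2 (hf i hi))
    · exact (app_iff (D.E.func hμV hγV hfzf) hji).2 h1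
  · refine few_union hωμ Tf (fun a _ => (hT3 a).mono hδμ) fun y hy => ?_
    obtain ⟨hyγ, hyT⟩ := (hB' y).1 hy
    have hyη := hyγ.trans hγη
    have h1 := (D.E.el.t4 D.E.lvl D.nl (A := fun a b c d => ∃ α ∈ b, ∃ T, T ⊆ c ∧
      (pair α T ∈ d ∧ a ∈ T)) (by
        repeat' first
          | exact Dfn.mem _ _ | exact dfn_pm Lvl_sub_Trs _ _ _ | refine Dfn.and ?_ ?_
          | refine Dfn.exsub subset_rfl _ ?_
          | refine Dfn.ball Lvl_sub_Trs _ ?_ | refine Dfn.bex Lvl_sub_Trs _ ?_)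
      (ExtData.ordB hyη) hμV hγV hTgη).2 ⟨L.toZFSet, hLj, T, hTs', hLT', hyT⟩
    obtain ⟨α, hα, T', _, h2, h3⟩ := h1
    obtain ⟨α, hα', rfl⟩ := Ordinal.mem_toZFSet_iff.1 hα
    rw [hTg, pair_mem_gr, Ordinal.rank_toZFSet] at h2
    rw [← h2.2] at h3
    exact ⟨α, hα', h3⟩

end Pool.Agent.H639
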