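import Pool.Agent.H639.NM2

/-!
More on normal measures of HOD: diagonal intersections, partitions, values of functions.
-/

set_option autoImplicit false
set_option linter.unusedVariables false

namespace Pool.Agent.H639

open ZFSet Gss969 Pool.Agent.H310.HD

universe u

variable {l β : Ordinal.{u}} {U W : ZFSet.{u}}

theorem mem_of_pair {V a b : ZFSet.{u}} (hV : V ∈ Lvl.{u}) (h : pair a b ∈ V) : a ∈ V ∧ b ∈ V := by
  have ht := Lvl_sub_Trs hV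
  have h1 : ({a, b} : ZFSet.{u}) ∈ V := ht.mem_trans (by simp [pair]) h
  exact ⟨ht.mem_trans (by simp) h1, ht.mem_trans (by simp) h1⟩

theorem dfn_fst (i j : ℕ) : Dfn Lvl.{u} (fun v => ∃ b, v i = pair (v j) b) := by
  refine Dfn.ex (A := fun b v => v i = pair (v j) b) (dfn_pair Lvl_sub_Trs _ _ _) ?_
  rintro V hV v hv ⟨b, h⟩
  exact ⟨b, (mem_of_pair hV (h ▸ hv i)).2, h⟩

/-- `x` is an element of the value of `f` at `a`. -/
def InF (f a x : ZFSet.{u}) : Prop := ∃ F, pair a F ∈ f ∧ x ∈ F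

theorem dfn_InF (i j k : ℕ) : Dfn Lvl.{u} (fun v => InF (v i) (v j) (v k)) := by
  unfold InF
  refine Dfn.ex (A := fun F v => pair (v j) F ∈ v i ∧ v k ∈ F)
    ((dfn_pm Lvl_sub_Trs _ _ _).and (Dfn.mem _ _)) ?_
  rintro V hV v hv ⟨F, h1, h2⟩
  exact ⟨F, (mem_of_pair hV ((Lvl_sub_Trs hV).mem_trans h1 (hv i))).2, h1, h2⟩

theorem HOD_gr_restrict {X X' : ZFSet.{u}} {F : ZFSet.{u} → ZFSet.{u}} (h : HOD (gr X F))
    (hX' : HOD X') (hs : X' ⊆ X) : HOD (gr X' F) := by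
  have h1 := HOD_sep4 (Ψ := fun v => ∃ a ∈ v 2, ∃ b, v 0 = pair a b) (A := gr X F) (p := X')
    (q := ∅) (r := ∅) (Dfn.bex Lvl_sub_Trs _ (dfn_fst _ _)) h hX' HOD_empty HOD_empty 0 0 0 0 0
  have e : gr X' F = ZFSet.sep (fun p => ∃ a ∈ X', ∃ b, p = pair a b) (gr X F) := by
    ext p
    rw [mem_gr, mem_sep, mem_gr]
    constructor
    · rintro ⟨x, hx, rfl⟩
      exact ⟨⟨x, hs hx, rfl⟩, x, hx, _, rfl⟩
    · rintro ⟨⟨x, hx, rfl⟩, a, ha, b, hb⟩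
      rw [pair_inj] at hb
      exact ⟨x, hb.1 ▸ ha, rfl⟩
  rw [e]
  exact h1

namespace NMeas

theorem mem_l (h : NMeas l.toZFSet U) (hl : 0 < l) : l.toZFSet ∈ U := by
  by_contra hc
  have h1 := h.compl_mem (fun _ h => h) (HOD_ord l) hc
  obtain ⟨y, hy, _⟩ := h.unb _ h1 _ (tzm.2 hl)
  rw [mem_dif] at hy
  exact hy.2 hy.1

/-- Partitions into fewer than `l` pieces. -/
theorem part (h : NMeas l.toZFSet U) (hl : 2 < l) {X : ZFSet.{u}} (hX : X ∈ U) {k : Ordinal.{u}}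
    (hk : k < l) {F : ZFSet.{u} → ZFSet.{u}} (hF : HOD (gr X F)) (hFk : ∀ x ∈ X, F x ∈ k.toZFSet) :
    ∃ y ∈ k.toZFSet, ZFSet.sep (fun x => F x = y) X ∈ U := by
  have h1 := h.inter2 hl hX (h.tail hk)
  obtain ⟨y, hy, h2⟩ := h.fod h1 (HOD_gr_restrict hF (h.hodm h1) fun z hz => (mem_inter.1 hz).1)
    (fun x hx => by
      obtain ⟨h3, h4⟩ := mem_inter.1 hx
      obtain ⟨h5, h6⟩ := mem_sep.1 h4
      obtain ⟨x, hx', rfl⟩ := Ordinal.mem_toZFSet_iff.1 h5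
      exact (isOrdinal_toZFSet x).isTransitive.mem_trans (hFk _ h3) h6)
  obtain ⟨x, hx, _⟩ := h.unb _ h2 _ hy
  obtain ⟨h3, h4⟩ := mem_sep.1 hx
  have hyk : y ∈ k.toZFSet := by rw [← h4]; exact hFk x (mem_inter.1 h3).1
  refine ⟨y, hyk, h.up _ h2 _ (fun z hz => h.sub X hX (mem_sep.1 hz).1) ?_ fun z hz => ?_⟩
  · obtain ⟨y', hy', rfl⟩ := Ordinal.mem_toZFSet_iff.1 hyk
    have h5 := HOD_sep4 (Ψ := fun v => pair (v 0) (v 5) ∈ v 2) (A := X) (p := gr X F)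
      (q := ∅) (r := ∅) (dfn_pm Lvl_sub_Trs _ _ _) (h.hodm hX) hF HOD_empty HOD_empty y' 0 0 0 0
    have e : ZFSet.sep (fun x => F x = y'.toZFSet) X =
        ZFSet.sep (fun x => pair x y'.toZFSet ∈ gr X F) X := by
      ext z
      rw [mem_sep, mem_sep, pair_mem_gr]
      exact ⟨fun h => ⟨h.1, h.1, h.2⟩, fun h => ⟨h.1, h.2.2⟩⟩
    rw [e]
    exact h5
  · obtain ⟨h5, h6⟩ := mem_sep.1 hz
    exact mem_sep.2 ⟨(mem_inter.1 h5).1, h6⟩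

/-- Diagonal intersections. -/
theorem diag (h : NMeas l.toZFSet U) (hl : 2 < l) {F : ZFSet.{u} → ZFSet.{u}}
    (hF : HOD (gr l.toZFSet F)) (hFU : ∀ i ∈ l.toZFSet, F i ∈ U) :
    ZFSet.sep (fun x => ∀ i ∈ x, x ∈ F i) l.toZFSet ∈ U := by
  classical
  have ht := (isOrdinal_toZFSet l).isTransitive
  have hval : ∀ x ∈ l.toZFSet, ∀ i ∈ x, (InF (gr l.toZFSet F) i x ↔ x ∈ F i) := by
    intro x hx i hi
    constructor
    · rintro ⟨Y, h1, h2⟩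
      rw [(pair_mem_gr.1 h1).2]; exact h2
    · intro h1
      exact ⟨_, pair_mem_gr.2 ⟨ht.mem_trans hi hx, rfl⟩, h1⟩
  have hH : HOD (ZFSet.sep (fun x => ∀ i ∈ x, x ∈ F i) l.toZFSet) := by
    have h1 := HOD_sep4 (Ψ := fun v => ∀ i ∈ v 0, InF (v 2) i (v 0)) (A := l.toZFSet)
      (p := gr l.toZFSet F) (q := ∅) (r := ∅) (Dfn.ball Lvl_sub_Trs _ (dfn_InF _ _ _))
      (HOD_ord l) hF HOD_empty HOD_empty 0 0 0 0 0
    have e : ZFSet.sep (fun x => ∀ i ∈ x, x ∈ F i) l.toZFSet =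
        ZFSet.sep (fun x => ∀ i ∈ x, InF (gr l.toZFSet F) i x) l.toZFSet := by
      ext x
      rw [mem_sep, mem_sep]
      exact and_congr_right fun hx => forall₂_congr fun i hi => (hval x hx i hi).symm
    rw [e]
    exact h1
  by_contra hc
  have h1 := h.compl_mem sep_subset hH hc
  -- the least bad index
  have h2 : ∀ x ∈ dif l.toZFSet (ZFSet.sep (fun x => ∀ i ∈ x, x ∈ F i) l.toZFSet),
      ∃ i ∈ x, ¬ x ∈ F i ∧ ∀ i' ∈ i, x ∈ F i' := by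
    intro x hx
    rw [mem_dif, mem_sep] at hx
    have h3 : ¬ ∀ i ∈ x, x ∈ F i := fun h4 => hx.2 ⟨hx.1, h4⟩
    push Not at h3
    obtain ⟨ξ, hξ, rfl⟩ := Ordinal.mem_toZFSet_iff.1 hx.1
    obtain ⟨i, ⟨hi1, hi2⟩, hmin⟩ := WellFounded.has_min (wellFounded_lt (α := Ordinal.{u}))
      {i | i < ξ ∧ ¬ ξ.toZFSet ∈ F i.toZFSet} (by
        obtain ⟨i, hi, h4⟩ := h3
        obtain ⟨i, hi', rfl⟩ := Ordinal.mem_toZFSet_iff.1 hi
        exact ⟨i, hi', h4⟩)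
    refine ⟨i.toZFSet, tzm.2 hi1, hi2, fun i' hi' => ?_⟩
    obtain ⟨i', hi'', rfl⟩ := Ordinal.mem_toZFSet_iff.1 hi'
    by_contra h5
    exact hmin i' ⟨hi''.trans hi1, h5⟩ hi''
  choose! G hG using h2
  have hGu : ∀ x ∈ l.toZFSet, ∀ i ∈ x, ∀ i' ∈ x, (¬ x ∈ F i ∧ ∀ j ∈ i, x ∈ F j) →
      (¬ x ∈ F i' ∧ ∀ j ∈ i', x ∈ F j) → i = i' := by
    intro x hx i hi i' hi' h3 h4
    obtain ⟨i, _, rfl⟩ := Ordinal.mem_toZFSet_iff.1 (ht.mem_trans hi hx)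
    obtain ⟨i', _, rfl⟩ := Ordinal.mem_toZFSet_iff.1 (ht.mem_trans hi' hx)
    rcases lt_trichotomy i i' with h5 | h5 | h5
    · exact absurd (h4.2 _ (tzm.2 h5)) h3.1
    · rw [h5]
    · exact absurd (h3.2 _ (tzm.2 h5)) h4.1
  have hGH : HOD (gr (dif l.toZFSet (ZFSet.sep (fun x => ∀ i ∈ x, x ∈ F i) l.toZFSet)) G) := by
    refine HOD_gr4 (Ψ := fun v => v 0 ∈ v 1 ∧ (¬ InF (v 4) (v 0) (v 1) ∧
        ∀ j ∈ v 0, InF (v 4) j (v 1)))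
      ((Dfn.mem _ _).and ((dfn_InF _ _ _).not.and (Dfn.ball Lvl_sub_Trs _ (dfn_InF _ _ _))))
      (h.hodm h1) (HOD_ord l) hF HOD_empty 0 0 0 0 fun x hx => ?_
    have hxl := (mem_dif.1 hx).1
    have h3 := hG x hx
    refine ⟨ht.mem_trans h3.1 hxl, fun y hy => ?_⟩
    show (y ∈ x ∧ (¬ InF (gr l.toZFSet F) y x ∧ ∀ j ∈ y, InF (gr l.toZFSet F) j x)) ↔ _
    have htx : x.IsTransitive := by
      obtain ⟨ξ, _, rfl⟩ := Ordinal.mem_toZFSet_iff.1 hxl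
      exact (isOrdinal_toZFSet ξ).isTransitive
    constructor
    · rintro ⟨h4, h5, h6⟩
      refine hGu x hxl y h4 _ h3.1 ⟨?_, fun j hj => ?_⟩ h3.2
      · rw [← hval x hxl y h4]; exact h5
      · rw [← hval x hxl j (htx.mem_trans hj h4)]; exact h6 j hj
    · rintro rfl
      refine ⟨h3.1, ?_, fun j hj => ?_⟩
      · rw [hval x hxl _ h3.1]; exact h3.2.1
      · rw [hval x hxl j (htx.mem_trans hj h3.1)]; exact h3.2.2 j hj
  obtain ⟨y, hy, h3⟩ := h.fod h1 hGH fun x hx => (hG x hx).1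
  obtain ⟨z, hz, hz'⟩ := h.disj hl h3 (hFU y hy)
  obtain ⟨h4, h5⟩ := mem_sep.1 hz
  have h6 := (hG z h4).2.1
  rw [h5] at h6
  exact h6 hz'

end NMeas

end Pool.Agent.H639
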