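import Pool.Agent.H639.Jen3
import Pool.Agent.H639.Los

/-!
Enumerations in HOD.
-/

set_option autoImplicit false
set_option linter.unusedVariables false

namespace Pool.Agent.H639

open Pool.Agent.H310.HD Gss969 ZFSet Pool.Agent.Results.MP_e37c09_lc.AlternativeA

universe u

/-- Every set in HOD is enumerated by a sequence in HOD. -/
theorem exists_enum {Q : ZFSet.{u}} (hQ : HOD Q) (h0 : ∅ ∈ Q) :
    ∃ (κ : Ordinal.{u}) (E : Ordinal.{u} → ZFSet.{u}), HOD (gz κ E) ∧ (∀ i, E i ∈ Q) ∧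
      ∀ X ∈ Q, ∃ i < κ, E i = X := by
  obtain ⟨W, hW, hWO, _⟩ := exists_wo hQ
  obtain ⟨Φ, hΦ⟩ : ∃ Φ : (ℕ → ZFSet.{u}) → Prop, Φ = fun v => ∀ j ∈ v 2, ¬ pair j (v 0) ∈ v 1 :=
    ⟨_, rfl⟩
  have hD : Dfn Lvl.{u} Φ := by
    rw [hΦ]
    exact Dfn.ball Lvl_sub_Trs _ (dfn_pm Lvl_sub_Trs _ _ _).not
  obtain ⟨E, hE⟩ : ∃ E : Ordinal.{u} → ZFSet.{u}, E = rc (fun X f i => Φ (as X f i Q ∅ ∅
    (0 : Ordinal.{u}).toZFSet (0 : Ordinal.{u}).toZFSet (0 : Ordinal.{u}).toZFSet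
    (0 : Ordinal.{u}).toZFSet)) Q W := ⟨_, rfl⟩
  have hEH : ∀ κ, HOD (gz κ E) := by
    intro κ
    rw [hE]
    exact HOD_rc hD hQ hW hWO h0 HOD_empty HOD_empty 0 0 0 0 κ
  have hEQ : ∀ i, E i ∈ Q := by
    intro i
    rw [hE]
    exact rc_mem _ hWO h0 i
  suffices h : ∃ κ : Ordinal.{u}, ∀ X ∈ Q, ∃ i < κ, E i = X by
    obtain ⟨κ, h⟩ := h
    exact ⟨κ, E, hEH κ, hEQ, h⟩
  by_contra hc
  push Not at hc
  have hinj : ∀ i : Ordinal.{u}, ∀ j < i, ¬ E j = E i := by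
    intro i
    have h1 := lst_spec (fun X => Φ (as X (gz i E) i.toZFSet Q ∅ ∅ (0 : Ordinal.{u}).toZFSet
      (0 : Ordinal.{u}).toZFSet (0 : Ordinal.{u}).toZFSet (0 : Ordinal.{u}).toZFSet)) hWO
    have h2 : E i = lst (fun X => Φ (as X (gz i E) i.toZFSet Q ∅ ∅ (0 : Ordinal.{u}).toZFSet
      (0 : Ordinal.{u}).toZFSet (0 : Ordinal.{u}).toZFSet (0 : Ordinal.{u}).toZFSet)) Q W := by
      rw [hE]
      exact rc_eq _ Q W i
    rw [← h2] at h1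
    rcases h1 with ⟨_, h3, _⟩ | ⟨h3, _⟩
    · intro j hj h4
      rw [hΦ] at h3
      exact h3 j.toZFSet (tzm.2 hj) (pair_gz.2 ⟨hj, h4⟩)
    · exfalso
      obtain ⟨X, hX, h4⟩ := hc i
      refine h3 ⟨X, hX, ?_⟩
      rw [hΦ]
      intro j hj h5
      obtain ⟨j, hj', rfl⟩ := Ordinal.mem_toZFSet_iff.1 hj
      exact h4 j hj' (pair_gz.1 h5).2
  refine not_injective_of_ordinal (α := {x // x ∈ Q}) (fun i => ⟨E i, hEQ i⟩) ?_
  intro a b hab
  have hab' : E a = E b := congrArg Subtype.val hab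
  rcases lt_trichotomy a b with h | h | h
  · exact absurd hab' (hinj b a h)
  · exact h
  · exact absurd hab'.symm (hinj a b h)

/-- The sets in HOD of subsets of `γ` of size at most `μ`. -/
theorem HOD_few {γ μ : Ordinal.{u}} (hγ : 0 < γ) :
    HOD (ZFSet.sep (fun X => Few μ X) (Ph γ.toZFSet)) := by
  have h := HOD_sep4 (Ψ := fun v => ∃ e, IsFunc (v 5) (v 6) e ∧ ∀ y ∈ v 0, ∃ i ∈ v 5, pair i y ∈ e)
    (Dfn.exfun _ _ (Dfn.ball Lvl_sub_Trs _ (Dfn.bex Lvl_sub_Trs _ (dfn_pm Lvl_sub_Trs _ _ _))))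
    (HOD_Ph (HOD_ord γ)) HOD_empty HOD_empty HOD_empty μ γ 0 0 0
  have e : ZFSet.sep (fun X => Few μ X) (Ph γ.toZFSet) =
      ZFSet.sep (fun X => ∃ e, IsFunc μ.toZFSet γ.toZFSet e ∧ ∀ y ∈ X, ∃ i ∈ μ.toZFSet,
        pair i y ∈ e) (Ph γ.toZFSet) := by
    ext X
    rw [mem_sep, mem_sep]
    refine and_congr_right fun hX => ?_
    have hXs := (mem_Ph.1 hX).1
    constructor
    · rintro ⟨g, hg⟩
      classical
      refine ⟨gr μ.toZFSet fun i => if g (rank i) < γ then (g (rank i)).toZFSet else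
        (0 : Ordinal.{u}).toZFSet, isFunc_gr fun i _ => ?_, fun y hy => ?_⟩
      · split_ifs with h
        · exact tzm.2 h
        · exact tzm.2 hγ
      · obtain ⟨y, hy', rfl⟩ := Ordinal.mem_toZFSet_iff.1 (hXs hy)
        obtain ⟨i, hi, hgi⟩ := hg y hy
        refine ⟨i.toZFSet, tzm.2 hi, pair_mem_gr.2 ⟨tzm.2 hi, ?_⟩⟩
        simp only [Ordinal.rank_toZFSet, hgi, if_pos hy']
    · rintro ⟨e, he, h⟩
      refine ⟨fun i => rank (app e i.toZFSet), fun y hy => ?_⟩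
      obtain ⟨i, hi, hiy⟩ := h _ hy
      obtain ⟨i, hi', rfl⟩ := Ordinal.mem_toZFSet_iff.1 hi
      refine ⟨i, hi', ?_⟩
      show rank (app e i.toZFSet) = y
      rw [(app_iff he hi).1 hiy, Ordinal.rank_toZFSet]
  rw [e]
  exact h

/-- The union of the sets `E z` for `z ∈ Z`. -/
theorem HOD_Un {γ κ : Ordinal.{u}} {E : Ordinal.{u} → ZFSet.{u}} {Z : ZFSet.{u}}
    (hE : HOD (gz κ E)) (hZ : HOD Z) :
    HOD (ZFSet.sep (fun y => ∃ z ∈ Z, InF (gz κ E) z y) γ.toZFSet) :=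
  HOD_sep4 (Ψ := fun v => ∃ z ∈ v 2, InF (v 3) z (v 0)) (Dfn.bex Lvl_sub_Trs _ (dfn_InF _ _ _))
    (HOD_ord γ) hZ hE HOD_empty 0 0 0 0 0

theorem mem_Un {γ κ : Ordinal.{u}} {E : Ordinal.{u} → ZFSet.{u}} {Z : ZFSet.{u}}
    (hZ : Z ⊆ κ.toZFSet) {y : Ordinal.{u}} :
    y.toZFSet ∈ ZFSet.sep (fun y => ∃ z ∈ Z, InF (gz κ E) z y) γ.toZFSet ↔
      y < γ ∧ ∃ z : Ordinal.{u}, z.toZFSet ∈ Z ∧ y.toZFSet ∈ E z := by
  rw [mem_sep, tzm]
  refine and_congr_right fun hy => ?_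
  constructor
  · rintro ⟨z, hz, X, hX, hyX⟩
    obtain ⟨z, hz', rfl⟩ := Ordinal.mem_toZFSet_iff.1 (hZ hz)
    rw [pair_gz] at hX
    exact ⟨z, hz, by rw [hX.2]; exact hyX⟩
  · rintro ⟨z, hz, hyz⟩
    exact ⟨_, hz, E z, pair_gz.2 ⟨tzm.1 (hZ hz), rfl⟩, hyz⟩

/-- **Covering of sets of arbitrary cardinality at least `δ`.** -/
theorem cover_all {δ : Ordinal.{u}} (hδ : Extendible δ) (hFam : Families δ) (μ : Ordinal.{u}) :
    δ ≤ μ → ∀ (γ : Ordinal.{u}) (f : Ordinal.{u} → Ordinal.{u}), (∀ i < μ, f i < γ) →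
      ∃ B, HOD B ∧ B ⊆ γ.toZFSet ∧ (∀ i < μ, (f i).toZFSet ∈ B) ∧ Few μ B := by
  classical
  induction μ using WellFoundedLT.induction with
  | _ μ ih =>
    intro hδμ γ f hf
    by_cases hr : RegUnc μ.toZFSet
    · exact cover_reg hδ hFam hr hδμ f hf
    have hδμ' : δ < μ := by
      rcases hδμ.lt_or_eq with h | h
      · exact h
      · rw [← h] at hr
        exact absurd hδ.regUnc hr
    have hμ0 : 0 < μ := lt_of_le_of_lt bot_le hδμ'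
    have hγ0 : 0 < γ := lt_of_le_of_lt bot_le (hf 0 hμ0)
    have hωμ : Ordinal.omega0 ≤ μ := (hδ.om_lt.trans hδμ').le
    by_cases hlim : ∀ x < μ, Order.succ x < μ
    · -- limit case
      have hcof : ∃ ν < μ, ∃ c : Ordinal.{u} → Ordinal.{u}, (∀ x < ν, c x < μ) ∧
          ∀ i < μ, ∃ x < ν, i ≤ c x := by
        unfold RegUnc at hr
        push Not at hr
        obtain ⟨a, ha, h, hh, hn⟩ := hr (isOrdinal_toZFSet μ) (by
          unfold om; exact tzm.2 (hδ.om_lt.trans hδμ'))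
        obtain ⟨ν, hν, rfl⟩ := Ordinal.mem_toZFSet_iff.1 ha
        refine ⟨ν, hν, fun x => rank (app h x.toZFSet), fun x hx => ?_, fun i hi => ?_⟩
        · obtain ⟨y, hy, h1⟩ := Ordinal.mem_toZFSet_iff.1 (app_mem hh (tzm.2 hx))
          show rank (app h x.toZFSet) < μ
          rw [← h1, Ordinal.rank_toZFSet]
          exact hy
        · obtain ⟨x, hx, y, hy, hxy, h1⟩ := hn _ (tzm.2 hi)
          obtain ⟨x, hx', rfl⟩ := Ordinal.mem_toZFSet_iff.1 hx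
          obtain ⟨y, hy', rfl⟩ := Ordinal.mem_toZFSet_iff.1 hy
          refine ⟨x, hx', ?_⟩
          show i ≤ rank (app h x.toZFSet)
          rw [(app_iff hh hx).1 hxy, Ordinal.rank_toZFSet]
          exact not_lt.1 fun h2 => h1 (tzm.2 h2)
      obtain ⟨ν, hν, c, hc1, hc2⟩ := hcof
      have hBx : ∀ x : Ordinal.{u}, ∃ B, x < ν → (HOD B ∧ B ⊆ γ.toZFSet ∧
          (∀ i ≤ c x, (f i).toZFSet ∈ B) ∧ Few μ B) := by
        intro x
        by_cases hx : x < ν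
        · have hlt : max (Order.succ (c x)) δ < μ := max_lt (hlim _ (hc1 x hx)) hδμ'
          obtain ⟨B, h1, h2, h3, h4⟩ := ih _ hlt (le_max_right _ _) γ f fun i hi => hf i (hi.trans hlt)
          exact ⟨B, fun _ => ⟨h1, h2, fun i hi => h3 i (lt_of_le_of_lt hi ((Order.lt_succ _).trans_le
            (le_max_left _ _))), h4.mono hlt.le⟩⟩
        · exact ⟨∅, fun h => absurd h hx⟩
      choose Bx hBx using hBx
      obtain ⟨κ, E, hE, hEQ, hEs⟩ := exists_enum (HOD_few (μ := μ) hγ0) (mem_sep.2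
        ⟨empty_mem_Ph, ⟨id, fun y hy => absurd hy (ZFSet.notMem_empty _)⟩⟩)
      have hix : ∀ x : Ordinal.{u}, ∃ i, x < ν → (i < κ ∧ E i = Bx x) := by
        intro x
        by_cases hx : x < ν
        · obtain ⟨h1, h2, h3, h4⟩ := hBx x hx
          obtain ⟨i, hi, hEi⟩ := hEs (Bx x) (mem_sep.2 ⟨mem_Ph.2 ⟨h2, h1⟩, h4⟩)
          exact ⟨i, fun _ => ⟨hi, hEi⟩⟩
        · exact ⟨0, fun h => absurd h hx⟩
      choose b hb using hix
      have hZ : ∃ Z, HOD Z ∧ Z ⊆ κ.toZFSet ∧ (∀ x < ν, (b x).toZFSet ∈ Z) ∧ Few μ Z := by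
        rcases lt_or_ge ν δ with h | h
        · obtain ⟨Z, h1, h2, h3, ⟨c', hc', h4⟩, _⟩ := cover_closed hδ hFam (γ := κ) h b
            (fun x hx => (hb x hx).1) (fun y _ => y) fun y hy _ _ => hy
          exact ⟨Z, h1, h2, h3, Few.mono h4 (hc'.trans hδμ').le⟩
        · obtain ⟨Z, h1, h2, h3, h4⟩ := ih ν hν h κ b fun x hx => (hb x hx).1
          exact ⟨Z, h1, h2, h3, h4.mono hν.le⟩
      obtain ⟨Z, hZH, hZκ, hZb, gZ, hgZ⟩ := hZ
      refine ⟨_, HOD_Un (γ := γ) hE hZH, sep_subset, fun i hi => ?_, ?_⟩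
      · rw [mem_Un hZκ]
        obtain ⟨x, hx, hix⟩ := hc2 i hi
        refine ⟨hf i hi, b x, hZb x hx, ?_⟩
        rw [(hb x hx).2]
        exact (hBx x hx).2.2.1 i hix
      · refine few_union hωμ (fun a => E (gZ a)) (fun a _ => (mem_sep.1 (hEQ _)).2) fun y hy => ?_
        obtain ⟨_, z, hz, hyz⟩ := (mem_Un hZκ).1 hy
        obtain ⟨a, ha, hga⟩ := hgZ z hz
        exact ⟨a, ha, by simp only [hga]; exact hyz⟩
    · -- successor case
      push Not at hlim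
      obtain ⟨x, hx, hx'⟩ := hlim
      have hμx : μ = Order.succ x := le_antisymm hx' (Order.succ_le_of_lt hx)
      have hδx : δ ≤ x := by rw [hμx, Order.lt_succ_iff] at hδμ'; exact hδμ'
      obtain ⟨B, h1, h2, h3, g, hg⟩ := ih x hx hδx γ f fun i hi => hf i (hi.trans hx)
      refine ⟨ZFSet.sep (fun y => y ∈ B ∨ y = (f x).toZFSet) γ.toZFSet, ?_, sep_subset, ?_, ?_⟩
      · exact HOD_sep4 (Ψ := fun v => v 0 ∈ v 2 ∨ v 0 = v 5) ((Dfn.mem _ _).or (Dfn.eq _ _))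
          (HOD_ord γ) h1 HOD_empty HOD_empty (f x) 0 0 0 0
      · intro i hi
        refine mem_sep.2 ⟨tzm.2 (hf i hi), ?_⟩
        rw [hμx, Order.lt_succ_iff] at hi
        rcases hi.lt_or_eq with h | h
        · exact Or.inl (h3 i h)
        · rw [h]; exact Or.inr rfl
      · refine ⟨fun i => if i = x then f x else g i, fun y hy => ?_⟩
        rcases (mem_sep.1 hy).2 with h | h
        · obtain ⟨i, hi, hgi⟩ := hg y h
          exact ⟨i, hi.trans hx, by simp only [if_neg hi.ne]; exact hgi⟩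
        · exact ⟨x, hx, by simp only; exact (Ordinal.toZFSet_injective h).symm⟩

/-- **Jensen-type covering**: every set of ordinals of size `μ ≥ δ` is contained in a set in HOD of
the same size, which is closed under a given function. -/
theorem cover_jensen {δ : Ordinal.{u}} (hδ : Extendible δ) (hFam : Families δ) {μ : Ordinal.{u}}
    (hδμ : δ ≤ μ) (γ : Ordinal.{u}) (f : Ordinal.{u} → Ordinal.{u}) (hf : ∀ i < μ, f i < γ)
    (F : Ordinal.{u} → Ordinal.{u} → Ordinal.{u}) (hF : ∀ y < γ, ∀ z < γ, F y z < γ) :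
    ∃ B, HOD B ∧ B ⊆ γ.toZFSet ∧ (∀ i < μ, (f i).toZFSet ∈ B) ∧ Few μ B ∧
      ∀ y z : Ordinal.{u}, y.toZFSet ∈ B → z.toZFSet ∈ B → (F y z).toZFSet ∈ B := by
  classical
  have hμ0 : 0 < μ := (lt_of_le_of_lt bot_le hδ.om_lt).trans_le hδμ
  have hγ0 : 0 < γ := lt_of_le_of_lt bot_le (hf 0 hμ0)
  have hωμ : Ordinal.omega0 ≤ μ := (hδ.om_lt.trans_le hδμ).le
  obtain ⟨κ, E, hE, hEQ, hEs⟩ := exists_enum (HOD_few (μ := μ) hγ0) (mem_sep.2
    ⟨empty_mem_Ph, ⟨id, fun y hy => absurd hy (ZFSet.notMem_empty _)⟩⟩)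
  have hEf : ∀ i, Few μ (E i) := fun i => (mem_sep.1 (hEQ i)).2
  have hEs' : ∀ i, E i ⊆ γ.toZFSet := fun i => (mem_Ph.1 (mem_sep.1 (hEQ i)).1).1
  obtain ⟨s, hs⟩ := exists_pairing hωμ
  choose g hg using hEf
  have hG : ∀ a b : Ordinal.{u}, ∃ i < κ, ∀ y z : Ordinal.{u}, y.toZFSet ∈ E a → z.toZFSet ∈ E b →
      (F y z).toZFSet ∈ E i := by
    intro a b
    obtain ⟨B, h1, h2, h3, h4⟩ := cover_all hδ hFam μ hδμ γ
      (fun i => if F (g a (s i).1) (g b (s i).2) < γ then F (g a (s i).1) (g b (s i).2) else 0)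
      (fun i _ => by
        split_ifs with h
        · exact h
        · exact hγ0)
    obtain ⟨i, hi, hEi⟩ := hEs B (mem_sep.2 ⟨mem_Ph.2 ⟨h2, h1⟩, h4⟩)
    refine ⟨i, hi, fun y z hy hz => ?_⟩
    obtain ⟨k, hk, hgk⟩ := hg a y hy
    obtain ⟨k', hk', hgk'⟩ := hg b z hz
    obtain ⟨t, ht, hst⟩ := hs k hk k' hk'
    have h5 := h3 t ht
    simp only [hst, hgk, hgk'] at h5
    rw [if_pos (hF y (tzm.1 (hEs' a hy)) z (tzm.1 (hEs' b hz)))] at h5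
    rw [hEi]
    exact h5
  choose G hG1 hG2 using hG
  obtain ⟨B₀, h1, h2, h3, h4⟩ := cover_all hδ hFam μ hδμ γ f hf
  obtain ⟨i₀, hi₀, hEi₀⟩ := hEs B₀ (mem_sep.2 ⟨mem_Ph.2 ⟨h2, h1⟩, h4⟩)
  have h1δ : (1 : Ordinal.{u}) < δ := lt_trans (by exact_mod_cast Ordinal.natCast_lt_omega0 1)
    hδ.om_lt
  obtain ⟨Z, hZH, hZκ, hZb, ⟨c, hc, hcZ⟩, hZcl⟩ := cover_closed hδ hFam (γ := κ) h1δ (fun _ => i₀)
    (fun _ _ => hi₀) G fun y _ z _ => hG1 y z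
  obtain ⟨gZ, hgZ⟩ : Few μ Z := Few.mono hcZ (hc.trans_le hδμ).le
  refine ⟨_, HOD_Un (γ := γ) hE hZH, sep_subset, fun i hi => ?_, ?_, fun y z hy hz => ?_⟩
  · rw [mem_Un hZκ]
    refine ⟨hf i hi, i₀, hZb 0 (by exact_mod_cast zero_lt_one), ?_⟩
    rw [hEi₀]
    exact h3 i hi
  · refine few_union hωμ (fun a => E (gZ a)) (fun a _ => (mem_sep.1 (hEQ _)).2) fun y hy => ?_
    obtain ⟨_, z, hz, hyz⟩ := (mem_Un hZκ).1 hy
    obtain ⟨a, ha, hga⟩ := hgZ z hz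
    exact ⟨a, ha, by simp only [hga]; exact hyz⟩
  · obtain ⟨hy', a, ha, hya⟩ := (mem_Un hZκ).1 hy
    obtain ⟨hz', b, hb, hzb⟩ := (mem_Un hZκ).1 hz
    rw [mem_Un hZκ]
    exact ⟨hF y hy' z hz', G a b, hZcl a b ha hb, hG2 a b y z hya hzb⟩

end Pool.Agent.H639
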