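import Pool.Agent.H639.Los

/-!
If `U ◁ U'` are normal measures of HOD then `U'`-almost all ordinals are measurable in HOD.
-/

set_option autoImplicit false
set_option linter.unusedVariables false

namespace Pool.Agent.H639

open ZFSet Gss969 Pool.Agent.H310.HD

universe u

variable {l β : Ordinal.{u}} {U U' W f : ZFSet.{u}}

/-- Normality for relations. -/
theorem NMeas.fodR (h : NMeas l.toZFSet U) {X R : ZFSet.{u}} (hX : X ∈ U) (hR : HOD R)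
    (hreg : ∀ x ∈ X, ∃ y ∈ x, pair x y ∈ R) :
    ∃ y ∈ l.toZFSet, ZFSet.sep (fun x => pair x y ∈ R) X ∈ U := by
  classical
  have ht := (isOrdinal_toZFSet l).isTransitive
  have hXl := h.sub X hX
  have h2 : ∀ x ∈ X, ∃ i ∈ x, pair x i ∈ R ∧ ∀ i' ∈ i, ¬ pair x i' ∈ R := by
    intro x hx
    obtain ⟨ξ, hξ, rfl⟩ := Ordinal.mem_toZFSet_iff.1 (hXl hx)
    obtain ⟨i, ⟨hi1, hi2⟩, hmin⟩ := WellFounded.has_min (wellFounded_lt (α := Ordinal.{u}))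
      {i | i < ξ ∧ pair ξ.toZFSet i.toZFSet ∈ R} (by
        obtain ⟨i, hi, h4⟩ := hreg _ hx
        obtain ⟨i, hi', rfl⟩ := Ordinal.mem_toZFSet_iff.1 hi
        exact ⟨i, hi', h4⟩)
    refine ⟨i.toZFSet, tzm.2 hi1, hi2, fun i' hi' h5 => ?_⟩
    obtain ⟨i', hi'', rfl⟩ := Ordinal.mem_toZFSet_iff.1 hi'
    exact hmin i' ⟨hi''.trans hi1, h5⟩ hi''
  choose! G hG using h2
  have hGu : ∀ x ∈ l.toZFSet, ∀ i ∈ x, ∀ i' ∈ x, (pair x i ∈ R ∧ ∀ j ∈ i, ¬ pair x j ∈ R) →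
      (pair x i' ∈ R ∧ ∀ j ∈ i', ¬ pair x j ∈ R) → i = i' := by
    intro x hx i hi i' hi' h3 h4
    obtain ⟨i, _, rfl⟩ := Ordinal.mem_toZFSet_iff.1 (ht.mem_trans hi hx)
    obtain ⟨i', _, rfl⟩ := Ordinal.mem_toZFSet_iff.1 (ht.mem_trans hi' hx)
    rcases lt_trichotomy i i' with h5 | h5 | h5
    · exact absurd h3.1 (h4.2 _ (tzm.2 h5))
    · rw [h5]
    · exact absurd h4.1 (h3.2 _ (tzm.2 h5))
  have hGH : HOD (gr X G) := by
    refine HOD_gr4 (Ψ := fun v => v 0 ∈ v 1 ∧ (pair (v 1) (v 0) ∈ v 4 ∧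
        ∀ j ∈ v 0, ¬ pair (v 1) j ∈ v 4))
      ((Dfn.mem _ _).and ((dfn_pm Lvl_sub_Trs _ _ _).and (Dfn.ball Lvl_sub_Trs _
        (dfn_pm Lvl_sub_Trs _ _ _).not)))
      (h.hodm hX) (HOD_ord l) hR HOD_empty 0 0 0 0 fun x hx => ?_
    have hxl := hXl hx
    have h3 := hG x hx
    refine ⟨ht.mem_trans h3.1 hxl, fun y hy => ?_⟩
    show (y ∈ x ∧ (pair x y ∈ R ∧ ∀ j ∈ y, ¬ pair x j ∈ R)) ↔ _
    constructor
    · rintro ⟨h4, h5⟩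
      exact hGu x hxl y h4 _ h3.1 h5 h3.2
    · rintro rfl
      exact h3
  obtain ⟨y, hy, h3⟩ := h.fod hX hGH fun x hx => (hG x hx).1
  obtain ⟨y, hy', rfl⟩ := Ordinal.mem_toZFSet_iff.1 hy
  refine ⟨_, hy, h.up _ h3 _ (fun z hz => hXl (mem_sep.1 hz).1) ?_ fun z hz => ?_⟩
  · exact HOD_sep4 (Ψ := fun v => pair (v 0) (v 5) ∈ v 2) (dfn_pm Lvl_sub_Trs _ _ _)
      (h.hodm hX) hR HOD_empty HOD_empty y 0 0 0 0
  · obtain ⟨h4, h5⟩ := mem_sep.1 hz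
    refine mem_sep.2 ⟨h4, ?_⟩
    have := (hG z h4).2.1
    rwa [h5] at this

/-- The preimage of `i` under the function `h` on `α`. -/
noncomputable def pre (i h α : ZFSet.{u}) : ZFSet.{u} := ZFSet.sep (fun ξ => pair ξ i ∈ h) α

/-- The preimage is in the value of `f` at `α`. -/
def PrF (f h i α : ZFSet.{u}) : Prop :=
  ∃ X, X ⊆ α ∧ ((∀ ξ ∈ α, (ξ ∈ X ↔ pair ξ i ∈ h)) ∧ InF f α X)

theorem prF_iff {f h i α : ZFSet.{u}} : PrF f h i α ↔ InF f α (pre i h α) := by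
  constructor
  · rintro ⟨X, h1, h2, h3⟩
    have : X = pre i h α := by
      ext z
      unfold pre
      rw [mem_sep]
      exact ⟨fun h => ⟨h1 h, (h2 z (h1 h)).1 h⟩, fun h => (h2 z h.1).2 h.2⟩
    rwa [← this]
  · intro h
    refine ⟨_, sep_subset, fun ξ hξ => ?_, h⟩
    rw [mem_sep]
    exact ⟨fun h => h.2, fun h => ⟨hξ, h⟩⟩

theorem dfn_PrF (a b c d : ℕ) : Dfn Lvl.{u} (fun v => PrF (v a) (v b) (v c) (v d)) := by
  unfold PrF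
  exact Dfn.exsub subset_rfl _ ((Dfn.ball Lvl_sub_Trs _ ((Dfn.mem _ _).iff
    (dfn_pm Lvl_sub_Trs _ _ _))).and (dfn_InF _ _ _))

/-- Exactly one preimage is in the value of `f` at `α`. -/
def Uni (f h k α : ZFSet.{u}) : Prop :=
  ∃ i ∈ k, PrF f h i α ∧ ∀ i' ∈ k, PrF f h i' α → i' = i

theorem dfn_Uni (a b c d : ℕ) : Dfn Lvl.{u} (fun v => Uni (v a) (v b) (v c) (v d)) := by
  unfold Uni
  exact Dfn.bex Lvl_sub_Trs _ ((dfn_PrF _ _ _ _).and (Dfn.ball Lvl_sub_Trs _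
    ((dfn_PrF _ _ _ _).imp (Dfn.eq _ _))))

/-- `v 0 = (k, h)` is a bad partition of `v 2`. -/
def Bad (f α p : ZFSet.{u}) : Prop :=
  ∃ k ∈ α, ∃ h, p = pair k h ∧ (IsFunc α k h ∧ ¬ Uni f h k α)

theorem dfn_Bad (a b c : ℕ) : Dfn Lvl.{u} (fun v => Bad (v a) (v b) (v c)) := by
  unfold Bad
  refine Dfn.bex Lvl_sub_Trs _ ?_
  refine Dfn.ex (A := fun h v => v (c + 1) = pair (v 0) h ∧ (IsFunc (v (b + 1)) (v 0) h ∧
    ¬ Uni (v (a + 1)) h (v 0) (v (b + 1)))) ?_ ?_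
  · exact (dfn_pair Lvl_sub_Trs _ _ _).and ((dfn_isFunc Lvl_sub_Trs _ _ _).and
      (dfn_Uni _ _ _ _).not)
  · rintro V hV v hv ⟨h, h1, h2⟩
    exact ⟨h, (mem_of_pair hV (h1 ▸ hv (c + 1))).2, h1, h2⟩

/-- The functions in question, with their ranges. -/
noncomputable def ZZ (l : ZFSet.{u}) : ZFSet.{u} := prod l (Ph (prod l l))

theorem HOD_ZZ : HOD (ZZ l.toZFSet) :=
  HOD_prod (HOD_ord l) (HOD_Ph (HOD_prod (HOD_ord l) (HOD_ord l)))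

theorem pair_mem_ZZ {α k h : ZFSet.{u}} (hα : α ∈ l.toZFSet) (hk : k ∈ α) (hf : IsFunc α k h)
    (hH : HOD h) : pair k h ∈ ZZ l.toZFSet := by
  have ht := (isOrdinal_toZFSet l).isTransitive
  refine pair_mem_prod.2 ⟨ht.mem_trans hk hα, mem_Ph.2 ⟨fun p hp => ?_, hH⟩⟩
  obtain ⟨x, hx, y, hy, rfl⟩ := mem_prod.1 (hf.1 hp)
  exact pair_mem_prod.2 ⟨ht.mem_trans hx hα, ht.mem_trans hy (ht.mem_trans hk hα)⟩

end Pool.Agent.H639
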