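import Pool.Agent.H639.Los2
import Pool.Agent.H639.Tool8

/-!
If `U ◁ U'` are normal measures of HOD then `U'`-almost all ordinals are measurable in HOD.
-/

set_option autoImplicit false
set_option linter.unusedVariables false

namespace Pool.Agent.H639

open ZFSet Gss969 Pool.Agent.H310.HD

universe u

variable {l β : Ordinal.{u}} {U U' W f : ZFSet.{u}}

/-- The values of `f` decide almost everywhere all partitions in HOD. -/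
theorem uni_ae (hl : 2 < l) (h : NMeas l.toZFSet U) (h' : NMeas l.toZFSet U') (hf : HOD f)
    (hfU : ∀ X, X ⊆ l.toZFSet → HOD X →
      (X ∈ U ↔ ZFSet.sep (fun α => InF f α (X ∩ α)) l.toZFSet ∈ U')) :
    ZFSet.sep (fun α => ∀ p ∈ ZZ l.toZFSet, ¬ Bad f α p) l.toZFSet ∈ U' := by
  classical
  have ht := (isOrdinal_toZFSet l).isTransitive
  have hord : ∀ x ∈ l.toZFSet, x.IsTransitive := by
    intro x hx
    obtain ⟨ξ, _, rfl⟩ := Ordinal.mem_toZFSet_iff.1 hx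
    exact (isOrdinal_toZFSet ξ).isTransitive
  have hH : HOD (ZFSet.sep (fun α => ∀ p ∈ ZZ l.toZFSet, ¬ Bad f α p) l.toZFSet) :=
    HOD_sep4 (Ψ := fun v => ∀ p ∈ v 2, ¬ Bad (v 3) (v 0) p)
      (Dfn.ball Lvl_sub_Trs _ (dfn_Bad _ _ _).not) (HOD_ord l) HOD_ZZ hf HOD_empty 0 0 0 0 0
  by_contra hc
  have hB := h'.compl_mem sep_subset hH hc
  set B := dif l.toZFSet (ZFSet.sep (fun α => ∀ p ∈ ZZ l.toZFSet, ¬ Bad f α p) l.toZFSet)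
    with hBdef
  have hBl : B ⊆ l.toZFSet := h'.sub _ hB
  have hBm : ∀ x ∈ B, ∃ p ∈ ZZ l.toZFSet, Bad f x p := by
    intro x hx
    rw [hBdef, mem_dif, mem_sep] at hx
    by_contra hcon
    push Not at hcon
    exact hx.2 ⟨hx.1, hcon⟩
  obtain ⟨G, hG, hGB⟩ := HOD_choice (Ψ := fun v => Bad (v 4) (v 1) (v 0)) (dfn_Bad _ _ _)
    (h'.hodm hB) HOD_ZZ hf HOD_empty HOD_empty HOD_empty HOD_empty 0 0 0 0 hBm
  have hGB' : ∀ x ∈ B, ∃ k ∈ x, ∃ g, G x = pair k g ∧ IsFunc x k g ∧ ¬ Uni f g k x := by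
    intro x hx
    obtain ⟨k, hk, g, h1, h2⟩ := (hGB x hx).2
    exact ⟨k, hk, g, h1, h2⟩
  choose! K hK G' hG' using hGB'
  -- the number of pieces is constant
  have hKH : HOD (gr B K) := by
    refine HOD_gr8 (Ψ := fun v => ∃ p ∈ v 5, pair (v 1) p ∈ v 4 ∧ ∃ g, p = pair (v 0) g)
      (Dfn.bex Lvl_sub_Trs _ ((dfn_pm Lvl_sub_Trs _ _ _).and (dfn_fst _ _)))
      (h'.hodm hB) (HOD_ord l) hG (HOD_ZZ (l := l)) HOD_empty HOD_empty HOD_empty HOD_empty 0 0 0 0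
      fun x hx => ⟨ht.mem_trans (hK x hx) (hBl hx), fun y hy => ?_⟩
    show (∃ p ∈ ZZ l.toZFSet, pair x p ∈ gr B G ∧ ∃ g, p = pair y g) ↔ _
    constructor
    · rintro ⟨p, hp, h1, g, rfl⟩
      have h2 := (pair_mem_gr.1 h1).2
      rw [(hG' x hx).1, pair_inj] at h2
      exact h2.1.symm
    · rintro rfl
      exact ⟨_, (hGB x hx).1, pair_mem_gr.2 ⟨hx, rfl⟩, _, (hG' x hx).1⟩
  obtain ⟨k₀, hk₀, hB₂⟩ := h'.fod hB hKH hK
  set B₂ := ZFSet.sep (fun x => K x = k₀) B with hB₂def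
  obtain ⟨k, hkl, rfl⟩ := Ordinal.mem_toZFSet_iff.1 hk₀
  have hB₂m : ∀ x ∈ B₂, x ∈ B ∧ k.toZFSet ∈ x ∧ IsFunc x k.toZFSet (G' x) ∧
      ¬ Uni f (G' x) k.toZFSet x := by
    intro x hx
    obtain ⟨h1, h2⟩ := mem_sep.1 hx
    have h3 := hG' x h1
    rw [h2] at h3
    exact ⟨h1, h2 ▸ hK x h1, h3.2⟩
  have hB₂l : B₂ ⊆ l.toZFSet := fun x hx => hBl (hB₂m x hx).1
  -- the relation `G'(z)(ξ) = y`
  let T := ZFSet.sep (fun t => ∃ z ∈ B₂, ∃ ξ ∈ l.toZFSet, ∃ y ∈ l.toZFSet,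
    t = pair (pair z ξ) y ∧ pair ξ y ∈ G' z) (prod (prod l.toZFSet l.toZFSet) l.toZFSet)
  have hTm : ∀ z ∈ B₂, ∀ ξ y, (pair (pair z ξ) y ∈ T ↔ pair ξ y ∈ G' z) := by
    intro z hz ξ y
    show pair (pair z ξ) y ∈ ZFSet.sep _ _ ↔ _
    rw [mem_sep]
    constructor
    · rintro ⟨_, z', _, ξ', _, y', _, e, h1⟩
      rw [pair_inj, pair_inj] at e
      obtain ⟨⟨rfl, rfl⟩, rfl⟩ := e
      exact h1
    · intro h1
      obtain ⟨h2, h3, h4, _⟩ := hB₂m z hz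
      obtain ⟨h5, h6⟩ := pair_mem_prod.1 (h4.1 h1)
      have h7 := ht.mem_trans h5 (hB₂l hz)
      have h8 := ht.mem_trans h6 (ht.mem_trans h3 (hB₂l hz))
      exact ⟨pair_mem_prod.2 ⟨pair_mem_prod.2 ⟨hB₂l hz, h7⟩, h8⟩, z, hz, ξ, h7, y, h8, rfl, h1⟩
  have hT : HOD T := by
    have h1 := HOD_sep8 (Ψ := fun v => ∃ z ∈ v 3, ∃ ξ ∈ v 9, ∃ y ∈ v 9, (∃ q, q = pair z ξ ∧
        v 0 = pair q y) ∧ ∃ p ∈ v 4, pair z p ∈ v 2 ∧ ∃ g, p = pair (v 10) g ∧ pair ξ y ∈ g)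
      (A := prod (prod l.toZFSet l.toZFSet) l.toZFSet) (p := gr B G) (q := B₂)
      (r := ZZ l.toZFSet) (by
        refine Dfn.bex Lvl_sub_Trs _ (Dfn.bex Lvl_sub_Trs _ (Dfn.bex Lvl_sub_Trs _ (Dfn.and ?_
          (Dfn.bex Lvl_sub_Trs _ ((dfn_pm Lvl_sub_Trs _ _ _).and ?_)))))
        · refine Dfn.ex (A := fun q v => q = pair (v 2) (v 1) ∧ v 3 = pair q (v 0)) ?_ ?_
          · exact (dfn_pair Lvl_sub_Trs _ _ _).and (dfn_pair Lvl_sub_Trs _ _ _)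
          · rintro V hV v hv ⟨q, rfl, h1⟩
            exact ⟨_, Lvl_pair hV (hv _) (hv _), rfl, h1⟩
        · refine Dfn.ex (A := fun g v => v 0 = pair (v 14) g ∧ pair (v 2) (v 1) ∈ g) ?_ ?_
          · exact (dfn_pair Lvl_sub_Trs _ _ _).and (dfn_pm Lvl_sub_Trs _ _ _)
          · rintro V hV v hv ⟨g, h1, h2⟩
            exact ⟨g, (mem_of_pair hV (h1 ▸ hv 0)).2, h1, h2⟩)
      (HOD_prod (HOD_prod (HOD_ord l) (HOD_ord l)) (HOD_ord l)) hG (h'.hodm hB₂) HOD_ZZ HOD_empty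
      HOD_empty HOD_empty HOD_empty l k 0 0 0 (s := ∅) (t := ∅) (w := ∅) (z := ∅)
    have e : T = ZFSet.sep (fun t => ∃ z ∈ B₂, ∃ ξ ∈ l.toZFSet, ∃ y ∈ l.toZFSet,
        (∃ q, q = pair z ξ ∧ t = pair q y) ∧ ∃ p ∈ ZZ l.toZFSet, pair z p ∈ gr B G ∧
          ∃ g, p = pair k.toZFSet g ∧ pair ξ y ∈ g) (prod (prod l.toZFSet l.toZFSet) l.toZFSet) := by
      ext t
      show t ∈ ZFSet.sep _ _ ↔ _
      rw [mem_sep, mem_sep]
      refine and_congr_right fun _ => exists_congr fun z => and_congr_right fun hz =>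
        exists_congr fun ξ => and_congr_right fun _ => exists_congr fun y =>
        and_congr_right fun _ => ?_
      have hzB := (hB₂m z hz).1
      have hKz : K z = k.toZFSet := (mem_sep.1 hz).2
      have hGz : G z = pair k.toZFSet (G' z) := by rw [← hKz]; exact (hG' z hzB).1
      constructor
      · rintro ⟨h1, h2⟩
        exact ⟨⟨_, rfl, h1⟩, _, (hGB z hzB).1, pair_mem_gr.2 ⟨hzB, rfl⟩, _, hGz, h2⟩
      · rintro ⟨⟨q, rfl, h1⟩, p, _, h2, g, h3, h4⟩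
        refine ⟨h1, ?_⟩
        have h5 := (pair_mem_gr.1 h2).2
        rw [h3, hGz, pair_inj] at h5
        rw [h5.2]
        exact h4
    rw [e]
    exact h1
  -- the limit function
  have hL : ∀ ξ ∈ l.toZFSet, ∃ i ∈ k.toZFSet,
      ZFSet.sep (fun x => app (G' x) ξ = i) (B₂ ∩ ZFSet.sep (fun y => ξ ∈ y) l.toZFSet) ∈ U' := by
    intro ξ hξ
    obtain ⟨ξ, hξl, rfl⟩ := Ordinal.mem_toZFSet_iff.1 hξ
    have h1 := h'.inter2 hl hB₂ (h'.tail hξl)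
    have h2 : ∀ x ∈ B₂ ∩ ZFSet.sep (fun y => ξ.toZFSet ∈ y) l.toZFSet, x ∈ B₂ ∧
        ξ.toZFSet ∈ x := fun x hx => ⟨(mem_inter.1 hx).1, (mem_sep.1 (mem_inter.1 hx).2).2⟩
    refine h'.part hl h1 hkl (F := fun x => app (G' x) ξ.toZFSet) ?_ fun x hx =>
      app_mem (hB₂m x (h2 x hx).1).2.2.1 (h2 x hx).2
    refine HOD_gr4 (Ψ := fun v => ∃ q, q = pair (v 1) (v 6) ∧ pair q (v 0) ∈ v 4) ?_
      (h'.hodm h1) (HOD_ord k) hT HOD_empty ξ 0 0 0 fun x hx => ⟨app_mem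
        (hB₂m x (h2 x hx).1).2.2.1 (h2 x hx).2, fun y hy => ?_⟩
    · refine Dfn.ex (A := fun q v => q = pair (v 1) (v 6) ∧ pair q (v 0) ∈ v 4)
        ((dfn_pair Lvl_sub_Trs _ _ _).and (dfn_pm Lvl_sub_Trs _ _ _)) ?_
      rintro V hV v hv ⟨q, rfl, h1⟩
      exact ⟨_, Lvl_pair hV (hv _) (hv _), rfl, h1⟩
    · show (∃ q, q = pair x ξ.toZFSet ∧ pair q y ∈ T) ↔ _
      constructor
      · rintro ⟨q, rfl, h3⟩
        rw [hTm x (h2 x hx).1] at h3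
        exact ((app_iff (hB₂m x (h2 x hx).1).2.2.1 (h2 x hx).2).1 h3).symm
      · rintro rfl
        exact ⟨_, rfl, (hTm x (h2 x hx).1 _ _).2 (app_spec (hB₂m x (h2 x hx).1).2.2.1
          (h2 x hx).2)⟩
  choose! L hL1 hL2 using hL
  have hLm : ∀ ξ ∈ l.toZFSet, ∀ z ∈ ZFSet.sep (fun x => app (G' x) ξ = L ξ)
      (B₂ ∩ ZFSet.sep (fun y => ξ ∈ y) l.toZFSet), z ∈ B₂ ∧ ξ ∈ z ∧ pair ξ (L ξ) ∈ G' z := by
    intro ξ hξ z hz
    obtain ⟨h1, h2⟩ := mem_sep.1 hz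
    obtain ⟨h3, h4⟩ := mem_inter.1 h1
    obtain ⟨_, h5⟩ := mem_sep.1 h4
    exact ⟨h3, h5, h2 ▸ app_spec (hB₂m z h3).2.2.1 h5⟩
  have hLH : HOD (gr l.toZFSet L) := by
    refine HOD_gr4 (Ψ := fun v => ∃ D ∈ v 4, ∀ z ∈ D, z ∈ v 6 ∧ ∃ q, q = pair z (v 1) ∧
        pair q (v 0) ∈ v 5) ?_ (HOD_ord l) (HOD_ord k) h'.hod hT l 0 0 0 fun ξ hξ =>
        ⟨hL1 ξ hξ, fun y hy => ?_⟩
    · refine Dfn.bex Lvl_sub_Trs _ (Dfn.ball Lvl_sub_Trs _ ((Dfn.mem _ _).and ?_))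
      refine Dfn.ex (A := fun q v => q = pair (v 0) (v 3) ∧ pair q (v 2) ∈ v 7)
        ((dfn_pair Lvl_sub_Trs _ _ _).and (dfn_pm Lvl_sub_Trs _ _ _)) ?_
      rintro V hV v hv ⟨q, rfl, h1⟩
      exact ⟨_, Lvl_pair hV (hv _) (hv _), rfl, h1⟩
    · show (∃ D ∈ U', ∀ z ∈ D, z ∈ l.toZFSet ∧ ∃ q, q = pair z ξ ∧ pair q y ∈ T) ↔ _
      constructor
      · rintro ⟨D, hD, h1⟩
        obtain ⟨z, hz, hz'⟩ := h'.disj hl hD (hL2 ξ hξ)
        obtain ⟨h2, h3, h4⟩ := hLm ξ hξ z hz'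
        obtain ⟨_, q, rfl, h5⟩ := h1 z hz
        rw [hTm z h2] at h5
        exact ((hB₂m z h2).2.2.1.2 ξ h3).unique h5 h4
      · rintro rfl
        refine ⟨_, hL2 ξ hξ, fun z hz => ?_⟩
        obtain ⟨h2, h3, h4⟩ := hLm ξ hξ z hz
        exact ⟨hB₂l h2, _, rfl, (hTm z h2 _ _).2 h4⟩
  have hLf : IsFunc l.toZFSet k.toZFSet (gr l.toZFSet L) := isFunc_gr hL1
  -- almost everywhere the partition is the restriction of the limit
  have hE : ∀ ξ ∈ l.toZFSet, ZFSet.sep (fun z => ξ ∈ z ∧ ∃ y ∈ l.toZFSet,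
      pair ξ y ∈ gr l.toZFSet L ∧ ∃ q, q = pair z ξ ∧ pair q y ∈ T) B₂ ∈ U' := by
    intro ξ hξ
    obtain ⟨ξ', hξ', rfl⟩ := Ordinal.mem_toZFSet_iff.1 hξ
    refine h'.up _ (hL2 _ hξ) _ (fun z hz => hB₂l (mem_sep.1 hz).1) ?_ fun z hz => ?_
    · refine HOD_sep4 (Ψ := fun v => v 5 ∈ v 0 ∧ ∃ y ∈ v 6, pair (v 5) y ∈ v 3 ∧
        ∃ q, q = pair (v 0) (v 5) ∧ pair q y ∈ v 2) ?_ (h'.hodm hB₂) hT hLH HOD_empty ξ' l 0 0 0
      refine (Dfn.mem _ _).and (Dfn.bex Lvl_sub_Trs _ ((dfn_pm Lvl_sub_Trs _ _ _).and ?_))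
      refine Dfn.ex (A := fun q v => q = pair (v 1) (v 6) ∧ pair q (v 0) ∈ v 3)
        ((dfn_pair Lvl_sub_Trs _ _ _).and (dfn_pm Lvl_sub_Trs _ _ _)) ?_
      rintro V hV v hv ⟨q, rfl, h1⟩
      exact ⟨_, Lvl_pair hV (hv _) (hv _), rfl, h1⟩
    · obtain ⟨h2, h3, h4⟩ := hLm _ hξ z hz
      exact mem_sep.2 ⟨h2, h3, _, ht.mem_trans (hL1 _ hξ) (tzm.2 hkl),
        pair_mem_gr.2 ⟨hξ, rfl⟩, _, rfl, (hTm z h2 _ _).2 h4⟩
  have hEH := HOD_fam8 (Ψ := fun v => v 1 ∈ v 0 ∧ ∃ y ∈ v 9, pair (v 1) y ∈ v 4 ∧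
      ∃ q, q = pair (v 0) (v 1) ∧ pair q y ∈ v 3) (A := B₂) (p := T) (q := gr l.toZFSet L)
      (J := l.toZFSet) (r := ∅) (s := ∅) (t := ∅) (w := ∅) (by
        refine (Dfn.mem _ _).and (Dfn.bex Lvl_sub_Trs _ ((dfn_pm Lvl_sub_Trs _ _ _).and ?_))
        refine Dfn.ex (A := fun q v => q = pair (v 1) (v 2) ∧ pair q (v 0) ∈ v 4)
          ((dfn_pair Lvl_sub_Trs _ _ _).and (dfn_pm Lvl_sub_Trs _ _ _)) ?_
        rintro V hV v hv ⟨q, rfl, h1⟩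
        exact ⟨_, Lvl_pair hV (hv _) (hv _), rfl, h1⟩)
      (h'.hodm hB₂) hT hLH HOD_empty HOD_empty HOD_empty HOD_empty (HOD_ord l) 0 0 0 0
  have hD := h'.diag hl hEH hE
  -- the pieces of the limit
  have hpieces : ∀ i ∈ k.toZFSet, HOD (pre i (gr l.toZFSet L) l.toZFSet) := by
    intro i hi
    obtain ⟨i, hi', rfl⟩ := Ordinal.mem_toZFSet_iff.1 hi
    exact HOD_sep4 (Ψ := fun v => pair (v 0) (v 5) ∈ v 2) (dfn_pm Lvl_sub_Trs _ _ _) (HOD_ord l)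
      hLH HOD_empty HOD_empty i 0 0 0 0
  obtain ⟨i₀, hi₀, hi₀U⟩ := h.part hl (h.mem_l (lt_trans (by norm_num) hl)) hkl hLH hL1
  have hpre0 : pre i₀ (gr l.toZFSet L) l.toZFSet ∈ U := by
    have e : pre i₀ (gr l.toZFSet L) l.toZFSet = ZFSet.sep (fun x => L x = i₀) l.toZFSet := by
      ext x
      unfold pre
      rw [mem_sep, mem_sep, pair_mem_gr]
      exact ⟨fun h => ⟨h.1, h.2.2⟩, fun h => ⟨h.1, h.1, h.2⟩⟩
    rw [e]
    exact hi₀U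
  have hpre : ∀ i ∈ k.toZFSet, (pre i (gr l.toZFSet L) l.toZFSet ∈ U ↔ i = i₀) := by
    intro i hi
    constructor
    · intro h1
      obtain ⟨z, hz, hz'⟩ := h.disj hl h1 hpre0
      have h2 := (mem_sep.1 hz).2
      have h3 := (mem_sep.1 hz').2
      exact (hLf.2 z (h.sub _ h1 hz)).unique h2 h3
    · rintro rfl
      exact hpre0
  obtain ⟨i₁, hi₁, rfl⟩ := Ordinal.mem_toZFSet_iff.1 hi₀
  -- `PrF` at almost all `α`
  have hPl : ∀ α ∈ l.toZFSet, ∀ i, (PrF f (gr l.toZFSet L) i α ↔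
      InF f α (pre i (gr l.toZFSet L) l.toZFSet ∩ α)) := by
    intro α hα i
    rw [prF_iff]
    have e : pre i (gr l.toZFSet L) α = pre i (gr l.toZFSet L) l.toZFSet ∩ α := by
      ext z
      unfold pre
      rw [mem_inter, mem_sep, mem_sep]
      exact ⟨fun h => ⟨⟨ht.mem_trans h.1 hα, h.2⟩, h.1⟩, fun h => ⟨h.2, h.1.2⟩⟩
    rw [e]
  have hE₂ : ∀ i ∈ k.toZFSet, ZFSet.sep (fun α => (PrF f (gr l.toZFSet L) i α ↔
      i = i₁.toZFSet)) l.toZFSet ∈ U' := by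
    intro i hi
    obtain ⟨i, hi', rfl⟩ := Ordinal.mem_toZFSet_iff.1 hi
    have hH1 : HOD (ZFSet.sep (fun α => (PrF f (gr l.toZFSet L) i.toZFSet α ↔
        i.toZFSet = i₁.toZFSet)) l.toZFSet) :=
      HOD_sep4 (Ψ := fun v => (PrF (v 2) (v 3) (v 5) (v 0) ↔ v 5 = v 6))
        ((dfn_PrF _ _ _ _).iff (Dfn.eq _ _)) (HOD_ord l) hf hLH HOD_empty i i₁ 0 0 0
    have h1 := hfU (pre i.toZFSet (gr l.toZFSet L) l.toZFSet) sep_subset (hpieces _ hi)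
    rw [hpre _ hi] at h1
    by_cases h2 : i.toZFSet = i₁.toZFSet
    · refine h'.up _ (h1.1 h2) _ sep_subset hH1 fun z hz => ?_
      obtain ⟨h3, h4⟩ := mem_sep.1 hz
      exact mem_sep.2 ⟨h3, ⟨fun _ => h2, fun _ => (hPl z h3 _).2 h4⟩⟩
    · have hH2 : HOD (ZFSet.sep (fun α => InF f α (pre i.toZFSet (gr l.toZFSet L) l.toZFSet ∩ α))
          l.toZFSet) := by
        have h3 := HOD_sep4 (Ψ := fun v => PrF (v 2) (v 3) (v 5) (v 0)) (A := l.toZFSet)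
          (p := f) (q := gr l.toZFSet L) (r := ∅)
          (dfn_PrF _ _ _ _) (HOD_ord l) hf hLH HOD_empty i 0 0 0 0
        have e : ZFSet.sep (fun α => InF f α (pre i.toZFSet (gr l.toZFSet L) l.toZFSet ∩ α))
            l.toZFSet = ZFSet.sep (fun α => PrF f (gr l.toZFSet L) i.toZFSet α) l.toZFSet := by
          ext z
          rw [mem_sep, mem_sep]
          exact and_congr_right fun hz => (hPl z hz _).symm
        rw [e]
        exact h3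
      have h3 := h'.compl_mem sep_subset hH2 (fun h4 => h2 (h1.2 h4))
      refine h'.up _ h3 _ sep_subset hH1 fun z hz => ?_
      obtain ⟨h4, h5⟩ := mem_dif.1 hz
      refine mem_sep.2 ⟨h4, ⟨fun h6 => absurd (mem_sep.2 ⟨h4, (hPl z h4 _).1 h6⟩) h5,
        fun h6 => absurd h6 h2⟩⟩
  have hE₂H := HOD_fam8 (Ψ := fun v => (PrF (v 3) (v 4) (v 1) (v 0) ↔ v 1 = v 10))
      (A := l.toZFSet) (p := f) (q := gr l.toZFSet L) (J := k.toZFSet) (r := ∅) (s := ∅)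
      (t := ∅) (w := ∅) ((dfn_PrF _ _ _ _).iff (Dfn.eq _ _)) (HOD_ord l) hf hLH HOD_empty
      HOD_empty HOD_empty HOD_empty (HOD_ord k) i₁ 0 0 0
  have hE₃ := h'.inter hkl hE₂H hE₂
  obtain ⟨x, hx1, hx2⟩ := h'.disj hl (h'.inter2 hl hB₂ hD) hE₃
  obtain ⟨hxB, hxD⟩ := mem_inter.1 hx1
  obtain ⟨h1, h2, h3, h4⟩ := hB₂m x hxB
  have hxl := hB₂l hxB
  -- the partition at `x` is the restriction of the limit
  have hres : ∀ ξ ∈ x, pair ξ (L ξ) ∈ G' x := by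
    intro ξ hξ
    have h5 := (mem_sep.1 ((mem_sep.1 hxD).2 ξ hξ)).2
    obtain ⟨_, y, hy, h6, q, rfl, h7⟩ := h5
    have h8 : L ξ = y := (pair_mem_gr.1 h6).2
    rw [h8]
    exact (hTm x hxB _ _).1 h7
  have hpr : ∀ i, (PrF f (G' x) i x ↔ PrF f (gr l.toZFSet L) i x) := by
    intro i
    rw [prF_iff, prF_iff]
    have e : pre i (G' x) x = pre i (gr l.toZFSet L) x := by
      ext z
      unfold pre
      rw [mem_sep, mem_sep]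
      refine and_congr_right fun hz => ?_
      rw [pair_mem_gr]
      constructor
      · intro h5
        exact ⟨ht.mem_trans hz hxl, (h3.2 z hz).unique (hres z hz) h5⟩
      · rintro ⟨_, rfl⟩
        exact hres z hz
    rw [e]
  refine h4 ⟨i₁.toZFSet, hi₀, ?_, fun i' hi' h5 => ?_⟩
  · rw [hpr]
    exact ((mem_sep.1 ((mem_sep.1 hx2).2 _ hi₀)).2).2 rfl
  · rw [hpr] at h5
    exact ((mem_sep.1 ((mem_sep.1 hx2).2 _ hi')).2).1 h5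

end Pool.Agent.H639
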