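import Pool.Agent.H639.Los3

/-!
Measurable cardinals of HOD below a measurable cardinal of HOD of order at least two.
-/

set_option autoImplicit false
set_option linter.unusedVariables false

namespace Pool.Agent.H639

open ZFSet Gss969 Pool.Agent.H310.HD

universe u

variable {l β : Ordinal.{u}} {U U' W f : ZFSet.{u}}

theorem HOD_pre {α h : ZFSet.{u}} (hα : HOD α) (hh : HOD h) (i : Ordinal.{u}) :
    HOD (pre i.toZFSet h α) :=
  HOD_sep4 (Ψ := fun v => pair (v 0) (v 5) ∈ v 2) (dfn_pm Lvl_sub_Trs _ _ _) hα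
    hh HOD_empty HOD_empty i 0 0 0 0

/-- An ultrafilter which decides all partitions is a measure. -/
theorem meas_of_part {α : Ordinal.{u}} {M : ZFSet.{u}} (hα : ∀ x < α, Order.succ x < α)
    (h3 : (3 : Ordinal.{u}) < α) (hM : HOD M) (hsub : ∀ X ∈ M, X ⊆ α.toZFSet)
    (P1 : ∀ k ∈ α.toZFSet, ∀ h, HOD h → IsFunc α.toZFSet k h →
      ∃ i ∈ k, pre i h α.toZFSet ∈ M ∧ ∀ i' ∈ k, pre i' h α.toZFSet ∈ M → i' = i)
    (P2 : ∀ x ∈ α.toZFSet, ¬ ({x} : ZFSet.{u}) ∈ M) : MeasIn HOD α.toZFSet := by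
  classical
  have ht := (isOrdinal_toZFSet α).isTransitive
  have n01 : ¬ (0 : Ordinal.{u}).toZFSet = (1 : Ordinal.{u}).toZFSet :=
    fun e => zero_ne_one (Ordinal.toZFSet_injective e)
  have n02 : ¬ (0 : Ordinal.{u}).toZFSet = (2 : Ordinal.{u}).toZFSet :=
    fun e => (by norm_num : (0 : Ordinal.{u}) ≠ 2) (Ordinal.toZFSet_injective e)
  have n12 : ¬ (1 : Ordinal.{u}).toZFSet = (2 : Ordinal.{u}).toZFSet :=
    fun e => (by norm_num : (1 : Ordinal.{u}) ≠ 2) (Ordinal.toZFSet_injective e)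
  have lt3 : ∀ n : ℕ, n < 3 → (n : Ordinal.{u}) < α := by
    intro n hn
    exact lt_trans (by exact_mod_cast hn) h3
  -- ultra
  have hultra : ∀ X, X ⊆ α.toZFSet → HOD X → (X ∈ M ↔ ¬ dif α.toZFSet X ∈ M) := by
    intro X hX hXH
    let F : ZFSet.{u} → ZFSet.{u} := fun ξ => if ξ ∈ X then (0 : Ordinal.{u}).toZFSet else
      (1 : Ordinal.{u}).toZFSet
    have hF1 : ∀ ξ, ξ ∈ X → F ξ = (0 : Ordinal.{u}).toZFSet := fun ξ h => if_pos h
    have hF2 : ∀ ξ, ¬ ξ ∈ X → F ξ = (1 : Ordinal.{u}).toZFSet := fun ξ h => if_neg h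
    have hFm : ∀ ξ ∈ α.toZFSet, F ξ ∈ (2 : Ordinal.{u}).toZFSet := by
      intro ξ _
      by_cases h : ξ ∈ X
      · rw [hF1 ξ h]; exact tzm.2 (by norm_num)
      · rw [hF2 ξ h]; exact tzm.2 (by norm_num)
    have hFH : HOD (gr α.toZFSet F) := by
      refine HOD_gr4 (Ψ := fun v => (v 1 ∈ v 4 ∧ v 0 = v 6) ∨ (¬ v 1 ∈ v 4 ∧ v 0 = v 7))
        (((Dfn.mem _ _).and (Dfn.eq _ _)).or ((Dfn.mem _ _).not.and (Dfn.eq _ _)))
        (HOD_ord α) (HOD_ord 2) hXH HOD_empty 0 1 0 0 fun ξ hξ => ⟨hFm ξ hξ, fun y hy => ?_⟩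
      show ((ξ ∈ X ∧ y = (0 : Ordinal.{u}).toZFSet) ∨ (¬ ξ ∈ X ∧ y = (1 : Ordinal.{u}).toZFSet)) ↔ _
      by_cases h : ξ ∈ X
      · rw [hF1 ξ h]; simp [h]
      · rw [hF2 ξ h]; simp [h]
    obtain ⟨i, hi, h1, h2⟩ := P1 _ (tzm.2 (lt3 2 (by norm_num))) _ hFH (isFunc_gr hFm)
    have e0 : pre (0 : Ordinal.{u}).toZFSet (gr α.toZFSet F) α.toZFSet = X := by
      ext ξ
      unfold pre
      rw [mem_sep, pair_mem_gr]
      constructor
      · rintro ⟨_, _, h5⟩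
        by_contra hc
        rw [hF2 ξ hc] at h5
        exact n01 h5.symm
      · intro h
        exact ⟨hX h, hX h, hF1 ξ h⟩
    have e1 : pre (1 : Ordinal.{u}).toZFSet (gr α.toZFSet F) α.toZFSet = dif α.toZFSet X := by
      ext ξ
      unfold pre
      rw [mem_sep, pair_mem_gr, mem_dif]
      constructor
      · rintro ⟨h4, _, h5⟩
        refine ⟨h4, fun h => ?_⟩
        rw [hF1 ξ h] at h5
        exact n01 h5
      · rintro ⟨h4, h5⟩
        exact ⟨h4, h4, hF2 ξ h5⟩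
    have k0 := h2 _ (tzm.2 (by norm_num : (0 : Ordinal.{u}) < 2))
    have k1 := h2 _ (tzm.2 (by norm_num : (1 : Ordinal.{u}) < 2))
    rw [e0] at k0
    rw [e1] at k1
    constructor
    · intro h4 h5
      exact n01 ((k0 h4).trans (k1 h5).symm)
    · intro h4
      obtain ⟨i, hi', rfl⟩ := Ordinal.mem_toZFSet_iff.1 hi
      rcases lt_two hi' with rfl | rfl
      · rwa [e0] at h1
      · rw [e1] at h1; exact absurd h1 h4
  -- upward closed
  have hup : ∀ X ∈ M, ∀ Y, Y ⊆ α.toZFSet → HOD Y → X ⊆ Y → Y ∈ M := by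
    intro X hX Y hY hYH hXY
    by_contra hc
    have hd : dif α.toZFSet Y ∈ M := by
      by_contra hc'
      exact hc ((hultra Y hY hYH).2 hc')
    have hXH := hM.mem hX
    let F : ZFSet.{u} → ZFSet.{u} := fun ξ => if ξ ∈ X then (0 : Ordinal.{u}).toZFSet else
      if ξ ∈ Y then (1 : Ordinal.{u}).toZFSet else (2 : Ordinal.{u}).toZFSet
    have hF1 : ∀ ξ, ξ ∈ X → F ξ = (0 : Ordinal.{u}).toZFSet := fun ξ h => if_pos h
    have hF2 : ∀ ξ, ¬ ξ ∈ X → ξ ∈ Y → F ξ = (1 : Ordinal.{u}).toZFSet := fun ξ h h' => by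
      show (if ξ ∈ X then _ else _) = _; rw [if_neg h, if_pos h']
    have hF3 : ∀ ξ, ¬ ξ ∈ X → ¬ ξ ∈ Y → F ξ = (2 : Ordinal.{u}).toZFSet := fun ξ h h' => by
      show (if ξ ∈ X then _ else _) = _; rw [if_neg h, if_neg h']
    have hFm : ∀ ξ ∈ α.toZFSet, F ξ ∈ (3 : Ordinal.{u}).toZFSet := by
      intro ξ _
      by_cases h : ξ ∈ X
      · rw [hF1 ξ h]; exact tzm.2 (by norm_num)
      · by_cases h' : ξ ∈ Y
        · rw [hF2 ξ h h']; exact tzm.2 (by norm_num)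
        · rw [hF3 ξ h h']; exact tzm.2 (by norm_num)
    have hFH : HOD (gr α.toZFSet F) := by
      refine HOD_gr4 (Ψ := fun v => (v 1 ∈ v 4 ∧ v 0 = v 6) ∨ ((¬ v 1 ∈ v 4 ∧ v 1 ∈ v 5) ∧ v 0 = v 7)
          ∨ ((¬ v 1 ∈ v 4 ∧ ¬ v 1 ∈ v 5) ∧ v 0 = v 8))
        (((Dfn.mem _ _).and (Dfn.eq _ _)).or ((((Dfn.mem _ _).not.and (Dfn.mem _ _)).and
          (Dfn.eq _ _)).or (((Dfn.mem _ _).not.and (Dfn.mem _ _).not).and (Dfn.eq _ _))))
        (HOD_ord α) (HOD_ord 3) hXH hYH 0 1 2 0 fun ξ hξ => ⟨hFm ξ hξ, fun y hy => ?_⟩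
      show ((ξ ∈ X ∧ y = (0 : Ordinal.{u}).toZFSet) ∨ ((¬ ξ ∈ X ∧ ξ ∈ Y) ∧
        y = (1 : Ordinal.{u}).toZFSet) ∨ ((¬ ξ ∈ X ∧ ¬ ξ ∈ Y) ∧ y = (2 : Ordinal.{u}).toZFSet)) ↔ _
      by_cases h : ξ ∈ X
      · rw [hF1 ξ h]; simp [h]
      · by_cases h' : ξ ∈ Y
        · rw [hF2 ξ h h']; simp [h, h']
        · rw [hF3 ξ h h']; simp [h, h']
    obtain ⟨i, hi, h1, h2⟩ := P1 _ (tzm.2 h3) _ hFH (isFunc_gr hFm)
    have e0 : pre (0 : Ordinal.{u}).toZFSet (gr α.toZFSet F) α.toZFSet = X := by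
      ext ξ
      unfold pre
      rw [mem_sep, pair_mem_gr]
      constructor
      · rintro ⟨_, _, h5⟩
        by_contra hc
        by_cases h' : ξ ∈ Y
        · rw [hF2 ξ hc h'] at h5; exact n01 h5.symm
        · rw [hF3 ξ hc h'] at h5; exact n02 h5.symm
      · intro h
        exact ⟨hY (hXY h), hY (hXY h), hF1 ξ h⟩
    have e2 : pre (2 : Ordinal.{u}).toZFSet (gr α.toZFSet F) α.toZFSet = dif α.toZFSet Y := by
      ext ξ
      unfold pre
      rw [mem_sep, pair_mem_gr, mem_dif]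
      constructor
      · rintro ⟨h4, _, h5⟩
        refine ⟨h4, fun h => ?_⟩
        by_cases h' : ξ ∈ X
        · rw [hF1 ξ h'] at h5; exact n02 h5
        · rw [hF2 ξ h' h] at h5; exact n12 h5
      · rintro ⟨h4, h5⟩
        exact ⟨h4, h4, hF3 ξ (fun h => h5 (hXY h)) h5⟩
    have k0 := h2 _ (tzm.2 (by norm_num : (0 : Ordinal.{u}) < 3))
    have k2 := h2 _ (tzm.2 (by norm_num : (2 : Ordinal.{u}) < 3))
    rw [e0] at k0
    rw [e2] at k2
    exact n02 ((k0 hX).trans (k2 hd).symm)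
  -- the whole set
  have hall : α.toZFSet ∈ M := by
    by_contra hc
    have h4 : dif α.toZFSet α.toZFSet ∈ M := by
      by_contra h5
      exact hc ((hultra _ (fun _ h => h) (HOD_ord α)).2 h5)
    exact hc (hup _ h4 _ (fun _ h => h) (HOD_ord α) sep_subset)
  have hempty : ¬ (∅ : ZFSet.{u}) ∈ M := by
    intro h
    rw [hultra ∅ (fun z hz => absurd hz (notMem_empty z)) HOD_empty] at h
    refine h ?_
    have e : dif α.toZFSet ∅ = α.toZFSet := by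
      ext z
      rw [mem_dif]
      exact ⟨fun h => h.1, fun h => ⟨h, notMem_empty z⟩⟩
    rw [e]
    exact hall
  refine ⟨M, hM, hsub, fun B hB => hM.mem hB, hall, ?_, fun B hB B' hB' hH hs =>
    hup B hB B' hB' hH hs, ?_, ?_⟩
  · intro B hB x hx
    by_contra hcon
    push Not at hcon
    rcases ZFSet.eq_empty_or_nonempty B with h0 | ⟨y, hy⟩
    · rw [h0] at hB
      exact hempty hB
    · refine P2 x hx ?_
      have e : B = {x} := by
        ext z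
        rw [ZFSet.mem_singleton]
        exact ⟨fun hz => hcon z hz, fun hz => by rw [hz, ← hcon y hy]; exact hy⟩
      rwa [e] at hB
  · intro B hB hBH
    constructor
    · intro h B' hB'
      by_contra hcon
      push Not at hcon
      have h4 := hup B h (dif α.toZFSet B') sep_subset (HOD_dif (HOD_ord α) (hM.mem hB'))
        fun z hz => mem_dif.2 ⟨hB hz, fun h5 => hcon z h5 hz⟩
      exact (hultra B' (hsub B' hB') (hM.mem hB')).1 hB' h4
    · intro h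
      by_contra hc
      have h4 : dif α.toZFSet B ∈ M := by
        by_contra h5
        exact hc ((hultra B hB hBH).2 h5)
      obtain ⟨x, hx, hx'⟩ := h _ h4
      exact (mem_dif.1 hx).2 hx'
  · intro m hm g hg hgH hgM
    obtain ⟨m, hm', rfl⟩ := Ordinal.mem_toZFSet_iff.1 hm
    have hgm : ∀ i ∈ m.toZFSet, app g i ∈ M := fun i hi =>
      hgM i hi _ (mem_powerset.1 (app_mem hg hi)) (app_spec hg hi)
    -- the least index of a set which does not contain `ξ`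
    have hex : ∀ ξ ∈ α.toZFSet, ∃ i ∈ (Order.succ m).toZFSet,
        (∀ j ∈ i, ξ ∈ app g j) ∧ (i ∈ m.toZFSet → ¬ ξ ∈ app g i) := by
      intro ξ hξ
      by_cases hc : ∀ j ∈ m.toZFSet, ξ ∈ app g j
      · exact ⟨m.toZFSet, tzm.2 (Order.lt_succ m), hc, fun h => absurd h (mem_irrefl _)⟩
      · push Not at hc
        obtain ⟨j, hj, hj'⟩ := hc
        obtain ⟨j, hjm, rfl⟩ := Ordinal.mem_toZFSet_iff.1 hj
        obtain ⟨i, ⟨hi1, hi2⟩, hmin⟩ := WellFounded.has_min (wellFounded_lt (α := Ordinal.{u}))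
          {i | i < m ∧ ¬ ξ ∈ app g i.toZFSet} ⟨j, hjm, hj'⟩
        refine ⟨i.toZFSet, tzm.2 (hi1.trans (Order.lt_succ m)), fun j hj => ?_, fun _ => hi2⟩
        obtain ⟨j, hj', rfl⟩ := Ordinal.mem_toZFSet_iff.1 hj
        by_contra h5
        exact hmin j ⟨hj'.trans hi1, h5⟩ hj'
    choose! F hF using hex
    have hFu : ∀ ξ ∈ α.toZFSet, ∀ i ∈ (Order.succ m).toZFSet, (∀ j ∈ i, ξ ∈ app g j) →
        (i ∈ m.toZFSet → ¬ ξ ∈ app g i) → i = F ξ := by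
      intro ξ hξ i hi h4 h5
      obtain ⟨h6, h7, h8⟩ := hF ξ hξ
      obtain ⟨i, hi', rfl⟩ := Ordinal.mem_toZFSet_iff.1 hi
      obtain ⟨i', hi'', e⟩ := Ordinal.mem_toZFSet_iff.1 h6
      rw [← e] at h7 h8 ⊢
      rcases lt_trichotomy i i' with h9 | h9 | h9
      · exact absurd (h7 _ (tzm.2 h9))
          (h5 (tzm.2 (lt_of_lt_of_le h9 (Order.lt_succ_iff.1 hi''))))
      · rw [h9]
      · exact absurd (h4 _ (tzm.2 h9))
          (h8 (tzm.2 (lt_of_lt_of_le h9 (Order.lt_succ_iff.1 hi'))))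
    have hval : ∀ j ∈ m.toZFSet, ∀ ξ, (InF g j ξ ↔ ξ ∈ app g j) := by
      intro j hj ξ
      constructor
      · rintro ⟨Y, h4, h5⟩
        rw [(app_iff hg hj).1 h4]; exact h5
      · intro h4
        exact ⟨_, app_spec hg hj, h4⟩
    have hFH : HOD (gr α.toZFSet F) := by
      refine HOD_gr4 (Ψ := fun v => (∀ j ∈ v 0, InF (v 4) j (v 1)) ∧ (v 0 ∈ v 6 →
          ¬ InF (v 4) (v 0) (v 1)))
        ((Dfn.ball Lvl_sub_Trs _ (dfn_InF _ _ _)).and ((Dfn.mem _ _).imp (dfn_InF _ _ _).not))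
        (HOD_ord α) (HOD_ord (Order.succ m)) hgH HOD_empty m 0 0 0 fun ξ hξ =>
        ⟨(hF ξ hξ).1, fun y hy => ?_⟩
      show ((∀ j ∈ y, InF g j ξ) ∧ (y ∈ m.toZFSet → ¬ InF g y ξ)) ↔ _
      have hym : ∀ j ∈ y, j ∈ m.toZFSet := by
        intro j hj
        obtain ⟨y, hy', rfl⟩ := Ordinal.mem_toZFSet_iff.1 hy
        obtain ⟨j, hj', rfl⟩ := Ordinal.mem_toZFSet_iff.1 hj
        exact tzm.2 (lt_of_lt_of_le hj' (Order.lt_succ_iff.1 hy'))
      constructor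
      · rintro ⟨h4, h5⟩
        refine hFu ξ hξ y hy (fun j hj => (hval j (hym j hj) ξ).1 (h4 j hj)) fun h6 => ?_
        rw [← hval y h6 ξ]
        exact h5 h6
      · intro h4
        rw [h4] at hym ⊢
        refine ⟨fun j hj => (hval j (hym j hj) ξ).2 ((hF ξ hξ).2.1 j hj), fun h6 => ?_⟩
        rw [hval _ h6 ξ]
        exact (hF ξ hξ).2.2 h6
    obtain ⟨i, hi, h1, h2⟩ := P1 _ (tzm.2 (hα m hm')) _ hFH (isFunc_gr fun ξ hξ => (hF ξ hξ).1)
    have him : ¬ i ∈ m.toZFSet := by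
      intro him
      have h4 := hup _ h1 (dif α.toZFSet (app g i)) sep_subset
        (HOD_dif (HOD_ord α) (hM.mem (hgm i him))) fun ξ hξ => by
          obtain ⟨h5, h6⟩ := mem_sep.1 hξ
          refine mem_dif.2 ⟨h5, ?_⟩
          have h7 := (hF ξ h5).2.2
          rw [(pair_mem_gr.1 h6).2] at h7
          exact h7 him
      exact (hultra _ (hsub _ (hgm i him)) (hM.mem (hgm i him))).1 (hgm i him) h4
    have him' : i = m.toZFSet := by
      obtain ⟨i, hi', rfl⟩ := Ordinal.mem_toZFSet_iff.1 hi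
      rcases (Order.lt_succ_iff.1 hi').lt_or_eq with h4 | h4
      · exact absurd (tzm.2 h4) him
      · rw [h4]
    refine ⟨_, h1, fun j hj B' hB' hjB ξ hξ => ?_⟩
    obtain ⟨h5, h6⟩ := mem_sep.1 hξ
    have h7 := (hF ξ h5).2.1
    rw [(pair_mem_gr.1 h6).2, him'] at h7
    rw [← (app_iff hg hj).1 hjB]
    exact h7 j hj

/-- The singleton of `x` is in the value of `f` at `α`. -/
def Sg (f α x : ZFSet.{u}) : Prop := ∃ X, X ⊆ α ∧ ((x ∈ X ∧ ∀ z ∈ X, z = x) ∧ InF f α X)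

theorem sg_iff {f α x : ZFSet.{u}} (hx : x ∈ α) : Sg f α x ↔ InF f α {x} := by
  constructor
  · rintro ⟨X, h1, ⟨h2, h3⟩, h4⟩
    have e : X = {x} := by
      ext z
      rw [ZFSet.mem_singleton]
      exact ⟨fun h => h3 z h, fun h => by rw [h]; exact h2⟩
    rwa [← e]
  · intro h
    exact ⟨{x}, fun z hz => by rw [ZFSet.mem_singleton] at hz; rwa [hz],
      ⟨ZFSet.mem_singleton.2 rfl, fun z hz => ZFSet.mem_singleton.1 hz⟩, h⟩

theorem dfn_Sg (a b c : ℕ) : Dfn Lvl.{u} (fun v => Sg (v a) (v b) (v c)) := by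
  unfold Sg
  exact Dfn.exsub subset_rfl _ (((Dfn.mem _ _).and (Dfn.ball Lvl_sub_Trs _ (Dfn.eq _ _))).and
    (dfn_InF _ _ _))

/-- **Almost all ordinals below a measurable cardinal of order two in HOD are measurable in
HOD.** -/
theorem meas_ae (hl : Ordinal.omega0 < l) (h : NMeas l.toZFSet U) (h' : NMeas l.toZFSet U')
    (hm : MLt l.toZFSet U U') : ∃ E ∈ U', ∀ α ∈ E, MeasIn HOD α := by
  obtain ⟨f, hf, _, hfU⟩ := hm
  have hl2 : 2 < l := lt_trans (by exact_mod_cast Ordinal.natCast_lt_omega0 2) hl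
  have ht := (isOrdinal_toZFSet l).isTransitive
  have hC := uni_ae hl2 h h' hf hfU
  have hHN : HOD (ZFSet.sep (fun α => ∃ x ∈ α, Sg f α x) l.toZFSet) :=
    HOD_sep4 (Ψ := fun v => ∃ x ∈ v 0, Sg (v 2) (v 0) x) (Dfn.bex Lvl_sub_Trs _ (dfn_Sg _ _ _))
      (HOD_ord l) hf HOD_empty HOD_empty 0 0 0 0 0
  have hN : ¬ ZFSet.sep (fun α => ∃ x ∈ α, Sg f α x) l.toZFSet ∈ U' := by
    intro hN
    have hR : HOD (ZFSet.sep (fun p => ∃ α ∈ l.toZFSet, ∃ x ∈ α, p = pair α x ∧ Sg f α x)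
        (prod l.toZFSet l.toZFSet)) :=
      HOD_sep4 (Ψ := fun v => ∃ α ∈ v 5, ∃ x ∈ α, v 0 = pair α x ∧ Sg (v 2) α x)
        (Dfn.bex Lvl_sub_Trs _ (Dfn.bex Lvl_sub_Trs _ ((dfn_pair Lvl_sub_Trs _ _ _).and
          (dfn_Sg _ _ _)))) (HOD_prod (HOD_ord l) (HOD_ord l)) hf HOD_empty HOD_empty l 0 0 0 0
    obtain ⟨y, hy, h1⟩ := h'.fodR hN hR (fun α hα => by
      obtain ⟨h2, x, hx, h3⟩ := mem_sep.1 hα
      exact ⟨x, hx, mem_sep.2 ⟨pair_mem_prod.2 ⟨h2, ht.mem_trans hx h2⟩, α, h2, x, hx, rfl, h3⟩⟩)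
    obtain ⟨y, hyl, rfl⟩ := Ordinal.mem_toZFSet_iff.1 hy
    have hs : ({y.toZFSet} : ZFSet.{u}) ⊆ l.toZFSet := fun z hz => by
      rw [ZFSet.mem_singleton] at hz; rw [hz]; exact hy
    have hsH : HOD ({y.toZFSet} : ZFSet.{u}) := by
      have := HOD_pair_set (HOD_ord y) (HOD_ord y)
      rwa [show ({y.toZFSet, y.toZFSet} : ZFSet.{u}) = {y.toZFSet} by ext z; simp] at this
    have h2 : ZFSet.sep (fun α => InF f α ({y.toZFSet} ∩ α)) l.toZFSet ∈ U' := by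
      refine h'.up _ h1 _ sep_subset ?_ fun z hz => ?_
      · have hD5 : Dfn Lvl.{u} (fun v => ∃ X, X ⊆ v 0 ∧ ((∀ z ∈ v 0, (z ∈ X ↔ z ∈ v 3)) ∧
            InF (v 2) (v 0) X)) :=
          Dfn.exsub subset_rfl _ ((Dfn.ball Lvl_sub_Trs _ ((Dfn.mem _ _).iff
            (Dfn.mem _ _))).and (dfn_InF _ _ _))
        have h5 := HOD_sep4 (Ψ := fun v => ∃ X, X ⊆ v 0 ∧ ((∀ z ∈ v 0, (z ∈ X ↔ z ∈ v 3)) ∧
          InF (v 2) (v 0) X)) hD5 (HOD_ord l) hf hsH HOD_empty 0 0 0 0 0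
        have e : ZFSet.sep (fun α => InF f α ({y.toZFSet} ∩ α)) l.toZFSet =
            ZFSet.sep (fun α => ∃ X, X ⊆ α ∧ ((∀ z ∈ α, (z ∈ X ↔ z ∈ ({y.toZFSet} : ZFSet.{u}))) ∧
              InF f α X)) l.toZFSet := by
          ext α
          rw [mem_sep, mem_sep]
          refine and_congr_right fun _ => ?_
          constructor
          · intro h6
            refine ⟨_, fun z hz => (mem_inter.1 hz).2, fun z hz => ?_, h6⟩
            rw [mem_inter]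
            exact ⟨fun h => h.1, fun h => ⟨h, hz⟩⟩
          · rintro ⟨X, h6, h7, h8⟩
            have e1 : X = {y.toZFSet} ∩ α := by
              ext z
              rw [mem_inter]
              exact ⟨fun h => ⟨(h7 z (h6 h)).1 h, h6 h⟩, fun h => (h7 z h.2).2 h.1⟩
            rwa [← e1]
        rw [e]
        exact h5
      · obtain ⟨h3, h4⟩ := mem_sep.1 hz
        obtain ⟨_, α, hα, x, hx, e, h5⟩ := mem_sep.1 h4
        rw [pair_inj] at e
        obtain ⟨rfl, rfl⟩ := e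
        refine mem_sep.2 ⟨hα, ?_⟩
        have e1 : ({y.toZFSet} : ZFSet.{u}) ∩ z = {y.toZFSet} := by
          ext w
          rw [mem_inter, ZFSet.mem_singleton]
          exact ⟨fun h => h.1, fun h => ⟨h, by rw [h]; exact hx⟩⟩
        rw [e1, ← sg_iff hx]
        exact h5
    have h3 := (hfU _ hs hsH).2 h2
    obtain ⟨z, hz, h4⟩ := h.unb _ h3 _ hy
    rw [ZFSet.mem_singleton] at hz
    rw [hz] at h4
    exact mem_irrefl _ h4
  have h1 := h'.compl_mem sep_subset hHN hN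
  have h2 := h'.inter2 hl2 (h'.inter2 hl2 hC h1) (h'.inter2 hl2 (h'.tail hl) h'.lim)
  refine ⟨_, h2, fun α hα => ?_⟩
  obtain ⟨h3, h4⟩ := mem_inter.1 hα
  obtain ⟨h5, h6⟩ := mem_inter.1 h3
  obtain ⟨h7, h8⟩ := mem_inter.1 h4
  obtain ⟨hαl, h9⟩ := mem_sep.1 h5
  have h10 := (mem_dif.1 h6).2
  have h11 := (mem_sep.1 h7).2
  have h12 := (mem_sep.1 h8).2
  obtain ⟨α, hαl', rfl⟩ := Ordinal.mem_toZFSet_iff.1 hαl
  have hαω := tzm.1 h11
  refine meas_of_part (M := ZFSet.sep (fun X => InF f α.toZFSet X) (Ph α.toZFSet)) ?_ ?_ ?_ ?_ ?_ ?_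
  · intro x hx
    obtain ⟨y, hy, hxy⟩ := h12 _ (tzm.2 hx)
    obtain ⟨y, hy', rfl⟩ := Ordinal.mem_toZFSet_iff.1 hy
    exact lt_of_le_of_lt (Order.succ_le_of_lt (tzm.1 hxy)) hy'
  · exact lt_trans (by exact_mod_cast Ordinal.natCast_lt_omega0 3) hαω
  · exact HOD_sep4 (Ψ := fun v => InF (v 2) (v 5) (v 0)) (dfn_InF _ _ _) (HOD_Ph (HOD_ord α)) hf
      HOD_empty HOD_empty α 0 0 0 0
  · intro X hX
    exact (mem_Ph.1 (mem_sep.1 hX).1).1
  · intro k hk g hg hgf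
    have h13 := h9 _ (pair_mem_ZZ hαl hk hgf hg)
    have h14 : Uni f g k α.toZFSet := by
      by_contra hc
      exact h13 ⟨k, hk, g, rfl, hgf, hc⟩
    obtain ⟨i, hi, h15, h16⟩ := h14
    have hpm : ∀ i ∈ k, (pre i g α.toZFSet ∈ ZFSet.sep (fun X => InF f α.toZFSet X) (Ph α.toZFSet) ↔
        PrF f g i α.toZFSet) := by
      intro i hi
      obtain ⟨i, _, rfl⟩ := Ordinal.mem_toZFSet_iff.1
        ((isOrdinal_toZFSet α).isTransitive.mem_trans hi hk)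
      rw [prF_iff, mem_sep]
      exact ⟨fun h => h.2, fun h => ⟨mem_Ph.2 ⟨sep_subset, HOD_pre (HOD_ord α) hg i⟩, h⟩⟩
    exact ⟨i, hi, (hpm i hi).2 h15, fun i' hi' h17 => h16 i' hi' ((hpm i' hi').1 h17)⟩
  · intro x hx h13
    refine h10 (mem_sep.2 ⟨hαl, x, hx, (sg_iff hx).2 (mem_sep.1 h13).2⟩)

end Pool.Agent.H639
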