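import Pool.Agent.H639.Atom2

/-!
Bounds for the number of disjoint stationary sets in HOD, and reflection of sequences of
stationary sets below an extendible cardinal.
-/

set_option autoImplicit false
set_option linter.unusedVariables false

namespace Pool.Agent.H639

open ZFSet Gss969 Pool.Agent.H310.HD

universe u

variable {δ l s μ : Ordinal.{u}}

/-- A family is seen in `a`. -/
def FamIn (a m s : ZFSet.{u}) : Prop :=
  ∃ W ∈ a, ∃ l ∈ W, RegUnc l ∧ ∃ S ∈ W, HODin W S ∧ Fam m s l S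

theorem dfn_FamIn (a b c : ℕ) : Dfn Lvl.{u} (fun v => FamIn (v a) (v b) (v c)) := by
  unfold FamIn
  refine Dfn.bex Lvl_sub_Trs _ (Dfn.bex Lvl_sub_Trs _ ((dfn_RegUnc _).and
    (Dfn.bex Lvl_sub_Trs _ ((dfn_HODin _ _).and (dfn_Fam _ _ _ _)))))

theorem ofV {α β : Ordinal.{u}} (h : α < β) : α.toZFSet ∈ V_ β := by
  rw [mem_vonNeumann, Ordinal.rank_toZFSet]; exact h

/-- If the numbers of disjoint stationary sets in HOD, with elements of cofinality at most `μ`,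
are not bounded below `δ`, then they are not bounded. -/
theorem fam_all (hδ : Extendible δ) (hμ : μ < δ)
    (h : ∀ s < δ, ∃ l : Ordinal.{u}, RegUnc l.toZFSet ∧ ∃ S, HOD S ∧
      Fam μ.toZFSet (Ordinal.toZFSet s) l.toZFSet S) (s : Ordinal.{u}) :
    ∃ l : Ordinal.{u}, RegUnc l.toZFSet ∧ ∃ S, HOD S ∧
      Fam μ.toZFSet (Ordinal.toZFSet s) l.toZFSet S := by
  have h1 : ∀ s ∈ δ.toZFSet, FamIn (V_ δ) μ.toZFSet s := by
    intro s hs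
    obtain ⟨s, hs', rfl⟩ := Ordinal.mem_toZFSet_iff.1 hs
    obtain ⟨l, hl, S, hS, hF⟩ := h s hs'
    obtain ⟨β, hβ⟩ := hS.eventually
    let ζ := Order.succ (max β (max l (rank S)))
    have e1 : β ≤ ζ := (le_max_left _ _).trans (Order.le_succ _)
    have e2 : l < ζ := Order.lt_succ_of_le ((le_max_left _ _).trans (le_max_right _ _))
    have e3 : rank S < ζ := Order.lt_succ_of_le ((le_max_right _ _).trans (le_max_right _ _))
    obtain ⟨η, θ, τ, j, h5, D⟩ := hδ.data ζ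
    refine (D.E.el.t3 D.E.lvl D.nl (A := fun a m b => FamIn a m b) (dfn_FamIn 0 1 2)
      D.VdB (ofV (hμ.trans D.lt)) (ofV (hs'.trans D.lt))).2 ?_
    rw [D.jVd, D.fix μ hμ, D.fix s hs']
    exact ⟨V_ ζ, vonNeumann_mem_vonNeumann_iff.2 (h5.trans D.ητ), l.toZFSet, ofV e2, hl, S,
      mem_vonNeumann.2 e3, hβ ζ e1, hF⟩
  obtain ⟨η, θ, τ, j, h5, D⟩ := hδ.data s
  have h7 := (D.E.el.t3 D.E.lvl D.nl (A := fun a m c => ∀ b ∈ c, FamIn a m b)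
    (Dfn.ball Lvl_sub_Trs _ (dfn_FamIn _ _ _)) D.VdB (ofV (hμ.trans D.lt)) D.dB).1 h1
  rw [D.jVd, D.jd, D.fix μ hμ] at h7
  obtain ⟨W, hW, l, hl, h8, S, hS, h9, h10⟩ := h7 s.toZFSet (tzm.2 (h5.trans D.ητ))
  refine ⟨rank l, ?_, S, h9.hod, ?_⟩
  · rw [h8.1.toZFSet_rank_eq]; exact h8
  · rw [h8.1.toZFSet_rank_eq]; exact h10

/-- The number of subsets of `s < δ` is less than `δ`. -/
theorem few_subsets (hδ : Extendible δ) (hs : s < δ) :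
    ∃ m < δ, ∃ g, IsFunc (Ordinal.toZFSet m) (powerset s.toZFSet) g ∧
      ∀ B, B ⊆ s.toZFSet → ∃ i ∈ (Ordinal.toZFSet m), pair i B ∈ g := by
  obtain ⟨c, hc⟩ := exists_list (powerset s.toZFSet) ⟨∅, mem_powerset.2 fun z hz =>
    absurd hz (notMem_empty z)⟩
  obtain ⟨η, θ, τ, j, h5, D⟩ := hδ.data c
  have hA : Dfn Lvl.{u} (fun v => ∃ m ∈ v 0, ∃ g, IsFunc m (powerset (v 1)) g ∧
      ∀ B, B ⊆ v 1 → ∃ i ∈ m, pair i B ∈ g) := by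
    refine Dfn.bex Lvl_sub_Trs _ ?_
    refine Dfn.congr (A := fun v => ∃ g, IsFunc (v 0) (powerset (v 2)) g ∧
      ∀ B, B ⊆ v 2 → ∃ i ∈ v 0, pair i B ∈ g) ?_ fun v => Iff.rfl
    refine Dfn_pow 2 (A := fun P v => ∃ g, IsFunc (v 0) P g ∧
      ∀ B, B ⊆ v 2 → ∃ i ∈ v 0, pair i B ∈ g) ?_
    exact Dfn.exfun _ _ (Dfn.allsub subset_rfl _ (Dfn.bex Lvl_sub_Trs _
      (dfn_pm Lvl_sub_Trs _ _ _)))
  have h1 := (D.E.el.t2 D.E.lvl D.nl (A := fun a b => ∃ m ∈ a, ∃ g, IsFunc m (powerset b) g ∧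
      ∀ B, B ⊆ b → ∃ i ∈ m, pair i B ∈ g) hA D.dB (ofV (hs.trans D.lt))).2 (by
    rw [D.jd, D.fix s hs]
    obtain ⟨g, hg, hg'⟩ := hc c le_rfl
    exact ⟨c.toZFSet, tzm.2 (h5.trans D.ητ), g, hg, fun B hB => hg' B (mem_powerset.2 hB)⟩)
  obtain ⟨m, hm, g, hg⟩ := h1
  obtain ⟨m, hm', rfl⟩ := Ordinal.mem_toZFSet_iff.1 hm
  exact ⟨m, hm', g, hg⟩

/-- `X ∩ α` is stationary in `α`. -/
def StI (X α : ZFSet.{u}) : Prop :=
  ∃ Y, Y ⊆ X ∧ ((∀ z ∈ X, (z ∈ Y ↔ z ∈ α)) ∧ Stat Y α)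

theorem dfn_StI (a b : ℕ) : Dfn Lvl.{u} (fun v => StI (v a) (v b)) := by
  unfold StI
  exact Dfn.exsub subset_rfl _ ((Dfn.ball Lvl_sub_Trs _ ((Dfn.mem _ _).iff (Dfn.mem _ _))).and
    (dfn_Stat _ _))

theorem stI_iff {X α : ZFSet.{u}} : StI X α ↔ Stat (X ∩ α) α := by
  constructor
  · rintro ⟨Y, h1, h2, h3⟩
    have : Y = X ∩ α := by
      ext z
      rw [mem_inter]
      exact ⟨fun h => ⟨h1 h, (h2 z (h1 h)).1 h⟩, fun h => (h2 z h.1).2 h.2⟩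
    rwa [← this]
  · intro h
    refine ⟨X ∩ α, fun z hz => (mem_inter.1 hz).1, fun z hz => ?_, h⟩
    rw [mem_inter]
    exact ⟨fun h => h.2, fun h => ⟨hz, h⟩⟩

/-- The reflected statement. -/
def RfS (C d i p f : ZFSet.{u}) : Prop :=
  ∃ α ∈ C, (∃ m ∈ d, CofN m α) ∧ ∀ ξ ∈ i, ∀ X ∈ p, pair ξ X ∈ f → StI X α

theorem dfn_RfS (a b c d e : ℕ) :
    Dfn Lvl.{u} (fun v => RfS (v a) (v b) (v c) (v d) (v e)) := by
  unfold RfS
  refine Dfn.bex Lvl_sub_Trs _ ((Dfn.bex Lvl_sub_Trs _ (dfn_CofN _ _)).and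
    (Dfn.ball Lvl_sub_Trs _ (Dfn.ball Lvl_sub_Trs _ ((dfn_pm Lvl_sub_Trs _ _ _).imp
      (dfn_StI _ _)))))

/-- **Reflection.** A sequence of fewer than `δ` stationary subsets of the regular cardinal
`l > δ`, with elements of cofinality less than `δ`, reflects simultaneously at stationary many
ordinals of cofinality less than `δ`. -/
theorem refl_seq (hδ : Extendible δ) (hl : RegUnc l.toZFSet) (hδl : δ < l) {i : Ordinal.{u}}
    (hi : i < δ) {f : ZFSet.{u}} (hf : IsFunc i.toZFSet (powerset l.toZFSet) f)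
    (hst : ∀ ξ < i, Stat (app f ξ.toZFSet) l.toZFSet ∧
      ∃ μ < δ, ∀ a ∈ app f ξ.toZFSet, CofN (Ordinal.toZFSet μ) a) :
    StatL {α | (∃ m < δ, CofN (Ordinal.toZFSet m) α.toZFSet) ∧
      ∀ ξ < i, Stat (app f ξ.toZFSet ∩ α.toZFSet) α.toZFSet} l := by
  intro C hC hC'
  obtain ⟨η, θ, τ, j, h5, D⟩ := hδ.data l
  have hlη : l < η := h5
  obtain ⟨L, hL1, hL2, hL3⟩ := D.exists_lam hl hlη
  have hlB : l.toZFSet ∈ V_ η := ofV hlη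
  have hPB : powerset l.toZFSet ∈ V_ η := Lvl_powerset D.E.lvl hlB
  have hfB : f ∈ V_ η := Lvl_func D.E.lvl (ofV (hi.trans D.lt)) hPB hf
  have hCB : C ∈ V_ η := Lvl_sub D.E.lvl hlB hC
  -- `L < j(l)`
  have hjl : j l.toZFSet = (rank (j l.toZFSet)).toZFSet := D.jJ hlη
  have hreg : RegUnc (j l.toZFSet) :=
    (D.E.el.t1 D.E.lvl D.nl (A := fun a => RegUnc a) (dfn_RegUnc 0) hlB).1 hl
  have hδj : τ < rank (j l.toZFSet) := by
    have h6 := (D.J_lt D.lt hlη).1 hδl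
    rwa [D.jd, Ordinal.rank_toZFSet] at h6
  have hfun : ∀ M : Ordinal.{u}, (∀ x < l, rank (j x.toZFSet) < M) →
      IsFunc l.toZFSet M.toZFSet (gr l.toZFSet fun x => j x) := by
    intro M hM
    refine isFunc_gr fun x hx => ?_
    obtain ⟨x, hx', rfl⟩ := Ordinal.mem_toZFSet_iff.1 hx
    rw [D.jJ (hx'.trans hlη)]
    exact tzm.2 (hM x hx')
  have hLlt : L < rank (j l.toZFSet) := by
    refine lt_of_le_of_ne hL3 fun hcon => ?_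
    rw [hjl, ← hcon] at hreg
    obtain ⟨b, hb, h6⟩ := hreg.2.2 l.toZFSet (tzm.2 (by rw [hcon]; exact (hlη.trans D.ητ).trans hδj))
      _ (hfun L hL1)
    obtain ⟨b, hb', rfl⟩ := Ordinal.mem_toZFSet_iff.1 hb
    obtain ⟨x, hx, h7⟩ := hL2 b hb'
    have h8 := h6 _ (tzm.2 hx) _ (tzm.2 (hL1 x hx)) (pair_mem_gr.2 ⟨tzm.2 hx, D.jJ (hx.trans hlη)⟩)
    exact lt_asymm h7 (tzm.1 h8)
  have hcl : Club (j C) (j l.toZFSet) :=
    (D.E.el.t2 D.E.lvl D.nl (A := fun a b => Club a b) (dfn_Club 0 1) hCB hlB).1 hC'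
  have hLC : L.toZFSet ∈ j C := by
    refine hcl.2.2 _ ?_ ?_ ?_
    · rw [hjl]; exact tzm.2 hLlt
    · exact ⟨_, tzm.2 (hL1 0 hl.pos), rfl⟩
    · intro y hy
      obtain ⟨y, hy', rfl⟩ := Ordinal.mem_toZFSet_iff.1 hy
      obtain ⟨x, hx, h6⟩ := hL2 y hy'
      obtain ⟨c, hc, h7⟩ := hC'.2.1 _ (tzm.2 hx)
      obtain ⟨c, hc', rfl⟩ := Ordinal.mem_toZFSet_iff.1 (hC hc)
      have hcη : c < η := hc'.trans hlη
      refine ⟨j c.toZFSet, ?_, ?_, ?_⟩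
      · exact (D.E.el.t2 D.E.lvl D.nl (A := fun a b => a ∈ b) (Dfn.mem 0 1) (ofV hcη) hCB).1 hc
      · rw [D.jJ hcη]; exact tzm.2 (hL1 c hc')
      · rw [D.jJ hcη]
        exact tzm.2 (h6.trans ((D.J_lt (hx.trans hlη) hcη).1 (tzm.1 h7)))
  have key := (D.E.el.t5 D.E.lvl D.nl (A := fun a b c d e => RfS a b c d e) (dfn_RfS 0 1 2 3 4)
    hCB D.dB (ofV (hi.trans D.lt)) hPB hfB).2 (by
    rw [D.jd, D.fix i hi]
    refine ⟨L.toZFSet, hLC, ⟨l.toZFSet, tzm.2 (hlη.trans D.ητ), ?_⟩, ?_⟩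
    · refine ⟨_, hfun L hL1, fun x hx => ?_⟩
      obtain ⟨x, hx', rfl⟩ := Ordinal.mem_toZFSet_iff.1 hx
      obtain ⟨z, hz, h6⟩ := hL2 x hx'
      refine ⟨_, tzm.2 hz, _, tzm.2 (hL1 z hz), pair_mem_gr.2 ⟨tzm.2 hz, D.jJ (hz.trans hlη)⟩,
        tzm.2 h6⟩
    · intro ξ hξ X hX hp
      obtain ⟨ξ, hξ', rfl⟩ := Ordinal.mem_toZFSet_iff.1 hξ
      obtain ⟨h6, μ, hμ, h7⟩ := hst ξ hξ'
      have hAp : app f ξ.toZFSet ∈ powerset l.toZFSet := app_mem hf (tzm.2 hξ')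
      have hAB : app f ξ.toZFSet ∈ V_ η := D.E.bt.mem_trans hAp hPB
      have h8 : pair (j ξ.toZFSet) (j (app f ξ.toZFSet)) ∈ j f :=
        (D.E.el.t3 D.E.lvl D.nl (A := fun a b c => pair a b ∈ c) (dfn_pm Lvl_sub_Trs 0 1 2)
          (ofV ((hξ'.trans hi).trans D.lt)) hAB hfB).1 (app_spec hf (tzm.2 hξ'))
      have h9 : IsFunc (j i.toZFSet) (j (powerset l.toZFSet)) (j f) :=
        (D.E.el.t3 D.E.lvl D.nl (A := fun a b c => IsFunc a b c) (dfn_isFunc Lvl_sub_Trs 0 1 2)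
          (ofV (hi.trans D.lt)) hPB hfB).1 hf
      rw [D.fix i hi] at h9
      rw [D.fix ξ (hξ'.trans hi)] at h8
      have hX' : X = j (app f ξ.toZFSet) := (h9.2 _ (tzm.2 hξ')).unique hp h8
      rw [stI_iff, hX']
      intro C' hC1 hC2
      obtain ⟨x, hx, h10, h11⟩ := D.stat_up hδ.lim hl hlη hμ hL1 hL2 (mem_powerset.1 hAp) h6 h7 hC2
      refine ⟨j x.toZFSet, ?_, h11⟩
      rw [mem_inter]
      refine ⟨?_, hC1 h11⟩
      exact (D.E.el.t2 D.E.lvl D.nl (A := fun a b => a ∈ b) (Dfn.mem 0 1) (ofV (hx.trans hlη))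
        hAB).1 h10)
  obtain ⟨α, hα, ⟨m, hm, h6⟩, h7⟩ := key
  obtain ⟨α, hα', rfl⟩ := Ordinal.mem_toZFSet_iff.1 (hC hα)
  obtain ⟨m, hm', rfl⟩ := Ordinal.mem_toZFSet_iff.1 hm
  refine ⟨α, hα', ⟨⟨m, hm', h6⟩, fun ξ hξ => ?_⟩, hα⟩
  rw [← stI_iff]
  exact h7 _ (tzm.2 hξ) _ (app_mem hf (tzm.2 hξ)) (app_spec hf (tzm.2 hξ))

end Pool.Agent.H639
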