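import Pool.Agent.H639.Mit1

/-!
A sequence of atoms, each of which consists of ordinals where all earlier ones reflect.
-/

set_option autoImplicit false
set_option linter.unusedVariables false

namespace Pool.Agent.H639

open ZFSet Gss969 Pool.Agent.H310.HD

universe u

variable {δ l s μ : Ordinal.{u}} {W : ZFSet.{u}}

/-- For every `μ < δ` there is a bound less than `δ` for the numbers of disjoint stationary sets in
HOD whose elements have cofinality at most `μ`. -/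
def Bdd (δ : Ordinal.{u}) : Prop :=
  ∀ μ < δ, ∃ s < δ, ∀ l : Ordinal.{u}, RegUnc l.toZFSet → ∀ S, HOD S →
    ¬ Fam (Ordinal.toZFSet μ) (Ordinal.toZFSet s) l.toZFSet S

/-- `v 0` is an atom with bounded cofinalities at whose elements the values of `v 1` reflect. -/
def Nxt (v : ℕ → ZFSet.{u}) : Prop :=
  Stat (v 0) (v 6) ∧ ((∀ B ∈ v 3, B ⊆ v 0 → ¬ (Stat B (v 6) ∧ ∃ D, D ⊆ v 0 ∧
    ((∀ z ∈ v 0, (z ∈ D ↔ ¬ z ∈ B)) ∧ Stat D (v 6)))) ∧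
   ((∃ m ∈ v 7, ∀ a ∈ v 0, CofN m a) ∧
    ∀ j ∈ v 2, ∀ Y ∈ v 3, pair j Y ∈ v 1 → ∀ α ∈ v 0, StI Y α))

theorem dfn_Nxt : Dfn Lvl.{u} Nxt := by
  unfold Nxt
  refine (dfn_Stat _ _).and (Dfn.and ?_ (Dfn.and ?_ ?_))
  · refine Dfn.ball Lvl_sub_Trs _ ((dfn_sub Lvl_sub_Trs _ _).imp (Dfn.not ((dfn_Stat _ _).and
      (Dfn.exsub subset_rfl _ (Dfn.and ?_ (dfn_Stat _ _))))))
    exact Dfn.ball Lvl_sub_Trs _ ((Dfn.mem _ _).iff (Dfn.mem _ _).not)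
  · exact Dfn.bex Lvl_sub_Trs _ (Dfn.ball Lvl_sub_Trs _ (dfn_CofN _ _))
  · repeat' first
      | exact Dfn.mem _ _ | exact dfn_pm Lvl_sub_Trs _ _ _ | exact dfn_StI _ _
      | refine Dfn.ball Lvl_sub_Trs _ ?_ | refine Dfn.imp ?_ ?_

/-- The sequence of atoms. -/
noncomputable def AA (l δ : Ordinal.{u}) (W : ZFSet.{u}) : Ordinal.{u} → ZFSet.{u} :=
  rc (fun X f i => Nxt (as X f i (Ph l.toZFSet) ∅ ∅ l.toZFSet δ.toZFSet (0 : Ordinal.{u}).toZFSet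
    (0 : Ordinal.{u}).toZFSet)) (Ph l.toZFSet) W

theorem AA_mem (hWO : IsWO W (Ph l.toZFSet)) (i : Ordinal.{u}) :
    AA l δ W i ∈ Ph l.toZFSet := rc_mem _ hWO empty_mem_Ph i

theorem HOD_gz_AA (hW : HOD W) (hWO : IsWO W (Ph l.toZFSet)) (i : Ordinal.{u}) :
    HOD (gz i (AA l δ W)) :=
  HOD_rc dfn_Nxt (HOD_Ph (HOD_ord l)) hW hWO empty_mem_Ph HOD_empty HOD_empty l δ 0 0 i

/-- The properties of the `i`-th atom. -/
def IsA (l δ i : Ordinal.{u}) (F : Ordinal.{u} → ZFSet.{u}) : Prop :=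
  Atom l.toZFSet (F i) ∧ (∃ m < δ, ∀ a ∈ F i, CofN (Ordinal.toZFSet m) a) ∧
    ∀ j < i, ∀ α ∈ F i, Stat (F j ∩ α) α

theorem nxt_iff {F : Ordinal.{u} → ZFSet.{u}} {i : Ordinal.{u}} {X p q c d : ZFSet.{u}}
    (hF : ∀ j < i, F j ∈ Ph l.toZFSet) (hX : X ∈ Ph l.toZFSet) :
    Nxt (as X (gz i F) i.toZFSet (Ph l.toZFSet) p q l.toZFSet δ.toZFSet c d) ↔
      Atom l.toZFSet X ∧ (∃ m < δ, ∀ a ∈ X, CofN (Ordinal.toZFSet m) a) ∧
        ∀ j < i, ∀ α ∈ X, Stat (F j ∩ α) α := by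
  show Stat X l.toZFSet ∧ ((∀ B ∈ Ph l.toZFSet, B ⊆ X → ¬ (Stat B l.toZFSet ∧ ∃ D, D ⊆ X ∧
    ((∀ z ∈ X, (z ∈ D ↔ ¬ z ∈ B)) ∧ Stat D l.toZFSet))) ∧
   ((∃ m ∈ δ.toZFSet, ∀ a ∈ X, CofN m a) ∧
    ∀ j ∈ i.toZFSet, ∀ Y ∈ Ph l.toZFSet, pair j Y ∈ gz i F → ∀ α ∈ X, StI Y α)) ↔ _
  rw [mem_Ph] at hX
  have e1 : (∀ B ∈ Ph l.toZFSet, B ⊆ X → ¬ (Stat B l.toZFSet ∧ ∃ D, D ⊆ X ∧
      ((∀ z ∈ X, (z ∈ D ↔ ¬ z ∈ B)) ∧ Stat D l.toZFSet))) ↔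
      ∀ B, B ⊆ X → HOD B → ¬ (Stat B l.toZFSet ∧ Stat (dif X B) l.toZFSet) := by
    constructor
    · rintro h B h1 h2 ⟨h3, h4⟩
      refine h B (mem_Ph.2 ⟨fun x hx => hX.1 (h1 hx), h2⟩) h1 ⟨h3, dif X B, sep_subset,
        fun z hz => ?_, h4⟩
      rw [mem_dif]
      exact ⟨fun h => h.2, fun h => ⟨hz, h⟩⟩
    · rintro h B h1 h2 ⟨h3, D, h4, h5, h6⟩
      refine h B h2 (mem_Ph.1 h1).2 ⟨h3, ?_⟩
      have : dif X B = D := by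
        ext z
        rw [mem_dif]
        exact ⟨fun h => (h5 z h.1).2 h.2, fun h => ⟨h4 h, (h5 z (h4 h)).1 h⟩⟩
      rwa [this]
  have e2 : (∃ m ∈ δ.toZFSet, ∀ a ∈ X, CofN m a) ↔
      ∃ m < δ, ∀ a ∈ X, CofN (Ordinal.toZFSet m) a := by
    constructor
    · rintro ⟨m, hm, h⟩
      obtain ⟨m, hm', rfl⟩ := Ordinal.mem_toZFSet_iff.1 hm
      exact ⟨m, hm', h⟩
    · rintro ⟨m, hm, h⟩
      exact ⟨_, tzm.2 hm, h⟩
  have e3 : (∀ j ∈ i.toZFSet, ∀ Y ∈ Ph l.toZFSet, pair j Y ∈ gz i F → ∀ α ∈ X, StI Y α) ↔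
      ∀ j < i, ∀ α ∈ X, Stat (F j ∩ α) α := by
    constructor
    · intro h j hj α hα
      rw [← stI_iff]
      exact h _ (tzm.2 hj) _ (hF j hj) (pair_gz.2 ⟨hj, rfl⟩) α hα
    · intro h j hj Y hY h1 α hα
      obtain ⟨j, hj', rfl⟩ := Ordinal.mem_toZFSet_iff.1 hj
      rw [← (pair_gz.1 h1).2, stI_iff]
      exact h j hj' α hα
  rw [e1, e2, e3]
  unfold Atom
  constructor
  · rintro ⟨h1, h2, h3⟩
    exact ⟨⟨hX.2, hX.1, h1, h2⟩, h3⟩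
  · rintro ⟨⟨_, _, h1, h2⟩, h3⟩
    exact ⟨h1, h2, h3⟩

/-- **The sequence of atoms.** -/
theorem AA_spec (hδ : Extendible δ) (hl : RegUnc l.toZFSet) (hδl : δ < l) (hB : Bdd δ)
    (hW : HOD W) (hWO : IsWO W (Ph l.toZFSet)) : ∀ i < δ, IsA l δ i (AA l δ W) := by
  intro i
  induction i using WellFoundedLT.induction with
  | _ i ih =>
    intro hi
    have hmem : ∀ j < i, AA l δ W j ∈ Ph l.toZFSet := fun j _ => AA_mem hWO j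
    have hf : IsFunc i.toZFSet (powerset l.toZFSet) (gz i (AA l δ W)) :=
      isFunc_gz fun j hj => mem_powerset.2 (mem_Ph.1 (hmem j hj)).1
    have happ : ∀ j < i, app (gz i (AA l δ W)) j.toZFSet = AA l δ W j := by
      intro j hj
      unfold gz
      rw [app_gr (tzm.2 hj), Ordinal.rank_toZFSet]
    have h1 := refl_seq hδ hl hδl hi hf (fun ξ hξ => by
      rw [happ ξ hξ]
      exact ⟨(ih ξ hξ (hξ.trans hi)).1.2.2.1, (ih ξ hξ (hξ.trans hi)).2.1⟩)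
    obtain ⟨m, hm, h2⟩ := StatL.union hl h1 hδl
      (P := fun m α => m < δ ∧ CofN m.toZFSet α.toZFSet) (by
        rintro α ⟨⟨m, hm, h⟩, _⟩ _
        exact ⟨m, hm, hm, h⟩)
    obtain ⟨s, hs, hno⟩ := hB m hm
    let R : ZFSet.{u} := ZFSet.sep (fun ξ => CofN m.toZFSet ξ ∧
      ∀ j ∈ i.toZFSet, ∀ Y ∈ Ph l.toZFSet, pair j Y ∈ gz i (AA l δ W) → StI Y ξ) l.toZFSet
    have hR : ∀ ξ, ξ ∈ R ↔ ξ ∈ l.toZFSet ∧ CofN m.toZFSet ξ ∧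
        ∀ j < i, Stat (AA l δ W j ∩ ξ) ξ := by
      intro ξ
      show ξ ∈ ZFSet.sep _ _ ↔ _
      rw [mem_sep]
      refine and_congr_right fun _ => and_congr_right fun _ => ?_
      constructor
      · intro h j hj
        rw [← stI_iff]
        exact h _ (tzm.2 hj) _ (hmem j hj) (pair_gz.2 ⟨hj, rfl⟩)
      · intro h j hj Y hY h1
        obtain ⟨j, hj', rfl⟩ := Ordinal.mem_toZFSet_iff.1 hj
        rw [← (pair_gz.1 h1).2, stI_iff]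
        exact h j hj'
    have hRH : HOD R := by
      refine HOD_sep4 (Ψ := fun v => CofN (v 5) (v 0) ∧ ∀ j ∈ v 6, ∀ Y ∈ v 3,
        pair j Y ∈ v 2 → StI Y (v 0)) ?_ (HOD_ord l) (HOD_gz_AA hW hWO i) (HOD_Ph (HOD_ord l))
        HOD_empty m i 0 0 0
      refine (dfn_CofN _ _).and ?_
      repeat' first
        | exact Dfn.mem _ _ | exact dfn_pm Lvl_sub_Trs _ _ _ | exact dfn_StI _ _
        | refine Dfn.ball Lvl_sub_Trs _ ?_ | refine Dfn.imp ?_ ?_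
    have hRs : Stat R l.toZFSet := by
      rw [stat_iff]
      refine h2.mono ?_
      rintro α hα ⟨⟨_, h3⟩, _, h4⟩
      show α.toZFSet ∈ R
      rw [hR]
      refine ⟨tzm.2 hα, h4, fun j hj => ?_⟩
      have := h3 j hj
      rwa [happ j hj] at this
    obtain ⟨m', hm', g, hg⟩ := few_subsets hδ hs
    obtain ⟨A', hA1, hA2⟩ := exists_atom hl (hs.trans hδl) ⟨m', hm'.trans hδl, g, hg⟩
      (hno l hl) hRH sep_subset hRs (fun a ha => ((hR a).1 ha).2.1)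
    have hA3 : A' ∈ Ph l.toZFSet := mem_Ph.2 ⟨hA2.2.1, hA2.1⟩
    have hA4 : Atom l.toZFSet A' ∧ (∃ m < δ, ∀ a ∈ A', CofN (Ordinal.toZFSet m) a) ∧
        ∀ j < i, ∀ α ∈ A', Stat (AA l δ W j ∩ α) α :=
      ⟨hA2, ⟨m, hm, fun a ha => ((hR a).1 (hA1 ha)).2.1⟩,
        fun j hj α hα => ((hR α).1 (hA1 hα)).2.2 j hj⟩
    have h5 := lst_spec (fun X => Nxt (as X (gz i (AA l δ W)) i.toZFSet (Ph l.toZFSet) ∅ ∅
      l.toZFSet δ.toZFSet (0 : Ordinal.{u}).toZFSet (0 : Ordinal.{u}).toZFSet)) hWO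
    have h6 : AA l δ W i = lst (fun X => Nxt (as X (gz i (AA l δ W)) i.toZFSet (Ph l.toZFSet) ∅ ∅
      l.toZFSet δ.toZFSet (0 : Ordinal.{u}).toZFSet (0 : Ordinal.{u}).toZFSet)) (Ph l.toZFSet) W :=
      rc_eq _ _ _ _
    unfold IsA
    rcases h5 with ⟨h7, h8, _⟩ | ⟨h7, _⟩
    · rw [← h6] at h7 h8
      exact (nxt_iff hmem h7).1 h8
    · exact absurd ⟨A', hA3, (nxt_iff hmem hA3).2 hA4⟩ h7

end Pool.Agent.H639
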