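import Pool.Agent.H639.Mit2

/-!
Measures in HOD from atoms, and the Mitchell order.
-/

set_option autoImplicit false
set_option linter.unusedVariables false

namespace Pool.Agent.H639

open ZFSet Gss969 Pool.Agent.H310.HD

universe u

variable {δ l s μ : Ordinal.{u}} {W : ZFSet.{u}}

/-! ### Clubs -/

theorem two_lt {l : Ordinal.{u}} (hl : RegUnc l.toZFSet) : (2 : Ordinal.{u}) < l :=
  lt_trans (by exact_mod_cast Ordinal.natCast_lt_omega0 2) hl.om_lt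

theorem lt_two {i : Ordinal.{u}} (h : i < 2) : i = 0 ∨ i = 1 := by
  have : i < Order.succ 1 := by
    rw [← one_add_one_eq_two, ← Ordinal.add_one_eq_succ] at *
    exact h
  rcases (Order.lt_succ_iff.1 this).lt_or_eq with h1 | h1
  · exact Or.inl (Ordinal.lt_one_iff_zero.1 h1)
  · exact Or.inr h1

/-- A stationary set is the union of two sets one of which is stationary. -/
theorem statL_or (hl : RegUnc l.toZFSet) {S : Set Ordinal.{u}} (hS : StatL S l)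
    (P : Ordinal.{u} → Prop) :
    StatL {α | α ∈ S ∧ P α} l ∨ StatL {α | α ∈ S ∧ ¬ P α} l := by
  obtain ⟨i, hi, h⟩ := StatL.union hl hS (two_lt hl)
    (P := fun i α => (i = 0 ∧ P α) ∨ (i = 1 ∧ ¬ P α)) (fun α _ _ => by
      by_cases h : P α
      · exact ⟨0, by norm_num, Or.inl ⟨rfl, h⟩⟩
      · exact ⟨1, by norm_num, Or.inr ⟨rfl, h⟩⟩)
  rcases lt_two hi with rfl | rfl
  · left
    refine h.mono fun α _ h1 => ⟨h1.1, ?_⟩
    rcases h1.2 with h2 | h2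
    · exact h2.2
    · exact absurd h2.1 (by norm_num)
  · right
    refine h.mono fun α _ h1 => ⟨h1.1, ?_⟩
    rcases h1.2 with h2 | h2
    · exact absurd h2.1 (by norm_num)
    · exact h2.2

theorem statL_club (hl : RegUnc l.toZFSet) {S : Set Ordinal.{u}} (hS : StatL S l) {C : ZFSet.{u}}
    (hC : Club C l.toZFSet) : StatL {α | α ∈ S ∧ α.toZFSet ∈ C} l := by
  rcases statL_or hl hS (fun α => α.toZFSet ∈ C) with h | h
  · exact h
  · obtain ⟨α, _, h1, h2⟩ := h C hC.1 hC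
    exact absurd h2 h1.2

/-- The limit points of a club. -/
theorem club_lim (hl : RegUnc l.toZFSet) {C : ZFSet.{u}} (hC : Club C l.toZFSet) :
    ∃ E, Club E l.toZFSet ∧ ∀ α ∈ E, (∃ x ∈ α, x = x) ∧ ∀ x ∈ α, ∃ c ∈ C, c ∈ α ∧ x ∈ c := by
  have h : ∀ ξ : Ordinal.{u}, ∃ c : Ordinal.{u}, ξ < l → c < l ∧ c.toZFSet ∈ C ∧ ξ < c := by
    intro ξ
    by_cases hξ : ξ < l
    · obtain ⟨c, hc, h1⟩ := hC.2.1 _ (tzm.2 hξ)
      obtain ⟨c, hc', rfl⟩ := Ordinal.mem_toZFSet_iff.1 (hC.1 hc)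
      exact ⟨c, fun _ => ⟨hc', hc, tzm.1 h1⟩⟩
    · exact ⟨0, fun h => absurd h hξ⟩
  choose F hF using h
  refine ⟨_, club_closure hl F fun ξ hξ => (hF ξ hξ).1, fun α hα => ?_⟩
  obtain ⟨h1, h2, h3⟩ := mem_sep.1 hα
  refine ⟨h2, fun x hx => ⟨_, ?_, h3 x hx, ?_⟩⟩
  · obtain ⟨a, ha, rfl⟩ := Ordinal.mem_toZFSet_iff.1 h1
    obtain ⟨x, hx', rfl⟩ := Ordinal.mem_toZFSet_iff.1 hx
    rw [Ordinal.rank_toZFSet]
    exact (hF x (hx'.trans ha)).2.1
  · obtain ⟨a, ha, rfl⟩ := Ordinal.mem_toZFSet_iff.1 h1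
    obtain ⟨x, hx', rfl⟩ := Ordinal.mem_toZFSet_iff.1 hx
    rw [Ordinal.rank_toZFSet]
    exact tzm.2 (hF x (hx'.trans ha)).2.2

/-- A club intersected with one of its limit points. -/
theorem club_inter_ord {C α : ZFSet.{u}} (hC : Club C l.toZFSet) (hα : α ∈ l.toZFSet)
    (h : ∀ x ∈ α, ∃ c ∈ C, c ∈ α ∧ x ∈ c) : Club (C ∩ α) α := by
  refine ⟨fun x hx => (mem_inter.1 hx).2, fun x hx => ?_, fun a ha h1 h2 => ?_⟩
  · obtain ⟨c, h1, h2, h3⟩ := h x hx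
    exact ⟨c, mem_inter.2 ⟨h1, h2⟩, h3⟩
  · refine mem_inter.2 ⟨hC.2.2 a ((isOrdinal_toZFSet l).isTransitive.mem_trans ha hα) h1 fun x hx => ?_, ha⟩
    obtain ⟨c, h3, h4, h5⟩ := h2 x hx
    exact ⟨c, (mem_inter.1 h3).1, h4, h5⟩

/-- The intersection of two clubs. -/
theorem club_inter_cof {C C' : ZFSet.{u}} {α : Ordinal.{u}}
    (hα : ¬ CofN Ordinal.omega0.toZFSet α.toZFSet) (hC : Club C α.toZFSet)
    (hC' : Club C' α.toZFSet) : Club (C ∩ C') α.toZFSet := by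
  refine ⟨fun x hx => hC.1 (mem_inter.1 hx).1, fun x hx => ?_, fun a ha h1 h2 => ?_⟩
  · have h : ∀ ξ : Ordinal.{u}, ∃ c : Ordinal.{u}, ∃ c' : Ordinal.{u}, ξ < α →
        c < α ∧ c.toZFSet ∈ C ∧ ξ < c ∧ c' < α ∧ c'.toZFSet ∈ C' ∧ c < c' := by
      intro ξ
      by_cases hξ : ξ < α
      · obtain ⟨c, hc, h1⟩ := hC.2.1 _ (tzm.2 hξ)
        obtain ⟨c, hc1, rfl⟩ := Ordinal.mem_toZFSet_iff.1 (hC.1 hc)
        obtain ⟨c', hc', h2⟩ := hC'.2.1 _ (tzm.2 hc1)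
        obtain ⟨c', hc2, rfl⟩ := Ordinal.mem_toZFSet_iff.1 (hC'.1 hc')
        exact ⟨c, c', fun _ => ⟨hc1, hc, tzm.1 h1, hc2, hc', tzm.1 h2⟩⟩
      · exact ⟨0, 0, fun h => absurd h hξ⟩
    choose F F' hF using h
    obtain ⟨ξ, hξ, rfl⟩ := Ordinal.mem_toZFSet_iff.1 hx
    let G : ℕ → Ordinal.{u} := fun n => F'^[n] ξ
    have hG0 : G 0 = ξ := rfl
    have hGs : ∀ n, G (n + 1) = F' (G n) := fun n => Function.iterate_succ_apply' F' n ξ
    have hG : ∀ n, G n < α := by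
      intro n
      induction n with
      | zero => exact hξ
      | succ n ih => rw [hGs]; exact (hF _ ih).2.2.2.1
    have hlt : ∀ n, G n < G (n + 1) := by
      intro n
      rw [hGs]
      exact (hF _ (hG n)).2.2.1.trans (hF _ (hG n)).2.2.2.2.2
    obtain ⟨β, hβ, h1, h2⟩ := exists_sup' hα hG hlt
    have hne : ∃ x ∈ β.toZFSet, x = x := ⟨_, tzm.2 (h1 0), rfl⟩
    refine ⟨β.toZFSet, mem_inter.2 ⟨hC.2.2 _ (tzm.2 hβ) hne ?_, hC'.2.2 _ (tzm.2 hβ) hne ?_⟩,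
      tzm.2 (h1 0)⟩
    · intro y hy
      obtain ⟨y, hy', rfl⟩ := Ordinal.mem_toZFSet_iff.1 hy
      obtain ⟨n, hn⟩ := h2 y hy'
      have h3 := hF _ (hG n)
      refine ⟨_, h3.2.1, tzm.2 (lt_trans h3.2.2.2.2.2 ?_), tzm.2 (hn.trans h3.2.2.1)⟩
      rw [← hGs]; exact h1 _
    · intro y hy
      obtain ⟨y, hy', rfl⟩ := Ordinal.mem_toZFSet_iff.1 hy
      obtain ⟨n, hn⟩ := h2 y hy'
      have h3 := hF _ (hG n)
      refine ⟨_, h3.2.2.2.2.1, ?_, tzm.2 (hn.trans (h3.2.2.1.trans h3.2.2.2.2.2))⟩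
      rw [← hGs]; exact tzm.2 (h1 _)
  · refine mem_inter.2 ⟨hC.2.2 a ha h1 fun x hx => ?_, hC'.2.2 a ha h1 fun x hx => ?_⟩
    · obtain ⟨c, h3, h4, h5⟩ := h2 x hx
      exact ⟨c, (mem_inter.1 h3).1, h4, h5⟩
    · obtain ⟨c, h3, h4, h5⟩ := h2 x hx
      exact ⟨c, (mem_inter.1 h3).2, h4, h5⟩

/-- If a set of limit ordinals is stationary in `α` then the cofinality of `α` is uncountable. -/
theorem unc_of_stat {Z : ZFSet.{u}} {α : Ordinal.{u}} (h : Stat Z α.toZFSet)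
    (hZ : ∀ a ∈ Z, ∃ m, CofN m a) : ¬ CofN Ordinal.omega0.toZFSet α.toZFSet := by
  rintro ⟨f, hf, hcof⟩
  have hlim : ∀ x < α, Order.succ x < α := by
    intro x hx
    obtain ⟨n, _, y, hy, _, h1⟩ := hcof _ (tzm.2 hx)
    obtain ⟨y, hy', rfl⟩ := Ordinal.mem_toZFSet_iff.1 hy
    exact lt_of_le_of_lt (Order.succ_le_of_lt (tzm.1 h1)) hy'
  have h0 : ∀ n : ℕ, ∃ y < α, app f (nt n) = Ordinal.toZFSet y := by
    intro n
    have := app_mem hf (nt_mem n)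
    obtain ⟨y, hy, e⟩ := Ordinal.mem_toZFSet_iff.1 this
    exact ⟨y, hy, e.symm⟩
  choose g hg1 hg2 using h0
  -- a strictly increasing cofinal sequence of successors
  let G : ℕ → Ordinal.{u} := fun n => Nat.rec (Order.succ (g 0))
    (fun n x => Order.succ (max x (g (n + 1)))) n
  have hGs : ∀ n, G (n + 1) = Order.succ (max (G n) (g (n + 1))) := fun n => rfl
  have hG : ∀ n, G n < α := by
    intro n
    induction n with
    | zero => exact hlim _ (hg1 0)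
    | succ n ih => rw [hGs]; exact hlim _ (max_lt ih (hg1 _))
  have hGg : ∀ n, g n < G n := by
    intro n
    rcases n with _ | n
    · exact Order.lt_succ _
    · rw [hGs]; exact Order.lt_succ_of_le (le_max_right _ _)
  have hlt : ∀ n, G n < G (n + 1) := by
    intro n; rw [hGs]; exact Order.lt_succ_of_le (le_max_left _ _)
  have hmono : StrictMono G := strictMono_nat_of_lt_succ hlt
  have hsucc : ∀ n, ∃ y, G n = Order.succ y := by
    intro n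
    rcases n with _ | n
    · exact ⟨_, rfl⟩
    · exact ⟨_, hGs n⟩
  let C : ZFSet.{u} := ZFSet.sep (fun x => ∃ n, x = (G n).toZFSet) α.toZFSet
  have hC : ∀ x, x ∈ C ↔ ∃ n, x = (G n).toZFSet := by
    intro x
    show x ∈ ZFSet.sep _ _ ↔ _
    rw [mem_sep]
    constructor
    · exact fun h => h.2
    · rintro ⟨n, rfl⟩
      exact ⟨tzm.2 (hG n), n, rfl⟩
  obtain ⟨x, hx, hxC⟩ := h C sep_subset ⟨sep_subset, fun x hx => by
      obtain ⟨n, hn, y, hy, h1, h2⟩ := hcof x hx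
      obtain ⟨n, rfl⟩ := mem_om.1 hn
      rw [app_iff hf (nt_mem n), hg2] at h1
      subst h1
      obtain ⟨x, hx', rfl⟩ := Ordinal.mem_toZFSet_iff.1 hx
      exact ⟨_, (hC _).2 ⟨n, rfl⟩, tzm.2 ((tzm.1 h2).trans (hGg n))⟩, fun a ha hne h1 => by
      exfalso
      obtain ⟨a, ha', rfl⟩ := Ordinal.mem_toZFSet_iff.1 ha
      have key : ∀ n, G n < a := by
        intro n
        induction n with
        | zero =>
          obtain ⟨x, hx, _⟩ := hne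
          obtain ⟨c, hc, hca, _⟩ := h1 x hx
          obtain ⟨m, rfl⟩ := (hC _).1 hc
          exact lt_of_le_of_lt (hmono.monotone (Nat.zero_le m)) (tzm.1 hca)
        | succ n ih =>
          obtain ⟨c, hc, hca, h2⟩ := h1 _ (tzm.2 ih)
          obtain ⟨m, rfl⟩ := (hC _).1 hc
          exact lt_of_le_of_lt (hmono.monotone (hmono.lt_iff_lt.1 (tzm.1 h2))) (tzm.1 hca)
      obtain ⟨n, hn, y, hy, h3, h2⟩ := hcof _ (tzm.2 ha')
      obtain ⟨n, rfl⟩ := mem_om.1 hn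
      rw [app_iff hf (nt_mem n), hg2] at h3
      subst h3
      exact lt_asymm ((tzm.1 h2).trans (hGg n)) (key n)⟩
  obtain ⟨n, rfl⟩ := (hC _).1 hxC
  obtain ⟨m, f', hf', h1⟩ := hZ _ hx
  obtain ⟨y, hy⟩ := hsucc n
  obtain ⟨_, _, z, hz, _, h2⟩ := h1 y.toZFSet (tzm.2 (by rw [hy]; exact Order.lt_succ y))
  obtain ⟨z, hz', rfl⟩ := Ordinal.mem_toZFSet_iff.1 hz
  rw [hy] at hz'
  exact absurd (tzm.1 h2) (not_lt.2 (Order.lt_succ_iff.1 hz'))

end Pool.Agent.H639
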