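import Pool.Agent.H639.Mit3

/-!
Normal measures in HOD from atoms, and the Mitchell order in HOD.
-/

set_option autoImplicit false
set_option linter.unusedVariables false

namespace Pool.Agent.H639

open ZFSet Gss969 Pool.Agent.H310.HD

universe u

variable {δ l s μ : Ordinal.{u}} {W A : ZFSet.{u}}

/-- `U` is, in HOD, a normal ultrafilter on `l` (it is nonprincipal, in fact its elements are
unbounded in `l`, and `l`-complete). -/
structure NMeas (l U : ZFSet.{u}) : Prop where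
  hod : HOD U
  sub : ∀ X ∈ U, X ⊆ l
  ultra : ∀ X, X ⊆ l → HOD X → (X ∈ U ↔ ¬ dif l X ∈ U)
  up : ∀ X ∈ U, ∀ Y, Y ⊆ l → HOD Y → X ⊆ Y → Y ∈ U
  unb : ∀ X ∈ U, ∀ x ∈ l, ∃ y ∈ X, x ∈ y
  compl : ∀ k ∈ l, ∀ g, HOD g → IsFunc k U g →
    ZFSet.sep (fun x => ∀ i ∈ k, ∀ X, pair i X ∈ g → x ∈ X) l ∈ U
  normal : ∀ X ∈ U, ∀ f, HOD f → IsFunc X l f → (∀ x ∈ X, ∀ y, pair x y ∈ f → y ∈ x) →
    ∃ y ∈ l, ZFSet.sep (fun x => pair x y ∈ f) X ∈ U

/-- The Mitchell order in HOD: `U` belongs to the ultrapower of HOD by the normal ultrafilter `U'`;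
that is, `U = [f]_{U'}` for some function `f` in HOD. Equivalently: a set `X ⊆ l` in HOD is in `U` if
and only if `X ∩ α ∈ f(α)` for `U'`-almost all `α`. -/
def MLt (l U U' : ZFSet.{u}) : Prop :=
  ∃ f, HOD f ∧ (∃ R, IsFunc l R f) ∧ ∀ X, X ⊆ l → HOD X →
    (X ∈ U ↔ ZFSet.sep (fun α => ∃ F, pair α F ∈ f ∧ X ∩ α ∈ F) l ∈ U')

/-- `X ∩ A` is stationary in `α`. -/
def StJ (X A α : ZFSet.{u}) : Prop :=
  ∃ Z, Z ⊆ X ∧ ((∀ z ∈ X, (z ∈ Z ↔ z ∈ A ∧ z ∈ α)) ∧ Stat Z α)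

theorem dfn_StJ (a b c : ℕ) : Dfn Lvl.{u} (fun v => StJ (v a) (v b) (v c)) := by
  unfold StJ
  exact Dfn.exsub subset_rfl _ ((Dfn.ball Lvl_sub_Trs _ ((Dfn.mem _ _).iff
    ((Dfn.mem _ _).and (Dfn.mem _ _)))).and (dfn_Stat _ _))

theorem stJ_iff {X A α : ZFSet.{u}} : StJ X A α ↔ Stat (X ∩ A ∩ α) α := by
  constructor
  · rintro ⟨Y, h1, h2, h3⟩
    have : Y = X ∩ A ∩ α := by
      ext z
      rw [mem_inter, mem_inter]
      exact ⟨fun h => ⟨⟨h1 h, ((h2 z (h1 h)).1 h).1⟩, ((h2 z (h1 h)).1 h).2⟩,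
        fun h => (h2 z h.1.1).2 ⟨h.1.2, h.2⟩⟩
    rwa [← this]
  · intro h
    refine ⟨X ∩ A ∩ α, fun z hz => (mem_inter.1 (mem_inter.1 hz).1).1, fun z hz => ?_, h⟩
    rw [mem_inter, mem_inter]
    exact ⟨fun h => ⟨h.1.2, h.2⟩, fun h => ⟨⟨hz, h.1⟩, h.2⟩⟩

/-- The measure given by `A`. -/
noncomputable def UA (l A : ZFSet.{u}) : ZFSet.{u} := ZFSet.sep (fun X => StJ X A l) (Ph l)

theorem mem_UA {X : ZFSet.{u}} (hA : A ⊆ l.toZFSet) : X ∈ UA l.toZFSet A ↔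
    X ⊆ l.toZFSet ∧ HOD X ∧ StatL {α | α.toZFSet ∈ X ∧ α.toZFSet ∈ A} l := by
  unfold UA
  rw [mem_sep, mem_Ph, stJ_iff, stat_iff, and_assoc]
  refine and_congr_right fun h => and_congr_right fun _ => ?_
  constructor
  · intro h1
    refine h1.mono fun α _ h2 => ?_
    have h3 : α.toZFSet ∈ X ∩ A ∩ l.toZFSet := h2
    rw [mem_inter, mem_inter] at h3
    exact h3.1
  · intro h1
    refine h1.mono fun α _ h2 => ?_
    show α.toZFSet ∈ X ∩ A ∩ l.toZFSet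
    rw [mem_inter, mem_inter]
    exact ⟨h2, hA h2.2⟩

theorem HOD_inter {a b : ZFSet.{u}} (ha : HOD a) (hb : HOD b) : HOD (a ∩ b) := by
  have h := HOD_sep4 (Ψ := fun v => v 0 ∈ v 2) (Dfn.mem _ _) ha hb hb hb 0 0 0 0 0
  have e : a ∩ b = ZFSet.sep (fun ξ => ξ ∈ b) a := by
    ext z
    rw [mem_inter, mem_sep]
  rw [e]
  exact h

/-- For an atom `A`, one of the two pieces given by a set in HOD is not stationary. -/
theorem atom_dec (hA : Atom l.toZFSet A) {X : ZFSet.{u}} (hX : HOD X)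
    (h : StatL {α | α.toZFSet ∈ X ∧ α.toZFSet ∈ A} l) :
    ¬ StatL {α | ¬ α.toZFSet ∈ X ∧ α.toZFSet ∈ A} l := by
  intro h'
  refine hA.2.2.2 (A ∩ X) (fun z hz => (mem_inter.1 hz).1) (HOD_inter hA.1 hX) ⟨?_, ?_⟩
  · rw [stat_iff]
    refine h.mono fun α _ h1 => ?_
    show α.toZFSet ∈ A ∩ X
    exact mem_inter.2 ⟨h1.2, h1.1⟩
  · rw [stat_iff]
    refine h'.mono fun α _ h1 => ?_
    show α.toZFSet ∈ dif A (A ∩ X)
    rw [mem_dif, mem_inter]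
    exact ⟨h1.2, fun h2 => h1.1 h2.2⟩

theorem atom_stat (hA : Atom l.toZFSet A) : StatL {α | α.toZFSet ∈ A} l := stat_iff.1 hA.2.2.1

/-- The atom decides: if `X ∩ A` is stationary then almost all elements of `A` are in `X`. -/
theorem atom_club (hl : RegUnc l.toZFSet) (hA : Atom l.toZFSet A) {X : ZFSet.{u}} (hX : HOD X)
    (h : StatL {α | α.toZFSet ∈ X ∧ α.toZFSet ∈ A} l) :
    ∃ C, Club C l.toZFSet ∧ ∀ α ∈ C, α ∈ A → α ∈ X := by
  have h1 := atom_dec hA hX h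
  unfold StatL at h1
  push Not at h1
  obtain ⟨C, hC, hC', h2⟩ := h1
  refine ⟨C, hC', fun α hα hαA => ?_⟩
  obtain ⟨a, ha, rfl⟩ := Ordinal.mem_toZFSet_iff.1 (hC hα)
  by_contra hcon
  exact h2 a ha ⟨hcon, hαA⟩ hα

theorem nmeas_UA (hl : RegUnc l.toZFSet) (hA : Atom l.toZFSet A) : NMeas l.toZFSet (UA l.toZFSet A) := by
  have hAl := hA.2.1
  refine ⟨?_, ?_, ?_, ?_, ?_, ?_, ?_⟩
  · exact HOD_sep4 (Ψ := fun v => StJ (v 0) (v 2) (v 5)) (dfn_StJ _ _ _) (HOD_Ph (HOD_ord l)) hA.1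
      HOD_empty HOD_empty l 0 0 0 0
  · intro X hX
    exact ((mem_UA hAl).1 hX).1
  · intro X hX hXH
    have hd : ∀ α < l, (α.toZFSet ∈ dif l.toZFSet X ↔ ¬ α.toZFSet ∈ X) := by
      intro α hα
      rw [mem_dif]
      exact ⟨fun h => h.2, fun h => ⟨tzm.2 hα, h⟩⟩
    rw [mem_UA hAl, mem_UA hAl]
    constructor
    · rintro ⟨_, _, h1⟩ ⟨_, _, h2⟩
      refine atom_dec hA hXH h1 (h2.mono fun α hα h3 => ⟨(hd α hα).1 h3.1, h3.2⟩)
    · intro h1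
      refine ⟨hX, hXH, ?_⟩
      rcases statL_or hl (atom_stat hA) (fun α => α.toZFSet ∈ X) with h2 | h2
      · exact h2.mono fun α _ h3 => ⟨h3.2, h3.1⟩
      · exact absurd ⟨sep_subset, HOD_dif (HOD_ord l) hXH,
          h2.mono fun α hα h3 => ⟨(hd α hα).2 h3.2, h3.1⟩⟩ h1
  · intro X hX Y hY hYH hXY
    rw [mem_UA hAl] at hX ⊢
    exact ⟨hY, hYH, hX.2.2.mono fun α _ h => ⟨hXY h.1, h.2⟩⟩
  · intro X hX x hx
    rw [mem_UA hAl] at hX
    obtain ⟨k, hk, rfl⟩ := Ordinal.mem_toZFSet_iff.1 hx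
    obtain ⟨α, hα, h1, h2⟩ := statL_nonempty hl (hX.2.2.tail hl hk)
    exact ⟨_, h1.1, tzm.2 h2⟩
  · intro k hk g hg hgf
    obtain ⟨k, hk', rfl⟩ := Ordinal.mem_toZFSet_iff.1 hk
    have hH : HOD (ZFSet.sep (fun x => ∀ i ∈ k.toZFSet, ∀ X, pair i X ∈ g → x ∈ X) l.toZFSet) := by
      have h := HOD_sep4 (Ψ := fun v => ∀ i ∈ v 5, ∀ X ∈ v 3, pair i X ∈ v 2 → v 0 ∈ X)
        (A := l.toZFSet) (p := g) (q := Ph l.toZFSet) (r := ∅) (by
          repeat' first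
            | exact Dfn.mem _ _ | exact dfn_pm Lvl_sub_Trs _ _ _
            | refine Dfn.ball Lvl_sub_Trs _ ?_ | refine Dfn.imp ?_ ?_)
        (HOD_ord l) hg (HOD_Ph (HOD_ord l)) HOD_empty k 0 0 0 0
      have e : ZFSet.sep (fun x => ∀ i ∈ k.toZFSet, ∀ X, pair i X ∈ g → x ∈ X) l.toZFSet =
          ZFSet.sep (fun x => ∀ i ∈ k.toZFSet, ∀ X ∈ Ph l.toZFSet, pair i X ∈ g → x ∈ X)
            l.toZFSet := by
        ext x
        rw [mem_sep, mem_sep]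
        refine and_congr_right fun _ => forall₂_congr fun i hi => forall_congr' fun X => ?_
        constructor
        · intro h _ h1; exact h h1
        · intro h h1
          refine h ?_ h1
          have h2 := (pair_mem_prod.1 (hgf.1 h1)).2
          rw [mem_UA hAl] at h2
          exact mem_Ph.2 ⟨h2.1, h2.2.1⟩
      rw [e]
      exact h
    rw [mem_UA hAl]
    refine ⟨sep_subset, hH, ?_⟩
    have hgm : ∀ i < k, app g i.toZFSet ∈ UA l.toZFSet A := fun i hi => app_mem hgf (tzm.2 hi)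
    rcases statL_or hl (atom_stat hA) (fun α => ∀ i < k, α.toZFSet ∈ app g i.toZFSet) with h1 | h1
    · refine h1.mono fun α hα h2 => ⟨?_, h2.1⟩
      rw [mem_sep]
      refine ⟨tzm.2 hα, fun i hi X hX => ?_⟩
      obtain ⟨i, hi', rfl⟩ := Ordinal.mem_toZFSet_iff.1 hi
      rw [← (app_iff hgf hi).1 hX]
      exact h2.2 i hi'
    · exfalso
      obtain ⟨i, hi, h2⟩ := StatL.union hl h1 hk'
        (P := fun i α => i < k ∧ ¬ α.toZFSet ∈ app g i.toZFSet) (fun α h3 _ => by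
          have h4 := h3.2
          push Not at h4
          obtain ⟨i, hi, h5⟩ := h4
          exact ⟨i, hi, hi, h5⟩)
      have h3 := (mem_UA hAl).1 (hgm i hi)
      exact atom_dec hA h3.2.1 h3.2.2 (h2.mono fun α _ h4 => ⟨h4.2.2, h4.1.1⟩)
  · intro X hX f hf hff hreg
    rw [mem_UA hAl] at hX
    have hfa : ∀ α : Ordinal.{u}, α.toZFSet ∈ X → ∃ y < α, app f α.toZFSet = Ordinal.toZFSet y := by
      intro α hα
      have := hreg _ hα _ (app_spec hff hα)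
      obtain ⟨y, hy, e⟩ := Ordinal.mem_toZFSet_iff.1 this
      exact ⟨y, hy, e.symm⟩
    choose! F hF using hfa
    obtain ⟨ξ, hξ, h1⟩ := fodor hl hX.2.2 (f := F) (fun α h2 _ => (hF α h2.1).1)
    refine ⟨ξ.toZFSet, tzm.2 hξ, (mem_UA hAl).2 ⟨fun x hx => hX.1 (mem_sep.1 hx).1, ?_, ?_⟩⟩
    · exact HOD_sep4 (Ψ := fun v => pair (v 0) (v 5) ∈ v 2) (dfn_pm Lvl_sub_Trs _ _ _) hX.2.1 hf
        HOD_empty HOD_empty ξ 0 0 0 0
    · refine h1.mono fun α _ h2 => ⟨?_, h2.1.2⟩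
      rw [mem_sep]
      refine ⟨h2.1.1, ?_⟩
      have h3 := app_spec hff h2.1.1
      rwa [(hF α h2.1.1).2, h2.2] at h3

end Pool.Agent.H639
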