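import Pool.Agent.H639.Mit4

/-!
The Mitchell order of a regular cardinal in HOD.
-/

set_option autoImplicit false
set_option linter.unusedVariables false

namespace Pool.Agent.H639

open ZFSet Gss969 Pool.Agent.H310.HD

universe u

variable {δ l s μ : Ordinal.{u}} {W A A' : ZFSet.{u}}

theorem mlt_UA (hl : RegUnc l.toZFSet) (hA : Atom l.toZFSet A) (hA' : Atom l.toZFSet A')
    (hcof : ∀ a ∈ A, ∃ m, CofN m a) (hrefl : ∀ α ∈ A', Stat (A ∩ α) α) :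
    MLt l.toZFSet (UA l.toZFSet A) (UA l.toZFSet A') := by
  have hAl := hA.2.1
  have hAl' := hA'.2.1
  let Ψ : (ℕ → ZFSet.{u}) → Prop := fun v => v 0 ⊆ v 1 ∧ StJ (v 0) (v 3) (v 1)
  have hΨ : Dfn Lvl.{u} Ψ := (dfn_sub Lvl_sub_Trs _ _).and (dfn_StJ _ _ _)
  have hH := HOD_fam4 hΨ (A := Ph l.toZFSet) (p := A) (q := ∅) (r := ∅) (HOD_Ph (HOD_ord l))
    hA.1 HOD_empty HOD_empty 0 0 0 l
  refine ⟨_, hH, ⟨powerset (Ph l.toZFSet), isFunc_gr fun x hx => mem_powerset.2 sep_subset⟩, ?_⟩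
  intro X hX hXH
  -- the set of `α` with `X ∩ α ∈ f(α)`
  have hE : ZFSet.sep (fun α => ∃ F, pair α F ∈ (gr l.toZFSet fun i =>
      ZFSet.sep (fun ξ => Ψ (as ξ i (Ph l.toZFSet) A ∅ ∅ (0 : Ordinal.{u}).toZFSet
        (0 : Ordinal.{u}).toZFSet (0 : Ordinal.{u}).toZFSet l.toZFSet)) (Ph l.toZFSet)) ∧
        X ∩ α ∈ F) l.toZFSet = ZFSet.sep (fun α => StJ X A α) l.toZFSet := by
    ext α
    rw [mem_sep, mem_sep]
    refine and_congr_right fun hα => ?_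
    have e1 : X ∩ α ∩ A ∩ α = X ∩ A ∩ α := by
      ext z
      simp only [mem_inter]
      tauto
    constructor
    · rintro ⟨F, h1, h2⟩
      obtain ⟨_, rfl⟩ := pair_mem_gr.1 h1
      obtain ⟨h3, h4, h5⟩ := mem_sep.1 h2
      have h5' : StJ (X ∩ α) A α := h5
      rw [stJ_iff, e1] at h5'
      exact stJ_iff.2 h5'
    · intro h
      refine ⟨_, pair_mem_gr.2 ⟨hα, rfl⟩, mem_sep.2 ⟨mem_Ph.2 ⟨fun z hz => hX (mem_inter.1 hz).1,
        ?_⟩, fun z hz => (mem_inter.1 hz).2, ?_⟩⟩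
      · obtain ⟨a, ha, rfl⟩ := Ordinal.mem_toZFSet_iff.1 hα
        exact HOD_inter hXH (HOD_ord a)
      · show StJ (X ∩ α) A α
        rw [stJ_iff, e1]
        exact stJ_iff.1 h
  rw [hE]
  have hEH : HOD (ZFSet.sep (fun α => StJ X A α) l.toZFSet) :=
    HOD_sep4 (Ψ := fun v => StJ (v 2) (v 3) (v 0)) (dfn_StJ _ _ _) (HOD_ord l) hXH hA.1
      HOD_empty 0 0 0 0 0
  rw [mem_UA hAl, mem_UA hAl']
  constructor
  · rintro ⟨_, _, h1⟩
    obtain ⟨C, hC, h2⟩ := atom_club hl hA hXH h1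
    obtain ⟨E, hEc, h3⟩ := club_lim hl hC
    refine ⟨sep_subset, hEH, (statL_club hl (atom_stat hA') hEc).mono fun α hα h4 => ⟨?_, h4.1⟩⟩
    rw [mem_sep]
    refine ⟨tzm.2 hα, stJ_iff.2 fun C1 hC1 hC1' => ?_⟩
    have h5 := hrefl α.toZFSet h4.1
    have hunc : ¬ CofN Ordinal.omega0.toZFSet α.toZFSet :=
      unc_of_stat h5 fun a ha => hcof a (mem_inter.1 ha).1
    have h6 := club_inter_cof hunc hC1' (club_inter_ord hC (tzm.2 hα) (h3 _ h4.2).2)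
    obtain ⟨a, ha, h7⟩ := h5 _ h6.1 h6
    rw [mem_inter, mem_inter] at h7
    rw [mem_inter] at ha
    exact ⟨a, mem_inter.2 ⟨mem_inter.2 ⟨h2 a h7.2.1 ha.1, ha.1⟩, ha.2⟩, h7.1⟩
  · rintro ⟨_, _, h1⟩
    refine ⟨hX, hXH, ?_⟩
    by_contra hcon
    unfold StatL at hcon
    push Not at hcon
    obtain ⟨C, _, hC, h2⟩ := hcon
    obtain ⟨E, hEc, h3⟩ := club_lim hl hC
    obtain ⟨α, hα, h4, h5⟩ := statL_nonempty hl (statL_club hl h1 hEc)
    have h6 := stJ_iff.1 (mem_sep.1 h4.1).2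
    have h7 := club_inter_ord hC (tzm.2 hα) (h3 _ h5).2
    obtain ⟨a, ha, h8⟩ := h6 _ h7.1 h7
    rw [mem_inter, mem_inter] at ha
    rw [mem_inter] at h8
    obtain ⟨a, ha', rfl⟩ := Ordinal.mem_toZFSet_iff.1 (hX ha.1.1)
    exact h2 a ha' ha.1 h8.1

/-- `OGe l i U`: the normal measure `U` of HOD on `l` has order at least `i` in the Mitchell order
of HOD, that is, `o(U) ≥ i`: for every `ξ < i` there is a normal measure `U' ◁ U` of HOD with
`o(U') ≥ ξ`. -/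
inductive OGe (l : ZFSet.{u}) : Ordinal.{u} → ZFSet.{u} → Prop
  | mk (i : Ordinal.{u}) (U : ZFSet.{u}) (V : Ordinal.{u} → ZFSet.{u}) : NMeas l U →
      (∀ ξ < i, MLt l (V ξ) U) → (∀ ξ < i, OGe l ξ (V ξ)) → OGe l i U

/-- `o(l) ≥ i` in HOD: for every `ξ < i` there is a normal measure of HOD on `l` of order at least
`ξ`. -/
def MitchellGe (l i : Ordinal.{u}) : Prop := ∀ ξ < i, ∃ U, OGe l.toZFSet ξ U

/-- If the numbers of disjoint stationary sets in HOD are bounded, then every regular `l > δ` has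
Mitchell order at least `δ` in HOD. -/
theorem mitchell_of_bdd (hδ : Extendible δ) (hB : Bdd δ) (hl : RegUnc l.toZFSet) (hδl : δ < l) :
    MitchellGe l δ := by
  obtain ⟨W, hW, hWO, _⟩ := exists_wo (HOD_Ph (HOD_ord l))
  have hA := AA_spec hδ hl hδl hB hW hWO
  intro ξ hξ
  refine ⟨UA l.toZFSet (AA l δ W ξ), ?_⟩
  induction ξ using WellFoundedLT.induction with
  | _ ξ ih =>
    refine OGe.mk ξ _ (fun ζ => UA l.toZFSet (AA l δ W ζ)) (nmeas_UA hl (hA ξ hξ).1) ?_ ?_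
    · intro ζ hζ
      refine mlt_UA hl (hA ζ (hζ.trans hξ)).1 (hA ξ hξ).1 ?_ ?_
      · obtain ⟨m, _, h⟩ := (hA ζ (hζ.trans hξ)).2.1
        exact fun a ha => ⟨_, h a ha⟩
      · exact fun α hα => (hA ξ hξ).2.2 ζ hζ α hα
    · intro ζ hζ
      exact ih ζ hζ (hζ.trans hξ)

end Pool.Agent.H639
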