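import Pool.Agent.H639.NM
import Pool.Graph.R_pool_sql_team_seeded_2aa45f1a.H310.HD.Alt

/-!
Below a measurable cardinal of HOD there are unboundedly many regular cardinals of HOD.
-/

set_option autoImplicit false
set_option linter.unusedVariables false

namespace Pool.Agent.H639

open ZFSet Gss969 Pool.Agent.H310.HD

universe u

variable {l β : Ordinal.{u}} {U W : ZFSet.{u}}

/-- `v 0` is a cofinal function from an element of `v 2` to `v 2`. -/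
def CfP (v : ℕ → ZFSet.{u}) : Prop := ∃ a ∈ v 2, Cofi a (v 2) (v 0)

theorem dfn_CfP : Dfn Lvl.{u} CfP := Dfn.bex Lvl_sub_Trs _ (dfn_Cofi _ _ _)

theorem exists_hodreg (h : NMeas l.toZFSet U) (hl : 2 < l) (hβ : β < l) :
    ∃ α < l, β < α ∧ HODReg α := by
  classical
  by_contra hcon
  push Not at hcon
  let Z := Ph (prod l.toZFSet l.toZFSet)
  have hZ : HOD Z := HOD_Ph (HOD_prod (HOD_ord l) (HOD_ord l))
  obtain ⟨W, hW, hWO, _⟩ := exists_wo hZ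
  have h0 : (∅ : ZFSet.{u}) ∈ Z := empty_mem_Ph
  let Φ : ZFSet.{u} → ZFSet.{u} → ZFSet.{u} → Prop := fun X f i =>
    CfP (as X f i Z ∅ ∅ (0 : Ordinal.{u}).toZFSet (0 : Ordinal.{u}).toZFSet
      (0 : Ordinal.{u}).toZFSet (0 : Ordinal.{u}).toZFSet)
  let G : Ordinal.{u} → ZFSet.{u} := rc Φ Z W
  have hG : HOD (gz l G) := HOD_rc dfn_CfP hZ hW hWO h0 HOD_empty HOD_empty 0 0 0 0 l
  have hGZ : ∀ i, G i ∈ Z := fun i => rc_mem _ hWO h0 i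
  -- the set of limit ordinals above `β`
  let X₁ := ZFSet.sep (fun y => β.toZFSet ∈ y) l.toZFSet ∩
    ZFSet.sep (fun α => ∀ x ∈ α, ∃ y ∈ α, x ∈ y) l.toZFSet
  have hX₁ : X₁ ∈ U := h.inter2 hl (h.tail hβ) h.lim
  have hX₁m : ∀ α, α.toZFSet ∈ X₁ → α < l ∧ β < α ∧ ∃ a < α, Cofi a.toZFSet α.toZFSet (G α) := by
    intro α hα
    obtain ⟨h1, h2⟩ := mem_inter.1 hα
    obtain ⟨h3, h4⟩ := mem_sep.1 h1
    obtain ⟨_, h5⟩ := mem_sep.1 h2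
    have hαl := tzm.1 h3
    have hβα := tzm.1 h4
    have h6 := hcon α hαl hβα
    have h7 : CofinalP HOD α.toZFSet := by
      by_contra hc
      refine h6 ⟨bot_le.trans_lt hβα, fun x hx => ?_, hc⟩
      obtain ⟨y, hy, hxy⟩ := h5 _ (tzm.2 hx)
      obtain ⟨y, hy', rfl⟩ := Ordinal.mem_toZFSet_iff.1 hy
      exact lt_of_le_of_lt (Order.succ_le_of_lt (tzm.1 hxy)) hy'
    obtain ⟨a, ha, g, hg, hgf, hgc⟩ := h7
    have hgZ : g ∈ Z := by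
      refine mem_Ph.2 ⟨fun p hp => ?_, hg⟩
      obtain ⟨x, hx, y, hy, rfl⟩ := mem_prod.1 (hgf.1 hp)
      have ht := (isOrdinal_toZFSet l).isTransitive
      exact pair_mem_prod.2 ⟨ht.mem_trans hx (ht.mem_trans ha h3), ht.mem_trans hy h3⟩
    have h8 : G α = lst (fun X => Φ X (gz α G) α.toZFSet) Z W := rc_eq _ _ _ _
    rcases lst_spec (fun X => Φ X (gz α G) α.toZFSet) hWO with ⟨_, ⟨a', ha', h9⟩, _⟩ | ⟨h9, _⟩
    · rw [← h8] at h9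
      obtain ⟨a', ha'', rfl⟩ := Ordinal.mem_toZFSet_iff.1 ha'
      exact ⟨hαl, hβα, a', ha'', h9⟩
    · exact absurd ⟨g, hgZ, a, ha, hgf, hgc⟩ h9
  have hX₁l := h.sub _ hX₁
  have hX₁m' : ∀ x ∈ X₁, ∃ a ∈ x, Cofi a x (G (rank x)) := by
    intro x hx
    obtain ⟨α, hα, rfl⟩ := Ordinal.mem_toZFSet_iff.1 (hX₁l hx)
    obtain ⟨_, _, a, ha, h1⟩ := hX₁m α hx
    rw [Ordinal.rank_toZFSet]
    exact ⟨_, tzm.2 ha, h1⟩
  choose! F₂ hF₂ using hX₁m'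
  have hdom : ∀ x ∈ X₁, ∀ a ∈ x, Cofi a x (G (rank x)) → a = F₂ x := by
    intro x hx a ha h1
    have h2 := (hF₂ x hx).2
    ext z
    constructor
    · intro hz
      obtain ⟨w, hw, _⟩ := h1.1.2 z hz
      exact (pair_mem_prod.1 (h2.1.1 hw)).1
    · intro hz
      obtain ⟨w, hw, _⟩ := h2.1.2 z hz
      exact (pair_mem_prod.1 (h1.1.1 hw)).1
  have hGp : ∀ x ∈ l.toZFSet, ∀ g ∈ Z, (pair x g ∈ gz l G ↔ g = G (rank x)) := by
    intro x hx g hg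
    obtain ⟨α, hα, rfl⟩ := Ordinal.mem_toZFSet_iff.1 hx
    rw [pair_gz, Ordinal.rank_toZFSet]
    exact ⟨fun h => h.2.symm, fun h => ⟨hα, h.symm⟩⟩
  have hF₂H : HOD (gr X₁ F₂) := by
    refine HOD_gr4 (Ψ := fun v => v 0 ∈ v 1 ∧ ∃ g ∈ v 5, pair (v 1) g ∈ v 4 ∧ Cofi (v 0) (v 1) g)
      ?_ (h.hodm hX₁) (HOD_ord l) hG hZ 0 0 0 0 fun x hx => ?_
    · exact (Dfn.mem _ _).and (Dfn.bex Lvl_sub_Trs _ ((dfn_pm Lvl_sub_Trs _ _ _).and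
        (dfn_Cofi _ _ _)))
    · refine ⟨(isOrdinal_toZFSet l).isTransitive.mem_trans (hF₂ x hx).1 (hX₁l hx), fun y hy => ?_⟩
      show (y ∈ x ∧ ∃ g ∈ Z, pair x g ∈ gz l G ∧ Cofi y x g) ↔ _
      constructor
      · rintro ⟨h1, g, hg, h2, h3⟩
        rw [hGp x (hX₁l hx) g hg] at h2
        rw [h2] at h3
        exact hdom x hx y h1 h3
      · rintro rfl
        exact ⟨(hF₂ x hx).1, _, hGZ _, (hGp x (hX₁l hx) _ (hGZ _)).2 rfl, (hF₂ x hx).2⟩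
  obtain ⟨a₀, ha₀, hX₂⟩ := h.fod hX₁ hF₂H fun x hx => (hF₂ x hx).1
  obtain ⟨a₀, ha₀l, rfl⟩ := Ordinal.mem_toZFSet_iff.1 ha₀
  let X₂ := ZFSet.sep (fun x => F₂ x = a₀.toZFSet) X₁
  have hX₂m : ∀ x ∈ X₂, x ∈ X₁ ∧ Cofi a₀.toZFSet x (G (rank x)) := by
    intro x hx
    obtain ⟨h1, h2⟩ := mem_sep.1 hx
    exact ⟨h1, h2 ▸ (hF₂ x h1).2⟩
  have hX₂l : X₂ ⊆ l.toZFSet := fun x hx => hX₁l (hX₂m x hx).1
  -- the values of the functions are constant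
  have hv : ∀ i ∈ a₀.toZFSet, ∃ y ∈ l.toZFSet,
      ZFSet.sep (fun x => app (G (rank x)) i = y) X₂ ∈ U := by
    intro i hi
    refine h.fod hX₂ (F := fun x => app (G (rank x)) i) ?_ fun x hx =>
      app_mem (hX₂m x hx).2.1 hi
    obtain ⟨i', hi', rfl⟩ := Ordinal.mem_toZFSet_iff.1 hi
    refine HOD_gr4 (Ψ := fun v => ∃ g ∈ v 5, pair (v 1) g ∈ v 4 ∧ pair (v 6) (v 0) ∈ g)
      ?_ (h.hodm hX₂) (HOD_ord l) hG hZ i' 0 0 0 fun x hx => ?_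
    · exact Dfn.bex Lvl_sub_Trs _ ((dfn_pm Lvl_sub_Trs _ _ _).and (dfn_pm Lvl_sub_Trs _ _ _))
    · have h2 := (hX₂m x hx).2.1
      refine ⟨(isOrdinal_toZFSet l).isTransitive.mem_trans (app_mem h2 hi) (hX₂l hx),
        fun y hy => ?_⟩
      show (∃ g ∈ Z, pair x g ∈ gz l G ∧ pair i'.toZFSet y ∈ g) ↔ _
      constructor
      · rintro ⟨g, hg, h3, h4⟩
        rw [hGp x (hX₂l hx) g hg] at h3
        rw [h3] at h4
        exact ((app_iff h2 hi).1 h4).symm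
      · rintro rfl
        exact ⟨_, hGZ _, (hGp x (hX₂l hx) _ (hGZ _)).2 rfl, app_spec h2 hi⟩
  choose! V hV using hv
  have hVu : ∀ i ∈ a₀.toZFSet, ∀ y ∈ l.toZFSet,
      ZFSet.sep (fun x => app (G (rank x)) i = y) X₂ ∈ U → y = V i := by
    intro i hi y hy h1
    obtain ⟨z, h2, h3⟩ := h.disj hl h1 (hV i hi).2
    rw [← (mem_sep.1 h2).2, ← (mem_sep.1 h3).2]
  have hVH : HOD (gr a₀.toZFSet V) := by
    refine HOD_of4 (R := fun g x => IsFunc (x 4) (x 5) g ∧ ∀ i ∈ x 4, ∀ y ∈ x 5, pair i y ∈ g →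
        ∃ D ∈ x 0, ∀ z ∈ D, z ∈ x 3 ∧ ∃ f ∈ x 2, pair z f ∈ x 1 ∧ pair i y ∈ f)
      (x := as U (gz l G) Z X₂ a₀.toZFSet l.toZFSet l.toZFSet l.toZFSet l.toZFSet l.toZFSet) ?_
      h.hod hG hZ (h.hodm hX₂) (ord10 _ _ _ _ _ _ _ _ _ _) (fun g => ?_) fun z hz => ?_
    · refine (dfn_isFunc Lvl_sub_Trs _ _ _).and ?_
      repeat' first
        | exact Dfn.mem _ _ | exact dfn_pm Lvl_sub_Trs _ _ _
        | refine Dfn.ball Lvl_sub_Trs _ ?_ | refine Dfn.bex Lvl_sub_Trs _ ?_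
        | refine Dfn.imp ?_ ?_ | refine Dfn.and ?_ ?_
    · show IsFunc a₀.toZFSet l.toZFSet g ∧ (∀ i ∈ a₀.toZFSet, ∀ y ∈ l.toZFSet, pair i y ∈ g →
        ∃ D ∈ U, ∀ z ∈ D, z ∈ X₂ ∧ ∃ f ∈ Z, pair z f ∈ gz l G ∧ pair i y ∈ f) ↔ _
      have key : ∀ i ∈ a₀.toZFSet, ∀ y ∈ l.toZFSet,
          ((∃ D ∈ U, ∀ z ∈ D, z ∈ X₂ ∧ ∃ f ∈ Z, pair z f ∈ gz l G ∧ pair i y ∈ f) ↔ y = V i) := by
        intro i hi y hy
        constructor
        · rintro ⟨D, hD, h1⟩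
          obtain ⟨z, h2, h3⟩ := h.disj hl hD (hV i hi).2
          obtain ⟨h4, f, hf, h5, h6⟩ := h1 z h2
          rw [hGp z (hX₂l h4) f hf] at h5
          rw [h5] at h6
          rw [← (mem_sep.1 h3).2]
          exact ((app_iff (hX₂m z h4).2.1 hi).1 h6).symm
        · rintro rfl
          refine ⟨_, (hV i hi).2, fun z hz => ?_⟩
          obtain ⟨h1, h2⟩ := mem_sep.1 hz
          refine ⟨h1, _, hGZ _, (hGp z (hX₂l h1) _ (hGZ _)).2 rfl, ?_⟩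
          rw [← h2]
          exact app_spec (hX₂m z h1).2.1 hi
      constructor
      · rintro ⟨h1, h2⟩
        refine func_ext h1 (isFunc_gr fun x hx => (hV x hx).1) fun x hx => ?_
        rw [app_gr hx]
        exact (key x hx _ (app_mem h1 hx)).1 (h2 x hx _ (app_mem h1 hx) (app_spec h1 hx))
      · rintro rfl
        refine ⟨isFunc_gr fun x hx => (hV x hx).1, fun i hi y hy h1 => ?_⟩
        rw [key i hi y hy]
        exact (pair_mem_gr.1 h1).2.symm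
    · obtain ⟨x, hx, rfl⟩ := mem_gr.1 hz
      exact HOD_pair ((HOD_ord _).mem hx) ((HOD_ord _).mem (hV x hx).1)
  have hfam := HOD_fam4 (Ψ := fun v => ∃ f ∈ v 4, pair (v 0) f ∈ v 3 ∧
      ∃ y ∈ v 6, pair (v 1) y ∈ v 5 ∧ pair (v 1) y ∈ f) (A := X₂) (p := gz l G) (q := Z)
    (r := gr a₀.toZFSet V) (by
      repeat' first
        | exact Dfn.mem _ _ | exact dfn_pm Lvl_sub_Trs _ _ _
        | refine Dfn.ball Lvl_sub_Trs _ ?_ | refine Dfn.bex Lvl_sub_Trs _ ?_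
        | refine Dfn.imp ?_ ?_ | refine Dfn.and ?_ ?_) (h.hodm hX₂) hG hZ hVH l 0 0 a₀
  have hfe : ∀ i ∈ a₀.toZFSet, ∀ z ∈ X₂, ((∃ f ∈ Z, pair z f ∈ gz l G ∧
      ∃ y ∈ l.toZFSet, pair i y ∈ gr a₀.toZFSet V ∧ pair i y ∈ f) ↔ app (G (rank z)) i = V i) := by
    intro i hi z hz
    constructor
    · rintro ⟨f, hf, h1, y, hy, h2, h3⟩
      rw [hGp z (hX₂l hz) f hf] at h1
      rw [h1] at h3
      rw [(pair_mem_gr.1 h2).2]
      exact (app_iff (hX₂m z hz).2.1 hi).1 h3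
    · intro h1
      exact ⟨_, hGZ _, (hGp z (hX₂l hz) _ (hGZ _)).2 rfl, _, (hV i hi).1,
        pair_mem_gr.2 ⟨hi, rfl⟩, (app_iff (hX₂m z hz).2.1 hi).2 h1⟩
  have hE := h.inter ha₀l hfam (fun i hi => by
    have e : ZFSet.sep (fun x => app (G (rank x)) i = V i) X₂ = ZFSet.sep (fun z => ∃ f ∈ Z,
        pair z f ∈ gz l G ∧ ∃ y ∈ l.toZFSet, pair i y ∈ gr a₀.toZFSet V ∧ pair i y ∈ f) X₂ := by
      ext z
      exact ⟨fun h => mem_sep.2 ⟨(mem_sep.1 h).1, (hfe i hi z (mem_sep.1 h).1).2 (mem_sep.1 h).2⟩,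
        fun h => mem_sep.2 ⟨(mem_sep.1 h).1, (hfe i hi z (mem_sep.1 h).1).1 (mem_sep.1 h).2⟩⟩
    have h1 := (hV i hi).2
    rw [e] at h1
    exact h1)
  have hE2 := h.inter2 hl hX₂ hE
  obtain ⟨α, hα, _⟩ := h.unb _ hE2 _ (tzm.2 hβ)
  have hαl := h.sub _ hE2 hα
  obtain ⟨α', hα', hαα'⟩ := h.unb _ hE2 α hαl
  obtain ⟨a1, a2⟩ := mem_inter.1 hα
  obtain ⟨b1, b2⟩ := mem_inter.1 hα'
  obtain ⟨i, hi, z, hz, h1, h2⟩ := (hX₂m α' b1).2.2 α hαα'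
  have h3 := (hfe i hi α a1).1 (mem_sep.1 ((mem_sep.1 a2).2 i hi)).2
  have h4 := (hfe i hi α' b1).1 (mem_sep.1 ((mem_sep.1 b2).2 i hi)).2
  have h5 : V i ∈ α := by rw [← h3]; exact app_mem (hX₂m α a1).2.1 hi
  have h6 : z = V i := by
    rw [← h4]; exact ((app_iff (hX₂m α' b1).2.1 hi).1 h1).symm
  rw [h6] at h2
  exact mem_asymm h2 h5

end Pool.Agent.H639
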