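import Pool.Graph.R_pool_sql_team_seeded_2aa45f1a.Results.MP_e37c09_lc.AlternativeA
import Pool.Agent.H639.Mit5
import Pool.Agent.H639.NM2

/-!
Bounds for the numbers of disjoint stationary sets when the HOD Hypothesis fails, and regular
cardinals without normal measures in HOD when it holds.
-/

set_option autoImplicit false

namespace Pool.Agent.H639

open Pool.Agent.H310.HD Gss969 ZFSet Pool.Agent.Results.MP_e37c09_lc.AlternativeA

universe u

variable {δ : Ordinal.{u}}

theorem bdd_of_not_families (hδ : Extendible δ) (h : ¬ Families δ) : Bdd δ := by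
  intro μ hμ
  by_contra hc
  push Not at hc
  exact h fun k₀ => ⟨k₀, le_rfl, μ, hμ, fam_all hδ hμ (fun s hs => hc s hs) k₀⟩

theorem bdd_of_not_hod (hδ : Extendible δ) (b : Bool) (h : ¬ HODHypothesis.{u} b) : Bdd δ :=
  bdd_of_not_families hδ fun h' => h (((result b δ hδ).out 5 9).1 h')

/-- Under alternative (A) there are arbitrarily large regular cardinals without normal measures in
HOD. -/
theorem exists_no_nmeas (hδ : Extendible δ) (h : AltA δ) (ρ : Ordinal.{u}) (hρ : δ ≤ ρ) :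
    ∃ l > ρ, RegUnc (Ordinal.toZFSet l) ∧ ∀ U, ¬ NMeas (Ordinal.toZFSet l) U := by
  obtain ⟨l, hl, hr, hlim⟩ := hδ.exists_regLim ρ
  obtain ⟨γ, _, ⟨h1, h2, _⟩, _⟩ := statL_card hr hlim hl l.toZFSet (fun x hx => hx)
    ⟨fun x hx => hx, fun x hx => by
      obtain ⟨γ, hγ, rfl⟩ := Ordinal.mem_toZFSet_iff.1 hx
      exact ⟨_, tz_mem.2 (hr.succ_lt hγ), tz_mem.2 (Order.lt_succ γ)⟩, fun a ha _ _ => ha⟩
  have h2' := h2
  obtain ⟨hcard, hom, _⟩ := h2'
  obtain ⟨l', hl', hr', hsucc⟩ := exists_succ hcard (tz_mem.1 hom)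
  refine ⟨l', h1.trans hl', hr', fun U hU => ?_⟩
  obtain ⟨α, hα, hγα, hreg⟩ := exists_hodreg hU (two_lt hr') hl'
  exact h γ (hρ.trans_lt h1) h2 l' hsucc α hγα.le hα hreg

end Pool.Agent.H639
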