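import Pool.Agent.H639.Mit6
import Pool.Agent.H639.Los4

/-!
Singular cardinals which are measurable in HOD.
-/

set_option autoImplicit false

namespace Pool.Agent.H639

open Pool.Agent.H310.HD Gss969 ZFSet Pool.Agent.Results.MP_e37c09_lc.AlternativeA

universe u

variable {δ : Ordinal.{u}}

/-- If the numbers of disjoint stationary sets in HOD are bounded, then below each regular `l > δ`
there are stationary many ordinals of cofinality less than `δ` which are measurable in HOD. -/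
theorem statL_meas (hδ : Extendible δ) (hB : Bdd δ) {l : Ordinal.{u}} (hl : RegUnc l.toZFSet)
    (hδl : δ < l) :
    StatL {α | (∃ m < δ, CofN (Ordinal.toZFSet m) α.toZFSet) ∧ MeasIn HOD α.toZFSet} l := by
  obtain ⟨W, hW, hWO, _⟩ := exists_wo (HOD_Ph (HOD_ord l))
  have hsp := AA_spec hδ hl hδl hB hW hWO
  have hω := hδ.om_lt
  obtain ⟨hA0, ⟨m0, _, hc0⟩, _⟩ := hsp 0 (lt_of_le_of_lt bot_le hω)
  obtain ⟨hA1, ⟨m1, hm1, hc1⟩, hr1⟩ := hsp 1 (lt_trans (by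
    exact_mod_cast Ordinal.natCast_lt_omega0 1) hω)
  have hmlt := mlt_UA hl hA0 hA1 (fun a ha => ⟨_, hc0 a ha⟩)
    fun α hα => hr1 0 (by exact_mod_cast zero_lt_one) α hα
  have hωl : Ordinal.omega0 < l := hω.trans hδl
  obtain ⟨E, hE, hEm⟩ := meas_ae hωl (nmeas_UA hl hA0) (nmeas_UA hl hA1) hmlt
  have hsub : AA l δ W 1 ⊆ l.toZFSet := (mem_Ph.1 (AA_mem hWO 1)).1
  refine ((mem_UA hsub).1 hE).2.2.mono fun α hα h => ?_
  exact ⟨⟨m1, hm1, hc1 _ h.2⟩, hEm _ h.1⟩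

/-- A cardinal which is measurable in HOD is regular in HOD. -/
theorem MeasIn.reg {α : Ordinal.{u}} (h : MeasIn HOD α.toZFSet) : HODReg α := by
  obtain ⟨D, hD, h1, h2, h3, h4, h5, h6, h7⟩ := h
  have hαo := isOrdinal_toZFSet α
  have hds : ∀ X : ZFSet.{u}, dif α.toZFSet X ⊆ α.toZFSet := fun X => sep_subset
  have hne : ∀ B ∈ D, ∃ y, y ∈ B := by
    intro B hB
    obtain ⟨y, hy, _⟩ := (h6 B (h1 B hB) (h2 B hB)).1 hB B hB
    exact ⟨y, hy⟩
  have h0 : 0 < α := by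
    obtain ⟨y, hy⟩ := hne _ h3
    obtain ⟨β, hβ, rfl⟩ := Ordinal.mem_toZFSet_iff.1 hy
    exact lt_of_le_of_lt bot_le hβ
  have hsing : ∀ x ∈ α.toZFSet, dif α.toZFSet {x} ∈ D := by
    intro x hx
    have hxH : HOD ({x} : ZFSet.{u}) := by
      have := HOD_pair_set ((HOD_ord α).mem hx) ((HOD_ord α).mem hx)
      rwa [show ({x, x} : ZFSet.{u}) = {x} by ext z; simp] at this
    refine (h6 _ sep_subset (HOD_dif (HOD_ord α) hxH)).2 fun B' hB' => ?_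
    obtain ⟨y, hy, hyx⟩ := h4 B' hB' x hx
    exact ⟨y, hy, mem_dif.2 ⟨h1 B' hB' hy, by rwa [ZFSet.mem_singleton]⟩⟩
  have htail : ∀ x ∈ α.toZFSet, dif α.toZFSet x ∈ D := by
    intro x hx
    have hgr : HOD (gr x fun i => dif α.toZFSet {i}) := by
      refine HOD_gr4 (Ψ := fun v => ∀ z ∈ v 4, (z ∈ v 0 ↔ ¬ z = v 1))
        (Dfn.ball Lvl_sub_Trs _ ((Dfn.mem _ _).iff (Dfn.eq _ _).not)) ((HOD_ord α).mem hx)
        (HOD_Ph (HOD_ord α)) (HOD_ord α) HOD_empty 0 0 0 0 fun i hi => ?_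
      have hiα : i ∈ α.toZFSet := hαo.isTransitive.mem_trans hi hx
      refine ⟨mem_Ph.2 ⟨sep_subset, h2 _ (hsing i hiα)⟩, fun y hy => ?_⟩
      show (∀ z ∈ α.toZFSet, (z ∈ y ↔ ¬ z = i)) ↔ _
      have hys := (mem_Ph.1 hy).1
      constructor
      · intro h8
        ext z
        rw [mem_dif, ZFSet.mem_singleton]
        exact ⟨fun h9 => ⟨hys h9, (h8 z (hys h9)).1 h9⟩, fun h9 => (h8 z h9.1).2 h9.2⟩
      · rintro rfl z hz
        rw [mem_dif, ZFSet.mem_singleton]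
        exact ⟨fun h9 => h9.2, fun h9 => ⟨hz, h9⟩⟩
    obtain ⟨B, hB, hBs⟩ := h7 x hx _ (isFunc_gr fun i _ => mem_powerset.2 (hds _)) hgr
      fun i hi B _ hB => by
        rw [← (pair_mem_gr.1 hB).2]
        exact hsing i (hαo.isTransitive.mem_trans hi hx)
    refine h5 B hB _ sep_subset (HOD_dif (HOD_ord α) ((HOD_ord α).mem hx)) fun z hz => ?_
    refine mem_dif.2 ⟨h1 B hB hz, fun hzx => ?_⟩
    have := hBs z hzx _ (hds _) (pair_mem_gr.2 ⟨hzx, rfl⟩) hz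
    rw [mem_dif, ZFSet.mem_singleton] at this
    exact this.2 rfl
  refine ⟨h0, fun x hx => ?_, ?_⟩
  · by_contra hc
    have hsx : α = Order.succ x := le_antisymm (not_lt.1 hc) (Order.succ_le_of_lt hx)
    obtain ⟨y, hy, hyx⟩ := h4 _ (htail _ (tzm.2 hx)) _ (tzm.2 hx)
    obtain ⟨hy1, hy2⟩ := mem_dif.1 hy
    obtain ⟨y, hy', rfl⟩ := Ordinal.mem_toZFSet_iff.1 hy1
    rw [tzm] at hy2
    rw [hsx, Order.lt_succ_iff] at hy'
    exact hyx (by rw [le_antisymm hy' (not_lt.1 hy2)])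
  · rintro ⟨a, ha, g, hg, hgf, hcof⟩
    have hgr : HOD (gr a fun i => dif α.toZFSet (app g i)) := by
      refine HOD_gr4 (Ψ := fun v => ∀ z ∈ v 4, (z ∈ v 0 ↔ ¬ ∃ w ∈ v 4, pair (v 1) w ∈ v 5 ∧ z ∈ w))
        (Dfn.ball Lvl_sub_Trs _ ((Dfn.mem _ _).iff (Dfn.bex Lvl_sub_Trs _
          ((dfn_pm Lvl_sub_Trs _ _ _).and (Dfn.mem _ _))).not)) ((HOD_ord α).mem ha)
        (HOD_Ph (HOD_ord α)) (HOD_ord α) hg 0 0 0 0 fun i hi => ?_
      have hgi := app_mem hgf hi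
      refine ⟨mem_Ph.2 ⟨sep_subset, HOD_dif (HOD_ord α) ((HOD_ord α).mem hgi)⟩, fun y hy => ?_⟩
      show (∀ z ∈ α.toZFSet, (z ∈ y ↔ ¬ ∃ w ∈ α.toZFSet, pair i w ∈ g ∧ z ∈ w)) ↔ _
      have hys := (mem_Ph.1 hy).1
      have hiff : ∀ z, (∃ w ∈ α.toZFSet, pair i w ∈ g ∧ z ∈ w) ↔ z ∈ app g i := by
        intro z
        constructor
        · rintro ⟨w, _, h8, h9⟩
          rwa [(app_iff hgf hi).1 h8]
        · intro h8
          exact ⟨_, hgi, app_spec hgf hi, h8⟩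
      constructor
      · intro h8
        ext z
        rw [mem_dif, ← hiff]
        exact ⟨fun h9 => ⟨hys h9, (h8 z (hys h9)).1 h9⟩, fun h9 => (h8 z h9.1).2 h9.2⟩
      · rintro rfl z hz
        rw [mem_dif, hiff]
        exact ⟨fun h9 => h9.2, fun h9 => ⟨hz, h9⟩⟩
    obtain ⟨B, hB, hBs⟩ := h7 a ha _ (isFunc_gr fun i _ => mem_powerset.2 (hds _)) hgr
      fun i hi B _ hB => by
        rw [← (pair_mem_gr.1 hB).2]
        exact htail _ (app_mem hgf hi)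
    obtain ⟨y, hy⟩ := hne B hB
    obtain ⟨i, hi, z, hz, hiz, hyz⟩ := hcof y (h1 B hB hy)
    have := hBs i hi _ (hds _) (pair_mem_gr.2 ⟨hi, rfl⟩) hy
    rw [mem_dif] at this
    rw [(app_iff hgf hi).1 hiz] at this
    exact this.2 hyz

end Pool.Agent.H639
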