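import Pool.Agent.H639.Mit7

/-!
Singular cardinals which are measurable in HOD, continued.
-/

set_option autoImplicit false

namespace Pool.Agent.H639

open Pool.Agent.H310.HD Gss969 ZFSet Pool.Agent.Results.MP_e37c09_lc.AlternativeA

universe u

variable {δ : Ordinal.{u}}

/-- Below a regular limit cardinal there are singular cardinals measurable in HOD. -/
theorem exists_sing_meas (hδ : Extendible δ) (hB : Bdd δ) (β : Ordinal.{u}) (hβ : δ ≤ β) :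
    ∃ γ > β, IsSing (Ordinal.toZFSet γ) ∧ MeasIn HOD (Ordinal.toZFSet γ) := by
  obtain ⟨l, hl, hr, hlim⟩ := hδ.exists_regLim β
  have hF : ∀ ξ : Ordinal.{u}, ∃ c, ξ < l → (c < l ∧ max ξ β < c ∧ IsCard (Ordinal.toZFSet c)) := by
    intro ξ
    by_cases h : ξ < l
    · obtain ⟨c, h1, h2, h3⟩ := hlim (max ξ β) (max_lt h hl)
      exact ⟨c, fun _ => ⟨h1, h2, h3⟩⟩
    · exact ⟨0, fun h' => absurd h' h⟩
  choose F hF using hF
  obtain ⟨γ, hγ, ⟨⟨m, hm, hc⟩, hme⟩, hγC⟩ := statL_meas hδ hB hr (hβ.trans_lt hl) _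
    (fun x hx => (mem_sep.1 hx).1) (club_closure hr F fun ξ hξ => (hF ξ hξ).1)
  obtain ⟨_, ⟨y, hy, _⟩, hcl⟩ := mem_sep.1 hγC
  have hcl' : ∀ ξ < γ, F ξ < γ := by
    intro ξ hξ
    have := hcl _ (tzm.2 hξ)
    rwa [Ordinal.rank_toZFSet, tzm] at this
  obtain ⟨y, hy', rfl⟩ := Ordinal.mem_toZFSet_iff.1 hy
  have hβγ : β < γ := (le_max_right _ _).trans_lt ((hF y (hy'.trans hγ)).2.1.trans (hcl' y hy'))
  have hmγ : m < γ := hm.trans (hβ.trans_lt hβγ)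
  refine ⟨γ, hβγ, ⟨isCard_of_lim fun ξ hξ => ?_, ?_, m.toZFSet, tzm.2 hmγ, hc⟩, hme⟩
  · have h1 := hF ξ (hξ.trans hγ)
    exact ⟨F ξ, hcl' ξ hξ, (le_max_left _ _).trans_lt h1.2.1, h1.2.2⟩
  · unfold om
    exact tzm.2 (hδ.om_lt.trans (hβ.trans_lt hβγ))

theorem loc3_singMeas : Loc3.{u} (fun P _ l => IsSing l ∧ MeasIn P l) := by
  refine ⟨fun p l P P' h => ?_, ?_⟩
  · exact and_congr_right fun hl => measIn_congr hl.1.1 h
  · exact (dfn_IsSing _).and (dfn_MeasIn _ _)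

end Pool.Agent.H639
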