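import Pool.Agent.H639.Mit7
import Pool.Agent.H639.Jen1

/-!
One embedding: definitions and transfer of properties of HOD as computed in `V_η`.
-/

set_option autoImplicit false
set_option linter.unusedVariables false

namespace Pool.Agent.H639

open Pool.Agent.H310.HD Gss969 ZFSet Pool.Agent.Results.MP_e37c09_lc.AlternativeA

universe u

/-- `j` is an elementary embedding of `V_η` into `V_θ` with critical point `δ` and `η < j(δ)`, for a
limit ordinal `η > δ`. -/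
def Wit (δ η θ : Ordinal.{u}) (j : ZFSet.{u} → ZFSet.{u}) : Prop :=
  δ < η ∧ Order.IsSuccLimit η ∧ IsEl (V_ η) (V_ θ) j ∧ (∀ α < δ, j α.toZFSet = α.toZFSet) ∧
    η.toZFSet ∈ j δ.toZFSet

theorem Wit.data {δ η θ : Ordinal.{u}} {j : ZFSet.{u} → ZFSet.{u}} (h : Wit δ η θ j)
    (hω : Ordinal.omega0 < δ) : ExtData δ η θ (rank (j δ.toZFSet)) j := by
  obtain ⟨hδη, h3, hel, hfix, hjd⟩ := h
  have h2 : Ordinal.omega0 < η := hω.trans hδη
  have hη : V_ η ∈ Lvl.{u} := ⟨η, h3, h2, rfl⟩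
  have hE : Emb (V_ η) (V_ θ) j := ⟨hel, hη, isTransitive_vonNeumann _⟩
  have hδB : δ.toZFSet ∈ V_ η := by
    rw [mem_vonNeumann, Ordinal.rank_toZFSet]; exact hδη
  have hητ : η < rank (j δ.toZFSet) := by
    have := rank_lt_of_mem hjd
    rwa [Ordinal.rank_toZFSet] at this
  have hτθ : rank (j δ.toZFSet) < θ := mem_vonNeumann.1 (hel.1 _ hδB)
  have hnl : V_ θ ∈ Lvl.{u} := by
    refine lvl_of_unb (h2.trans (hητ.trans hτθ)) ?_
    -- the formula `∀ x ∃ y, x ∈ y`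
    have h4 := (hel.2 (.neg (.ex 0 (.neg (.ex 1 (.mem 0 1))))) (fun _ => ∅) (fun _ => by
      rw [mem_vonNeumann, rank_empty]; exact lt_trans (by simp) h2)).1 (by
        rintro ⟨x, hx, h5⟩
        obtain ⟨y, hy, hxy⟩ := lvl_unb hη x hx
        exact h5 ⟨y, hy, hxy⟩)
    intro x hx
    by_contra hc
    refine h4 ⟨x, hx, ?_⟩
    rintro ⟨y, hy, hxy⟩
    exact hc ⟨y, hy, hxy⟩
  have hord := hE.ord hδB (isOrdinal_toZFSet δ)
  exact ⟨hE, hnl, hfix, hδη, hord.toZFSet_rank_eq.symm, hητ, hτθ⟩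

/-- Extendibility provides such embeddings. -/
theorem exists_wit {δ : Ordinal.{u}} (hδ : Extendible δ) (ξ : Ordinal.{u}) :
    ∃ (η θ : Ordinal.{u}) (j : ZFSet.{u} → ZFSet.{u}), ξ < η ∧ Wit δ η θ j := by
  obtain ⟨η, h1, h2, h3⟩ := exists_limit_gt (max ξ δ)
  have hδη : δ < η := (le_max_right _ _).trans_lt h1
  obtain ⟨θ, hθ, j, hj, hfix, hjd⟩ := hδ η hδη
  exact ⟨η, θ, j, (le_max_left _ _).trans_lt h1, hδη, h3, (IsEl.restrTop hj).2, hfix, hjd⟩

/-- A relation which is defined over each `U ∈ Lvl` by a formula; the relation may depend on `U`. -/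
def DfnU (R : ZFSet.{u} → (ℕ → ZFSet.{u}) → Prop) : Prop :=
  ∀ f : ℕ → ℕ, (Set.range f)ᶜ.Infinite → ∃ φ : Fml, ∀ U ∈ Lvl.{u}, ∀ s : ℕ → ZFSet.{u},
    (∀ i, s i ∈ U) → (Sat U s φ ↔ R U (fun i => s (f i)))

theorem DfnU.of {A : (ℕ → ZFSet.{u}) → Prop} (h : Dfn Lvl.{u} A) : DfnU (fun _ v => A v) := h

theorem DfnU.congr {R S : ZFSet.{u} → (ℕ → ZFSet.{u}) → Prop} (h : DfnU R)
    (e : ∀ U ∈ Lvl.{u}, ∀ v : ℕ → ZFSet.{u}, (∀ i, v i ∈ U) → (R U v ↔ S U v)) : DfnU S := by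
  intro f hf
  obtain ⟨φ, hφ⟩ := h f hf
  refine ⟨φ, fun U hU s hs => ?_⟩
  rw [hφ U hU s hs, e U hU _ (fun i => hs _)]

theorem DfnU.not {R : ZFSet.{u} → (ℕ → ZFSet.{u}) → Prop} (h : DfnU R) :
    DfnU (fun U v => ¬ R U v) := by
  intro f hf
  obtain ⟨φ, hφ⟩ := h f hf
  exact ⟨.neg φ, fun U hU s hs => not_congr (hφ U hU s hs)⟩

theorem DfnU.and {R S : ZFSet.{u} → (ℕ → ZFSet.{u}) → Prop} (h : DfnU R) (h' : DfnU S) :
    DfnU (fun U v => R U v ∧ S U v) := by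
  intro f hf
  obtain ⟨φ, hφ⟩ := h f hf
  obtain ⟨ψ, hψ⟩ := h' f hf
  exact ⟨.and φ ψ, fun U hU s hs => and_congr (hφ U hU s hs) (hψ U hU s hs)⟩

theorem DfnU.imp {R S : ZFSet.{u} → (ℕ → ZFSet.{u}) → Prop} (h : DfnU R) (h' : DfnU S) :
    DfnU (fun U v => R U v → S U v) :=
  ((h.and h'.not).not).congr fun U _ v _ => by tauto

theorem DfnU.iff {R S : ZFSet.{u} → (ℕ → ZFSet.{u}) → Prop} (h : DfnU R) (h' : DfnU S) :
    DfnU (fun U v => (R U v ↔ S U v)) :=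
  ((h.imp h').and (h'.imp h)).congr fun U _ v _ => by tauto

theorem DfnU.ex {R : ZFSet.{u} → ZFSet.{u} → (ℕ → ZFSet.{u}) → Prop}
    (h : DfnU (fun U w => R U (w 0) (fun n => w (n + 1)))) :
    DfnU (fun U v => ∃ a ∈ U, R U a v) := by
  intro f hf
  obtain ⟨k, hk⟩ := hf.nonempty
  have hk' : ∀ n, f n ≠ k := fun n hn => hk ⟨n, hn⟩
  let f' : ℕ → ℕ := fun n => Nat.casesOn n k f
  have hf' : (Set.range f')ᶜ.Infinite := by
    have : (Set.range f)ᶜ \ {k} ⊆ (Set.range f')ᶜ := by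
      rintro x ⟨hx, hx'⟩ ⟨n, rfl⟩
      cases n with
      | zero => exact hx' rfl
      | succ n => exact hx ⟨n, rfl⟩
    exact (hf.sdiff (Set.finite_singleton k)).mono this
  obtain ⟨φ, hφ⟩ := h f' hf'
  refine ⟨.ex k φ, fun U hU s hs => ?_⟩
  have key : ∀ a ∈ U, (Sat U (Function.update s k a) φ ↔ R U a (fun i => s (f i))) := by
    intro a ha
    have hs' : ∀ i, Function.update s k a i ∈ U := by
      intro i
      by_cases hi : i = k
      · subst hi; simpa using ha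
      · simpa [hi] using hs i
    refine (hφ U hU _ hs').trans ?_
    have e1 : Function.update s k a (f' 0) = a := by simp [f']
    have e2 : (fun n => Function.update s k a (f' (n + 1))) = fun i => s (f i) := by
      funext n
      simp [f', Function.update_of_ne (hk' n)]
    show R U (Function.update s k a (f' 0)) (fun n => Function.update s k a (f' (n + 1))) ↔ _
    rw [e1, e2]
  constructor
  · rintro ⟨a, ha, h1⟩
    exact ⟨a, ha, (key a ha).1 h1⟩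
  · rintro ⟨a, ha, h1⟩
    exact ⟨a, ha, (key a ha).2 h1⟩

theorem DfnU.ball (i : ℕ) {R : ZFSet.{u} → ZFSet.{u} → (ℕ → ZFSet.{u}) → Prop}
    (h : DfnU (fun U w => R U (w 0) (fun n => w (n + 1)))) :
    DfnU (fun U v => ∀ a ∈ v i, R U a v) := by
  refine ((DfnU.ex (R := fun U a v => ¬ (a ∈ v i → R U a v))
    ((DfnU.of (Dfn.mem 0 (i + 1))).imp h).not).not).congr fun U hU v hv => ?_
  constructor
  · intro h1 a ha
    by_contra hc
    exact h1 ⟨a, (Lvl_sub_Trs hU).mem_trans ha (hv i), fun h2 => hc (h2 ha)⟩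
  · rintro h1 ⟨a, _, h2⟩
    exact h2 (h1 a)

/-- Being in HOD, as computed in `U`, is definable over `U`. -/
theorem dfnU_HODin (a : ℕ) : DfnU (fun U v => HODin U (v a)) := by
  unfold HODin
  refine DfnU.ex (R := fun U t v => t.IsTransitive ∧ v a ∈ t ∧ ∀ y ∈ t, ∃ U' ∈ U, Lev U' ∧
    ODat U' y) ?_
  refine (DfnU.of (dfn_trans Lvl_sub_Trs _)).and ((DfnU.of (Dfn.mem _ _)).and (DfnU.ball _ ?_))
  refine DfnU.ex (R := fun U U' v => Lev U' ∧ ODat U' (v 0)) ?_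
  exact DfnU.of ((dfn_lev _).and (dfn_ODat _ _))

/-- Transfer of properties which depend on the structure. -/
theorem DfnU.transfer {R : ZFSet.{u} → (ℕ → ZFSet.{u}) → Prop} (h : DfnU R)
    {δ η θ τ : Ordinal.{u}} {j : ZFSet.{u} → ZFSet.{u}} (D : ExtData δ η θ τ j)
    {v : ℕ → ZFSet.{u}} (hv : ∀ i, v i ∈ V_ η) : R (V_ η) v ↔ R (V_ θ) (fun i => j (v i)) := by
  obtain ⟨φ, hφ⟩ := h (fun n => 2 * n) (by
    refine Set.infinite_of_injective_forall_mem (f := fun n : ℕ => 2 * n + 1) ?_ ?_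
    · intro a b hab; simpa using hab
    · rintro n ⟨m, hm⟩
      simp only at hm
      omega)
  have h1 := hφ _ D.E.lvl (fun n => v (n / 2)) fun i => hv _
  have h2 := hφ _ D.nl (fun n => j (v (n / 2))) fun i => D.E.el.1 _ (hv _)
  have e : ∀ i, 2 * i / 2 = i := fun i => by omega
  simp only [e] at h1 h2
  rw [← h1, ← h2]
  exact D.E.el.2 φ (fun n => v (n / 2)) fun i => hv _

/-- The set of the elements of `XX l` which are in HOD, as computed in `V_η`. -/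
noncomputable def HX (η : Ordinal.{u}) (l : ZFSet.{u}) : ZFSet.{u} :=
  ZFSet.sep (HODin (V_ η)) (XX l)

theorem HX_image {δ η θ τ : Ordinal.{u}} {j : ZFSet.{u} → ZFSet.{u}} (D : ExtData δ η θ τ j)
    {l : ZFSet.{u}} (hl : l ∈ V_ η) : j (HX η l) = HX θ (j l) := by
  have hX : XX l ∈ V_ η := XX_mem D.E.lvl hl
  have hH : HX η l ∈ V_ η := Lvl_sub D.E.lvl hX sep_subset
  have hXj : j (XX l) = XX (j l) := by
    have h := (D.E.el.t2 D.E.lvl D.nl (A := fun X l => ∀ x, x ∈ X ↔ x ∈ XX l) (by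
      refine ((Dfn.ball Lvl_sub_Trs 0 (A := fun x v => x ∈ XX (v 1)) (dfn_XX 0 2)).and
        (Dfn.all (A := fun x v => x ∈ XX (v 1) → x ∈ v 0) ((dfn_XX 0 2).imp (Dfn.mem 0 1))
        ?_)).congr fun v => ?_
      · rintro U hU v hv ⟨a, h1⟩
        push Not at h1
        refine ⟨a, (Lvl_sub_Trs hU).mem_trans h1.1 (XX_mem hU (hv 1)), ?_⟩
        push Not
        exact h1
      · constructor
        · rintro ⟨h1, h2⟩ x
          exact ⟨h1 x, h2 x⟩
        · intro h1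
          exact ⟨fun x hx => (h1 x).1 hx, fun x hx => (h1 x).2 hx⟩) hX hl).1 fun x => Iff.rfl
    ext x
    exact h x
  have hR : DfnU (fun U v => ((∀ x ∈ v 0, x ∈ v 1 ∧ HODin U x) ∧
      ∀ x ∈ v 1, HODin U x → x ∈ v 0)) := by
    refine (DfnU.ball 0 (R := fun U x v => x ∈ v 1 ∧ HODin U x)
      ((DfnU.of (Dfn.mem 0 2)).and (dfnU_HODin 0))).and
      (DfnU.ball 1 (R := fun U x v => HODin U x → x ∈ v 0)
      ((dfnU_HODin 0).imp (DfnU.of (Dfn.mem 0 1))))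
  have h := (hR.transfer D (v := fun n => Nat.casesOn n (HX η l) fun _ => XX l) (fun i => by
    rcases i with _ | i
    · exact hH
    · exact hX)).1 ⟨fun x hx => mem_sep.1 hx, fun x h1 h2 => mem_sep.2 ⟨h1, h2⟩⟩
  have h' : (∀ x ∈ j (HX η l), x ∈ j (XX l) ∧ HODin (V_ θ) x) ∧
    ∀ x ∈ j (XX l), HODin (V_ θ) x → x ∈ j (HX η l) := h
  rw [hXj] at h'
  ext x
  unfold HX
  rw [mem_sep]
  exact ⟨h'.1 x, fun h2 => h'.2 x h2.1 h2.2⟩

end Pool.Agent.H639
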