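import Pool.Agent.H639.One1

/-!
One embedding: the supremum of the image of a regular cardinal.
-/

set_option autoImplicit false
set_option linter.unusedVariables false

namespace Pool.Agent.H639

open Pool.Agent.H310.HD Gss969 ZFSet Pool.Agent.Results.MP_e37c09_lc.AlternativeA

universe u

theorem XX_mono {k l : ZFSet.{u}} (h : k ⊆ l) : XX k ⊆ XX l := by
  intro x hx
  rw [mem_XX] at hx ⊢
  rcases hx with h1 | h1 | h1 | h1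
  · exact Or.inl fun y hy => h (h1 hy)
  · exact Or.inr (Or.inl fun y hy z hz => h (h1 y hy hz))
  · refine Or.inr (Or.inr (Or.inl fun p hp => ?_))
    obtain ⟨a, ha, b, hb, rfl⟩ := h1 p hp
    exact ⟨a, h ha, b, fun z hz => h (hb hz), rfl⟩
  · refine Or.inr (Or.inr (Or.inr fun p hp => ?_))
    obtain ⟨a, ha, b, hb, rfl⟩ := h1 p hp
    exact ⟨a, h ha, b, h hb, rfl⟩

theorem mem_HX {η : Ordinal.{u}} {l x : ZFSet.{u}} : x ∈ HX η l ↔ x ∈ XX l ∧ HODin (V_ η) x := by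
  unfold HX
  rw [mem_sep]

theorem dfn_MeasH (w a : ℕ) : Dfn Lvl.{u} (fun v => MeasIn (fun x => x ∈ v w) (v a)) := by
  unfold MeasIn
  refine Dfn.ex (A := fun D v => D ∈ v w ∧ ((∀ B ∈ D, B ⊆ v a) ∧ (∀ B ∈ D, B ∈ v w) ∧ v a ∈ D ∧
    (∀ B ∈ D, ∀ x ∈ v a, ∃ y ∈ B, ¬ y = x) ∧
    (∀ B ∈ D, ∀ B', B' ⊆ v a → B' ∈ v w → B ⊆ B' → B' ∈ D) ∧
    (∀ B, B ⊆ v a → B ∈ v w → (B ∈ D ↔ ∀ B' ∈ D, ∃ x ∈ B', x ∈ B)) ∧
    ∀ m ∈ v a, ∀ g, IsFunc m (powerset (v a)) g → g ∈ v w →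
      (∀ i ∈ m, ∀ B, B ⊆ v a → pair i B ∈ g → B ∈ D) →
      ∃ B ∈ D, ∀ i ∈ m, ∀ B', B' ⊆ v a → pair i B' ∈ g → B ⊆ B')) ?_ ?_
  · refine (Dfn.mem _ _).and ?_
    refine Dfn.and ?_ (Dfn.and ?_ (Dfn.and ?_ (Dfn.and ?_ (Dfn.and ?_ (Dfn.and ?_ ?_)))))
    · exact Dfn.ball Lvl_sub_Trs _ (dfn_sub Lvl_sub_Trs _ _)
    · exact Dfn.ball Lvl_sub_Trs _ (Dfn.mem _ _)
    · exact Dfn.mem _ _
    · exact Dfn.ball Lvl_sub_Trs _ (Dfn.ball Lvl_sub_Trs _ (Dfn.bex Lvl_sub_Trs _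
        (Dfn.eq _ _).not))
    · exact Dfn.ball Lvl_sub_Trs _ (Dfn.allsub subset_rfl _ (Dfn.imp (Dfn.mem _ _)
        (Dfn.imp (dfn_sub Lvl_sub_Trs _ _) (Dfn.mem _ _))))
    · exact Dfn.allsub subset_rfl _ (Dfn.imp (Dfn.mem _ _) (Dfn.iff (Dfn.mem _ _)
        (Dfn.ball Lvl_sub_Trs _ (Dfn.bex Lvl_sub_Trs _ (Dfn.mem _ _)))))
    · refine Dfn.ball Lvl_sub_Trs _ ?_
      refine Dfn_pow (a + 2) (A := fun T v => ∀ g, IsFunc (v 0) T g → g ∈ v (w + 2) →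
        (∀ i ∈ v 0, ∀ B, B ⊆ v (a + 2) → pair i B ∈ g → B ∈ v 1) →
        ∃ B ∈ v 1, ∀ i ∈ v 0, ∀ B', B' ⊆ v (a + 2) → pair i B' ∈ g → B ⊆ B') ?_
      refine Dfn.allfun _ _ (Dfn.imp (Dfn.mem _ _) (Dfn.imp ?_ ?_))
      · exact Dfn.ball Lvl_sub_Trs _ (Dfn.allsub subset_rfl _ (Dfn.imp (dfn_pm Lvl_sub_Trs _ _ _)
          (Dfn.mem _ _)))
      · exact Dfn.bex Lvl_sub_Trs _ (Dfn.ball Lvl_sub_Trs _ (Dfn.allsub subset_rfl _
          (Dfn.imp (dfn_pm Lvl_sub_Trs _ _ _) (dfn_sub Lvl_sub_Trs _ _))))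
  · rintro U hU v hv ⟨D, h1, h2⟩
    exact ⟨D, (Lvl_sub_Trs hU).mem_trans h1 (hv _), h1, h2⟩

theorem dfn_CofinalH (w a : ℕ) : Dfn Lvl.{u} (fun v => CofinalP (fun x => x ∈ v w) (v a)) := by
  unfold CofinalP
  refine Dfn.bex Lvl_sub_Trs _ ?_
  refine Dfn.ex (A := fun g v => g ∈ v (w + 1) ∧ (IsFunc (v 0) (v (a + 1)) g ∧
    ∀ y ∈ v (a + 1), ∃ x ∈ v 0, ∃ z ∈ v (a + 1), pair x z ∈ g ∧ y ∈ z)) ?_ ?_
  · refine (Dfn.mem _ _).and (Dfn.and (dfn_isFunc Lvl_sub_Trs _ _ _) ?_)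
    repeat' first
      | exact Dfn.mem _ _ | exact dfn_pm Lvl_sub_Trs _ _ _ | refine Dfn.and ?_ ?_
      | refine Dfn.ball Lvl_sub_Trs _ ?_ | refine Dfn.bex Lvl_sub_Trs _ ?_
  · rintro U hU v hv ⟨g, h1, h2⟩
    exact ⟨g, Lvl_func hU (hv 0) (hv (a + 1)) h2.1, h1, h2⟩

/-- The supremum of the image of `l`. -/
noncomputable def SupIm (j : ZFSet.{u} → ZFSet.{u}) (l : Ordinal.{u}) : Ordinal.{u} :=
  ⨆ x : Set.Iio l, rank (j x.1.toZFSet)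

variable {δ η θ τ l : Ordinal.{u}} {j : ZFSet.{u} → ZFSet.{u}}

theorem supIm_spec (D : ExtData δ η θ τ j) (hl : RegUnc l.toZFSet) (hlη : l < η) :
    (∀ x < l, rank (j x.toZFSet) < SupIm j l) ∧
      (∀ y < SupIm j l, ∃ x < l, y < rank (j x.toZFSet)) := by
  refine ⟨fun x hx => ?_, fun y hy => ?_⟩
  · have h1 := hl.succ_lt hx
    refine ((D.J_lt (hx.trans hlη) (h1.trans hlη)).1 (Order.lt_succ x)).trans_le ?_
    exact Ordinal.le_iSup (fun w : Set.Iio l => rank (j w.1.toZFSet)) ⟨Order.succ x, h1⟩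
  · unfold SupIm at hy
    rw [Ordinal.lt_iSup_iff] at hy
    obtain ⟨⟨x, hx⟩, h1⟩ := hy
    exact ⟨x, hx, h1⟩

theorem supIm_cof (D : ExtData δ η θ τ j) (hl : RegUnc l.toZFSet) (hlη : l < η) :
    IsFunc l.toZFSet (SupIm j l).toZFSet (gr l.toZFSet fun x => j x) ∧
    ∀ x ∈ (SupIm j l).toZFSet, ∃ n ∈ l.toZFSet, ∃ y ∈ (SupIm j l).toZFSet,
      pair n y ∈ (gr l.toZFSet fun x => j x) ∧ x ∈ y := by
  obtain ⟨h1, h2⟩ := supIm_spec D hl hlη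
  have hm : ∀ x < l, j x.toZFSet ∈ (SupIm j l).toZFSet := by
    intro x hx
    rw [D.jJ (hx.trans hlη)]
    exact tzm.2 (h1 x hx)
  refine ⟨isFunc_gr fun x hx => ?_, fun x hx => ?_⟩
  · obtain ⟨x, hx', rfl⟩ := Ordinal.mem_toZFSet_iff.1 hx
    exact hm x hx'
  · obtain ⟨x, hx', rfl⟩ := Ordinal.mem_toZFSet_iff.1 hx
    obtain ⟨n, hn, h3⟩ := h2 x hx'
    refine ⟨_, tzm.2 hn, _, hm n hn, pair_mem_gr.2 ⟨tzm.2 hn, rfl⟩, ?_⟩
    rw [D.jJ (hn.trans hlη)]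
    exact tzm.2 h3

theorem supIm_mem (D : ExtData δ η θ τ j) (hl : RegUnc l.toZFSet) (hδl : δ ≤ l) (hlη : l < η) :
    (SupIm j l).toZFSet ∈ j l.toZFSet := by
  obtain ⟨h1, h2⟩ := supIm_spec D hl hlη
  obtain ⟨h3, h4⟩ := supIm_cof D hl hlη
  obtain ⟨L, hL1, hL2, hL3⟩ := D.exists_lam hl hlη
  have hL : L = SupIm j l := by
    apply le_antisymm
    · by_contra hc
      push Not at hc
      obtain ⟨x, hx, h5⟩ := hL2 _ hc
      exact absurd (h1 x hx) (not_lt.2 h5.le)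
    · by_contra hc
      push Not at hc
      obtain ⟨x, hx, h5⟩ := h2 _ hc
      exact absurd (hL1 x hx) (not_lt.2 h5.le)
  subst hL
  rw [D.jJ hlη, tzm]
  refine lt_of_le_of_ne hL3 fun e => ?_
  have hr : RegUnc (j l.toZFSet) :=
    (D.E.el.t1 D.E.lvl D.nl (A := fun a => RegUnc a) (dfn_RegUnc 0) (ExtData.ordB hlη)).1 hl
  rw [D.jJ hlη, ← e] at hr
  have h6 : l < SupIm j l := by
    rw [e]
    have h7 : τ ≤ rank (j l.toZFSet) := by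
      rcases hδl.lt_or_eq with h8 | h8
      · have h9 := (D.J_lt D.lt hlη).1 h8
        rw [D.jd, Ordinal.rank_toZFSet] at h9
        exact h9.le
      · rw [← h8, D.jd, Ordinal.rank_toZFSet]
    exact (hlη.trans D.ητ).trans_le h7
  obtain ⟨b, hb, h8⟩ := hr.2.2 _ (tzm.2 h6) _ h3
  obtain ⟨n, hn, y, hy, h9, h10⟩ := h4 b hb
  exact mem_asymm h10 (h8 n hn y hy h9)

/-- The supremum of the image of `l` is in the image of every closed unbounded set. -/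
theorem supIm_club (D : ExtData δ η θ τ j) (hl : RegUnc l.toZFSet) (hδl : δ ≤ l) (hlη : l < η)
    {C : ZFSet.{u}} (hCl : C ⊆ l.toZFSet) (hC : Club C l.toZFSet) :
    (SupIm j l).toZFSet ∈ j C := by
  obtain ⟨h1, h2⟩ := supIm_spec D hl hlη
  have hCη : C ∈ V_ η := Lvl_sub D.E.lvl (ExtData.ordB hlη) hCl
  have hC' : Club (j C) (j l.toZFSet) :=
    (D.E.el.t2 D.E.lvl D.nl (A := fun a b => Club a b) (dfn_Club 0 1) hCη (ExtData.ordB hlη)).1 hC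
  refine hC'.2.2 _ (supIm_mem D hl hδl hlη) ?_ fun x hx => ?_
  · have h0 : 0 < l := lt_of_le_of_lt bot_le hl.om_lt
    exact ⟨_, tzm.2 (h1 0 h0), rfl⟩
  · obtain ⟨x, hx', rfl⟩ := Ordinal.mem_toZFSet_iff.1 hx
    obtain ⟨y, hy, h3⟩ := h2 x hx'
    obtain ⟨c, hc, h4⟩ := hC.2.1 _ (tzm.2 hy)
    obtain ⟨c, hcl, rfl⟩ := Ordinal.mem_toZFSet_iff.1 (hCl hc)
    have h5 := tzm.1 h4
    have h6 := (D.J_lt (hy.trans hlη) (hcl.trans hlη)).1 h5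
    refine ⟨j c.toZFSet, (D.E.mem_iff (ExtData.ordB (hcl.trans hlη)) hCη).1 hc, ?_, ?_⟩
    · rw [D.jJ (hcl.trans hlη)]
      exact tzm.2 (h1 c hcl)
    · rw [D.jJ (hcl.trans hlη)]
      exact tzm.2 (h3.trans h6)

/-- Reflection: if the supremum of the image of `l` is singular in HOD as computed in `V_θ`, then
stationary many ordinals below `l` of cofinality less than `δ` are singular in HOD. -/
theorem statL_of_sing (D : ExtData δ η θ τ j) (hl : RegUnc l.toZFSet) (hδl : δ < l) (hlη : l < η)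
    (h : CofinalP (HODin (V_ θ)) (SupIm j l).toZFSet) :
    StatL {α | (∃ m < δ, CofN (Ordinal.toZFSet m) α.toZFSet) ∧ CofinalP HOD α.toZFSet} l := by
  intro C hCl hC
  by_contra hcon
  push Not at hcon
  have hCη : C ∈ V_ η := Lvl_sub D.E.lvl (ExtData.ordB hlη) hCl
  have hlη' := ExtData.ordB hlη
  have hHη : HX η l.toZFSet ∈ V_ η := Lvl_sub D.E.lvl (XX_mem D.E.lvl hlη') sep_subset
  have h0 : ∀ α ∈ C, (∃ m ∈ δ.toZFSet, CofN m α) → ¬ CofinalP (fun x => x ∈ HX η l.toZFSet) α := by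
    rintro α hα ⟨m, hm, hc⟩ hs
    obtain ⟨α, hαl, rfl⟩ := Ordinal.mem_toZFSet_iff.1 (hCl hα)
    obtain ⟨m, hm', rfl⟩ := Ordinal.mem_toZFSet_iff.1 hm
    exact hcon α hαl ⟨⟨m, hm', hc⟩, hs.mono fun x hx => (mem_HX.1 hx).2.hod⟩ hα
  have h1 := (D.E.el.t4 D.E.lvl D.nl (A := fun C d H _ => ∀ α ∈ C, (∃ m ∈ d, CofN m α) →
    ¬ CofinalP (fun x => x ∈ H) α) (Dfn.ball Lvl_sub_Trs _ (Dfn.imp (Dfn.bex Lvl_sub_Trs _
      (dfn_CofN _ _)) (dfn_CofinalH _ _).not)) hCη (ExtData.dB D) hHη hHη).1 h0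
  have hc := supIm_club D hl hδl.le hlη hCl hC
  obtain ⟨h3, h4⟩ := supIm_cof D hl hlη
  refine h1 _ hc ⟨l.toZFSet, ?_, _, h3, h4⟩ ?_
  · rw [D.jd, tzm]
    exact hlη.trans D.ητ
  · rw [HX_image D hlη']
    have hsub : (SupIm j l).toZFSet ⊆ j l.toZFSet := by
      have := supIm_mem D hl hδl.le hlη
      rw [D.jJ hlη] at this ⊢
      exact (isOrdinal_toZFSet _).subset_of_mem this
    refine (cofinalP_congr (l := j l.toZFSet) (fun x hx => ?_) hsub (isOrdinal_toZFSet _)).1 h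
    rw [mem_HX]
    exact ⟨fun h => ⟨hx, h⟩, fun h => h.2⟩

end Pool.Agent.H639
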