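import Pool.Agent.H639.One2
import Pool.Graph.R_pool_sql_team_seeded_2aa45f1a.H310.HD.Par

/-!
One embedding: the case of bounded families.
-/

set_option autoImplicit false
set_option linter.unusedVariables false

namespace Pool.Agent.H639

open Pool.Agent.H310.HD Gss969 ZFSet Pool.Agent.Results.MP_e37c09_lc.AlternativeA

universe u

variable {δ η θ τ l : Ordinal.{u}} {j : ZFSet.{u} → ZFSet.{u}}

/-- In the case of bounded families almost all points of cofinality less than `δ` at which an atom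
reflects are measurable in HOD. -/
theorem not_statL_notMeas (hδ : Extendible δ) (hB : Bdd δ) (hl : RegUnc l.toZFSet) (hδl : δ < l)
    {A : ZFSet.{u}} (hA : Atom l.toZFSet A) (hAc : ∀ a ∈ A, ∃ m, CofN m a) :
    ¬ StatL {α | (∃ m < δ, CofN (Ordinal.toZFSet m) α.toZFSet) ∧ Stat A α.toZFSet ∧
      ¬ MeasIn HOD α.toZFSet} l := by
  intro h
  obtain ⟨m, hm, h1⟩ := StatL.union hl h hδl
    (P := fun m α => m < δ ∧ CofN m.toZFSet α.toZFSet) (by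
      rintro α ⟨⟨m, hm, h⟩, _⟩ _
      exact ⟨m, hm, hm, h⟩)
  obtain ⟨β, hβ⟩ := stab (XX l.toZFSet)
  have hcongr : ∀ α < l, (MeasIn HOD α.toZFSet ↔ MeasIn (HODin (V_ β)) α.toZFSet) := by
    intro α hα
    refine measIn_congr (isOrdinal_toZFSet _) fun x hx => ?_
    have h2 := XX_mono ((isOrdinal_toZFSet l).subset_of_mem (tzm.2 hα)) hx
    exact ⟨fun h3 => hβ β le_rfl x h2 h3, fun h3 => h3.hod⟩
  obtain ⟨R, hR⟩ : ∃ R, R = ZFSet.sep (fun α => CofN m.toZFSet α ∧ Stat A α ∧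
    ¬ MeasIn (HODin (V_ β)) α) l.toZFSet := ⟨_, rfl⟩
  have hRl : R ⊆ l.toZFSet := by rw [hR]; exact sep_subset
  have hRH : HOD R := by
    refine HOD_of_sub ?_ fun z hz => (HOD_ord l).mem (hRl hz)
    refine OD_of (R := fun y x => (∀ α ∈ y, α ∈ x 2 ∧ (CofN (x 3) α ∧ Stat (x 0) α ∧
        ¬ MeasIn (HODin (x 1)) α)) ∧ ∀ α ∈ x 2, (CofN (x 3) α ∧ Stat (x 0) α ∧
        ¬ MeasIn (HODin (x 1)) α) → α ∈ y)
      (x := asg A (V_ β) l.toZFSet m.toZFSet ∅ ∅) ?_ hA.1.od (OD_V β)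
      (asg_ord (isOrdinal_toZFSet _) (isOrdinal_toZFSet _) empty_ord empty_ord) (fun w => ?_)
    · refine Dfn.and ?_ ?_
      · exact Dfn.ball Lvl_sub_Trs _ ((Dfn.mem _ _).and ((dfn_CofN _ _).and ((dfn_Stat _ _).and
          (dfn_MeasIn _ _).not)))
      · exact Dfn.ball Lvl_sub_Trs _ (Dfn.imp ((dfn_CofN _ _).and ((dfn_Stat _ _).and
          (dfn_MeasIn _ _).not)) (Dfn.mem _ _))
    · show (∀ α ∈ w, α ∈ l.toZFSet ∧ (CofN m.toZFSet α ∧ Stat A α ∧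
          ¬ MeasIn (HODin (V_ β)) α)) ∧ (∀ α ∈ l.toZFSet, (CofN m.toZFSet α ∧ Stat A α ∧
          ¬ MeasIn (HODin (V_ β)) α) → α ∈ w) ↔ _
      constructor
      · rintro ⟨h2, h3⟩
        rw [hR]
        ext z
        rw [mem_sep]
        exact ⟨h2 z, fun h => h3 z h.1 h.2⟩
      · rintro rfl
        rw [hR]
        exact ⟨fun z hz => mem_sep.1 hz, fun z h2 h3 => mem_sep.2 ⟨h2, h3⟩⟩
  have hRs : Stat R l.toZFSet := by
    rw [stat_iff]
    refine h1.mono fun α hα h2 => ?_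
    show α.toZFSet ∈ R
    rw [hR]
    exact mem_sep.2 ⟨tzm.2 hα, h2.2.2, h2.1.2.1, fun h3 => h2.1.2.2 ((hcongr α hα).2 h3)⟩
  have hRmem : ∀ a ∈ R, CofN m.toZFSet a ∧ Stat A a ∧ ¬ MeasIn (HODin (V_ β)) a := by
    intro a ha
    rw [hR] at ha
    exact (mem_sep.1 ha).2
  obtain ⟨s, hs, hno⟩ := hB m (by obtain ⟨α, _, h2⟩ := statL_nonempty hl h1; exact h2.2.1)
  obtain ⟨m', hm', g, hg⟩ := few_subsets hδ hs
  obtain ⟨A', h3, h4⟩ := exists_atom (A := R) hl (hs.trans hδl) ⟨m', hm'.trans hδl, g, hg⟩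
    (hno l hl) hRH hRl hRs fun a ha => (hRmem a ha).1
  have hmlt := mlt_UA hl hA h4 hAc fun α hα => by
    intro C hC hC'
    obtain ⟨x, hx, hx'⟩ := (hRmem α (h3 hα)).2.1 C hC hC'
    exact ⟨x, mem_inter.2 ⟨hx, hC hx'⟩, hx'⟩
  have hωl : Ordinal.omega0 < l := hδ.om_lt.trans hδl
  obtain ⟨E, hE, hEm⟩ := meas_ae hωl (nmeas_UA hl hA) (nmeas_UA hl h4) hmlt
  obtain ⟨α, hα, h5, h6⟩ := statL_nonempty hl ((mem_UA h4.2.1).1 hE).2.2
  exact (hRmem _ (h3 h6)).2.2 ((hcongr α hα).1 (hEm _ h5))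

/-- **Bounded families: the suprema are measurable.** -/
theorem sup_meas (hδ : Extendible δ) (hB : Bdd δ) (hl : RegUnc l.toZFSet) (hδl : δ < l) :
    ∃ ρ : Ordinal.{u}, ∀ η > ρ, ∀ (θ τ : Ordinal.{u}) (j : ZFSet.{u} → ZFSet.{u}),
      ExtData δ η θ τ j → MeasIn (HODin (V_ θ)) (SupIm j l).toZFSet := by
  obtain ⟨W, hW, hWO, _⟩ := exists_wo (HOD_Ph (HOD_ord l))
  have hsp := AA_spec hδ hl hδl hB hW hWO
  obtain ⟨hA, ⟨m0, hm0, hc0⟩, _⟩ := hsp 0 (lt_of_le_of_lt bot_le hδ.om_lt)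
  obtain ⟨A, hA'⟩ : ∃ A, A = AA l δ W 0 := ⟨_, rfl⟩
  rw [← hA'] at hA hc0
  have hns := not_statL_notMeas hδ hB hl hδl hA fun a ha => ⟨_, hc0 a ha⟩
  have hC : ∃ C, C ⊆ l.toZFSet ∧ Club C l.toZFSet ∧ ∀ α < l,
      ((∃ m < δ, CofN (Ordinal.toZFSet m) α.toZFSet) ∧ Stat A α.toZFSet ∧
      ¬ MeasIn HOD α.toZFSet) → ¬ α.toZFSet ∈ C := by
    by_contra hcon
    push Not at hcon
    refine hns fun C h1 h2 => ?_
    obtain ⟨α, h3, h4, h5⟩ := hcon C h1 h2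
    exact ⟨α, h3, h4, h5⟩
  obtain ⟨C, hCl, hC, hCm⟩ := hC
  obtain ⟨β, hβ⟩ := stab (XX l.toZFSet)
  refine ⟨max β l, fun η hη θ τ j D => ?_⟩
  have hlη : l < η := (le_max_right _ _).trans_lt hη
  have hCη : C ∈ V_ η := Lvl_sub D.E.lvl (ExtData.ordB hlη) hCl
  have hlη' := ExtData.ordB hlη
  have hHη : HX η l.toZFSet ∈ V_ η := Lvl_sub D.E.lvl (XX_mem D.E.lvl hlη') sep_subset
  have hAη : A ∈ V_ η := Lvl_sub D.E.lvl hlη' hA.2.1
  have h0 : ∀ α ∈ C, (∃ m ∈ δ.toZFSet, CofN m α) → Stat A α →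
      MeasIn (fun x => x ∈ HX η l.toZFSet) α := by
    rintro α hα ⟨m, hm, hc⟩ hs
    obtain ⟨α, hαl, rfl⟩ := Ordinal.mem_toZFSet_iff.1 (hCl hα)
    obtain ⟨m, hm', rfl⟩ := Ordinal.mem_toZFSet_iff.1 hm
    by_contra hcon
    refine hCm α hαl ⟨⟨m, hm', hc⟩, hs, fun h1 => hcon ?_⟩ hα
    refine (measIn_congr (isOrdinal_toZFSet _) fun x hx => ?_).1 h1
    have h2 := XX_mono ((isOrdinal_toZFSet l).subset_of_mem (tzm.2 hαl)) hx
    rw [mem_HX]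
    exact ⟨fun h3 => ⟨h2, hβ η ((le_max_left _ _).trans hη.le) x h2 h3⟩, fun h3 => h3.2.hod⟩
  have h1 := (D.E.el.t4 D.E.lvl D.nl (A := fun C d H A => ∀ α ∈ C, (∃ m ∈ d, CofN m α) →
    Stat A α → MeasIn (fun x => x ∈ H) α) (Dfn.ball Lvl_sub_Trs _ (Dfn.imp (Dfn.bex Lvl_sub_Trs _
      (dfn_CofN _ _)) (Dfn.imp (dfn_Stat _ _) (dfn_MeasH _ _)))) hCη (ExtData.dB D) hHη hAη).1 h0
  have hc := supIm_club D hl hδl.le hlη hCl hC
  obtain ⟨h3, h4⟩ := supIm_cof D hl hlη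
  obtain ⟨hs1, hs2⟩ := supIm_spec D hl hlη
  have h5 := h1 _ hc ⟨l.toZFSet, by rw [D.jd, tzm]; exact hlη.trans D.ητ, _, h3, h4⟩ (by
    intro C' hC1 hC2
    obtain ⟨x, hx, hxA, h6⟩ := D.stat_up hδ.lim hl hlη hm0 hs1 hs2 hA.2.1 hA.2.2.1 hc0 hC2
    exact ⟨_, (D.E.mem_iff (ExtData.ordB (hx.trans hlη)) hAη).1 hxA, h6⟩)
  rw [HX_image D hlη'] at h5
  have hsub : (SupIm j l).toZFSet ⊆ j l.toZFSet := by
    have := supIm_mem D hl hδl.le hlη
    rw [D.jJ hlη] at this ⊢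
    exact (isOrdinal_toZFSet _).subset_of_mem this
  refine (measIn_congr (isOrdinal_toZFSet _) fun x hx => ?_).1 h5
  rw [mem_HX]
  exact ⟨fun h => h.2, fun h => ⟨XX_mono hsub hx, h⟩⟩

/-! ### Elements of HOD as computed in `V_ζ` -/

theorem hodin_of_sub {ζ : Ordinal.{u}} (hζ : V_ ζ ∈ Lvl.{u}) {y : ZFSet.{u}} (hy : y ∈ V_ ζ)
    (h : ∃ β < ζ, ODat (V_ β) y) (hs : ∀ z ∈ y, HODin (V_ ζ) z) : HODin (V_ ζ) y := by
  classical
  obtain ⟨β, hβ, h⟩ := h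
  have hyr : V_ (rank y) ∈ V_ ζ := vonNeumann_mem_vonNeumann_iff.2 (mem_vonNeumann.1 hy)
  refine ⟨insert y (ZFSet.sep (HODin (V_ ζ)) (V_ (rank y))), ?_, ?_, mem_insert _ _, ?_⟩
  · have h1 : insert y (ZFSet.sep (HODin (V_ ζ)) (V_ (rank y))) ⊆
        powerset (powerset (V_ (rank y))) ∪ powerset (powerset (V_ (rank y))) := by
      intro z hz
      rw [mem_insert_iff] at hz
      rw [mem_union]
      left
      rw [mem_powerset]
      intro w hw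
      rw [mem_powerset]
      have hwV : ∀ z, z ∈ y ∨ z ∈ V_ (rank y) → z ⊆ V_ (rank y) := by
        intro z hz w hw
        rcases hz with h2 | h2
        · exact mem_vonNeumann.2 ((rank_lt_of_mem hw).trans (rank_lt_of_mem h2))
        · exact (isTransitive_vonNeumann _).mem_trans hw h2
      rcases hz with rfl | hz
      · exact hwV w (Or.inl hw)
      · exact hwV w (Or.inr ((isTransitive_vonNeumann _).mem_trans hw (mem_sep.1 hz).1))
    exact Lvl_sub hζ (Lvl_union hζ (Lvl_powerset hζ (Lvl_powerset hζ hyr))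
      (Lvl_powerset hζ (Lvl_powerset hζ hyr))) h1
  · rw [isTransitive_iff_mem_trans]
    intro a b hab hb
    rw [mem_insert_iff] at hb ⊢
    right
    rw [mem_sep]
    rcases hb with rfl | hb
    · exact ⟨mem_vonNeumann.2 (rank_lt_of_mem hab), hs a hab⟩
    · rw [mem_sep] at hb
      obtain ⟨h3, t, h4, h5, h6, h7⟩ := hb
      exact ⟨(isTransitive_vonNeumann _).mem_trans hab h3, t, h4, h5, h5.mem_trans hab h6, h7⟩
  · intro z hz
    rw [mem_insert_iff] at hz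
    rcases hz with rfl | hz
    · exact ⟨V_ β, vonNeumann_mem_vonNeumann_iff.2 hβ, ⟨β, rfl⟩, h⟩
    · obtain ⟨_, t, h4, h5, h6, h7⟩ := mem_sep.1 hz
      exact h7 z h6

theorem hodin_ord {ζ : Ordinal.{u}} (hζ : V_ ζ ∈ Lvl.{u}) {α : Ordinal.{u}} (hα : α < ζ) :
    HODin (V_ ζ) α.toZFSet := by
  have hlim : ∀ a < ζ, Order.succ a < ζ := by
    obtain ⟨ζ', h1, h2, h3⟩ := hζ
    have h4 : ζ = ζ' := by
      rw [← rank_vonNeumann ζ, ← rank_vonNeumann ζ', h3]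
    rw [h4]
    exact fun a ha => h1.succ_lt ha
  induction α using WellFoundedLT.induction with
  | ind α ih =>
    refine hodin_of_sub hζ (ExtData.ordB hα) ⟨Order.succ α, hlim α hα, .eq 0 1, fun _ => α.toZFSet,
      fun i => ⟨ExtData.ordB (Order.lt_succ α), isOrdinal_toZFSet _⟩,
      ExtData.ordB (Order.lt_succ α), fun y _ => Iff.rfl⟩ fun z hz => ?_
    obtain ⟨β, hβ, rfl⟩ := Ordinal.mem_toZFSet_iff.1 hz
    exact ih β hβ (hβ.trans hα)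

theorem hodin_upair {ζ : Ordinal.{u}} (hζ : V_ ζ ∈ Lvl.{u}) (hll : LimLim ζ) {a b : ZFSet.{u}}
    (ha : HODin (V_ ζ) a) (hb : HODin (V_ ζ) b) : HODin (V_ ζ) {a, b} := by
  have hV : ∀ {x : ZFSet.{u}}, HODin (V_ ζ) x → x ∈ V_ ζ ∧ ∃ β < ζ, ODat (V_ β) x := by
    rintro x ⟨t, ht, _, hx, h1⟩
    obtain ⟨U, hU, ⟨β, rfl⟩, h2⟩ := h1 x hx
    exact ⟨(isTransitive_vonNeumann _).mem_trans hx ht, β, vonNeumann_mem_vonNeumann_iff.1 hU, h2⟩
  have hab : ({a, b} : ZFSet.{u}) ∈ V_ ζ := by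
    have h1 := Lvl_pair hζ (hV ha).1 (hV hb).1
    exact (Lvl_sub_Trs hζ).mem_trans (by simp [pair]) h1
  refine hodin_of_sub hζ hab ?_ fun z hz => ?_
  · have h0 : (0 : Ordinal.{u}) < ζ := by
      obtain ⟨_, h1⟩ := (hV ha).2
      exact lt_of_le_of_lt bot_le h1.1
    refine OD_of' (R := fun y x => x 0 ∈ y ∧ x 1 ∈ y ∧ ∀ z ∈ y, z = x 0 ∨ z = x 1)
      (x := asg a b ∅ ∅ ∅ ∅) ?_ hll (hV ha).2 (hV hb).2
      (asg_ord empty_ord empty_ord empty_ord empty_ord) h0 (fun i => ?_) (mem_vonNeumann.1 hab)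
      (fun y => ?_)
    · refine (Dfn.mem _ _).and ((Dfn.mem _ _).and ?_)
      exact Dfn.ball Lvl_sub_Trs _ ((Dfn.eq _ _).or (Dfn.eq _ _))
    · rcases i with _ | _ | _ | i <;> exact (rank_empty).le
    · show a ∈ y ∧ b ∈ y ∧ (∀ z ∈ y, z = a ∨ z = b) ↔ _
      constructor
      · rintro ⟨h1, h2, h3⟩
        ext z
        rw [mem_pair]
        constructor
        · exact h3 z
        · rintro (rfl | rfl)
          · exact h1
          · exact h2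
      · rintro rfl
        simp
  · rw [mem_pair] at hz
    rcases hz with rfl | rfl
    · exact ha
    · exact hb

theorem hodin_pair {ζ : Ordinal.{u}} (hζ : V_ ζ ∈ Lvl.{u}) (hll : LimLim ζ) {a b : ZFSet.{u}}
    (ha : HODin (V_ ζ) a) (hb : HODin (V_ ζ) b) : HODin (V_ ζ) (pair a b) := by
  have h1 : HODin (V_ ζ) ({a} : ZFSet.{u}) := by
    have := hodin_upair hζ hll ha ha
    rwa [show ({a, a} : ZFSet.{u}) = {a} by ext z; simp] at this
  exact hodin_upair hζ hll h1 (hodin_upair hζ hll ha hb)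

/-- The restriction of the embedding is in HOD as computed in `V_θ`. -/
theorem Setup.hodin {ζ ζ' α : Ordinal.{u}} (S : Setup δ ζ ζ' η θ τ j α) :
    HODin (V_ θ) (gr α.toZFSet (fun x => j x)) := by
  have D := S.D
  have hζη := S.hζη
  have hαη : α < η := S.hαζ.trans hζη
  have hWη : V_ ζ ∈ V_ η := vonNeumann_mem_vonNeumann_iff.2 hζη
  have hζθ : V_ ζ' ⊆ V_ θ := by
    have h1 : V_ ζ' ∈ V_ θ := by
      rw [← S.jW]
      exact D.E.el.1 _ hWη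
    exact fun x hx => (isTransitive_vonNeumann θ).mem_trans hx h1
  refine HODin.mono hζθ ?_
  have hmemJ : ∀ {x : ZFSet.{u}}, x ∈ V_ ζ → j x ∈ V_ ζ' := by
    intro x hx
    rw [← S.jW]
    exact (D.E.mem_iff (D.E.bt.mem_trans hx hWη) hWη).1 hx
  have hjα : rank (j α.toZFSet) < ζ' := mem_vonNeumann.1 (hmemJ (ExtData.ordB S.hαζ))
  have hαζ' : α < ζ' := (D.le_J hαη).trans_lt hjα
  have hgf : IsFunc α.toZFSet (rank (j α.toZFSet)).toZFSet (gr α.toZFSet (fun x => j x)) := by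
    rw [← D.jJ hαη]
    exact isFunc_gr fun x hx => (D.E.mem_iff (D.E.bt.mem_trans hx (ExtData.ordB hαη))
      (ExtData.ordB hαη)).1 hx
  refine hodin_of_sub S.lv' (Lvl_func S.lv' (ExtData.ordB hαζ') (ExtData.ordB hjα) hgf) S.g
    fun z hz => ?_
  obtain ⟨a, ha, b, hb, rfl⟩ := mem_prod.1 (hgf.1 hz)
  obtain ⟨a, ha', rfl⟩ := Ordinal.mem_toZFSet_iff.1 ha
  obtain ⟨b, hb', rfl⟩ := Ordinal.mem_toZFSet_iff.1 hb
  exact hodin_pair S.lv' S.ll' (hodin_ord S.lv' (ha'.trans hαζ'))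
    (hodin_ord S.lv' (hb'.trans hjα))

end Pool.Agent.H639
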