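import Pool.Agent.H639.One3
import Pool.Graph.R_pool_sql_team_seeded_2aa45f1a.H310.HD.Gsplit

/-!
One embedding: conclusions.
-/

set_option autoImplicit false
set_option linter.unusedVariables false

namespace Pool.Agent.H639

open Pool.Agent.H310.HD Gss969 ZFSet Pool.Agent.Results.MP_e37c09_lc.AlternativeA

universe u

variable {δ η θ τ l : Ordinal.{u}} {j : ZFSet.{u} → ZFSet.{u}}

theorem not_sing_and_meas (hδ : Extendible δ) (hl : RegUnc l.toZFSet) (hδl : δ < l) :
    ∃ ρ : Ordinal.{u}, ∀ η > ρ, ∀ (θ τ : Ordinal.{u}) (j : ZFSet.{u} → ZFSet.{u}),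
      ExtData δ η θ τ j → CofinalP (HODin (V_ θ)) (SupIm j l).toZFSet →
        ¬ MeasIn (HODin (V_ θ)) (SupIm j l).toZFSet := by
  obtain ⟨β, hβ⟩ := stab (XX l.toZFSet)
  refine ⟨max β l, fun η hη θ τ j D hs hm => ?_⟩
  have hlη : l < η := (le_max_right _ _).trans_lt hη
  have hlη' := ExtData.ordB hlη
  have hHη : HX η l.toZFSet ∈ V_ η := Lvl_sub D.E.lvl (XX_mem D.E.lvl hlη') sep_subset
  have h0 : ∀ α ∈ l.toZFSet, CofinalP (fun x => x ∈ HX η l.toZFSet) α →
      ¬ MeasIn (fun x => x ∈ HX η l.toZFSet) α := by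
    intro α hα h1 h2
    obtain ⟨α, hαl, rfl⟩ := Ordinal.mem_toZFSet_iff.1 hα
    have h3 : MeasIn HOD α.toZFSet := by
      refine (measIn_congr (isOrdinal_toZFSet _) fun x hx => ?_).2 h2
      have h2 := XX_mono ((isOrdinal_toZFSet l).subset_of_mem (tzm.2 hαl)) hx
      rw [mem_HX]
      exact ⟨fun h3 => ⟨h2, hβ η ((le_max_left _ _).trans hη.le) x h2 h3⟩, fun h3 => h3.2.hod⟩
    exact (MeasIn.reg h3).2.2 (h1.mono fun x hx => (mem_HX.1 hx).2.hod)
  have h1 := (D.E.el.t2 D.E.lvl D.nl (A := fun l H => ∀ α ∈ l, CofinalP (fun x => x ∈ H) α →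
    ¬ MeasIn (fun x => x ∈ H) α) (Dfn.ball Lvl_sub_Trs _ (Dfn.imp (dfn_CofinalH _ _)
      (dfn_MeasH _ _).not)) hlη' hHη).1 h0
  have hmem := supIm_mem D hl hδl.le hlη
  have hsub : (SupIm j l).toZFSet ⊆ j l.toZFSet := by
    have := hmem
    rw [D.jJ hlη] at this ⊢
    exact (isOrdinal_toZFSet _).subset_of_mem this
  rw [HX_image D hlη'] at h1
  refine h1 _ hmem ?_ ?_
  · refine (cofinalP_congr (l := j l.toZFSet) (fun x hx => ?_) hsub (isOrdinal_toZFSet _)).1 hs
    rw [mem_HX]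
    exact ⟨fun h => ⟨hx, h⟩, fun h => h.2⟩
  · refine (measIn_congr (isOrdinal_toZFSet _) fun x hx => ?_).1 hm
    rw [mem_HX]
    exact ⟨fun h => ⟨XX_mono hsub hx, h⟩, fun h => h.2⟩

/-- If the restriction of `j` to `l` is in HOD as computed in `V_θ`, then the supremum of the image
of `l` is singular there. -/
theorem sing_of_restr (D : ExtData δ η θ τ j) (hl : RegUnc l.toZFSet) (hδl : δ < l) (hlη : l < η)
    (h : HODin (V_ θ) (gr l.toZFSet j)) : CofinalP (HODin (V_ θ)) (SupIm j l).toZFSet := by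
  obtain ⟨h3, h4⟩ := supIm_cof D hl hlη
  refine ⟨l.toZFSet, ?_, _, h, h3, h4⟩
  rw [tzm]
  have h5 := (supIm_spec D hl hlη).1 δ hδl
  rw [D.jd, Ordinal.rank_toZFSet] at h5
  exact (hlη.trans D.ητ).trans h5

/-- One singular supremum refutes boundedness. -/
theorem not_bdd_of_sing (D : ExtData δ η θ τ j) (hl : RegUnc l.toZFSet) (hδl : δ < l)
    (hlη : l < η) (h : CofinalP (HODin (V_ θ)) (SupIm j l).toZFSet) : ¬ Bdd δ := by
  intro hB
  obtain ⟨m, hm, h1⟩ := StatL.union hl (statL_of_sing D hl hδl hlη h) hδl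
    (P := fun m α => m < δ ∧ CofN m.toZFSet α.toZFSet) (by
      rintro α ⟨⟨m, hm, h⟩, _⟩ _
      exact ⟨m, hm, hm, h⟩)
  obtain ⟨s, hs, hno⟩ := hB m hm
  have h2 : StatL {α | CofN m.toZFSet α.toZFSet ∧ CofinalP HOD α.toZFSet} l :=
    h1.mono fun α _ h => ⟨h.2.2, h.1.2⟩
  obtain ⟨S, hS, hF⟩ := fam_of_sing hl h2 (k := max s 1) (lt_of_lt_of_le (by
    exact_mod_cast zero_lt_one) (le_max_right _ _)) (max_le (hs.trans hδl).le (by
    have := lt_trans (by exact_mod_cast Ordinal.natCast_lt_omega0 1) hl.om_lt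
    exact_mod_cast this.le))
  rcases le_total 1 s with h3 | h3
  · rw [max_eq_left h3] at hF
    exact hno l hl S hS hF
  · -- `s = 0` or `s = 1`: the empty family or the given one
    rcases h3.lt_or_eq with h4 | h4
    · have h5 : s = 0 := by
        have := Order.lt_one_iff.1 h4
        exact this
      subst h5
      refine hno l hl ∅ HOD_empty ⟨⟨fun z hz => absurd hz (notMem_empty _), fun z hz => ?_⟩,
        fun i hi => ?_, fun i hi => ?_⟩
      · rw [Ordinal.toZFSet_zero] at hz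
        exact absurd hz (notMem_empty _)
      · rw [Ordinal.toZFSet_zero] at hi
        exact absurd hi (notMem_empty _)
      · rw [Ordinal.toZFSet_zero] at hi
        exact absurd hi (notMem_empty _)
    · rw [max_eq_right h3, ← h4] at hF
      exact hno l hl S hS hF

end Pool.Agent.H639
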