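import Pool.Agent.H639.Wo3
import Pool.Graph.R_pool_sql_team_seeded_2aa45f1a.H310.HD.Ket2

/-!
Closure of HOD under definitions with several parameters, and recursion in HOD.
-/

set_option autoImplicit false
set_option linter.unusedVariables false

namespace Pool.Agent.H639

open ZFSet Gss969 Pool.Agent.H310.HD

universe u

/-- The assignment listing ten given sets. -/
def as (a0 a1 a2 a3 a4 a5 a6 a7 a8 a9 : ZFSet.{u}) : ℕ → ZFSet.{u}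
  | 0 => a0
  | 1 => a1
  | 2 => a2
  | 3 => a3
  | 4 => a4
  | 5 => a5
  | 6 => a6
  | 7 => a7
  | 8 => a8
  | _ => a9

def ai (a0 a1 a2 a3 a4 a5 a6 a7 a8 a9 : ℕ) : ℕ → ℕ
  | 0 => a0
  | 1 => a1
  | 2 => a2
  | 3 => a3
  | 4 => a4
  | 5 => a5
  | 6 => a6
  | 7 => a7
  | 8 => a8
  | _ => a9

theorem dfn_as {A : (ℕ → ZFSet.{u}) → Prop} (h : Dfn Lvl.{u} A)
    (a0 a1 a2 a3 a4 a5 a6 a7 a8 a9 : ℕ) :
    Dfn Lvl.{u} (fun v => A (as (v a0) (v a1) (v a2) (v a3) (v a4) (v a5) (v a6) (v a7) (v a8)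
      (v a9))) := by
  refine (Dfn_reindex h (ai a0 a1 a2 a3 a4 a5 a6 a7 a8 a9)).congr fun v => ?_
  have : (fun n => v (ai a0 a1 a2 a3 a4 a5 a6 a7 a8 a9 n)) =
      as (v a0) (v a1) (v a2) (v a3) (v a4) (v a5) (v a6) (v a7) (v a8) (v a9) := by
    funext n
    rcases n with _ | _ | _ | _ | _ | _ | _ | _ | _ | n <;> rfl
  rw [this]

/-- Insert four sets into an assignment. -/
def ins4 (a b c d : ZFSet.{u}) (x : ℕ → ZFSet.{u}) : ℕ → ZFSet.{u}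
  | 0 => a
  | 1 => b
  | 2 => c
  | 3 => d
  | (n + 4) => x (n + 2)

def gi4 : ℕ → ℕ
  | 0 => 4
  | 1 => 3
  | 2 => 2
  | 3 => 1
  | 4 => 0
  | (n + 5) => n + 7

/-- Closure of `HOD` under definitions with four parameters and ordinals. -/
theorem HOD_of4 {R : ZFSet.{u} → (ℕ → ZFSet.{u}) → Prop}
    (hR : Dfn Lvl.{u} (fun v => R (v 0) (fun n => v (n + 1)))) {x : ℕ → ZFSet.{u}}
    (h0 : HOD (x 0)) (h1 : HOD (x 1)) (h2 : HOD (x 2)) (h3 : HOD (x 3))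
    (hx : ∀ i, (x (i + 4)).IsOrdinal) {y : ZFSet.{u}}
    (hy : ∀ y', R y' x ↔ y' = y) (hs : ∀ z ∈ y, HOD z) : HOD y := by
  refine HOD_of (R := fun y x => ∃ a, ∃ b, ∃ c, ∃ d, (x 0 = pair a b ∧ x 1 = pair c d) ∧
      R y (ins4 a b c d x))
    (x := fun n => Nat.casesOn n (pair (x 0) (x 1)) fun n => Nat.casesOn n (pair (x 2) (x 3))
      fun n => x (n + 4)) ?_ (HOD_pair h0 h1).od (HOD_pair h2 h3).od hx (fun w => ?_) hs
  · have key : Dfn Lvl.{u} (fun v => (v 5 = pair (v 3) (v 2) ∧ v 6 = pair (v 1) (v 0)) ∧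
        R (v 4) (ins4 (v 3) (v 2) (v 1) (v 0) (fun n => v (n + 5)))) := by
      refine ((dfn_pair Lvl_sub_Trs _ _ _).and (dfn_pair Lvl_sub_Trs _ _ _)).and ?_
      refine (Dfn_reindex hR (fun n => match n with
        | 0 => 4 | 1 => 3 | 2 => 2 | 3 => 1 | 4 => 0 | (n + 5) => n + 7)).congr fun v => ?_
      have : (fun n => v ((fun n => match n with
        | 0 => 4 | 1 => 3 | 2 => 2 | 3 => 1 | 4 => 0 | (n + 5) => n + 7 : ℕ → ℕ) (n + 1))) =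
          ins4 (v 3) (v 2) (v 1) (v 0) (fun n => v (n + 5)) := by
        funext n
        rcases n with _ | _ | _ | _ | n <;> rfl
      rw [this]
    have tm : ∀ {U : ZFSet.{u}}, U ∈ Lvl.{u} → ∀ {a b : ZFSet.{u}}, pair a b ∈ U → a ∈ U ∧ b ∈ U := by
      intro U hU a b h
      have ht := Lvl_sub_Trs hU
      have h1 : ({a, b} : ZFSet.{u}) ∈ U := ht.mem_trans (by simp [pair]) h
      exact ⟨ht.mem_trans (by simp) h1, ht.mem_trans (by simp) h1⟩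
    refine Dfn.ex (A := fun a v => ∃ b, ∃ c, ∃ d, (v 1 = pair a b ∧ v 2 = pair c d) ∧
      R (v 0) (ins4 a b c d (fun n => v (n + 1)))) ?_ ?_
    refine Dfn.ex (A := fun b v => ∃ c, ∃ d, (v 2 = pair (v 0) b ∧ v 3 = pair c d) ∧
      R (v 1) (ins4 (v 0) b c d (fun n => v (n + 2)))) ?_ ?_
    refine Dfn.ex (A := fun c v => ∃ d, (v 3 = pair (v 1) (v 0) ∧ v 4 = pair c d) ∧
      R (v 2) (ins4 (v 1) (v 0) c d (fun n => v (n + 3)))) ?_ ?_
    refine Dfn.ex (A := fun d v => (v 4 = pair (v 2) (v 1) ∧ v 5 = pair (v 0) d) ∧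
      R (v 3) (ins4 (v 2) (v 1) (v 0) d (fun n => v (n + 4)))) ?_ ?_
    · exact key
    · rintro U hU v hv ⟨d, ⟨e1, e2⟩, h⟩
      exact ⟨d, (tm hU (e2 ▸ hv 5)).2, ⟨e1, e2⟩, h⟩
    · rintro U hU v hv ⟨c, d, ⟨e1, e2⟩, h⟩
      exact ⟨c, (tm hU (e2 ▸ hv 4)).1, d, ⟨e1, e2⟩, h⟩
    · rintro U hU v hv ⟨b, c, d, ⟨e1, e2⟩, h⟩
      exact ⟨b, (tm hU (e1 ▸ hv 2)).2, c, d, ⟨e1, e2⟩, h⟩
    · rintro U hU v hv ⟨a, b, c, d, ⟨e1, e2⟩, h⟩
      exact ⟨a, (tm hU (e1 ▸ hv 1)).1, b, c, d, ⟨e1, e2⟩, h⟩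
  · rw [← hy w]
    show (∃ a b c d, (pair (x 0) (x 1) = pair a b ∧ pair (x 2) (x 3) = pair c d) ∧
      R w (ins4 a b c d _)) ↔ _
    have e : ins4 (x 0) (x 1) (x 2) (x 3) (fun n => Nat.casesOn n (pair (x 0) (x 1)) fun n =>
        Nat.casesOn n (pair (x 2) (x 3)) fun n => x (n + 4)) = x := by
      funext n
      rcases n with _ | _ | _ | _ | n <;> rfl
    constructor
    · rintro ⟨a, b, c, d, ⟨e1, e2⟩, h⟩
      rw [pair_inj] at e1 e2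
      obtain ⟨rfl, rfl⟩ := e1
      obtain ⟨rfl, rfl⟩ := e2
      rwa [e] at h
    · intro h
      exact ⟨_, _, _, _, ⟨rfl, rfl⟩, by rwa [e]⟩

/-- The elements of `X` which are in HOD form a set in HOD, if `X` is ordinal definable. -/
theorem HOD_sepHOD {X : ZFSet.{u}} (hX : OD X) : HOD (ZFSet.sep HOD X) := by
  obtain ⟨β, hβ⟩ := stab X
  refine HOD_of (R := fun y x => ∃ U, (LevOf U (x 2) ∧ (x 2).IsOrdinal) ∧
      ((∀ z ∈ y, z ∈ x 0 ∧ HODin U z) ∧ ∀ z ∈ x 0, HODin U z → z ∈ y))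
    (x := asg X X β.toZFSet ∅ ∅ ∅) ?_ hX hX
    (asg_ord (isOrdinal_toZFSet _) empty_ord empty_ord empty_ord) (fun w => ?_) fun z hz => ?_
  · refine Dfn.ex (A := fun U v => (LevOf U (v 3) ∧ (v 3).IsOrdinal) ∧
      ((∀ z ∈ v 0, z ∈ v 1 ∧ HODin U z) ∧ ∀ z ∈ v 1, HODin U z → z ∈ v 0)) ?_ ?_
    · refine ((dfn_LevOf 0 4).and (dfn_ord Lvl_sub_Trs 4)).and (Dfn.and ?_ ?_)
      · exact Dfn.ball Lvl_sub_Trs 1 ((Dfn.mem 0 3).and (dfn_HODin 1 0))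
      · exact Dfn.ball Lvl_sub_Trs 2 ((dfn_HODin 1 0).imp (Dfn.mem 0 2))
    · rintro U hU v hv ⟨U', ⟨h1, h2⟩, h3⟩
      refine ⟨U', ?_, ⟨h1, h2⟩, h3⟩
      obtain ⟨γ, hγ, _, rfl⟩ := hU
      rw [← h2.toZFSet_rank_eq, levOf_iff] at h1
      rw [h1, vonNeumann_mem_vonNeumann_iff]
      exact mem_vonNeumann.1 (hv _)
  · show (∃ U, (LevOf U β.toZFSet ∧ β.toZFSet.IsOrdinal) ∧
      ((∀ z ∈ w, z ∈ X ∧ HODin U z) ∧ ∀ z ∈ X, HODin U z → z ∈ w)) ↔ _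
    constructor
    · rintro ⟨U, ⟨h1, _⟩, h2, h3⟩
      rw [levOf_iff] at h1
      subst h1
      ext z
      rw [mem_sep]
      constructor
      · intro hz
        exact ⟨(h2 z hz).1, (h2 z hz).2.hod⟩
      · rintro ⟨hz, h⟩
        exact h3 z hz (hβ β le_rfl z hz h)
    · rintro rfl
      refine ⟨V_ β, ⟨levOf_iff.2 rfl, isOrdinal_toZFSet _⟩, fun z hz => ?_, fun z hz h => ?_⟩
      · rw [mem_sep] at hz
        exact ⟨hz.1, hβ β le_rfl z hz.1 hz.2⟩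
      · rw [mem_sep]
        exact ⟨hz, h.hod⟩
  · exact (mem_sep.1 hz).2

/-! ### Recursion in HOD -/

variable {Φ : (ℕ → ZFSet.{u}) → Prop}

/-- `X` is the `W`-least element of `Q` with `A X`, or there is none and `X` is empty. -/
def Lst (A : ZFSet.{u} → Prop) (Q W X : ZFSet.{u}) : Prop :=
  (X ∈ Q ∧ (A X ∧ ∀ X' ∈ Q, A X' → ¬ X' = X → ¬ pair X' X ∈ W)) ∨
    ((¬ ∃ X' ∈ Q, A X') ∧ ∀ z ∈ X, ¬ z = z)

theorem exists_lst (A : ZFSet.{u} → Prop) {Q W : ZFSet.{u}} (hW : IsWO W Q) :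
    ∃! X, Lst A Q W X := by
  by_cases h : ∃ X' ∈ Q, A X'
  · obtain ⟨Y, hY, h1⟩ := hW (ZFSet.sep A Q) sep_subset (by
      obtain ⟨X', h2, h3⟩ := h
      exact ⟨X', mem_sep.2 ⟨h2, h3⟩⟩)
    rw [mem_sep] at hY
    refine ⟨Y, Or.inl ⟨hY.1, hY.2, fun X' h2 h3 h4 => (h1 X' (mem_sep.2 ⟨h2, h3⟩) h4).2⟩, ?_⟩
    rintro X (⟨h2, h3, h4⟩ | ⟨h2, _⟩)
    · by_contra hne
      exact h4 Y hY.1 hY.2 (fun e => hne e.symm) (h1 X (mem_sep.2 ⟨h2, h3⟩) hne).1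
    · exact absurd h h2
  · refine ⟨∅, Or.inr ⟨h, fun z hz => absurd hz (notMem_empty z)⟩, ?_⟩
    rintro X (⟨h2, h3, _⟩ | ⟨_, h2⟩)
    · exact absurd ⟨X, h2, h3⟩ h
    · ext z
      exact ⟨fun hz => absurd rfl (h2 z hz), fun hz => absurd hz (notMem_empty z)⟩

noncomputable def lst (A : ZFSet.{u} → Prop) (Q W : ZFSet.{u}) : ZFSet.{u} := by
  classical exact if h : ∃ X, Lst A Q W X then h.choose else ∅

theorem lst_spec (A : ZFSet.{u} → Prop) {Q W : ZFSet.{u}} (hW : IsWO W Q) :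
    Lst A Q W (lst A Q W) := by
  unfold lst
  rw [dif_pos (exists_lst A hW).exists]
  exact (exists_lst A hW).exists.choose_spec

theorem lst_iff {A : ZFSet.{u} → Prop} {Q W X : ZFSet.{u}} (hW : IsWO W Q) :
    Lst A Q W X ↔ X = lst A Q W :=
  ⟨fun h => (exists_lst A hW).unique h (lst_spec A hW), fun h => h ▸ lst_spec A hW⟩

/-- The graph of the restriction to `i` of a function on ordinals. -/
noncomputable def gz (i : Ordinal.{u}) (F : Ordinal.{u} → ZFSet.{u}) : ZFSet.{u} :=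
  gr i.toZFSet fun z => F (rank z)

theorem pair_gz {i k : Ordinal.{u}} {F : Ordinal.{u} → ZFSet.{u}} {y : ZFSet.{u}} :
    pair k.toZFSet y ∈ gz i F ↔ k < i ∧ F k = y := by
  unfold gz
  rw [pair_mem_gr, tzm, Ordinal.rank_toZFSet]

theorem gz_congr {i : Ordinal.{u}} {F G : Ordinal.{u} → ZFSet.{u}} (h : ∀ k < i, F k = G k) :
    gz i F = gz i G := by
  ext p
  unfold gz
  rw [mem_gr, mem_gr]
  refine exists_congr fun x => and_congr_right fun hx => ?_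
  rw [h (rank x) (by
    obtain ⟨b, hb, rfl⟩ := Ordinal.mem_toZFSet_iff.1 hx
    rwa [Ordinal.rank_toZFSet])]

theorem isFunc_gz {i : Ordinal.{u}} {F : Ordinal.{u} → ZFSet.{u}} {Q : ZFSet.{u}}
    (h : ∀ k < i, F k ∈ Q) : IsFunc i.toZFSet Q (gz i F) := by
  refine isFunc_gr fun x hx => ?_
  obtain ⟨b, hb, rfl⟩ := Ordinal.mem_toZFSet_iff.1 hx
  rw [Ordinal.rank_toZFSet]
  exact h b hb

/-- The function defined by recursion. -/
noncomputable def rc (Φ : ZFSet.{u} → ZFSet.{u} → ZFSet.{u} → Prop) (Q W : ZFSet.{u}) :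
    Ordinal.{u} → ZFSet.{u} :=
  WellFounded.fix (wellFounded_lt (α := Ordinal.{u})) fun i ih => by
    classical exact lst (fun X => Φ X (gz i fun k => if h : k < i then ih k h else ∅) i.toZFSet) Q W

theorem rc_eq (Φ : ZFSet.{u} → ZFSet.{u} → ZFSet.{u} → Prop) (Q W : ZFSet.{u})
    (i : Ordinal.{u}) : rc Φ Q W i = lst (fun X => Φ X (gz i (rc Φ Q W)) i.toZFSet) Q W := by
  classical
  unfold rc
  rw [WellFounded.fix_eq]
  have : (gz i fun k => if h : k < i then WellFounded.fix (wellFounded_lt (α := Ordinal.{u}))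
      (fun i ih => lst (fun X => Φ X (gz i fun k => if h : k < i then ih k h else ∅) i.toZFSet) Q W)
      k else ∅) = gz i (WellFounded.fix (wellFounded_lt (α := Ordinal.{u}))
      (fun i ih => lst (fun X => Φ X (gz i fun k => if h : k < i then ih k h else ∅) i.toZFSet)
        Q W)) := by
    refine gz_congr fun k hk => ?_
    rw [dif_pos hk]
  rw [← this]

/-- `f` is an initial segment of the function defined by recursion. -/
def Seq (Φ : ZFSet.{u} → ZFSet.{u} → ZFSet.{u} → Prop) (Q W f i : ZFSet.{u}) : Prop :=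
  IsFunc i Q f ∧ ∀ j ∈ i, ∃ g, IsFunc j Q g ∧ (g ⊆ f ∧ ∃ X ∈ Q, pair j X ∈ f ∧
    Lst (fun X => Φ X g j) Q W X)

theorem rc_mem (Φ : ZFSet.{u} → ZFSet.{u} → ZFSet.{u} → Prop) {Q W : ZFSet.{u}}
    (hW : IsWO W Q) (hQ0 : ∅ ∈ Q) (i : Ordinal.{u}) : rc Φ Q W i ∈ Q := by
  rw [rc_eq]
  rcases lst_spec (fun X => Φ X (gz i (rc Φ Q W)) i.toZFSet) hW with ⟨h, _⟩ | ⟨_, h⟩
  · exact h
  · have : lst (fun X => Φ X (gz i (rc Φ Q W)) i.toZFSet) Q W = ∅ := by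
      ext z
      exact ⟨fun hz => absurd rfl (h z hz), fun hz => absurd hz (notMem_empty z)⟩
    rw [this]; exact hQ0

theorem seq_iff (Φ : ZFSet.{u} → ZFSet.{u} → ZFSet.{u} → Prop) {Q W : ZFSet.{u}}
    (hW : IsWO W Q) (hQ0 : ∅ ∈ Q) {i : Ordinal.{u}} {f : ZFSet.{u}} :
    Seq Φ Q W f i.toZFSet ↔ f = gz i (rc Φ Q W) := by
  constructor
  · rintro ⟨h1, h2⟩
    have key : ∀ k < i, app f k.toZFSet = rc Φ Q W k := by
      intro k
      induction k using WellFoundedLT.induction with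
      | _ k ih =>
        intro hk
        obtain ⟨g, h3, h4, X, hX, h5, h6⟩ := h2 _ (tzm.2 hk)
        have e : g = gz k (rc Φ Q W) := by
          refine func_ext h3 (isFunc_gz fun j hj => rc_mem Φ hW hQ0 j) fun x hx => ?_
          obtain ⟨b, hb, rfl⟩ := Ordinal.mem_toZFSet_iff.1 hx
          have e1 : app (gz k (rc Φ Q W)) b.toZFSet = rc Φ Q W b := by
            unfold gz
            rw [app_gr (tzm.2 hb), Ordinal.rank_toZFSet]
          rw [e1, ← ih b hb (hb.trans hk)]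
          exact ((app_iff h1 (tzm.2 (hb.trans hk))).1 (h4 (app_spec h3 (tzm.2 hb)))).symm
        rw [(app_iff h1 (tzm.2 hk)).1 h5, rc_eq, ← e]
        exact (lst_iff hW).1 h6
    refine func_ext h1 (isFunc_gz fun j hj => rc_mem Φ hW hQ0 j) fun x hx => ?_
    obtain ⟨b, hb, rfl⟩ := Ordinal.mem_toZFSet_iff.1 hx
    rw [key b hb]
    unfold gz
    rw [app_gr (tzm.2 hb), Ordinal.rank_toZFSet]
  · rintro rfl
    refine ⟨isFunc_gz fun j hj => rc_mem Φ hW hQ0 j, fun j hj => ?_⟩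
    obtain ⟨k, hk, rfl⟩ := Ordinal.mem_toZFSet_iff.1 hj
    refine ⟨gz k (rc Φ Q W), isFunc_gz fun j hj => rc_mem Φ hW hQ0 j, ?_, rc Φ Q W k,
      rc_mem Φ hW hQ0 k, pair_gz.2 ⟨hk, rfl⟩, ?_⟩
    · intro p hp
      unfold gz at hp ⊢
      rw [mem_gr] at hp ⊢
      obtain ⟨x, hx, e⟩ := hp
      obtain ⟨b, hb, rfl⟩ := Ordinal.mem_toZFSet_iff.1 hx
      exact ⟨_, tzm.2 (hb.trans hk), e⟩
    · rw [rc_eq]
      exact lst_spec _ hW

/-- **Recursion in HOD.** -/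
theorem HOD_rc (hΦ : Dfn Lvl.{u} Φ) {Q W p q : ZFSet.{u}} (hQ : HOD Q) (hW : HOD W)
    (hWO : IsWO W Q) (hQ0 : ∅ ∈ Q) (hp : HOD p) (hq : HOD q) (a b c d i : Ordinal.{u}) :
    HOD (gz i (rc (fun X f i => Φ (as X f i Q p q a.toZFSet b.toZFSet c.toZFSet d.toZFSet)) Q W)) :=
      by
  refine HOD_of4 (R := fun y x => Seq (fun X f i => Φ (as X f i (x 0) (x 2) (x 3) (x 5) (x 6) (x 7)
    (x 8))) (x 0) (x 1) y (x 4))
    (x := as Q W p q i.toZFSet a.toZFSet b.toZFSet c.toZFSet d.toZFSet d.toZFSet) ?_ hQ hW hp hq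
    ?_ (fun y => ?_) fun z hz => ?_
  · show Dfn Lvl.{u} (fun v => Seq (fun X f i => Φ (as X f i (v 1) (v 3) (v 4) (v 6) (v 7) (v 8)
      (v 9))) (v 1) (v 2) (v 0) (v 5))
    unfold Seq Lst
    refine (dfn_isFunc Lvl_sub_Trs _ _ _).and (Dfn.ball Lvl_sub_Trs _ (Dfn.exfun _ _
      ((dfn_sub Lvl_sub_Trs _ _).and (Dfn.bex Lvl_sub_Trs _ ((dfn_pm Lvl_sub_Trs _ _ _).and ?_)))))
    refine Dfn.or (Dfn.and ?_ (Dfn.and ?_ ?_)) (Dfn.and ?_ ?_)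
    · exact Dfn.mem _ _
    · exact dfn_as hΦ 0 1 2 4 6 7 9 10 11 12
    · refine Dfn.ball Lvl_sub_Trs _ (Dfn.imp ?_ ?_)
      · exact dfn_as hΦ 0 2 3 5 7 8 10 11 12 13
      · exact (Dfn.eq _ _).not.imp (dfn_pm Lvl_sub_Trs _ _ _).not
    · refine Dfn.not (Dfn.bex Lvl_sub_Trs _ ?_)
      exact dfn_as hΦ 0 2 3 5 7 8 10 11 12 13
    · exact Dfn.ball Lvl_sub_Trs _ (Dfn.eq _ _).not
  · intro k
    rcases k with _ | _ | _ | _ | _ | k <;> exact isOrdinal_toZFSet _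
  · exact seq_iff (fun X f i => Φ (as X f i Q p q a.toZFSet b.toZFSet c.toZFSet d.toZFSet)) hWO hQ0
  · unfold gz at hz
    rw [mem_gr] at hz
    obtain ⟨x, hx, rfl⟩ := hz
    obtain ⟨b, hb, rfl⟩ := Ordinal.mem_toZFSet_iff.1 hx
    exact HOD_pair (HOD_ord b) (hQ.mem (rc_mem _ hWO hQ0 _))

end Pool.Agent.H639
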