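import Pool.Agent.H639.Jen5
import Pool.Agent.H639.Mit4

/-!
Continuous cofinal functions from a regular cardinal into an ordinal, and stationary subsets of
ordinals of uncountable cofinality.
-/

set_option autoImplicit false
set_option linter.unusedVariables false

namespace Pool.Agent.H639

open Pool.Agent.H310.HD Gss969 ZFSet Pool.Agent.Results.MP_e37c09_lc.AlternativeA

universe u

/-- `e` is strictly increasing, continuous and cofinal from `ν` to `κ`. -/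
structure Nrm (ν κ : Ordinal.{u}) (e : Ordinal.{u} → Ordinal.{u}) : Prop where
  lt : ∀ ξ < ν, e ξ < κ
  mono : ∀ ξ ζ, ζ < ξ → e ζ < e ξ
  cof : ∀ y < κ, ∃ ξ < ν, y < e ξ
  cont : ∀ ξ, ∀ y < e ξ, ∃ ζ < ξ, y < e (Order.succ ζ)
  lim : ∀ ξ < ν, Order.succ ξ < ν

theorem exists_nrm {κ ν : Ordinal.{u}} (hκlim : ∀ x < κ, Order.succ x < κ)
    (hν : CofN ν.toZFSet κ.toZFSet) (hνmin : ∀ ν' < ν, ¬ CofN ν'.toZFSet κ.toZFSet) :
    ∃ e, Nrm ν κ e := by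
  obtain ⟨f, hf, hfc⟩ := hν
  have hfr : ∀ i < ν, (rank (app f i.toZFSet)).toZFSet = app f i.toZFSet := fun i hi => by
    obtain ⟨y, _, h1⟩ := Ordinal.mem_toZFSet_iff.1 (app_mem hf (tzm.2 hi))
    rw [← h1, Ordinal.rank_toZFSet]
  obtain ⟨F, hF⟩ : ∃ F : Ordinal.{u} → Ordinal.{u}, F = fun i => rank (app f i.toZFSet) := ⟨_, rfl⟩
  have hFlt : ∀ i < ν, F i < κ := fun i hi => by
    rw [hF, ← tzm, hfr i hi]
    exact app_mem hf (tzm.2 hi)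
  have hFc : ∀ y < κ, ∃ i < ν, y < F i := fun y hy => by
    obtain ⟨n, hn, z, hz, h1, h2⟩ := hfc _ (tzm.2 hy)
    obtain ⟨n, hn', rfl⟩ := Ordinal.mem_toZFSet_iff.1 hn
    refine ⟨n, hn', ?_⟩
    have h3 := (app_iff hf hn).1 h1
    rw [← h3, ← hfr n hn', tzm] at h2
    rw [hF]
    exact h2
  -- bounded below `ν`
  have hb : ∀ ρ < ν, ∀ G : Ordinal.{u} → Ordinal.{u}, (∀ i < ρ, G i < κ) → ∃ b < κ, ∀ i < ρ, G i < b := by
    intro ρ hρ G hG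
    by_contra hcon
    push Not at hcon
    refine hνmin ρ hρ ⟨gr ρ.toZFSet fun x => (G (rank x)).toZFSet, isFunc_gr fun x hx => ?_,
      fun x hx => ?_⟩
    · obtain ⟨i, hi, rfl⟩ := Ordinal.mem_toZFSet_iff.1 hx
      rw [Ordinal.rank_toZFSet]
      exact tzm.2 (hG i hi)
    · obtain ⟨ξ, hξ, rfl⟩ := Ordinal.mem_toZFSet_iff.1 hx
      obtain ⟨i, hi, h⟩ := hcon (Order.succ ξ) (hκlim ξ hξ)
      refine ⟨_, tzm.2 hi, _, tzm.2 (hG i hi), ?_, tzm.2 (Order.succ_le_iff.1 h)⟩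
      rw [pair_mem_gr, Ordinal.rank_toZFSet]
      exact ⟨tzm.2 hi, rfl⟩
  obtain ⟨e, he⟩ : ∃ e : Ordinal.{u} → Ordinal.{u}, ∀ ξ, e ξ =
      ⨆ i : Set.Iio ξ, Order.succ (max (F i.1) (e i.1)) := by
    refine ⟨WellFounded.fix (wellFounded_lt (α := Ordinal.{u})) fun ξ ih =>
      ⨆ i : Set.Iio ξ, Order.succ (max (F i.1) (ih i.1 i.2)), fun ξ => ?_⟩
    exact WellFounded.fix_eq _ _ _
  have h1 : ∀ ξ, ∀ i < ξ, Order.succ (max (F i) (e i)) ≤ e ξ := fun ξ i hi => by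
    rw [he ξ]
    exact Ordinal.le_iSup (fun i : Set.Iio ξ => Order.succ (max (F i.1) (e i.1))) ⟨i, hi⟩
  have hmono : ∀ ξ ζ, ζ < ξ → e ζ < e ξ := fun ξ ζ h =>
    ((le_max_right _ _).trans_lt (Order.lt_succ _)).trans_le (h1 ξ ζ h)
  have hFe : ∀ ξ ζ, ζ < ξ → F ζ < e ξ := fun ξ ζ h =>
    ((le_max_left _ _).trans_lt (Order.lt_succ _)).trans_le (h1 ξ ζ h)
  have h2 : ∀ ξ, ∀ y < e ξ, ∃ i < ξ, y < Order.succ (max (F i) (e i)) := by
    intro ξ y hy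
    rw [he ξ] at hy
    obtain ⟨i, hi⟩ := (Ordinal.lt_iSup_iff).1 hy
    exact ⟨i.1, i.2, hi⟩
  have hlt : ∀ ξ < ν, e ξ < κ := by
    intro ξ
    induction ξ using WellFoundedLT.induction with
    | ind ξ ih =>
      intro hξ
      obtain ⟨b, hb1, hb2⟩ := hb ξ hξ (fun i => max (F i) (e i)) fun i hi =>
        max_lt (hFlt i (hi.trans hξ)) (ih i hi (hi.trans hξ))
      refine lt_of_le_of_lt ?_ hb1
      by_contra hcon
      push Not at hcon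
      obtain ⟨i, hi, h3⟩ := h2 ξ b hcon
      exact absurd (hb2 i hi) (not_lt.2 (Order.lt_succ_iff.1 h3))
  have hνlim : ∀ ξ < ν, Order.succ ξ < ν := by
    intro i hi
    by_contra hcon
    push Not at hcon
    obtain ⟨b, hb1, hb2⟩ := hb i hi F fun i' hi' => hFlt i' (hi'.trans hi)
    obtain ⟨i', hi', h3⟩ := hFc _ (max_lt hb1 (hFlt i hi))
    rcases (Order.lt_succ_iff.1 (hi'.trans_le hcon)).lt_or_eq with h6 | h6
    · exact absurd (hb2 i' h6) (not_lt.2 ((le_max_left _ _).trans h3.le))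
    · rw [h6] at h3
      exact absurd ((le_max_right _ _).trans_lt h3) (lt_irrefl _)
  refine ⟨e, hlt, hmono, fun y hy => ?_, fun ξ y hy => ?_, hνlim⟩
  · obtain ⟨i, hi, h3⟩ := hFc y hy
    exact ⟨_, hνlim i hi, h3.trans (hFe _ _ (Order.lt_succ i))⟩
  · obtain ⟨i, hi, h3⟩ := h2 ξ y hy
    exact ⟨i, hi, h3.trans_le (h1 _ _ (Order.lt_succ i))⟩

/-- A least length of cofinal functions is regular. -/
theorem regUnc_of_min {κ ν : Ordinal.{u}} (hκlim : ∀ x < κ, Order.succ x < κ)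
    (hν : CofN ν.toZFSet κ.toZFSet) (hνmin : ∀ ν' < ν, ¬ CofN ν'.toZFSet κ.toZFSet)
    (hω : Ordinal.omega0 < ν) : RegUnc ν.toZFSet := by
  refine ⟨isOrdinal_toZFSet _, by unfold om; exact tzm.2 hω, fun a ha f hf => ?_⟩
  obtain ⟨a, ha', rfl⟩ := Ordinal.mem_toZFSet_iff.1 ha
  by_contra hcon
  push Not at hcon
  refine hνmin a ha' (cof_comp hκlim hν hνmin ⟨f, hf, fun x hx => ?_⟩)
  obtain ⟨ξ, hξ, rfl⟩ := Ordinal.mem_toZFSet_iff.1 hx
  obtain ⟨e, he⟩ := exists_nrm hκlim hν hνmin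
  obtain ⟨x, hx1, y, hy, h1, h2⟩ := hcon _ (tzm.2 (he.lim ξ hξ))
  refine ⟨x, hx1, y, hy, h1, ?_⟩
  obtain ⟨y, hy', rfl⟩ := Ordinal.mem_toZFSet_iff.1 hy
  rw [tzm, not_lt] at h2
  exact tzm.2 (Order.succ_le_iff.1 h2)

end Pool.Agent.H639
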