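import Pool.Agent.H639.Ref1

/-!
Stationary subsets of ordinals of uncountable cofinality, seen through a continuous cofinal function.
-/

set_option autoImplicit false
set_option linter.unusedVariables false

namespace Pool.Agent.H639

open Pool.Agent.H310.HD Gss969 ZFSet Pool.Agent.Results.MP_e37c09_lc.AlternativeA

universe u

variable {ν κ : Ordinal.{u}} {e : Ordinal.{u} → Ordinal.{u}}

/-- The points of cofinality `ω`. -/
theorem Nrm.cofOm (he : Nrm ν κ e) {ξ : Ordinal.{u}} (h : CofOm ξ.toZFSet) :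
    CofOm (e ξ).toZFSet := by
  obtain ⟨f, hf, hfc⟩ := h
  have hlim : ∀ x < ξ, Order.succ x < ξ := (CofOm.lim (α := ξ) ⟨f, hf, hfc⟩).2
  refine ⟨gr om fun x => (e (rank (app f x))).toZFSet, isFunc_gr fun x hx => ?_, fun x hx => ?_⟩
  · obtain ⟨y, hy, h1⟩ := Ordinal.mem_toZFSet_iff.1 (app_mem hf hx)
    rw [← h1, Ordinal.rank_toZFSet]
    exact tzm.2 (he.mono _ _ hy)
  · obtain ⟨y, hy, rfl⟩ := Ordinal.mem_toZFSet_iff.1 hx
    obtain ⟨ζ, hζ, h1⟩ := he.cont ξ y hy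
    obtain ⟨n, hn, z, hz, h2, h3⟩ := hfc _ (tzm.2 (hlim ζ hζ))
    obtain ⟨z, hz', rfl⟩ := Ordinal.mem_toZFSet_iff.1 hz
    refine ⟨n, hn, (e z).toZFSet, tzm.2 (he.mono _ _ hz'), ?_, tzm.2 (h1.trans (he.mono _ _ (tzm.1 h3)))⟩
    rw [pair_mem_gr, (app_iff hf hn).1 h2, Ordinal.rank_toZFSet]
    exact ⟨hn, rfl⟩

/-- The range of `e` is closed and unbounded. -/
theorem Nrm.club (he : Nrm ν κ e) :
    Club (ZFSet.sep (fun x => ∃ ξ < ν, x = (e ξ).toZFSet) κ.toZFSet) κ.toZFSet := by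
  refine ⟨fun x hx => (mem_sep.1 hx).1, fun x hx => ?_, fun a ha hne hlim => ?_⟩
  · obtain ⟨y, hy, rfl⟩ := Ordinal.mem_toZFSet_iff.1 hx
    obtain ⟨ξ, hξ, h1⟩ := he.cof y hy
    exact ⟨(e ξ).toZFSet, mem_sep.2 ⟨tzm.2 (he.lt ξ hξ), ξ, hξ, rfl⟩, tzm.2 h1⟩
  · obtain ⟨a, ha', rfl⟩ := Ordinal.mem_toZFSet_iff.1 ha
    -- the least `ξ` with `a ≤ e ξ`
    have hex : ∃ ξ, ξ < ν ∧ a ≤ e ξ := by
      obtain ⟨ξ, hξ, h1⟩ := he.cof a ha'
      exact ⟨ξ, hξ, h1.le⟩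
    obtain ⟨ξ, ⟨hξ, h1⟩, hmin⟩ := WellFounded.has_min (wellFounded_lt (α := Ordinal.{u}))
      {ξ | ξ < ν ∧ a ≤ e ξ} hex
    have h2 : ∀ ζ < ξ, e ζ < a := fun ζ hζ => by
      by_contra hcon
      exact hmin ζ ⟨hζ.trans hξ, not_lt.1 hcon⟩ hζ
    have h3 : e ξ ≤ a := by
      by_contra hcon
      push Not at hcon
      obtain ⟨ζ, hζ, h4⟩ := he.cont ξ a hcon
      rcases (Order.succ_le_of_lt hζ).lt_or_eq with h5 | h5
      · exact absurd (h4.trans (h2 _ h5)) (lt_irrefl _)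
      · -- `ξ` is a successor
        obtain ⟨c, hc, hca, hc'⟩ := hlim _ (tzm.2 (h2 ζ hζ))
        obtain ⟨_, ρ, hρ, rfl⟩ := mem_sep.1 hc
        rw [tzm] at hca hc'
        have h6 : ζ < ρ := by
          by_contra h7
          push Not at h7
          rcases h7.lt_or_eq with h8 | h8
          · exact absurd (hc'.trans (he.mono _ _ h8)) (lt_irrefl _)
          · rw [h8] at hc'; exact absurd hc' (lt_irrefl _)
        have h7 : ρ < ξ := by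
          by_contra h8
          push Not at h8
          rcases h8.lt_or_eq with h9 | h9
          · exact absurd ((hca.trans_le h1).trans (he.mono _ _ h9)) (lt_irrefl _)
          · rw [h9] at h1; exact absurd (hca.trans_le h1) (lt_irrefl _)
        exact absurd ((Order.succ_le_of_lt h6).trans_lt (h7.trans_eq h5.symm)) (lt_irrefl _)
    exact mem_sep.2 ⟨ha, ξ, hξ, by rw [le_antisymm h1 h3]⟩

theorem Nrm.pos (he : Nrm ν κ e) {ξ : Ordinal.{u}} (h : 0 < ξ) : 0 < e ξ :=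
  bot_le.trans_lt (he.mono _ _ h)

theorem Nrm.inj (he : Nrm ν κ e) {ξ ζ : Ordinal.{u}} (h : e ξ < e ζ) : ξ < ζ := by
  by_contra hcon
  push Not at hcon
  rcases hcon.lt_or_eq with h1 | h1
  · exact absurd (h.trans (he.mono _ _ h1)) (lt_irrefl _)
  · rw [h1] at h; exact absurd h (lt_irrefl _)

/-- The preimage of a club. -/
theorem Nrm.club_pre (he : Nrm ν κ e) (hν : RegUnc ν.toZFSet) {C : ZFSet.{u}}
    (hC : Club C κ.toZFSet) :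
    Club (ZFSet.sep (fun x => (e (rank x)).toZFSet ∈ C) ν.toZFSet) ν.toZFSet := by
  obtain ⟨h1, h2, h3⟩ := hC
  refine ⟨fun x hx => (mem_sep.1 hx).1, fun x hx => ?_, fun a ha hne hlim => ?_⟩
  · obtain ⟨ξ, hξ, rfl⟩ := Ordinal.mem_toZFSet_iff.1 hx
    -- a sequence
    have step : ∀ ζ < ν, ∃ ζ' < ν, ζ < ζ' ∧ ∃ c : Ordinal.{u}, c.toZFSet ∈ C ∧ e ζ < c ∧ c < e ζ' := by
      intro ζ hζ
      obtain ⟨c, hc, hc'⟩ := h2 _ (tzm.2 (he.lt ζ hζ))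
      obtain ⟨c, hcκ, rfl⟩ := Ordinal.mem_toZFSet_iff.1 (h1 hc)
      obtain ⟨ζ', hζ', h4⟩ := he.cof c hcκ
      exact ⟨ζ', hζ', he.inj ((tzm.1 hc').trans h4), c, hc, tzm.1 hc', h4⟩
    choose! N hN1 hN2 cc hcc using step
    let G : ℕ → Ordinal.{u} := fun n => Nat.rec ξ (fun _ γ => N γ) n
    have hG : ∀ n, G n < ν := by
      intro n
      induction n with
      | zero => exact hξ
      | succ n ih => exact hN1 _ ih
    have hGs : ∀ n, G n < G (n + 1) := fun n => hN2 _ (hG n)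
    obtain ⟨α, hα, h4, h5, h6⟩ := exists_sup hν hG hGs
    refine ⟨α.toZFSet, mem_sep.2 ⟨tzm.2 hα, ?_⟩, tzm.2 (h4 0)⟩
    rw [Ordinal.rank_toZFSet]
    refine h3 _ (tzm.2 (he.lt α hα)) ⟨(e (G 0)).toZFSet, tzm.2 (he.mono _ _ (h4 0)), rfl⟩
      fun y hy => ?_
    obtain ⟨y, hy', rfl⟩ := Ordinal.mem_toZFSet_iff.1 hy
    obtain ⟨ζ, hζ, h7⟩ := he.cont α y hy'
    obtain ⟨n, hn⟩ := h5 ζ hζ
    obtain ⟨h8, h9, h10⟩ := hcc (G n) (hG n)
    refine ⟨_, h8, tzm.2 (h10.trans (he.mono _ _ (h4 (n + 1)))), tzm.2 ?_⟩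
    have h11 : e (Order.succ ζ) ≤ e (G n) := by
      rcases (Order.succ_le_of_lt hn).lt_or_eq with h | h
      · exact (he.mono _ _ h).le
      · rw [h]
    exact (h7.trans_le h11).trans h9
  · obtain ⟨α, hα, rfl⟩ := Ordinal.mem_toZFSet_iff.1 ha
    refine mem_sep.2 ⟨ha, ?_⟩
    rw [Ordinal.rank_toZFSet]
    have hα0 : 0 < α := by
      obtain ⟨x, hx, _⟩ := hne
      obtain ⟨x, hx', rfl⟩ := Ordinal.mem_toZFSet_iff.1 hx
      exact bot_le.trans_lt hx'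
    refine h3 _ (tzm.2 (he.lt α hα)) ⟨(e 0).toZFSet, tzm.2 (he.mono _ _ hα0), rfl⟩ fun y hy => ?_
    obtain ⟨y, hy', rfl⟩ := Ordinal.mem_toZFSet_iff.1 hy
    obtain ⟨ζ, hζ, h7⟩ := he.cont α y hy'
    obtain ⟨c, hc, hcα, hζc⟩ := hlim _ (tzm.2 hζ)
    obtain ⟨hcν, hcC⟩ := mem_sep.1 hc
    obtain ⟨c, hc', rfl⟩ := Ordinal.mem_toZFSet_iff.1 hcν
    rw [Ordinal.rank_toZFSet] at hcC
    rw [tzm] at hcα hζc
    obtain ⟨c', hc2, hcα', hζc'⟩ := hlim _ (tzm.2 hcα)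
    obtain ⟨hcν', hcC'⟩ := mem_sep.1 hc2
    obtain ⟨c', hc'', rfl⟩ := Ordinal.mem_toZFSet_iff.1 hcν'
    rw [Ordinal.rank_toZFSet] at hcC'
    rw [tzm] at hcα' hζc'
    refine ⟨_, hcC', tzm.2 (he.mono _ _ hcα'), tzm.2 (h7.trans (he.mono _ _ ?_))⟩
    exact (Order.succ_le_of_lt hζc).trans_lt hζc'

/-- Stationary preimages. -/
theorem Nrm.statL (he : Nrm ν κ e) (hν : RegUnc ν.toZFSet) {S : Set Ordinal.{u}}
    (h : StatL {ξ | e ξ ∈ S} ν) : StatL S κ := by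
  intro C hC1 hC2
  obtain ⟨ξ, hξ, h1, h2⟩ := h _ sep_subset (he.club_pre hν hC2)
  rw [mem_sep, Ordinal.rank_toZFSet] at h2
  exact ⟨e ξ, he.lt ξ hξ, h1, h2.2⟩

/-- Every stationary subset of `κ` meets the range of `e`. -/
theorem Nrm.meet (he : Nrm ν κ e) {S : Set Ordinal.{u}} (h : StatL S κ) :
    ∃ ξ < ν, e ξ ∈ S := by
  obtain ⟨α, hα, h1, h2⟩ := h _ sep_subset he.club
  obtain ⟨_, ξ, hξ, h3⟩ := mem_sep.1 h2
  rw [Ordinal.toZFSet_injective h3] at h1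
  exact ⟨ξ, hξ, h1⟩

/-- A function which is regressive on the points of cofinality `ω` above `y` is bounded on a
stationary set. -/
theorem Nrm.fodor (he : Nrm ν κ e) (hν : RegUnc ν.toZFSet) {y : Ordinal.{u}} (hy : y < κ)
    (b : Ordinal.{u} → Ordinal.{u}) (hb : ∀ x, y < x → x < κ → CofOm x.toZFSet → b x < x) :
    ∃ z < κ, StatL {x | CofOm x.toZFSet ∧ y < x ∧ b x < z} κ := by
  obtain ⟨ξ₀, hξ₀, h1⟩ := he.cof y hy
  have h2 := statL_om hν hξ₀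
  have h3 : ∀ ξ, ∃ ζ, ξ < ν → ξ₀ < ξ → CofOm ξ.toZFSet → ζ < ξ ∧ b (e ξ) < e (Order.succ ζ) := by
    intro ξ
    by_cases h : ξ < ν ∧ ξ₀ < ξ ∧ CofOm ξ.toZFSet
    · obtain ⟨ζ, hζ, h4⟩ := he.cont ξ (b (e ξ)) (hb _ (h1.trans (he.mono _ _ h.2.1)) (he.lt ξ h.1)
        (he.cofOm h.2.2))
      exact ⟨ζ, fun _ _ _ => ⟨hζ, h4⟩⟩
    · exact ⟨0, fun h4 h5 h6 => absurd ⟨h4, h5, h6⟩ h⟩
  choose Z hZ using h3
  obtain ⟨ζ, hζ, h4⟩ := Pool.Agent.H310.HD.fodor hν (f := fun ξ => min (Z ξ) (if Z ξ < ξ then Z ξ else 0)) h2 (by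
    rintro ξ ⟨h5, h6⟩ h7
    have h8 := hZ ξ h7 h5 h6
    simp only [h8.1, if_true, min_self])
  refine ⟨e (Order.succ ζ), he.lt _ (he.lim _ hζ), he.statL hν (h4.mono ?_)⟩
  rintro ξ hξ ⟨⟨h5, h6⟩, h7⟩
  have h8 := hZ ξ hξ h5 h6
  simp only [h8.1, if_true, min_self] at h7
  refine ⟨he.cofOm h6, h1.trans (he.mono _ _ h5), ?_⟩
  rw [← h7]
  exact h8.2

end Pool.Agent.H639
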