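import Pool.Agent.H639.Ref2

/-!
Covering from simultaneous reflection of stationary sets.
-/

set_option autoImplicit false
set_option linter.unusedVariables false

namespace Pool.Agent.H639

open Pool.Agent.H310.HD Gss969 ZFSet Pool.Agent.Results.MP_e37c09_lc.AlternativeA

universe u

/-- Simultaneous reflection at `l`: for every family of fewer than `μ` stationary subsets of `l`
which consist of ordinals of cofinality `ω` there is an ordinal `α < l` of cofinality less than `θ`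
such that all members of the family are stationary in `α`. -/
def Refl (μ θ l : Ordinal.{u}) : Prop :=
  ∀ m < μ, ∀ S : Ordinal.{u} → Set Ordinal.{u},
    (∀ i < m, StatL (S i) l ∧ ∀ a ∈ S i, CofOm a.toZFSet) →
    ∃ α < l, (∃ ν < θ, CofN ν.toZFSet α.toZFSet) ∧ ∀ i < m, StatL (S i) α

/-- An ordinal definable set of ordinals which is cofinal in `x` and has fewer than `θ` elements
gives a cofinal function in HOD. -/
theorem cof_of_few {x ν θ : Ordinal.{u}} (hθ : IsCard θ.toZFSet) (hν : ν < θ) {B : ZFSet.{u}}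
    (hB : HOD B) (hunb : ∀ ξ < x, ∃ η < x, ξ < η ∧ η.toZFSet ∈ B) (hfew : Few ν B) :
    ∃ c < θ, ∃ g, HOD g ∧ Cofi (Ordinal.toZFSet c) x.toZFSet g := by
  obtain ⟨S, hS⟩ : ∃ S : Set Ordinal.{u}, S = {η | η.toZFSet ∈ B ∨ x ≤ η} := ⟨_, rfl⟩
  have hub : ¬ BddAbove S := by
    rintro ⟨y, hy⟩
    have h1 : max (Order.succ y) x ∈ S := by
      rw [hS]; exact Or.inr (le_max_right _ _)
    exact absurd ((Order.lt_succ y).trans_le (le_max_left _ _)) (not_lt.2 (hy h1))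
  have hmono := Ordinal.enumOrd_strictMono hub
  have hex : ∃ c, x ≤ Ordinal.enumOrd S c := ⟨x, hmono.le_apply⟩
  obtain ⟨c, hc, hmin⟩ := WellFounded.has_min (wellFounded_lt (α := Ordinal.{u}))
    {c | x ≤ Ordinal.enumOrd S c} hex
  have hlt : ∀ i < c, Ordinal.enumOrd S i < x := fun i hi => by
    by_contra hcon
    exact hmin i (not_lt.1 hcon) hi
  have hmem : ∀ i < c, (Ordinal.enumOrd S i).toZFSet ∈ B := fun i hi => by
    have h1 := Ordinal.enumOrd_mem hub i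
    have h2 := hlt i hi
    rw [hS] at h1
    rcases h1 with h3 | h3
    · rw [hS]
      exact h3
    · rw [← hS] at h3
      exact absurd h2 (not_lt.2 h3)
  have hcθ : c < θ := by
    by_contra hcon
    push Not at hcon
    have h1 := hfew.card_le (α := c) (Ordinal.enumOrd S) hmem fun i _ i' _ h => hmono.injective h
    exact absurd ((IsCard.card_lt hθ hν).trans_le (Ordinal.card_le_card hcon)) (not_lt.2 h1)
  rw [hS] at hlt
  obtain ⟨hE, _⟩ := enum_gr (W := B) (l := x) (k := c) hlt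
  have hO : OD (gr c.toZFSet fun z =>
      (Ordinal.enumOrd {η | η.toZFSet ∈ B ∨ x ≤ η} (rank z)).toZFSet) := by
    refine OD_of (R := fun y v => Enum y (v 0) (v 2) (v 3))
      (x := asg B B c.toZFSet x.toZFSet ∅ ∅) (dfn_Enum _ _ _ _) hB.od hB.od
      (asg_ord (isOrdinal_toZFSet _) (isOrdinal_toZFSet _) empty_ord empty_ord) fun y => ?_
    show Enum y B c.toZFSet x.toZFSet ↔ _
    exact ⟨fun h => h.unique hE, fun h => by rw [h]; exact hE⟩
  refine ⟨c, hcθ, _, hO.hod_func hE.1, hE.1, fun y hy => ?_⟩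
  obtain ⟨ξ, hξ, rfl⟩ := Ordinal.mem_toZFSet_iff.1 hy
  obtain ⟨η, hη, hξη, hηB⟩ := hunb ξ hξ
  have h1 : η ∈ Set.range (Ordinal.enumOrd S) := by
    rw [Ordinal.range_enumOrd hub, hS]
    exact Or.inl hηB
  obtain ⟨i', rfl⟩ := h1
  have hi' : i' < c := hmono.lt_iff_lt.1 (hη.trans_le hc)
  refine ⟨i'.toZFSet, tzm.2 hi', _, tzm.2 hη, ?_, tzm.2 hξη⟩
  rw [pair_mem_gr, Ordinal.rank_toZFSet, hS]
  exact ⟨tzm.2 hi', rfl⟩

/-- The indices of the sets which are stationary in `α`. -/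
noncomputable def Idx (k l α : Ordinal.{u}) (S : ZFSet.{u}) : ZFSet.{u} :=
  ZFSet.sep (fun i => Rec i S α.toZFSet l.toZFSet) k.toZFSet

theorem HOD_Idx {k l α : Ordinal.{u}} {S : ZFSet.{u}} (hS : HOD S) : HOD (Idx k l α S) :=
  HOD_sep4 (Ψ := fun v => Rec (v 0) (v 2) (v 5) (v 6)) (dfn_Rec 0 2 5 6) (HOD_ord k) hS hS hS
    α l 0 0 0

theorem mem_Idx {k l α : Ordinal.{u}} {S : ZFSet.{u}} (hS : IsFunc k.toZFSet (powerset l.toZFSet) S)
    {i : Ordinal.{u}} : i.toZFSet ∈ Idx k l α S ↔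
      i < k ∧ StatL {a | a.toZFSet ∈ app S i.toZFSet} α := by
  unfold Idx
  rw [mem_sep, tzm]
  constructor
  · rintro ⟨hi, Z, hZ, hZs, B, hB, hiB, hZB⟩
    have h1 := (app_iff hS (tzm.2 hi)).1 hiB
    refine ⟨hi, fun C hC1 hC2 => ?_⟩
    obtain ⟨x, hx, hxC⟩ := hZs C hC1 hC2
    obtain ⟨x, hx', rfl⟩ := Ordinal.mem_toZFSet_iff.1 (hZ hx)
    refine ⟨x, hx', ?_, hxC⟩
    show x.toZFSet ∈ app S i.toZFSet
    rw [h1]
    exact hZB _ hx
  · rintro ⟨hi, h⟩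
    refine ⟨hi, ZFSet.sep (fun z => z ∈ app S i.toZFSet) α.toZFSet, sep_subset,
      fun C hC1 hC2 => ?_, app S i.toZFSet, mem_powerset.1 (app_mem hS (tzm.2 hi)),
      app_spec hS (tzm.2 hi), fun z hz => (mem_sep.1 hz).2⟩
    obtain ⟨x, hx, h1, h2⟩ := h C hC1 hC2
    exact ⟨_, mem_sep.2 ⟨tzm.2 hx, h1⟩, h2⟩

/-- There are few indices. -/
theorem few_Idx {k l α ν : Ordinal.{u}} {S : ZFSet.{u}}
    (hS : Fam om k.toZFSet l.toZFSet S) (hν : CofN ν.toZFSet α.toZFSet) :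
    ∃ ν' ≤ ν, Few ν' (Idx k l α S) := by
  classical
  obtain ⟨ν₀, hν₀, h1, h2⟩ := exists_cof hν
  have hlim : ∀ x < α, Order.succ x < α := by
    intro x hx
    obtain ⟨f, hf, hfc⟩ := h1
    obtain ⟨n, hn, y, hy, h3, h4⟩ := hfc _ (tzm.2 hx)
    obtain ⟨y, hy', rfl⟩ := Ordinal.mem_toZFSet_iff.1 hy
    exact (Order.succ_le_of_lt (tzm.1 h4)).trans_lt hy'
  obtain ⟨e, he⟩ := exists_nrm hlim h1 h2
  refine ⟨ν₀, hν₀, fun ξ => if h : ∃ i, i < k ∧ (e ξ).toZFSet ∈ app S i.toZFSet then h.choose else 0,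
    fun y hy => ?_⟩
  obtain ⟨hyk, hy⟩ := (mem_Idx hS.1).1 hy
  obtain ⟨ξ, hξ, h3⟩ := he.meet hy
  refine ⟨ξ, hξ, ?_⟩
  have h4 : ∃ i, i < k ∧ (e ξ).toZFSet ∈ app S i.toZFSet := ⟨y, hyk, h3⟩
  show (if h : ∃ i, i < k ∧ (e ξ).toZFSet ∈ app S i.toZFSet then h.choose else 0) = y
  rw [dif_pos h4]
  obtain ⟨h5, h6⟩ := h4.choose_spec
  have h7 := hS.2.2 _ (tzm.2 h5) _ (tzm.2 hyk) _ (mem_powerset.1 (app_mem hS.1 (tzm.2 h5))) _
    (mem_powerset.1 (app_mem hS.1 (tzm.2 hyk))) (app_spec hS.1 (tzm.2 h5))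
    (app_spec hS.1 (tzm.2 hyk)) ⟨_, h6, h3⟩
  exact Ordinal.toZFSet_injective h7

/-- **Covering from reflection.** -/
theorem cover_refl {μ θ k l m : Ordinal.{u}} (hR : Refl μ θ l) {S : ZFSet.{u}} (hSO : HOD S)
    (hS : Fam om k.toZFSet l.toZFSet S) (hm : m < μ) (f : Ordinal.{u} → Ordinal.{u})
    (hf : ∀ i < m, f i < k) :
    ∃ D, HOD D ∧ D ⊆ k.toZFSet ∧ (∀ i < m, (f i).toZFSet ∈ D) ∧ ∃ ν < θ, Few ν D := by
  obtain ⟨α, hα, ⟨ν, hν, hc⟩, h1⟩ := hR m hm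
    (fun i => {a | a.toZFSet ∈ app S (f i).toZFSet}) fun i hi => by
      have h2 := hS.2.1 _ (tzm.2 (hf i hi)) _ (mem_powerset.1 (app_mem hS.1 (tzm.2 (hf i hi))))
        (app_spec hS.1 (tzm.2 (hf i hi)))
      exact ⟨stat_iff.1 h2.1, fun a ha => h2.2 _ ha⟩
  obtain ⟨ν', hν', h2⟩ := few_Idx hS hc
  exact ⟨Idx k l α S, HOD_Idx hSO, sep_subset, fun i hi => (mem_Idx hS.1).2 ⟨hf i hi, h1 i hi⟩,
    ν', hν'.trans_lt hν, h2⟩

/-- Every ordinal of cofinality `ω` has a cofinal function in HOD from an ordinal below `θ`. -/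
def CovOm (θ : Ordinal.{u}) : Prop :=
  ∀ x : Ordinal.{u}, CofOm x.toZFSet → ∃ c < θ, ∃ g, HOD g ∧ Cofi (Ordinal.toZFSet c) x.toZFSet g

/-- Every range of a function from some `m < μ` to the ordinals is contained in a set in HOD with
fewer than `θ` elements. -/
def CovSets (μ θ : Ordinal.{u}) : Prop :=
  ∀ m < μ, ∀ f : Ordinal.{u} → Ordinal.{u}, ∃ D, HOD D ∧ (∀ i < m, (f i).toZFSet ∈ D) ∧
    ∃ ν < θ, Few ν D

theorem CovSets.covOm {μ θ : Ordinal.{u}} (h : CovSets μ θ) (hμ : Ordinal.omega0 < μ)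
    (hθ : IsCard θ.toZFSet) : CovOm θ := by
  intro x hx
  obtain ⟨f, hf, hfc⟩ := hx
  obtain ⟨D, hD, h1, ν, hν, h2⟩ := h _ hμ fun i => rank (app f i.toZFSet)
  refine cof_of_few hθ hν hD (fun ξ hξ => ?_) h2
  obtain ⟨n, hn, y, hy, hny, hξy⟩ := hfc _ (tzm.2 hξ)
  obtain ⟨y, hy', rfl⟩ := Ordinal.mem_toZFSet_iff.1 hy
  unfold om at hn
  obtain ⟨n', hn', rfl⟩ := Ordinal.mem_toZFSet_iff.1 hn
  have h3 := h1 n' hn'
  rw [(app_iff hf hn).1 hny, Ordinal.rank_toZFSet] at h3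
  exact ⟨y, hy', tzm.1 hξy, h3⟩

end Pool.Agent.H639
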