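import Pool.Agent.H639.Ref5

/-!
Local form of the HOD Dichotomy from reflection: covering and cofinalities below `k` from a sequence
of `k` disjoint stationary sets in HOD.
-/

set_option autoImplicit false
set_option linter.unusedVariables false

namespace Pool.Agent.H639

open Pool.Agent.H310.HD Gss969 ZFSet Pool.Agent.Results.MP_e37c09_lc.AlternativeA

universe u

/-- Every ordinal `x ≤ k` of cofinality `ω` has a cofinal function in HOD from an ordinal below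
`θ`. -/
def CovOmTo (θ k : Ordinal.{u}) : Prop :=
  ∀ x ≤ k, CofOm (Ordinal.toZFSet x) → ∃ c < θ, ∃ g, HOD g ∧ Cofi (Ordinal.toZFSet c) x.toZFSet g

/-- Every range of a function from some `m < μ` to `k` is contained in a set in HOD with fewer than
`θ` elements. -/
def CovSetsTo (μ θ k : Ordinal.{u}) : Prop :=
  ∀ m < μ, ∀ f : Ordinal.{u} → Ordinal.{u}, (∀ i < m, f i < k) →
    ∃ D, HOD D ∧ (∀ i < m, (f i).toZFSet ∈ D) ∧ ∃ ν < θ, Few ν D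

/-- Every `κ ≤ k`, `κ ≥ θ`, which is regular in HOD has cofinality at least `|κ|`. -/
def CofTo (θ k : Ordinal.{u}) : Prop :=
  ∀ κ ≥ θ, κ ≤ k → HODReg κ → ∀ ν : Ordinal.{u}, CofN ν.toZFSet κ.toZFSet → κ.card ≤ ν.card

/-- HOD contains a sequence of length `k` of disjoint stationary subsets of `cof(ω) ∩ l`. -/
def Split (k l : Ordinal.{u}) : Prop :=
  ∃ S, HOD S ∧ Fam om k.toZFSet l.toZFSet S

/-- For all regular `l > θ` with `l ≤ k` and all `0 < i ≤ l` there is in HOD a partition of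
`cof(ω) ∩ l` into `i` stationary sets. -/
def PartTo (θ k : Ordinal.{u}) : Prop :=
  ∀ l > θ, l ≤ k → RegUnc (Ordinal.toZFSet l) → ∀ i : Ordinal.{u}, 0 < i → i ≤ l →
    ∃ g, HOD g ∧ IsPart i.toZFSet l.toZFSet g

theorem CovSetsTo.covOmTo {μ θ k : Ordinal.{u}} (h : CovSetsTo μ θ k) (hμ : Ordinal.omega0 < μ)
    (hθ : IsCard θ.toZFSet) : CovOmTo θ k := by
  intro x hxk hx
  obtain ⟨f, hf, hfc⟩ := hx
  obtain ⟨D, hD, h1, ν, hν, h2⟩ := h _ hμ (fun i => rank (app f i.toZFSet)) fun i hi => by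
    have h3 : app f i.toZFSet ∈ x.toZFSet := app_mem hf (by unfold om; exact tzm.2 hi)
    obtain ⟨y, hy, h4⟩ := Ordinal.mem_toZFSet_iff.1 h3
    show rank (app f i.toZFSet) < k
    rw [← h4, Ordinal.rank_toZFSet]
    exact hy.trans_le hxk
  refine cof_of_few hθ hν hD (fun ξ hξ => ?_) h2
  obtain ⟨n, hn, y, hy, hny, hξy⟩ := hfc _ (tzm.2 hξ)
  obtain ⟨y, hy', rfl⟩ := Ordinal.mem_toZFSet_iff.1 hy
  unfold om at hn
  obtain ⟨n', hn', rfl⟩ := Ordinal.mem_toZFSet_iff.1 hn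
  have h3 := h1 n' hn'
  rw [(app_iff hf hn).1 hny, Ordinal.rank_toZFSet] at h3
  exact ⟨y, hy', tzm.1 hξy, h3⟩

theorem covSetsTo_of_split {μ θ k l : Ordinal.{u}} (hR : Refl μ θ l) (h : Split k l) :
    CovSetsTo μ θ k := by
  intro m hm f hf
  obtain ⟨S, hS, hF⟩ := h
  obtain ⟨D, h1, _, h2, h3⟩ := cover_refl hR hS hF hm f hf
  exact ⟨D, h1, h2, h3⟩

/-- **Ketonen's argument.** -/
theorem big_cof_to {θ k₁ : Ordinal.{u}} (hθ : RegUnc θ.toZFSet) (hC : CovOmTo θ k₁) {κ : Ordinal.{u}}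
    (hθκ : θ ≤ κ) (hκk : κ ≤ k₁) (hκ : HODReg κ) {ν : Ordinal.{u}} (hν : CofN ν.toZFSet κ.toZFSet) :
    κ.card ≤ ν.card := by
  classical
  obtain ⟨hκ0, hκlim, hreg⟩ := hκ
  obtain ⟨ν₀, hν₀, h1, hmin⟩ := exists_cof hν
  refine le_trans ?_ (Ordinal.card_le_card hν₀)
  have hom : ¬ CofOm κ.toZFSet := by
    intro h
    obtain ⟨c, hc, g, hg, hg'⟩ := hC κ hκk h
    exact hreg ⟨c.toZFSet, tzm.2 (hc.trans_le hθκ), g, hg, hg'⟩
  obtain ⟨e, he⟩ := exists_nrm hκlim h1 hmin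
  have hων := om_lt_min he hκ0 hom h1
  have hrν := regUnc_of_min hκlim h1 hmin hων
  -- the chosen functions
  obtain ⟨A, hA⟩ : ∃ A : ZFSet.{u}, A = ZFSet.sep (fun x => CofOm x) κ.toZFSet := ⟨_, rfl⟩
  have hAH : HOD A := by
    rw [hA]
    exact HOD_sep4 (Ψ := fun v => CofOm (v 0)) (dfn_CofOm 0) (HOD_ord κ) (HOD_ord κ) (HOD_ord κ)
      (HOD_ord κ) 0 0 0 0 0
  obtain ⟨Q, hQ⟩ : ∃ Q : ZFSet.{u}, Q = Ph (prod θ.toZFSet κ.toZFSet) := ⟨_, rfl⟩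
  have hQH : HOD Q := by
    rw [hQ]
    exact HOD_Ph (HOD_prod (HOD_ord θ) (HOD_ord κ))
  obtain ⟨F, hFH, hF⟩ := HOD_choice (Ψ := fun v => ∃ c ∈ v 10, Cofi c (v 1) (v 0))
    (Dfn.bex Lvl_sub_Trs _ (dfn_Cofi _ _ _)) hAH hQH HOD_empty HOD_empty HOD_empty HOD_empty
    HOD_empty θ 0 0 0 (fun x hx => by
      rw [hA, mem_sep] at hx
      obtain ⟨x, hx', rfl⟩ := Ordinal.mem_toZFSet_iff.1 hx.1
      obtain ⟨c, hc, g, hg, hg'⟩ := hC x (hx'.le.trans hκk) hx.2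
      refine ⟨g, ?_, c.toZFSet, tzm.2 hc, hg'⟩
      rw [hQ, mem_Ph]
      refine ⟨fun q hq => ?_, hg⟩
      obtain ⟨a, ha, b, hb, rfl⟩ := mem_prod.1 (hg'.1.1 hq)
      obtain ⟨a, ha', rfl⟩ := Ordinal.mem_toZFSet_iff.1 ha
      obtain ⟨b, hb', rfl⟩ := Ordinal.mem_toZFSet_iff.1 hb
      exact pair_mem_prod.2 ⟨tzm.2 (ha'.trans hc), tzm.2 (hb'.trans hx')⟩)
  have hF2 : ∀ x : Ordinal.{u}, x < κ → CofOm x.toZFSet → F x.toZFSet ∈ Q ∧
      ∃ c < θ, Cofi (Ordinal.toZFSet c) x.toZFSet (F x.toZFSet) := by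
    intro x hx hxo
    have hxA : x.toZFSet ∈ A := by rw [hA, mem_sep]; exact ⟨tzm.2 hx, hxo⟩
    obtain ⟨h2, c, hc, h3⟩ := hF _ hxA
    have hc' : c ∈ θ.toZFSet := hc
    obtain ⟨c, hc'', rfl⟩ := Ordinal.mem_toZFSet_iff.1 hc'
    exact ⟨h2, c, hc'', h3⟩
  obtain ⟨G, hG⟩ : ∃ G : ZFSet.{u}, G = gr A F := ⟨_, rfl⟩
  rw [← hG] at hFH
  have hGp : ∀ x g : ZFSet.{u}, pair x g ∈ G ↔ x ∈ A ∧ F x = g := by
    intro x g; rw [hG, pair_mem_gr]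
  -- one step
  have hstep : ∀ y < κ, ∃ z < κ, y < z ∧ HitS y.toZFSet z.toZFSet G Q θ.toZFSet κ.toZFSet := by
    intro y hy
    have h2 : ∀ x : Ordinal.{u}, ∃ b : Ordinal.{u}, y < x → x < κ → CofOm x.toZFSet → b < x ∧
        y < b ∧ ∃ i ∈ θ.toZFSet, pair i b.toZFSet ∈ F x.toZFSet := by
      intro x
      by_cases h : y < x ∧ x < κ ∧ CofOm x.toZFSet
      · obtain ⟨_, c, hc, hf, hfc⟩ := hF2 x h.2.1 h.2.2
        obtain ⟨i, hi, b, hb, h3, h4⟩ := hfc _ (tzm.2 h.1)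
        obtain ⟨b, hb', rfl⟩ := Ordinal.mem_toZFSet_iff.1 hb
        obtain ⟨i, hi', rfl⟩ := Ordinal.mem_toZFSet_iff.1 hi
        exact ⟨b, fun _ _ _ => ⟨hb', tzm.1 h4, _, tzm.2 (hi'.trans hc), h3⟩⟩
      · exact ⟨0, fun h3 h4 h5 => absurd ⟨h3, h4, h5⟩ h⟩
    choose b hb using h2
    obtain ⟨z, hz, hst⟩ := he.fodor hrν hy b fun x h3 h4 h5 => (hb x h3 h4 h5).1
    have hne : y < z := by
      obtain ⟨ξ, hξ, h3, h4, h5⟩ := he.meet hst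
      exact ((hb _ h4 (he.lt ξ hξ) h3).2.1).trans h5
    refine ⟨z, hz, hne, ZFSet.sep (fun x => ∃ x' : Ordinal.{u}, x = x'.toZFSet ∧ CofOm x'.toZFSet ∧
      y < x' ∧ b x' < z) κ.toZFSet, sep_subset, fun C hC1 hC2 => ?_, fun x hx => ?_⟩
    · obtain ⟨x, hx, h3, h4⟩ := hst C hC1 hC2
      exact ⟨_, mem_sep.2 ⟨tzm.2 hx, x, rfl, h3⟩, h4⟩
    · obtain ⟨hx1, x, rfl, h3, h4, h5⟩ := mem_sep.1 hx
      have h6 := hb x h4 (tzm.1 hx1) h3
      obtain ⟨i, hi, h7⟩ := h6.2.2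
      exact ⟨F x.toZFSet, (hF2 x (tzm.1 hx1) h3).1, (hGp _ _).2 ⟨by
        rw [hA, mem_sep]; exact ⟨hx1, h3⟩, rfl⟩, i, hi, _, tzm.2 (h6.1.trans (tzm.1 hx1)), h7,
        tzm.2 h6.2.1, tzm.2 h5⟩
  -- the set `E`
  obtain ⟨E, hE⟩ : ∃ E : ZFSet.{u}, E = ZFSet.sep (fun x => ClS x G Q θ.toZFSet κ.toZFSet)
    κ.toZFSet := ⟨_, rfl⟩
  have hEH : HOD E := by
    rw [hE]
    exact HOD_sep4 (Ψ := fun v => ClS (v 0) (v 2) (v 3) (v 5) (v 6)) (dfn_ClS 0 2 3 5 6) (HOD_ord κ)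
      hFH hQH hQH θ κ 0 0 0
  have hE' : ∀ x, x ∈ E ↔ x ∈ κ.toZFSet ∧ ClS x G Q θ.toZFSet κ.toZFSet := by
    intro x; rw [hE, mem_sep]
  have hEunb : ∀ ξ < κ, ∃ η < κ, ξ < η ∧ η.toZFSet ∈ E := by
    choose! M hM1 hM2 hM3 using hstep
    intro ξ hξ
    let Gs : ℕ → Ordinal.{u} := fun n => Nat.rec ξ (fun _ γ => M γ) n
    have hGs : ∀ n, Gs n < κ := by
      intro n
      induction n with
      | zero => exact hξ
      | succ n ih => exact hM1 _ ih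
    obtain ⟨α, hα, h2, h3⟩ := exists_sup' (κ := κ) (fun h => hom (cofN_om.1 h)) hGs
      fun n => hM2 _ (hGs n)
    refine ⟨α, hα, h2 0, (hE' _).2 ⟨tzm.2 hα, ⟨_, tzm.2 (h2 0), rfl⟩, fun y hy => ?_⟩⟩
    obtain ⟨y, hy', rfl⟩ := Ordinal.mem_toZFSet_iff.1 hy
    obtain ⟨n, hn⟩ := h3 y hy'
    refine ⟨(Gs (n + 1)).toZFSet, tzm.2 (h2 (n + 1)), ?_⟩
    obtain ⟨Z, hZ, hZs, h4⟩ := hM3 _ (hGs n)
    refine ⟨Z, hZ, hZs, fun x hx => ?_⟩
    obtain ⟨g, hg, h5, i, hi, b, hb, h6, h7, h8⟩ := h4 x hx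
    refine ⟨g, hg, h5, i, hi, b, hb, h6, ?_, h8⟩
    obtain ⟨b, hb', rfl⟩ := Ordinal.mem_toZFSet_iff.1 hb
    exact tzm.2 (hn.trans (tzm.1 h7))
  have hen := enum_all (W := E) (κ := κ) hEH.od hEunb hreg
  obtain ⟨S, hS⟩ : ∃ S : Set Ordinal.{u}, S = {η | η.toZFSet ∈ E ∨ κ ≤ η} := ⟨_, rfl⟩
  rw [← hS] at hen
  have hub : ¬ BddAbove S := by
    rintro ⟨x, hx⟩
    have h2 : max (Order.succ x) κ ∈ S := by
      rw [hS]; exact Or.inr (le_max_right _ _)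
    exact absurd ((Order.lt_succ x).trans_le (le_max_left _ _)) (not_lt.2 (hx h2))
  have hmono := Ordinal.enumOrd_strictMono hub
  have hmem : ∀ i < κ, (Ordinal.enumOrd S i).toZFSet ∈ E := fun i hi => by
    have h2 := Ordinal.enumOrd_mem hub i
    have h3 := hen i hi
    rw [hS] at h2
    rcases h2 with h4 | h4
    · rw [hS]; exact h4
    · rw [← hS] at h4
      exact absurd h3 (not_lt.2 h4)
  -- bounds for the lengths
  have hlen : ∃ m ≤ θ, (ν₀ < θ → m < θ) ∧ ∀ ξ < ν₀, CofOm (e ξ).toZFSet →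
      ∃ c ≤ m, Cofi (Ordinal.toZFSet c) (e ξ).toZFSet (F (e ξ).toZFSet) := by
    by_cases h : ν₀ < θ
    · have h2 : ∀ ξ : Ordinal.{u}, ∃ c < θ, ξ < ν₀ → CofOm (e ξ).toZFSet →
          Cofi (Ordinal.toZFSet c) (e ξ).toZFSet (F (e ξ).toZFSet) := by
        intro ξ
        by_cases h3 : ξ < ν₀ ∧ CofOm (e ξ).toZFSet
        · obtain ⟨_, c, hc, h4⟩ := hF2 _ (he.lt ξ h3.1) h3.2
          exact ⟨c, hc, fun _ _ => h4⟩
        · exact ⟨0, hθ.pos, fun h4 h5 => absurd ⟨h4, h5⟩ h3⟩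
      choose c hc1 hc2 using h2
      obtain ⟨m, hm, h3⟩ := hθ.bdd h c fun i _ => hc1 i
      exact ⟨m, hm.le, fun _ => hm, fun ξ hξ h4 => ⟨c ξ, (h3 ξ hξ).le, hc2 ξ hξ h4⟩⟩
    · refine ⟨θ, le_rfl, fun h2 => absurd h2 h, fun ξ hξ h3 => ?_⟩
      obtain ⟨_, c, hc, h4⟩ := hF2 _ (he.lt ξ hξ) h3
      exact ⟨c, hc.le, h4⟩
  obtain ⟨m, hm1, hm2, hm3⟩ := hlen
  -- the injection
  have hpick : ∀ i : Ordinal.{u}, ∃ p : Ordinal.{u} × Ordinal.{u}, i < κ → p.1 < ν₀ ∧ p.2 < m ∧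
      ∃ b : Ordinal.{u}, pair p.2.toZFSet b.toZFSet ∈ F (e p.1).toZFSet ∧
        CofOm (e p.1).toZFSet ∧ e p.1 < κ ∧
        Ordinal.enumOrd S i < b ∧ b < Ordinal.enumOrd S (Order.succ i) := by
    intro i
    by_cases hi : i < κ
    · have h2 := hmem i hi
      have h3 := hmem _ (hκlim i hi)
      obtain ⟨z, hz, Z, hZ, hZs, h4⟩ := ((hE' _).1 h3).2.2 _ (tzm.2 (hmono (Order.lt_succ i)))
      obtain ⟨z, hz', rfl⟩ := Ordinal.mem_toZFSet_iff.1 hz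
      obtain ⟨ξ, hξ, h5⟩ := he.meet (stat_iff.1 hZs)
      have h5' : (e ξ).toZFSet ∈ Z := h5
      obtain ⟨g, hg, h6, t, ht, b, hb, h7, h8, h9⟩ := h4 _ h5'
      obtain ⟨h10, h11⟩ := (hGp _ _).1 h6
      obtain ⟨b, hb', rfl⟩ := Ordinal.mem_toZFSet_iff.1 hb
      obtain ⟨t, ht', rfl⟩ := Ordinal.mem_toZFSet_iff.1 ht
      rw [← h11] at h7
      rw [hA, mem_sep] at h10
      obtain ⟨c, hc, hf, _⟩ := hm3 ξ hξ h10.2
      have h12 : t.toZFSet ∈ c.toZFSet := (pair_mem_prod.1 (hf.1 h7)).1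
      refine ⟨(ξ, t), fun _ => ⟨hξ, (tzm.1 h12).trans_le hc, b, h7, h10.2, he.lt ξ hξ, tzm.1 h8,
        (tzm.1 h9).trans hz'⟩⟩
    · exact ⟨(0, 0), fun h => absurd h hi⟩
  choose p hp using hpick
  have hcard := card_step p (κ := κ) (ν := ν₀) (θ := m) (fun i hi => ⟨(hp i hi).1, (hp i hi).2.1⟩)
    (fun i hi i' hi' h => by
      obtain ⟨_, _, b, hb1, hb0, hbκ, hb2, hb3⟩ := hp i hi
      obtain ⟨_, _, b', hb1', _, _, hb2', hb3'⟩ := hp i' hi'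
      rw [← h] at hb1'
      obtain ⟨_, c, _, hf, _⟩ := hF2 _ hbκ hb0
      have hbb : b = b' := by
        have h2 := (pair_mem_prod.1 (hf.1 hb1)).1
        have h3 := (app_iff hf h2).1 hb1
        have h4 := (app_iff hf h2).1 hb1'
        exact Ordinal.toZFSet_injective (h3.symm.trans h4)
      rw [← hbb] at hb2' hb3'
      rcases lt_trichotomy i i' with h2 | h2 | h2
      · have h3 := hmono.monotone (Order.succ_le_of_lt h2)
        exact absurd ((hb3.trans_le h3).trans hb2') (lt_irrefl _)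
      · exact h2
      · have h3 := hmono.monotone (Order.succ_le_of_lt h2)
        exact absurd ((hb3'.trans_le h3).trans hb2) (lt_irrefl _))
  have hinf : Cardinal.aleph0 ≤ θ.card := by
    have := Ordinal.card_le_card hθ.om_lt.le
    rwa [Ordinal.card_omega0] at this
  by_cases h : ν₀ < θ
  · exfalso
    have h2 := Cardinal.mul_lt_of_lt hinf (IsCard.card_lt hθ.isCard h)
      (IsCard.card_lt hθ.isCard (hm2 h))
    exact absurd (hcard.trans_lt h2) (not_lt.2 (Ordinal.card_le_card hθκ))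
  · push Not at h
    refine hcard.trans ?_
    refine (mul_le_mul' le_rfl (Ordinal.card_le_card (hm1.trans h))).trans ?_
    rw [Cardinal.mul_eq_self (hinf.trans (Ordinal.card_le_card h))]

/-- Cofinalities below `k`. -/
theorem CovOmTo.cofTo {θ k : Ordinal.{u}} (hθ : RegUnc θ.toZFSet) (h : CovOmTo θ k) :
    CofTo θ k :=
  fun κ hκ hκk hr ν hν => big_cof_to hθ h hκ hκk hr hν

theorem CovOmTo.partTo {θ k : Ordinal.{u}} (h : CovOmTo θ k) : PartTo θ k := by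
  intro l hl hlk hr i hi0 hi
  refine split_of_sing hr ((statL_om hr hl).mono fun α hα hα' => ⟨hα'.2, ?_⟩) hi0 hi
  obtain ⟨c, hc, g, hg, hf, hcof⟩ := h α (hα.le.trans hlk) hα'.2
  exact ⟨_, tzm.2 (hc.trans hα'.1), g, hg, hf, hcof⟩

theorem CofTo.manySing {θ l : Ordinal.{u}} (hθ : RegUnc θ.toZFSet) (h : CofTo θ l) (hl : θ < l)
    (hr : RegUnc l.toZFSet) : ManySing l := by
  refine ⟨hr, (statL_om hr hl).mono fun α hα hα' => ⟨hα'.2, ?_⟩⟩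
  by_contra hcon
  have h1 := h α hα'.1.le hα.le ⟨hα'.2.lim.1, hα'.2.lim.2, hcon⟩ Ordinal.omega0
    (cofN_om.2 hα'.2)
  have h2 := (IsCard.card_lt hθ.isCard hθ.om_lt).trans_le (Ordinal.card_le_card hα'.1.le)
  exact absurd h1 (not_le.2 h2)

theorem split_of_part {k l : Ordinal.{u}}
    (h : ∃ g, HOD g ∧ IsPart k.toZFSet l.toZFSet g) : Split k l := by
  obtain ⟨g, hg, hp⟩ := h
  exact ⟨g, hg, hp.fam (isOrdinal_toZFSet _)⟩

theorem split_of_manySing {l : Ordinal.{u}} (h : ManySing l) : Split l l := by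
  have h0 : (0 : Ordinal.{u}) < l := h.1.pos
  exact split_of_part (split_of_sing h.1 h.2 h0 le_rfl)

theorem Split.down {θ k l l' : Ordinal.{u}} (hθ : RegUnc θ.toZFSet) {μ : Ordinal.{u}}
    (hμ : Ordinal.omega0 < μ) (hR : Refl μ θ l) (h : Split k l) (hl' : θ < l') (hk : l' ≤ k)
    (hr : RegUnc l'.toZFSet) : Split l' l' :=
  split_of_part (((covSetsTo_of_split hR h).covOmTo hμ hθ.isCard).partTo l' hl' hk hr l'
    hr.pos le_rfl)

end Pool.Agent.H639
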