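import Pool.Agent.H639.Ref6
import Pool.Agent.Results.MP_dbe07f_lc.SilverTheorem

/-!
The first regular cardinal at which HOD does not split the points of cofinality `ω`.
-/

set_option autoImplicit false
set_option linter.unusedVariables false

namespace Pool.Agent.H639

open Pool.Agent.H310.HD Gss969 ZFSet Pool.Agent.Results.MP_e37c09_lc.AlternativeA
open Pool.Agent.Results.MP_dbe07f_lc.CofinalitySpectrum (RegAt InfCard)
open Pool.Agent.Results.MP_dbe07f_lc.SilverTheorem (regAt_lt regAt_of)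

universe u

theorem card_le_of_onto {a b : Ordinal.{u}} {f : ZFSet.{u}} (hf : IsFunc a.toZFSet b.toZFSet f)
    (hfo : ∀ y ∈ b.toZFSet, ∃ x ∈ a.toZFSet, pair x y ∈ f) : b.card ≤ a.card := by
  obtain ⟨G, hG1, hG2⟩ := exists_og hf
  have h11 : ∀ y : Set.Iio b, ∃ x : Set.Iio a, G x.1 = y.1 := by
    intro y
    obtain ⟨x, hx, h12⟩ := hfo _ (tzm.2 y.2)
    obtain ⟨x, hx', rfl⟩ := Ordinal.mem_toZFSet_iff.1 hx
    exact ⟨⟨x, hx'⟩, Ordinal.toZFSet_injective ((hG2 x hx' _).1 h12)⟩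
  choose F hF using h11
  have hinj : Function.Injective F := fun y y' h12 => by
    apply Subtype.ext
    rw [← hF y, ← hF y', h12]
  have h12 := Cardinal.mk_le_of_injective hinj
  rwa [Cardinal.mk_Iio_ordinal, Cardinal.mk_Iio_ordinal, Cardinal.lift_le] at h12

theorem exists_infCard {y : Ordinal.{u}} (hy : Ordinal.omega0 ≤ y) :
    ∃ γ ≤ y, InfCard γ ∧ γ.card = y.card := by
  obtain ⟨γ, h1, hmin⟩ := WellFounded.has_min (wellFounded_lt (α := Ordinal.{u}))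
    {γ | γ.card = y.card} ⟨y, rfl⟩
  have h1' : γ.card = y.card := h1
  refine ⟨γ, not_lt.1 (hmin y rfl), ⟨⟨isOrdinal_toZFSet _, fun m hm f hf => ?_⟩, ?_⟩, h1⟩
  · by_contra hcon
    push Not at hcon
    obtain ⟨m, hm', rfl⟩ := Ordinal.mem_toZFSet_iff.1 hm
    have h2 := card_le_of_onto hf hcon
    exact hmin m (show m.card = y.card from (le_antisymm (Ordinal.card_le_card hm'.le) h2).trans h1')
      hm'
  · by_contra hcon
    push Not at hcon
    have h2 : γ.card < Cardinal.aleph0 := Ordinal.card_lt_aleph0.2 hcon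
    have h3 := Ordinal.card_le_card hy
    rw [Ordinal.card_omega0, ← h1'] at h3
    exact absurd h2 (not_lt.2 h3)

theorem InfCard_lim {γ : Ordinal.{u}} (h1 : InfCard γ) : ∀ y < γ, Order.succ y < γ := by
  intro y hy
  by_contra hcon
  push Not at hcon
  have h9 : γ = Order.succ y := le_antisymm hcon (Order.succ_le_of_lt hy)
  have h10 : y.card < γ.card := IsCard.card_lt h1.1 hy
  have h11 : Cardinal.aleph0 ≤ γ.card := by
    rw [← Ordinal.card_omega0]
    exact Ordinal.card_le_card h1.2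
  rw [h9, Order.succ_eq_add_one, Ordinal.card_add_one] at h10 h11
  rcases lt_or_ge y.card Cardinal.aleph0 with h12 | h12
  · exact absurd (Cardinal.add_lt_aleph0 h12 Cardinal.one_lt_aleph0) (not_lt.2 h11)
  · rw [Cardinal.add_one_eq h12] at h10
    exact absurd h10 (lt_irrefl _)

theorem succ_le_card {γ l c : Ordinal.{u}} (hl : IsSuccCard γ.toZFSet l.toZFSet)
    (hc : IsCard c.toZFSet) (hγc : γ < c) : l ≤ c := by
  by_contra hcon
  push Not at hcon
  obtain ⟨f, hf, hfo⟩ := hl.2.2 c.toZFSet (tzm.2 hcon) ⟨_, tzm.2 (bot_le.trans_lt hγc), rfl⟩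
  exact absurd (card_le_of_onto hf hfo) (not_le.2 (IsCard.card_lt hc hγc))

theorem succ_unique {γ l l' : Ordinal.{u}} (hl : IsSuccCard γ.toZFSet l.toZFSet)
    (hl' : IsSuccCard γ.toZFSet l'.toZFSet) : l = l' :=
  le_antisymm (succ_le_card hl hl'.1 (tzm.1 hl'.2.1)) (succ_le_card hl' hl.1 (tzm.1 hl.2.1))

theorem regUnc_of_succ {γ l : Ordinal.{u}} (hγ : IsCard γ.toZFSet) (hω : Ordinal.omega0 < γ)
    (hl : IsSuccCard γ.toZFSet l.toZFSet) : RegUnc l.toZFSet := by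
  obtain ⟨l₁, _, h2, h3⟩ := exists_succ hγ hω
  rwa [succ_unique hl h3]

/-- The least regular `c > θ` without a splitting is a successor cardinal. -/
theorem exists_pred {μ θ c : Ordinal.{u}} (hμ : Ordinal.omega0 < μ) (hθ : RegUnc θ.toZFSet)
    (hR : ∀ l > θ, RegUnc (Ordinal.toZFSet l) → Refl μ θ l) (hc : θ < c) (hrc : RegUnc c.toZFSet)
    (hs : ¬ Split c c) (hmin : ∀ l > θ, l < c → RegUnc (Ordinal.toZFSet l) → Split l l) :
    ∃ γ ≥ θ, InfCard γ ∧ IsSuccCard γ.toZFSet c.toZFSet := by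
  have h1 : ∃ y ≥ θ, y < c ∧ ∀ l > y, l < c → ¬ RegUnc (Ordinal.toZFSet l) := by
    by_contra hcon
    push Not at hcon
    refine hs (split_of_manySing ⟨hrc, (statL_om hrc hc).mono fun α hα hα' => ⟨hα'.2, ?_⟩⟩)
    obtain ⟨l, hl1, hl2, hl3⟩ := hcon α hα'.1.le hα
    have hθl : θ < l := hα'.1.trans hl1
    obtain ⟨c', hc', g, hg, hf, hcof⟩ := (covSetsTo_of_split (hR l hθl hl3)
      (hmin l hθl hl2 hl3)).covOmTo hμ hθ.isCard α hl1.le hα'.2
    exact ⟨_, tzm.2 (hc'.trans hα'.1), g, hg, hf, hcof⟩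
  obtain ⟨y, hθy, hyc, hy⟩ := h1
  obtain ⟨γ, hγy, hγ, hcard⟩ := exists_infCard (hθ.om_lt.le.trans hθy)
  have hθγ : θ ≤ γ := by
    by_contra hcon
    push Not at hcon
    have h2 := (IsCard.card_lt hθ.isCard hcon).trans_le (Ordinal.card_le_card hθy)
    rw [hcard] at h2
    exact absurd h2 (lt_irrefl _)
  obtain ⟨l₁, hl1, hr1, hsucc⟩ := exists_succ hγ.1 (hθ.om_lt.trans_le hθγ)
  have h2 : l₁ ≤ c := succ_le_card hsucc hrc.isCard (hγy.trans_lt hyc)
  have h3 : ¬ l₁ < c := by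
    intro h3
    refine hy l₁ ?_ h3 hr1
    by_contra hcon
    push Not at hcon
    have h4 := (IsCard.card_lt hr1.isCard hl1).trans_le (Ordinal.card_le_card hcon)
    rw [hcard] at h4
    exact absurd h4 (lt_irrefl _)
  rw [← le_antisymm h2 (not_lt.1 h3)]
  exact ⟨γ, hθγ, hγ, hsucc⟩

/-- It is the successor of a regular cardinal or of a cardinal of cofinality `ω`. -/
theorem pred_cof {μ θ c γ : Ordinal.{u}} (hμ : Ordinal.omega0 < μ) (hθ : RegUnc θ.toZFSet)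
    (hR : ∀ l > θ, RegUnc (Ordinal.toZFSet l) → Refl μ θ l) (hc : θ < c) (hrc : RegUnc c.toZFSet)
    (hs : ¬ Split c c) (hmin : ∀ l > θ, l < c → RegUnc (Ordinal.toZFSet l) → Split l l)
    (hθγ : θ ≤ γ) (hγ : InfCard γ) (hsucc : IsSuccCard γ.toZFSet c.toZFSet) :
    RegUnc γ.toZFSet ∨ IsSing γ.toZFSet ∧ CofOm γ.toZFSet := by
  rcases hθγ.lt_or_eq with hlt | heq
  swap
  · rw [← heq]
    exact Or.inl hθ
  have hωγ : Ordinal.omega0 < γ := hθ.om_lt.trans hlt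
  obtain ⟨ν, hν, hcof⟩ := exists_isCof (InfCard_lim hγ)
  rcases hν.lt_or_eq with hνγ | hνγ
  swap
  · rw [hνγ] at hcof
    exact Or.inl (regUnc_of_min (InfCard_lim hγ) hcof.1 hcof.2 hωγ)
  have h4 := (hcof.isReg (bot_le.trans_lt hωγ) (InfCard_lim hγ)).omega_le
  rcases h4.lt_or_eq with h5 | h5
  swap
  · rw [← h5] at hcof
    exact Or.inr ⟨Pool.Agent.Results.MP_dbe07f_lc.SilverTheorem.isSing_of hγ.1 hωγ hcof hωγ,
      cofOm_iff.2 hcof⟩
  exfalso
  have hγc : γ < c := tzm.1 hsucc.2.1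
  refine hs (split_of_manySing ⟨hrc, (statL_om hrc hγc).mono fun α hα hα' => ⟨hα'.2, ?_⟩⟩)
  by_contra hcon
  have hr : RegAt γ α := regAt_of hsucc ⟨hα'.2.lim.1, hα'.2.lim.2, hcon⟩ hα'.1.le hα
  obtain ⟨m, hm, hmγ, h6, _, κ, h8, _⟩ :=
    Pool.Agent.Results.MP_dbe07f_lc.SilverTheorem.part3 (θ := θ) ⟨hγ, hcof, h5, hνγ⟩ hr hlt
  obtain ⟨l, hl, hlr, hls⟩ := exists_succ h6.1 (by
    have := h6.2.1
    unfold om at this
    exact tzm.1 this)
  have hlγ : l ≤ γ := succ_le_card hls hγ.1 hmγ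
  have hθl : θ < l := hm.trans hl
  have h9 := ((covSetsTo_of_split (hR l hθl hlr) (hmin l hθl (hlγ.trans_lt hγc) hlr)).covOmTo hμ
    hθ.isCard).cofTo hθ
  have hκl := regAt_lt h8 hls
  exact no_reg h6 h8.2.1 hls hκl h8.1 (h9 κ (hm.le.trans h8.2.1) hκl.le h8.1)

end Pool.Agent.H639
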