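import Pool.Agent.H639.Ref7

/-!
Simultaneous reflection of stationary sets from fine `μ`-complete ultrafilters on `P_θ(l)`.
-/

set_option autoImplicit false
set_option linter.unusedVariables false

namespace Pool.Agent.H639

open Pool.Agent.H310.HD Gss969 ZFSet Pool.Agent.Results.MP_e37c09_lc.AlternativeA
open Pool.Agent.Results.MP_dbe07f_lc.CofinalitySpectrum (RegAt InfCard)

universe u

/-- There is a fine `μ`-complete ultrafilter on the set of subsets of `l` with fewer than `θ`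
elements; it is given as a `μ`-complete ultrafilter `U` on a set `I` and sets of ordinals `σ i` with
fewer than `θ` elements, such that each `β < l` is in `σ i` for `U`-almost all `i`. -/
def FineUlt (μ θ l : Ordinal.{u}) : Prop :=
  ∃ (I : Type u) (U : Ultrafilter I) (σ : I → Set Ordinal.{u}),
    (∀ i, ∃ ν < θ, ∃ g : Ordinal.{u} → Ordinal.{u}, ∀ y ∈ σ i, ∃ x < ν, g x = y) ∧
    (∀ β < l, ∀ᶠ i in (U : Filter I), β ∈ σ i) ∧
    ∀ m < μ, ∀ A : Ordinal.{u} → Set I, (∀ x < m, A x ∈ U) → {i | ∀ x < m, i ∈ A x} ∈ U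

theorem not_cofN {ν l : Ordinal.{u}} (hl : RegUnc l.toZFSet) (hν : ν < l) :
    ¬ CofN ν.toZFSet l.toZFSet := by
  rintro ⟨F, hF, hFc⟩
  obtain ⟨b, hb, h1⟩ := hl.2.2 _ (tzm.2 hν) F hF
  obtain ⟨n, hn, y, hy, h2, h3⟩ := hFc b hb
  exact mem_asymm (h1 n hn y hy h2) h3

theorem FineUlt.refl {μ θ l : Ordinal.{u}} (hμ : Ordinal.omega0 < μ) (hl : θ < l)
    (hr : RegUnc l.toZFSet) (h : FineUlt μ θ l) : Refl μ θ l := by
  classical
  obtain ⟨I, U, σ, hσ, hfine, hcomp⟩ := h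
  have hlim : ∀ x < l, Order.succ x < l := InfCard_lim ⟨hr.isCard, hr.om_lt.le⟩
  -- countable completeness
  have hcc : ∀ P : ℕ → I → Prop, (∀ n, ∀ᶠ i in (U : Filter I), P n i) →
      ∀ᶠ i in (U : Filter I), ∀ n, P n i := by
    intro P hP
    have h1 := hcomp Ordinal.omega0 hμ (fun x => {i | ∀ n : ℕ, x = n → P n i}) (by
      intro x hx
      obtain ⟨n, rfl⟩ := Ordinal.lt_omega0.1 hx
      refine Filter.mem_of_superset (hP n) fun i hi n' hn' => ?_
      have h2 : n = n' := by exact_mod_cast hn'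
      rw [← h2]
      exact hi)
    refine Filter.mem_of_superset h1 fun i hi n => ?_
    exact hi n (Ordinal.natCast_lt_omega0 n) n rfl
  -- well-foundedness
  have hwf : WellFounded (fun g f : I → Ordinal.{u} => ∀ᶠ i in (U : Filter I), g i < f i) := by
    rw [wellFounded_iff_isEmpty_descending_chain]
    refine ⟨fun ⟨f, hf⟩ => ?_⟩
    obtain ⟨i, hi⟩ := (hcc (fun n i => f (n + 1) i < f n i) hf).exists
    exact (wellFounded_iff_isEmpty_descending_chain.1 (wellFounded_lt (α := Ordinal.{u}))).elim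
      ⟨fun n => f n i, hi⟩
  obtain ⟨f, hf, hmin⟩ := hwf.has_min {f | ∀ β < l, ∀ᶠ i in (U : Filter I), β < f i}
    ⟨fun _ => l, fun β hβ => Filter.Eventually.of_forall fun _ => hβ⟩
  have hbd : ∀ g : I → Ordinal.{u}, (∀ᶠ i in (U : Filter I), g i < f i) →
      ∃ β < l, ∀ᶠ i in (U : Filter I), g i ≤ β := by
    intro g hg
    by_contra hcon
    push Not at hcon
    exact hmin g (fun β hβ => hcon β hβ) hg
  have hfl : ∀ᶠ i in (U : Filter I), f i ≤ l := by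
    by_contra hcon
    have h1 := Ultrafilter.eventually_not.2 hcon
    exact hmin (fun _ => l) (fun β hβ => Filter.Eventually.of_forall fun _ => hβ)
      (h1.mono fun i hi => not_le.1 hi)
  have hcof : ∀ᶠ i in (U : Filter I), ∀ y < f i, ∃ x ∈ σ i, y < x ∧ x < f i := by
    by_contra hcon
    have h1 := Ultrafilter.eventually_not.2 hcon
    have h2 : ∀ i, ∃ y, (¬ ∀ y < f i, ∃ x ∈ σ i, y < x ∧ x < f i) →
        y < f i ∧ ∀ x ∈ σ i, y < x → f i ≤ x := by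
      intro i
      by_cases h3 : ∀ y < f i, ∃ x ∈ σ i, y < x ∧ x < f i
      · exact ⟨0, fun h4 => absurd h3 h4⟩
      · push Not at h3
        obtain ⟨y, hy, h4⟩ := h3
        exact ⟨y, fun _ => ⟨hy, h4⟩⟩
    choose g hg using h2
    obtain ⟨β, hβ, h3⟩ := hbd g (h1.mono fun i hi => (hg i hi).1)
    obtain ⟨i, hi, h4, h5, h6⟩ := (h1.and (h3.and ((hfine _ (hlim β hβ)).and
      (hf _ (hlim β hβ))))).exists
    exact absurd h6 (not_lt.2 ((hg i hi).2 _ h5 (h4.trans_lt (Order.lt_succ β))))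
  have hcof' : ∀ᶠ i in (U : Filter I), ∃ ν < θ, CofN ν.toZFSet (f i).toZFSet := by
    filter_upwards [hcof, hf 0 (bot_le.trans_lt hl)] with i hi h0
    obtain ⟨ν, hν, g, hg⟩ := hσ i
    refine ⟨ν, hν, cofN_of (G := fun x => if g x < f i then g x else 0) (fun x _ => ?_)
      fun y hy => ?_⟩
    · show (if g x < f i then g x else 0) < f i
      split_ifs with h1
      · exact h1
      · exact h0
    · obtain ⟨z, hz, h1, h2⟩ := hi y hy
      obtain ⟨x, hx, rfl⟩ := hg z hz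
      refine ⟨x, hx, ?_⟩
      show y < if g x < f i then g x else 0
      rw [if_pos h2]
      exact h1
  have hflt : ∀ᶠ i in (U : Filter I), f i < l := by
    filter_upwards [hfl, hcof'] with i h1 h2
    rcases h1.lt_or_eq with h3 | h3
    · exact h3
    · obtain ⟨ν, hν, h4⟩ := h2
      rw [h3] at h4
      exact absurd h4 (not_cofN hr (hν.trans hl))
  -- one stationary set
  have hmain : ∀ S : Set Ordinal.{u}, StatL S l → (∀ a ∈ S, CofOm a.toZFSet) →
      ∀ᶠ i in (U : Filter I), StatL S (f i) := by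
    intro S hS hSo
    by_contra hcon
    have h1 := Ultrafilter.eventually_not.2 hcon
    have h2 : ∀ i, ∃ C : ZFSet.{u}, (¬ StatL S (f i)) →
        C ⊆ (f i).toZFSet ∧ Club C (f i).toZFSet ∧ ∀ α < f i, α ∈ S → ¬ α.toZFSet ∈ C := by
      intro i
      by_cases h3 : StatL S (f i)
      · exact ⟨∅, fun h4 => absurd h3 h4⟩
      · have h3' := h3
        unfold StatL at h3
        push Not at h3
        obtain ⟨C, hC1, hC2, hC3⟩ := h3
        exact ⟨C, fun _ => ⟨hC1, hC2, hC3⟩⟩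
    choose C hC using h2
    have hC' : ∀ᶠ i in (U : Filter I), C i ⊆ (f i).toZFSet ∧ Club (C i) (f i).toZFSet ∧
        ∀ α < f i, α ∈ S → ¬ α.toZFSet ∈ C i := h1.mono fun i hi => hC i hi
    have step : ∀ ξ < l, ∃ β < l, ξ < β ∧ ∀ᶠ i in (U : Filter I),
        ∃ c : Ordinal.{u}, c.toZFSet ∈ C i ∧ ξ < c ∧ c ≤ β ∧ c < f i := by
      intro ξ hξ
      have h3 : ∀ᶠ i in (U : Filter I), ∃ c : Ordinal.{u}, c.toZFSet ∈ C i ∧ ξ < c ∧ c < f i := by
        filter_upwards [hC', hf ξ hξ] with i hi h4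
        obtain ⟨c, hc, h5⟩ := hi.2.1.2.1 _ (tzm.2 h4)
        obtain ⟨c, hc', rfl⟩ := Ordinal.mem_toZFSet_iff.1 (hi.1 hc)
        exact ⟨c, hc, tzm.1 h5, hc'⟩
      have h4 : ∀ i, ∃ c : Ordinal.{u},
          (∃ c : Ordinal.{u}, c.toZFSet ∈ C i ∧ ξ < c ∧ c < f i) →
          c.toZFSet ∈ C i ∧ ξ < c ∧ c < f i := by
        intro i
        by_cases h5 : ∃ c : Ordinal.{u}, c.toZFSet ∈ C i ∧ ξ < c ∧ c < f i
        · obtain ⟨c, hc⟩ := h5
          exact ⟨c, fun _ => hc⟩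
        · exact ⟨0, fun h6 => absurd h6 h5⟩
      choose g hg using h4
      obtain ⟨β, hβ, h5⟩ := hbd g (h3.mono fun i hi => (hg i hi).2.2)
      refine ⟨β, hβ, ?_, ?_⟩
      · obtain ⟨i, h6, h7⟩ := (h3.and h5).exists
        exact (hg i h6).2.1.trans_le h7
      · filter_upwards [h3, h5] with i h6 h7
        exact ⟨g i, (hg i h6).1, (hg i h6).2.1, h7, (hg i h6).2.2⟩
    have hD : ∀ ξ < l, ∃ α < l, ξ < α ∧ ∀ᶠ i in (U : Filter I), α.toZFSet ∈ C i := by
      choose! M hM1 hM2 hM3 using step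
      intro ξ hξ
      let G : ℕ → Ordinal.{u} := fun n => Nat.rec ξ (fun _ γ => M γ) n
      have hG : ∀ n, G n < l := by
        intro n
        induction n with
        | zero => exact hξ
        | succ n ih => exact hM1 _ ih
      obtain ⟨α, hα, h3, h4, _⟩ := exists_sup hr hG fun n => hM2 _ (hG n)
      refine ⟨α, hα, h3 0, ?_⟩
      filter_upwards [hcc (fun n i => ∃ c : Ordinal.{u}, c.toZFSet ∈ C i ∧ G n < c ∧
        c ≤ G (n + 1) ∧ c < f i) fun n => hM3 _ (hG n), hf α hα, hC'] with i h5 h6 h7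
      refine h7.2.1.2.2 _ (tzm.2 h6) ⟨_, tzm.2 (h3 0), rfl⟩ fun y hy => ?_
      obtain ⟨y, hy', rfl⟩ := Ordinal.mem_toZFSet_iff.1 hy
      obtain ⟨n, hn⟩ := h4 y hy'
      obtain ⟨c, hc, h8, h9, _⟩ := h5 n
      exact ⟨_, hc, tzm.2 (h9.trans_lt (h3 (n + 1))), tzm.2 (hn.trans h8)⟩
    -- the limits of the set in `hD`
    obtain ⟨E, hE⟩ : ∃ E : ZFSet.{u}, E = ZFSet.sep (fun x => ∀ y ∈ x, ∃ d ∈ x, y ∈ d ∧
        ∃ β : Ordinal.{u}, d = β.toZFSet ∧ ∀ᶠ i in (U : Filter I), β.toZFSet ∈ C i)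
        l.toZFSet := ⟨_, rfl⟩
    have hE' : ∀ x, x ∈ E ↔ x ∈ l.toZFSet ∧ ∀ y ∈ x, ∃ d ∈ x, y ∈ d ∧
        ∃ β : Ordinal.{u}, d = β.toZFSet ∧ ∀ᶠ i in (U : Filter I), β.toZFSet ∈ C i := by
      intro x; rw [hE, mem_sep]
    have hEclub : Club E l.toZFSet := by
      refine ⟨fun x hx => ((hE' x).1 hx).1, fun x hx => ?_, fun a ha hne hlim' => ?_⟩
      · obtain ⟨ξ, hξ, rfl⟩ := Ordinal.mem_toZFSet_iff.1 hx
        choose! N hN1 hN2 hN3 using hD
        let G : ℕ → Ordinal.{u} := fun n => Nat.rec ξ (fun _ γ => N γ) n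
        have hG : ∀ n, G n < l := by
          intro n
          induction n with
          | zero => exact hξ
          | succ n ih => exact hN1 _ ih
        obtain ⟨α, hα, h3, h4, _⟩ := exists_sup hr hG fun n => hN2 _ (hG n)
        refine ⟨α.toZFSet, (hE' _).2 ⟨tzm.2 hα, fun y hy => ?_⟩, tzm.2 (h3 0)⟩
        obtain ⟨y, hy', rfl⟩ := Ordinal.mem_toZFSet_iff.1 hy
        obtain ⟨n, hn⟩ := h4 y hy'
        exact ⟨(G (n + 1)).toZFSet, tzm.2 (h3 (n + 1)), tzm.2 (hn.trans (hN2 _ (hG n))), _, rfl,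
          hN3 _ (hG n)⟩
      · refine (hE' a).2 ⟨ha, fun y hy => ?_⟩
        obtain ⟨c, hc, hca, hyc⟩ := hlim' y hy
        obtain ⟨a, ha', rfl⟩ := Ordinal.mem_toZFSet_iff.1 ha
        obtain ⟨d, hd, hyd, h3⟩ := ((hE' c).1 hc).2 y hyc
        exact ⟨d, (isOrdinal_toZFSet a).mem_trans hd hca, hyd, h3⟩
    obtain ⟨β, hβ, hβS, hβE⟩ := hS E hEclub.1 hEclub
    obtain ⟨G, hG1, hG2⟩ := exists_of_cofN (cofN_om.2 (hSo β hβS))
    have h3 := ((hE' _).1 hβE).2
    have h4 : ∀ n : ℕ, ∃ d < β, G n < d ∧ ∀ᶠ i in (U : Filter I), d.toZFSet ∈ C i := by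
      intro n
      obtain ⟨d, hd, h5, d', rfl, h6⟩ := h3 _ (tzm.2 (hG1 n (Ordinal.natCast_lt_omega0 n)))
      exact ⟨d', tzm.1 hd, tzm.1 h5, h6⟩
    choose d hd1 hd2 hd3 using h4
    obtain ⟨i, h5, h6, h7⟩ := ((hcc (fun n i => (d n).toZFSet ∈ C i) hd3).and
      ((hf β hβ).and hC')).exists
    refine h7.2.2 β h6 hβS (h7.2.1.2.2 _ (tzm.2 h6) ⟨_, tzm.2 (hd1 0), rfl⟩ fun y hy => ?_)
    obtain ⟨y, hy', rfl⟩ := Ordinal.mem_toZFSet_iff.1 hy
    obtain ⟨x, hx, h8⟩ := hG2 y hy'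
    obtain ⟨n, rfl⟩ := Ordinal.lt_omega0.1 hx
    exact ⟨_, h5 n, tzm.2 (hd1 n), tzm.2 (h8.trans (hd2 n))⟩
  intro m hm S hS
  have h1 : ∀ᶠ i in (U : Filter I), ∀ x < m, StatL (S x) (f i) :=
    hcomp m hm (fun x => {i | StatL (S x) (f i)}) fun x hx => hmain _ (hS x hx).1 (hS x hx).2
  obtain ⟨i, h2, h3, h4⟩ := (h1.and (hflt.and hcof')).exists
  exact ⟨f i, h3, h4, h2⟩

end Pool.Agent.H639
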