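import Pool.Agent.H639.Ref4

/-!
Ketonen's argument for an arbitrary stationary set of ordinals which are singular in HOD: if for
stationary many `x < κ` there is a cofinal function in HOD from an ordinal `≤ m` to `x`, and `κ` is
regular in HOD and of uncountable cofinality, then `|κ| ≤ cf(κ) · |m|`.
-/

set_option autoImplicit false
set_option linter.unusedVariables false

namespace Pool.Agent.H639

open Pool.Agent.H310.HD Gss969 ZFSet Pool.Agent.Results.MP_e37c09_lc.AlternativeA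

universe u

variable {ν κ : Ordinal.{u}} {e : Ordinal.{u} → Ordinal.{u}}

theorem Nrm.le_iff (he : Nrm ν κ e) {ξ ζ : Ordinal.{u}} : e ζ ≤ e ξ ↔ ζ ≤ ξ := by
  constructor
  · intro h
    by_contra hcon
    push Not at hcon
    exact absurd (he.mono _ _ hcon) (not_lt.2 h)
  · intro h
    rcases h.lt_or_eq with h | h
    · exact (he.mono _ _ h).le
    · rw [h]

theorem Nrm.lt_iff (he : Nrm ν κ e) {ξ ζ : Ordinal.{u}} : e ζ < e ξ ↔ ζ < ξ :=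
  ⟨he.inj, he.mono _ _⟩

/-- The image of a club. -/
theorem Nrm.club_im (he : Nrm ν κ e) {C : ZFSet.{u}} (hC : Club C ν.toZFSet) :
    Club (ZFSet.sep (fun x => ∃ ξ < ν, ξ.toZFSet ∈ C ∧ x = (e ξ).toZFSet) κ.toZFSet) κ.toZFSet := by
  obtain ⟨h1, h2, h3⟩ := hC
  refine ⟨fun x hx => (mem_sep.1 hx).1, fun x hx => ?_, fun a ha hne hlim => ?_⟩
  · obtain ⟨y, hy, rfl⟩ := Ordinal.mem_toZFSet_iff.1 hx
    obtain ⟨ξ, hξ, h4⟩ := he.cof y hy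
    obtain ⟨c, hc, hc'⟩ := h2 _ (tzm.2 hξ)
    obtain ⟨c, hcν, rfl⟩ := Ordinal.mem_toZFSet_iff.1 (h1 hc)
    exact ⟨(e c).toZFSet, mem_sep.2 ⟨tzm.2 (he.lt c hcν), c, hcν, hc, rfl⟩,
      tzm.2 (h4.trans (he.mono _ _ (tzm.1 hc')))⟩
  · have h4 : a ∈ ZFSet.sep (fun x => ∃ ξ < ν, x = (e ξ).toZFSet) κ.toZFSet := by
      refine he.club.2.2 a ha hne fun x hx => ?_
      obtain ⟨c, hc, hca, hxc⟩ := hlim x hx
      obtain ⟨hcκ, ξ, hξ, _, rfl⟩ := mem_sep.1 hc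
      exact ⟨_, mem_sep.2 ⟨hcκ, ξ, hξ, rfl⟩, hca, hxc⟩
    obtain ⟨_, ξ, hξ, rfl⟩ := mem_sep.1 h4
    refine mem_sep.2 ⟨ha, ξ, hξ, h3 _ (tzm.2 hξ) ?_ fun x hx => ?_, rfl⟩
    · obtain ⟨x, hx, _⟩ := hne
      obtain ⟨c, hc, hca, _⟩ := hlim x hx
      obtain ⟨_, ζ, _, _, rfl⟩ := mem_sep.1 hc
      exact ⟨ζ.toZFSet, tzm.2 (he.inj (tzm.1 hca)), rfl⟩
    · obtain ⟨x, hx', rfl⟩ := Ordinal.mem_toZFSet_iff.1 hx
      obtain ⟨c, hc, hca, hxc⟩ := hlim _ (tzm.2 (he.mono _ _ hx'))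
      obtain ⟨_, ζ, _, hζ, rfl⟩ := mem_sep.1 hc
      exact ⟨_, hζ, tzm.2 (he.inj (tzm.1 hca)), tzm.2 (he.inj (tzm.1 hxc))⟩

/-- Preimages of stationary sets are stationary. -/
theorem Nrm.statR (he : Nrm ν κ e) {S : Set Ordinal.{u}} (h : StatL S κ) :
    StatL {ξ | e ξ ∈ S} ν := by
  intro C hC1 hC2
  obtain ⟨α, hα, h1, h2⟩ := h _ sep_subset (he.club_im hC2)
  obtain ⟨_, ξ, hξ, h3, h4⟩ := mem_sep.1 h2
  rw [Ordinal.toZFSet_injective h4] at h1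
  exact ⟨ξ, hξ, h1, h3⟩

/-- Fodor's lemma for ordinals of uncountable cofinality. -/
theorem Nrm.fodorS (he : Nrm ν κ e) (hν : RegUnc ν.toZFSet) {S : Set Ordinal.{u}}
    (hS : StatL S κ) {y : Ordinal.{u}} (hy : y < κ)
    (b : Ordinal.{u} → Ordinal.{u}) (hb : ∀ x ∈ S, y < x → x < κ → b x < x) :
    ∃ z < κ, StatL {x | x ∈ S ∧ y < x ∧ b x < z} κ := by
  obtain ⟨ξ₀, hξ₀, h1⟩ := he.cof y hy
  have h2 : StatL {ξ | e ξ ∈ S ∧ ξ₀ < ξ} ν := (he.statR hS).tail hν hξ₀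
  have h3 : ∀ ξ, ∃ ζ, ξ < ν → ξ₀ < ξ → e ξ ∈ S → ζ < ξ ∧ b (e ξ) < e (Order.succ ζ) := by
    intro ξ
    by_cases h : ξ < ν ∧ ξ₀ < ξ ∧ e ξ ∈ S
    · obtain ⟨ζ, hζ, h4⟩ := he.cont ξ (b (e ξ)) (hb _ h.2.2 (h1.trans (he.mono _ _ h.2.1))
        (he.lt ξ h.1))
      exact ⟨ζ, fun _ _ _ => ⟨hζ, h4⟩⟩
    · exact ⟨0, fun h4 h5 h6 => absurd ⟨h4, h5, h6⟩ h⟩
  choose Z hZ using h3
  obtain ⟨ζ, hζ, h4⟩ := Pool.Agent.H310.HD.fodor hν (f := fun ξ => min (Z ξ) (if Z ξ < ξ then Z ξ else 0)) h2 (by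
    rintro ξ ⟨h5, h6⟩ h7
    have h8 := hZ ξ h7 h6 h5
    simp only [h8.1, if_true, min_self])
  refine ⟨e (Order.succ ζ), he.lt _ (he.lim _ hζ), he.statL hν (h4.mono ?_)⟩
  rintro ξ hξ ⟨⟨h5, h6⟩, h7⟩
  have h8 := hZ ξ hξ h6 h5
  simp only [h8.1, if_true, min_self] at h7
  refine ⟨h5, h1.trans (he.mono _ _ h6), ?_⟩
  rw [← h7]
  exact h8.2

/-- The ordinals with a cofinal function in HOD from an ordinal `≤ m`. -/
def SmallCof (m : Ordinal.{u}) : Set Ordinal.{u} :=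
  {x | ∃ c ≤ m, ∃ g, HOD g ∧ Cofi (Ordinal.toZFSet c) x.toZFSet g}

/-- **Ketonen's argument.** -/
theorem ket_ns {κ ν₀ m : Ordinal.{u}} (hκ : HODReg κ) (h1 : CofN ν₀.toZFSet κ.toZFSet)
    (hmin : ∀ ν' < ν₀, ¬ CofN ν'.toZFSet κ.toZFSet) (hom : ¬ CofOm κ.toZFSet)
    (hst : StatL (SmallCof m) κ) : κ.card ≤ ν₀.card * m.card := by
  classical
  obtain ⟨hκ0, hκlim, hreg⟩ := hκ
  obtain ⟨e, he⟩ := exists_nrm hκlim h1 hmin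
  have hων := om_lt_min he hκ0 hom h1
  have hrν := regUnc_of_min hκlim h1 hmin hων
  obtain ⟨θ, hθ⟩ : ∃ θ : Ordinal.{u}, θ = Order.succ m := ⟨_, rfl⟩
  have hθm : ∀ c : Ordinal.{u}, c < θ ↔ c ≤ m := fun c => by rw [hθ]; exact Order.lt_succ_iff
  obtain ⟨Q, hQ⟩ : ∃ Q : ZFSet.{u}, Q = Ph (prod θ.toZFSet κ.toZFSet) := ⟨_, rfl⟩
  have hQH : HOD Q := by
    rw [hQ]
    exact HOD_Ph (HOD_prod (HOD_ord θ) (HOD_ord κ))
  have hQm : ∀ (x c : Ordinal.{u}) (g : ZFSet.{u}), x < κ → c < θ → HOD g →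
      Cofi c.toZFSet x.toZFSet g → g ∈ Q := by
    intro x c g hx hc hg hg'
    rw [hQ, mem_Ph]
    refine ⟨fun q hq => ?_, hg⟩
    obtain ⟨a, ha, b, hb, rfl⟩ := mem_prod.1 (hg'.1.1 hq)
    obtain ⟨a, ha', rfl⟩ := Ordinal.mem_toZFSet_iff.1 ha
    obtain ⟨b, hb', rfl⟩ := Ordinal.mem_toZFSet_iff.1 hb
    exact pair_mem_prod.2 ⟨tzm.2 (ha'.trans hc), tzm.2 (hb'.trans hx)⟩
  -- the chosen functions
  obtain ⟨A, hA⟩ : ∃ A : ZFSet.{u}, A = ZFSet.sep (fun x => ∃ c ∈ θ.toZFSet, ∃ g ∈ Q, Cofi c x g)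
    κ.toZFSet := ⟨_, rfl⟩
  have hAH : HOD A := by
    rw [hA]
    exact HOD_sep4 (Ψ := fun v => ∃ c ∈ v 5, ∃ g ∈ v 2, Cofi c (v 0) g)
      (Dfn.bex Lvl_sub_Trs _ (Dfn.bex Lvl_sub_Trs _ (dfn_Cofi _ _ _))) (HOD_ord κ) hQH hQH
      hQH θ 0 0 0 0
  have hAm : ∀ x : Ordinal.{u}, x.toZFSet ∈ A ↔ x < κ ∧ x ∈ SmallCof m := by
    intro x
    rw [hA, mem_sep]
    constructor
    · rintro ⟨hx, c, hc, g, hg, h2⟩
      obtain ⟨c, hc', rfl⟩ := Ordinal.mem_toZFSet_iff.1 hc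
      rw [hQ, mem_Ph] at hg
      exact ⟨tzm.1 hx, c, (hθm c).1 hc', g, hg.2, h2⟩
    · rintro ⟨hx, c, hc, g, hg, h2⟩
      exact ⟨tzm.2 hx, _, tzm.2 ((hθm c).2 hc), g, hQm x c g hx ((hθm c).2 hc) hg h2, h2⟩
  obtain ⟨F, hFH, hF⟩ := HOD_choice (Ψ := fun v => ∃ c ∈ v 10, Cofi c (v 1) (v 0))
    (Dfn.bex Lvl_sub_Trs _ (dfn_Cofi _ _ _)) hAH hQH HOD_empty HOD_empty HOD_empty HOD_empty
    HOD_empty θ 0 0 0 (fun x hx => by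
      rw [hA, mem_sep] at hx
      obtain ⟨x, hx', rfl⟩ := Ordinal.mem_toZFSet_iff.1 hx.1
      obtain ⟨c, hc, g, hg, hg'⟩ := hx.2
      exact ⟨g, hg, c, hc, hg'⟩)
  have hF2 : ∀ x : Ordinal.{u}, x < κ → x ∈ SmallCof m → F x.toZFSet ∈ Q ∧
      ∃ c < θ, Cofi (Ordinal.toZFSet c) x.toZFSet (F x.toZFSet) := by
    intro x hx hxo
    obtain ⟨h2, c, hc, h3⟩ := hF _ ((hAm x).2 ⟨hx, hxo⟩)
    have hc' : c ∈ θ.toZFSet := hc
    obtain ⟨c, hc'', rfl⟩ := Ordinal.mem_toZFSet_iff.1 hc'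
    exact ⟨h2, c, hc'', h3⟩
  obtain ⟨G, hG⟩ : ∃ G : ZFSet.{u}, G = gr A F := ⟨_, rfl⟩
  rw [← hG] at hFH
  have hGp : ∀ x g : ZFSet.{u}, pair x g ∈ G ↔ x ∈ A ∧ F x = g := by
    intro x g; rw [hG, pair_mem_gr]
  -- one step
  have hstep : ∀ y < κ, ∃ z < κ, y < z ∧ HitS y.toZFSet z.toZFSet G Q θ.toZFSet κ.toZFSet := by
    intro y hy
    have h2 : ∀ x : Ordinal.{u}, ∃ b : Ordinal.{u}, y < x → x < κ → x ∈ SmallCof m → b < x ∧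
        y < b ∧ ∃ i ∈ θ.toZFSet, pair i b.toZFSet ∈ F x.toZFSet := by
      intro x
      by_cases h : y < x ∧ x < κ ∧ x ∈ SmallCof m
      · obtain ⟨_, c, hc, hf, hfc⟩ := hF2 x h.2.1 h.2.2
        obtain ⟨i, hi, b, hb, h3, h4⟩ := hfc _ (tzm.2 h.1)
        obtain ⟨b, hb', rfl⟩ := Ordinal.mem_toZFSet_iff.1 hb
        obtain ⟨i, hi', rfl⟩ := Ordinal.mem_toZFSet_iff.1 hi
        exact ⟨b, fun _ _ _ => ⟨hb', tzm.1 h4, _, tzm.2 (hi'.trans hc), h3⟩⟩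
      · exact ⟨0, fun h3 h4 h5 => absurd ⟨h3, h4, h5⟩ h⟩
    choose b hb using h2
    obtain ⟨z, hz, hst'⟩ := he.fodorS hrν hst hy b fun x h3 h4 h5 => (hb x h4 h5 h3).1
    have hne : y < z := by
      obtain ⟨ξ, hξ, h3, h4, h5⟩ := he.meet hst'
      exact ((hb _ h4 (he.lt ξ hξ) h3).2.1).trans h5
    refine ⟨z, hz, hne, ZFSet.sep (fun x => ∃ x' : Ordinal.{u}, x = x'.toZFSet ∧ x' ∈ SmallCof m ∧
      y < x' ∧ b x' < z) κ.toZFSet, sep_subset, fun C hC1 hC2 => ?_, fun x hx => ?_⟩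
    · obtain ⟨x, hx, h3, h4⟩ := hst' C hC1 hC2
      exact ⟨_, mem_sep.2 ⟨tzm.2 hx, x, rfl, h3⟩, h4⟩
    · obtain ⟨hx1, x, rfl, h3, h4, h5⟩ := mem_sep.1 hx
      have h6 := hb x h4 (tzm.1 hx1) h3
      obtain ⟨i, hi, h7⟩ := h6.2.2
      exact ⟨F x.toZFSet, (hF2 x (tzm.1 hx1) h3).1, (hGp _ _).2 ⟨(hAm x).2 ⟨tzm.1 hx1, h3⟩, rfl⟩,
        i, hi, _, tzm.2 (h6.1.trans (tzm.1 hx1)), h7, tzm.2 h6.2.1, tzm.2 h5⟩
  -- the set `E`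
  obtain ⟨E, hE⟩ : ∃ E : ZFSet.{u}, E = ZFSet.sep (fun x => ClS x G Q θ.toZFSet κ.toZFSet)
    κ.toZFSet := ⟨_, rfl⟩
  have hEH : HOD E := by
    rw [hE]
    exact HOD_sep4 (Ψ := fun v => ClS (v 0) (v 2) (v 3) (v 5) (v 6)) (dfn_ClS 0 2 3 5 6) (HOD_ord κ)
      hFH hQH hQH θ κ 0 0 0
  have hE' : ∀ x, x ∈ E ↔ x ∈ κ.toZFSet ∧ ClS x G Q θ.toZFSet κ.toZFSet := by
    intro x; rw [hE, mem_sep]
  have hEunb : ∀ ξ < κ, ∃ η < κ, ξ < η ∧ η.toZFSet ∈ E := by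
    choose! M hM1 hM2 hM3 using hstep
    intro ξ hξ
    let Gs : ℕ → Ordinal.{u} := fun n => Nat.rec ξ (fun _ γ => M γ) n
    have hGs : ∀ n, Gs n < κ := by
      intro n
      induction n with
      | zero => exact hξ
      | succ n ih => exact hM1 _ ih
    obtain ⟨α, hα, h2, h3⟩ := exists_sup' (κ := κ) (fun h => hom (cofN_om.1 h)) hGs
      fun n => hM2 _ (hGs n)
    refine ⟨α, hα, h2 0, (hE' _).2 ⟨tzm.2 hα, ⟨_, tzm.2 (h2 0), rfl⟩, fun y hy => ?_⟩⟩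
    obtain ⟨y, hy', rfl⟩ := Ordinal.mem_toZFSet_iff.1 hy
    obtain ⟨n, hn⟩ := h3 y hy'
    refine ⟨(Gs (n + 1)).toZFSet, tzm.2 (h2 (n + 1)), ?_⟩
    obtain ⟨Z, hZ, hZs, h4⟩ := hM3 _ (hGs n)
    refine ⟨Z, hZ, hZs, fun x hx => ?_⟩
    obtain ⟨g, hg, h5, i, hi, b, hb, h6, h7, h8⟩ := h4 x hx
    refine ⟨g, hg, h5, i, hi, b, hb, h6, ?_, h8⟩
    obtain ⟨b, hb', rfl⟩ := Ordinal.mem_toZFSet_iff.1 hb
    exact tzm.2 (hn.trans (tzm.1 h7))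
  have hen := enum_all (W := E) (κ := κ) hEH.od hEunb hreg
  obtain ⟨S, hS⟩ : ∃ S : Set Ordinal.{u}, S = {η | η.toZFSet ∈ E ∨ κ ≤ η} := ⟨_, rfl⟩
  rw [← hS] at hen
  have hub : ¬ BddAbove S := by
    rintro ⟨x, hx⟩
    have h2 : max (Order.succ x) κ ∈ S := by
      rw [hS]; exact Or.inr (le_max_right _ _)
    exact absurd ((Order.lt_succ x).trans_le (le_max_left _ _)) (not_lt.2 (hx h2))
  have hmono := Ordinal.enumOrd_strictMono hub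
  have hmem : ∀ i < κ, (Ordinal.enumOrd S i).toZFSet ∈ E := fun i hi => by
    have h2 := Ordinal.enumOrd_mem hub i
    have h3 := hen i hi
    rw [hS] at h2
    rcases h2 with h4 | h4
    · rw [hS]; exact h4
    · rw [← hS] at h4
      exact absurd h3 (not_lt.2 h4)
  -- the injection
  have hpick : ∀ i : Ordinal.{u}, ∃ p : Ordinal.{u} × Ordinal.{u}, i < κ → p.1 < ν₀ ∧ p.2 < m ∧
      ∃ b : Ordinal.{u}, pair p.2.toZFSet b.toZFSet ∈ F (e p.1).toZFSet ∧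
        e p.1 ∈ SmallCof m ∧ e p.1 < κ ∧
        Ordinal.enumOrd S i < b ∧ b < Ordinal.enumOrd S (Order.succ i) := by
    intro i
    by_cases hi : i < κ
    · have h2 := hmem i hi
      have h3 := hmem _ (hκlim i hi)
      obtain ⟨z, hz, Z, hZ, hZs, h4⟩ := ((hE' _).1 h3).2.2 _ (tzm.2 (hmono (Order.lt_succ i)))
      obtain ⟨z, hz', rfl⟩ := Ordinal.mem_toZFSet_iff.1 hz
      obtain ⟨ξ, hξ, h5⟩ := he.meet (stat_iff.1 hZs)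
      have h5' : (e ξ).toZFSet ∈ Z := h5
      obtain ⟨g, hg, h6, t, ht, b, hb, h7, h8, h9⟩ := h4 _ h5'
      obtain ⟨h10, h11⟩ := (hGp _ _).1 h6
      obtain ⟨b, hb', rfl⟩ := Ordinal.mem_toZFSet_iff.1 hb
      obtain ⟨t, ht', rfl⟩ := Ordinal.mem_toZFSet_iff.1 ht
      rw [← h11] at h7
      rw [hAm] at h10
      obtain ⟨_, c, hc, hf, _⟩ := hF2 _ (he.lt ξ hξ) h10.2
      have h12 : t.toZFSet ∈ c.toZFSet := (pair_mem_prod.1 (hf.1 h7)).1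
      refine ⟨(ξ, t), fun _ => ⟨hξ, (tzm.1 h12).trans_le ((hθm c).1 hc), b, h7, h10.2, he.lt ξ hξ,
        tzm.1 h8, (tzm.1 h9).trans hz'⟩⟩
    · exact ⟨(0, 0), fun h => absurd h hi⟩
  choose p hp using hpick
  exact card_step p (κ := κ) (ν := ν₀) (θ := m) (fun i hi => ⟨(hp i hi).1, (hp i hi).2.1⟩)
    (fun i hi i' hi' h => by
      obtain ⟨_, _, b, hb1, hb0, hbκ, hb2, hb3⟩ := hp i hi
      obtain ⟨_, _, b', hb1', _, _, hb2', hb3'⟩ := hp i' hi'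
      rw [← h] at hb1'
      obtain ⟨_, c, _, hf, _⟩ := hF2 _ hbκ hb0
      have hbb : b = b' := by
        have h2 := (pair_mem_prod.1 (hf.1 hb1)).1
        have h3 := (app_iff hf h2).1 hb1
        have h4 := (app_iff hf h2).1 hb1'
        exact Ordinal.toZFSet_injective (h3.symm.trans h4)
      rw [← hbb] at hb2' hb3'
      rcases lt_trichotomy i i' with h2 | h2 | h2
      · have h3 := hmono.monotone (Order.succ_le_of_lt h2)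
        exact absurd ((hb3.trans_le h3).trans hb2') (lt_irrefl _)
      · exact h2
      · have h3 := hmono.monotone (Order.succ_le_of_lt h2)
        exact absurd ((hb3'.trans_le h3).trans hb2) (lt_irrefl _))

end Pool.Agent.H639
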