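import Pool.Agent.H639.Sil1

/-!
The cofinality of an ordinal in HOD.
-/

set_option autoImplicit false
set_option linter.unusedVariables false

namespace Pool.Agent.H639

open Pool.Agent.H310.HD Gss969 ZFSet Pool.Agent.Results.MP_e37c09_lc.AlternativeA

universe u

/-- The least strict upper bound of the values of `f` on `i`. -/
noncomputable def lsb (i : Ordinal.{u}) (f : Ordinal.{u} → Ordinal.{u}) : Ordinal.{u} :=
  ⨆ j : Set.Iio i, Order.succ (f j.1)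

theorem lt_lsb {i j : Ordinal.{u}} {f : Ordinal.{u} → Ordinal.{u}} (h : j < i) : f j < lsb i f :=
  (Order.lt_succ _).trans_le (Ordinal.le_iSup (fun j : Set.Iio i => Order.succ (f j.1)) ⟨j, h⟩)

theorem exists_of_lt_lsb {i y : Ordinal.{u}} {f : Ordinal.{u} → Ordinal.{u}} (h : y < lsb i f) :
    ∃ j < i, y ≤ f j := by
  obtain ⟨j, hj⟩ := Ordinal.lt_iSup_iff.1 h
  exact ⟨j.1, j.2, Order.lt_succ_iff.1 hj⟩

theorem eq_lsb_iff {i y : Ordinal.{u}} {f : Ordinal.{u} → Ordinal.{u}} :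
    y = lsb i f ↔ (∀ j < i, f j < y) ∧ ∀ y' < y, ∃ j < i, y' ≤ f j := by
  constructor
  · rintro rfl
    exact ⟨fun j hj => lt_lsb hj, fun y' hy' => exists_of_lt_lsb hy'⟩
  · rintro ⟨h1, h2⟩
    refine le_antisymm ?_ ?_
    · by_contra hcon
      push Not at hcon
      obtain ⟨j, hj, h3⟩ := h2 _ hcon
      exact absurd (lt_lsb (f := f) hj) (not_lt.2 h3)
    · by_contra hcon
      push Not at hcon
      obtain ⟨j, hj, h3⟩ := exists_of_lt_lsb hcon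
      exact absurd (h1 j hj) (not_lt.2 h3)

theorem lsb_le {i y : Ordinal.{u}} {f : Ordinal.{u} → Ordinal.{u}} (h : ∀ j < i, f j < y) :
    lsb i f ≤ y := by
  by_contra hcon
  push Not at hcon
  obtain ⟨j, hj, h3⟩ := exists_of_lt_lsb hcon
  exact absurd (h j hj) (not_lt.2 h3)

theorem lsb_mono {i i' : Ordinal.{u}} {f : Ordinal.{u} → Ordinal.{u}} (h : i ≤ i') :
    lsb i f ≤ lsb i' f := lsb_le fun j hj => lt_lsb (hj.trans_le h)

theorem lsb_congr {i : Ordinal.{u}} {f f' : Ordinal.{u} → Ordinal.{u}} (h : ∀ j < i, f j = f' j) :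
    lsb i f = lsb i f' :=
  le_antisymm (lsb_le fun j hj => by rw [h j hj]; exact lt_lsb hj)
    (lsb_le fun j hj => by rw [← h j hj]; exact lt_lsb hj)

/-- The graph of the restriction to `a` of a function from ordinals to ordinals. -/
noncomputable def og (a : Ordinal.{u}) (G : Ordinal.{u} → Ordinal.{u}) : ZFSet.{u} :=
  gr a.toZFSet fun x => (G (rank x)).toZFSet

theorem pair_og {a i : Ordinal.{u}} {G : Ordinal.{u} → Ordinal.{u}} {y : ZFSet.{u}} :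
    pair i.toZFSet y ∈ og a G ↔ i < a ∧ (G i).toZFSet = y := by
  unfold og
  rw [pair_mem_gr, Ordinal.rank_toZFSet, tzm]

theorem pair_og' {a i y : Ordinal.{u}} {G : Ordinal.{u} → Ordinal.{u}} :
    pair i.toZFSet y.toZFSet ∈ og a G ↔ i < a ∧ G i = y := by
  rw [pair_og]
  exact ⟨fun h => ⟨h.1, Ordinal.toZFSet_injective h.2⟩, fun h => ⟨h.1, by rw [h.2]⟩⟩

theorem isFunc_og {a b : Ordinal.{u}} {G : Ordinal.{u} → Ordinal.{u}} (h : ∀ i < a, G i < b) :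
    IsFunc a.toZFSet b.toZFSet (og a G) := isFunc_gr fun x hx => by
  obtain ⟨i, hi, rfl⟩ := Ordinal.mem_toZFSet_iff.1 hx
  rw [Ordinal.rank_toZFSet]
  exact tzm.2 (h i hi)

/-- Functions are given by functions on ordinals. -/
theorem exists_og {a b : Ordinal.{u}} {g : ZFSet.{u}} (h : IsFunc a.toZFSet b.toZFSet g) :
    ∃ G : Ordinal.{u} → Ordinal.{u}, (∀ i < a, G i < b) ∧ ∀ i < a, ∀ y : ZFSet.{u},
      pair i.toZFSet y ∈ g ↔ (G i).toZFSet = y := by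
  have h1 : ∀ i < a, (rank (app g i.toZFSet)).toZFSet = app g i.toZFSet := fun i hi => by
    obtain ⟨y, _, h1⟩ := Ordinal.mem_toZFSet_iff.1 (app_mem h (tzm.2 hi))
    rw [← h1, Ordinal.rank_toZFSet]
  refine ⟨fun i => rank (app g i.toZFSet), fun i hi => ?_, fun i hi y => ?_⟩
  · have h2 := app_mem h (tzm.2 hi)
    rw [← h1 i hi] at h2
    exact tzm.1 h2
  · rw [app_iff h (tzm.2 hi), h1 i hi]

theorem cofi_iff {c x : Ordinal.{u}} {g : ZFSet.{u}} {G : Ordinal.{u} → Ordinal.{u}}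
    (h : IsFunc c.toZFSet x.toZFSet g) (hG : ∀ i < c, G i < x)
    (hg : ∀ i < c, ∀ y : ZFSet.{u}, pair i.toZFSet y ∈ g ↔ (G i).toZFSet = y) :
    Cofi c.toZFSet x.toZFSet g ↔ ∀ y < x, ∃ i < c, y < G i := by
  constructor
  · rintro ⟨_, h1⟩ y hy
    obtain ⟨i, hi, z, hz, h2, h3⟩ := h1 _ (tzm.2 hy)
    obtain ⟨i, hi', rfl⟩ := Ordinal.mem_toZFSet_iff.1 hi
    rw [hg i hi'] at h2
    rw [← h2] at h3
    exact ⟨i, hi', tzm.1 h3⟩
  · intro h1
    refine ⟨h, fun y hy => ?_⟩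
    obtain ⟨y, hy', rfl⟩ := Ordinal.mem_toZFSet_iff.1 hy
    obtain ⟨i, hi, h2⟩ := h1 y hy'
    exact ⟨_, tzm.2 hi, _, tzm.2 (hG i hi), (hg i hi _).2 rfl, tzm.2 h2⟩

theorem cofi_og {c x : Ordinal.{u}} {G : Ordinal.{u} → Ordinal.{u}} (hG : ∀ i < c, G i < x) :
    Cofi c.toZFSet x.toZFSet (og c G) ↔ ∀ y < x, ∃ i < c, y < G i :=
  cofi_iff (isFunc_og hG) hG fun i hi y => by rw [pair_og]; exact ⟨fun h => h.2, fun h => ⟨hi, h⟩⟩

theorem cofN_of {c x : Ordinal.{u}} {G : Ordinal.{u} → Ordinal.{u}} (hG : ∀ i < c, G i < x)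
    (h : ∀ y < x, ∃ i < c, y < G i) : CofN c.toZFSet x.toZFSet :=
  ⟨_, (cofi_og hG).2 h⟩

theorem exists_of_cofN {c x : Ordinal.{u}} (h : CofN c.toZFSet x.toZFSet) :
    ∃ G : Ordinal.{u} → Ordinal.{u}, (∀ i < c, G i < x) ∧ ∀ y < x, ∃ i < c, y < G i := by
  obtain ⟨g, hf, hg⟩ := h
  obtain ⟨G, hG1, hG2⟩ := exists_og hf
  exact ⟨G, hG1, (cofi_iff hf hG1 hG2).1 ⟨hf, hg⟩⟩

theorem dfn_Lub (a b c d : ℕ) : Dfn Lvl.{u} (fun v => Lub (v a) (v b) (v c) (v d)) := by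
  unfold Lub
  repeat' first
    | exact Dfn.mem _ _ | exact dfn_pm Lvl_sub_Trs _ _ _ | exact (Dfn.mem _ _).not
    | refine Dfn.and ?_ ?_ | refine Dfn.imp ?_ ?_
    | refine Dfn.ball Lvl_sub_Trs _ ?_ | refine Dfn.bex Lvl_sub_Trs _ ?_

theorem lub_iff {g : ZFSet.{u}} {c x i y : Ordinal.{u}} {G : Ordinal.{u} → Ordinal.{u}}
    (hG : ∀ i < c, G i < x) (hi : i ≤ c)
    (hg : ∀ i < c, ∀ y : ZFSet.{u}, pair i.toZFSet y ∈ g ↔ (G i).toZFSet = y) :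
    Lub g x.toZFSet i.toZFSet y.toZFSet ↔ y = lsb i G := by
  rw [eq_lsb_iff]
  unfold Lub
  constructor
  · rintro ⟨h1, h2⟩
    refine ⟨fun j hj => tzm.1 (h1 _ (tzm.2 hj) _ (tzm.2 (hG j (hj.trans_le hi)))
      ((hg j (hj.trans_le hi) _).2 rfl)), fun y' hy' => ?_⟩
    obtain ⟨j, hj, z, hz, h3, h4⟩ := h2 _ (tzm.2 hy')
    obtain ⟨j, hj', rfl⟩ := Ordinal.mem_toZFSet_iff.1 hj
    rw [hg j (hj'.trans_le hi)] at h3
    rw [← h3, tzm, not_lt] at h4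
    exact ⟨j, hj', h4⟩
  · rintro ⟨h1, h2⟩
    refine ⟨fun j hj z hz h3 => ?_, fun y' hy' => ?_⟩
    · obtain ⟨j, hj', rfl⟩ := Ordinal.mem_toZFSet_iff.1 hj
      rw [hg j (hj'.trans_le hi)] at h3
      rw [← h3]
      exact tzm.2 (h1 j hj')
    · obtain ⟨y', hy'', rfl⟩ := Ordinal.mem_toZFSet_iff.1 hy'
      obtain ⟨j, hj, h3⟩ := h2 y' hy''
      exact ⟨_, tzm.2 hj, _, tzm.2 (hG j (hj.trans_le hi)), (hg j (hj.trans_le hi) _).2 rfl,
        fun h => absurd (tzm.1 h) (not_lt.2 h3)⟩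

/-- **The cofinality in HOD.** -/
theorem hod_cof {x : Ordinal.{u}} (hx0 : 0 < x) (hx : ∀ y < x, Order.succ y < x) :
    ∃ τ ≤ x, HODReg τ ∧ ∃ G : Ordinal.{u} → Ordinal.{u}, HOD (og τ G) ∧ (∀ i < τ, G i < x) ∧
      (∀ i j, i ≤ j → G i ≤ G j) ∧ (∀ y < x, ∃ i < τ, y < G i) ∧
      ∀ j, ∀ y < G j, ∃ i < j, y < G (Order.succ i) := by
  -- the identity
  have hid : ∃ g, HOD g ∧ Cofi x.toZFSet x.toZFSet g := by
    refine ⟨gr x.toZFSet fun y => y, ?_, ?_⟩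
    · exact HOD_gr8 (Ψ := fun v => v 0 = v 1) (Dfn.eq _ _) (HOD_ord x) (HOD_ord x) HOD_empty
        HOD_empty HOD_empty HOD_empty HOD_empty HOD_empty 0 0 0 0
        fun y hy => ⟨hy, fun z _ => Iff.rfl⟩
    · refine (cofi_iff (G := fun i => i) (isFunc_gr fun y hy => hy) (fun i hi => hi)
        fun i hi y => ?_).2 fun y hy => ⟨Order.succ y, hx y hy, Order.lt_succ y⟩
      rw [pair_mem_gr]
      exact ⟨fun h => h.2, fun h => ⟨tzm.2 hi, h⟩⟩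
  obtain ⟨τ, ⟨g, hgH, hg⟩, hmin⟩ := WellFounded.has_min (wellFounded_lt (α := Ordinal.{u}))
    {c | ∃ g, HOD g ∧ Cofi (Ordinal.toZFSet c) x.toZFSet g} ⟨x, hid⟩
  have hmin' : ∀ c < τ, ∀ g, HOD g → ¬ Cofi (Ordinal.toZFSet c) x.toZFSet g :=
    fun c hc g h1 h2 => hmin c ⟨g, h1, h2⟩ hc
  have hτx : τ ≤ x := by
    by_contra hcon
    push Not at hcon
    obtain ⟨g, h1, h2⟩ := hid
    exact hmin' x hcon g h1 h2
  obtain ⟨f, hf1, hf2⟩ := exists_og hg.1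
  have hfc := (cofi_iff hg.1 hf1 hf2).1 hg
  -- restrictions
  have hres : ∀ i ≤ τ, HOD (og i f) := by
    intro i hi
    refine HOD_gr8 (Ψ := fun v => pair (v 1) (v 0) ∈ v 4) (dfn_pm Lvl_sub_Trs _ _ _) (HOD_ord i)
      (HOD_ord x) hgH HOD_empty HOD_empty HOD_empty HOD_empty HOD_empty 0 0 0 0
      fun y hy => ?_
    obtain ⟨y, hy', rfl⟩ := Ordinal.mem_toZFSet_iff.1 hy
    rw [Ordinal.rank_toZFSet]
    refine ⟨tzm.2 (hf1 y (hy'.trans_le hi)), fun z _ => ?_⟩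
    show pair y.toZFSet z ∈ g ↔ _
    rw [hf2 y (hy'.trans_le hi)]
    exact eq_comm
  have hlt : ∀ i < τ, lsb i f < x := by
    intro i hi
    by_contra hcon
    push Not at hcon
    refine hmin' i hi _ (hres i hi.le) ((cofi_og fun j hj => hf1 j (hj.trans hi)).2 fun y hy => ?_)
    obtain ⟨j, hj, h⟩ := exists_of_lt_lsb (i := i) (f := f) ((hx y hy).trans_le hcon)
    exact ⟨j, hj, Order.succ_le_iff.1 h⟩
  have hG : HOD (og τ fun i => lsb i f) := by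
    refine HOD_gr8 (Ψ := fun v => Lub (v 4) (v 3) (v 1) (v 0)) (dfn_Lub _ _ _ _) (HOD_ord τ)
      (HOD_ord x) hgH HOD_empty HOD_empty HOD_empty HOD_empty HOD_empty 0 0 0 0
      fun y hy => ?_
    obtain ⟨y, hy', rfl⟩ := Ordinal.mem_toZFSet_iff.1 hy
    rw [Ordinal.rank_toZFSet]
    refine ⟨tzm.2 (hlt y hy'), fun z hz => ?_⟩
    obtain ⟨z, hz', rfl⟩ := Ordinal.mem_toZFSet_iff.1 hz
    show Lub g x.toZFSet y.toZFSet z.toZFSet ↔ _
    rw [lub_iff hf1 hy'.le hf2]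
    exact ⟨fun h => by rw [h], fun h => Ordinal.toZFSet_injective h⟩
  have hτlim : ∀ i < τ, Order.succ i < τ := by
    intro i hi
    by_contra hcon
    push Not at hcon
    obtain ⟨j, hj, h3⟩ := hfc _ (max_lt (hlt i hi) (hf1 i hi))
    rcases (Order.lt_succ_iff.1 (hj.trans_le hcon)).lt_or_eq with h6 | h6
    · exact absurd (lt_lsb (f := f) h6) (not_lt.2 ((le_max_left _ _).trans h3.le))
    · rw [h6] at h3
      exact absurd ((le_max_right _ _).trans_lt h3) (lt_irrefl _)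
  have hGc : ∀ y < x, ∃ i < τ, y < lsb i f := fun y hy => by
    obtain ⟨i, hi, h⟩ := hfc y hy
    exact ⟨_, hτlim i hi, h.trans (lt_lsb (Order.lt_succ i))⟩
  refine ⟨τ, hτx, ⟨?_, hτlim, ?_⟩, fun i => lsb i f, hG, hlt, fun i j h => lsb_mono h, hGc,
    fun j y hy => ?_⟩
  · obtain ⟨i, hi, _⟩ := hfc 0 hx0
    exact bot_le.trans_lt hi
  · rintro ⟨c, hc, g', hg', hf', hc'⟩
    obtain ⟨c, hcτ, rfl⟩ := Ordinal.mem_toZFSet_iff.1 hc
    obtain ⟨f', hf1', hf2'⟩ := exists_og hf'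
    have hfc' := (cofi_iff hf' hf1' hf2').1 ⟨hf', hc'⟩
    refine hmin' c hcτ (og c fun i => lsb (f' i) f) ?_ ((cofi_og fun i hi => hlt _ (hf1' i hi)).2
      fun y hy => ?_)
    · refine HOD_gr8 (Ψ := fun v => ∃ z ∈ v 10, pair (v 1) z ∈ v 4 ∧ pair z (v 0) ∈ v 5)
        (Dfn.bex Lvl_sub_Trs _ ((dfn_pm Lvl_sub_Trs _ _ _).and (dfn_pm Lvl_sub_Trs _ _ _)))
        (HOD_ord c) (HOD_ord x) hg' hG HOD_empty HOD_empty HOD_empty HOD_empty τ 0 0 0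
        fun y hy => ?_
      obtain ⟨y, hy', rfl⟩ := Ordinal.mem_toZFSet_iff.1 hy
      rw [Ordinal.rank_toZFSet]
      refine ⟨tzm.2 (hlt _ (hf1' y hy')), fun z hz => ?_⟩
      show (∃ w ∈ τ.toZFSet, pair y.toZFSet w ∈ g' ∧ pair w z ∈ og τ fun i => lsb i f) ↔ _
      constructor
      · rintro ⟨w, hw, h1, h2⟩
        rw [hf2' y hy'] at h1
        rw [← h1, pair_og] at h2
        exact h2.2.symm
      · rintro rfl
        exact ⟨_, tzm.2 (hf1' y hy'), (hf2' y hy' _).2 rfl, pair_og.2 ⟨hf1' y hy', rfl⟩⟩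
    · obtain ⟨i, hi, h1⟩ := hGc y hy
      obtain ⟨j, hj, h2⟩ := hfc' i hi
      exact ⟨j, hj, h1.trans_le (lsb_mono h2.le)⟩
  · obtain ⟨i, hi, h⟩ := exists_of_lt_lsb hy
    exact ⟨i, hi, h.trans_lt (lt_lsb (Order.lt_succ i))⟩

/-- The cofinalities in `V` of an ordinal and of its cofinality in HOD agree. -/
theorem cofN_iff {x τ : Ordinal.{u}} {G : Ordinal.{u} → Ordinal.{u}} (hG : ∀ i < τ, G i < x)
    (hm : ∀ i j, i ≤ j → G i ≤ G j) (hc : ∀ y < x, ∃ i < τ, y < G i) (γ : Ordinal.{u}) :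
    CofN γ.toZFSet x.toZFSet ↔ CofN γ.toZFSet τ.toZFSet := by
  constructor
  · intro h
    obtain ⟨f, hf1, hf2⟩ := exists_of_cofN h
    have h1 : ∀ j, ∃ i, j < γ → i < τ ∧ f j < G i := by
      intro j
      by_cases hj : j < γ
      · obtain ⟨i, hi, h2⟩ := hc _ (hf1 j hj)
        exact ⟨i, fun _ => ⟨hi, h2⟩⟩
      · exact ⟨0, fun h => absurd h hj⟩
    choose f' hf' using h1
    refine cofN_of (G := f') (fun i hi => (hf' i hi).1) fun y hy => ?_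
    obtain ⟨j, hj, h2⟩ := hf2 _ (hG y hy)
    refine ⟨j, hj, ?_⟩
    by_contra hcon
    push Not at hcon
    exact absurd ((h2.trans (hf' j hj).2).trans_le (hm _ _ hcon)) (lt_irrefl _)
  · intro h
    obtain ⟨f, hf1, hf2⟩ := exists_of_cofN h
    refine cofN_of (G := fun i => G (f i)) (fun i hi => hG _ (hf1 i hi)) fun y hy => ?_
    obtain ⟨i, hi, h1⟩ := hc y hy
    obtain ⟨j, hj, h2⟩ := hf2 i hi
    exact ⟨j, hj, h1.trans_le (hm _ _ h2.le)⟩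

end Pool.Agent.H639
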