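import Pool.Agent.H639.Sil2

/-!
The cofinalities of the regular cardinals of HOD in an interval `[l, l⁺)`.
-/

set_option autoImplicit false
set_option linter.unusedVariables false

namespace Pool.Agent.H639

open Pool.Agent.H310.HD Gss969 ZFSet Pool.Agent.Results.MP_e37c09_lc.AlternativeA

universe u

/-- `ν` is the cofinality of the limit ordinal `x`. -/
def IsCof (ν x : Ordinal.{u}) : Prop :=
  CofN ν.toZFSet x.toZFSet ∧ ∀ ν' < ν, ¬ CofN ν'.toZFSet x.toZFSet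

/-- `γ` is an infinite regular cardinal. -/
def IsReg (γ : Ordinal.{u}) : Prop :=
  0 < γ ∧ (∀ x < γ, Order.succ x < γ) ∧ ∀ γ' < γ, ¬ CofN γ'.toZFSet γ.toZFSet

theorem IsCof.unique {ν ν' x : Ordinal.{u}} (h : IsCof ν x) (h' : IsCof ν' x) : ν = ν' := by
  rcases lt_trichotomy ν ν' with h1 | h1 | h1
  · exact absurd h.1 (h'.2 _ h1)
  · exact h1
  · exact absurd h'.1 (h.2 _ h1)

theorem exists_isCof {x : Ordinal.{u}} (hx : ∀ y < x, Order.succ y < x) : ∃ ν ≤ x, IsCof ν x := by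
  have h1 : CofN x.toZFSet x.toZFSet :=
    cofN_of (G := fun i => i) (fun i hi => hi) fun y hy => ⟨_, hx y hy, Order.lt_succ y⟩
  obtain ⟨ν, hν, h2, h3⟩ := exists_cof h1
  exact ⟨ν, hν, h2, h3⟩

theorem IsReg.omega : IsReg (Ordinal.omega0 : Ordinal.{u}) := by
  refine ⟨Ordinal.omega0_pos, fun x hx => ?_, fun γ' hγ' h => ?_⟩
  · obtain ⟨n, rfl⟩ := Ordinal.lt_omega0.1 hx
    rw [Order.succ_eq_add_one]
    exact_mod_cast Ordinal.natCast_lt_omega0 (n + 1)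
  · obtain ⟨n, rfl⟩ := Ordinal.lt_omega0.1 hγ'
    obtain ⟨f, hf1, hf2⟩ := exists_of_cofN h
    have key : ∀ m : ℕ, m ≤ n → ∃ b < (Ordinal.omega0 : Ordinal.{u}), ∀ i < (m : Ordinal.{u}), f i < b := by
      intro m
      induction m with
      | zero => intro _; exact ⟨0, Ordinal.omega0_pos, fun i hi => absurd hi (by simp)⟩
      | succ m ih =>
        intro hm
        obtain ⟨b, hb, h1⟩ := ih (by omega)
        have h2 : (m : Ordinal.{u}) < (n : Ordinal.{u}) := by exact_mod_cast hm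
        have h3 := hf1 _ h2
        obtain ⟨k, hk⟩ := Ordinal.lt_omega0.1 h3
        have h4 : Order.succ (f m) < Ordinal.omega0 := by
          rw [hk, Order.succ_eq_add_one]
          exact_mod_cast Ordinal.natCast_lt_omega0 (k + 1)
        refine ⟨max b (Order.succ (f m)), max_lt hb h4, fun i hi => ?_⟩
        have h5 : i ≤ m := by
          have : (m : Ordinal.{u}) + 1 = Order.succ (m : Ordinal.{u}) := (Order.succ_eq_add_one _).symm
          rw [Nat.cast_succ, this] at hi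
          exact Order.lt_succ_iff.1 hi
        rcases h5.lt_or_eq with h6 | h6
        · exact (h1 i h6).trans_le (le_max_left _ _)
        · rw [h6]; exact (Order.lt_succ _).trans_le (le_max_right _ _)
    obtain ⟨b, hb, h1⟩ := key n le_rfl
    obtain ⟨i, hi, h2⟩ := hf2 b hb
    exact absurd (h1 i hi) (not_lt.2 h2.le)

theorem IsReg.of_regUnc {γ : Ordinal.{u}} (h : RegUnc γ.toZFSet) : IsReg γ := by
  refine ⟨h.pos, fun x hx => h.succ_lt hx, fun γ' hγ' hc => ?_⟩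
  obtain ⟨f, hf1, hf2⟩ := exists_of_cofN hc
  obtain ⟨b, hb, h1⟩ := h.bdd hγ' f hf1
  obtain ⟨i, hi, h2⟩ := hf2 b hb
  exact absurd (h1 i hi) (not_lt.2 h2.le)

/-- Cofinalities are regular. -/
theorem IsCof.isReg {ν x : Ordinal.{u}} (h : IsCof ν x) (hx0 : 0 < x)
    (hx : ∀ y < x, Order.succ y < x) : IsReg ν := by
  obtain ⟨e, he⟩ := exists_nrm hx h.1 h.2
  refine ⟨?_, he.lim, fun γ' hγ' hc => h.2 γ' hγ' (cof_comp hx h.1 h.2 hc)⟩
  obtain ⟨ξ, hξ, _⟩ := he.cof 0 hx0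
  exact bot_le.trans_lt hξ

theorem IsReg.regUnc {γ : Ordinal.{u}} (h : IsReg γ) (hω : Ordinal.omega0 < γ) :
    RegUnc γ.toZFSet :=
  regUnc_of_min h.2.1 (cofN_of (G := fun i => i) (fun i hi => hi)
    fun y hy => ⟨_, h.2.1 y hy, Order.lt_succ y⟩) h.2.2 hω

theorem IsReg.omega_le {γ : Ordinal.{u}} (h : IsReg γ) : Ordinal.omega0 ≤ γ := by
  refine Ordinal.omega0_le.2 fun n => ?_
  have h2 : ∀ n : ℕ, (n : Ordinal.{u}) < γ := by
    intro n
    induction n with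
    | zero => exact_mod_cast h.1
    | succ n ih =>
      have h3 := h.2.1 _ ih
      rw [Order.succ_eq_add_one] at h3
      exact_mod_cast h3
  exact (h2 n).le

theorem cofOm_iff {x : Ordinal.{u}} : CofOm x.toZFSet ↔ IsCof Ordinal.omega0 x := by
  constructor
  · intro h
    refine ⟨cofN_om.2 h, fun n hn hc => ?_⟩
    obtain ⟨G, hG1, hG2⟩ := exists_of_cofN (cofN_om.2 h)
    have h1 := h.lim
    obtain ⟨ν, _, hν⟩ := exists_isCof h1.2
    have h2 := (hν.isReg h1.1 h1.2).omega_le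
    exact hν.2 n (hn.trans_le h2) hc
  · intro h
    exact cofN_om.1 h.1

/-- Transfer of cofinalities. -/
theorem isCof_iff {x τ : Ordinal.{u}} {G : Ordinal.{u} → Ordinal.{u}} (hG : ∀ i < τ, G i < x)
    (hm : ∀ i j, i ≤ j → G i ≤ G j) (hc : ∀ y < x, ∃ i < τ, y < G i) (γ : Ordinal.{u}) :
    IsCof γ x ↔ IsCof γ τ := by
  unfold IsCof
  rw [cofN_iff hG hm hc γ]
  constructor
  · rintro ⟨h1, h2⟩
    exact ⟨h1, fun ν' hν' h => h2 ν' hν' ((cofN_iff hG hm hc ν').2 h)⟩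
  · rintro ⟨h1, h2⟩
    exact ⟨h1, fun ν' hν' h => h2 ν' hν' ((cofN_iff hG hm hc ν').1 h)⟩

/-- The values of a normal function at limits. -/
theorem Nrm.isCof {ν κ : Ordinal.{u}} {e : Ordinal.{u} → Ordinal.{u}} (he : Nrm ν κ e)
    {ξ γ : Ordinal.{u}} (hξ : ∀ y < ξ, Order.succ y < ξ) : IsCof γ (e ξ) ↔ IsCof γ ξ :=
  isCof_iff (fun i hi => he.mono _ _ hi) (fun i j h => he.le_iff.2 h) (fun y hy => by
    obtain ⟨ζ, hζ, h⟩ := he.cont ξ y hy
    exact ⟨_, hξ ζ hζ, h⟩) γ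

/-- A club contains points of every smaller cofinality. -/
theorem exists_pt {ν γ : Ordinal.{u}} (hν : RegUnc ν.toZFSet) {C : ZFSet.{u}}
    (hC : Club C ν.toZFSet) (hγ : IsReg γ) (hγν : γ < ν) {b : Ordinal.{u}} (hb : b < ν) :
    ∃ ξ < ν, b < ξ ∧ ξ.toZFSet ∈ C ∧ (∀ y < ξ, Order.succ y < ξ) ∧ IsCof γ ξ := by
  obtain ⟨h1, h2, h3⟩ := hC
  have hN : ∀ y : Ordinal.{u}, ∃ z, y < z ∧ b < z ∧ (y < ν → z < ν ∧ z.toZFSet ∈ C) := by
    intro y
    by_cases hy : y < ν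
    · obtain ⟨c, hc, hyc⟩ := h2 (max y b).toZFSet (tzm.2 (max_lt hy hb))
      obtain ⟨c, hc', rfl⟩ := Ordinal.mem_toZFSet_iff.1 (h1 hc)
      exact ⟨c, (le_max_left _ _).trans_lt (tzm.1 hyc), (le_max_right _ _).trans_lt (tzm.1 hyc),
        fun _ => ⟨hc', hc⟩⟩
    · exact ⟨Order.succ (max y b), (le_max_left _ _).trans_lt (Order.lt_succ _),
        (le_max_right _ _).trans_lt (Order.lt_succ _), fun h => absurd h hy⟩
  choose N hN1 hNb hN2 using hN
  obtain ⟨h, hh⟩ : ∃ h : Ordinal.{u} → Ordinal.{u}, ∀ i, h i = N (lsb i h) := by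
    refine ⟨WellFounded.fix (wellFounded_lt (α := Ordinal.{u})) fun i ih =>
      N (⨆ j : Set.Iio i, Order.succ (ih j.1 j.2)), fun ξ => ?_⟩
    exact WellFounded.fix_eq _ _ _
  have hlt : ∀ i j, i < j → h i < h j := fun i j hij => by
    rw [hh j]
    exact (lt_lsb hij).trans (hN1 _)
  have hmono : ∀ i j, i ≤ j → h i ≤ h j := fun i j hij => by
    rcases hij.lt_or_eq with h4 | h4
    · exact (hlt i j h4).le
    · rw [h4]
  have hbd : ∀ i < ν, h i < ν ∧ lsb i h < ν := by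
    intro i
    induction i using WellFoundedLT.induction with
    | ind i ih =>
      intro hi
      obtain ⟨b, hb1, hb2⟩ := hν.bdd hi h fun j hj => (ih j hj (hj.trans hi)).1
      have h4 : lsb i h < ν := (lsb_le hb2).trans_lt hb1
      refine ⟨?_, h4⟩
      rw [hh i]
      exact (hN2 _ h4).1
  have hmem : ∀ i < ν, (h i).toZFSet ∈ C := fun i hi => by
    rw [hh i]
    exact (hN2 _ (hbd i hi).2).2
  have hξ := (hbd γ hγν).2
  have hb0 : b < h 0 := by rw [hh 0]; exact hNb _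
  have hsucc : ∀ y < lsb γ h, ∃ j < γ, y < h j := fun y hy => by
    obtain ⟨j, hj, h4⟩ := exists_of_lt_lsb hy
    exact ⟨_, hγ.2.1 j hj, h4.trans_lt (hlt _ _ (Order.lt_succ j))⟩
  refine ⟨lsb γ h, hξ, hb0.trans (lt_lsb hγ.1), ?_, fun y hy => ?_, ?_⟩
  · refine h3 _ (tzm.2 hξ) ⟨(h 0).toZFSet, tzm.2 (lt_lsb hγ.1), rfl⟩ fun x hx => ?_
    obtain ⟨x, hx', rfl⟩ := Ordinal.mem_toZFSet_iff.1 hx
    obtain ⟨j, hj, h4⟩ := hsucc x hx'
    exact ⟨_, hmem j (hj.trans hγν), tzm.2 (lt_lsb hj), tzm.2 h4⟩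
  · obtain ⟨j, hj, h4⟩ := hsucc y hy
    exact (Order.succ_le_of_lt h4).trans_lt (lt_lsb hj)
  · refine (isCof_iff (G := h) (fun i hi => lt_lsb hi) hmono hsucc γ).2
      ⟨cofN_of (G := fun i => i) (fun i hi => hi) fun y hy => ⟨_, hγ.2.1 y hy, Order.lt_succ y⟩,
        hγ.2.2⟩

/-- The ordinals with a cofinal function in HOD from an ordinal `< l`. -/
def SmallCofLt (l : Ordinal.{u}) : Set Ordinal.{u} :=
  {x | ∃ c < l, ∃ g, HOD g ∧ Cofi (Ordinal.toZFSet c) x.toZFSet g}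

/-- If `κ` is regular in HOD, `|κ| = l` and `ω < cf(κ) < l`, `cf(κ) ≠ cf(l)`, then club many `x < κ` have
cofinality at least `l` in HOD. -/
theorem nonstat_small {κ l ν₀ : Ordinal.{u}} (hκ : HODReg κ) (hl : IsCard l.toZFSet)
    (hω : Ordinal.omega0 ≤ l) (hcard : l.card ≤ κ.card) (hν : IsCof ν₀ κ)
    (hων : Ordinal.omega0 < ν₀) (hνl : ν₀ < l) (hne : ¬ IsCof ν₀ l) :
    ¬ StatL (SmallCofLt l) κ := by
  intro hst
  have hom : ¬ CofOm κ.toZFSet := fun h => absurd ((cofOm_iff.1 h).unique hν) (ne_of_lt hων)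
  obtain ⟨hκ0, hκlim, hreg⟩ := hκ
  obtain ⟨e, he⟩ := exists_nrm hκlim hν.1 hν.2
  have hrν := regUnc_of_min hκlim hν.1 hν.2 hων
  have hinf : Cardinal.aleph0 ≤ l.card := by
    have := Ordinal.card_le_card hω
    rwa [Ordinal.card_omega0] at this
  have key : ∀ m < l, ¬ StatL (SmallCof m) κ := by
    intro m hm h
    have h1 := ket_ns ⟨hκ0, hκlim, hreg⟩ hν.1 hν.2 hom h
    have h2 := Cardinal.mul_lt_of_lt hinf (IsCard.card_lt hl hνl) (IsCard.card_lt hl hm)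
    exact absurd (h1.trans_lt h2) (not_lt.2 hcard)
  have hllim : ∀ y < l, Order.succ y < l := by
    intro y hy
    by_contra hcon
    push Not at hcon
    have h1 : l = Order.succ y := le_antisymm hcon (Order.succ_le_of_lt hy)
    have h2 := IsCard.card_lt hl hy
    have h3 : Ordinal.omega0 ≤ y := by
      by_contra h4
      push Not at h4
      obtain ⟨n, rfl⟩ := Ordinal.lt_omega0.1 h4
      rw [h1, Order.succ_eq_add_one] at hω
      have : ((n : Ordinal.{u}) + 1) = ((n + 1 : ℕ) : Ordinal.{u}) := by push_cast; rfl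
      rw [this] at hω
      exact absurd (Ordinal.natCast_lt_omega0 (n + 1)) (not_lt.2 hω)
    rw [h1, Ordinal.card_succ, Cardinal.add_one_eq (by
      have := Ordinal.card_le_card h3
      rwa [Ordinal.card_omega0] at this)] at h2
    exact absurd h2 (lt_irrefl _)
  obtain ⟨ρ, hρl, hρ⟩ := exists_isCof hllim
  have hst' := he.statR hst
  obtain ⟨G, hG1, hG2⟩ := exists_of_cofN hρ.1
  rcases lt_trichotomy ρ ν₀ with h | h | h
  · obtain ⟨j, hj, h1⟩ := hst'.union hrν h (P := fun j ξ => e ξ ∈ SmallCof (G j)) (by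
      rintro ξ ⟨c, hc, g, h2, h3⟩ hξ
      obtain ⟨j, hj, h4⟩ := hG2 c hc
      exact ⟨j, hj, c, h4.le, g, h2, h3⟩)
    exact key _ (hG1 j hj) (he.statL hrν (h1.mono fun ξ _ h2 => h2.2))
  · rw [h] at hρ
    exact hne hρ
  · have h1 : ∀ ξ, ∃ c < l, ξ < ν₀ → e ξ ∈ SmallCofLt l → ∃ g, HOD g ∧
        Cofi (Ordinal.toZFSet c) (e ξ).toZFSet g := by
      intro ξ
      by_cases h2 : e ξ ∈ SmallCofLt l
      · obtain ⟨c, hc, h3⟩ := h2
        exact ⟨c, hc, fun _ _ => h3⟩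
      · exact ⟨0, Ordinal.omega0_pos.trans_le hω, fun _ h3 => absurd h3 h2⟩
    choose c hc1 hc2 using h1
    have h2 : ∃ b < l, ∀ ξ < ν₀, c ξ ≤ b := by
      by_contra hcon
      push Not at hcon
      exact hρ.2 ν₀ h (cofN_of (G := c) (fun i _ => hc1 i) fun y hy => hcon y hy)
    obtain ⟨b, hb, h3⟩ := h2
    refine key b hb (he.statL hrν (hst'.mono fun ξ hξ h4 => ?_))
    obtain ⟨g, h5, h6⟩ := hc2 ξ hξ h4
    exact ⟨c ξ, h3 ξ hξ, g, h5, h6⟩

/-- **The cofinalities of the regular cardinals of HOD in `[l, κ)`.** -/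
theorem spectrum {κ l ν₀ γ : Ordinal.{u}} (hκ : HODReg κ) (hl : IsCard l.toZFSet)
    (hω : Ordinal.omega0 ≤ l) (hcard : l.card ≤ κ.card) (hν : IsCof ν₀ κ)
    (hων : Ordinal.omega0 < ν₀) (hνl : ν₀ < l) (hne : ¬ IsCof ν₀ l) (hγ : IsReg γ) (hγν : γ < ν₀) :
    ∃ τ, l ≤ τ ∧ τ < κ ∧ HODReg τ ∧ IsCof γ τ := by
  have h1 := nonstat_small hκ hl hω hcard hν hων hνl hne
  unfold StatL at h1
  push Not at h1
  obtain ⟨C, hC1, hC2, h2⟩ := h1
  obtain ⟨hκ0, hκlim, hreg⟩ := hκ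
  obtain ⟨e, he⟩ := exists_nrm hκlim hν.1 hν.2
  have hrν := regUnc_of_min hκlim hν.1 hν.2 hων
  obtain ⟨ξ, hξ, _, h3, h4, h5⟩ := exists_pt hrν (he.club_pre hrν hC2) hγ hγν hrν.pos
  rw [mem_sep, Ordinal.rank_toZFSet] at h3
  have h6 : e ξ ∉ SmallCofLt l := fun h => h2 (e ξ) (he.lt ξ hξ) h h3.2
  have h7 := (he.isCof h4).2 h5
  have hξ0 : 0 < ξ := by
    obtain ⟨G, hG1, hG2⟩ := exists_of_cofN h5.1
    by_contra hcon
    have : ξ = 0 := le_antisymm (not_lt.1 hcon) bot_le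
    exact absurd (hG1 0 hγ.1) (by rw [this]; exact not_lt_bot)
  have hx0 : 0 < e ξ := he.pos hξ0
  have hxlim : ∀ y < e ξ, Order.succ y < e ξ := fun y hy => by
    obtain ⟨ζ, hζ, h8⟩ := he.cont ξ y hy
    exact (Order.succ_le_of_lt h8).trans_lt (he.mono _ _ (h4 ζ hζ))
  obtain ⟨τ, hτ, hreg', G, hG, hG1, hG2, hG3, _⟩ := hod_cof hx0 hxlim
  refine ⟨τ, ?_, hτ.trans_lt (he.lt ξ hξ), hreg', (isCof_iff hG1 hG2 hG3 γ).1 h7⟩
  by_contra hcon
  push Not at hcon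
  exact h6 ⟨τ, hcon, _, hG, (cofi_og hG1).2 hG3⟩

end Pool.Agent.H639
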