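import Pool.Agent.H639.Sil3

/-!
Closed unbounded sets, club guessing, and strongly increasing sequences of functions (Shelah).
-/

set_option autoImplicit false
set_option linter.unusedVariables false

namespace Pool.Agent.H639

open Pool.Agent.H310.HD Gss969 ZFSet Pool.Agent.Results.MP_e37c09_lc.AlternativeA

universe u

/-- `C` is closed and unbounded in `l`. -/
def ClubO (C : Set Ordinal.{u}) (l : Ordinal.{u}) : Prop :=
  (∀ x < l, ∃ c ∈ C, x < c ∧ c < l) ∧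
    ∀ a < l, 0 < a → (∀ x < a, ∃ c ∈ C, x < c ∧ c < a) → a ∈ C

theorem ClubO.club {C : Set Ordinal.{u}} {l : Ordinal.{u}} (h : ClubO C l) :
    Club (ZFSet.sep (fun x => rank x ∈ C) l.toZFSet) l.toZFSet := by
  refine ⟨fun x hx => (mem_sep.1 hx).1, fun x hx => ?_, fun a ha hne hlim => ?_⟩
  · obtain ⟨x, hx', rfl⟩ := Ordinal.mem_toZFSet_iff.1 hx
    obtain ⟨c, hc, h1, h2⟩ := h.1 x hx'
    exact ⟨c.toZFSet, mem_sep.2 ⟨tzm.2 h2, by rw [Ordinal.rank_toZFSet]; exact hc⟩, tzm.2 h1⟩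
  · obtain ⟨a, ha', rfl⟩ := Ordinal.mem_toZFSet_iff.1 ha
    refine mem_sep.2 ⟨ha, ?_⟩
    rw [Ordinal.rank_toZFSet]
    obtain ⟨x, hx, _⟩ := hne
    obtain ⟨x, hx', rfl⟩ := Ordinal.mem_toZFSet_iff.1 hx
    refine h.2 a ha' (bot_le.trans_lt hx') fun y hy => ?_
    obtain ⟨c, hc, hca, hyc⟩ := hlim _ (tzm.2 hy)
    obtain ⟨hc1, hc2⟩ := mem_sep.1 hc
    obtain ⟨c, hc', rfl⟩ := Ordinal.mem_toZFSet_iff.1 hc1
    rw [Ordinal.rank_toZFSet] at hc2
    exact ⟨c, hc2, tzm.1 hyc, tzm.1 hca⟩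

theorem clubO_of {C : ZFSet.{u}} {l : Ordinal.{u}} (h : Club C l.toZFSet) :
    ClubO {x | x.toZFSet ∈ C} l := by
  obtain ⟨h1, h2, h3⟩ := h
  refine ⟨fun x hx => ?_, fun a ha h0 hlim => ?_⟩
  · obtain ⟨c, hc, hxc⟩ := h2 _ (tzm.2 hx)
    obtain ⟨c, hc', rfl⟩ := Ordinal.mem_toZFSet_iff.1 (h1 hc)
    exact ⟨c, hc, tzm.1 hxc, hc'⟩
  · refine h3 _ (tzm.2 ha) ⟨(0 : Ordinal.{u}).toZFSet, tzm.2 h0, rfl⟩ fun x hx => ?_
    obtain ⟨x, hx', rfl⟩ := Ordinal.mem_toZFSet_iff.1 hx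
    obtain ⟨c, hc, h4, h5⟩ := hlim x hx'
    exact ⟨_, hc, tzm.2 h5, tzm.2 h4⟩

/-- Intersections of clubs. -/
theorem ClubO.iInter {l k : Ordinal.{u}} (hl : RegUnc l.toZFSet) (hk : k < l)
    {C : Ordinal.{u} → Set Ordinal.{u}} (hC : ∀ i < k, ClubO (C i) l) :
    ClubO {x | ∀ i < k, x ∈ C i} l := by
  refine ⟨fun x hx => ?_, fun a ha h0 hlim i hi => (hC i hi).2 a ha h0 fun x hx => ?_⟩
  · have h1 : ∀ y, ∃ z, y < l → z < l ∧ y < z ∧ ∀ i < k, ∃ c ∈ C i, y < c ∧ c < z := by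
      intro y
      by_cases hy : y < l
      · have h2 : ∀ i, ∃ c, i < k → c ∈ C i ∧ y < c ∧ c < l := by
          intro i
          by_cases hi : i < k
          · obtain ⟨c, h3, h4, h5⟩ := (hC i hi).1 y hy
            exact ⟨c, fun _ => ⟨h3, h4, h5⟩⟩
          · exact ⟨0, fun h => absurd h hi⟩
        choose c hc using h2
        obtain ⟨b, hb, h3⟩ := hl.bdd hk c fun i hi => (hc i hi).2.2
        exact ⟨max b (Order.succ y), fun _ => ⟨max_lt hb (hl.succ_lt hy),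
          (Order.lt_succ y).trans_le (le_max_right _ _), fun i hi =>
          ⟨c i, (hc i hi).1, (hc i hi).2.1, (h3 i hi).trans_le (le_max_left _ _)⟩⟩⟩
      · exact ⟨0, fun h => absurd h hy⟩
    choose N hN using h1
    let G : ℕ → Ordinal.{u} := fun n => Nat.rec x (fun _ γ => N γ) n
    have hG : ∀ n, G n < l := by
      intro n
      induction n with
      | zero => exact hx
      | succ n ih => exact (hN _ ih).1
    have hGs : ∀ n, G n < G (n + 1) := fun n => (hN _ (hG n)).2.1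
    obtain ⟨α, hα, h4, h5, h6⟩ := exists_sup hl hG hGs
    refine ⟨α, fun i hi => ?_, h4 0, hα⟩
    refine (hC i hi).2 α hα (bot_le.trans_lt (h4 0)) fun y hy => ?_
    obtain ⟨n, hn⟩ := h5 y hy
    obtain ⟨c, hc, h7, h8⟩ := (hN _ (hG n)).2.2 i hi
    exact ⟨c, hc, hn.trans h7, h8.trans (h4 (n + 1))⟩
  · obtain ⟨c, hc, h1, h2⟩ := hlim x hx
    exact ⟨c, hc i hi, h1, h2⟩

theorem ClubO.inter {l : Ordinal.{u}} (hl : RegUnc l.toZFSet) {C D : Set Ordinal.{u}}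
    (hC : ClubO C l) (hD : ClubO D l) : ClubO (C ∩ D) l := by
  have h1 : (2 : Ordinal.{u}) < l := by
    refine lt_trans ?_ hl.om_lt
    exact_mod_cast Ordinal.natCast_lt_omega0 2
  have h2 := ClubO.iInter hl h1 (C := fun i => if i = 0 then C else D) (fun i _ => by
    by_cases h : i = 0
    · simp only [h, if_true]; exact hC
    · simp only [h, if_false]; exact hD)
  have h3 : {x | ∀ i < (2 : Ordinal.{u}), x ∈ (if i = 0 then C else D)} = C ∩ D := by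
    ext x
    constructor
    · intro h
      refine ⟨?_, ?_⟩
      · have := h 0 (by exact_mod_cast two_pos)
        simpa using this
      · have := h 1 (by exact_mod_cast one_lt_two)
        simpa using this
    · rintro ⟨h4, h5⟩ i _
      by_cases h : i = 0
      · simp only [h, if_true]; exact h4
      · simp only [h, if_false]; exact h5
  rw [h3] at h2
  exact h2

/-- A club contains limits of its elements of every smaller cofinality. -/
theorem exists_pt' {ν γ : Ordinal.{u}} (hν : RegUnc ν.toZFSet) {C : Set Ordinal.{u}}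
    (hC : ClubO C ν) (hγ : IsReg γ) (hγν : γ < ν) :
    ∃ ξ < ν, 0 < ξ ∧ (∀ y < ξ, ∃ c ∈ C, y < c ∧ c < ξ) ∧ IsCof γ ξ := by
  have hN : ∀ y : Ordinal.{u}, ∃ z, y < z ∧ (y < ν → z < ν ∧ z ∈ C) := by
    intro y
    by_cases hy : y < ν
    · obtain ⟨c, hc, h1, h2⟩ := hC.1 y hy
      exact ⟨c, h1, fun _ => ⟨h2, hc⟩⟩
    · exact ⟨Order.succ y, Order.lt_succ _, fun h => absurd h hy⟩
  choose N hN1 hN2 using hN
  obtain ⟨h, hh⟩ : ∃ h : Ordinal.{u} → Ordinal.{u}, ∀ i, h i = N (lsb i h) := by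
    refine ⟨WellFounded.fix (wellFounded_lt (α := Ordinal.{u})) fun i ih =>
      N (⨆ j : Set.Iio i, Order.succ (ih j.1 j.2)), fun ξ => ?_⟩
    exact WellFounded.fix_eq _ _ _
  have hlt : ∀ i j, i < j → h i < h j := fun i j hij => by
    rw [hh j]
    exact (lt_lsb hij).trans (hN1 _)
  have hmono : ∀ i j, i ≤ j → h i ≤ h j := fun i j hij => by
    rcases hij.lt_or_eq with h4 | h4
    · exact (hlt i j h4).le
    · rw [h4]
  have hbd : ∀ i < ν, h i < ν ∧ lsb i h < ν := by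
    intro i
    induction i using WellFoundedLT.induction with
    | ind i ih =>
      intro hi
      obtain ⟨b, hb1, hb2⟩ := hν.bdd hi h fun j hj => (ih j hj (hj.trans hi)).1
      have h4 : lsb i h < ν := (lsb_le hb2).trans_lt hb1
      refine ⟨?_, h4⟩
      rw [hh i]
      exact (hN2 _ h4).1
  have hmem : ∀ i < ν, h i ∈ C := fun i hi => by
    rw [hh i]
    exact (hN2 _ (hbd i hi).2).2
  have hsucc : ∀ y < lsb γ h, ∃ j < γ, y < h j := fun y hy => by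
    obtain ⟨j, hj, h4⟩ := exists_of_lt_lsb hy
    exact ⟨_, hγ.2.1 j hj, h4.trans_lt (hlt _ _ (Order.lt_succ j))⟩
  refine ⟨lsb γ h, (hbd γ hγν).2, bot_le.trans_lt (lt_lsb (f := h) hγ.1), fun y hy => ?_, ?_⟩
  · obtain ⟨j, hj, h4⟩ := hsucc y hy
    exact ⟨_, hmem j (hj.trans hγν), h4, lt_lsb hj⟩
  · refine (isCof_iff (G := h) (fun i hi => lt_lsb hi) hmono hsucc γ).2
      ⟨cofN_of (G := fun i => i) (fun i hi => hi) fun y hy => ⟨_, hγ.2.1 y hy, Order.lt_succ y⟩,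
        hγ.2.2⟩

/-- **Club guessing.** -/
theorem exists_guess {χ χ₁ l : Ordinal.{u}} (hχ : RegUnc χ.toZFSet) (hχ₁ : RegUnc χ₁.toZFSet)
    (hl : RegUnc l.toZFSet) (h1 : χ < χ₁) (h2 : χ₁ < l) :
    ∃ C : Ordinal.{u} → Set Ordinal.{u}, ∀ W, ClubO W l → ∃ γ < l, IsCof χ γ ∧
      (∀ c ∈ C γ, c < γ ∧ c ∈ W) ∧ ∀ x < γ, ∃ c ∈ C γ, x < c := by
  have hex : ∀ γ : Ordinal.{u}, ∃ e : Ordinal.{u} → Ordinal.{u}, (∀ y < γ, Order.succ y < γ) →
      IsCof χ γ → Nrm χ γ e := by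
    intro γ
    by_cases h : (∀ y < γ, Order.succ y < γ) ∧ IsCof χ γ
    · obtain ⟨e, he⟩ := exists_nrm h.1 h.2.1 h.2.2
      exact ⟨e, fun _ _ => he⟩
    · exact ⟨fun x => x, fun h3 h4 => absurd ⟨h3, h4⟩ h⟩
  choose e he using hex
  have hlimsucc : ∀ (E : Set Ordinal.{u}) (γ : Ordinal.{u}), (∀ x < γ, ∃ c ∈ E, x < c ∧ c < γ) →
      ∀ y < γ, Order.succ y < γ := by
    intro E γ h y hy
    obtain ⟨c, _, h3, h4⟩ := h y hy
    exact (Order.succ_le_of_lt h3).trans_lt h4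
  have key : ∃ E, ClubO E l ∧ ∀ D, ClubO D l → ∃ γ < l, (∀ x < γ, ∃ c ∈ E, x < c ∧ c < γ) ∧
      IsCof χ γ ∧ ∀ i < χ, e γ i ∈ E → e γ i ∈ D := by
    by_contra hcon
    push Not at hcon
    have hcon' : ∀ E : Set Ordinal.{u}, ∃ D : Set Ordinal.{u}, ClubO E l → ClubO D l ∧ ∀ γ < l,
        (∀ x < γ, ∃ c ∈ E, x < c ∧ c < γ) → IsCof χ γ → ∃ i < χ, e γ i ∈ E ∧ e γ i ∉ D := by
      intro E
      by_cases hE : ClubO E l
      · obtain ⟨D, hD, h3⟩ := hcon E hE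
        exact ⟨D, fun _ => ⟨hD, h3⟩⟩
      · exact ⟨∅, fun h => absurd h hE⟩
    choose D hD using hcon'
    obtain ⟨E, hE⟩ : ∃ E : Ordinal.{u} → Set Ordinal.{u}, ∀ i, E i =
        {x | ∀ j < i, x ∈ E j ∩ D (E j)} := by
      refine ⟨WellFounded.fix (wellFounded_lt (α := Ordinal.{u})) fun i ih =>
        {x | ∀ j, ∀ h : j < i, x ∈ ih j h ∩ D (ih j h)}, fun i => ?_⟩
      exact WellFounded.fix_eq _ _ _
    have hcl : ∀ i < l, ClubO (E i) l := by
      intro i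
      induction i using WellFoundedLT.induction with
      | ind i ih =>
        intro hi
        rw [hE i]
        exact ClubO.iInter hl hi fun j hj =>
          (ih j hj (hj.trans hi)).inter hl (hD _ (ih j hj (hj.trans hi))).1
    obtain ⟨γ, hγ, hγ0, h3, h4⟩ := exists_pt' hl (hcl _ h2) (IsReg.of_regUnc hχ) (h1.trans h2)
    have h5 : ∀ j, ∃ i, j < χ₁ → i < χ ∧ e γ i ∈ E j ∧ e γ i ∉ D (E j) := by
      intro j
      by_cases hj : j < χ₁
      · obtain ⟨i, hi, h6, h7⟩ := (hD _ (hcl j (hj.trans h2))).2 γ hγ (fun x hx => by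
          obtain ⟨c, hc, h8, h9⟩ := h3 x hx
          rw [hE χ₁] at hc
          exact ⟨c, (hc j hj).1, h8, h9⟩) h4
        exact ⟨i, fun _ => ⟨hi, h6, h7⟩⟩
      · exact ⟨0, fun h => absurd h hj⟩
    choose p hp using h5
    have h6 : ∀ j < χ₁, ∀ j' < χ₁, j < j' → p j ≠ p j' := by
      intro j hj j' hj' hjj h7
      have h8 := (hp j' hj').2.1
      rw [hE j'] at h8
      have h9 := (h8 j hjj).2
      rw [← h7] at h9
      exact (hp j hj).2.2 h9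
    have h7 : Function.Injective fun i : Set.Iio χ₁ => (⟨p i.1, (hp i.1 i.2).1⟩ : Set.Iio χ) := by
      intro i i' h8
      have h9 : p i.1 = p i'.1 := congrArg (fun q : Set.Iio χ => q.1) h8
      rcases lt_trichotomy i.1 i'.1 with h | h | h
      · exact absurd h9 (h6 _ i.2 _ i'.2 h)
      · exact Subtype.ext h
      · exact absurd h9.symm (h6 _ i'.2 _ i.2 h)
    have h8 := Cardinal.mk_le_of_injective h7
    rw [Cardinal.mk_Iio_ordinal, Cardinal.mk_Iio_ordinal, Cardinal.lift_le] at h8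
    exact absurd (IsCard.card_lt hχ₁.isCard h1) (not_lt.2 h8)
  obtain ⟨E, hE, hkey⟩ := key
  refine ⟨fun γ => {c | c ∈ E ∧ ∃ i < χ, c = e γ i}, fun W hW => ?_⟩
  obtain ⟨γ, hγ, h3, h4, h5⟩ := hkey W hW
  have heγ := he γ (hlimsucc E γ h3) h4
  refine ⟨γ, hγ, h4, ?_, fun x hx => ?_⟩
  · rintro c ⟨hc, i, hi, rfl⟩
    exact ⟨heγ.lt i hi, h5 i hi hc⟩
  · have h6 : ClubO E γ := ⟨h3, fun a ha h0 hlim => hE.2 a (ha.trans hγ) h0 hlim⟩
    have h7 := clubO_of (heγ.club_pre hχ h6.club)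
    obtain ⟨i, hi, h8⟩ := heγ.cof x hx
    obtain ⟨j, hj, hij, hjχ⟩ := h7.1 i hi
    have hj' : j.toZFSet ∈ ZFSet.sep (fun x => (e γ (rank x)).toZFSet ∈
      ZFSet.sep (fun x => rank x ∈ E) γ.toZFSet) χ.toZFSet := hj
    rw [mem_sep, Ordinal.rank_toZFSet, mem_sep, Ordinal.rank_toZFSet] at hj'
    exact ⟨e γ j, ⟨hj'.2.2, j, hjχ, rfl⟩, h8.trans (heγ.mono _ _ hij)⟩

/-- From `r` on the function `F · a` is below `F · b`. -/
def Up (F : Ordinal.{u} → Ordinal.{u} → Ordinal.{u}) (L r a b : Ordinal.{u}) : Prop :=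
  ∀ i, r ≤ i → i < L → F i a < F i b

theorem Up.mono {F : Ordinal.{u} → Ordinal.{u} → Ordinal.{u}} {L r r' a b : Ordinal.{u}}
    (h : Up F L r a b) (hr : r ≤ r') : Up F L r' a b := fun i hi hiL => h i (hr.trans hi) hiL

/-- **Strongly increasing subsequences.** -/
theorem strong_inc {F : Ordinal.{u} → Ordinal.{u} → Ordinal.{u}} {L δ χ χ₁ l : Ordinal.{u}}
    {T : Set Ordinal.{u}} (hδ0 : 0 < δ) (hχ : RegUnc χ.toZFSet) (hχ₁ : RegUnc χ₁.toZFSet)
    (hl : RegUnc l.toZFSet) (h1 : χ < χ₁) (h2 : χ₁ < l)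
    (hδ : ∀ f : Ordinal.{u} → Ordinal.{u}, (∀ i < l, f i < δ) → ∃ b < δ, ∀ i < l, f i < b)
    (hinc : ∀ a b, a < b → b < δ → ∃ r < L, Up F L r a b)
    (hclb : ∀ d < δ, (∀ y < d, Order.succ y < d) → IsCof l d → ∃ E, ClubO E d ∧ ∃ r < L, ∀ a ∈ E,
      a < d → Up F L r a d)
    (hT : ∀ x < δ, ∃ t ∈ T, x < t ∧ t < δ) :
    ∃ (γ : Ordinal.{u}) (C : Set Ordinal.{u}) (α rr : Ordinal.{u} → Ordinal.{u}), IsCof χ γ ∧
      (∀ c ∈ C, c < γ) ∧ (∀ x < γ, ∃ c ∈ C, x < c) ∧ (∀ j ∈ C, α j ∈ T ∧ α j < δ ∧ rr j < L) ∧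
      ∀ j ∈ C, ∀ j' ∈ C, j < j' → ∀ r, rr j ≤ r → rr j' ≤ r → Up F L r (α j) (α j') := by
  classical
  obtain ⟨C, hC⟩ := exists_guess hχ hχ₁ hl h1 h2
  -- the choice of the next element
  have hN : ∀ (i : Ordinal.{u}) (f : Ordinal.{u} → Ordinal.{u}), ∃ t, f i < δ →
      t ∈ T ∧ t < δ ∧ f i < t ∧ ∀ γ < l, (∃ σ < δ, ∃ r < L, ∀ k ∈ C γ, k ≤ i → Up F L r (f k) σ) →
        ∃ r < L, ∀ k ∈ C γ, k ≤ i → Up F L r (f k) t := by
    intro i f
    by_cases hf : f i < δ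
    · have h3 : ∀ γ, ∃ σ, σ < δ ∧
          ((∃ σ < δ, ∃ r < L, ∀ k ∈ C γ, k ≤ i → Up F L r (f k) σ) →
            ∃ r < L, ∀ k ∈ C γ, k ≤ i → Up F L r (f k) σ) := by
        intro γ
        by_cases h : ∃ σ < δ, ∃ r < L, ∀ k ∈ C γ, k ≤ i → Up F L r (f k) σ
        · obtain ⟨σ, hσ, h4⟩ := h
          exact ⟨σ, hσ, fun _ => h4⟩
        · exact ⟨0, hδ0, fun h' => absurd h' h⟩
      choose σ hσ1 hσ2 using h3
      obtain ⟨b, hb, hb'⟩ := hδ σ fun γ _ => hσ1 γ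
      obtain ⟨t, ht, h4, h5⟩ := hT (max b (f i)) (max_lt hb hf)
      refine ⟨t, fun _ => ⟨ht, h5, (le_max_right _ _).trans_lt h4, fun γ hγ h6 => ?_⟩⟩
      obtain ⟨r, hr, h7⟩ := hσ2 γ h6
      obtain ⟨r', hr', h8⟩ := hinc (σ γ) t ((hb' γ hγ).trans ((le_max_left _ _).trans_lt h4)) h5
      exact ⟨max r r', max_lt hr hr', fun k hk hki i' hi' hi'' =>
        (h7 k hk hki i' ((le_max_left _ _).trans hi') hi'').trans
          (h8 i' ((le_max_right _ _).trans hi') hi'')⟩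
    · exact ⟨0, fun h => absurd h hf⟩
  choose N hN using hN
  obtain ⟨e, he⟩ : ∃ e : Ordinal.{u} → Ordinal.{u}, ∀ j, e j = lsb j fun i =>
      max (e i) (N i fun k => if h : k ≤ i then e k else 0) := by
    refine ⟨WellFounded.fix (wellFounded_lt (α := Ordinal.{u})) fun j ih =>
      ⨆ i : Set.Iio j, Order.succ (max (ih i.1 i.2)
        (N i.1 fun k => if h : k ≤ i.1 then ih k (h.trans_lt i.2) else 0)), fun j => ?_⟩
    exact WellFounded.fix_eq _ _ _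
  set α : Ordinal.{u} → Ordinal.{u} := fun i => max (e i) (N i fun k => if h : k ≤ i then e k else 0)
    with hα
  have hαe : ∀ i j, i < j → α i < e j := fun i j hij => by
    rw [he j]
    exact lt_lsb hij
  have heα : ∀ i, e i ≤ α i := fun i => le_max_left _ _
  have hemono : ∀ ξ ζ, ζ < ξ → e ζ < e ξ := fun ξ ζ h => (heα ζ).trans_lt (hαe _ _ h)
  have hspec : ∀ i, e i < δ → α i ∈ T ∧ α i < δ ∧ ∀ γ < l,
      (∃ σ < δ, ∃ r < L, ∀ k ∈ C γ, k ≤ i → Up F L r (e k) σ) →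
        ∃ r < L, ∀ k ∈ C γ, k ≤ i → Up F L r (e k) (α i) := by
    intro i hi
    have h3 := hN i (fun k => if h : k ≤ i then e k else 0)
    have h4 : (if h : i ≤ i then e i else 0) = e i := by simp
    simp only [h4] at h3
    obtain ⟨h5, h6, h7, h8⟩ := h3 hi
    have h9 : α i = N i fun k => if h : k ≤ i then e k else 0 := max_eq_right h7.le
    rw [h9]
    refine ⟨h5, h6, fun γ hγ h10 => ?_⟩
    obtain ⟨σ, hσ, r, hr, h11⟩ := h10
    obtain ⟨r', hr', h12⟩ := h8 γ hγ ⟨σ, hσ, r, hr, fun k hk hki => by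
      simp only [hki, dite_true]
      exact h11 k hk hki⟩
    refine ⟨r', hr', fun k hk hki => ?_⟩
    have h13 := h12 k hk hki
    simp only [hki, dite_true] at h13
    exact h13
  have hlt : ∀ i < l, e i < δ := by
    intro i
    induction i using WellFoundedLT.induction with
    | ind i ih =>
      intro hi
      obtain ⟨b, hb, h3⟩ := hδ (fun k => if k < i then α k else 0) fun k hk => by
        by_cases hki : k < i
        · simp only [hki, if_true]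
          exact (hspec k (ih k hki hk)).2.1
        · simp only [hki, if_false]
          exact hδ0
      rw [he i]
      refine (lsb_le fun k hk => ?_).trans_lt hb
      have h4 := h3 k (hk.trans hi)
      simp only [hk, if_true] at h4
      exact h4
  have hαlt : ∀ i < l, α i < δ := fun i hi => (hspec i (hlt i hi)).2.1
  obtain ⟨b, hb, hb'⟩ := hδ α hαlt
  have hel : ∀ i < l, e i < e l := fun i hi => hemono _ _ hi
  have helδ : e l < δ := by
    rw [he l]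
    exact (lsb_le hb').trans_lt hb
  have hsucc : ∀ i < l, Order.succ i < l := fun i hi => hl.succ_lt hi
  have hnrm : Nrm l (e l) e := by
    refine ⟨hel, hemono, fun y hy => ?_, fun ξ y hy => ?_, hsucc⟩
    · rw [he l] at hy
      obtain ⟨j, hj, h3⟩ := exists_of_lt_lsb hy
      exact ⟨_, hsucc j hj, h3.trans_lt (hαe _ _ (Order.lt_succ j))⟩
    · rw [he ξ] at hy
      obtain ⟨j, hj, h3⟩ := exists_of_lt_lsb hy
      exact ⟨j, hj, h3.trans_lt (hαe _ _ (Order.lt_succ j))⟩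
  have hcofl : IsCof l (e l) := (hnrm.isCof hsucc).2 ⟨cofN_of (G := fun i => i) (fun i hi => hi)
    fun y hy => ⟨_, hsucc y hy, Order.lt_succ y⟩, (IsReg.of_regUnc hl).2.2⟩
  have hlimd : ∀ y < e l, Order.succ y < e l := fun y hy => by
    obtain ⟨ξ, hξ, h3⟩ := hnrm.cof y hy
    exact (Order.succ_le_of_lt h3).trans_lt (hel ξ hξ)
  obtain ⟨E, hE, r₀, hr₀, hEr⟩ := hclb (e l) helδ hlimd hcofl
  have h7 := clubO_of (hnrm.club_pre hl hE.club)
  obtain ⟨γ, hγ, hcγ, h3, h4⟩ := hC _ h7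
  have h3' : ∀ c ∈ C γ, c < γ ∧ e c ∈ E := fun c hc => by
    refine ⟨(h3 c hc).1, ?_⟩
    have h8 : c.toZFSet ∈ ZFSet.sep (fun x => (e (rank x)).toZFSet ∈
      ZFSet.sep (fun x => rank x ∈ E) (e l).toZFSet) l.toZFSet := (h3 c hc).2
    rw [mem_sep, Ordinal.rank_toZFSet, mem_sep, Ordinal.rank_toZFSet] at h8
    exact h8.2.2
  -- thresholds
  have hthr1 : ∀ j ∈ C γ, ∃ r < L, ∀ k ∈ C γ, k ≤ j → Up F L r (e k) (α j) := by
    intro j hj
    have hjl : j < l := (h3' j hj).1.trans hγ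
    refine (hspec j (hlt j hjl)).2.2 γ hγ ⟨e l, helδ, r₀, hr₀, fun k hk _ => ?_⟩
    exact hEr _ (h3' k hk).2 (hel k ((h3' k hk).1.trans hγ))
  have hnext : ∀ j ∈ C γ, ∃ j₁ ∈ C γ, j < j₁ ∧ ∀ j' ∈ C γ, j < j' → j₁ ≤ j' := by
    intro j hj
    have hne : {c | c ∈ C γ ∧ j < c}.Nonempty := by
      obtain ⟨c, hc, h5⟩ := h4 j (h3' j hj).1
      exact ⟨c, hc, h5⟩
    refine ⟨WellFounded.min wellFounded_lt _ hne, (WellFounded.min_mem wellFounded_lt _ hne).1,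
      (WellFounded.min_mem wellFounded_lt _ hne).2, fun j' hj' h5 => ?_⟩
    exact not_lt.1 (WellFounded.not_lt_min wellFounded_lt {c | c ∈ C γ ∧ j < c} ⟨hj', h5⟩)
  have hthr : ∀ j, ∃ r, j ∈ C γ → r < L ∧ (∀ k ∈ C γ, k ≤ j → Up F L r (e k) (α j)) ∧
      ∃ j₁ ∈ C γ, (∀ j' ∈ C γ, j < j' → j₁ ≤ j') ∧ Up F L r (α j) (e j₁) := by
    intro j
    by_cases hj : j ∈ C γ
    · obtain ⟨r, hr, h5⟩ := hthr1 j hj
      obtain ⟨j₁, hj₁, h6, h8⟩ := hnext j hj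
      obtain ⟨r', hr', h9⟩ := hinc (α j) (e j₁) (hαe _ _ h6) (hlt _ ((h3' _ hj₁).1.trans hγ))
      exact ⟨max r r', fun _ => ⟨max_lt hr hr', fun k hk hkj => (h5 k hk hkj).mono (le_max_left _ _),
        j₁, hj₁, h8, h9.mono (le_max_right _ _)⟩⟩
    · exact ⟨0, fun h => absurd h hj⟩
  choose rr hrr using hthr
  refine ⟨γ, C γ, α, rr, hcγ, fun c hc => (h3 c hc).1, h4, fun j hj => ?_, ?_⟩
  · have hjl : j < l := (h3' j hj).1.trans hγ
    exact ⟨(hspec j (hlt j hjl)).1, hαlt j hjl, (hrr j hj).1⟩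
  · intro j hj j' hj' hjj r hr hr' i hi hiL
    obtain ⟨_, _, j₁, hj₁, h5, h6⟩ := hrr j hj
    exact (h6 i (hr.trans hi) hiL).trans ((hrr j' hj').2.1 j₁ hj₁ (h5 j' hj' hjj) i (hr'.trans hi) hiL)

end Pool.Agent.H639
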