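import Pool.Agent.H639.Sil4

/-!
Gödel pairing of ordinals and surjections in HOD.
-/

set_option autoImplicit false
set_option linter.unusedVariables false

namespace Pool.Agent.H639

open Pool.Agent.H310.HD Gss969 ZFSet Pool.Agent.Results.MP_e37c09_lc.AlternativeA

universe u

/-! ### Gödel pairing -/

/-- Gödel's order of pairs of ordinals. -/
def GO (q p : Ordinal.{u} × Ordinal.{u}) : Prop :=
  max q.1 q.2 < max p.1 p.2 ∨
    (max q.1 q.2 = max p.1 p.2 ∧ (q.1 < p.1 ∨ (q.1 = p.1 ∧ q.2 < p.2)))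

theorem gl_ord {a' b' a b : Ordinal.{u}} :
    Gl a'.toZFSet b'.toZFSet a.toZFSet b.toZFSet ↔ GO (a', b') (a, b) := by
  have h1 : ∀ x y z w : Ordinal.{u}, M1 x.toZFSet y.toZFSet z.toZFSet w.toZFSet ↔
      max x y < max z w := by
    intro x y z w
    unfold M1
    rw [max_lt_iff, lt_max_iff, lt_max_iff, tzm, tzm, tzm, tzm]
  unfold Gl GO
  rw [h1, h1, tzm, tzm, Ordinal.toZFSet_injective.eq_iff]
  constructor
  · rintro (h | ⟨h, h2⟩)
    · exact Or.inl h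
    · rcases (not_lt.1 h).lt_or_eq with h3 | h3
      · exact Or.inl h3
      · exact Or.inr ⟨h3, h2⟩
  · rintro (h | ⟨h, h2⟩)
    · exact Or.inl h
    · exact Or.inr ⟨fun h3 => absurd h3 (not_lt.2 (le_of_eq h)), h2⟩

theorem GO.wf : WellFounded (GO.{u}) := by
  refine Subrelation.wf (r := InvImage (Prod.Lex (· < ·) (Prod.Lex (· < ·) (· < ·)))
    fun p : Ordinal.{u} × Ordinal.{u} => (max p.1 p.2, p.1, p.2)) ?_
    (InvImage.wf _ (WellFounded.prod_lex wellFounded_lt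
      (WellFounded.prod_lex wellFounded_lt wellFounded_lt)))
  rintro ⟨a, b⟩ ⟨c, d⟩ h
  show Prod.Lex _ _ _ _
  rw [Prod.lex_def, Prod.lex_def]
  exact h

theorem GO.trans {p q r : Ordinal.{u} × Ordinal.{u}} (h1 : GO p q) (h2 : GO q r) : GO p r := by
  rcases h1 with h1 | ⟨h1, h3⟩
  · rcases h2 with h2 | ⟨h2, _⟩
    · exact Or.inl (h1.trans h2)
    · exact Or.inl (h1.trans_le h2.le)
  · rcases h2 with h2 | ⟨h2, h4⟩
    · exact Or.inl (h1.le.trans_lt h2)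
    · refine Or.inr ⟨h1.trans h2, ?_⟩
      rcases h3 with h3 | ⟨h3, h5⟩
      · rcases h4 with h4 | ⟨h4, _⟩
        · exact Or.inl (h3.trans h4)
        · exact Or.inl (h3.trans_le h4.le)
      · rcases h4 with h4 | ⟨h4, h6⟩
        · exact Or.inl (h3.le.trans_lt h4)
        · exact Or.inr ⟨h3.trans h4, h5.trans h6⟩

theorem GO.tri (p q : Ordinal.{u} × Ordinal.{u}) : GO p q ∨ p = q ∨ GO q p := by
  rcases lt_trichotomy (max p.1 p.2) (max q.1 q.2) with h | h | h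
  · exact Or.inl (Or.inl h)
  · rcases lt_trichotomy p.1 q.1 with h1 | h1 | h1
    · exact Or.inl (Or.inr ⟨h, Or.inl h1⟩)
    · rcases lt_trichotomy p.2 q.2 with h2 | h2 | h2
      · exact Or.inl (Or.inr ⟨h, Or.inr ⟨h1, h2⟩⟩)
      · exact Or.inr (Or.inl (Prod.ext h1 h2))
      · exact Or.inr (Or.inr (Or.inr ⟨h.symm, Or.inr ⟨h1.symm, h2⟩⟩))
    · exact Or.inr (Or.inr (Or.inr ⟨h.symm, Or.inl h1⟩))
  · exact Or.inr (Or.inr (Or.inl h))

theorem GO.le {p q : Ordinal.{u} × Ordinal.{u}} (h : GO p q) : max p.1 p.2 ≤ max q.1 q.2 := by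
  rcases h with h | ⟨h, _⟩
  · exact h.le
  · exact h.le

theorem small_GO (p : Ordinal.{u} × Ordinal.{u}) : Small.{u} {q // GO q p} := by
  refine small_of_injective (β := Set.Iio (Order.succ (max p.1 p.2)) ×
    Set.Iio (Order.succ (max p.1 p.2)))
    (f := fun q => (⟨q.1.1, Order.lt_succ_iff.2 ((le_max_left _ _).trans q.2.le)⟩,
      ⟨q.1.2, Order.lt_succ_iff.2 ((le_max_right _ _).trans q.2.le)⟩)) ?_
  intro q q' h
  have h1 := congrArg (fun z : Set.Iio (Order.succ (max p.1 p.2)) ×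
    Set.Iio (Order.succ (max p.1 p.2)) => (z.1.1, z.2.1)) h
  exact Subtype.ext h1

/-- Gödel's pairing function. -/
noncomputable def gp : Ordinal.{u} × Ordinal.{u} → Ordinal.{u} :=
  WellFounded.fix GO.wf fun p ih => ⨆ q : {q // GO q p}, Order.succ (ih q.1 q.2)

theorem gp_eq (p : Ordinal.{u} × Ordinal.{u}) : gp p = ⨆ q : {q // GO q p}, Order.succ (gp q.1) :=
  WellFounded.fix_eq _ _ _

theorem gp_lt {p q : Ordinal.{u} × Ordinal.{u}} (h : GO p q) : gp p < gp q := by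
  have := small_GO q
  rw [gp_eq q]
  have h1 := Ordinal.le_iSup (fun q' : {q' // GO q' q} => Order.succ (gp q'.1)) ⟨p, h⟩
  exact (Order.lt_succ _).trans_le h1

theorem exists_of_lt_gp {p : Ordinal.{u} × Ordinal.{u}} {y : Ordinal.{u}} (h : y < gp p) :
    ∃ q, GO q p ∧ gp q = y := by
  induction p using GO.wf.induction with
  | _ p ih =>
    have := small_GO p
    have h' := h
    rw [gp_eq p, Ordinal.lt_iSup_iff] at h'
    obtain ⟨⟨q, hq⟩, h1⟩ := h'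
    rcases (Order.lt_succ_iff.1 h1).lt_or_eq with h2 | h2
    · obtain ⟨q', h3, h4⟩ := ih q hq h2
      exact ⟨q', h3.trans hq, h4⟩
    · exact ⟨q, hq, h2.symm⟩

theorem gp_lt_iff {p q : Ordinal.{u} × Ordinal.{u}} : gp p < gp q ↔ GO p q := by
  refine ⟨fun h => ?_, gp_lt⟩
  rcases GO.tri p q with h1 | h1 | h1
  · exact h1
  · rw [h1] at h
    exact absurd h (lt_irrefl _)
  · exact absurd (gp_lt h1) (not_lt.2 h.le)

theorem gp_inj {p q : Ordinal.{u} × Ordinal.{u}} (h : gp p = gp q) : p = q := by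
  rcases GO.tri p q with h1 | h1 | h1
  · exact absurd h (ne_of_lt (gp_lt h1))
  · exact h1
  · exact absurd h.symm (ne_of_lt (gp_lt h1))

/-- Cardinals are closed under pairing. -/
theorem gp_closed {μ : Ordinal.{u}} (hμ : IsCard μ.toZFSet) (hω : Ordinal.omega0 ≤ μ)
    {a b : Ordinal.{u}} (ha : a < μ) (hb : b < μ) : gp (a, b) < μ := by
  by_contra hcon
  push Not at hcon
  have hm : max a b < μ := max_lt ha hb
  have h1 : ∀ y : Set.Iio μ, ∃ q : Set.Iio (Order.succ (max a b)) × Set.Iio (Order.succ (max a b)),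
      gp (q.1.1, q.2.1) = y.1 := by
    intro y
    obtain ⟨q, hq, h2⟩ := exists_of_lt_gp (lt_of_lt_of_le y.2 hcon)
    exact ⟨(⟨q.1, Order.lt_succ_iff.2 ((le_max_left _ _).trans hq.le)⟩,
      ⟨q.2, Order.lt_succ_iff.2 ((le_max_right _ _).trans hq.le)⟩), h2⟩
  choose f hf using h1
  have hinj : Function.Injective f := fun y y' h => by
    apply Subtype.ext
    rw [← hf y, ← hf y', h]
  have h2 := Cardinal.mk_le_of_injective hinj
  rw [Cardinal.mk_prod, Cardinal.mk_Iio_ordinal, Cardinal.mk_Iio_ordinal, Cardinal.lift_lift,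
    ← Cardinal.lift_mul, Cardinal.lift_le] at h2
  have h3 : Cardinal.aleph0 ≤ μ.card := by
    rw [← Ordinal.card_omega0]
    exact Ordinal.card_le_card hω
  have h4 : (Order.succ (max a b)).card < μ.card := by
    have h5 := IsCard.card_lt hμ hm
    rw [Order.succ_eq_add_one, Ordinal.card_add_one]
    exact Cardinal.add_lt_of_lt h3 h5 (Cardinal.one_lt_aleph0.trans_le h3)
  exact absurd (Cardinal.mul_lt_of_lt h3 h4 h4) (not_lt.2 h2)

/-- The pairing function on `μ`. -/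
noncomputable def PG (μ : Ordinal.{u}) : ZFSet.{u} :=
  ZFSet.sep (fun p => ∃ a b : Ordinal.{u}, p = pair (pair a.toZFSet b.toZFSet)
    (gp (a, b)).toZFSet) (prod (prod μ.toZFSet μ.toZFSet) μ.toZFSet)

theorem mem_PG {μ : Ordinal.{u}} {p : ZFSet.{u}} : p ∈ PG μ ↔ ∃ a b : Ordinal.{u},
    a < μ ∧ b < μ ∧ gp (a, b) < μ ∧ p = pair (pair a.toZFSet b.toZFSet) (gp (a, b)).toZFSet := by
  unfold PG
  rw [mem_sep]
  constructor
  · rintro ⟨h1, a, b, rfl⟩
    rw [pair_mem_prod, pair_mem_prod, tzm, tzm, tzm] at h1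
    exact ⟨a, b, h1.1.1, h1.1.2, h1.2, rfl⟩
  · rintro ⟨a, b, ha, hb, hc, rfl⟩
    exact ⟨pair_mem_prod.2 ⟨pair_mem_prod.2 ⟨tzm.2 ha, tzm.2 hb⟩, tzm.2 hc⟩, a, b, rfl⟩

theorem pair_mem_PG {μ a b c : Ordinal.{u}} :
    pair (pair a.toZFSet b.toZFSet) c.toZFSet ∈ PG μ ↔ a < μ ∧ b < μ ∧ c < μ ∧ gp (a, b) = c := by
  rw [mem_PG]
  constructor
  · rintro ⟨a', b', ha, hb, hc, h⟩
    rw [pair_inj, pair_inj] at h
    obtain ⟨⟨h1, h2⟩, h3⟩ := h
    rw [Ordinal.toZFSet_injective h1, Ordinal.toZFSet_injective h2, Ordinal.toZFSet_injective h3]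
    exact ⟨ha, hb, hc, rfl⟩
  · rintro ⟨ha, hb, hc, rfl⟩
    exact ⟨a, b, ha, hb, hc, rfl⟩

theorem isPP_iff' {μ : Ordinal.{u}} (hcl : ∀ a < μ, ∀ b < μ, gp (a, b) < μ) {P : ZFSet.{u}} :
    IsPP μ.toZFSet P ↔ P = PG μ := by
  constructor
  · rintro ⟨h1, h2, h3⟩
    have key : ∀ p : Ordinal.{u} × Ordinal.{u}, p.1 < μ → p.2 < μ → ∀ c < μ,
        (pair (pair p.1.toZFSet p.2.toZFSet) (Ordinal.toZFSet c) ∈ P ↔ gp p = c) := by
      intro p
      induction p using GO.wf.induction with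
      | _ p ih =>
        intro hp1 hp2
        have one : ∀ c < μ, pair (pair p.1.toZFSet p.2.toZFSet) (Ordinal.toZFSet c) ∈ P →
            gp p = c := by
          intro c hc hm
          have h4 := h3 _ (tzm.2 hp1) _ (tzm.2 hp2) _ (tzm.2 hc) hm
          have h5 : ∀ d < μ, d < c ↔ d < gp p := by
            intro d hd
            rw [← tzm, h4 _ (tzm.2 hd)]
            constructor
            · rintro ⟨a', ha', b', hb', h6, h7⟩
              obtain ⟨a', ha, rfl⟩ := Ordinal.mem_toZFSet_iff.1 ha'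
              obtain ⟨b', hb, rfl⟩ := Ordinal.mem_toZFSet_iff.1 hb'
              rw [gl_ord] at h6
              have h8 := (ih (a', b') h6 ha hb d hd).1 h7
              rw [← h8]
              exact gp_lt h6
            · intro h6
              obtain ⟨q, hq, h7⟩ := exists_of_lt_gp h6
              have hq' := hq.le.trans_lt (max_lt hp1 hp2)
              have hq1 := (le_max_left _ _).trans_lt hq'
              have hq2 := (le_max_right _ _).trans_lt hq'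
              exact ⟨_, tzm.2 hq1, _, tzm.2 hq2, gl_ord.2 hq, (ih q hq hq1 hq2 d hd).2 h7⟩
          rcases lt_trichotomy (gp p) c with h | h | h
          · exact absurd ((h5 _ (h.trans hc)).1 h) (lt_irrefl _)
          · exact h
          · exact absurd ((h5 _ hc).2 h) (lt_irrefl _)
        intro c hc
        refine ⟨one c hc, ?_⟩
        rintro rfl
        obtain ⟨c', hc', h4⟩ := h2 _ (tzm.2 hp1) _ (tzm.2 hp2)
        obtain ⟨c', hc'', rfl⟩ := Ordinal.mem_toZFSet_iff.1 hc'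
        rwa [← one c' hc'' h4] at h4
    ext p
    rw [mem_PG]
    constructor
    · intro hp
      obtain ⟨a, ha, b, hb, c, hc, q, rfl, rfl⟩ := h1 p hp
      obtain ⟨a, ha', rfl⟩ := Ordinal.mem_toZFSet_iff.1 ha
      obtain ⟨b, hb', rfl⟩ := Ordinal.mem_toZFSet_iff.1 hb
      obtain ⟨c, hc', rfl⟩ := Ordinal.mem_toZFSet_iff.1 hc
      have h4 := (key (a, b) ha' hb' c hc').1 hp
      exact ⟨a, b, ha', hb', by rw [h4]; exact hc', by rw [h4]⟩
    · rintro ⟨a, b, ha, hb, hc, rfl⟩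
      exact (key (a, b) ha hb _ hc).2 rfl
  · rintro rfl
    refine ⟨?_, ?_, ?_⟩
    · intro p hp
      obtain ⟨a, b, ha, hb, hc, rfl⟩ := mem_PG.1 hp
      exact ⟨_, tzm.2 ha, _, tzm.2 hb, _, tzm.2 hc, _, rfl, rfl⟩
    · intro a ha b hb
      obtain ⟨a, ha', rfl⟩ := Ordinal.mem_toZFSet_iff.1 ha
      obtain ⟨b, hb', rfl⟩ := Ordinal.mem_toZFSet_iff.1 hb
      exact ⟨_, tzm.2 (hcl a ha' b hb'), mem_PG.2 ⟨a, b, ha', hb', hcl a ha' b hb', rfl⟩⟩
    · intro a ha b hb c hc hm d hd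
      obtain ⟨a, ha', rfl⟩ := Ordinal.mem_toZFSet_iff.1 ha
      obtain ⟨b, hb', rfl⟩ := Ordinal.mem_toZFSet_iff.1 hb
      obtain ⟨c, hc', rfl⟩ := Ordinal.mem_toZFSet_iff.1 hc
      obtain ⟨d, hd', rfl⟩ := Ordinal.mem_toZFSet_iff.1 hd
      rw [pair_mem_PG] at hm
      obtain ⟨_, _, _, rfl⟩ := hm
      rw [tzm]
      constructor
      · intro h
        obtain ⟨q, hq, h7⟩ := exists_of_lt_gp h
        have hq' := hq.le.trans_lt (max_lt ha' hb')
        have hq1 := (le_max_left _ _).trans_lt hq'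
        have hq2 := (le_max_right _ _).trans_lt hq'
        exact ⟨_, tzm.2 hq1, _, tzm.2 hq2, gl_ord.2 hq, pair_mem_PG.2 ⟨hq1, hq2, hd', h7⟩⟩
      · rintro ⟨a', h4, b', h5, h6, h7⟩
        obtain ⟨a', h4', rfl⟩ := Ordinal.mem_toZFSet_iff.1 h4
        obtain ⟨b', h5', rfl⟩ := Ordinal.mem_toZFSet_iff.1 h5
        rw [pair_mem_PG] at h7
        rw [gl_ord] at h6
        rw [← h7.2.2.2]
        exact gp_lt h6

theorem HOD_PG {μ : Ordinal.{u}} (hcl : ∀ a < μ, ∀ b < μ, gp (a, b) < μ) : HOD (PG μ) := by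
  refine HOD_of (R := fun y x => IsPP (x 2) y) (x := asg ∅ ∅ μ.toZFSet ∅ ∅ ∅)
    (dfn_IsPP _ _) HOD_empty.od HOD_empty.od (asg_ord (isOrdinal_toZFSet _) empty_ord empty_ord
      empty_ord) (fun y => isPP_iff' hcl) fun z hz => ?_
  obtain ⟨a, b, _, _, _, rfl⟩ := mem_PG.1 hz
  exact HOD_pair (HOD_pair (HOD_ord _) (HOD_ord _)) (HOD_ord _)

/-! ### Surjections in HOD -/

/-- The pair of `x` and `y` is an element of the value of `f` at `a`. -/
def InF2 (f a x y : ZFSet.{u}) : Prop := ∃ F, pair a F ∈ f ∧ pair x y ∈ F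

theorem dfn_InF2 (i j k l : ℕ) : Dfn Lvl.{u} (fun v => InF2 (v i) (v j) (v k) (v l)) := by
  unfold InF2
  refine Dfn.ex (A := fun F v => pair (v j) F ∈ v i ∧ pair (v k) (v l) ∈ F)
    ((dfn_pm Lvl_sub_Trs _ _ _).and (dfn_pm Lvl_sub_Trs _ _ _)) ?_
  rintro V hV v hv ⟨F, h1, h2⟩
  exact ⟨F, (mem_of_pair hV ((Lvl_sub_Trs hV).mem_trans h1 (hv i))).2, h1, h2⟩

/-- Combination of a family of functions. -/
theorem hod_comb {μ τ γ d : Ordinal.{u}} (hcl : ∀ a < μ, ∀ b < μ, gp (a, b) < μ) (hτ : τ ≤ μ)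
    (hμ0 : 0 < μ) {F : ZFSet.{u} → ZFSet.{u}} (hF : HOD (gr τ.toZFSet F))
    (hFf : ∀ a < τ, IsFunc μ.toZFSet γ.toZFSet (F (Ordinal.toZFSet a))) (hd : d < γ) :
    ∃ S : Ordinal.{u} → Ordinal.{u}, HOD (og μ S) ∧ (∀ i < μ, S i < γ) ∧
      (∀ a < τ, ∀ b < μ, ∀ y : Ordinal.{u}, pair b.toZFSet y.toZFSet ∈ F a.toZFSet →
        ∃ i < μ, S i = y) ∧ (τ < μ → ∃ i < μ, S i = d) := by
  classical
  have h1 : ∀ a, ∃ g : Ordinal.{u} → Ordinal.{u}, a < τ → (∀ i < μ, g i < γ) ∧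
      ∀ i < μ, ∀ y : ZFSet.{u}, pair i.toZFSet y ∈ F a.toZFSet ↔ (g i).toZFSet = y := by
    intro a
    by_cases ha : a < τ
    · obtain ⟨g, hg⟩ := exists_og (hFf a ha)
      exact ⟨g, fun _ => hg⟩
    · exact ⟨fun _ => 0, fun h => absurd h ha⟩
  choose g hg using h1
  let S : Ordinal.{u} → Ordinal.{u} := fun i =>
    if h : ∃ p : Ordinal.{u} × Ordinal.{u}, p.1 < τ ∧ p.2 < μ ∧ gp p = i then
      g h.choose.1 h.choose.2 else d
  have hS1 : ∀ a < τ, ∀ b < μ, S (gp (a, b)) = g a b := by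
    intro a ha b hb
    have h : ∃ p : Ordinal.{u} × Ordinal.{u}, p.1 < τ ∧ p.2 < μ ∧ gp p = gp (a, b) :=
      ⟨(a, b), ha, hb, rfl⟩
    show (if h : ∃ p : Ordinal.{u} × Ordinal.{u}, p.1 < τ ∧ p.2 < μ ∧ gp p = gp (a, b) then
      g h.choose.1 h.choose.2 else d) = _
    rw [dif_pos h, gp_inj h.choose_spec.2.2]
  have hS2 : ∀ i, (¬ ∃ p : Ordinal.{u} × Ordinal.{u}, p.1 < τ ∧ p.2 < μ ∧ gp p = i) → S i = d := by
    intro i h
    exact dif_neg h
  have hS3 : ∀ i < μ, S i < γ := by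
    intro i hi
    by_cases h : ∃ p : Ordinal.{u} × Ordinal.{u}, p.1 < τ ∧ p.2 < μ ∧ gp p = i
    · obtain ⟨⟨a, b⟩, ha, hb, rfl⟩ := h
      rw [hS1 a ha b hb]
      exact (hg a ha).1 b hb
    · rw [hS2 i h]
      exact hd
  refine ⟨S, ?_, hS3, fun a ha b hb y hy => ⟨gp (a, b), hcl a (ha.trans_le hτ) b hb, ?_⟩,
    fun h => ⟨gp (τ, 0), hcl τ h 0 hμ0, hS2 _ ?_⟩⟩
  · refine HOD_gr8 (Ψ := fun v => (∃ a ∈ v 10, ∃ b ∈ v 2, pair (pair a b) (v 1) ∈ v 4 ∧
        InF2 (v 5) a b (v 0)) ∨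
      ((¬ ∃ a ∈ v 10, ∃ b ∈ v 2, pair (pair a b) (v 1) ∈ v 4) ∧ v 0 = v 11)) ?_ (HOD_ord μ)
      (HOD_ord γ) (HOD_PG hcl) hF HOD_empty HOD_empty HOD_empty HOD_empty τ d 0 0
      fun x hx => ?_
    · refine Dfn.or ?_ (Dfn.and (Dfn.not ?_) (Dfn.eq _ _))
      · exact Dfn.bex Lvl_sub_Trs _ (Dfn.bex Lvl_sub_Trs _ ((dfn_ppm _ _ _ _).and
          (dfn_InF2 _ _ _ _)))
      · exact Dfn.bex Lvl_sub_Trs _ (Dfn.bex Lvl_sub_Trs _ (dfn_ppm _ _ _ _))
    · obtain ⟨i, hi, rfl⟩ := Ordinal.mem_toZFSet_iff.1 hx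
      rw [Ordinal.rank_toZFSet]
      refine ⟨tzm.2 (hS3 i hi), fun y hy => ?_⟩
      obtain ⟨y, hy', rfl⟩ := Ordinal.mem_toZFSet_iff.1 hy
      show ((∃ a ∈ τ.toZFSet, ∃ b ∈ μ.toZFSet, pair (pair a b) i.toZFSet ∈ PG μ ∧
        InF2 (gr τ.toZFSet F) a b y.toZFSet) ∨
        ((¬ ∃ a ∈ τ.toZFSet, ∃ b ∈ μ.toZFSet, pair (pair a b) i.toZFSet ∈ PG μ) ∧
          y.toZFSet = d.toZFSet)) ↔ y.toZFSet = (S i).toZFSet
      have e : (∃ a ∈ τ.toZFSet, ∃ b ∈ μ.toZFSet, pair (pair a b) i.toZFSet ∈ PG μ) ↔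
          ∃ p : Ordinal.{u} × Ordinal.{u}, p.1 < τ ∧ p.2 < μ ∧ gp p = i := by
        constructor
        · rintro ⟨a, ha, b, hb, h⟩
          obtain ⟨a, ha', rfl⟩ := Ordinal.mem_toZFSet_iff.1 ha
          obtain ⟨b, hb', rfl⟩ := Ordinal.mem_toZFSet_iff.1 hb
          exact ⟨(a, b), ha', hb', (pair_mem_PG.1 h).2.2.2⟩
        · rintro ⟨⟨a, b⟩, ha, hb, h⟩
          exact ⟨_, tzm.2 ha, _, tzm.2 hb, pair_mem_PG.2 ⟨lt_of_lt_of_le ha hτ, hb, hi, h⟩⟩
      rw [e, Ordinal.toZFSet_injective.eq_iff, Ordinal.toZFSet_injective.eq_iff]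
      constructor
      · rintro (⟨a, ha, b, hb, h, h2⟩ | ⟨h, h2⟩)
        · obtain ⟨a, ha', rfl⟩ := Ordinal.mem_toZFSet_iff.1 ha
          obtain ⟨b, hb', rfl⟩ := Ordinal.mem_toZFSet_iff.1 hb
          obtain ⟨_, _, _, rfl⟩ := pair_mem_PG.1 h
          obtain ⟨f, h3, h4⟩ := h2
          rw [pair_mem_gr] at h3
          rw [← h3.2, (hg a ha').2 b hb'] at h4
          rw [hS1 a ha' b hb']
          exact (Ordinal.toZFSet_injective h4).symm
        · rw [h2, hS2 i h]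
      · intro h
        by_cases h2 : ∃ p : Ordinal.{u} × Ordinal.{u}, p.1 < τ ∧ p.2 < μ ∧ gp p = i
        · left
          obtain ⟨⟨a, b⟩, ha, hb, rfl⟩ := h2
          refine ⟨_, tzm.2 ha, _, tzm.2 hb, pair_mem_PG.2 ⟨lt_of_lt_of_le ha hτ, hb, hi, rfl⟩,
            _, pair_mem_gr.2 ⟨tzm.2 ha, rfl⟩, ?_⟩
          rw [(hg a ha).2 b hb, h, hS1 a ha b hb]
        · right
          exact ⟨h2, by rw [h, hS2 i h2]⟩
  · rw [hS1 a ha b hb]
    exact Ordinal.toZFSet_injective (((hg a ha).2 b hb _).1 hy)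
  · rintro ⟨p, hp, _, hp2⟩
    rw [gp_inj hp2] at hp
    exact absurd hp (lt_irrefl _)

/-- **Surjections in HOD** from a cardinal onto all ordinals below the next regular cardinal of
HOD. -/
theorem hod_surj {μ κ : Ordinal.{u}} (hμ : IsCard μ.toZFSet) (hω : Ordinal.omega0 ≤ μ)
    (hno : ∀ τ, μ < τ → τ < κ → ¬ HODReg τ) (γ : Ordinal.{u}) : 0 < γ → γ < κ →
      ∃ S : Ordinal.{u} → Ordinal.{u}, HOD (og μ S) ∧ (∀ i < μ, S i < γ) ∧
        ∀ y < γ, ∃ i < μ, S i = y := by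
  have hcl : ∀ a < μ, ∀ b < μ, gp (a, b) < μ := fun a ha b hb => gp_closed hμ hω ha hb
  have hμ0 : 0 < μ := Ordinal.omega0_pos.trans_le hω
  have hμ1 : 1 < μ := Ordinal.one_lt_omega0.trans_le hω
  induction γ using WellFoundedLT.induction with
  | ind γ ih =>
    intro h0 hγκ
    rcases le_or_gt γ μ with hγμ | hγμ
    · refine ⟨fun i => if i < γ then i else 0, ?_, fun i hi => ?_, fun y hy =>
        ⟨y, hy.trans_le hγμ, by simp [hy]⟩⟩
      · refine HOD_gr8 (Ψ := fun v => (v 1 ∈ v 10 ∧ v 0 = v 1) ∨ (¬ v 1 ∈ v 10 ∧ v 0 = v 11))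
          (((Dfn.mem _ _).and (Dfn.eq _ _)).or ((Dfn.mem _ _).not.and (Dfn.eq _ _))) (HOD_ord μ)
          (HOD_ord γ) HOD_empty HOD_empty HOD_empty HOD_empty HOD_empty HOD_empty γ 0 0 0
          fun x hx => ?_
        obtain ⟨i, hi, rfl⟩ := Ordinal.mem_toZFSet_iff.1 hx
        rw [Ordinal.rank_toZFSet]
        refine ⟨?_, fun y hy => ?_⟩
        · by_cases h : i < γ
          · simp only [h, if_true]; exact tzm.2 h
          · simp only [h, if_false]; exact tzm.2 h0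
        · show ((i.toZFSet ∈ γ.toZFSet ∧ y = i.toZFSet) ∨
            (¬ i.toZFSet ∈ γ.toZFSet ∧ y = (0 : Ordinal.{u}).toZFSet)) ↔ _
          rw [tzm]
          by_cases h : i < γ
          · simp [h]
          · simp [h]
      · by_cases h : i < γ
        · simp only [h, if_true]
        · simp only [h, if_false]; exact h0
    · by_cases hlim : ∀ y < γ, Order.succ y < γ
      · -- the limit case
        obtain ⟨τ, hτγ, hτ, G, hG, hG1, hG2, hG3, _⟩ := hod_cof h0 hlim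
        have hτμ : τ ≤ μ := by
          by_contra hcon
          push Not at hcon
          exact hno τ hcon (hτγ.trans_lt hγκ) hτ
        have hex : ∀ x ∈ τ.toZFSet, ∃ y ∈ Ph (prod μ.toZFSet γ.toZFSet),
            IsFunc μ.toZFSet γ.toZFSet y ∧ ∀ z ∈ γ.toZFSet, ∀ w ∈ γ.toZFSet,
              pair x w ∈ og τ G → z ∈ w → ∃ i ∈ μ.toZFSet, pair i z ∈ y := by
          intro x hx
          obtain ⟨i, hi, rfl⟩ := Ordinal.mem_toZFSet_iff.1 hx
          have h1 : max 1 (G i) < γ := by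
            refine max_lt ?_ (hG1 i hi)
            have h2 := hlim 0 h0
            have h3 : Order.succ (0 : Ordinal.{u}) = 1 := by
              rw [Order.succ_eq_add_one, zero_add]
            rwa [h3] at h2
          obtain ⟨S, hS1, hS2, hS3⟩ := ih (max 1 (G i)) h1
            (zero_lt_one.trans_le (le_max_left _ _)) (h1.trans hγκ)
          have hfn : IsFunc μ.toZFSet γ.toZFSet (og μ S) := isFunc_og fun i hi => (hS2 i hi).trans h1
          refine ⟨og μ S, mem_Ph.2 ⟨hfn.1, hS1⟩, hfn, fun z hz w hw h2 h3 => ?_⟩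
          rw [pair_og] at h2
          rw [← h2.2] at h3
          obtain ⟨z, hz', rfl⟩ := Ordinal.mem_toZFSet_iff.1 hz
          obtain ⟨j, hj, h4⟩ := hS3 z ((tzm.1 h3).trans_le (le_max_right _ _))
          exact ⟨_, tzm.2 hj, pair_og'.2 ⟨hj, h4⟩⟩
        obtain ⟨F, hF, hF'⟩ := HOD_choice (Ψ := fun v => IsFunc (v 10) (v 11) (v 0) ∧
            ∀ z ∈ v 11, ∀ w ∈ v 11, pair (v 1) w ∈ v 4 → z ∈ w → ∃ i ∈ v 10, pair i z ∈ v 0)
          (by
            refine (dfn_isFunc Lvl_sub_Trs _ _ _).and ?_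
            repeat' first
              | exact Dfn.mem _ _ | exact dfn_pm Lvl_sub_Trs _ _ _ | refine Dfn.imp ?_ ?_
              | refine Dfn.ball Lvl_sub_Trs _ ?_ | refine Dfn.bex Lvl_sub_Trs _ ?_)
          (HOD_ord τ) (HOD_Ph (HOD_prod (HOD_ord μ) (HOD_ord γ))) hG HOD_empty HOD_empty HOD_empty
          HOD_empty μ γ 0 0 hex
        obtain ⟨S, hS1, hS2, hS3, _⟩ := hod_comb hcl hτμ hμ0 hF
          (fun a ha => (hF' _ (tzm.2 ha)).2.1) h0
        refine ⟨S, hS1, hS2, fun y hy => ?_⟩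
        obtain ⟨i, hi, h1⟩ := hG3 y hy
        obtain ⟨_, _, h2⟩ := hF' _ (tzm.2 hi)
        obtain ⟨j, hj, h3⟩ := h2 _ (tzm.2 hy) _ (tzm.2 (hG1 i hi)) (pair_og.2 ⟨hi, rfl⟩)
          (tzm.2 h1)
        obtain ⟨j, hj', rfl⟩ := Ordinal.mem_toZFSet_iff.1 hj
        exact hS3 i hi j hj' y h3
      · -- the successor case
        push Not at hlim
        obtain ⟨δ, hδ, h1⟩ := hlim
        have h2 : Order.succ δ = γ := le_antisymm (Order.succ_le_of_lt hδ) h1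
        have hδμ : μ ≤ δ := Order.lt_succ_iff.1 (by rw [h2]; exact hγμ)
        obtain ⟨S₀, hS1, hS2, hS3⟩ := ih δ hδ (hμ0.trans_le hδμ) (hδ.trans hγκ)
        have hF : HOD (gr (1 : Ordinal.{u}).toZFSet fun _ => og μ S₀) := by
          refine HOD_gr8 (Ψ := fun v => v 0 = v 4) (Dfn.eq _ _) (HOD_ord 1)
            (HOD_pair_set hS1 hS1) hS1 HOD_empty HOD_empty HOD_empty HOD_empty HOD_empty 0 0 0 0
            fun x hx => ⟨by simp, fun y hy => Iff.rfl⟩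
        obtain ⟨S, hS4, hS5, hS6, hS7⟩ := hod_comb hcl hμ1.le hμ0 hF
          (fun a ha => isFunc_og fun i hi => (hS2 i hi).trans hδ) hδ
        refine ⟨S, hS4, hS5, fun y hy => ?_⟩
        rw [← h2] at hy
        rcases (Order.lt_succ_iff.1 hy).lt_or_eq with h3 | h3
        · obtain ⟨i, hi, h4⟩ := hS3 y h3
          exact hS6 0 zero_lt_one i hi y (pair_og'.2 ⟨hi, h4⟩)
        · rw [h3]
          exact hS7 hμ1

end Pool.Agent.H639
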