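import Pool.Agent.H639.Sil5

/-!
The rank functions of a family of relations in HOD.
-/

set_option autoImplicit false
set_option linter.unusedVariables false

namespace Pool.Agent.H639

open Pool.Agent.H310.HD Gss969 ZFSet Pool.Agent.Results.MP_e37c09_lc.AlternativeA

universe u

/-- The rank of `β` in the relation `R`, restricted to `α < β`. -/
noncomputable def rk (R : Ordinal.{u} → Ordinal.{u} → Prop) : Ordinal.{u} → Ordinal.{u} :=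
  WellFounded.fix (wellFounded_lt (α := Ordinal.{u})) fun β ih =>
    ⨆ α : {α : Set.Iio β // R α.1 β}, Order.succ (ih α.1.1 α.1.2)

theorem rk_eq (R : Ordinal.{u} → Ordinal.{u} → Prop) (β : Ordinal.{u}) :
    rk R β = ⨆ α : {α : Set.Iio β // R α.1 β}, Order.succ (rk R α.1.1) :=
  WellFounded.fix_eq _ _ _

theorem rk_lt {R : Ordinal.{u} → Ordinal.{u} → Prop} {α β : Ordinal.{u}} (h : α < β)
    (hR : R α β) : rk R α < rk R β := by
  rw [rk_eq R β]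
  have h1 := Ordinal.le_iSup (fun a : {α : Set.Iio β // R α.1 β} => Order.succ (rk R a.1.1))
    ⟨⟨α, h⟩, hR⟩
  exact (Order.lt_succ _).trans_le h1

theorem exists_of_lt_rk {R : Ordinal.{u} → Ordinal.{u} → Prop} {w β : Ordinal.{u}}
    (h : w < rk R β) : ∃ α < β, R α β ∧ w ≤ rk R α := by
  rw [rk_eq R β, Ordinal.lt_iSup_iff] at h
  obtain ⟨⟨⟨α, hα⟩, hR⟩, h1⟩ := h
  exact ⟨α, hα, hR, Order.lt_succ_iff.1 h1⟩

theorem eq_rk_iff {R : Ordinal.{u} → Ordinal.{u} → Prop} {y β : Ordinal.{u}} :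
    y = rk R β ↔ (∀ α < β, R α β → rk R α < y) ∧ ∀ w < y, ∃ α < β, R α β ∧ w ≤ rk R α := by
  constructor
  · rintro rfl
    exact ⟨fun α hα h => rk_lt hα h, fun w hw => exists_of_lt_rk hw⟩
  · rintro ⟨h1, h2⟩
    apply le_antisymm
    · by_contra hcon
      push Not at hcon
      obtain ⟨α, hα, h3, h4⟩ := h2 _ hcon
      exact absurd (rk_lt hα h3) (not_lt.2 h4)
    · by_contra hcon
      push Not at hcon
      obtain ⟨α, hα, h3, h4⟩ := exists_of_lt_rk hcon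
      exact absurd (h1 α hα h3) (not_lt.2 h4)

theorem rk_le (R : Ordinal.{u} → Ordinal.{u} → Prop) (β : Ordinal.{u}) : rk R β ≤ β := by
  induction β using WellFoundedLT.induction with
  | ind β ih =>
    by_contra hcon
    push Not at hcon
    obtain ⟨α, hα, _, h⟩ := exists_of_lt_rk hcon
    exact absurd (h.trans (ih α hα)) (not_le.2 hα)

/-- The relation given by the first `M` values of the functions. -/
def RZ (s g M α β : ZFSet.{u}) : Prop := ∃ i ∈ M, InF2 s β i α ∨ InF2 g β i α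

theorem dfn_RZ (a b c d e : ℕ) : Dfn Lvl.{u} (fun v => RZ (v a) (v b) (v c) (v d) (v e)) := by
  unfold RZ
  exact Dfn.bex Lvl_sub_Trs _ ((dfn_InF2 _ _ _ _).or (dfn_InF2 _ _ _ _))

def RR (s g : ZFSet.{u}) (μ α β : Ordinal.{u}) : Prop :=
  ∃ i < μ, InF2 s β.toZFSet (Ordinal.toZFSet i) α.toZFSet ∨
    InF2 g β.toZFSet (Ordinal.toZFSet i) α.toZFSet

theorem rz_iff {s g : ZFSet.{u}} {μ α β : Ordinal.{u}} :
    RZ s g μ.toZFSet α.toZFSet β.toZFSet ↔ RR s g μ α β := by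
  constructor
  · rintro ⟨i, hi, h⟩
    obtain ⟨i, hi', rfl⟩ := Ordinal.mem_toZFSet_iff.1 hi
    exact ⟨i, hi', h⟩
  · rintro ⟨i, hi, h⟩
    exact ⟨_, tzm.2 hi, h⟩

/-- `φ` is the rank function on `K`. -/
def IsRk (K s g M φ : ZFSet.{u}) : Prop :=
  IsFunc K K φ ∧ ∀ β ∈ K, ∀ y ∈ K, pair β y ∈ φ →
    (∀ α ∈ β, RZ s g M α β → ∀ z ∈ K, pair α z ∈ φ → z ∈ y) ∧
    ∀ w ∈ y, ∃ α ∈ β, RZ s g M α β ∧ ∃ z ∈ K, pair α z ∈ φ ∧ (w ∈ z ∨ w = z)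

theorem dfn_IsRk (a b c d e : ℕ) : Dfn Lvl.{u} (fun v => IsRk (v a) (v b) (v c) (v d) (v e)) := by
  unfold IsRk
  refine (dfn_isFunc Lvl_sub_Trs _ _ _).and ?_
  repeat' first
    | exact Dfn.mem _ _ | exact Dfn.eq _ _ | exact dfn_pm Lvl_sub_Trs _ _ _
    | exact dfn_RZ _ _ _ _ _
    | refine Dfn.imp ?_ ?_ | refine Dfn.and ?_ ?_ | refine Dfn.or ?_ ?_
    | refine Dfn.ball Lvl_sub_Trs _ ?_ | refine Dfn.bex Lvl_sub_Trs _ ?_

theorem isRk_iff {κ μ : Ordinal.{u}} {s g φ : ZFSet.{u}} :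
    IsRk κ.toZFSet s g μ.toZFSet φ ↔ φ = og κ (rk (RR s g μ)) := by
  have hb : ∀ β < κ, rk (RR s g μ) β < κ := fun β hβ => (rk_le _ _).trans_lt hβ
  constructor
  · rintro ⟨hf, h⟩
    obtain ⟨G, hG1, hG2⟩ := exists_og hf
    have key : ∀ β, β < κ → G β = rk (RR s g μ) β := by
      intro β
      induction β using WellFoundedLT.induction with
      | ind β ih =>
        intro hβ
        obtain ⟨h1, h2⟩ := h _ (tzm.2 hβ) _ (tzm.2 (hG1 β hβ)) ((hG2 β hβ _).2 rfl)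
        rw [eq_rk_iff]
        refine ⟨fun α hα hR => ?_, fun w hw => ?_⟩
        · rw [← ih α hα (hα.trans hβ)]
          exact tzm.1 (h1 _ (tzm.2 hα) (rz_iff.2 hR) _ (tzm.2 (hG1 α (hα.trans hβ)))
            ((hG2 α (hα.trans hβ) _).2 rfl))
        · obtain ⟨α, hα, hR, z, hz, h3, h4⟩ := h2 _ (tzm.2 hw)
          obtain ⟨α, hα', rfl⟩ := Ordinal.mem_toZFSet_iff.1 hα
          rw [hG2 α (hα'.trans hβ)] at h3
          rw [← h3, tzm, Ordinal.toZFSet_injective.eq_iff, ih α hα' (hα'.trans hβ)] at h4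
          refine ⟨α, hα', rz_iff.1 hR, ?_⟩
          rcases h4 with h4 | h4
          · exact h4.le
          · exact h4.le
    ext p
    constructor
    · intro hp
      obtain ⟨a, ha, b, hb', rfl⟩ := mem_prod.1 (hf.1 hp)
      obtain ⟨a, ha', rfl⟩ := Ordinal.mem_toZFSet_iff.1 ha
      rw [pair_og]
      rw [hG2 a ha'] at hp
      exact ⟨ha', by rw [← key a ha']; exact hp⟩
    · intro hp
      unfold og at hp
      rw [mem_gr] at hp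
      obtain ⟨a, ha, rfl⟩ := hp
      obtain ⟨a, ha', rfl⟩ := Ordinal.mem_toZFSet_iff.1 ha
      rw [Ordinal.rank_toZFSet, hG2 a ha', key a ha']
  · rintro rfl
    refine ⟨isFunc_og hb, fun β hβ y hy hp => ?_⟩
    obtain ⟨β, hβ', rfl⟩ := Ordinal.mem_toZFSet_iff.1 hβ
    obtain ⟨y, hy', rfl⟩ := Ordinal.mem_toZFSet_iff.1 hy
    rw [pair_og'] at hp
    obtain ⟨h1, h2⟩ := eq_rk_iff.1 hp.2.symm
    refine ⟨fun α hα hR z hz h3 => ?_, fun w hw => ?_⟩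
    · obtain ⟨α, hα', rfl⟩ := Ordinal.mem_toZFSet_iff.1 hα
      rw [pair_og] at h3
      rw [← h3.2]
      exact tzm.2 (h1 α hα' (rz_iff.1 hR))
    · obtain ⟨w, hw', rfl⟩ := Ordinal.mem_toZFSet_iff.1 hw
      obtain ⟨α, hα, hR, h3⟩ := h2 w hw'
      refine ⟨_, tzm.2 hα, rz_iff.2 hR, _, tzm.2 (hb α (hα.trans hβ')),
        pair_og.2 ⟨hα.trans hβ', rfl⟩, ?_⟩
      rcases h3.lt_or_eq with h4 | h4
      · exact Or.inl (tzm.2 h4)
      · exact Or.inr (by rw [h4])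

theorem HOD_rk {κ μ : Ordinal.{u}} {s g : ZFSet.{u}} (hs : HOD s) (hg : HOD g) :
    HOD (og κ (rk (RR s g μ))) := by
  refine HOD_of (R := fun y x => IsRk (x 2) (x 0) (x 1) (x 3) y)
    (x := asg s g κ.toZFSet μ.toZFSet ∅ ∅) (dfn_IsRk _ _ _ _ _) hs.od hg.od
    (asg_ord (isOrdinal_toZFSet _) (isOrdinal_toZFSet _) empty_ord empty_ord)
    (fun y => isRk_iff) fun z hz => ?_
  unfold og at hz
  rw [mem_gr] at hz
  obtain ⟨a, ha, rfl⟩ := hz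
  obtain ⟨a, ha', rfl⟩ := Ordinal.mem_toZFSet_iff.1 ha
  exact HOD_pair (HOD_ord _) (HOD_ord _)

/-- The family of rank functions. -/
noncomputable def FF (κ L : Ordinal.{u}) (s g : ZFSet.{u}) : ZFSet.{u} :=
  gr L.toZFSet fun x => og κ (rk (RR s g (rank x)))

theorem HOD_FF {κ L : Ordinal.{u}} {s g : ZFSet.{u}} (hs : HOD s) (hg : HOD g) :
    HOD (FF κ L s g) := by
  refine HOD_gr8 (Ψ := fun v => IsRk (v 10) (v 4) (v 5) (v 1) (v 0)) (dfn_IsRk _ _ _ _ _)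
    (HOD_ord L) (HOD_Ph (HOD_prod (HOD_ord κ) (HOD_ord κ))) hs hg HOD_empty HOD_empty HOD_empty
    HOD_empty κ 0 0 0 fun x hx => ?_
  obtain ⟨μ, hμ, rfl⟩ := Ordinal.mem_toZFSet_iff.1 hx
  rw [Ordinal.rank_toZFSet]
  refine ⟨mem_Ph.2 ⟨(isFunc_og fun β hβ => (rk_le _ _).trans_lt hβ).1, HOD_rk hs hg⟩, fun y _ => ?_⟩
  exact isRk_iff

/-- The families of functions. -/
structure Fam8 (L κ : Ordinal.{u}) (s g : ZFSet.{u}) : Prop where
  hs : HOD s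
  hg : HOD g
  fs : ∀ β i a b : Ordinal.{u}, InF2 s β.toZFSet i.toZFSet a.toZFSet →
    InF2 s β.toZFSet i.toZFSet b.toZFSet → a = b
  fg : ∀ β i a b : Ordinal.{u}, InF2 g β.toZFSet i.toZFSet a.toZFSet →
    InF2 g β.toZFSet i.toZFSet b.toZFSet → a = b
  onto : ∀ β < κ, ∀ z < β, ∃ i < L, InF2 s β.toZFSet (Ordinal.toZFSet i) z.toZFSet
  club : ∀ β < κ, 0 < β → (∀ y < β, Order.succ y < β) → ¬ (∀ γ, IsCof γ β ↔ IsCof γ L) →
    ∃ c < L, ClubO {z | ∃ i < c, InF2 g β.toZFSet (Ordinal.toZFSet i) z.toZFSet} β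

theorem inF2_gr {A f a x y : ZFSet.{u}} {F : ZFSet.{u} → ZFSet.{u}} :
    InF2 (gr A F) a x y ↔ a ∈ A ∧ pair x y ∈ F a := by
  constructor
  · rintro ⟨f, h1, h2⟩
    rw [pair_mem_gr] at h1
    rw [← h1.2] at h2
    exact ⟨h1.1, h2⟩
  · rintro ⟨h1, h2⟩
    exact ⟨_, pair_mem_gr.2 ⟨h1, rfl⟩, h2⟩

theorem exists_fam8 {L κ : Ordinal.{u}} (hL : IsCard L.toZFSet) (hω : Ordinal.omega0 ≤ L)
    (hno : ∀ τ, L < τ → τ < κ → ¬ HODReg τ) : ∃ s g, Fam8 L κ s g := by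
  have hQ : HOD (Ph (prod L.toZFSet κ.toZFSet)) := HOD_Ph (HOD_prod (HOD_ord L) (HOD_ord κ))
  -- the surjections
  have h1 : ∃ F : ZFSet.{u} → ZFSet.{u}, HOD (gr κ.toZFSet F) ∧ ∀ x ∈ κ.toZFSet,
      F x ∈ Ph (prod L.toZFSet κ.toZFSet) ∧
      ((∀ i ∈ L.toZFSet, ∀ a ∈ κ.toZFSet, ∀ b ∈ κ.toZFSet, pair i a ∈ F x → pair i b ∈ F x →
        a = b) ∧ ∀ z ∈ x, ∃ i ∈ L.toZFSet, pair i z ∈ F x) := by
    refine HOD_choice (Ψ := fun v => (∀ i ∈ v 10, ∀ a ∈ v 2, ∀ b ∈ v 2, pair i a ∈ v 0 →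
      pair i b ∈ v 0 → a = b) ∧ ∀ z ∈ v 1, ∃ i ∈ v 10, pair i z ∈ v 0) ?_ (HOD_ord κ) hQ HOD_empty
      HOD_empty HOD_empty HOD_empty HOD_empty L 0 0 0 ?_
    · repeat' first
        | exact Dfn.mem _ _ | exact Dfn.eq _ _ | exact dfn_pm Lvl_sub_Trs _ _ _
        | refine Dfn.imp ?_ ?_ | refine Dfn.and ?_ ?_
        | refine Dfn.ball Lvl_sub_Trs _ ?_ | refine Dfn.bex Lvl_sub_Trs _ ?_
    · intro x hx
      obtain ⟨β, hβ, rfl⟩ := Ordinal.mem_toZFSet_iff.1 hx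
      rcases eq_or_lt_of_le (bot_le : ⊥ ≤ β) with h0 | h0
      · refine ⟨∅, mem_Ph.2 ⟨empty_subset _, HOD_empty⟩, fun i _ a _ b _ h => absurd h
          (notMem_empty _), fun z hz => ?_⟩
        rw [← h0] at hz
        obtain ⟨z, hz', rfl⟩ := Ordinal.mem_toZFSet_iff.1 hz
        exact absurd hz' not_lt_bot
      · obtain ⟨S, hS1, hS2, hS3⟩ := hod_surj hL hω hno β h0 hβ
        refine ⟨og L S, mem_Ph.2 ⟨(isFunc_og fun i hi => (hS2 i hi).trans hβ).1, hS1⟩,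
          fun i hi a _ b _ h2 h3 => ?_, fun z hz => ?_⟩
        · obtain ⟨i, hi', rfl⟩ := Ordinal.mem_toZFSet_iff.1 hi
          have h2' : pair i.toZFSet a ∈ og L S := h2
          have h3' : pair i.toZFSet b ∈ og L S := h3
          rw [pair_og] at h2' h3'
          rw [← h2'.2, h3'.2]
        · obtain ⟨z, hz', rfl⟩ := Ordinal.mem_toZFSet_iff.1 hz
          obtain ⟨i, hi, h4⟩ := hS3 z hz'
          exact ⟨_, tzm.2 hi, pair_og'.2 ⟨hi, h4⟩⟩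
  -- the clubs
  have h2 : ∃ F : ZFSet.{u} → ZFSet.{u}, HOD (gr κ.toZFSet F) ∧ ∀ x ∈ κ.toZFSet,
      F x ∈ Ph (prod L.toZFSet κ.toZFSet) ∧
      ((∀ i ∈ L.toZFSet, ∀ a ∈ κ.toZFSet, ∀ b ∈ κ.toZFSet, pair i a ∈ F x → pair i b ∈ F x →
        a = b) ∧ ((∃ u ∈ Ph (prod L.toZFSet κ.toZFSet), (∀ i ∈ L.toZFSet, ∀ a ∈ κ.toZFSet,
          ∀ b ∈ κ.toZFSet, pair i a ∈ u → pair i b ∈ u → a = b) ∧ ∃ c ∈ L.toZFSet,
          (∀ y ∈ x, ∃ i ∈ c, ∃ z ∈ x, pair i z ∈ u ∧ y ∈ z) ∧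
          ∀ a ∈ x, (∃ y ∈ a, y = y) → (∀ y ∈ a, ∃ i ∈ c, ∃ z ∈ a, pair i z ∈ u ∧ y ∈ z) →
            ∃ i ∈ c, pair i a ∈ u) → ∃ c ∈ L.toZFSet,
          (∀ y ∈ x, ∃ i ∈ c, ∃ z ∈ x, pair i z ∈ F x ∧ y ∈ z) ∧
          ∀ a ∈ x, (∃ y ∈ a, y = y) → (∀ y ∈ a, ∃ i ∈ c, ∃ z ∈ a, pair i z ∈ F x ∧ y ∈ z) →
            ∃ i ∈ c, pair i a ∈ F x)) := by
    refine HOD_choice (Ψ := fun v => (∀ i ∈ v 10, ∀ a ∈ v 2, ∀ b ∈ v 2, pair i a ∈ v 0 →
      pair i b ∈ v 0 → a = b) ∧ ((∃ u ∈ v 3, (∀ i ∈ v 10, ∀ a ∈ v 2, ∀ b ∈ v 2, pair i a ∈ u →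
          pair i b ∈ u → a = b) ∧ ∃ c ∈ v 10,
          (∀ y ∈ v 1, ∃ i ∈ c, ∃ z ∈ v 1, pair i z ∈ u ∧ y ∈ z) ∧
          ∀ a ∈ v 1, (∃ y ∈ a, y = y) → (∀ y ∈ a, ∃ i ∈ c, ∃ z ∈ a, pair i z ∈ u ∧ y ∈ z) →
            ∃ i ∈ c, pair i a ∈ u) → ∃ c ∈ v 10,
          (∀ y ∈ v 1, ∃ i ∈ c, ∃ z ∈ v 1, pair i z ∈ v 0 ∧ y ∈ z) ∧
          ∀ a ∈ v 1, (∃ y ∈ a, y = y) → (∀ y ∈ a, ∃ i ∈ c, ∃ z ∈ a, pair i z ∈ v 0 ∧ y ∈ z) →
            ∃ i ∈ c, pair i a ∈ v 0)) ?_ (HOD_ord κ) hQ HOD_empty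
      HOD_empty HOD_empty HOD_empty HOD_empty L 0 0 0 ?_
    · repeat' first
        | exact Dfn.mem _ _ | exact Dfn.eq _ _ | exact dfn_pm Lvl_sub_Trs _ _ _
        | refine Dfn.imp ?_ ?_ | refine Dfn.and ?_ ?_
        | refine Dfn.ball Lvl_sub_Trs _ ?_ | refine Dfn.bex Lvl_sub_Trs _ ?_
    · intro x hx
      by_cases h : (∃ u ∈ Ph (prod L.toZFSet κ.toZFSet), (∀ i ∈ L.toZFSet, ∀ a ∈ κ.toZFSet,
          ∀ b ∈ κ.toZFSet, pair i a ∈ u → pair i b ∈ u → a = b) ∧ ∃ c ∈ L.toZFSet,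
          (∀ y ∈ x, ∃ i ∈ c, ∃ z ∈ x, pair i z ∈ u ∧ y ∈ z) ∧
          ∀ a ∈ x, (∃ y ∈ a, y = y) → (∀ y ∈ a, ∃ i ∈ c, ∃ z ∈ a, pair i z ∈ u ∧ y ∈ z) →
            ∃ i ∈ c, pair i a ∈ u)
      · obtain ⟨u, hu, h3, h4⟩ := h
        exact ⟨u, hu, h3, fun _ => h4⟩
      · exact ⟨∅, mem_Ph.2 ⟨empty_subset _, HOD_empty⟩, fun i _ a _ b _ h => absurd h
          (notMem_empty _), fun h5 => absurd h5 h⟩
  obtain ⟨F, hF, hF'⟩ := h1
  obtain ⟨F', hF1, hF2⟩ := h2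
  have fun1 : ∀ (F : ZFSet.{u} → ZFSet.{u}), (∀ x ∈ κ.toZFSet,
      F x ∈ Ph (prod L.toZFSet κ.toZFSet) ∧
      (∀ i ∈ L.toZFSet, ∀ a ∈ κ.toZFSet, ∀ b ∈ κ.toZFSet, pair i a ∈ F x → pair i b ∈ F x →
        a = b)) → ∀ β i a b : Ordinal.{u}, InF2 (gr κ.toZFSet F) β.toZFSet i.toZFSet a.toZFSet →
        InF2 (gr κ.toZFSet F) β.toZFSet i.toZFSet b.toZFSet → a = b := by
    intro F hF β i a b h3 h4
    rw [inF2_gr (f := ∅)] at h3 h4
    obtain ⟨h5, h6⟩ := hF _ h3.1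
    have h7 := pair_mem_prod.1 ((mem_Ph.1 h5).1 h3.2)
    have h8 := pair_mem_prod.1 ((mem_Ph.1 h5).1 h4.2)
    exact Ordinal.toZFSet_injective (h6 _ h7.1 _ h7.2 _ h8.2 h3.2 h4.2)
  refine ⟨_, _, hF, hF1, fun1 F fun x hx => ⟨(hF' x hx).1, (hF' x hx).2.1⟩,
    fun1 F' fun x hx => ⟨(hF2 x hx).1, (hF2 x hx).2.1⟩, fun β hβ z hz => ?_,
    fun β hβ h0 hlim hne => ?_⟩
  · obtain ⟨i, hi, h3⟩ := (hF' _ (tzm.2 hβ)).2.2 _ (tzm.2 hz)
    obtain ⟨i, hi', rfl⟩ := Ordinal.mem_toZFSet_iff.1 hi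
    exact ⟨i, hi', (inF2_gr (f := ∅)).2 ⟨tzm.2 hβ, h3⟩⟩
  · obtain ⟨τ, hτβ, hτ, G, hG, hG1, hG2, hG3, hG4⟩ := hod_cof h0 hlim
    have hτL : τ < L := by
      by_contra hcon
      push Not at hcon
      rcases hcon.lt_or_eq with h | h
      · exact hno τ h (hτβ.trans_lt hβ) hτ
      · refine hne fun γ => ?_
        rw [h]
        exact isCof_iff hG1 hG2 hG3 γ
    obtain ⟨c, hc, h3, h4⟩ := (hF2 _ (tzm.2 hβ)).2.2 (by
      refine ⟨og τ G, mem_Ph.2 ⟨fun p hp => ?_, hG⟩, fun i hi a _ b _ h2 h3 => ?_,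
          _, tzm.2 hτL, fun y hy => ?_, fun a ha h3 h4 => ?_⟩
      · unfold og at hp
        rw [mem_gr] at hp
        obtain ⟨a, ha, rfl⟩ := hp
        obtain ⟨a, ha', rfl⟩ := Ordinal.mem_toZFSet_iff.1 ha
        rw [Ordinal.rank_toZFSet]
        exact pair_mem_prod.2 ⟨tzm.2 (ha'.trans hτL), tzm.2 ((hG1 a ha').trans hβ)⟩
      · obtain ⟨i, hi', rfl⟩ := Ordinal.mem_toZFSet_iff.1 hi
        rw [pair_og] at h2 h3
        rw [← h2.2, h3.2]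
      · obtain ⟨y, hy', rfl⟩ := Ordinal.mem_toZFSet_iff.1 hy
        obtain ⟨i, hi, h3⟩ := hG3 y hy'
        exact ⟨_, tzm.2 hi, _, tzm.2 (hG1 i hi), pair_og.2 ⟨hi, rfl⟩, tzm.2 h3⟩
      · obtain ⟨a, ha', rfl⟩ := Ordinal.mem_toZFSet_iff.1 ha
        obtain ⟨i₀, hi₀, h5⟩ := hG3 a ha'
        obtain ⟨j, hj, hmin⟩ := WellFounded.has_min (wellFounded_lt (α := Ordinal.{u}))
          {j | a ≤ G j} ⟨i₀, h5.le⟩
        have hjτ : j < τ := by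
          by_contra hcon
          push Not at hcon
          exact hmin i₀ h5.le (hi₀.trans_le hcon)
        refine ⟨_, tzm.2 hjτ, pair_og'.2 ⟨hjτ, ?_⟩⟩
        rcases (show a ≤ G j from hj).lt_or_eq with h6 | h6
        · exfalso
          obtain ⟨i, hi, h7⟩ := hG4 j a h6
          have h8 : G i < a := by
            by_contra hcon
            push Not at hcon
            exact hmin i hcon hi
          obtain ⟨k, hk, z, hz, h9, h10⟩ := h4 _ (tzm.2 h8)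
          obtain ⟨k, hk', rfl⟩ := Ordinal.mem_toZFSet_iff.1 hk
          rw [pair_og] at h9
          rw [← h9.2] at hz h10
          have h11 : i < k := by
            by_contra hcon
            push Not at hcon
            exact absurd (tzm.1 h10) (not_lt.2 (hG2 _ _ hcon))
          have h12 : G (Order.succ i) ≤ G k := hG2 _ _ (Order.succ_le_of_lt h11)
          exact absurd (h7.trans_le h12) (not_lt.2 (tzm.1 hz).le)
        · exact h6.symm)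
    obtain ⟨c, hc', rfl⟩ := Ordinal.mem_toZFSet_iff.1 hc
    refine ⟨c, hc', fun x hx => ?_, fun a ha h5 h6 => ?_⟩
    · obtain ⟨i, hi, z, hz, h7, h8⟩ := h3 _ (tzm.2 hx)
      obtain ⟨i, hi', rfl⟩ := Ordinal.mem_toZFSet_iff.1 hi
      obtain ⟨z, hz', rfl⟩ := Ordinal.mem_toZFSet_iff.1 hz
      exact ⟨z, ⟨i, hi', (inF2_gr (f := ∅)).2 ⟨tzm.2 hβ, h7⟩⟩, tzm.1 h8, hz'⟩
    · obtain ⟨i, hi, h7⟩ := h4 _ (tzm.2 ha) ⟨_, tzm.2 h5, rfl⟩ fun y hy => by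
        obtain ⟨y, hy', rfl⟩ := Ordinal.mem_toZFSet_iff.1 hy
        obtain ⟨z, ⟨i, hi, h8⟩, h9, h10⟩ := h6 y hy'
        exact ⟨_, tzm.2 hi, _, tzm.2 h10, ((inF2_gr (f := ∅)).1 h8).2, tzm.2 h9⟩
      obtain ⟨i, hi', rfl⟩ := Ordinal.mem_toZFSet_iff.1 hi
      exact ⟨i, hi', (inF2_gr (f := ∅)).2 ⟨tzm.2 hβ, h7⟩⟩

namespace Fam8

variable {L κ : Ordinal.{u}} {s g : ZFSet.{u}}

/-- Eventual increase. -/
theorem inc (h : Fam8 L κ s g) {a b : Ordinal.{u}} (hab : a < b) (hb : b < κ)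
    (hL : ∀ x < L, Order.succ x < L) : ∃ r < L, Up (fun μ => rk (RR s g μ)) L r a b := by
  obtain ⟨i, hi, h1⟩ := h.onto b hb a hab
  exact ⟨_, hL i hi, fun μ hμ _ => rk_lt hab ⟨i, Order.succ_le_iff.1 hμ, Or.inl h1⟩⟩

/-- Uniform increase on a club. -/
theorem clb (h : Fam8 L κ s g) {d : Ordinal.{u}} (hd : d < κ) (h0 : 0 < d)
    (hlim : ∀ y < d, Order.succ y < d) (hne : ¬ (∀ γ, IsCof γ d ↔ IsCof γ L)) :
    ∃ E, ClubO E d ∧ ∃ r < L, ∀ a ∈ E, a < d → Up (fun μ => rk (RR s g μ)) L r a d := by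
  obtain ⟨c, hc, h1⟩ := h.club d hd h0 hlim hne
  refine ⟨_, h1, c, hc, ?_⟩
  rintro a ⟨i, hi, h2⟩ had μ hμ _
  exact rk_lt had ⟨i, hi.trans_le hμ, Or.inr h2⟩

/-- The rank functions are bounded by the next regular cardinal of HOD. -/
theorem bdd (h : Fam8 L κ s g) {μ μ' : Ordinal.{u}} (hμ' : HODReg μ') (hμμ : μ < μ')
    (β : Ordinal.{u}) : β < κ → rk (RR s g μ) β < μ' := by
  induction β using WellFoundedLT.induction with
  | ind β ih =>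
    intro hβ
    by_contra hcon
    push Not at hcon
    have hb : ∀ i, ∃ y < μ', ∀ α < β, (InF2 s β.toZFSet (Ordinal.toZFSet i) α.toZFSet ∨
        InF2 g β.toZFSet (Ordinal.toZFSet i) α.toZFSet) → rk (RR s g μ) α ≤ y := by
      intro i
      have h1 : ∀ (f : ZFSet.{u}), (∀ β i a b : Ordinal.{u}, InF2 f β.toZFSet i.toZFSet a.toZFSet →
          InF2 f β.toZFSet i.toZFSet b.toZFSet → a = b) → ∃ y < μ', ∀ α < β,
          InF2 f β.toZFSet (Ordinal.toZFSet i) α.toZFSet → rk (RR s g μ) α ≤ y := by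
        intro f hf
        by_cases h2 : ∃ α < β, InF2 f β.toZFSet (Ordinal.toZFSet i) (Ordinal.toZFSet α)
        · obtain ⟨α, hα, h3⟩ := h2
          refine ⟨_, ih α hα (hα.trans hβ), fun α' _ h4 => ?_⟩
          rw [hf β i α' α h4 h3]
        · exact ⟨0, hμ'.1, fun α hα h3 => absurd ⟨α, hα, h3⟩ h2⟩
      obtain ⟨y, hy, h2⟩ := h1 s h.fs
      obtain ⟨y', hy', h3⟩ := h1 g h.fg
      refine ⟨max y y', max_lt hy hy', fun α hα h4 => ?_⟩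
      rcases h4 with h4 | h4
      · exact (h2 α hα h4).trans (le_max_left _ _)
      · exact (h3 α hα h4).trans (le_max_right _ _)
    let H : Ordinal.{u} → Ordinal.{u} := fun i => sInf {y | ∀ α < β,
      (InF2 s β.toZFSet (Ordinal.toZFSet i) α.toZFSet ∨
        InF2 g β.toZFSet (Ordinal.toZFSet i) α.toZFSet) → rk (RR s g μ) α ≤ y}
    have hH1 : ∀ i, ∀ α < β, (InF2 s β.toZFSet (Ordinal.toZFSet i) α.toZFSet ∨
        InF2 g β.toZFSet (Ordinal.toZFSet i) α.toZFSet) → rk (RR s g μ) α ≤ H i := by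
      intro i
      obtain ⟨y, _, hy⟩ := hb i
      exact csInf_mem (s := {y | ∀ α < β, (InF2 s β.toZFSet (Ordinal.toZFSet i) α.toZFSet ∨
        InF2 g β.toZFSet (Ordinal.toZFSet i) α.toZFSet) → rk (RR s g μ) α ≤ y}) ⟨y, hy⟩
    have hH2 : ∀ i, H i < μ' := fun i => by
      obtain ⟨y, hy, h2⟩ := hb i
      exact (csInf_le' (s := {y | ∀ α < β, (InF2 s β.toZFSet (Ordinal.toZFSet i) α.toZFSet ∨
        InF2 g β.toZFSet (Ordinal.toZFSet i) α.toZFSet) → rk (RR s g μ) α ≤ y}) h2).trans_lt hy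
    have hH3 : ∀ i, ∀ y < H i, ∃ α < β, (InF2 s β.toZFSet (Ordinal.toZFSet i) α.toZFSet ∨
        InF2 g β.toZFSet (Ordinal.toZFSet i) α.toZFSet) ∧ y < rk (RR s g μ) α := by
      intro i y hy
      by_contra hcon2
      push Not at hcon2
      exact absurd (csInf_le' (s := {y | ∀ α < β,
        (InF2 s β.toZFSet (Ordinal.toZFSet i) α.toZFSet ∨
        InF2 g β.toZFSet (Ordinal.toZFSet i) α.toZFSet) → rk (RR s g μ) α ≤ y}) hcon2)
        (not_le.2 hy)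
    refine hμ'.2.2 ⟨μ.toZFSet, tzm.2 hμμ, og μ H, ?_, (cofi_og fun i _ => hH2 i).2 fun y hy => ?_⟩
    · refine HOD_gr8 (Ψ := fun v => (∀ α ∈ v 10, (InF2 (v 4) (v 10) (v 1) α ∨
          InF2 (v 5) (v 10) (v 1) α) → ∀ z ∈ v 11, pair α z ∈ v 6 → z ∈ v 0 ∨ z = v 0) ∧
          ∀ y ∈ v 0, ∃ α ∈ v 10, (InF2 (v 4) (v 10) (v 1) α ∨ InF2 (v 5) (v 10) (v 1) α) ∧
            ∃ z ∈ v 11, pair α z ∈ v 6 ∧ y ∈ z) ?_ (HOD_ord μ) (HOD_ord μ') h.hs h.hg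
          (HOD_rk (κ := κ) (μ := μ) h.hs h.hg) HOD_empty HOD_empty HOD_empty β κ 0 0 fun x hx => ?_
      · repeat' first
          | exact Dfn.mem _ _ | exact Dfn.eq _ _ | exact dfn_pm Lvl_sub_Trs _ _ _
          | exact dfn_InF2 _ _ _ _
          | refine Dfn.imp ?_ ?_ | refine Dfn.and ?_ ?_ | refine Dfn.or ?_ ?_
          | refine Dfn.ball Lvl_sub_Trs _ ?_ | refine Dfn.bex Lvl_sub_Trs _ ?_
      · obtain ⟨i, hi, rfl⟩ := Ordinal.mem_toZFSet_iff.1 hx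
        rw [Ordinal.rank_toZFSet]
        refine ⟨tzm.2 (hH2 i), fun y hy => ?_⟩
        obtain ⟨y, hy', rfl⟩ := Ordinal.mem_toZFSet_iff.1 hy
        rw [Ordinal.toZFSet_injective.eq_iff]
        constructor
        · rintro ⟨h3, h4⟩
          have h3' : ∀ α < β, (InF2 s β.toZFSet (Ordinal.toZFSet i) α.toZFSet ∨
              InF2 g β.toZFSet (Ordinal.toZFSet i) α.toZFSet) → rk (RR s g μ) α ≤ y := by
            intro α hα h5
            have h6 := h3 _ (tzm.2 hα) h5 _ (tzm.2 ((rk_le (RR s g μ) α).trans_lt (hα.trans hβ)))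
              (pair_og.2 ⟨hα.trans hβ, rfl⟩)
            rcases h6 with h6 | h6
            · exact (tzm.1 h6).le
            · exact (Ordinal.toZFSet_injective h6).le
          apply le_antisymm
          · by_contra hcon2
            push Not at hcon2
            obtain ⟨α, hα, h5, z, hz, h6, h7⟩ := h4 _ (tzm.2 hcon2)
            obtain ⟨α, hα', rfl⟩ := Ordinal.mem_toZFSet_iff.1 hα
            have h6' : pair α.toZFSet z ∈ og κ (rk (RR s g μ)) := h6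
            rw [pair_og] at h6'
            rw [← h6'.2] at h7
            exact absurd (hH1 i α hα' h5) (not_le.2 (tzm.1 h7))
          · exact csInf_le' (s := {y | ∀ α < β, (InF2 s β.toZFSet (Ordinal.toZFSet i) α.toZFSet ∨
              InF2 g β.toZFSet (Ordinal.toZFSet i) α.toZFSet) → rk (RR s g μ) α ≤ y}) h3'
        · rintro rfl
          refine ⟨fun α hα h5 z hz h6 => ?_, fun w hw => ?_⟩
          · obtain ⟨α, hα', rfl⟩ := Ordinal.mem_toZFSet_iff.1 hα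
            have h6' : pair α.toZFSet z ∈ og κ (rk (RR s g μ)) := h6
            rw [pair_og] at h6'
            rw [← h6'.2]
            rcases (hH1 i α hα' h5).lt_or_eq with h7 | h7
            · exact Or.inl (tzm.2 h7)
            · exact Or.inr (by rw [h7]; rfl)
          · have hw' : w ∈ (H i).toZFSet := hw
            obtain ⟨w, hw'', rfl⟩ := Ordinal.mem_toZFSet_iff.1 hw'
            obtain ⟨α, hα, h5, h6⟩ := hH3 i w hw''
            exact ⟨_, tzm.2 hα, h5, _, tzm.2 ((rk_le _ _).trans_lt (hα.trans hβ)),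
              pair_og.2 ⟨hα.trans hβ, rfl⟩, tzm.2 h6⟩
    · obtain ⟨α, hα, ⟨i, hi, h3⟩, h4⟩ := exists_of_lt_rk ((hμ'.2.1 y hy).trans_le hcon)
      exact ⟨i, hi, (Order.lt_succ y).trans_le (h4.trans (hH1 i α hα h3))⟩

end Fam8

end Pool.Agent.H639
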