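import Pool.Agent.H639.Sil6

/-!
Cofinal functions which are small on bounded sets, and the sets of indices in HOD.
-/

set_option autoImplicit false
set_option linter.unusedVariables false

namespace Pool.Agent.H639

open Pool.Agent.H310.HD Gss969 ZFSet Pool.Agent.Results.MP_e37c09_lc.AlternativeA

universe u

/-- The pair of `x` and `y` is an element of the value of `f` at the pair of `a` and `b`. -/
def InF3 (f a b x y : ZFSet.{u}) : Prop := ∃ q, q = pair a b ∧ InF2 f q x y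

theorem dfn_InF3 (i j k l m : ℕ) :
    Dfn Lvl.{u} (fun v => InF3 (v i) (v j) (v k) (v l) (v m)) := by
  unfold InF3
  refine Dfn.ex (A := fun q v => q = pair (v j) (v k) ∧ InF2 (v i) q (v l) (v m))
    ((dfn_pair Lvl_sub_Trs _ _ _).and (dfn_InF2 _ _ _ _)) ?_
  rintro V hV v hv ⟨q, rfl, h⟩
  exact ⟨_, Lvl_pair hV (hv _) (hv _), rfl, h⟩

/-- A family of surjections in HOD. -/
theorem exists_sg (L : Ordinal.{u}) : ∃ sg : ZFSet.{u}, HOD sg ∧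
    (∀ μ γ ξ z z' : Ordinal.{u}, InF3 sg μ.toZFSet γ.toZFSet ξ.toZFSet z.toZFSet →
      InF3 sg μ.toZFSet γ.toZFSet ξ.toZFSet z'.toZFSet → z = z') ∧
    ∀ μ < L, IsCard (Ordinal.toZFSet μ) → Ordinal.omega0 ≤ μ → ∀ μ' : Ordinal.{u},
      (∀ τ, μ < τ → τ < μ' → ¬ HODReg τ) → ∀ γ < μ', γ < L → ∀ w < γ, ∃ ξ < μ,
        InF3 sg μ.toZFSet γ.toZFSet (Ordinal.toZFSet ξ) w.toZFSet := by
  have hP : HOD (prod L.toZFSet L.toZFSet) := HOD_prod (HOD_ord L) (HOD_ord L)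
  have h1 : ∃ F : ZFSet.{u} → ZFSet.{u}, HOD (gr (prod L.toZFSet L.toZFSet) F) ∧
      ∀ x ∈ prod L.toZFSet L.toZFSet, F x ∈ Ph (prod L.toZFSet L.toZFSet) ∧
      ((∀ i ∈ L.toZFSet, ∀ a ∈ L.toZFSet, ∀ b ∈ L.toZFSet, pair i a ∈ F x → pair i b ∈ F x →
        a = b) ∧ ∀ μ ∈ L.toZFSet, ∀ γ ∈ L.toZFSet, x = pair μ γ →
          (∃ y ∈ Ph (prod L.toZFSet L.toZFSet), (∀ i ∈ L.toZFSet, ∀ a ∈ L.toZFSet,
            ∀ b ∈ L.toZFSet, pair i a ∈ y → pair i b ∈ y → a = b) ∧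
            ∀ w ∈ γ, ∃ i ∈ μ, pair i w ∈ y) → ∀ w ∈ γ, ∃ i ∈ μ, pair i w ∈ F x) := by
    refine HOD_choice (Ψ := fun v => (∀ i ∈ v 10, ∀ a ∈ v 10, ∀ b ∈ v 10, pair i a ∈ v 0 →
      pair i b ∈ v 0 → a = b) ∧ ∀ μ ∈ v 10, ∀ γ ∈ v 10, v 1 = pair μ γ →
        (∃ y ∈ v 3, (∀ i ∈ v 10, ∀ a ∈ v 10, ∀ b ∈ v 10, pair i a ∈ y → pair i b ∈ y → a = b) ∧
          ∀ w ∈ γ, ∃ i ∈ μ, pair i w ∈ y) → ∀ w ∈ γ, ∃ i ∈ μ, pair i w ∈ v 0) ?_ hP (HOD_Ph hP)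
      HOD_empty HOD_empty HOD_empty HOD_empty HOD_empty L 0 0 0 ?_
    · repeat' first
        | exact Dfn.mem _ _ | exact Dfn.eq _ _ | exact dfn_pm Lvl_sub_Trs _ _ _
        | exact dfn_pair Lvl_sub_Trs _ _ _
        | refine Dfn.imp ?_ ?_ | refine Dfn.and ?_ ?_
        | refine Dfn.ball Lvl_sub_Trs _ ?_ | refine Dfn.bex Lvl_sub_Trs _ ?_
    · intro x hx
      obtain ⟨μ, hμ, γ, hγ, rfl⟩ := mem_prod.1 hx
      by_cases h : ∃ y ∈ Ph (prod L.toZFSet L.toZFSet), (∀ i ∈ L.toZFSet, ∀ a ∈ L.toZFSet,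
            ∀ b ∈ L.toZFSet, pair i a ∈ y → pair i b ∈ y → a = b) ∧
            ∀ w ∈ γ, ∃ i ∈ μ, pair i w ∈ y
      · obtain ⟨y, hy, h2, h3⟩ := h
        refine ⟨y, hy, h2, fun μ' hμ' γ' hγ' h4 _ => ?_⟩
        have h4' : pair μ γ = pair μ' γ' := h4
        rw [pair_inj] at h4'
        rw [← h4'.1, ← h4'.2]
        exact h3
      · refine ⟨∅, mem_Ph.2 ⟨empty_subset _, HOD_empty⟩, fun i _ a _ b _ h => absurd h
          (notMem_empty _), fun μ' hμ' γ' hγ' h4 h5 => ?_⟩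
        have h4' : pair μ γ = pair μ' γ' := h4
        rw [pair_inj] at h4'
        rw [← h4'.1, ← h4'.2] at h5
        exact absurd h5 h
  obtain ⟨F, hF, hF'⟩ := h1
  have key : ∀ μ γ ξ z : Ordinal.{u}, InF3 (gr (prod L.toZFSet L.toZFSet) F) μ.toZFSet
      γ.toZFSet ξ.toZFSet z.toZFSet ↔ μ < L ∧ γ < L ∧
        pair ξ.toZFSet z.toZFSet ∈ F (pair μ.toZFSet γ.toZFSet) := by
    intro μ γ ξ z
    constructor
    · rintro ⟨q, rfl, h⟩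
      rw [inF2_gr (f := ∅), pair_mem_prod, tzm, tzm] at h
      exact ⟨h.1.1, h.1.2, h.2⟩
    · rintro ⟨h2, h3, h4⟩
      exact ⟨_, rfl, (inF2_gr (f := ∅)).2 ⟨pair_mem_prod.2 ⟨tzm.2 h2, tzm.2 h3⟩, h4⟩⟩
  refine ⟨_, hF, fun μ γ ξ z z' h h' => ?_, fun μ hμ hc hω μ' hno γ hγ hγL w hw => ?_⟩
  · rw [key] at h h'
    obtain ⟨h2, h3⟩ := hF' _ (pair_mem_prod.2 ⟨tzm.2 h.1, tzm.2 h.2.1⟩)
    have h7 := pair_mem_prod.1 ((mem_Ph.1 h2).1 h.2.2)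
    have h8 := pair_mem_prod.1 ((mem_Ph.1 h2).1 h'.2.2)
    exact Ordinal.toZFSet_injective (h3.1 _ h7.1 _ h7.2 _ h8.2 h.2.2 h'.2.2)
  · obtain ⟨h2, _, h3⟩ := hF' _ (pair_mem_prod.2 ⟨tzm.2 hμ, tzm.2 hγL⟩)
    obtain ⟨S, hS1, hS2, hS3⟩ := hod_surj hc hω hno γ (bot_le.trans_lt hw) hγ
    obtain ⟨i, hi, h4⟩ := h3 _ (tzm.2 hμ) _ (tzm.2 hγL) rfl ⟨og μ S, mem_Ph.2 ⟨fun p hp => by
      unfold og at hp
      rw [mem_gr] at hp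
      obtain ⟨a, ha, rfl⟩ := hp
      obtain ⟨a, ha', rfl⟩ := Ordinal.mem_toZFSet_iff.1 ha
      rw [Ordinal.rank_toZFSet]
      exact pair_mem_prod.2 ⟨tzm.2 (ha'.trans hμ), tzm.2 ((hS2 a ha').trans hγL)⟩, hS1⟩,
      fun i hi a _ b _ h2 h3 => by
        obtain ⟨i, hi', rfl⟩ := Ordinal.mem_toZFSet_iff.1 hi
        rw [pair_og] at h2 h3
        rw [← h2.2, h3.2], fun w hw => by
        obtain ⟨w, hw', rfl⟩ := Ordinal.mem_toZFSet_iff.1 hw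
        obtain ⟨i, hi, h4⟩ := hS3 w hw'
        exact ⟨_, tzm.2 hi, pair_og'.2 ⟨hi, h4⟩⟩⟩ _ (tzm.2 hw)
    obtain ⟨i, hi', rfl⟩ := Ordinal.mem_toZFSet_iff.1 hi
    exact ⟨i, hi', (key _ _ _ _).2 ⟨hμ, hγL, h4⟩⟩

/-- Cofinal functions from `L` to `κ` with few values on bounded sets. -/
def Nice (κ L ρ : Ordinal.{u}) (D : Ordinal.{u} → Ordinal.{u}) : Prop :=
  (∀ ζ < L, D ζ < κ) ∧ (∀ x < κ, ∃ ζ < L, x < D ζ) ∧
    ∀ μ < L, ∃ m < ρ, ∃ f : Ordinal.{u} → Ordinal.{u}, (∀ i < m, f i < κ) ∧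
      ∀ ζ < μ, ∃ i < m, f i = D ζ

theorem exists_nice {κ L ρ ν₀ : Ordinal.{u}} {e : Ordinal.{u} → Ordinal.{u}} (he : Nrm ρ L e)
    (hκ0 : 0 < κ) (hν : IsCof ν₀ κ) (hν₀ : ν₀ ≤ ρ) : ∃ D, Nice κ L ρ D := by
  classical
  obtain ⟨d, hd1, hd2⟩ := exists_of_cofN hν.1
  have hD1 : ∀ i < ν₀, (if h : ∃ j < ν₀, e i = e j then d h.choose else 0) = d i := by
    intro i hi
    have h : ∃ j < ν₀, e i = e j := ⟨i, hi, rfl⟩
    rw [dif_pos h]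
    congr 1
    have h2 := h.choose_spec.2
    exact (le_antisymm (he.le_iff.1 h2.ge) (he.le_iff.1 h2.le))
  refine ⟨fun ζ => if h : ∃ j < ν₀, ζ = e j then d h.choose else 0, fun ζ hζ => ?_, fun x hx => ?_,
    fun μ hμ => ?_⟩
  · by_cases h : ∃ j < ν₀, ζ = e j
    · obtain ⟨j, hj, rfl⟩ := h
      simp only [hD1 j hj]
      exact hd1 j hj
    · simp only [dif_neg h]
      exact hκ0
  · obtain ⟨i, hi, h⟩ := hd2 x hx
    refine ⟨e i, he.lt i (hi.trans_le hν₀), ?_⟩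
    simp only [hD1 i hi]
    exact h
  · obtain ⟨j, hj, hμj⟩ := he.cof μ hμ
    refine ⟨_, he.lim j hj, fun i => if i < ν₀ ∧ i < j then d i else 0, fun i hi => ?_,
      fun ζ hζ => ?_⟩
    · by_cases h : i < ν₀ ∧ i < j
      · simp only [if_pos h]; exact hd1 i h.1
      · simp only [if_neg h]; exact hκ0
    · by_cases h : ∃ k < ν₀, ζ = e k
      · obtain ⟨k, hk, rfl⟩ := h
        have hkj : k < j := he.inj (hζ.trans hμj)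
        refine ⟨k, hkj.trans (Order.lt_succ j), ?_⟩
        simp only [hD1 k hk]
        rw [if_pos ⟨hk, hkj⟩]
      · refine ⟨j, Order.lt_succ j, ?_⟩
        simp only [dif_neg h, lt_irrefl, and_false, if_false]

/-- The height of `D` at `μ`. -/
noncomputable def hh (s g : ZFSet.{u}) (D : Ordinal.{u} → Ordinal.{u}) (μ : Ordinal.{u}) :
    Ordinal.{u} := lsb μ fun ζ => rk (RR s g μ) (D ζ)

/-- A point is eventually below the height. -/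
theorem lt_hh {L κ ρ : Ordinal.{u}} {s g : ZFSet.{u}} (hF : Fam8 L κ s g)
    (hL : ∀ x < L, Order.succ x < L) {D : Ordinal.{u} → Ordinal.{u}} (hD : Nice κ L ρ D)
    {α : Ordinal.{u}} (hα : α < κ) :
    ∃ r < L, ∀ μ, r ≤ μ → μ < L → rk (RR s g μ) α < hh s g D μ := by
  obtain ⟨ζ, hζ, h1⟩ := hD.2.1 α hα
  obtain ⟨r, hr, h2⟩ := hF.inc h1 (hD.1 ζ hζ) hL
  refine ⟨max r (Order.succ ζ), max_lt hr (hL ζ hζ), fun μ hμ hμL => ?_⟩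
  exact (h2 μ ((le_max_left _ _).trans hμ) hμL).trans
    (lt_lsb (Order.succ_le_iff.1 ((le_max_right _ _).trans hμ)))

/-- The height is below the next regular cardinal of HOD, if that has large cofinality. -/
theorem hh_lt {L κ ρ μ μ' : Ordinal.{u}} {s g : ZFSet.{u}} (hF : Fam8 L κ s g)
    {D : Ordinal.{u} → Ordinal.{u}} (hD : Nice κ L ρ D) (hμ : μ < L) (hμ' : HODReg μ')
    (hμμ : μ < μ') (hcof : ∀ ν < ρ, ¬ IsCof ν μ') : hh s g D μ < μ' := by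
  obtain ⟨m, hm, f, hf1, hf2⟩ := hD.2.2 μ hμ
  have h1 : ∃ y < μ', ∀ i < m, rk (RR s g μ) (f i) ≤ y := by
    by_contra hcon
    push Not at hcon
    have h2 : CofN m.toZFSet μ'.toZFSet := cofN_of (G := fun i => rk (RR s g μ) (f i))
      (fun i hi => hF.bdd hμ' hμμ _ (hf1 i hi)) hcon
    obtain ⟨ν, hν, h3, h4⟩ := exists_cof h2
    exact hcof ν (hν.trans_lt hm) ⟨h3, h4⟩
  obtain ⟨y, hy, h2⟩ := h1
  refine lt_of_le_of_lt (lsb_le fun ζ hζ => ?_) (hμ'.2.1 y hy)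
  obtain ⟨i, hi, h3⟩ := hf2 ζ hζ
  rw [← h3]
  exact (h2 i hi).trans_lt (Order.lt_succ y)

/-- Heights of two functions agree on a club. -/
theorem hh_le {L κ ρ : Ordinal.{u}} {s g : ZFSet.{u}} (hF : Fam8 L κ s g)
    (hL : ∀ x < L, Order.succ x < L) (hρ : IsCof ρ L) {e : Ordinal.{u} → Ordinal.{u}}
    (he : Nrm ρ L e) {D D' : Ordinal.{u} → Ordinal.{u}} (hD : Nice κ L ρ D)
    (hD' : Nice κ L ρ D') :
    ∃ B : Ordinal.{u} → Ordinal.{u}, (∀ i < ρ, B i < ρ) ∧ ∀ ξ < ρ, (∀ i < ξ, B i < ξ) →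
      hh s g D (e ξ) ≤ hh s g D' (e ξ) := by
  have hL0 : ∀ {x : Ordinal.{u}}, x < L → (0 : Ordinal.{u}) < L := fun h => bot_le.trans_lt h
  have h1 : ∀ i, ∃ j, i < ρ → j < ρ ∧ Order.succ i ≤ j ∧ ∀ ζ < e i, ∃ ζ' < e j,
      Up (fun μ => rk (RR s g μ)) L (e j) (D ζ) (D' ζ') := by
    intro i
    by_cases hi : i < ρ
    · obtain ⟨m, hm, f, hf1, hf2⟩ := hD.2.2 (e i) (he.lt i hi)
      have h2 : ∀ k, ∃ c, c < L ∧ (k < m → ∃ ζ' < c, Up (fun μ => rk (RR s g μ)) L c (f k) (D' ζ')) := by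
        intro k
        by_cases hk : k < m
        · obtain ⟨ζ', hζ', h3⟩ := hD'.2.1 (f k) (hf1 k hk)
          obtain ⟨r, hr, h4⟩ := hF.inc h3 (hD'.1 ζ' hζ') hL
          exact ⟨max r (Order.succ ζ'), max_lt hr (hL ζ' hζ'), fun _ =>
            ⟨ζ', Order.succ_le_iff.1 (le_max_right _ _), h4.mono (le_max_left _ _)⟩⟩
        · exact ⟨0, hL0 (he.lt i hi), fun h => absurd h hk⟩
      choose c hc1 hc2 using h2
      obtain ⟨b, hb, hb'⟩ : ∃ b < L, ∀ k < m, c k ≤ b := by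
        by_contra hcon
        push Not at hcon
        exact hρ.2 m hm (cofN_of (G := c) (fun k _ => hc1 k) hcon)
      obtain ⟨j, hj, hbj⟩ := he.cof b hb
      refine ⟨max j (Order.succ i), fun _ => ⟨max_lt hj (he.lim i hi), le_max_right _ _,
        fun ζ hζ => ?_⟩⟩
      obtain ⟨k, hk, h3⟩ := hf2 ζ hζ
      obtain ⟨ζ', hζ', h4⟩ := hc2 k hk
      have h5 : c k ≤ e (max j (Order.succ i)) :=
        (hb' k hk).trans (hbj.le.trans (he.le_iff.2 (le_max_left _ _)))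
      rw [← h3]
      exact ⟨ζ', hζ'.trans_le h5, h4.mono h5⟩
    · exact ⟨0, fun h => absurd h hi⟩
  choose B hB using h1
  refine ⟨B, fun i hi => (hB i hi).1, fun ξ hξ hcl => lsb_le fun ζ hζ => ?_⟩
  obtain ⟨i, hi, h2⟩ := he.cont ξ ζ hζ
  have h3 : Order.succ i < ξ := (hB i (hi.trans hξ)).2.1.trans_lt (hcl i hi)
  obtain ⟨ζ', hζ', h4⟩ := (hB _ (h3.trans hξ)).2.2 ζ h2
  have h5 := he.mono _ _ (hcl _ h3)
  exact (h4 (e ξ) h5.le (he.lt ξ hξ)).trans (lt_lsb (hζ'.trans h5))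

/-- The points which are hit by the first `η` values on a stationary set. -/
def Hit (κ L ρ : Ordinal.{u}) (s g sg : ZFSet.{u}) (η α : Ordinal.{u}) : Prop :=
  ∃ D, Nice κ L ρ D ∧ StatL {μ | hh s g D μ < L ∧ ∃ ξ < η, InF3 sg μ.toZFSet
    (hh s g D μ).toZFSet (Ordinal.toZFSet ξ) (rk (RR s g μ) α).toZFSet} L

def LubZ (h μ D K R : ZFSet.{u}) : Prop :=
  (∀ ζ ∈ μ, ∀ y ∈ K, pair ζ y ∈ D → ∀ z ∈ K, InF2 R μ y z → z ∈ h) ∧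
    ∀ h' ∈ h, ∃ ζ ∈ μ, ∃ y ∈ K, pair ζ y ∈ D ∧ ∃ z ∈ K, InF2 R μ y z ∧ (h' ∈ z ∨ h' = z)

theorem dfn_LubZ (a b c d e : ℕ) :
    Dfn Lvl.{u} (fun v => LubZ (v a) (v b) (v c) (v d) (v e)) := by
  unfold LubZ
  repeat' first
    | exact Dfn.mem _ _ | exact Dfn.eq _ _ | exact dfn_pm Lvl_sub_Trs _ _ _
    | exact dfn_InF2 _ _ _ _
    | refine Dfn.imp ?_ ?_ | refine Dfn.and ?_ ?_ | refine Dfn.or ?_ ?_
    | refine Dfn.ball Lvl_sub_Trs _ ?_ | refine Dfn.bex Lvl_sub_Trs _ ?_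

def HitZ (η α K L P R sg : ZFSet.{u}) : Prop :=
  ∃ D, IsFunc L K D ∧ ((∀ x ∈ K, ∃ ζ ∈ L, ∃ y ∈ K, pair ζ y ∈ D ∧ x ∈ y) ∧
    ((∀ μ ∈ L, ∃ m ∈ P, ∃ f, IsFunc m K f ∧ ∀ ζ ∈ μ, ∀ y ∈ K, pair ζ y ∈ D →
      ∃ i ∈ m, pair i y ∈ f) ∧
    ∀ C, C ⊆ L → Club C L → ∃ μ ∈ C, ∃ h ∈ L, LubZ h μ D K R ∧
      ∃ ξ ∈ η, ∃ z ∈ K, InF2 R μ α z ∧ InF3 sg μ h ξ z))

theorem dfn_HitZ (a b c d e f g : ℕ) :
    Dfn Lvl.{u} (fun v => HitZ (v a) (v b) (v c) (v d) (v e) (v f) (v g)) := by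
  unfold HitZ
  repeat' first
    | exact Dfn.mem _ _ | exact Dfn.eq _ _ | exact dfn_pm Lvl_sub_Trs _ _ _
    | exact dfn_InF2 _ _ _ _ | exact dfn_InF3 _ _ _ _ _ | exact dfn_LubZ _ _ _ _ _
    | exact dfn_Club _ _ | refine Dfn.exfun _ _ ?_ | refine Dfn.allsub subset_rfl _ ?_
    | refine Dfn.imp ?_ ?_ | refine Dfn.and ?_ ?_ | refine Dfn.or ?_ ?_
    | refine Dfn.ball Lvl_sub_Trs _ ?_ | refine Dfn.bex Lvl_sub_Trs _ ?_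

theorem inF2_FF {κ L : Ordinal.{u}} {s g : ZFSet.{u}} {μ y : Ordinal.{u}} {z : ZFSet.{u}} :
    InF2 (FF κ L s g) μ.toZFSet y.toZFSet z ↔ μ < L ∧ y < κ ∧ (rk (RR s g μ) y).toZFSet = z := by
  unfold FF
  rw [inF2_gr (f := ∅), tzm, Ordinal.rank_toZFSet, pair_og]

theorem lubZ_iff {κ L h μ : Ordinal.{u}} {s g D : ZFSet.{u}} {G : Ordinal.{u} → Ordinal.{u}}
    (hμ : μ < L) (hG : ∀ i < L, G i < κ)
    (hG' : ∀ i < L, ∀ y : ZFSet.{u}, pair i.toZFSet y ∈ D ↔ (G i).toZFSet = y) :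
    LubZ h.toZFSet μ.toZFSet D κ.toZFSet (FF κ L s g) ↔ h = hh s g G μ := by
  unfold hh
  rw [eq_lsb_iff]
  have hb : ∀ {y : Ordinal.{u}}, y < κ → rk (RR s g μ) y < κ := fun h => (rk_le _ _).trans_lt h
  constructor
  · rintro ⟨h1, h2⟩
    refine ⟨fun j hj => ?_, fun y' hy' => ?_⟩
    · have h3 := hG j (hj.trans hμ)
      exact tzm.1 (h1 _ (tzm.2 hj) _ (tzm.2 h3) ((hG' j (hj.trans hμ) _).2 rfl) _ (tzm.2 (hb h3))
        (inF2_FF.2 ⟨hμ, h3, rfl⟩))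
    · obtain ⟨ζ, hζ, y, hy, h3, z, hz, h4, h5⟩ := h2 _ (tzm.2 hy')
      obtain ⟨ζ, hζ', rfl⟩ := Ordinal.mem_toZFSet_iff.1 hζ
      rw [hG' ζ (hζ'.trans hμ)] at h3
      rw [← h3, inF2_FF] at h4
      rw [← h4.2.2, tzm, Ordinal.toZFSet_injective.eq_iff] at h5
      refine ⟨ζ, hζ', ?_⟩
      rcases h5 with h5 | h5
      · exact h5.le
      · exact h5.le
  · rintro ⟨h1, h2⟩
    refine ⟨fun ζ hζ y hy h3 z hz h4 => ?_, fun h' hh' => ?_⟩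
    · obtain ⟨ζ, hζ', rfl⟩ := Ordinal.mem_toZFSet_iff.1 hζ
      rw [hG' ζ (hζ'.trans hμ)] at h3
      rw [← h3, inF2_FF] at h4
      rw [← h4.2.2]
      exact tzm.2 (h1 ζ hζ')
    · obtain ⟨h', hh'', rfl⟩ := Ordinal.mem_toZFSet_iff.1 hh'
      obtain ⟨ζ, hζ, h3⟩ := h2 h' hh''
      have h4 := hG ζ (hζ.trans hμ)
      refine ⟨_, tzm.2 hζ, _, tzm.2 h4, (hG' ζ (hζ.trans hμ) _).2 rfl, _, tzm.2 (hb h4),
        inF2_FF.2 ⟨hμ, h4, rfl⟩, ?_⟩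
      rcases h3.lt_or_eq with h5 | h5
      · exact Or.inl (tzm.2 h5)
      · exact Or.inr (by rw [h5])

theorem hitZ_iff {κ L ρ η α : Ordinal.{u}} {s g sg : ZFSet.{u}} (hα : α < κ) :
    HitZ η.toZFSet α.toZFSet κ.toZFSet L.toZFSet ρ.toZFSet (FF κ L s g) sg ↔
      Hit κ L ρ s g sg η α := by
  have key : ∀ {D : ZFSet.{u}} {G : Ordinal.{u} → Ordinal.{u}}, (∀ i < L, G i < κ) →
      (∀ i < L, ∀ y : ZFSet.{u}, pair i.toZFSet y ∈ D ↔ (G i).toZFSet = y) →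
      (((∀ x ∈ κ.toZFSet, ∃ ζ ∈ L.toZFSet, ∃ y ∈ κ.toZFSet, pair ζ y ∈ D ∧ x ∈ y) ∧
        ((∀ μ ∈ L.toZFSet, ∃ m ∈ ρ.toZFSet, ∃ f, IsFunc m κ.toZFSet f ∧ ∀ ζ ∈ μ,
          ∀ y ∈ κ.toZFSet, pair ζ y ∈ D → ∃ i ∈ m, pair i y ∈ f) ∧
        ∀ C, C ⊆ L.toZFSet → Club C L.toZFSet → ∃ μ ∈ C, ∃ h ∈ L.toZFSet,
          LubZ h μ D κ.toZFSet (FF κ L s g) ∧ ∃ ξ ∈ η.toZFSet, ∃ z ∈ κ.toZFSet,
            InF2 (FF κ L s g) μ α.toZFSet z ∧ InF3 sg μ h ξ z)) ↔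
        Nice κ L ρ G ∧ StatL {μ | hh s g G μ < L ∧ ∃ ξ < η, InF3 sg μ.toZFSet
          (hh s g G μ).toZFSet (Ordinal.toZFSet ξ) (rk (RR s g μ) α).toZFSet} L) := by
    intro D G hG hG'
    constructor
    · rintro ⟨h1, h2, h3⟩
      refine ⟨⟨hG, fun x hx => ?_, fun μ hμ => ?_⟩, fun C hC1 hC2 => ?_⟩
      · obtain ⟨ζ, hζ, y, hy, h4, h5⟩ := h1 _ (tzm.2 hx)
        obtain ⟨ζ, hζ', rfl⟩ := Ordinal.mem_toZFSet_iff.1 hζ
        rw [hG' ζ hζ'] at h4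
        rw [← h4] at h5
        exact ⟨ζ, hζ', tzm.1 h5⟩
      · obtain ⟨m, hm, f, hf, h4⟩ := h2 _ (tzm.2 hμ)
        obtain ⟨m, hm', rfl⟩ := Ordinal.mem_toZFSet_iff.1 hm
        obtain ⟨F, hF1, hF2⟩ := exists_og hf
        refine ⟨m, hm', F, hF1, fun ζ hζ => ?_⟩
        obtain ⟨i, hi, h5⟩ := h4 _ (tzm.2 hζ) _ (tzm.2 (hG ζ (hζ.trans hμ)))
          ((hG' ζ (hζ.trans hμ) _).2 rfl)
        obtain ⟨i, hi', rfl⟩ := Ordinal.mem_toZFSet_iff.1 hi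
        rw [hF2 i hi'] at h5
        exact ⟨i, hi', Ordinal.toZFSet_injective h5⟩
      · obtain ⟨μ, hμ, h, hh1, h4, ξ, hξ, z, hz, h5, h6⟩ := h3 C hC1 hC2
        obtain ⟨μ, hμ', rfl⟩ := Ordinal.mem_toZFSet_iff.1 (hC1 hμ)
        obtain ⟨h, hh2, rfl⟩ := Ordinal.mem_toZFSet_iff.1 hh1
        obtain ⟨ξ, hξ', rfl⟩ := Ordinal.mem_toZFSet_iff.1 hξ
        rw [lubZ_iff hμ' hG hG'] at h4
        rw [inF2_FF] at h5
        rw [← h5.2.2, h4] at h6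
        rw [h4] at hh2
        exact ⟨μ, hμ', ⟨hh2, ξ, hξ', h6⟩, hμ⟩
    · rintro ⟨⟨_, h1, h2⟩, h3⟩
      refine ⟨fun x hx => ?_, fun μ hμ => ?_, fun C hC1 hC2 => ?_⟩
      · obtain ⟨x, hx', rfl⟩ := Ordinal.mem_toZFSet_iff.1 hx
        obtain ⟨ζ, hζ, h4⟩ := h1 x hx'
        exact ⟨_, tzm.2 hζ, _, tzm.2 (hG ζ hζ), (hG' ζ hζ _).2 rfl, tzm.2 h4⟩
      · obtain ⟨μ, hμ', rfl⟩ := Ordinal.mem_toZFSet_iff.1 hμ
        obtain ⟨m, hm, f, hf1, hf2⟩ := h2 μ hμ'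
        refine ⟨_, tzm.2 hm, og m f, isFunc_og hf1, fun ζ hζ y hy h4 => ?_⟩
        obtain ⟨ζ, hζ', rfl⟩ := Ordinal.mem_toZFSet_iff.1 hζ
        rw [hG' ζ (hζ'.trans hμ')] at h4
        obtain ⟨i, hi, h5⟩ := hf2 ζ hζ'
        exact ⟨_, tzm.2 hi, pair_og.2 ⟨hi, by rw [h5, h4]⟩⟩
      · obtain ⟨μ, hμ, ⟨h4, ξ, hξ, h5⟩, h6⟩ := h3 C hC1 hC2
        exact ⟨_, h6, _, tzm.2 h4, (lubZ_iff hμ hG hG').2 rfl, _, tzm.2 hξ, _,
          tzm.2 ((rk_le (RR s g μ) α).trans_lt hα), inF2_FF.2 ⟨hμ, hα, rfl⟩, h5⟩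
  constructor
  · rintro ⟨D, hD, h⟩
    obtain ⟨G, hG, hG'⟩ := exists_og hD
    exact ⟨G, (key hG hG').1 h⟩
  · rintro ⟨G, h⟩
    refine ⟨og L G, isFunc_og h.1.1, (key h.1.1 fun i hi y => ?_).2 h⟩
    rw [pair_og]
    exact ⟨fun h => h.2, fun h => ⟨hi, h⟩⟩

/-- Some of the sets is in HOD and unbounded. -/
theorem exists_hit {κ L ρ : Ordinal.{u}} {s g sg : ZFSet.{u}} (hs : HOD s) (hg : HOD g)
    (hsg : HOD sg) (hκ : HODReg κ) (hL : L < κ) (hcov : ∀ α < κ, ∃ η < L, Hit κ L ρ s g sg η α) :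
    ∃ η < L, ∃ T : ZFSet.{u}, HOD T ∧ (∀ α : Ordinal.{u}, α.toZFSet ∈ T ↔
      α < κ ∧ Hit κ L ρ s g sg η α) ∧ ∀ x < κ, ∃ t < κ, x < t ∧ t.toZFSet ∈ T := by
  have hfam := HOD_fam8 (Ψ := fun v => HitZ (v 1) (v 0) (v 2) (v 10) (v 11) (v 3) (v 4))
    (dfn_HitZ _ _ _ _ _ _ _) (A := κ.toZFSet) (p := FF κ L s g) (q := sg) (r := ∅) (s := ∅)
    (t := ∅) (w := ∅) (J := L.toZFSet) (HOD_ord κ) (HOD_FF hs hg) hsg HOD_empty HOD_empty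
    HOD_empty HOD_empty (HOD_ord L) L ρ 0 0
  have hmem : ∀ η < L, ∀ α : Ordinal.{u}, InF (gr L.toZFSet fun i => ZFSet.sep (fun ξ =>
      HitZ i ξ κ.toZFSet L.toZFSet ρ.toZFSet (FF κ L s g) sg) κ.toZFSet) (Ordinal.toZFSet η)
        α.toZFSet ↔ α < κ ∧ Hit κ L ρ s g sg η α := by
    intro η hη α
    constructor
    · rintro ⟨F, h1, h2⟩
      rw [pair_mem_gr] at h1
      rw [← h1.2, mem_sep, tzm] at h2
      exact ⟨h2.1, (hitZ_iff h2.1).1 h2.2⟩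
    · rintro ⟨h1, h2⟩
      exact ⟨_, pair_mem_gr.2 ⟨tzm.2 hη, rfl⟩, mem_sep.2 ⟨tzm.2 h1, (hitZ_iff h1).2 h2⟩⟩
  by_contra hcon
  have hbd : ∀ η < L, ∃ b < κ, ∀ α < κ, Hit κ L ρ s g sg η α → α ≤ b := by
    intro η hη
    by_contra hcon2
    push Not at hcon2
    refine hcon ⟨η, hη, ZFSet.sep (fun ξ => HitZ η.toZFSet ξ κ.toZFSet L.toZFSet ρ.toZFSet
      (FF κ L s g) sg) κ.toZFSet, ?_, fun α => ?_, fun x hx => ?_⟩
    · exact HOD_sep8 (Ψ := fun v => HitZ (v 9) (v 0) (v 1) (v 10) (v 11) (v 2) (v 3))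
        (dfn_HitZ _ _ _ _ _ _ _) (HOD_ord κ) (HOD_FF hs hg) hsg HOD_empty HOD_empty HOD_empty
        HOD_empty HOD_empty η L ρ 0 0
    · rw [mem_sep, tzm]
      exact ⟨fun h => ⟨h.1, (hitZ_iff h.1).1 h.2⟩, fun h => ⟨h.1, (hitZ_iff h.1).2 h.2⟩⟩
    · obtain ⟨t, ht, h1, h2⟩ := hcon2 x hx
      exact ⟨t, ht, h2, mem_sep.2 ⟨tzm.2 ht, (hitZ_iff ht).2 h1⟩⟩
  let B : Ordinal.{u} → Ordinal.{u} := fun η => sInf {b | ∀ α < κ, Hit κ L ρ s g sg η α → α ≤ b}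
  have hB1 : ∀ η < L, ∀ α < κ, Hit κ L ρ s g sg η α → α ≤ B η := by
    intro η hη
    obtain ⟨y, _, hy⟩ := hbd η hη
    exact csInf_mem (s := {b | ∀ α < κ, Hit κ L ρ s g sg η α → α ≤ b}) ⟨y, hy⟩
  have hB2 : ∀ η < L, B η < κ := fun η hη => by
    obtain ⟨y, hy, h2⟩ := hbd η hη
    exact (csInf_le' (s := {b | ∀ α < κ, Hit κ L ρ s g sg η α → α ≤ b}) h2).trans_lt hy
  refine hκ.2.2 ⟨L.toZFSet, tzm.2 hL, og L B, ?_, (cofi_og hB2).2 fun y hy => ?_⟩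
  · refine HOD_gr8 (Ψ := fun v => (∀ α ∈ v 3, InF (v 4) (v 1) α → α ∈ v 0 ∨ α = v 0) ∧
        ∀ y ∈ v 0, ∃ α ∈ v 3, InF (v 4) (v 1) α ∧ y ∈ α) ?_ (HOD_ord L) (HOD_ord κ) hfam
        HOD_empty HOD_empty HOD_empty HOD_empty HOD_empty 0 0 0 0 fun x hx => ?_
    · repeat' first
        | exact Dfn.mem _ _ | exact Dfn.eq _ _ | exact dfn_InF _ _ _
        | refine Dfn.imp ?_ ?_ | refine Dfn.and ?_ ?_ | refine Dfn.or ?_ ?_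
        | refine Dfn.ball Lvl_sub_Trs _ ?_ | refine Dfn.bex Lvl_sub_Trs _ ?_
    · obtain ⟨η, hη, rfl⟩ := Ordinal.mem_toZFSet_iff.1 hx
      rw [Ordinal.rank_toZFSet]
      refine ⟨tzm.2 (hB2 η hη), fun y hy => ?_⟩
      obtain ⟨y, hy', rfl⟩ := Ordinal.mem_toZFSet_iff.1 hy
      rw [Ordinal.toZFSet_injective.eq_iff]
      constructor
      · rintro ⟨h3, h4⟩
        have h3' : ∀ α < κ, Hit κ L ρ s g sg η α → α ≤ y := by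
          intro α hα h5
          rcases h3 _ (tzm.2 hα) ((hmem η hη α).2 ⟨hα, h5⟩) with h6 | h6
          · exact (tzm.1 h6).le
          · exact (Ordinal.toZFSet_injective h6).le
        apply le_antisymm
        · by_contra hcon2
          push Not at hcon2
          obtain ⟨α, hα, h5, h6⟩ := h4 _ (tzm.2 hcon2)
          obtain ⟨α, hα', rfl⟩ := Ordinal.mem_toZFSet_iff.1 hα
          exact absurd (hB1 η hη α hα' ((hmem η hη α).1 h5).2) (not_le.2 (tzm.1 h6))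
        · exact csInf_le' (s := {b | ∀ α < κ, Hit κ L ρ s g sg η α → α ≤ b}) h3'
      · rintro rfl
        refine ⟨fun α hα h5 => ?_, fun w hw => ?_⟩
        · obtain ⟨α, hα', rfl⟩ := Ordinal.mem_toZFSet_iff.1 hα
          rcases (hB1 η hη α hα' ((hmem η hη α).1 h5).2).lt_or_eq with h7 | h7
          · exact Or.inl (tzm.2 h7)
          · exact Or.inr (by rw [h7]; rfl)
        · have hw' : w ∈ (B η).toZFSet := hw
          obtain ⟨w, hw'', rfl⟩ := Ordinal.mem_toZFSet_iff.1 hw'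
          by_contra hcon2
          push Not at hcon2
          refine absurd (csInf_le' (s := {b | ∀ α < κ, Hit κ L ρ s g sg η α → α ≤ b})
            (fun α hα h5 => ?_)) (not_le.2 hw'')
          by_contra h6
          push Not at h6
          exact hcon2 _ (tzm.2 hα) ((hmem η hη α).2 ⟨hα, h5⟩) (tzm.2 h6)
  · obtain ⟨η, hη, h⟩ := hcov _ (hκ.2.1 y hy)
    exact ⟨η, hη, (Order.lt_succ y).trans_le (hB1 η hη _ (hκ.2.1 y hy) h)⟩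

end Pool.Agent.H639
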