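import Pool.Agent.H639.Sil7

/-!
The main argument: regular cardinals of HOD between a singular cardinal of uncountable cofinality and
its successor.
-/

set_option autoImplicit false
set_option linter.unusedVariables false

namespace Pool.Agent.H639

open Pool.Agent.H310.HD Gss969 ZFSet Pool.Agent.Results.MP_e37c09_lc.AlternativeA

universe u

theorem RegUnc.hodReg' {l : Ordinal.{u}} (hl : RegUnc l.toZFSet) : HODReg l := by
  refine ⟨hl.pos, fun x hx => hl.succ_lt hx, ?_⟩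
  rintro ⟨c, hc, g, _, hf, hcf⟩
  obtain ⟨b, hb, h1⟩ := hl.2.2 c hc g hf
  obtain ⟨i, hi, z, hz, h2, h3⟩ := hcf b hb
  exact mem_asymm h3 (h1 i hi z hz h2)

theorem core {L κ ρ ν₀ : Ordinal.{u}} (hLc : IsCard L.toZFSet) (hω : Ordinal.omega0 ≤ L)
    (hL : ∀ x < L, Order.succ x < L) (hρ : IsCof ρ L) (hρr : RegUnc ρ.toZFSet) (hρL : ρ < L)
    (hκ : HODReg κ) (hLκ : L < κ) (hno : ∀ τ, L < τ → τ < κ → ¬ HODReg τ)
    (hν : IsCof ν₀ κ) (hν₀ : ν₀ ≤ ρ)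
    (hlim : ∀ μ < L, ∃ l < L, μ < l ∧ RegUnc (Ordinal.toZFSet l)) {S : Set Ordinal.{u}}
    (hS : StatL S L)
    (hSS : ∀ μ ∈ S, μ < L → IsCard (Ordinal.toZFSet μ) ∧ Ordinal.omega0 ≤ μ ∧
      ∀ μ' : Ordinal.{u}, μ < μ' → HODReg μ' →
      (∀ τ, μ < τ → τ < μ' → ¬ HODReg τ) → ∀ ν < ρ, ¬ IsCof ν μ') : False := by
  classical
  obtain ⟨e, he⟩ := exists_nrm hL hρ.1 hρ.2
  obtain ⟨s, g, hF⟩ := exists_fam8 hLc hω hno
  obtain ⟨sg, hsg, hsg1, hsg2⟩ := exists_sg L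
  obtain ⟨D₀, hD₀⟩ := exists_nice he hκ.1 hν hν₀
  -- the sets cover `κ`
  have hcov : ∀ α < κ, ∃ η < L, Hit κ L ρ s g sg η α := by
    intro α hα
    obtain ⟨r, hr, h1⟩ := lt_hh hF hL hD₀ hα
    have h2 : ∀ μ, ∃ ξ, μ ∈ S → r < μ → μ < L → ξ < μ ∧ hh s g D₀ μ < L ∧
        InF3 sg μ.toZFSet (hh s g D₀ μ).toZFSet ξ.toZFSet (rk (RR s g μ) α).toZFSet := by
      intro μ
      by_cases hμ : μ ∈ S ∧ r < μ ∧ μ < L
      · obtain ⟨hμS, hrμ, hμL⟩ := hμ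
        obtain ⟨hc, hωμ, h3⟩ := hSS μ hμS hμL
        obtain ⟨l, hl, hμl, hlr⟩ := hlim μ hμL
        obtain ⟨μ', ⟨h4, h5⟩, hmin⟩ := WellFounded.has_min (wellFounded_lt (α := Ordinal.{u}))
          {μ' | μ < μ' ∧ HODReg μ'} ⟨l, hμl, RegUnc.hodReg' hlr⟩
        have hno' : ∀ τ, μ < τ → τ < μ' → ¬ HODReg τ := fun τ h6 h7 h8 => hmin τ ⟨h6, h8⟩ h7
        have hμ'L : μ' < L := by
          by_contra hcon
          push Not at hcon
          exact hmin l ⟨hμl, RegUnc.hodReg' hlr⟩ (hl.trans_le hcon)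
        have h6 := hh_lt hF hD₀ hμL h5 h4 (h3 μ' h4 h5 hno')
        obtain ⟨ξ, hξ, h7⟩ := hsg2 μ hμL hc hωμ μ' hno' _ h6 (h6.trans hμ'L) _
          (h1 μ hrμ.le hμL)
        exact ⟨ξ, fun _ _ _ => ⟨hξ, h6.trans hμ'L, h7⟩⟩
      · exact ⟨0, fun h3 h4 h5 => absurd ⟨h3, h4, h5⟩ hμ⟩
    choose b hb using h2
    obtain ⟨z, hz, h3⟩ := he.fodorS hρr hS hr b fun x hx hrx hxL => (hb x hx hrx hxL).1
    refine ⟨z, hz, D₀, hD₀, h3.mono fun x hxL hx => ?_⟩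
    obtain ⟨hxS, hrx, hbz⟩ := hx
    obtain ⟨_, h4, h5⟩ := hb x hxS hrx hxL
    exact ⟨h4, b x, hbz, h5⟩
  obtain ⟨η, hη, T, hT, hT1, hT2⟩ := exists_hit hF.hs hF.hg hsg hκ hLκ hcov
  obtain ⟨χ, hχL, hχ1, hχ⟩ := hlim (max ρ η) (max_lt hρL hη)
  obtain ⟨χ₁, hχ₁L, hχχ, hχ₁⟩ := hlim χ hχL
  obtain ⟨l, hlL, hχ₁l, hl⟩ := hlim χ₁ hχ₁L
  obtain ⟨l', hl'L, hll, hl'⟩ := hlim l hlL
  -- the enumeration of `T`
  have hen := enum_all (W := T) (κ := κ) hT.od hT2 hκ.2.2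
  have hSunb : ¬ BddAbove {x : Ordinal.{u} | x.toZFSet ∈ T ∨ κ ≤ x} := by
    rintro ⟨B, hB⟩
    have h1 : Order.succ (max B κ) ∈ {x : Ordinal.{u} | x.toZFSet ∈ T ∨ κ ≤ x} :=
      Or.inr ((le_max_right _ _).trans (Order.le_succ _))
    exact absurd (hB h1) (not_le.2 ((le_max_left B κ).trans_lt (Order.lt_succ _)))
  set t := Ordinal.enumOrd {x : Ordinal.{u} | x.toZFSet ∈ T ∨ κ ≤ x} with ht
  have htm : ∀ i j, i < j → t i < t j := fun i j h => Ordinal.enumOrd_strictMono hSunb h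
  have htT : ∀ i < κ, (t i).toZFSet ∈ T := fun i hi => by
    rcases Ordinal.enumOrd_mem hSunb i with h | h
    · exact h
    · exact absurd (hen i hi) (not_lt.2 h)
  have hl'κ : l' < κ := hl'L.trans hLκ
  set δ := lsb l' t with hδ
  have hδκ : δ < κ := (lsb_le fun j hj => htm j l' hj).trans_lt (hen l' hl'κ)
  have htδ : ∀ i < l', t i < δ := fun i hi => lt_lsb hi
  obtain ⟨γ, C, α, rr, hγ, hC1, hC2, hC3, hC4⟩ := strong_inc (F := fun μ => rk (RR s g μ)) (L := L)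
    (δ := δ) (χ := χ) (χ₁ := χ₁) (l := l) (T := {x | x.toZFSet ∈ T})
    (bot_le.trans_lt (htδ 0 hl'.pos)) hχ hχ₁ hl hχχ hχ₁l (fun f hf => by
      have h1 : ∀ i, ∃ j, i < l → j < l' ∧ f i ≤ t j := by
        intro i
        by_cases hi : i < l
        · obtain ⟨j, hj, h2⟩ := exists_of_lt_lsb (hf i hi)
          exact ⟨j, fun _ => ⟨hj, h2⟩⟩
        · exact ⟨0, fun h => absurd h hi⟩
      choose j hj using h1
      obtain ⟨b, hb, h2⟩ := hl'.bdd hll j fun i hi => (hj i hi).1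
      exact ⟨t b, htδ b hb, fun i hi => (hj i hi).2.trans_lt (htm _ _ (h2 i hi))⟩)
    (fun a b hab hb => hF.inc hab (hb.trans hδκ) hL)
    (fun d hd hdl hdc => hF.clb (hd.trans hδκ) (by
      obtain ⟨G, hG, _⟩ := exists_of_cofN hdc.1
      exact bot_le.trans_lt (hG 0 hl.pos)) hdl fun h => by
        have h1 : l = ρ := ((h l).1 hdc).unique hρ
        have h2 : ρ < l := (le_max_left ρ η).trans_lt (hχ1.trans (hχχ.trans hχ₁l))
        exact absurd h1 (ne_of_gt h2))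
    (fun x hx => by
      obtain ⟨j, hj, h2⟩ := exists_of_lt_lsb hx
      exact ⟨t (Order.succ j), htT _ ((hl'.succ_lt hj).trans hl'κ),
        h2.trans_lt (htm _ _ (Order.lt_succ j)), htδ _ (hl'.succ_lt hj)⟩)
  -- the witnesses
  have hw : ∀ j, ∃ ξ ζ : Ordinal.{u}, j ∈ C → ξ < ρ ∧ ζ < η ∧ rr j ≤ e ξ ∧
      InF3 sg (e ξ).toZFSet (hh s g D₀ (e ξ)).toZFSet ζ.toZFSet
        (rk (RR s g (e ξ)) (α j)).toZFSet := by
    intro j
    by_cases hj : j ∈ C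
    · obtain ⟨h1, h2, h3⟩ := hC3 j hj
      obtain ⟨_, D, hD, hst⟩ := (hT1 _).1 h1
      obtain ⟨B, hB1, hB2⟩ := hh_le hF hL hρ he hD hD₀
      obtain ⟨B', hB1', hB2'⟩ := hh_le hF hL hρ he hD₀ hD
      obtain ⟨ξ₀, hξ₀, h4⟩ := he.cof _ h3
      have h5 := (he.statR hst).tail hρr hξ₀
      obtain ⟨ξ, hξ, ⟨h6, h7⟩, h8⟩ := h5 _ sep_subset (club_closure hρr (fun i => max (B i) (B' i))
        fun i hi => max_lt (hB1 i hi) (hB1' i hi))
      obtain ⟨_, _, h9⟩ := mem_sep.1 h8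
      have h10 : ∀ i < ξ, max (B i) (B' i) < ξ := fun i hi => by
        have := h9 _ (tzm.2 hi)
        rw [Ordinal.rank_toZFSet] at this
        exact tzm.1 this
      have h11 : hh s g D (e ξ) = hh s g D₀ (e ξ) := le_antisymm
        (hB2 ξ hξ fun i hi => (le_max_left _ _).trans_lt (h10 i hi))
        (hB2' ξ hξ fun i hi => (le_max_right _ _).trans_lt (h10 i hi))
      obtain ⟨_, ζ, hζ, h12⟩ := h6
      rw [h11] at h12
      exact ⟨ξ, ζ, fun _ => ⟨hξ, hζ, (h4.trans (he.mono _ _ h7)).le, h12⟩⟩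
    · exact ⟨0, 0, fun h => absurd h hj⟩
  choose p q hpq using hw
  have hinj : ∀ j ∈ C, ∀ j' ∈ C, p j = p j' → q j = q j' → j = j' := by
    have h1 : ∀ j ∈ C, ∀ j' ∈ C, j < j' → p j = p j' → q j = q j' → False := by
      intro j hj j' hj' hjj h2 h3
      obtain ⟨h4, _, h5, h6⟩ := hpq j hj
      obtain ⟨_, _, h7, h8⟩ := hpq j' hj'
      rw [← h2] at h7 h8
      rw [← h3] at h8
      have h9 : rk (RR s g (e (p j))) (α j) < rk (RR s g (e (p j))) (α j') :=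
        hC4 j hj j' hj' hjj (e (p j)) h5 h7 (e (p j)) le_rfl (he.lt _ h4)
      rw [hsg1 _ _ _ _ _ h6 h8] at h9
      exact absurd h9 (lt_irrefl _)
    intro j hj j' hj' h2 h3
    rcases lt_trichotomy j j' with h | h | h
    · exact absurd (h1 j hj j' hj' h h2 h3) id
    · exact h
    · exact absurd (h1 j' hj' j hj h h2.symm h3.symm) id
  have hm : Ordinal.omega0 ≤ max ρ η := hρr.om_lt.le.trans (le_max_left _ _)
  obtain ⟨sp, hsp⟩ := exists_pairing hm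
  have hx : ∀ j, ∃ i, j ∈ C → i < max ρ η ∧ sp i = (p j, q j) := by
    intro j
    by_cases hj : j ∈ C
    · obtain ⟨h4, h5, _, _⟩ := hpq j hj
      obtain ⟨i, hi, h6⟩ := hsp _ (h4.trans_le (le_max_left ρ η)) _ (h5.trans_le (le_max_right ρ η))
      exact ⟨i, fun _ => ⟨hi, h6⟩⟩
    · exact ⟨0, fun h => absurd h hj⟩
  choose x hx using hx
  obtain ⟨G, hG, _⟩ := exists_of_cofN hγ.1
  have hγ0 : 0 < γ := bot_le.trans_lt (hG 0 hχ.pos)
  refine hγ.2 _ hχ1 (cofN_of (G := fun i => if h : ∃ j ∈ C, x j = i then h.choose else 0)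
    (fun i hi => ?_) fun y hy => ?_)
  · by_cases h : ∃ j ∈ C, x j = i
    · simp only [dif_pos h]
      exact hC1 _ h.choose_spec.1
    · simp only [dif_neg h]
      exact hγ0
  · obtain ⟨c, hc, hyc⟩ := hC2 y hy
    have h : ∃ j ∈ C, x j = x c := ⟨c, hc, rfl⟩
    refine ⟨x c, (hx c hc).1, ?_⟩
    simp only [dif_pos h]
    have h2 := h.choose_spec
    have h3 : (p h.choose, q h.choose) = (p c, q c) := by
      rw [← (hx _ h2.1).2, ← (hx c hc).2, h2.2]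
    rw [Prod.mk.injEq] at h3
    rw [hinj _ h2.1 c hc h3.1 h3.2]
    exact hyc

end Pool.Agent.H639
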