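import Pool.Agent.H639.Sil8
import Pool.Agent.Results.MP_dbe07f_lc.CofinalitySpectrum

/-!
Singular cardinals of uncountable cofinality: the consequences of the main argument.
-/

set_option autoImplicit false
set_option linter.unusedVariables false

namespace Pool.Agent.H639

open Pool.Agent.H310.HD Gss969 ZFSet Pool.Agent.Results.MP_e37c09_lc.AlternativeA
open Pool.Agent.Results.MP_dbe07f_lc.CofinalitySpectrum

universe u

/-- `L` is a singular cardinal of uncountable cofinality `ρ`. -/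
def UncSing (L ρ : Ordinal.{u}) : Prop :=
  InfCard L ∧ IsCof ρ L ∧ Ordinal.omega0 < ρ ∧ ρ < L

/-- `κ` is the least ordinal above `μ` which is regular in HOD. -/
def NextReg (μ κ : Ordinal.{u}) : Prop :=
  μ < κ ∧ HODReg κ ∧ ∀ τ, μ < τ → τ < κ → ¬ HODReg τ

namespace UncSing

variable {L ρ : Ordinal.{u}}

theorem pos (h : UncSing L ρ) : 0 < L := Ordinal.omega0_pos.trans_le h.1.2

theorem lim (h : UncSing L ρ) : ∀ x < L, Order.succ x < L := by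
  intro x hx
  by_contra hcon
  push Not at hcon
  -- `L` is a successor ordinal
  have h1 : L = Order.succ x := le_antisymm hcon (Order.succ_le_of_lt hx)
  have h2 : x.card < L.card := IsCard.card_lt h.1.1 hx
  have h3 : Cardinal.aleph0 ≤ L.card := by
    rw [← Ordinal.card_omega0]
    exact Ordinal.card_le_card h.1.2
  rw [h1, Order.succ_eq_add_one, Ordinal.card_add_one] at h2 h3
  rcases lt_or_ge x.card Cardinal.aleph0 with h4 | h4
  · exact absurd (Cardinal.add_lt_aleph0 h4 Cardinal.one_lt_aleph0) (not_lt.2 h3)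
  · rw [Cardinal.add_one_eq h4] at h2
    exact absurd h2 (lt_irrefl _)

theorem regUnc (h : UncSing L ρ) : RegUnc ρ.toZFSet :=
  (h.2.1.isReg h.pos h.lim).regUnc h.2.2.1

theorem hlim (h : UncSing L ρ) : ∀ μ < L, ∃ l < L, μ < l ∧ RegUnc (Ordinal.toZFSet l) := by
  intro μ hμ
  have h3 : Cardinal.aleph0 ≤ max μ.card Cardinal.aleph0 := le_max_right _ _
  have h4 : (Order.succ (max μ.card Cardinal.aleph0)).IsRegular := Cardinal.isRegular_succ h3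
  have hr := regUnc_ord h4 (h3.trans_lt (Order.lt_succ _))
  have h5 : max μ.card Cardinal.aleph0 < L.card := by
    refine max_lt (IsCard.card_lt h.1.1 hμ) ?_
    have h6 := IsCard.card_lt h.1.1 (h.2.2.1.trans h.2.2.2)
    rwa [Ordinal.card_omega0] at h6
  have h6 : (Order.succ (max μ.card Cardinal.aleph0)).ord ≤ L :=
    (Cardinal.ord_le_ord.2 (Order.succ_le_of_lt h5)).trans (Cardinal.ord_card_le L)
  refine ⟨_, lt_of_le_of_ne h6 fun h7 => ?_, ?_, hr⟩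
  · rw [h7] at hr
    exact absurd h.2.1.1 ((IsReg.of_regUnc hr).2.2 _ h.2.2.2)
  · rw [Cardinal.lt_ord]
    exact (le_max_left _ _).trans_lt (Order.lt_succ _)

/-- The cardinals above `β` form a club. -/
theorem club_card (h : UncSing L ρ) {β : Ordinal.{u}} (hβ : β < L) :
    Club (ZFSet.sep (fun x => β.toZFSet ∈ x ∧ IsCard x) L.toZFSet) L.toZFSet := by
  refine ⟨sep_subset, fun x hx => ?_, fun a ha hne hl => ?_⟩
  · obtain ⟨x, hx', rfl⟩ := Ordinal.mem_toZFSet_iff.1 hx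
    obtain ⟨l, hl, h1, h2⟩ := h.hlim _ (max_lt hβ hx')
    exact ⟨l.toZFSet, mem_sep.2 ⟨tzm.2 hl, tzm.2 ((le_max_left _ _).trans_lt h1), h2.isCard⟩,
      tzm.2 ((le_max_right _ _).trans_lt h1)⟩
  · obtain ⟨a, ha', rfl⟩ := Ordinal.mem_toZFSet_iff.1 ha
    have h1 : ∀ y < a, ∃ c < a, y < c ∧ β < c ∧ IsCard (Ordinal.toZFSet c) := by
      intro y hy
      obtain ⟨c, hc, hca, hyc⟩ := hl _ (tzm.2 hy)
      obtain ⟨hc1, hc2, hc3⟩ := mem_sep.1 hc
      obtain ⟨c, hc', rfl⟩ := Ordinal.mem_toZFSet_iff.1 hc1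
      exact ⟨c, tzm.1 hca, tzm.1 hyc, tzm.1 hc2, hc3⟩
    refine mem_sep.2 ⟨ha, ?_, isCard_of_lim fun y hy => ?_⟩
    · obtain ⟨x, hx, _⟩ := hne
      obtain ⟨x, hx', rfl⟩ := Ordinal.mem_toZFSet_iff.1 hx
      obtain ⟨c, hc, _, h2, _⟩ := h1 x hx'
      exact tzm.2 (h2.trans hc)
    · obtain ⟨c, hc, h2, _, h3⟩ := h1 y hy
      exact ⟨c, hc, h2, h3⟩

theorem not_cofOm (h : UncSing L ρ) : ¬ CofN Ordinal.omega0.toZFSet L.toZFSet :=
  h.2.1.2 _ h.2.2.1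

theorem stat_inter (h : UncSing L ρ) {S : Set Ordinal.{u}} (hS : StatL S L) {C : ZFSet.{u}}
    (hC : Club C L.toZFSet) : StatL {x | x ∈ S ∧ x.toZFSet ∈ C} L := by
  intro C' hC1 hC2
  obtain ⟨α, hα, h1, h2⟩ := hS (C ∩ C') (fun x hx => hC1 (mem_inter.1 hx).2)
    (club_inter_cof h.not_cofOm hC hC2)
  rw [mem_inter] at h2
  exact ⟨α, hα, ⟨h1, h2.1⟩, h2.2⟩

/-- Complements of nonstationary sets. -/
theorem club_of (h : UncSing L ρ) {P : Ordinal.{u} → Prop} (hS : ¬ StatL {x | ¬ P x} L) :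
    ∃ C, Club C L.toZFSet ∧ ∀ x : Ordinal.{u}, x.toZFSet ∈ C → P x := by
  unfold StatL at hS
  push Not at hS
  obtain ⟨C, _, hC2, h5⟩ := hS
  refine ⟨C, hC2, fun x hx => ?_⟩
  by_contra hcon
  exact h5 x (tzm.1 (hC2.1 hx)) hcon hx

/-- If `L` is regular in HOD, then so are club many `μ < L`. -/
theorem club_reg (h : UncSing L ρ) (hL : HODReg L) :
    ∃ C, Club C L.toZFSet ∧ ∀ μ : Ordinal.{u}, μ.toZFSet ∈ C → IsCard μ.toZFSet ∧ HODReg μ := by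
  refine h.club_of (P := fun μ => IsCard μ.toZFSet ∧ HODReg μ) fun hS => ?_
  have hωL : Ordinal.omega0 < L := h.2.2.1.trans h.2.2.2
  have hS1 := h.stat_inter hS (h.club_card hωL)
  obtain ⟨e, he⟩ := exists_nrm h.lim h.2.1.1 h.2.1.2
  have h1 : ∀ x, ∃ c, x ∈ {x | x ∈ {x : Ordinal.{u} | ¬ (IsCard x.toZFSet ∧ HODReg x)} ∧
      x.toZFSet ∈ ZFSet.sep (fun x => Ordinal.omega0.toZFSet ∈ x ∧ IsCard x) L.toZFSet} →
      c < x ∧ x ∈ SmallCof c := by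
    intro x
    by_cases hx : x ∈ {x | x ∈ {x : Ordinal.{u} | ¬ (IsCard x.toZFSet ∧ HODReg x)} ∧
      x.toZFSet ∈ ZFSet.sep (fun x => Ordinal.omega0.toZFSet ∈ x ∧ IsCard x) L.toZFSet}
    · obtain ⟨h2, h3⟩ := hx
      obtain ⟨h4, h5, h6⟩ := mem_sep.1 h3
      have h7 : ¬ HODReg x := fun h7 => h2 ⟨h6, h7⟩
      have h8 : ∀ y < x, Order.succ y < x := by
        intro y hy
        by_contra hcon
        push Not at hcon
        have h9 : x = Order.succ y := le_antisymm hcon (Order.succ_le_of_lt hy)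
        have h10 : y.card < x.card := IsCard.card_lt h6 hy
        have h11 : Cardinal.aleph0 ≤ x.card := by
          rw [← Ordinal.card_omega0]
          exact Ordinal.card_le_card (tzm.1 h5).le
        rw [h9, Order.succ_eq_add_one, Ordinal.card_add_one] at h10 h11
        rcases lt_or_ge y.card Cardinal.aleph0 with h12 | h12
        · exact absurd (Cardinal.add_lt_aleph0 h12 Cardinal.one_lt_aleph0) (not_lt.2 h11)
        · rw [Cardinal.add_one_eq h12] at h10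
          exact absurd h10 (lt_irrefl _)
      obtain ⟨τ, hτ, h9, G, h10, h11, _, h12, _⟩ := hod_cof (bot_le.trans_lt (tzm.1 h5)) h8
      have h13 : τ < x := lt_of_le_of_ne hτ fun h13 => h7 (h13 ▸ h9)
      exact ⟨τ, fun _ => ⟨h13, τ, le_rfl, _, h10, (cofi_og h11).2 h12⟩⟩
    · exact ⟨0, fun h => absurd h hx⟩
  choose c hc using h1
  obtain ⟨z, hz, h2⟩ := he.fodorS h.regUnc hS1 h.pos c fun x hx _ _ => (hc x hx).1
  have h3 : StatL (SmallCof (max z Ordinal.omega0)) L := h2.mono fun x _ hx => by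
    obtain ⟨a, ha, g, hg, hg'⟩ := (hc x hx.1).2
    exact ⟨a, ha.trans (hx.2.2.le.trans (le_max_left _ _)), g, hg, hg'⟩
  have h4 := ket_ns hL h.2.1.1 h.2.1.2 (fun h5 => h.not_cofOm (cofN_om.2 h5)) h3
  have h5 : Cardinal.aleph0 ≤ L.card := by
    rw [← Ordinal.card_omega0]
    exact Ordinal.card_le_card h.1.2
  exact absurd (Cardinal.mul_lt_of_lt h5 (IsCard.card_lt h.1.1 h.2.2.2)
    (IsCard.card_lt h.1.1 (max_lt hz hωL))) (not_lt.2 h4)

theorem next_le {μ κ l : Ordinal.{u}} (h : NextReg μ κ) (hl : RegUnc l.toZFSet) (hμl : μ < l) :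
    κ ≤ l := by
  by_contra hcon
  push Not at hcon
  exact h.2.2 l hμl hcon (RegUnc.hodReg' hl)

/-- If `(L⁺)^HOD < L⁺`, then `(μ⁺)^HOD` has cofinality less than `cf(L)` for club many `μ < L`. -/
theorem club_next (h : UncSing L ρ) {κ : Ordinal.{u}} (hκ : NextReg L κ)
    (hc : κ.card = L.card) : ∃ C, Club C L.toZFSet ∧ ∀ μ : Ordinal.{u}, μ.toZFSet ∈ C →
      IsCard μ.toZFSet ∧ ρ < μ ∧ ∃ α ν : Ordinal.{u}, NextReg μ α ∧ α.card = μ.card ∧ IsCof ν α ∧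
        ν < ρ := by
  refine h.club_of (P := fun μ => IsCard μ.toZFSet ∧ ρ < μ ∧ ∃ α ν : Ordinal.{u},
    NextReg μ α ∧ α.card = μ.card ∧ IsCof ν α ∧ ν < ρ) fun hS => ?_
  have hS1 := h.stat_inter hS (h.club_card h.2.2.2)
  obtain ⟨ν₀, hν₀', hν₀⟩ := exists_isCof hκ.2.1.2.1
  have hν₀ρ : ν₀ ≤ ρ := by
    have h1 := (Pool.Agent.Results.MP_dbe07f_lc.CofinalitySpectrum.result.{u} true).2.2.2.1 L κ ν₀ h.1 ⟨hκ.2.1, hκ.1.le, hc⟩ hκ.1 hκ.2.2 hν₀
    rcases h1 with h1 | h1 | ⟨_, h1, _⟩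
    · rw [h1]; exact h.2.2.1.le
    · rw [h1.unique h.2.1]
    · exact absurd (h1.unique h.2.1) (ne_of_lt h.2.2.1)
  refine core h.1.1 h.1.2 h.lim h.2.1 h.regUnc h.2.2.2 hκ.2.1 hκ.1 hκ.2.2 hν₀ hν₀ρ h.hlim hS1
    fun μ hμ hμL => ?_
  obtain ⟨h1, h2⟩ := hμ
  obtain ⟨_, h3, h4⟩ := mem_sep.1 h2
  have h3' : ρ < μ := tzm.1 h3
  have hωμ : Ordinal.omega0 < μ := h.2.2.1.trans h3'
  refine ⟨h4, hωμ.le, fun μ' h5 h6 h7 ν hν h8 => h1 ⟨h4, h3', μ', ν, ⟨h5, h6, h7⟩, ?_, h8, hν⟩⟩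
  obtain ⟨l, hμl, hl, hsucc⟩ := exists_succ h4 hωμ
  have h9 : μ' ≤ l := next_le ⟨h5, h6, h7⟩ hl hμl
  have h10 : μ' < l := by
    refine lt_of_le_of_ne h9 fun h10 => ?_
    rw [h10] at h8
    exact absurd h8.1 ((IsReg.of_regUnc hl).2.2 _ (hν.trans (h3'.trans hμl)))
  obtain ⟨f, hf, hfo⟩ := hsucc.2.2 μ'.toZFSet (tzm.2 h10) ⟨_, tzm.2 h6.1, rfl⟩
  refine le_antisymm ?_ (Ordinal.card_le_card h5.le)
  obtain ⟨G, hG1, hG2⟩ := exists_og hf
  have h11 : ∀ y : Set.Iio μ', ∃ x : Set.Iio μ, G x.1 = y.1 := by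
    intro y
    obtain ⟨x, hx, h12⟩ := hfo _ (tzm.2 y.2)
    obtain ⟨x, hx', rfl⟩ := Ordinal.mem_toZFSet_iff.1 hx
    exact ⟨⟨x, hx'⟩, Ordinal.toZFSet_injective ((hG2 x hx' _).1 h12)⟩
  choose F hF using h11
  have hinj : Function.Injective F := fun y y' h12 => by
    apply Subtype.ext
    rw [← hF y, ← hF y', h12]
  have h12 := Cardinal.mk_le_of_injective hinj
  rw [Cardinal.mk_Iio_ordinal, Cardinal.mk_Iio_ordinal, Cardinal.lift_le] at h12
  exact h12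

/-- Every regular cardinal of HOD in `[L, L⁺)` reflects. -/
theorem club_regAt (h : UncSing L ρ) {κ : Ordinal.{u}} (hκ : RegAt L κ) :
    ∃ C, Club C L.toZFSet ∧ ∀ μ : Ordinal.{u}, μ.toZFSet ∈ C →
      IsCard μ.toZFSet ∧ ∃ α ν : Ordinal.{u}, RegAt μ α ∧ IsCof ν α ∧ ν < ρ := by
  obtain ⟨e, he⟩ := exists_nrm h.lim h.2.1.1 h.2.1.2
  by_cases hL : HODReg L
  · obtain ⟨C, hC, h1⟩ := h.club_reg hL
    have h2 := he.club_im (club_closure h.regUnc (fun x => Order.succ x)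
      fun x hx => h.regUnc.succ_lt hx)
    refine ⟨_, club_inter_cof h.not_cofOm hC h2, fun μ hμ => ?_⟩
    obtain ⟨h3, h4⟩ := mem_inter.1 hμ
    obtain ⟨_, ξ, hξ, h5, h6⟩ := mem_sep.1 h4
    obtain ⟨_, _, h7⟩ := mem_sep.1 h5
    have h8 : ∀ y < ξ, Order.succ y < ξ := fun y hy => by
      have := h7 _ (tzm.2 hy)
      rw [Ordinal.rank_toZFSet] at this
      exact tzm.1 this
    obtain ⟨ν, hν, h9⟩ := exists_isCof h8
    rw [Ordinal.toZFSet_injective h6]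
    rw [Ordinal.toZFSet_injective h6] at h3
    obtain ⟨h10, h11⟩ := h1 _ h3
    exact ⟨h10, e ξ, ν, ⟨h11, le_rfl, rfl⟩, (he.isCof h8).2 h9, hν.trans_lt hξ⟩
  · obtain ⟨κ₁, ⟨h1, h2⟩, hmin⟩ := WellFounded.has_min (wellFounded_lt (α := Ordinal.{u}))
      {x | L < x ∧ HODReg x} ⟨κ, lt_of_le_of_ne hκ.2.1 fun h1 => hL (h1 ▸ hκ.1), hκ.1⟩
    have h3 : κ₁ ≤ κ := by
      by_contra hcon
      push Not at hcon
      exact hmin κ ⟨lt_of_le_of_ne hκ.2.1 fun h1 => hL (h1 ▸ hκ.1), hκ.1⟩ hcon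
    have h4 : κ₁.card = L.card := le_antisymm ((Ordinal.card_le_card h3).trans hκ.2.2.le)
      (Ordinal.card_le_card h1.le)
    obtain ⟨C, hC, h5⟩ := h.club_next ⟨h1, h2, fun τ h5 h6 h7 => hmin τ ⟨h5, h7⟩ h6⟩ h4
    refine ⟨C, hC, fun μ hμ => ?_⟩
    obtain ⟨h6, _, α, ν, h7, h8, h9, h10⟩ := h5 μ hμ
    exact ⟨h6, α, ν, ⟨h7.2.1, h7.1.le, h8⟩, h9, h10⟩

end UncSing

end Pool.Agent.H639
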