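import Pool.Agent.H639.Rec

/-!
Separation and families in HOD with several parameters.
-/

set_option autoImplicit false
set_option linter.unusedVariables false

namespace Pool.Agent.H639

open ZFSet Gss969 Pool.Agent.H310.HD

universe u

theorem ord10 (a b c d e f : Ordinal.{u}) (w x y z : ZFSet.{u}) :
    ∀ k, (as w x y z a.toZFSet b.toZFSet c.toZFSet d.toZFSet e.toZFSet f.toZFSet
      (k + 4)).IsOrdinal := by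
  intro k
  rcases k with _ | _ | _ | _ | _ | k <;> exact isOrdinal_toZFSet _

/-- Separation in HOD. -/
theorem HOD_sep4 {Ψ : (ℕ → ZFSet.{u}) → Prop} (hΨ : Dfn Lvl.{u} Ψ) {A p q r : ZFSet.{u}}
    (hA : HOD A) (hp : HOD p) (hq : HOD q) (hr : HOD r) (a b c d e : Ordinal.{u}) :
    HOD (ZFSet.sep (fun ξ => Ψ (as ξ A p q r a.toZFSet b.toZFSet c.toZFSet d.toZFSet e.toZFSet))
      A) := by
  refine HOD_of4 (R := fun y x => (∀ z ∈ y, z ∈ x 0 ∧ Ψ (as z (x 0) (x 1) (x 2) (x 3) (x 4) (x 5)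
      (x 6) (x 7) (x 8))) ∧ ∀ z ∈ x 0, Ψ (as z (x 0) (x 1) (x 2) (x 3) (x 4) (x 5)
      (x 6) (x 7) (x 8)) → z ∈ y)
    (x := as A p q r a.toZFSet b.toZFSet c.toZFSet d.toZFSet e.toZFSet e.toZFSet) ?_ hA hp hq hr
    (ord10 _ _ _ _ _ _ _ _ _ _) (fun y => ?_) fun z hz => hA.mem (mem_sep.1 hz).1
  · refine Dfn.and ?_ ?_
    · exact Dfn.ball Lvl_sub_Trs _ ((Dfn.mem _ _).and (dfn_as hΨ 0 2 3 4 5 6 7 8 9 10))
    · exact Dfn.ball Lvl_sub_Trs _ ((dfn_as hΨ 0 2 3 4 5 6 7 8 9 10).imp (Dfn.mem _ _))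
  · show (∀ z ∈ y, z ∈ A ∧ Ψ (as z A p q r a.toZFSet b.toZFSet c.toZFSet d.toZFSet e.toZFSet)) ∧
      (∀ z ∈ A, Ψ (as z A p q r a.toZFSet b.toZFSet c.toZFSet d.toZFSet e.toZFSet) → z ∈ y) ↔ _
    constructor
    · rintro ⟨h1, h2⟩
      ext z
      rw [mem_sep]
      exact ⟨h1 z, fun h => h2 z h.1 h.2⟩
    · rintro rfl
      exact ⟨fun z hz => mem_sep.1 hz, fun z h1 h2 => mem_sep.2 ⟨h1, h2⟩⟩

/-- Families in HOD. -/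
theorem HOD_fam4 {Ψ : (ℕ → ZFSet.{u}) → Prop} (hΨ : Dfn Lvl.{u} Ψ) {A p q r : ZFSet.{u}}
    (hA : HOD A) (hp : HOD p) (hq : HOD q) (hr : HOD r) (a b c k : Ordinal.{u}) :
    HOD (gr k.toZFSet fun i =>
      ZFSet.sep (fun ξ => Ψ (as ξ i A p q r a.toZFSet b.toZFSet c.toZFSet k.toZFSet)) A) := by
  refine HOD_of4 (R := fun y x => (∀ t ∈ y, ∃ i ∈ x 7, ∃ Z, Z ⊆ x 0 ∧ ((∀ z ∈ x 0, (z ∈ Z ↔
        Ψ (as z i (x 0) (x 1) (x 2) (x 3) (x 4) (x 5) (x 6) (x 7)))) ∧ t = pair i Z)) ∧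
      ∀ i ∈ x 7, ∃ Z, Z ⊆ x 0 ∧ ((∀ z ∈ x 0, (z ∈ Z ↔
        Ψ (as z i (x 0) (x 1) (x 2) (x 3) (x 4) (x 5) (x 6) (x 7)))) ∧ pair i Z ∈ y))
    (x := as A p q r a.toZFSet b.toZFSet c.toZFSet k.toZFSet k.toZFSet k.toZFSet) ?_ hA hp hq hr
    (ord10 _ _ _ _ _ _ _ _ _ _) (fun y => ?_) fun z hz => ?_
  · refine Dfn.and ?_ ?_
    · refine Dfn.ball Lvl_sub_Trs _ (Dfn.bex Lvl_sub_Trs _ (Dfn.exsub subset_rfl _ (Dfn.and ?_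
        (dfn_pair Lvl_sub_Trs _ _ _))))
      exact Dfn.ball Lvl_sub_Trs _ ((Dfn.mem _ _).iff (dfn_as hΨ 0 2 5 6 7 8 9 10 11 12))
    · refine Dfn.ball Lvl_sub_Trs _ (Dfn.exsub subset_rfl _ (Dfn.and ?_
        (dfn_pm Lvl_sub_Trs _ _ _)))
      exact Dfn.ball Lvl_sub_Trs _ ((Dfn.mem _ _).iff (dfn_as hΨ 0 2 4 5 6 7 8 9 10 11))
  · show (∀ t ∈ y, ∃ i ∈ k.toZFSet, ∃ Z, Z ⊆ A ∧ ((∀ z ∈ A, (z ∈ Z ↔
        Ψ (as z i A p q r a.toZFSet b.toZFSet c.toZFSet k.toZFSet))) ∧ t = pair i Z)) ∧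
      (∀ i ∈ k.toZFSet, ∃ Z, Z ⊆ A ∧ ((∀ z ∈ A, (z ∈ Z ↔
        Ψ (as z i A p q r a.toZFSet b.toZFSet c.toZFSet k.toZFSet))) ∧ pair i Z ∈ y)) ↔ _
    have hZ : ∀ i Z : ZFSet.{u}, Z ⊆ A → (∀ z ∈ A, (z ∈ Z ↔
        Ψ (as z i A p q r a.toZFSet b.toZFSet c.toZFSet k.toZFSet))) →
        Z = ZFSet.sep (fun z => Ψ (as z i A p q r a.toZFSet b.toZFSet c.toZFSet k.toZFSet)) A := by
      intro i Z h1 h2
      ext z
      rw [mem_sep]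
      exact ⟨fun h => ⟨h1 h, (h2 z (h1 h)).1 h⟩, fun h => (h2 z h.1).2 h.2⟩
    constructor
    · rintro ⟨h1, h2⟩
      ext t
      rw [mem_gr]
      constructor
      · intro ht
        obtain ⟨i, hi, Z, h3, h4, rfl⟩ := h1 t ht
        exact ⟨i, hi, by rw [hZ i Z h3 h4]⟩
      · rintro ⟨i, hi, rfl⟩
        obtain ⟨Z, h3, h4, h5⟩ := h2 i hi
        rwa [hZ i Z h3 h4] at h5
    · rintro rfl
      have hs : ∀ i z : ZFSet.{u}, z ∈ A → (z ∈ ZFSet.sep (fun z => Ψ (as z i A p q r a.toZFSet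
          b.toZFSet c.toZFSet k.toZFSet)) A ↔
          Ψ (as z i A p q r a.toZFSet b.toZFSet c.toZFSet k.toZFSet)) := by
        intro i z hz
        rw [mem_sep]
        exact ⟨fun h => h.2, fun h => ⟨hz, h⟩⟩
      refine ⟨fun t ht => ?_, fun i hi => ⟨_, sep_subset, hs i, pair_mem_gr.2 ⟨hi, rfl⟩⟩⟩
      obtain ⟨i, hi, rfl⟩ := mem_gr.1 ht
      exact ⟨i, hi, _, sep_subset, hs i, rfl⟩
  · obtain ⟨i, hi, rfl⟩ := mem_gr.1 hz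
    obtain ⟨b', hb, rfl⟩ := Ordinal.mem_toZFSet_iff.1 hi
    exact HOD_pair (HOD_ord _)
      (HOD_sep4 (Ψ := fun v => Ψ (as (v 0) (v 5) (v 1) (v 2) (v 3) (v 4) (v 6) (v 7) (v 8) (v 9)))
        (dfn_as hΨ 0 5 1 2 3 4 6 7 8 9) hA hp hq hr b' a b c k)

end Pool.Agent.H639
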