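import Pool.Graph.R_pool_sql_team_seeded_2aa45f1a.H310.HD.Unif

/-!
Codes of formulas: a definable pairing function on `ω`, an enumeration of the formulas, and the
satisfaction relation with codes.
-/

set_option autoImplicit false
set_option linter.unusedVariables false

namespace Pool.Agent.H639

open ZFSet Gss969 Pool.Agent.H310.HD

universe u

/-! ### Numerals as constants -/

def IsNt : ℕ → ZFSet.{u} → Prop
  | 0, w => ∀ y ∈ w, ¬ y = y
  | (k + 1), w => ∃ y ∈ w, IsNt k y ∧ (∀ z ∈ w, z ∈ y ∨ z = y) ∧ ∀ z ∈ y, z ∈ w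

theorem isNt_iff (k : ℕ) : ∀ w : ZFSet.{u}, IsNt k w ↔ w = nt k := by
  induction k with
  | zero =>
    intro w
    constructor
    · intro h
      ext z
      rw [mem_nt]
      constructor
      · intro hz; exact absurd rfl (h z hz)
      · rintro ⟨m, hm, _⟩; omega
    · rintro rfl y hy
      obtain ⟨m, hm, _⟩ := mem_nt.1 hy
      omega
  | succ k ih =>
    intro w
    constructor
    · rintro ⟨y, hy, h1, h2, h3⟩
      rw [ih] at h1
      subst h1
      ext z
      rw [mem_nt]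
      constructor
      · intro hz
        rcases h2 z hz with h | h
        · obtain ⟨m, hm, rfl⟩ := mem_nt.1 h
          exact ⟨m, by omega, rfl⟩
        · exact ⟨k, by omega, h⟩
      · rintro ⟨m, hm, rfl⟩
        rcases Nat.lt_succ_iff_lt_or_eq.1 hm with h | rfl
        · exact h3 _ (nt_sub.2 h)
        · exact hy
    · rintro rfl
      refine ⟨nt k, nt_sub.2 (Nat.lt_succ_self k), (ih _).2 rfl, ?_, ?_⟩
      · intro z hz
        obtain ⟨m, hm, rfl⟩ := mem_nt.1 hz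
        rcases Nat.lt_succ_iff_lt_or_eq.1 hm with h | rfl
        · exact Or.inl (nt_sub.2 h)
        · exact Or.inr rfl
      · intro z hz
        obtain ⟨m, hm, rfl⟩ := mem_nt.1 hz
        exact nt_sub.2 (by omega)

theorem dfn_isNt (k : ℕ) : ∀ i : ℕ, Dfn Lvl.{u} (fun v => IsNt k (v i)) := by
  induction k with
  | zero =>
    intro i
    unfold IsNt
    repeat' first
      | exact Dfn.eq _ _ | refine Dfn.ball Lvl_sub_Trs _ ?_ | refine Dfn.not ?_
  | succ k ih =>
    intro i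
    unfold IsNt
    repeat' first
      | exact ih _ | exact Dfn.eq _ _ | exact Dfn.mem _ _ | refine Dfn.ball Lvl_sub_Trs _ ?_
      | refine Dfn.bex Lvl_sub_Trs _ ?_ | refine Dfn.and ?_ ?_ | refine Dfn.or ?_ ?_

theorem Dfn_nt (k : ℕ) {A : ZFSet.{u} → (ℕ → ZFSet.{u}) → Prop}
    (h : Dfn Lvl (fun w => A (w 0) (fun n => w (n + 1)))) : Dfn Lvl (fun v => A (nt k) v) := by
  refine Dfn.congr (A := fun v => ∃ w, IsNt k w ∧ A w v)
    (Dfn.ex (A := fun w v => IsNt k w ∧ A w v) ((dfn_isNt k 0).and h) ?_) ?_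
  · rintro U hU v hv ⟨a, ha, h1⟩
    exact ⟨a, by
      rw [(isNt_iff k a).1 ha]
      exact (Lvl_sub_Trs hU).mem_trans (nt_mem k) (om_mem_Lvl hU), ha, h1⟩
  · intro v
    constructor
    · rintro ⟨w, hw, h1⟩
      rwa [(isNt_iff k w).1 hw] at h1
    · intro h1
      exact ⟨nt k, (isNt_iff k _).2 rfl, h1⟩

theorem dfn_ppm (i j k l : ℕ) :
    Dfn Lvl.{u} (fun v => pair (pair (v i) (v j)) (v k) ∈ v l) := by
  refine Dfn.congr (A := fun v => ∃ q, q = pair (v i) (v j) ∧ pair q (v k) ∈ v l)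
    (Dfn.ex ((dfn_pair Lvl_sub_Trs _ _ _).and (dfn_pm Lvl_sub_Trs _ _ _)) ?_) ?_
  · rintro U hU v hv ⟨q, rfl, h⟩
    exact ⟨_, Lvl_pair hU (hv i) (hv j), rfl, h⟩
  · intro v
    constructor
    · rintro ⟨q, rfl, h⟩; exact h
    · intro h; exact ⟨_, rfl, h⟩

/-! ### The pairing function -/

def M1 (a' b' a b : ZFSet.{u}) : Prop := (a' ∈ a ∨ a' ∈ b) ∧ (b' ∈ a ∨ b' ∈ b)

def Gl (a' b' a b : ZFSet.{u}) : Prop :=
  M1 a' b' a b ∨ (¬ M1 a b a' b' ∧ (a' ∈ a ∨ (a' = a ∧ b' ∈ b)))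

theorem gl_iff (a' b' a b : ℕ) :
    Gl (nt.{u} a') (nt b') (nt a) (nt b) ↔ Nat.pair a' b' < Nat.pair a b := by
  unfold Gl M1
  simp only [nt_sub, nt_inj]
  unfold Nat.pair
  split_ifs with h1 h2 h2
  · constructor
    · rintro (⟨_, h⟩ | ⟨h, h'⟩)
      · have : b' + 1 ≤ b := by omega
        nlinarith
      · have e : b' ≤ b := by omega
        rcases e.lt_or_eq with e | e
        · nlinarith
        · subst e; omega
    · intro h
      by_contra hc
      have : b ≤ b' := by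
        by_contra hb
        exact hc (Or.inl ⟨by omega, by omega⟩)
      rcases this.lt_or_eq with h3 | h3
      · nlinarith
      · subst h3
        exact hc (Or.inr ⟨by omega, by omega⟩)
  · constructor
    · rintro (⟨_, h⟩ | ⟨h, h'⟩)
      · have : b' + 1 ≤ a := by omega
        nlinarith
      · have e : b' ≤ a := by omega
        rcases e.lt_or_eq with e | e
        · nlinarith
        · subst e; omega
    · intro h
      by_contra hc
      have : a ≤ b' := by
        by_contra hb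
        exact hc (Or.inl ⟨by omega, by omega⟩)
      rcases this.lt_or_eq with h3 | h3
      · nlinarith
      · subst h3
        exact hc (Or.inr ⟨by omega, by omega⟩)
  · constructor
    · rintro (⟨h, _⟩ | ⟨h, h'⟩)
      · have : a' + 1 ≤ b := by omega
        nlinarith
      · have e : a' < b := by omega
        nlinarith
    · intro h
      by_contra hc
      have : b ≤ a' := by
        by_contra hb
        exact hc (Or.inl ⟨by omega, by omega⟩)
      nlinarith
  · constructor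
    · rintro (⟨h, h'⟩ | ⟨h, h'⟩)
      · have : a' + 1 ≤ a := by omega
        nlinarith
      · rcases h' with h' | ⟨rfl, h'⟩
        · nlinarith
        · omega
    · intro h
      by_contra hc
      have : a ≤ a' := by
        by_contra hb
        exact hc (Or.inl ⟨by omega, by omega⟩)
      rcases this.lt_or_eq with h3 | h3
      · nlinarith
      · subst h3
        exact hc (Or.inr ⟨by omega, by omega⟩)

theorem dfn_Gl (a b c d : ℕ) : Dfn Lvl.{u} (fun v => Gl (v a) (v b) (v c) (v d)) := by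
  unfold Gl M1
  repeat' first
    | exact Dfn.eq _ _ | exact Dfn.mem _ _ | refine Dfn.and ?_ ?_ | refine Dfn.or ?_ ?_
    | refine Dfn.not ?_

/-- The pairing function on `ω`. -/
noncomputable def PP : ZFSet.{u} :=
  ZFSet.sep (fun p => ∃ a b : ℕ, p = pair (pair (nt a) (nt b)) (nt (Nat.pair a b)))
    (prod (prod om om) om)

theorem mem_PP {p : ZFSet.{u}} :
    p ∈ PP ↔ ∃ a b : ℕ, p = pair (pair (nt a) (nt b)) (nt (Nat.pair a b)) := by
  unfold PP
  rw [mem_sep]
  constructor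
  · exact fun h => h.2
  · rintro ⟨a, b, rfl⟩
    exact ⟨pair_mem_prod.2 ⟨pair_mem_prod.2 ⟨nt_mem a, nt_mem b⟩, nt_mem _⟩, a, b, rfl⟩

theorem pair_mem_PP {a b c : ℕ} :
    pair (pair (nt.{u} a) (nt b)) (nt c) ∈ PP ↔ c = Nat.pair a b := by
  rw [mem_PP]
  constructor
  · rintro ⟨a', b', h⟩
    rw [pair_inj, pair_inj, nt_inj, nt_inj, nt_inj] at h
    obtain ⟨⟨rfl, rfl⟩, rfl⟩ := h
    rfl
  · rintro rfl
    exact ⟨a, b, rfl⟩

def IsPP (W P : ZFSet.{u}) : Prop :=
  (∀ p ∈ P, ∃ a ∈ W, ∃ b ∈ W, ∃ c ∈ W, ∃ q, q = pair a b ∧ p = pair q c) ∧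
  (∀ a ∈ W, ∀ b ∈ W, ∃ c ∈ W, pair (pair a b) c ∈ P) ∧
  ∀ a ∈ W, ∀ b ∈ W, ∀ c ∈ W, pair (pair a b) c ∈ P →
    ∀ d ∈ W, (d ∈ c ↔ ∃ a' ∈ W, ∃ b' ∈ W, Gl a' b' a b ∧ pair (pair a' b') d ∈ P)

theorem isPP_iff {P : ZFSet.{u}} : IsPP om P ↔ P = PP := by
  constructor
  · rintro ⟨h1, h2, h3⟩
    have key : ∀ n : ℕ, ∀ a b c : ℕ, Nat.pair a b = n →
        (pair (pair (nt a) (nt b)) (nt c) ∈ P ↔ c = n) := by
      intro n
      induction n using Nat.strong_induction_on with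
      | _ n ih =>
        have one : ∀ a b c : ℕ, Nat.pair a b = n →
            pair (pair (nt a) (nt b)) (nt c) ∈ P → c = n := by
          intro a b c hab hm
          have h4 := h3 _ (nt_mem a) _ (nt_mem b) _ (nt_mem c) hm
          have h5 : ∀ d : ℕ, d < c ↔ d < n := by
            intro d
            rw [← nt_sub.{u}, h4 _ (nt_mem d)]
            constructor
            · rintro ⟨a', ha', b', hb', h6, h7⟩
              obtain ⟨a', rfl⟩ := mem_om.1 ha'
              obtain ⟨b', rfl⟩ := mem_om.1 hb'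
              rw [gl_iff, hab] at h6
              rw [ih _ h6 a' b' d rfl] at h7
              rw [h7]; exact h6
            · intro hd
              refine ⟨nt d.unpair.1, nt_mem _, nt d.unpair.2, nt_mem _, ?_, ?_⟩
              · rw [gl_iff, hab, Nat.pair_unpair]; exact hd
              · rw [ih d hd _ _ d (Nat.pair_unpair d)]
          by_contra hne
          rcases Nat.lt_or_gt_of_ne hne with h | h
          · exact lt_irrefl _ ((h5 c).2 h)
          · exact lt_irrefl _ ((h5 n).1 h)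
        intro a b c hab
        refine ⟨one a b c hab, ?_⟩
        rintro rfl
        obtain ⟨c', hc', h4⟩ := h2 _ (nt_mem a) _ (nt_mem b)
        obtain ⟨c', rfl⟩ := mem_om.1 hc'
        rwa [← one a b c' hab h4]
    ext p
    rw [mem_PP]
    constructor
    · intro hp
      obtain ⟨a, ha, b, hb, c, hc, q, rfl, rfl⟩ := h1 p hp
      obtain ⟨a, rfl⟩ := mem_om.1 ha
      obtain ⟨b, rfl⟩ := mem_om.1 hb
      obtain ⟨c, rfl⟩ := mem_om.1 hc
      rw [key _ a b c rfl] at hp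
      subst hp
      exact ⟨a, b, rfl⟩
    · rintro ⟨a, b, rfl⟩
      rw [key _ a b _ rfl]
  · rintro rfl
    refine ⟨?_, ?_, ?_⟩
    · intro p hp
      obtain ⟨a, b, rfl⟩ := mem_PP.1 hp
      exact ⟨_, nt_mem a, _, nt_mem b, _, nt_mem _, _, rfl, rfl⟩
    · intro a ha b hb
      obtain ⟨a, rfl⟩ := mem_om.1 ha
      obtain ⟨b, rfl⟩ := mem_om.1 hb
      exact ⟨_, nt_mem _, mem_PP.2 ⟨a, b, rfl⟩⟩
    · intro a ha b hb c hc hm d hd
      obtain ⟨a, rfl⟩ := mem_om.1 ha
      obtain ⟨b, rfl⟩ := mem_om.1 hb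
      obtain ⟨c, rfl⟩ := mem_om.1 hc
      obtain ⟨d, rfl⟩ := mem_om.1 hd
      rw [pair_mem_PP] at hm
      subst hm
      rw [nt_sub]
      constructor
      · intro h
        refine ⟨_, nt_mem d.unpair.1, _, nt_mem d.unpair.2, ?_, ?_⟩
        · rw [gl_iff, Nat.pair_unpair]; exact h
        · rw [pair_mem_PP, Nat.pair_unpair]
      · rintro ⟨a', ha', b', hb', h6, h7⟩
        obtain ⟨a', rfl⟩ := mem_om.1 ha'
        obtain ⟨b', rfl⟩ := mem_om.1 hb'
        rw [pair_mem_PP] at h7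
        rw [gl_iff] at h6
        rw [h7]; exact h6

theorem dfn_IsPP (a b : ℕ) : Dfn Lvl.{u} (fun v => IsPP (v a) (v b)) := by
  unfold IsPP
  refine Dfn.and ?_ (Dfn.and ?_ ?_)
  · refine Dfn.ball Lvl_sub_Trs _ (Dfn.bex Lvl_sub_Trs _ (Dfn.bex Lvl_sub_Trs _
      (Dfn.bex Lvl_sub_Trs _ (Dfn.ex ((dfn_pair Lvl_sub_Trs _ _ _).and
        (dfn_pair Lvl_sub_Trs _ _ _)) ?_))))
    rintro U hU v hv ⟨q, rfl, h⟩
    exact ⟨_, Lvl_pair hU (hv _) (hv _), rfl, h⟩
  · repeat' first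
      | exact dfn_ppm _ _ _ _ | refine Dfn.ball Lvl_sub_Trs _ ?_ | refine Dfn.bex Lvl_sub_Trs _ ?_
  · repeat' first
      | exact dfn_ppm _ _ _ _ | exact dfn_Gl _ _ _ _ | exact Dfn.mem _ _
      | refine Dfn.ball Lvl_sub_Trs _ ?_ | refine Dfn.bex Lvl_sub_Trs _ ?_
      | refine Dfn.imp ?_ ?_ | refine Dfn.iff ?_ ?_ | refine Dfn.and ?_ ?_

theorem PP_mem_Lvl {U : ZFSet.{u}} (hU : U ∈ Lvl) : PP ∈ U :=
  Lvl_sub hU (Lvl_prod hU (Lvl_prod hU (om_mem_Lvl hU) (om_mem_Lvl hU)) (om_mem_Lvl hU))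
    sep_subset

theorem Dfn_PP {A : ZFSet.{u} → (ℕ → ZFSet.{u}) → Prop}
    (h : Dfn Lvl (fun w => A (w 0) (fun n => w (n + 1)))) : Dfn Lvl (fun v => A PP v) := by
  refine Dfn.congr (A := fun v => ∃ w, IsPP om w ∧ A w v)
    (Dfn.ex (A := fun w v => IsPP om w ∧ A w v)
      ((Dfn_om (A := fun W v => IsPP W (v 0)) (dfn_IsPP 0 1)).and h) ?_) ?_
  · rintro U hU v hv ⟨a, ha, h1⟩
    exact ⟨a, by rw [isPP_iff.1 ha]; exact PP_mem_Lvl hU, ha, h1⟩
  · intro v
    constructor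
    · rintro ⟨w, hw, h1⟩
      rwa [isPP_iff.1 hw] at h1
    · intro h1
      exact ⟨PP, isPP_iff.2 rfl, h1⟩

/-! ### Enumeration of the formulas -/

theorem unpair_lt {n : ℕ} (h : n.unpair.1 ≠ 0) : n.unpair.2 < n := by
  conv_rhs => rw [← Nat.pair_unpair n]
  exact lt_of_le_of_lt (Nat.right_le_pair 0 _) (Nat.pair_lt_pair_left _ (Nat.pos_of_ne_zero h))

theorem unpair_lt1 {n : ℕ} (h : n.unpair.1 ≠ 0) : n.unpair.2.unpair.1 < n :=
  lt_of_le_of_lt (Nat.unpair_left_le _) (unpair_lt h)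

theorem unpair_lt2 {n : ℕ} (h : n.unpair.1 ≠ 0) : n.unpair.2.unpair.2 < n :=
  lt_of_le_of_lt (Nat.unpair_right_le _) (unpair_lt h)

/-- The formula with the number `n`. -/
def dec (n : ℕ) : Fml :=
  if h0 : n.unpair.1 = 0 then .mem n.unpair.2.unpair.1 n.unpair.2.unpair.2
  else if h1 : n.unpair.1 = 1 then .eq n.unpair.2.unpair.1 n.unpair.2.unpair.2
  else if h2 : n.unpair.1 = 2 then .neg (dec n.unpair.2.unpair.1)
  else if h3 : n.unpair.1 = 3 then
    .and (dec n.unpair.2.unpair.1) (dec n.unpair.2.unpair.2)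
  else .ex n.unpair.2.unpair.1 (dec n.unpair.2.unpair.2)
termination_by n
decreasing_by
  all_goals first
    | exact unpair_lt1 h0
    | exact unpair_lt2 h0

theorem dec_pair (k a b : ℕ) : dec (Nat.pair k (Nat.pair a b)) =
    if k = 0 then .mem a b else if k = 1 then .eq a b else if k = 2 then .neg (dec a)
    else if k = 3 then .and (dec a) (dec b) else .ex a (dec b) := by
  rw [dec]
  simp only [Nat.unpair_pair]
  split_ifs <;> rfl

theorem dec_surj (φ : Fml) : ∃ n, dec n = φ := by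
  induction φ with
  | mem i j => exact ⟨Nat.pair 0 (Nat.pair i j), by rw [dec_pair]; simp⟩
  | eq i j => exact ⟨Nat.pair 1 (Nat.pair i j), by rw [dec_pair]; simp⟩
  | neg φ ih =>
    obtain ⟨n, rfl⟩ := ih
    exact ⟨Nat.pair 2 (Nat.pair n n), by rw [dec_pair]; simp⟩
  | and φ ψ ih ih' =>
    obtain ⟨n, rfl⟩ := ih
    obtain ⟨m, rfl⟩ := ih'
    exact ⟨Nat.pair 3 (Nat.pair n m), by rw [dec_pair]; simp⟩
  | ex i φ ih =>
    obtain ⟨n, rfl⟩ := ih
    exact ⟨Nat.pair 4 (Nat.pair i n), by rw [dec_pair]; simp⟩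

end Pool.Agent.H639
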