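import Pool.Agent.H639.Wo1

/-!
Satisfaction with codes, and codes of ordinal definable sets.
-/

set_option autoImplicit false
set_option linter.unusedVariables false

namespace Pool.Agent.H639

open ZFSet Gss969 Pool.Agent.H310.HD

universe u

def Trip (W P k a b c : ZFSet.{u}) : Prop :=
  ∃ d ∈ W, pair (pair a b) d ∈ P ∧ pair (pair k d) c ∈ P

theorem dfn_Trip (a b c d e f : ℕ) :
    Dfn Lvl.{u} (fun v => Trip (v a) (v b) (v c) (v d) (v e) (v f)) := by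
  unfold Trip
  repeat' first
    | exact dfn_ppm _ _ _ _ | refine Dfn.bex Lvl_sub_Trs _ ?_ | refine Dfn.and ?_ ?_

theorem trip_iff {k a b c : ℕ} :
    Trip om.{u} PP (nt k) (nt a) (nt b) (nt c) ↔ c = Nat.pair k (Nat.pair a b) := by
  unfold Trip
  constructor
  · rintro ⟨d, hd, h1, h2⟩
    obtain ⟨d, rfl⟩ := mem_om.1 hd
    rw [pair_mem_PP] at h1 h2
    rw [h2, h1]
  · rintro rfl
    exact ⟨_, nt_mem _, pair_mem_PP.2 rfl, pair_mem_PP.2 rfl⟩

/-- `S` is the satisfaction relation of `(U, ∈)`. -/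
def SatR (W P k0 k1 k2 k3 S U : ZFSet.{u}) : Prop :=
  (∀ a ∈ W, ∀ b ∈ W, ∀ c ∈ W, Trip W P k0 a b c → AMem W S U c a b) ∧
  (∀ a ∈ W, ∀ b ∈ W, ∀ c ∈ W, Trip W P k1 a b c → AEq W S U c a b) ∧
  (∀ a ∈ W, ∀ b ∈ W, ∀ c ∈ W, Trip W P k2 a b c → ANeg W S U a c) ∧
  (∀ a ∈ W, ∀ b ∈ W, ∀ c ∈ W, Trip W P k3 a b c → AAnd W S U c a b) ∧
  (∀ k ∈ W, ¬ k = k0 → ¬ k = k1 → ¬ k = k2 → ¬ k = k3 →
    ∀ a ∈ W, ∀ b ∈ W, ∀ c ∈ W, Trip W P k a b c → AEx W S U a b c)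

theorem dfn_SatR (a b c d e f g h : ℕ) :
    Dfn Lvl.{u} (fun v => SatR (v a) (v b) (v c) (v d) (v e) (v f) (v g) (v h)) := by
  unfold SatR
  repeat' first
    | exact dfn_Trip _ _ _ _ _ _ | exact dfn_AMem _ _ _ _ _ _ | exact dfn_AEq _ _ _ _ _ _
    | exact dfn_ANeg _ _ _ _ _ | exact dfn_AAnd _ _ _ _ _ _ | exact dfn_AEx _ _ _ _ _ _
    | exact Dfn.eq _ _ | refine Dfn.and ?_ ?_ | refine Dfn.not ?_ | refine Dfn.imp ?_ ?_
    | refine Dfn.ball Lvl_sub_Trs _ ?_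

theorem SatR.congr {W P k0 k1 k2 k3 S S' U : ZFSet.{u}} (h : SatR W P k0 k1 k2 k3 S U)
    (e : ∀ c ∈ W, ∀ s, IsFunc W U s → (pair c s ∈ S ↔ pair c s ∈ S')) :
    SatR W P k0 k1 k2 k3 S' U := by
  obtain ⟨h1, h2, h3, h4, h5⟩ := h
  refine ⟨?_, ?_, ?_, ?_, ?_⟩
  · intro a ha b hb c hc ht s hs
    rw [← e c hc s hs]; exact h1 a ha b hb c hc ht s hs
  · intro a ha b hb c hc ht s hs
    rw [← e c hc s hs]; exact h2 a ha b hb c hc ht s hs
  · intro a ha b hb c hc ht s hs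
    rw [← e c hc s hs, ← e a ha s hs]; exact h3 a ha b hb c hc ht s hs
  · intro a ha b hb c hc ht s hs
    rw [← e c hc s hs, ← e a ha s hs, ← e b hb s hs]; exact h4 a ha b hb c hc ht s hs
  · intro k hk n0 n1 n2 n3 a ha b hb c hc ht s hs
    rw [← e c hc s hs, h5 k hk n0 n1 n2 n3 a ha b hb c hc ht s hs]
    refine exists_congr fun s' => and_congr_right fun hs' => ?_
    rw [← e b hb s' hs']

/-- The satisfaction relation with constants. -/
def SatC (S U : ZFSet.{u}) : Prop := SatR om PP (nt 0) (nt 1) (nt 2) (nt 3) S U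

theorem satC_iff {S U : ZFSet.{u}} (h : SatC S U) : ∀ n : ℕ, ∀ s, IsFunc om U s →
    (pair (nt n) s ∈ S ↔ Sat U (fun m => app s (nt m)) (dec n)) := by
  obtain ⟨h1, h2, h3, h4, h5⟩ := h
  intro n
  induction n using Nat.strong_induction_on with
  | _ n ih =>
    intro s hs
    obtain ⟨k, a, b, rfl⟩ : ∃ k a b, n = Nat.pair k (Nat.pair a b) :=
      ⟨n.unpair.1, n.unpair.2.unpair.1, n.unpair.2.unpair.2, by
        rw [Nat.pair_unpair, Nat.pair_unpair]⟩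
    rw [dec_pair]
    have la : k ≠ 0 → a < Nat.pair k (Nat.pair a b) := by
      intro hk
      have := unpair_lt1 (n := Nat.pair k (Nat.pair a b)) (by simpa using hk)
      simpa using this
    have lb : k ≠ 0 → b < Nat.pair k (Nat.pair a b) := by
      intro hk
      have := unpair_lt2 (n := Nat.pair k (Nat.pair a b)) (by simpa using hk)
      simpa using this
    by_cases e0 : k = 0
    · rw [if_pos e0]
      subst e0
      rw [h1 _ (nt_mem a) _ (nt_mem b) _ (nt_mem _) (trip_iff.2 rfl) s hs]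
      simp only [Sat]
      constructor
      · rintro ⟨x, _, y, _, h6, h7, h8⟩
        rw [(app_iff hs (nt_mem a)).1 h6, (app_iff hs (nt_mem b)).1 h7]; exact h8
      · intro h
        exact ⟨_, app_mem hs (nt_mem a), _, app_mem hs (nt_mem b), app_spec hs (nt_mem a),
          app_spec hs (nt_mem b), h⟩
    rw [if_neg e0]
    by_cases e1 : k = 1
    · rw [if_pos e1]
      subst e1
      rw [h2 _ (nt_mem a) _ (nt_mem b) _ (nt_mem _) (trip_iff.2 rfl) s hs]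
      simp only [Sat]
      constructor
      · rintro ⟨x, _, h6, h7⟩
        rw [(app_iff hs (nt_mem a)).1 h6, (app_iff hs (nt_mem b)).1 h7]
      · intro h
        exact ⟨_, app_mem hs (nt_mem a), app_spec hs (nt_mem a), h ▸ app_spec hs (nt_mem b)⟩
    rw [if_neg e1]
    by_cases e2 : k = 2
    · rw [if_pos e2]
      subst e2
      rw [h3 _ (nt_mem a) _ (nt_mem b) _ (nt_mem _) (trip_iff.2 rfl) s hs, ih _ (la e0) s hs]
      exact Iff.rfl
    rw [if_neg e2]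
    by_cases e3 : k = 3
    · rw [if_pos e3]
      subst e3
      rw [h4 _ (nt_mem a) _ (nt_mem b) _ (nt_mem _) (trip_iff.2 rfl) s hs, ih _ (la e0) s hs,
        ih _ (lb e0) s hs]
      exact Iff.rfl
    rw [if_neg e3, h5 _ (nt_mem k) (fun h => e0 (nt_inj.1 h)) (fun h => e1 (nt_inj.1 h))
      (fun h => e2 (nt_inj.1 h)) (fun h => e3 (nt_inj.1 h)) _ (nt_mem a) _ (nt_mem b) _
      (nt_mem _) (trip_iff.2 rfl) s hs]
    simp only [Sat]
    constructor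
    · rintro ⟨s', hs', h6, h7⟩
      rw [ih _ (lb e0) s' hs', upd_of hs hs' a h7] at h6
      exact ⟨_, app_mem hs' (nt_mem a), h6⟩
    · rintro ⟨x, hx, h6⟩
      obtain ⟨s', hs', h7, h8⟩ := exists_upd hs a hx
      refine ⟨s', hs', ?_, h8⟩
      rw [ih _ (lb e0) s' hs', upd_of hs hs' a h8, h7]
      exact h6

theorem exists_satC (U : ZFSet.{u}) : ∃ S, SatC S U := by
  let S : ZFSet.{u} := ZFSet.sep (fun p => ∃ (n : ℕ) (s : ZFSet.{u}), p = pair (nt n) s ∧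
    Sat U (fun m => app s (nt m)) (dec n)) (prod om (funs om U))
  have hS : ∀ n : ℕ, ∀ s, IsFunc om U s →
      (pair (nt n) s ∈ S ↔ Sat U (fun m => app s (nt m)) (dec n)) := by
    intro n s hs
    show pair (nt n) s ∈ ZFSet.sep _ _ ↔ _
    rw [mem_sep]
    constructor
    · rintro ⟨_, n', s', e, h⟩
      rw [pair_inj, nt_inj] at e
      obtain ⟨rfl, rfl⟩ := e
      exact h
    · intro h
      exact ⟨pair_mem_prod.2 ⟨nt_mem n, mem_funs.2 hs⟩, n, s, rfl, h⟩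
  refine ⟨S, ?_, ?_, ?_, ?_, ?_⟩
  · intro a ha b hb c hc ht s hs
    obtain ⟨a, rfl⟩ := mem_om.1 ha
    obtain ⟨b, rfl⟩ := mem_om.1 hb
    obtain ⟨c, rfl⟩ := mem_om.1 hc
    rw [trip_iff] at ht
    subst ht
    rw [hS _ s hs, dec_pair, if_pos rfl]
    simp only [Sat]
    constructor
    · intro h
      exact ⟨_, app_mem hs (nt_mem a), _, app_mem hs (nt_mem b), app_spec hs (nt_mem a),
        app_spec hs (nt_mem b), h⟩
    · rintro ⟨x, _, y, _, h6, h7, h8⟩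
      rw [(app_iff hs (nt_mem a)).1 h6, (app_iff hs (nt_mem b)).1 h7]; exact h8
  · intro a ha b hb c hc ht s hs
    obtain ⟨a, rfl⟩ := mem_om.1 ha
    obtain ⟨b, rfl⟩ := mem_om.1 hb
    obtain ⟨c, rfl⟩ := mem_om.1 hc
    rw [trip_iff] at ht
    subst ht
    rw [hS _ s hs, dec_pair, if_neg (by decide), if_pos rfl]
    simp only [Sat]
    constructor
    · intro h
      exact ⟨_, app_mem hs (nt_mem a), app_spec hs (nt_mem a), h ▸ app_spec hs (nt_mem b)⟩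
    · rintro ⟨x, _, h6, h7⟩
      rw [(app_iff hs (nt_mem a)).1 h6, (app_iff hs (nt_mem b)).1 h7]
  · intro a ha b hb c hc ht s hs
    obtain ⟨a, rfl⟩ := mem_om.1 ha
    obtain ⟨b, rfl⟩ := mem_om.1 hb
    obtain ⟨c, rfl⟩ := mem_om.1 hc
    rw [trip_iff] at ht
    subst ht
    rw [hS _ s hs, hS _ s hs, dec_pair, if_neg (by decide), if_neg (by decide), if_pos rfl]
    exact Iff.rfl
  · intro a ha b hb c hc ht s hs
    obtain ⟨a, rfl⟩ := mem_om.1 ha
    obtain ⟨b, rfl⟩ := mem_om.1 hb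
    obtain ⟨c, rfl⟩ := mem_om.1 hc
    rw [trip_iff] at ht
    subst ht
    rw [hS _ s hs, hS _ s hs, hS _ s hs, dec_pair, if_neg (by decide), if_neg (by decide),
      if_neg (by decide), if_pos rfl]
    exact Iff.rfl
  · intro k hk n0 n1 n2 n3 a ha b hb c hc ht s hs
    obtain ⟨k, rfl⟩ := mem_om.1 hk
    obtain ⟨a, rfl⟩ := mem_om.1 ha
    obtain ⟨b, rfl⟩ := mem_om.1 hb
    obtain ⟨c, rfl⟩ := mem_om.1 hc
    rw [nt_inj] at n0 n1 n2 n3
    rw [trip_iff] at ht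
    subst ht
    rw [hS _ s hs, dec_pair, if_neg n0, if_neg n1, if_neg n2, if_neg n3]
    simp only [Sat]
    constructor
    · rintro ⟨x, hx, h6⟩
      obtain ⟨s', hs', h7, h8⟩ := exists_upd hs a hx
      refine ⟨s', hs', ?_, h8⟩
      rw [hS _ s' hs', upd_of hs hs' a h8, h7]
      exact h6
    · rintro ⟨s', hs', h6, h7⟩
      rw [hS _ s' hs', upd_of hs hs' a h7] at h6
      exact ⟨_, app_mem hs' (nt_mem a), h6⟩

/-! ### Definitions by codes -/

/-- `x` is defined over `U` by the formula with the number `c` and the parameters `s`. -/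
def CodR (W P k0 k1 k2 k3 U c s x : ZFSet.{u}) : Prop :=
  ∃ S, c ∈ W ∧ (SatR W P k0 k1 k2 k3 S U ∧ (IsFunc W U s ∧ (x ∈ U ∧
    ∀ y ∈ U, ∀ s', IsFunc W U s' → pair k0 y ∈ s' →
      (∀ l ∈ W, ¬ l = k0 → ∀ a ∈ U, pair l a ∈ s → pair l a ∈ s') → (pair c s' ∈ S ↔ y = x))))

theorem dfn_CodR (w p a b c d e f g h : ℕ) :
    Dfn Lvl.{u} (fun v => CodR (v w) (v p) (v a) (v b) (v c) (v d) (v e) (v f) (v g) (v h)) := by
  unfold CodR
  refine Dfn.ex ?_ ?_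
  · refine (Dfn.mem _ _).and ((dfn_SatR _ _ _ _ _ _ _ _).and
      ((dfn_isFunc Lvl_sub_Trs _ _ _).and ((Dfn.mem _ _).and ?_)))
    repeat' first
      | exact Dfn.mem _ _ | exact Dfn.eq _ _ | exact dfn_pm Lvl_sub_Trs _ _ _
      | refine Dfn.not ?_ | refine Dfn.iff ?_ ?_ | refine Dfn.allfun _ _ ?_
      | refine Dfn.ball Lvl_sub_Trs _ ?_ | refine Dfn.imp ?_ ?_
  · rintro U hU v hv ⟨S, hc, h1, h2, h3, h4⟩
    have ee : ∀ c ∈ v w, ∀ s, IsFunc (v w) (v e) s →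
        (pair c s ∈ S ↔ pair c s ∈ ZFSet.sep (fun p => p ∈ S) (prod (v w) (funs (v w) (v e)))) := by
      intro c hc s hs
      rw [mem_sep]
      exact ⟨fun h => ⟨pair_mem_prod.2 ⟨hc, mem_funs.2 hs⟩, h⟩, fun h => h.2⟩
    refine ⟨ZFSet.sep (fun p => p ∈ S) (prod (v w) (funs (v w) (v e))), ?_, hc, h1.congr ee, h2,
      h3, ?_⟩
    · exact Lvl_sub hU (Lvl_prod hU (hv _) (Lvl_funs hU (hv _) (hv _))) sep_subset
    · intro y hy s' hs' h5 h6
      rw [← ee _ hc s' hs']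
      exact h4 y hy s' hs' h5 h6

def CodC (U c s x : ZFSet.{u}) : Prop :=
  CodR om PP (nt 0) (nt 1) (nt 2) (nt 3) U c s x

theorem dfn_CodC (a b c d : ℕ) :
    Dfn Lvl.{u} (fun v => CodC (v a) (v b) (v c) (v d)) := by
  unfold CodC
  refine Dfn_om (A := fun W v => CodR W PP (nt 0) (nt 1) (nt 2) (nt 3) (v a) (v b) (v c) (v d)) ?_
  refine Dfn_PP (A := fun P w => CodR (w 0) P (nt 0) (nt 1) (nt 2) (nt 3) (w (a + 1)) (w (b + 1))
    (w (c + 1)) (w (d + 1))) ?_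
  refine Dfn_nt 0 (A := fun z w => CodR (w 1) (w 0) z (nt 1) (nt 2) (nt 3) (w (a + 2)) (w (b + 2))
    (w (c + 2)) (w (d + 2))) ?_
  refine Dfn_nt 1 (A := fun z w => CodR (w 2) (w 1) (w 0) z (nt 2) (nt 3) (w (a + 3)) (w (b + 3))
    (w (c + 3)) (w (d + 3))) ?_
  refine Dfn_nt 2 (A := fun z w => CodR (w 3) (w 2) (w 1) (w 0) z (nt 3) (w (a + 4)) (w (b + 4))
    (w (c + 4)) (w (d + 4))) ?_
  refine Dfn_nt 3 (A := fun z w => CodR (w 4) (w 3) (w 2) (w 1) (w 0) z (w (a + 5)) (w (b + 5))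
    (w (c + 5)) (w (d + 5))) ?_
  exact dfn_CodR 5 4 3 2 1 0 (a + 6) (b + 6) (c + 6) (d + 6)

theorem codC_iff {U s x : ZFSet.{u}} {n : ℕ} (hs : IsFunc om U s) :
    CodC U (nt n) s x ↔ x ∈ U ∧ ∀ y ∈ U,
      (Sat U (Function.update (fun m => app s (nt m)) 0 y) (dec n) ↔ y = x) := by
  constructor
  · rintro ⟨S, hc, h1, h2, h3, h4⟩
    refine ⟨h3, fun y hy => ?_⟩
    obtain ⟨s', hs', h5, h6⟩ := exists_upd hs 0 hy
    rw [← h4 y hy s' hs' (by rw [← h5]; exact app_spec hs' (nt_mem 0)) h6, satC_iff h1 n s' hs',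
      upd_of hs hs' 0 h6, h5]
  · rintro ⟨h3, h4⟩
    obtain ⟨S, hS⟩ := exists_satC U
    refine ⟨S, nt_mem n, hS, hs, h3, ?_⟩
    intro y hy s' hs' h5 h6
    rw [satC_iff hS n s' hs', upd_of hs hs' 0 h6, (app_iff hs' (nt_mem 0)).1 h5]
    exact h4 y hy

end Pool.Agent.H639
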